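import Pool.Agent.MP_a43263_nt.N2.SpecC
import Pool.Agent.MP_a43263_nt.K2.Apl

/-! Primes in almost all short progressions of a family, from the variance. -/

set_option autoImplicit false

noncomputable section

namespace Pool.Agent.MP_a43263_nt.N2

open Finset Filter K2

namespace AplA

open ArithmeticFunction K2.AplA

/-- the transform of the error terms -/
def tr (q h y : ℕ) (a : ZMod q) : ℂ := ∑ χ : DirichletCharacter ℂ q, χ⁻¹ a * er q h χ y

/-- the mean square of the error terms -/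
def vr (q h y : ℕ) : ℝ := ∑ χ : DirichletCharacter ℂ q, ‖er q h χ y‖ ^ 2

variable {q : ℕ} [NeZero q]

theorem parseval (E : DirichletCharacter ℂ q → ℂ) :
    ∑ a : ZMod q, ‖∑ χ : DirichletCharacter ℂ q, χ⁻¹ a * E χ‖ ^ 2 =
      q.totient * ∑ χ : DirichletCharacter ℂ q, ‖E χ‖ ^ 2 := by
  have h1 : ∀ χ ψ : DirichletCharacter ℂ q, ∑ a : ZMod q, χ⁻¹ a * ψ a =
      if χ = ψ then (q.totient : ℂ) else 0 := fun χ ψ => by
    simp only [← MulChar.mul_apply]
    split_ifs with h
    · rw [h, inv_mul_cancel, MulChar.sum_one_eq_card_units, ZMod.card_units_eq_totient]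
    · exact MulChar.sum_eq_zero_of_ne_one fun e => h (inv_mul_eq_one.1 e)
  have h2 : ∀ (χ : DirichletCharacter ℂ q) a, (starRingEnd ℂ) (χ⁻¹ a) = χ a := fun χ a => by
    rw [← MulChar.star_apply']
    exact star_star _
  refine Complex.ofReal_injective ?_
  push_cast
  simp only [← Complex.mul_conj', map_sum, map_mul, h2, sum_mul_sum]
  rw [sum_comm, mul_sum]
  refine sum_congr rfl fun χ _ => ?_
  rw [sum_comm]
  have h3 : ∀ ψ : DirichletCharacter ℂ q, ∑ a : ZMod q, χ⁻¹ a * E χ * (ψ a * (starRingEnd ℂ) (E ψ))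
      = if χ = ψ then (q.totient : ℂ) * (E χ * (starRingEnd ℂ) (E ψ)) else 0 := fun ψ => by
    rw [← ite_zero_mul, ← h1, sum_mul]
    exact sum_congr rfl fun _ _ => by ring
  simp only [h3, sum_ite_eq, mem_univ, if_true]

theorem tot_pos : (0 : ℝ) < q.totient := by
  exact_mod_cast Nat.totient_pos.2 (Nat.pos_of_ne_zero (NeZero.ne q))

/-- one interval, all classes -/
theorem sum_tr (h y : ℕ) {t : ℝ} (ht : 0 < t) :
    ∑ j ∈ range q, ‖tr q h y (y + j : ℕ)‖ / q.totient ≤ (t + ph q * vr q h y / t) / 2 := by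
  have h0 := tot_pos (q := q)
  have h1 : ∑ j ∈ range q, ‖tr q h y (y + j : ℕ)‖ ≤ ∑ a, ‖tr q h y a‖ := by
    rw [← sum_image (f := fun a => ‖tr q h y a‖) (g := fun j : ℕ => ((y + j : ℕ) : ZMod q))
      fun a ha b hb e => Nat.ModEq.eq_of_lt_of_lt (Nat.ModEq.add_left_cancel' y
        ((ZMod.natCast_eq_natCast_iff _ _ _).1 e)) (mem_range.1 ha) (mem_range.1 hb)]
    exact sum_le_sum_of_subset_of_nonneg (subset_univ _) fun _ _ _ => norm_nonneg _
  have h2 := sq_sum_le_card_mul_sum_sq (s := univ) (f := fun a => ‖tr q h y a‖)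
  rw [card_univ, ZMod.card, show ∑ a, ‖tr q h y a‖ ^ 2 = q.totient * vr q h y from
    parseval _] at h2
  have h3 : ((∑ a, ‖tr q h y a‖) / q.totient) ^ 2 ≤ ph q * vr q h y := by
    rw [div_pow, div_le_iff₀ (by positivity), ph]
    refine h2.trans_eq ?_
    field_simp
  rw [← sum_div]
  refine (div_le_div_of_nonneg_right h1 h0.le).trans ?_
  rw [le_div_iff₀ two_pos, ← sub_le_iff_le_add', le_div_iff₀ ht]
  nlinarith [sq_nonneg ((∑ a, ‖tr q h y a‖) / q.totient - t)]

theorem tr_eq (h y : ℕ) {a : ZMod q} (hu : IsUnit a) : tr q h y a =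
    ((q.totient * ∑ n ∈ Ico y (y + h) with a = (n : ℕ), vonMangoldt n - h : ℝ) : ℂ) := by
  have h0 : ∀ χ : DirichletCharacter ℂ q, χ⁻¹ a = χ a⁻¹ := fun χ => by
    rw [MulChar.inv_apply_eq_inv']
    exact (eq_inv_of_mul_eq_one_left (by rw [← map_mul, ZMod.inv_mul_of_unit _ hu, map_one])).symm
  have h1 : ∑ χ : DirichletCharacter ℂ q, χ⁻¹ a *
      ∑ n ∈ Ico y (y + h), (vonMangoldt n : ℂ) * χ n =
      (q.totient : ℂ) * ∑ n ∈ Ico y (y + h) with a = (n : ℕ), (vonMangoldt n : ℂ) := by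
    simp only [sum_filter, mul_sum, h0]
    rw [sum_comm]
    refine sum_congr rfl fun n _ => ?_
    have h := DirichletCharacter.sum_char_inv_mul_char_eq ℂ hu (n : ZMod q)
    calc ∑ χ : DirichletCharacter ℂ q, χ a⁻¹ * ((vonMangoldt n : ℂ) * χ n)
        = (vonMangoldt n : ℂ) * ∑ χ : DirichletCharacter ℂ q, χ a⁻¹ * χ n := by
          rw [mul_sum]
          exact sum_congr rfl fun _ _ => by ring
      _ = _ := by
          rw [h]
          split_ifs <;> ring
  have h2 : ∑ χ : DirichletCharacter ℂ q, χ⁻¹ a * ((h : ℂ) * ((ind (χ = 1) : ℝ) : ℂ)) = h := by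
    rw [sum_eq_single (1 : DirichletCharacter ℂ q)]
    · rw [inv_one, MulChar.one_apply hu, ind_pos rfl]
      simp
    · intro χ _ h
      rw [ind_neg h]
      simp
    · intro h
      exact absurd (mem_univ _) h
  push_cast
  rw [← h1, ← h2, ← sum_sub_distrib]
  refine sum_congr rfl fun χ _ => ?_
  rw [er, sum_sub_distrib, sum_const, Nat.card_Ico, Nat.add_sub_cancel_left, nsmul_eq_mul, mul_sub]

omit [NeZero q] in
/-- the class inside the interval -/
theorem cls (h y : ℕ) {j : ℕ} (hj : j < q) :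
    ∑ i ∈ range (h / q), vonMangoldt (y + j + i * q) ≤
      ∑ n ∈ Ico y (y + h) with ((y + j : ℕ) : ZMod q) = (n : ℕ), vonMangoldt n ∧
    ∑ n ∈ Ico y (y + h) with ((y + j : ℕ) : ZMod q) = (n : ℕ), vonMangoldt n ≤
      ∑ i ∈ range (h / q + 1), vonMangoldt (y + j + i * q) := by
  have hq : 0 < q := by omega
  have inj : ∀ K, ∑ n ∈ (range K).image (fun i => y + j + i * q), vonMangoldt n =
      ∑ i ∈ range K, vonMangoldt (y + j + i * q) := fun K =>
    sum_image fun a _ b _ e => Nat.eq_of_mul_eq_mul_right hq (Nat.add_left_cancel e)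
  rw [← inj, ← inj]
  constructor <;>
    refine sum_le_sum_of_subset_of_nonneg (fun n hn => ?_) fun _ _ _ => vonMangoldt_nonneg
  · obtain ⟨i, hi, rfl⟩ := mem_image.1 hn
    have h1 := (Nat.le_div_iff_mul_le hq).1 (Nat.succ_le_of_lt (mem_range.1 hi))
    rw [Nat.succ_mul] at h1
    exact mem_filter.2 ⟨mem_Ico.2 ⟨by omega, by omega⟩, by simp⟩
  · obtain ⟨h1, h2⟩ := mem_filter.1 hn
    obtain ⟨h3, h4⟩ := mem_Ico.1 h1
    have h5 := (ZMod.natCast_eq_natCast_iff _ _ _).1 h2
    have h6 : y + j ≤ n := by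
      by_contra h7
      have := Nat.le_of_dvd (by omega) ((Nat.modEq_iff_dvd' (not_le.1 h7).le).1 h5.symm)
      omega
    obtain ⟨i, hi⟩ := (Nat.modEq_iff_dvd' h6).1 h5
    rw [mul_comm] at hi
    exact mem_image.2 ⟨i, mem_range.2 (Nat.lt_succ_of_le ((Nat.le_div_iff_mul_le hq).2
      (by omega))), by omega⟩

/-- one starting point -/
theorem pt {h y j X : ℕ} (hj : j < q) (hy : q < y + j)
    (hX : y + j + h ≤ 3 * X) :
    |∑ i ∈ range (h / q), lam (y + j + i * q) -
      (h / q : ℕ) * (ph q * ind ((y + j).Coprime q))| ≤ ‖tr q h y (y + j : ℕ)‖ / q.totient +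
      (Real.log (3 * X) + ph q) + ∑ i ∈ range (h / q), pp (y + j + i * q) := by
  have h0 : 0 ≤ ∑ i ∈ range (h / q), pp (y + j + i * q) := sum_nonneg fun _ _ => pp_nonneg _
  have ht := tot_pos (q := q)
  have hq : 0 < q := by omega
  have p0 : 0 ≤ ph q := div_nonneg (Nat.cast_nonneg _) ht.le
  have k1 := Nat.div_mul_le_self h q
  have l1 : vonMangoldt (y + j + h / q * q) ≤ Real.log (3 * X) :=
    vonMangoldt_le_log.trans (Real.log_le_log (by exact_mod_cast (by omega))
      (by exact_mod_cast (by omega)))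
  have l0 := vonMangoldt_nonneg.trans l1
  by_cases hc : (y + j).Coprime q
  · obtain ⟨c1, c2⟩ := cls h y hj
    rw [sum_range_succ] at c2
    have e1 : ((h / q : ℕ) : ℝ) * ph q ≤ h / q.totient := by
      rw [ph, ← mul_div_assoc]
      exact div_le_div_of_nonneg_right (by exact_mod_cast k1) ht.le
    have e2 : (h : ℝ) / q.totient ≤ (h / q : ℕ) * ph q + ph q := by
      rw [ph, ← mul_div_assoc, ← add_div]
      exact div_le_div_of_nonneg_right (by exact_mod_cast (Nat.lt_div_mul_add hq).le) ht.le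
    rw [tr_eq h y ((ZMod.isUnit_iff_coprime _ q).2 hc), Complex.norm_real, Real.norm_eq_abs,
      ← abs_of_pos ht, ← abs_div, abs_of_pos ht, sub_div, mul_div_cancel_left₀ _ ht.ne']
    simp only [lam_eq]
    rw [ind_pos hc, mul_one, sum_sub_distrib, abs_le]
    obtain ⟨a1, a2⟩ := abs_le.1 (le_refl |∑ n ∈ Ico y (y + h) with ((y + j : ℕ) : ZMod q) = (n : ℕ),
      vonMangoldt n - (h : ℝ) / q.totient|)
    constructor <;> linarith
  · have h1 : ∑ i ∈ range (h / q), lam (y + j + i * q) = 0 :=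
      sum_eq_zero fun i _ => if_neg fun hp => hc ((Nat.coprime_add_mul_right_left _ q i).1
        ((Nat.Prime.coprime_iff_not_dvd hp).2 fun hd => by
          have := Nat.le_of_dvd hq hd
          omega))
    rw [h1, ind_neg hc, mul_zero, mul_zero, sub_zero, abs_zero]
    positivity

/-- one modulus -/
theorem one {h X : ℕ} (hX : 1 ≤ X) (hq : q ≤ X / 100) (hh : h ≤ X) {t : ℝ}
    (ht : 0 < t) :
    q * ∑ y ∈ Ioc (X + X / 100) (2 * X), |∑ i ∈ range (h / q), lam (y + i * q) -
      (h / q : ℕ) * (ph q * ind (y.Coprime q))| ≤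
      (X * t + ph q * (∑ y ∈ Ioc X (2 * X), vr q h y) / t) / 2 + q * (X * (Real.log (3 * X) + ph q)
        + (h / q : ℕ) * (2 * √(3 * X : ℝ) * Real.log (3 * X))) := by
  have ht0 := tot_pos (q := q)
  have cX : #(Ioc X (2 * X)) = X := by rw [Nat.card_Ioc]; omega
  have sub : Ioc (X + X / 100) (2 * X) ⊆ Ioc X (2 * X) := Ioc_subset_Ioc_left (by omega)
  have c0 : 0 ≤ Real.log (3 * X) + ph q := add_nonneg
    (by exact_mod_cast Real.log_natCast_nonneg (3 * X)) (div_nonneg (Nat.cast_nonneg _) ht0.le)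
  have h1 : ∀ j ∈ range q, ∑ y ∈ Ioc (X + X / 100) (2 * X), |∑ i ∈ range (h / q),
      lam (y + i * q) - (h / q : ℕ) * (ph q * ind (y.Coprime q))| ≤
      ∑ y ∈ Ioc X (2 * X), ‖tr q h y (y + j : ℕ)‖ / q.totient + (X * (Real.log (3 * X) + ph q)
        + (h / q : ℕ) * (2 * √(3 * X : ℝ) * Real.log (3 * X))) := fun j hj => by
    have hj := mem_range.1 hj
    calc _ ≤ ∑ y ∈ Ioc (X + X / 100) (2 * X), (‖tr q h (y - j) y‖ / q.totient +
          (Real.log (3 * X) + ph q) + ∑ i ∈ range (h / q), pp (y + i * q)) := by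
          refine sum_le_sum fun y hy => ?_
          obtain ⟨y1, y2⟩ := mem_Ioc.1 hy
          have := pt (h := h) (y := y - j) (X := X) hj (by omega) (by omega)
          rwa [Nat.sub_add_cancel (by omega)] at this
      _ ≤ _ := by
          rw [sum_add_distrib, sum_add_distrib, add_assoc]
          refine add_le_add ?_ (add_le_add ?_ ?_)
          · refine (sum_le_sum_of_subset_of_nonneg (t := (Ioc X (2 * X)).image (· + j))
              (fun y hy => ?_) fun _ _ _ => by positivity).trans_eq ?_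
            · obtain ⟨y1, y2⟩ := mem_Ioc.1 hy
              exact mem_image.2 ⟨y - j, mem_Ioc.2 ⟨by omega, by omega⟩, by omega⟩
            · rw [sum_image fun _ _ _ _ e => Nat.add_right_cancel e]
              simp only [Nat.add_sub_cancel]
          · refine (sum_le_sum_of_subset_of_nonneg sub fun _ _ _ => c0).trans_eq ?_
            rw [sum_const, cX, nsmul_eq_mul]
          · rw [sum_comm]
            refine (sum_le_card_nsmul _ _ _ fun i hi => (sum_le_sum_of_subset_of_nonneg sub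
              fun _ _ _ => pp_nonneg _).trans (pp_sum hX ?_)).trans_eq
              (by rw [card_range, nsmul_eq_mul])
            exact ((Nat.mul_le_mul_right q (mem_range.1 hi).le).trans
              (Nat.div_mul_le_self h q)).trans hh
  have h2 := sum_le_sum h1
  rw [sum_const, sum_add_distrib, sum_const, card_range, nsmul_eq_mul, nsmul_eq_mul,
    sum_comm] at h2
  refine h2.trans (add_le_add ((sum_le_sum fun y _ => sum_tr h y ht).trans_eq ?_) le_rfl)
  rw [← sum_div, sum_add_distrib, sum_const, cX, nsmul_eq_mul, ← sum_div, ← mul_sum]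

end AplA

open AplA in
theorem apl_n : PHAStmt → VARStmt → APLStmt := by
  intro pha var A B
  filter_upwards [var (2 * A + 7) B, ev_le_log 3, ev_log_le 192 (2 * (A + 1)),
    ev_log_le (10 ^ 12) (12 * (A + 4)), eventually_ge_atTop (10 ^ 6)] with X hS hL hX hX' hX1
    U h D s s' q T hF
  have hS := hS U h D s s' q T hF
  set L := Real.log X with hLdef
  have hL0 : 0 < L := by linarith
  have hX0 : (0 : ℝ) < X := by exact_mod_cast (by omega : 0 < X)
  have hh4 : (X : ℝ) ≤ (h : ℝ) ^ 4 := by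
    have := pow_le_pow_left₀ (by positivity) hF.lo 4
    rwa [← Real.rpow_natCast, ← Real.rpow_mul hX0.le, show (1 / 4 * (4 : ℕ) : ℝ) = 1 by norm_num,
      Real.rpow_one] at this
  have hh0 : (0 : ℝ) < h := lt_of_lt_of_le (by positivity) hF.lo
  have e1 : Real.log (3 * X) ≤ 2 * L := by
    rw [Real.log_mul (by norm_num) hX0.ne']
    have := Real.log_le_sub_one_of_pos (show (0 : ℝ) < 3 by norm_num)
    linarith
  have h3 : 2 * √(3 * X : ℝ) * Real.log (3 * X) ≤ X / L ^ A / 2 := by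
    have e2 : 8 * √(3 * X : ℝ) * L ^ (A + 1) ≤ X := by
      refine le_trans (le_abs_self _) (abs_le_of_sq_le_sq ?_ hX0.le)
      rw [mul_pow, mul_pow, Real.sq_sqrt (by positivity), ← pow_mul, mul_comm (A + 1) 2]
      calc (8 : ℝ) ^ 2 * (3 * X) * L ^ (2 * (A + 1)) = X * (192 * L ^ (2 * (A + 1))) := by ring
        _ ≤ X * X := mul_le_mul_of_nonneg_left hX hX0.le
        _ = _ := by ring
    rw [div_div, le_div_iff₀ (by positivity)]
    calc 2 * √(3 * X : ℝ) * Real.log (3 * X) * (L ^ A * 2)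
        ≤ 2 * √(3 * X : ℝ) * (2 * L) * (L ^ A * 2) := by gcongr
      _ = 8 * √(3 * X : ℝ) * L ^ (A + 1) := by ring
      _ ≤ X := e2
  have h1 : ∀ u ∈ T, (∑ y ∈ Ioc (X + X / 100) (2 * X), |∑ i ∈ range (h / q u),
      lam (y + i * q u) - (h / q u : ℕ) * (ph (q u) * ind (y.Coprime (q u)))|) / (h / q u : ℕ) ≤
      3 * L ^ (A + 4) / (h : ℝ) ^ 2 * ∑ y ∈ Ioc X (2 * X), vr (q u) h y +
        (2 * (X / L ^ (A + 3)) + X / L ^ A / 2) := fun u hu => by
    obtain ⟨u1, u2⟩ := mem_Ioc.1 (hF.sub hu)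
    have q0 : 0 < q u := by
      rw [hF.eq u hu]
      exact Nat.mul_pos hF.D1 (Nat.mul_pos (pow_pos (by omega) 2) (by omega))
    have q1 : q u ^ 3 ≤ h ^ 2 := by
      have := hF.s1
      have := hF.s2
      have a1 : q u ≤ 54 * D * U ^ 3 := by
        calc q u = D * ((u + s) ^ 2 * (2 * u + s')) := hF.eq u hu
          _ ≤ D * ((3 * U) ^ 2 * (6 * U)) := by gcongr <;> omega
          _ = _ := by ring
      have a2 : U ^ 3 ≤ 54 * D * U ^ 3 := Nat.le_mul_of_pos_left _ (by have := hF.D1; omega)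
      exact (Nat.pow_le_pow_left a1 3).trans (Nat.le_of_mul_le_mul_right
        ((pow_succ _ 3).ge.trans (hF.big.trans (Nat.mul_le_mul_left _ a2))) (by omega))
    generalize q u = Q at q0 q1 ⊢
    have : NeZero Q := ⟨q0.ne'⟩
    have q2 : Q ≤ X / 100 := by
      rw [Nat.le_div_iff_mul_le (by norm_num)]
      refine (Nat.pow_le_pow_iff_left (n := 3) (by norm_num)).1 ?_
      calc (Q * 100) ^ 3 = Q ^ 3 * 100 ^ 3 := mul_pow _ _ _
        _ ≤ X ^ 2 * X := Nat.mul_le_mul (q1.trans (Nat.pow_le_pow_left hF.hi 2))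
          (le_trans (by norm_num) hX1)
        _ = _ := by ring
    have Q0 : (0 : ℝ) < Q := by exact_mod_cast q0
    have q3 : 10 * L ^ (A + 4) * Q ≤ h := by
      refine le_of_pow_le_pow_left₀ (n := 12) (by norm_num) hh0.le ?_
      calc (10 * L ^ (A + 4) * Q) ^ 12 = 10 ^ 12 * L ^ (12 * (A + 4)) * ((Q : ℝ) ^ 3) ^ 4 := by ring
        _ ≤ (h : ℝ) ^ 4 * ((h : ℝ) ^ 2) ^ 4 :=
          mul_le_mul (hX'.trans hh4) (pow_le_pow_left₀ (by positivity) (by exact_mod_cast q1) 4)
            (by positivity) (by positivity)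
        _ = _ := by ring
    have q4 : (h : ℝ) < (h / Q : ℕ) * Q + Q := by exact_mod_cast Nat.lt_div_mul_add q0
    have l1 : 1 ≤ L ^ (A + 4) := one_le_pow₀ (by linarith)
    have q5 : 10 * L ^ (A + 4) < (h / Q : ℕ) + 1 := lt_of_mul_lt_mul_right (by linarith) Q0.le
    have K1 : (1 : ℝ) ≤ (h / Q : ℕ) := by linarith
    have p1 : ph Q ≤ 3 * L := by
      have := Real.log_le_log Q0 (show (Q : ℝ) ≤ X by exact_mod_cast (by omega))
      linarith [(pha.1 Q q0).2]
    have h2 := one (q := Q) (by omega) q2 hF.hi (t := h / L ^ (A + 3)) (by positivity)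
    have v0 : 0 ≤ ∑ y ∈ Ioc X (2 * X), vr Q h y :=
      sum_nonneg fun _ _ => sum_nonneg fun _ _ => by positivity
    generalize ∑ y ∈ Ioc X (2 * X), vr Q h y = V at h2 v0 ⊢
    generalize ((h / Q : ℕ) : ℝ) = K at h2 q4 q5 K1 ⊢
    have a1 : (X * (h / L ^ (A + 3)) + ph Q * V / (h / L ^ (A + 3))) / 2 ≤
        (3 * L ^ (A + 4) / (h : ℝ) ^ 2 * V + X / L ^ (A + 3)) * (K * Q) := by
      calc _ ≤ (X * (h / L ^ (A + 3)) + 3 * L * V / (h / L ^ (A + 3))) / 2 := by gcongr
        _ = (3 * L ^ (A + 4) / (h : ℝ) ^ 2 * V + X / L ^ (A + 3)) * (h / 2) := by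
          field_simp
          ring
        _ ≤ _ := by
          gcongr
          nlinarith
    have a2 : X * (Real.log (3 * X) + ph Q) ≤ X / L ^ (A + 3) * K := by
      calc _ ≤ X * (5 * L) := by gcongr; linarith
        _ = X / L ^ (A + 3) * (5 * L ^ (A + 4)) := by field_simp; ring
        _ ≤ _ := by gcongr; linarith
    have a3 := mul_le_mul_of_nonneg_left h3 (zero_le_one.trans K1)
    rw [div_le_iff₀ (by linarith)]
    refine le_of_mul_le_mul_left (h2.trans ?_) Q0
    have := mul_le_mul_of_nonneg_left (add_le_add a2 a3) Q0.le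
    linarith
  have cT : (#T : ℝ) ≤ U := by
    have := card_le_card hF.sub
    rw [Nat.card_Ioc] at this
    exact_mod_cast (by omega)
  refine (sum_le_sum h1).trans ?_
  rw [sum_add_distrib, ← mul_sum, sum_const, nsmul_eq_mul]
  have b1 := mul_le_mul_of_nonneg_left hS (show 0 ≤ 3 * L ^ (A + 4) / (h : ℝ) ^ 2 by positivity)
  have b2 : 3 * L ^ (A + 4) / (h : ℝ) ^ 2 * ((U : ℝ) * (h : ℝ) ^ 2 * X / L ^ (2 * A + 7)) =
      U * (3 * (X / L ^ (A + 3))) := by
    field_simp
    ring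
  have b3 : (X : ℝ) / L ^ (A + 3) ≤ X / L ^ A / 10 := by
    rw [div_div, pow_add]
    gcongr
    exact le_trans (by norm_num) (pow_le_pow_left₀ (by norm_num) hL 3)
  have b4 := mul_le_mul_of_nonneg_right cT
    (show (0 : ℝ) ≤ 2 * (X / L ^ (A + 3)) + X / L ^ A / 2 by positivity)
  have b5 := mul_le_mul_of_nonneg_left b3 (Nat.cast_nonneg (α := ℝ) U)
  rw [b2] at b1
  refine (add_le_add b1 b4).trans ?_
  rw [mul_div_assoc]
  linarith

end Pool.Agent.MP_a43263_nt.N2
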