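import Pool.Agent.MP_a43263_nt.N2.SpecB
import Pool.Agent.MP_a43263_nt.K2.Bad

/-! THEOREM N2: the neighbours. -/

set_option autoImplicit false

noncomputable section

namespace Pool.Agent.MP_a43263_nt.N2

open Polynomial Finset Filter Matrix JC Pool.Agent.MP_a43263_nt.UV K2

namespace BadnA

variable {g : ℕ}

theorem mK_inv {A : Mat g ℤ} (h : IsUnit A.det) (R : Type) [CommRing R] :
    (mK A R)⁻¹ = mK A⁻¹ R :=
  inv_eq_right_inv (by rw [← mK_mul, mul_nonsing_inv _ h]; exact Matrix.map_one _ (by simp) (by simp))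

theorem mK_Tt {A A' : Mat g ℤ} (N : Mat g ℤ) (h : IsUnit A.det) (h' : IsUnit A'.det) (R : Type)
    [CommRing R] : Tt (mK A R) (mK A' R) (mK N R) = mK (Tt A A' N) R := by
  rw [Tt, Tt, mK_inv h, mK_inv h', ← mK_transpose, ← mK_mul, ← mK_mul, ← mK_mul]
  generalize A⁻¹ * Nᵀ * A'⁻¹ * N = B
  ext i j
  simp [one_apply]

theorem frame {f : ℤ[X]} {Λ : Set ℚ[X]} {b : Fin (2 * g + 1) → ℚ[X]} {A T : Mat g ℤ} {p l : ℕ}
    (hf : Zq g f) (h : SD f 1 Λ) (hp : C (p : ℚ) ∈ Λ) (hb : Bs g f Λ b) (hT : Mt g f 1 b A T)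
    (p1 : p.Prime) (l1 : l.Prime) (ne : l ≠ p) : Frm g l f 1 A T := by
  choose z hz using fun j : Fin (2 * g + 1) => hb.span _ (h.zmul (X ^ j.1) hp)
  have hz' : ∀ j : Fin (2 * g + 1),
      zK f ℚ ∣ C (p : ℚ) * X ^ j.1 - Dst.cb b fun i => (z j i : ℚ) := fun j => by
    have := hz j
    rwa [show zK (X ^ j.1) ℚ = X ^ j.1 by simp, mul_comm] at this
  have lp : ¬(l : ℤ) ∣ (p : ℤ) := fun c =>
    ne ((Nat.prime_dvd_prime_iff_eq l1 p1).1 (Int.natCast_dvd_natCast.1 c))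
  have e1 : (of z)ᵀᵀ * A * (of z)ᵀ = Gm g f (C ((p : ℤ) ^ 2) * 1) := by
    ext j k
    refine Int.cast_injective (α := ℚ) ?_
    have a1 := Dst.cb_ta hT (fun i => (z j i : ℚ)) fun i => (z k i : ℚ)
    rw [Dst.cast_form] at a1
    have a2 : ((of z)ᵀᵀ * A * (of z)ᵀ) j k = z j ⬝ᵥ A *ᵥ z k := by
      rw [Matrix.mul_assoc]
      simp [mul_apply, dotProduct, mulVec]
    rw [a2, ← a1, Gm, of_apply]
    refine (ta_congr (hf.mo ℚ) ?_).trans (ta_map hf.monic (Int.castRingHom ℚ) _)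
    refine (dvd_neg.2 (dvd_add ((hz' j).mul_right (C (p : ℚ) * X ^ k.1))
      ((hz' k).mul_left (Dst.cb b fun i => (z j i : ℚ))))).trans (dvd_of_eq ?_)
    simp only [Polynomial.map_mul, Polynomial.map_pow, map_X, Polynomial.map_one, map_pow,
      map_natCast, Polynomial.map_natCast]
    ring
  refine ⟨(of z)ᵀ, p, fun c => lp ?_, lp, e1, ?_⟩
  · have a1 := congrArg (fun B : Mat g ℤ => ((B.det : ℤ) : ℚ)) e1
    rw [← mK_det (R := ℚ) (Gm g f _), mK, ← Gm_map hf.monic, (gram.2 ℚ g _ (hf.sq ℚ)).1,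
      show (C ((p : ℤ) ^ 2) * 1 : ℤ[X]).map (Int.castRingHom ℚ) = C ((p : ℚ) ^ 2) by simp,
      (gram.1 ℚ _ (hf.mo ℚ)).2.2.1, det_mul, det_mul] at a1
    have a2 : (of z)ᵀᵀ.det * A.det * (of z)ᵀ.det =
        (-1) ^ g * ((p : ℤ) ^ 2) ^ (zK f ℚ).natDegree := by exact_mod_cast a1
    have a3 : (l : ℤ) ∣ (-1) ^ g * ((p : ℤ) ^ 2) ^ (zK f ℚ).natDegree := a2 ▸ c.mul_left _
    have l2 := Nat.prime_iff_prime_int.1 l1
    rcases l2.dvd_or_dvd a3 with a | a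
    · exact absurd (isUnit_of_dvd_unit a (isUnit_one.neg.pow g)) l2.not_isUnit
    · exact l2.dvd_of_dvd_pow (l2.dvd_of_dvd_pow a)
  · ext i j
    refine Int.cast_injective (α := ℚ) ?_
    have a1 := Dst.cb_X hT fun i => (z j i : ℚ)
    have a2 : zK f ℚ ∣ X ^ (j.1 + 1) - ∑ k : Fin (2 * g + 1), C (Cx g f k j : ℚ) * X ^ k.1 := by
      have := Polynomial.map_dvd (Int.castRingHom ℚ) (dvd_sub_mod (f := f) (X ^ (j.1 + 1)))
      rw [← po_ve hf.monic hf.deg] at this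
      simpa [po, ve, Cx, Polynomial.map_sum] using this
    have a3 := Finset.dvd_sum (s := univ) fun (k : Fin (2 * g + 1)) _ =>
      (hz' k).mul_left (C (Cx g f k j : ℚ))
    have a4 := Dst.cb_inj hb (x := mK T ℚ *ᵥ fun i => (z j i : ℚ))
      (y := ∑ k, (Cx g f k j : ℚ) • fun i => (z k i : ℚ)) (by
        rw [Dst.cb_sum]
        refine (dvd_sub (dvd_sub (dvd_add (a2.mul_left (C (p : ℚ))) a3) ((hz' j).mul_left X))
          a1).trans (dvd_of_eq ?_)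
        simp only [mul_sub, sum_sub_distrib, mul_sum, mul_left_comm (C (p : ℚ))]
        ring)
    simpa [mul_apply, mulVec, dotProduct, Finset.sum_apply, mul_comm] using congrFun a4 i

end BadnA

open BadnA in
theorem badn_n : K2.LATStmt → TRIStmt → K2.MAJStmt → SHPStmt → MTXStmt → BADNStmt := by
  intro lat2 tri maj shp mtx g Q m₀ a f m M ρ p hS hF hn hρ hθ hM p1 p2 p3 p6 p4 p5
  have hf := hF.zq
  have hm := hF.ev
  obtain ⟨Λ, h3, b2, b3⟩ := nbr g p f hf p1 p2 p5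
  have h1 : IsCoprime (1 : ℚ[X]) (zK f ℚ) := isCoprime_one_left
  have h2 : IsSquare (Nm (zK f ℚ) 1) := by
    rw [← C_1, (gram.1 ℚ _ (hf.mo ℚ)).2.2.1, one_pow]
    exact IsSquare.one
  have h4 : ∀ q ∈ Q, Loc q f 1 Λ := fun q hq => ⟨_, b2, C ((p : ℤ) ^ 2), p,
    by simp [zK], fun c => p3 (by
      rwa [← (Nat.prime_dvd_prime_iff_eq (hF.ty q hq).1 p1).1
        ((ZMod.natCast_eq_zero_iff p q).1 c)]), by simp⟩
  have m0 := WtgA.m_ne hf hm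
  have e1 : (zK f ℚ).eval 1 = (m : ℚ) ^ 2 := by rw [eval_one_map, hm]; simp
  have k1 : IsCoprime (1 * (1 - X)) (zK f ℚ) :=
    h1.mul_left (WtgA.cop_lin (x := 1) (by rw [e1]; simpa using m0))
  have k2 : IsSquare (Nm (zK f ℚ) (1 * (1 - X))) := by
    rw [(gram.1 ℚ _ (hf.mo ℚ)).1, BadA.nm_lin, e1]
    exact h2.mul (IsSquare.sq _)
  obtain ⟨Λ', k3, hs⟩ := lat2 g f m 1 Λ hf hm hF.co h1 h3
  obtain ⟨b, hb⟩ := bs1 g f 1 Λ hf h1 h3
  obtain ⟨A, T, hT, hR⟩ := bs2 g f 1 Λ b hf h1 h3 hb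
  obtain ⟨b', hb'⟩ := bs1 g f _ Λ' hf k1 k3
  obtain ⟨A', T', hT', hR'⟩ := bs2 g f _ Λ' b' hf k1 k3 hb'
  obtain ⟨N, hN, rfl, rfl⟩ := tri g f m 1 Λ' b b' A T A' T' hf hm hb' (fun i => hs (hb.mem i))
    hT hR hT' hR'
  obtain ⟨H, H', hH⟩ := maj g f m A A' N ρ hf m0 hN hθ
  have r : 1 ≤ ρ ^ 2 := one_le_pow₀ hρ
  refine ⟨A, A', N, H, H', hN, ⟨fun q hq => ⟨1, by simp, ?_, ?_⟩, fun l l1 l2 => ?_,
    fun l l1 l2 _ => ?_⟩, hH,
    dst (uniq gram) gs g f 1 Λ b A _ H M _ hf h1 h2 h3 hb hT r hH.h hM (.inr ⟨rfl, p, p1, p4, b3⟩),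
    fun M' a => dst (uniq gram) gs g f _ Λ' b' A' _ H' M' _ hf k1 k2 k3 hb' hT' r hH.h' a
      (.inl (by rwa [one_mul]))⟩
  · rw [one_smul, mK_Tt N hN.det hN.det', ← mK_mul]
    exact strq g q f 1 Λ b A _ hf (hF.ty q hq).1 (hF.ty q hq).2 h3 hb hT hR (h4 q hq)
  · rw [one_smul, mK_det, hN.dt]
  · exact absurd (Nat.dvd_one.1 l2) l1.ne_one
  · have a1 := ((shp l g f 1 a A _ l1 hf (by simpa [zK] using isCoprime_one_left)).2
      (fun c => hS.odd (c ▸ l2)) (hF.rt l l1 l2) (by simp)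
      (mtx g f 1 Λ b A _ hf h1 h2 hb hT).2.2.2.2.1).2
      (frame hf h3 b2 hb hT p1 l1 fun c => p6 (c ▸ l2))
    rw [L2, show (((1 : ℕ) : ℤ) ^ 2 * (1 - a) - 1) • A + A * Tt A A' N = A * Tt A A' N - a • A by
      rw [show ((1 : ℕ) : ℤ) ^ 2 * (1 - a) - 1 = -a by simp, neg_smul, neg_add_eq_sub]]
    exact a1

end Pool.Agent.MP_a43263_nt.N2
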