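import Pool.Agent.MP_a43263_nt.N2.SpecB

/-! Ordered bases of a subspace over a finite field. -/

set_option autoImplicit false

noncomputable section

namespace Pool.Agent.MP_a43263_nt.N2

open Polynomial Finset Filter Matrix JC Pool.Agent.MP_a43263_nt.UV K2

namespace BasA

theorem prod_ge {q : ℝ} (hq : 3 ≤ q) (k : ℕ) :
    q ^ (k * k) * (q ^ (k + 1) + 3) ≤ (q + 3) * (∏ i ∈ Finset.range k, (q ^ k - q ^ i)) * q ^ k := by
  induction k with
  | zero => simp
  | succ k ih =>
    have e : ∏ i ∈ Finset.range (k + 1), (q ^ (k + 1) - q ^ i) =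
        (∏ i ∈ Finset.range k, (q ^ k - q ^ i)) * q ^ k * (q ^ (k + 1) - 1) := by
      rw [Finset.prod_range_succ', pow_zero]
      congr 1
      have : ∀ i ∈ Finset.range k, q ^ (k + 1) - q ^ (i + 1) = (q ^ k - q ^ i) * q :=
        fun i _ => by ring
      rw [Finset.prod_congr rfl this, Finset.prod_mul_distrib, Finset.prod_const,
        Finset.card_range]
    have q0 : 0 < q := by linarith
    have a1 : 1 ≤ q ^ k := one_le_pow₀ (by linarith)
    have hQ : 3 ≤ q ^ (k + 1) := by rw [pow_succ]; nlinarith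
    have e2 : q ^ ((k + 1) * (k + 1)) = q ^ (k * k) * (q ^ k * q ^ (k + 1)) := by ring
    have e3 : q ^ (k + 1 + 1) = q * q ^ (k + 1) := by ring
    have e4 : q ^ (k + 1) = q * q ^ k := by ring
    have b : q ^ k * (q * q ^ (k + 1) + 3) ≤ (q ^ (k + 1) + 3) * (q ^ (k + 1) - 1) := by
      rw [e4] at hQ ⊢
      nlinarith
    rw [e, e2, e3]
    calc _ = q ^ (k * k) * (q ^ k * (q * q ^ (k + 1) + 3)) * q ^ (k + 1) := by ring
      _ ≤ q ^ (k * k) * ((q ^ (k + 1) + 3) * (q ^ (k + 1) - 1)) * q ^ (k + 1) := by gcongr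
      _ = q ^ (k * k) * (q ^ (k + 1) + 3) * ((q ^ (k + 1) - 1) * q ^ (k + 1)) := by ring
      _ ≤ (q + 3) * (∏ i ∈ Finset.range k, (q ^ k - q ^ i)) * q ^ k *
          ((q ^ (k + 1) - 1) * q ^ (k + 1)) :=
        mul_le_mul_of_nonneg_right ih (mul_nonneg (by linarith) (by linarith))
      _ = _ := by ring

theorem prod_ge' {q : ℝ} (hq : 3 ≤ q) (k : ℕ) :
    q ^ (k * k) ≤ (1 + 3 / q) * ∏ i ∈ Finset.range k, (q ^ k - q ^ i) := by
  have q0 : 0 < q := by linarith
  have h := prod_ge hq k
  have p : 0 < q ^ (k + 1) := by positivity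
  have p2 : 0 < q ^ (k * k) := by positivity
  refine le_of_mul_le_mul_right ?_ p
  have e : (1 + 3 / q) * (∏ i ∈ Finset.range k, (q ^ k - q ^ i)) * q ^ (k + 1) =
      (q + 3) * (∏ i ∈ Finset.range k, (q ^ k - q ^ i)) * q ^ k := by
    field_simp
    ring
  rw [e]
  nlinarith

end BasA

theorem bas_n : BASStmt := by
  intro F _ _ hF k V _ _ W hW
  have hq : (3 : ℝ) ≤ Fintype.card F := by exact_mod_cast hF
  have hfin : Finite W := Nat.finite_of_card_ne_zero (by rw [hW]; positivity)
  have hk : Module.finrank F W = k := by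
    have := Module.natCard_eq_pow_finrank (K := F) (V := W)
    rw [hW, Nat.card_eq_fintype_card] at this
    exact (Nat.pow_right_injective (by omega) this).symm
  let : Fintype W := Fintype.ofFinite W
  have hc := card_linearIndependent (K := F) (V := W) (k := k) hk.ge
  rw [hk] at hc
  have key : Nat.card {s : Fin k → W // LinearIndependent F s} =
      Nat.card {x : Fin k → V // LinearIndependent F x ∧ Submodule.span F (Set.range x) = W} := by
    refine Nat.card_congr ⟨fun s => ⟨fun i => (s.1 i : V), s.2.map' W.subtype W.ker_subtype, ?_⟩,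
      fun x => ⟨fun i => ⟨x.1 i, x.2.2.le (Submodule.subset_span ⟨i, rfl⟩)⟩,
        LinearIndependent.of_comp W.subtype x.2.1⟩, fun s => rfl, fun x => rfl⟩
    have h1 : Submodule.span F (Set.range s.1) = ⊤ :=
      s.2.span_eq_top_of_card_eq_finrank' (by simp [hk])
    have h2 := congrArg (Submodule.map W.subtype) h1
    rw [Submodule.map_span, Submodule.map_subtype_top, ← Set.range_comp] at h2
    exact h2
  rw [← key, hc, Fin.prod_univ_eq_prod_range
    (fun i => Fintype.card F ^ k - Fintype.card F ^ i) k, Nat.cast_prod]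
  refine (BasA.prod_ge' hq k).trans (le_of_eq ?_)
  congr 1
  refine Finset.prod_congr rfl fun i hi => ?_
  rw [Nat.cast_sub (Nat.pow_le_pow_right (by omega) (Finset.mem_range.1 hi).le)]
  push_cast
  rfl

end Pool.Agent.MP_a43263_nt.N2
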