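import Pool.Agent.MP_a43263_nt.N2.SpecB
import Pool.Agent.MP_a43263_nt.K2.Ev2

/-! THEOREM N2: the invariants of the marked class at a simple root. -/

set_option autoImplicit false

noncomputable section

namespace Pool.Agent.MP_a43263_nt.N2

open Polynomial Finset Filter Matrix JC Pool.Agent.MP_a43263_nt.UV K2
open UV.Cmp (unit_iff zero_iff)

namespace BegA

open Ev2A

theorem key {R : Type} [CommRing R] {h x r π P t G E : R} (h1 : h ∣ x - P * t)
    (h2 : h ∣ r - -G * E * t) (h3 : h ∣ π - P * t) :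
    h ∣ -(P * G) * E * x ^ 2 - P ^ 2 * (r * π) := by
  obtain ⟨a, ha⟩ := h1
  obtain ⟨b, hb⟩ := h2
  obtain ⟨c, hc⟩ := h3
  rw [sub_eq_iff_eq_add] at ha hb hc
  exact ⟨-(P * G) * E * (h * a ^ 2 + 2 * a * P * t) -
    P ^ 2 * (h * b * c + b * P * t - G * E * t * c), by rw [ha, hb, hc]; ring⟩

variable {p : ℕ} [Fact p.Prime] {a u v : ℤ}

theorem root (uv : IsCoprime u v) (d : (p : ℤ) ∣ (el u v).eval a) : (v : ZMod p) ≠ 0 ∧
    zK (el u v) (ZMod p) = C ((v : ZMod p) ^ 2) * (X - C (a : ZMod p)) := by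
  have e : (v : ZMod p) ^ 2 * (a - 1) + (u : ZMod p) ^ 2 = 0 := by
    simpa [el] using (ZMod.intCast_zmod_eq_zero_iff_dvd _ p).2 d
  refine ⟨fun c => ?_, ?_⟩
  · have := uv.map (Int.castRingHom (ZMod p))
    rw [eq_intCast, eq_intCast, c, isCoprime_zero_right] at this
    rw [c, zero_pow two_ne_zero, zero_mul, zero_add] at e
    exact (this.pow 2).ne_zero e
  · rw [el_eq, (eq_neg_of_add_eq_zero_right e), C_neg, C_mul, C_sub, C_1]
    ring

end BegA

open BegA Ev2A in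
theorem beg_n : HENStmt → BEGStmt := by
  intro hen p _ g f a u v G _ Z rt nm uv d2 d1
  obtain ⟨α, h, t, H⟩ := hen p g f a Z rt
  obtain ⟨v0, e0⟩ := root uv d1
  have dh : (rq p h).natDegree = 2 * g := by
    have e := Z.dg ℤ_[p]
    rw [H.eq, (monic_X_sub_C α).natDegree_mul H.monic, natDegree_X_sub_C] at e
    rw [H.monic.natDegree_map]
    omega
  have n1 : (G : ℤ_[p]) = -(zK (el u v) ℤ_[p]).eval α * Nm h (-zK (el u v) ℤ_[p]) := by
    have := (UV.gram.1 _ _ Z.monic).2.2.2.2.2 ℤ_[p] (Int.castRingHom _) (-el u v)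
    rw [nm, eq_intCast, Polynomial.map_neg] at this
    rw [← this, ← zK, H.eq, (UV.gram.1 _ _ (monic_X_sub_C _)).2.2.2.2.1 _ H.monic, Nm,
      natDegree_X_sub_C, resultant_X_sub_C_left _ _ _ le_rfl, eval_neg]
  have n2 : PadicInt.toZMod (Nm h (-zK (el u v) ℤ_[p])) =
      ((-(v : ZMod p) ^ 2) ^ g) ^ 2 * (rq p h).eval (a : ZMod p) := by
    obtain ⟨k1, -, k3, -⟩ := UV.gram.1 _ _ (H.monic.map (PadicInt.toZMod (p := p)))
    rw [← (UV.gram.1 _ _ H.monic).2.2.2.2.2, Polynomial.map_neg, zK_map, e0, ← neg_mul, ← C_neg,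
      k1, k3, dh, Nm, natDegree_X_sub_C, resultant_X_sub_C_right _ _ _ le_rfl, dh, ← pow_mul,
      mul_comm g, pow_mul (-1 : ZMod p), neg_one_sq, one_pow, one_mul]
  have s0 : (-(v : ZMod p) ^ 2) ^ g ≠ 0 := pow_ne_zero _ (neg_ne_zero.2 (pow_ne_zero _ v0))
  generalize (-(v : ZMod p) ^ 2) ^ g = w at n2 s0
  have eb : zK (be u v G) ℤ_[p] = -C (G : ℤ_[p]) * zK (el u v) ℤ_[p] := by simp [be, zK]
  rw [← rq_zK] at e0
  generalize zK (el u v) ℤ_[p] = E at n1 n2 eb e0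
  generalize Nm h (-E) = N at n1 n2
  obtain ⟨c, hc⟩ := (PadicInt.norm_lt_one_iff_dvd (E.eval α)).1 (zero_iff.1 (by
    rw [← rq_eval, e0, H.red]
    simp))
  have p0 : (p : ℤ_[p]) ≠ 0 := Nat.cast_ne_zero.2 (Fact.out : p.Prime).ne_zero
  obtain ⟨G', rfl⟩ := (ZMod.intCast_zmod_eq_zero_iff_dvd G p).1 (by
    rw [← map_intCast (PadicInt.toZMod (p := p)), n1, hc]
    simp)
  have g0 : (G' : ZMod p) ≠ 0 := fun c => d2 (by
    rw [pow_two]
    exact mul_dvd_mul_left _ ((ZMod.intCast_zmod_eq_zero_iff_dvd _ p).1 c))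
  have n3 : (G' : ℤ_[p]) = -c * N := mul_left_cancel₀ p0 (by
    rw [hc] at n1
    push_cast at n1
    linear_combination n1)
  have c0 : PadicInt.toZMod c ≠ 0 := fun e => g0 (by
    rw [← map_intCast (PadicInt.toZMod (p := p)), n3, map_mul, map_neg, e, neg_zero, zero_mul])
  have ua : IsUnit (h.eval α) := unit_iff.2 (by rw [← rq_eval, H.red]; exact H.ne)
  obtain ⟨s, hs⟩ := (unit_iff.2 (H.val ▸ pow_ne_zero 3 H.ne)).exists_right_inv
  have hs' := congrArg PadicInt.toZMod hs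
  rw [map_mul, H.val, map_one] at hs'
  obtain ⟨x, x1, x2⟩ := crt ua 1 (C (p : ℤ_[p]) * t)
  obtain ⟨r, r1, r2⟩ := crt ua (c ^ 2 * N * s) (-C (G' : ℤ_[p]) * E * t)
  have r3 : (rq p r).eval (a : ZMod p) = (PadicInt.toZMod c * w * (rq p h).eval (a : ZMod p) ^ 2 *
      PadicInt.toZMod s) ^ 2 := by
    rw [← H.red, rq_eval, r1, map_mul, map_mul, map_pow, n2, H.red]
    linear_combination (-PadicInt.toZMod c ^ 2 * w ^ 2 * (rq p h).eval (a : ZMod p) *
      PadicInt.toZMod s) * hs'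
  have dv := two ua.ne_zero (by
    simp only [eval_sub, eval_mul, eval_neg, eval_pow, eval_C, x1, r1, hc, n3]
    linear_combination (-(p : ℤ_[p]) ^ 2 * c ^ 2 * N) * hs) (key x2 r2 H.pi)
  refine ⟨C (p : ℚ_[p])⁻¹ * iq p x, r, ?_, ?_, iff_of_true ⟨_, r3.trans (sq _)⟩ rfl⟩
  · have := (Polynomial.map_dvd (PadicInt.Coe.ringHom (p := p)) (H.eq ▸ dv)).mul_left
      (C (p : ℚ_[p])⁻¹ ^ 2)
    have q0 : C (p : ℚ_[p])⁻¹ * C (p : ℚ_[p]) = 1 := by
      rw [← C_mul, inv_mul_cancel₀ (Nat.cast_ne_zero.2 (Fact.out : p.Prime).ne_zero), C_1]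
    rw [zK_map] at this
    refine (congrArg _ ?_).mp this
    rw [← iq_zK (be u v _), eb, show (1 : ZMod 2).val = 1 from rfl, ← iq_zK (pw p f a)]
    simp only [iq, Polynomial.map_sub, Polynomial.map_mul, Polynomial.map_neg, Polynomial.map_pow,
      map_C, Int.cast_mul, Int.cast_natCast, C_mul, map_natCast PadicInt.Coe.ringHom]
    linear_combination (-(C (p : ℚ_[p])⁻¹ * C (p : ℚ_[p]) + 1) * map PadicInt.Coe.ringHom r *
      map PadicInt.Coe.ringHom (zK (pw p f a) ℤ_[p])) * q0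
  · rw [← rq_zK, H.eq, rq, rq, Polynomial.map_mul, Polynomial.map_sub, map_X, map_C, H.red]
    refine IsCoprime.mul_right (cop.2 (r3 ▸ pow_ne_zero _ (mul_ne_zero (mul_ne_zero
      (mul_ne_zero c0 s0) (pow_ne_zero _ H.ne)) (right_ne_zero_of_mul_eq_one hs')))).symm ?_
    obtain ⟨k, hk⟩ := r2
    rw [sub_eq_iff_eq_add'.1 hk, Polynomial.map_add, Polynomial.map_mul _ (p := h)]
    refine IsCoprime.add_mul_left_left ?_ _
    rw [Polynomial.map_mul, Polynomial.map_mul, Polynomial.map_neg, map_C, map_intCast, ← rq, ← rq,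
      e0, H.un, ← C_neg]
    have a1 : ∀ z : ZMod p, z ≠ 0 → IsCoprime (C z) (rq p h) := fun z hz =>
      ⟨C z⁻¹, 0, by rw [← C_mul, inv_mul_cancel₀ hz, C_1, zero_mul, add_zero]⟩
    exact ((a1 _ (neg_ne_zero.2 g0)).mul_left
      ((a1 _ (pow_ne_zero 2 v0)).mul_left (cop.2 H.ne))).mul_left (cop.2 H.ne)

end Pool.Agent.MP_a43263_nt.N2
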