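import Pool.Agent.MP_a43263_nt.N2.SpecB
import Pool.Agent.MP_a43263_nt.K2.Box

/-! THEOREM N2: triples in boxes. -/

set_option autoImplicit false

noncomputable section

namespace Pool.Agent.MP_a43263_nt.N2

open Polynomial Finset Filter Matrix JC Pool.Agent.MP_a43263_nt.UV K2

namespace BoxA

variable {n : ℕ}

theorem nset (b : ℤ) (e e' : Fin n → ℤ) (L : UC.Mz n → UC.Mz n → UC.Mz n → Prop) (μ : ℝ)
    (N₀ l : ℕ) (hμ : 0 ≤ μ)
    (h : μ = 1 ∨ Dens2 L μ N₀ ∧ N₀ ≤ 2 ^ l ∧ ∀ p q, (l : ℤ) ≤ b + e' p + e q) (A A' : UC.Mz n) :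
    ∃ W : Finset (UC.Mz n), (∀ (f : ℤ[X]) (m : ℤ) (N : UC.Mz n), Tri f m A A' N → L A A' N →
      Box2 b e e' N → N ∈ W) ∧
      (W.card : ℝ) ≤ μ * (3 ^ (n * n) * (2 : ℝ) ^ (∑ p, ∑ q, max (b + e' p + e q) 0)) := by
  rcases h with rfl | ⟨hD, hl, hN⟩
  · obtain ⟨W, h1, h2⟩ := K2.BoxA.full b e e'
    exact ⟨W, fun _ _ N _ _ => h1 N, by rwa [one_mul]⟩
  by_cases h : A.IsSymm ∧ A'.IsSymm ∧ IsUnit A.det ∧ IsUnit A'.det
  · have h0 : ∀ p q, (0 : ℤ) ≤ b + e' p + e q := fun p q => (Int.natCast_nonneg l).trans (hN p q)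
    have hY : ∀ p q, ((2 ^ (b + e' p + e q).toNat : ℕ) : ℝ) = (2 : ℝ) ^ (b + e' p + e q) :=
      fun p q => by
        push_cast
        rw [← zpow_natCast, Int.toNat_of_nonneg (h0 p q)]
    obtain ⟨W, h1, h2⟩ := hD A A' h.1 h.2.1 h.2.2.1 h.2.2.2
      (fun p q => 2 ^ (b + e' p + e q).toNat) fun p q =>
        hl.trans (Nat.pow_le_pow_right (by norm_num) (by have := hN p q; omega))
    refine ⟨W, fun _ _ N _ l k => h1 N l fun p q => ?_, h2.trans_eq ?_⟩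
    · have := k p q
      rw [← hY] at this
      exact_mod_cast this
    · simp only [hY, K2.BoxA.prd, max_eq_left (h0 _ _)]
  · refine ⟨∅, fun _ _ _ t => (h ⟨t.sa, t.sa', t.det, t.det'⟩).elim, ?_⟩
    simp only [card_empty, Nat.cast_zero]
    positivity

end BoxA

theorem box_n : BOXStmt := by
  classical
  intro n
  refine ⟨3 ^ (n * n) * 3 ^ (UC.up n).card * 3 ^ (UC.up n).card *
    (2 ^ (UC.up n).card * 2 ^ (UC.up n).card), by positivity, fun a b e e' L μ N₀ l hμ h => ?_⟩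
  obtain ⟨W₁, h1, h1'⟩ := K2.BoxA.sym a e
  obtain ⟨W₂, h2, h2'⟩ := K2.BoxA.sym a e'
  choose WN h3 h3' using N2.BoxA.nset b e e' L μ N₀ l hμ h
  refine ⟨(W₁ ×ˢ W₂).biUnion fun x => (WN x.1 x.2).image fun N => (x.1, x.2, N),
    fun f m A A' N t l b1 b2 b3 => mem_biUnion.2 ⟨(A, A'), mem_product.2 ⟨h1 _ t.sa b1,
      h2 _ t.sa' b2⟩, mem_image.2 ⟨N, h3 A A' f m N t l b3, rfl⟩⟩, ?_⟩
  refine (Nat.cast_le.2 card_biUnion_le).trans ?_
  rw [Nat.cast_sum]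
  refine (sum_le_sum fun x _ => (Nat.cast_le.2 card_image_le).trans (h3' x.1 x.2)).trans ?_
  rw [sum_const, card_product, nsmul_eq_mul, Nat.cast_mul, zpow_add₀ two_ne_zero,
    zpow_add₀ two_ne_zero]
  refine (mul_le_mul_of_nonneg_right (mul_le_mul h1' h2' (Nat.cast_nonneg _) (by positivity))
    (by positivity)).trans ?_
  have k1 : (1 : ℝ) ≤ 3 ^ (n * n) * 3 ^ (UC.up n).card * 3 ^ (UC.up n).card :=
    one_le_mul_of_one_le_of_one_le (one_le_mul_of_one_le_of_one_le (one_le_pow₀ (by norm_num))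
      (one_le_pow₀ (by norm_num))) (one_le_pow₀ (by norm_num))
  have k2 : (1 : ℝ) ≤ 2 ^ (UC.up n).card * 2 ^ (UC.up n).card :=
    one_le_mul_of_one_le_of_one_le (one_le_pow₀ one_le_two) (one_le_pow₀ one_le_two)
  have k3 := mul_le_mul (le_self_pow₀ k1 a.succ_ne_zero) (pow_le_pow_right₀ k2 a.le_succ)
    (by positivity) (by positivity)
  rw [← mul_pow _ _ a.succ] at k3
  refine le_trans (le_of_eq ?_) (mul_le_mul_of_nonneg_right (mul_le_mul_of_nonneg_left k3 hμ)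
    (by positivity))
  rw [mul_pow]
  generalize ((2 : ℝ) ^ (UC.up n).card) ^ a = u
  generalize (3 : ℝ) ^ (UC.up n).card = v
  generalize (3 : ℝ) ^ (n * n) = w
  ring

end Pool.Agent.MP_a43263_nt.N2
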