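import Pool.Agent.MP_a43263_nt.N2.SpecD
import Pool.Agent.MP_a43263_nt.K2.Geo

/-! THEOREM N2: many base points. -/

set_option autoImplicit false

noncomputable section

namespace Pool.Agent.MP_a43263_nt.N2

open Polynomial Finset Filter Matrix JC Pool.Agent.MP_a43263_nt.UV K2

namespace BseA

theorem cls_card {r U : ℕ} (c : ℕ) (hr : 0 < r) (h : 2 * r ≤ U) :
    (U : ℝ) / (2 * r) ≤ ((Ioc U (2 * U)).filter fun u => u ≡ c [MOD r]).card := by
  have e := Nat.Ioc_filter_modEq_card U (2 * U) hr c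
  have r0 : (0 : ℚ) < r := by exact_mod_cast hr
  have a1 := Int.lt_floor_add_one ((((2 * U : ℕ) : ℚ) - c) / r)
  have a2 := Int.floor_le (((U : ℚ) - c) / r)
  have a3 : (((2 * U : ℕ) : ℚ) - c) / r = ((U : ℚ) - c) / r + 2 * (U / (2 * r)) := by
    push_cast
    field_simp
    ring
  have a4 : (1 : ℚ) ≤ U / (2 * r) := by
    rw [le_div_iff₀ (by positivity), one_mul]
    exact_mod_cast h
  have a5 : ((⌊(((2 * U : ℕ) : ℚ) - c) / r⌋ - ⌊((U : ℚ) - c) / r⌋ : ℤ) : ℚ) ≤
      ((Ioc U (2 * U)).filter fun u => u ≡ c [MOD r]).card := by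
    have := (Int.cast_le (R := ℚ)).2 ((le_max_left _ _).trans e.ge)
    rwa [Int.cast_natCast] at this
  have a6 : (U : ℚ) / (2 * r) ≤ ((Ioc U (2 * U)).filter fun u => u ≡ c [MOD r]).card := by
    rw [Int.cast_sub] at a5
    linarith
  simpa using (Rat.cast_le (K := ℝ)).2 a6

theorem weier (s : Finset ℕ) (f : ℕ → ℝ) (h : ∀ p ∈ s, 0 ≤ f p ∧ f p ≤ 1) :
    1 - ∑ p ∈ s, f p ≤ ∏ p ∈ s, (1 - f p) := by
  induction s using Finset.induction_on with
  | empty => simp
  | insert a s ha ih =>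
    rw [sum_insert ha, prod_insert ha]
    have h1 := h a (mem_insert_self _ _)
    have h2 := ih fun p hp => h p (mem_insert_of_mem hp)
    have h3 : 0 ≤ ∑ p ∈ s, f p := sum_nonneg fun p hp => (h p (mem_insert_of_mem hp)).1
    nlinarith [mul_le_mul_of_nonneg_left h2 (sub_nonneg.2 h1.2), mul_nonneg h1.1 h3]

theorem tot {m : ℕ} (h : ∑ p ∈ m.primeFactors, 1 / (p : ℝ) ≤ 1 / 56) :
    (m : ℝ) / 2 ≤ m.totient := by
  have e : (m.totient : ℝ) = m * ∏ p ∈ m.primeFactors, (1 - 1 / (p : ℝ)) := by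
    have := congrArg (Rat.cast (K := ℝ)) (Nat.totient_eq_mul_prod_factors m)
    push_cast at this
    simpa only [one_div] using this
  have := weier m.primeFactors (fun p => 1 / (p : ℝ)) fun p hp => ⟨by positivity, by
    rw [div_le_one (by exact_mod_cast (Nat.prime_of_mem_primeFactors hp).pos)]
    exact_mod_cast (Nat.prime_of_mem_primeFactors hp).pos⟩
  rw [e, div_eq_mul_inv]
  gcongr
  linarith

end BseA

open BseA in
theorem bse_n : RTSStmt → SIEVEStmt → CLSStmt → ONEStmt → BSEStmt := by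
  classical
  intro rts sieve cls one g v hg hv
  obtain ⟨Q, ε, E, hε, hQ, hs⟩ := sieve g v hg
  refine ⟨Q, ε / 4, E, by positivity, hQ, ?_⟩
  filter_upwards [eventually_ge_atTop v, eventually_ge_atTop (Q.sup id), eventually_ge_atTop 30]
    with z z1 z2 z3
  obtain ⟨N, hN⟩ : ∃ N, N = primorial z := ⟨_, rfl⟩
  have N0 : 0 < N := hN ▸ primorial_pos z
  have pN : ∀ p : ℕ, p.Prime → (p ∣ N ↔ p ≤ z) := fun p hp => hN ▸ hp.dvd_primorial_iff
  have qz : ∀ q ∈ Q, q ≤ z := fun q hq => (le_sup (f := id) hq).trans z2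
  have v0 : 0 < v := by have := hv.ge; omega
  rw [← hN]
  filter_upwards [hs, one g v Q hg hv, eventually_ge_atTop ((2 * N ^ 2) ^ 12),
    eventually_ge_atTop 1] with k hs one k1 k0 U m hU hm mE m12
  have m0 : 0 < m := Nat.pos_of_ne_zero hm.1.ne_zero
  have cop : ∀ n : ℕ, (∀ p : ℕ, p.Prime → p ∣ n → p ≤ z) → m.Coprime n := fun n h =>
    Nat.coprime_of_dvd fun p hp h1 h2 => absurd (h p hp h2) (not_le.2 (hm.2.1 p hp h1))
  have cv : m.Coprime v := cop v fun p _ h => (Nat.le_of_dvd v0 h).trans z1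
  have cN : m.Coprime (N ^ 2) := (cop N fun p hp h => (pN p hp).1 h).pow_right 2
  have cq : m.Coprime (30 * ∏ q ∈ Q, q) := cop _ fun p hp h => by
    rcases (Nat.Prime.dvd_mul hp).1 h with h | h
    · exact (Nat.le_of_dvd (by norm_num) h).trans z3
    · obtain ⟨q, hq, h⟩ := (hp.prime.dvd_finsetProd_iff _).1 h
      exact (Nat.le_of_dvd (hQ q hq).1.pos h).trans (qz q hq)
  have hr : 2 * (m * N ^ 2) ≤ U := by
    refine (Nat.pow_le_pow_iff_left (n := 12) (by norm_num)).1 ?_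
    calc (2 * (m * N ^ 2)) ^ 12 = (2 * N ^ 2) ^ 12 * m ^ 12 := by ring
      _ ≤ k * k := Nat.mul_le_mul k1 m12
      _ ≤ k ^ 4 := by rw [← sq]; exact Nat.pow_le_pow_right k0 (by norm_num)
      _ ≤ (U ^ 3) ^ 4 := Nat.pow_le_pow_left hU.lo 4
      _ = _ := by ring
  choose a ha using fun b => rts.2.2 m b v cv
  have ms : ∀ b, m.Coprime b → Ms v Q m b := fun b hb =>
    ⟨hm.1, Nat.Coprime.mul_right hb cv, cq, hm.2.2⟩
  have key : ∀ w ∈ bx g k, ∀ b ∈ (range m).filter (fun b => m.Coprime b),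
      ind (Gd v Q m b (a b) w) * ((U : ℝ) / (2 * (m * N ^ 2 : ℕ))) ≤
        ∑ u ∈ (Ioc U (2 * U)).filter (fun u => u % m = b), ind (Ok v N k U Q m u w) := by
    intro w hw b hb
    obtain ⟨b1, b2⟩ := mem_filter.1 hb
    by_cases hG : Gd v Q m b (a b) w
    swap
    · rw [ind_neg hG, zero_mul]
      exact sum_nonneg fun u _ => ind_nonneg _
    obtain ⟨S, hS, h⟩ := one w hw m b (a b) m12
      (rts.2.1 v Q m b (a b) (fun q hq => (hQ q hq).1) (ms b b2) (ha b)) hG
    have hc : Cl v N S w (al v N S w) := Nat.sInf_mem (s := {a | Cl v N S w a})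
      (hN ▸ cls.1 g v z Q S w hv z1 hG.fam hS fun q hq => ⟨(hQ q hq).2, qz q hq⟩)
    obtain ⟨c, c1, c2⟩ := Nat.chineseRemainder cN b (al v N S w)
    rw [ind_pos hG, one_mul]
    refine (cls_card c (by positivity) hr).trans ?_
    rw [card_eq_sum_ones, Nat.cast_sum]
    have ok : ∀ u ∈ (Ioc U (2 * U)).filter (fun u => u ≡ c [MOD m * N ^ 2]),
        u ≡ b [MOD m] ∧ Ok v N k U Q m u w := fun u hu => by
      obtain ⟨u1, u2⟩ := mem_filter.1 hu
      have u3 : u ≡ b [MOD m] := (u2.of_mul_right _).trans c1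
      have u4 : u ≡ al v N S w [MOD N ^ 2] := (u2.of_mul_left _).trans c2
      refine ⟨u3, S, hS, hc, mem_filter.2 ⟨u1, u4, ?_⟩, ?_, fun j r x1 hr hG' => ?_⟩
      · exact (u3.gcd_eq.trans b2.symm : u.gcd m = 1)
      · exact (Int.ModEq.dvd_iff (GeoA.gv_mod (v : ℤ) (fun i => Int.ModEq.refl (w i))
          (Int.natCast_modEq_iff.2 u3))).2 hG.dv
      · have x2 : pu N m u j ≡ b [MOD m] :=
          (Nat.ModEq.trans (by simp [pu, Nat.ModEq]) u3)
        have x3 : pu N m u j ≡ al v N S w [MOD N ^ 2] := by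
          refine Nat.ModEq.trans ?_ u4
          rw [pu, mul_left_comm]
          simp [Nat.ModEq]
        have x4 : ∀ p : ℕ, p.Prime → p ≤ z → pu N m u j ≡ al v N S w [MOD p] := fun p hp h =>
          x3.of_dvd (((pN p hp).2 h).trans (dvd_pow_self N two_ne_zero))
        refine h _ r (lt_of_lt_of_le (Nat.zero_lt_of_lt (mem_Ioc.1 u1).1) (Nat.le_add_right _ _))
          x1 (Nat.coprime_of_dvd fun p hp h1 h2 => ?_) ?_ ?_ hr hG'
        · exact hp.one_lt.ne' (Nat.eq_one_of_dvd_coprimes hc.cop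
            (((x4 p hp ((Nat.le_of_dvd v0 h2).trans z1)).dvd_iff dvd_rfl).1 h1) h2)
        · have := (x4 5 (by norm_num) (by omega)).symm.dvd
          have := dvd_add this hc.five
          simpa using this
        · have e1 := (x2.symm.pow 2).dvd
          have e2 := dvd_add (ha b) e1
          refine e2.trans (dvd_of_eq ?_)
          simp only [el, eval_add, eval_mul, eval_C]
          push_cast
          ring
    calc _ = ∑ u ∈ (Ioc U (2 * U)).filter (fun u => u ≡ c [MOD m * N ^ 2]),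
          ind (Ok v N k U Q m u w) := sum_congr rfl fun u hu => by
            rw [ind_pos (ok u hu).2, Nat.cast_one]
      _ ≤ _ := sum_le_sum_of_subset_of_nonneg (fun u hu => mem_filter.2 ⟨(mem_filter.1 hu).1,
            Eq.trans (ok u hu).1 (Nat.mod_eq_of_lt (mem_range.1 b1))⟩) fun u _ _ => ind_nonneg _
  have V0 : 0 ≤ vol g k := by unfold vol; positivity
  have m1 : (0 : ℝ) < m := by exact_mod_cast m0
  have N1 : (0 : ℝ) < N := by exact_mod_cast N0
  calc ε / 4 * (vol g k * U / (m * (N : ℝ) ^ 2))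
      = (m : ℝ) / 2 * (ε * vol g k / m) * ((U : ℝ) / (2 * (m * N ^ 2 : ℕ))) := by
        push_cast
        field_simp
        ring
    _ ≤ (∑ b ∈ (range m).filter (fun b => m.Coprime b), cnt g k (Gd v Q m b (a b))) *
          ((U : ℝ) / (2 * (m * N ^ 2 : ℕ))) := by
        refine mul_le_mul_of_nonneg_right ?_ (by positivity)
        refine le_trans ?_ (card_nsmul_le_sum _ _ (ε * vol g k / m) fun b hb =>
          hs m b (a b) (ms b (mem_filter.1 hb).2) mE m12 (ha b))
        rw [nsmul_eq_mul, ← Nat.totient_eq_card_coprime]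
        exact mul_le_mul_of_nonneg_right (tot hm.2.2) (by positivity)
    _ = ∑ w ∈ bx g k, ∑ b ∈ (range m).filter (fun b => m.Coprime b),
          ind (Gd v Q m b (a b) w) * ((U : ℝ) / (2 * (m * N ^ 2 : ℕ))) := by
        simp only [cnt, sum_mul]
        exact sum_comm
    _ ≤ ∑ w ∈ bx g k, ∑ u ∈ Ioc U (2 * U), ind (Ok v N k U Q m u w) :=
        sum_le_sum fun w hw => (sum_le_sum (key w hw)).trans
          (sum_fiberwise_le_sum_of_sum_fiber_nonneg fun _ _ => sum_nonneg fun _ _ => ind_nonneg _)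
    _ = _ := sum_comm

end Pool.Agent.MP_a43263_nt.N2

end
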