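import Pool.Agent.MP_a43263_nt.N2.SpecC

/-! THEOREM N2, row Cbx: boxes with congruence conditions. -/

set_option autoImplicit false

noncomputable section

namespace Pool.Agent.MP_a43263_nt.N2

open Finset Filter K2

namespace CbxA

/-- one class in an interval -/
def cl (lo r : ℤ) (L M : ℕ) : Finset ℤ := (Icc lo (lo + L)).filter fun x => (M : ℤ) ∣ x - r

theorem card_cl (lo r : ℤ) (L : ℕ) {M : ℕ} (hM : 0 < M) :
    ((cl lo r L M).card : ℝ) ≤ (L : ℝ) / M + 1 ∧ (L : ℝ) / M - 1 ≤ (cl lo r L M).card := by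
  have hM' : (0 : ℤ) < M := by exact_mod_cast hM
  have hq : (0 : ℚ) < M := by exact_mod_cast hM
  have hr : (0 : ℝ) < M := by exact_mod_cast hM
  have e : cl lo r L M = (Ico lo (lo + L + 1)).filter fun x => x ≡ r [ZMOD M] := by
    ext x
    simp only [cl, mem_filter, mem_Icc, mem_Ico, Int.lt_add_one_iff, Int.modEq_iff_dvd]
    rw [dvd_sub_comm]
  have h := Int.Ico_filter_modEq_card lo (lo + L + 1) hM' r
  rw [← e] at h
  push_cast at h
  set a := ⌈((lo : ℚ) + L + 1 - r) / M⌉ with ha
  set b := ⌈((lo : ℚ) - r) / M⌉ with hb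
  have a1 : (lo : ℚ) + L + 1 - r ≤ a * M := (div_le_iff₀ hq).1 (Int.le_ceil _)
  have a2 : (a - 1 : ℚ) * M < (lo : ℚ) + L + 1 - r :=
    (lt_div_iff₀ hq).1 (by linarith [Int.ceil_lt_add_one (((lo : ℚ) + L + 1 - r) / M)])
  have b1 : (lo : ℚ) - r ≤ b * M := (div_le_iff₀ hq).1 (Int.le_ceil _)
  have b2 : (b - 1 : ℚ) * M < (lo : ℚ) - r :=
    (lt_div_iff₀ hq).1 (by linarith [Int.ceil_lt_add_one (((lo : ℚ) - r) / M)])
  have c1 : (a - b - 1) * M < (L : ℤ) + 1 := by
    have : ((a : ℚ) - b - 1) * M < L + 1 := by linarith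
    exact_mod_cast this
  have c2 : (L : ℤ) + 1 < (a - b + 1) * M := by
    have : (L : ℚ) + 1 < ((a : ℚ) - b + 1) * M := by linarith
    exact_mod_cast this
  have c3 : 0 ≤ a - b := by
    by_contra hc
    nlinarith [Int.natCast_nonneg L]
  rw [max_eq_left c3] at h
  rw [← h] at c1 c2
  have d1 : (((cl lo r L M).card : ℤ) - 1) * M ≤ L := by omega
  have d2 : (L : ℤ) ≤ (((cl lo r L M).card : ℤ) + 1) * M := by omega
  constructor
  · rw [← sub_le_iff_le_add, le_div_iff₀ hr]
    exact_mod_cast d1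
  · rw [sub_le_iff_le_add, div_le_iff₀ hr]
    exact_mod_cast d2

theorem crt (lo r c e : ℤ) (L : ℕ) {M m : ℕ} (h1 : IsCoprime (m : ℤ) c)
    (h2 : IsCoprime (m : ℤ) M) :
    ∃ ρ, (cl lo r L M).filter (fun t => (m : ℤ) ∣ t * c + e) = cl lo ρ L (M * m) := by
  obtain ⟨a, b, hab⟩ := h1.mul_right h2
  refine ⟨r - M * b * (r * c + e), ?_⟩
  have h3 : (m : ℤ) ∣ (r - M * b * (r * c + e)) * c + e :=
    ⟨a * (r * c + e), by linear_combination (-(r * c + e)) * hab⟩
  have h4 : (M : ℤ) ∣ M * b * (r * c + e) := ⟨b * (r * c + e), by ring⟩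
  ext t
  simp only [cl, mem_filter, and_assoc, Nat.cast_mul]
  refine and_congr_right fun _ => ⟨fun ⟨h5, h6⟩ => h2.symm.mul_dvd ?_ ?_, fun h5 => ⟨?_, ?_⟩⟩
  · convert dvd_add h5 h4 using 1
    ring
  · refine h1.dvd_of_dvd_mul_right ?_
    convert dvd_sub h6 h3 using 1
    ring
  · rw [show t - r = t - (r - M * b * (r * c + e)) - M * b * (r * c + e) by ring]
    exact dvd_sub ((dvd_mul_right _ _).trans h5) h4
  · rw [show t * c + e = (t - (r - M * b * (r * c + e))) * c +
      ((r - M * b * (r * c + e)) * c + e) by ring]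
    exact dvd_add (((dvd_mul_left _ _).trans h5).mul_right c) h3

theorem fib {ι : Type} [Fintype ι] [DecidableEq ι] (j : ι) (A : ι → Finset ℤ)
    (P : (ι → ℤ) → Prop) [DecidablePred P] :
    ((Fintype.piFinset A).filter P).card = ∑ w ∈ Fintype.piFinset (Function.update A j {0}),
      ((A j).filter fun t => P (Function.update w j t)).card := by
  rw [card_eq_sum_card_fiberwise (f := fun w => Function.update w j 0)
    (t := Fintype.piFinset (Function.update A j {0})) fun w hw => ?_]
  · refine sum_congr rfl fun w hw => ?_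
    have hw' := Fintype.mem_piFinset.1 hw
    refine card_nbij' (fun x => x j) (fun t => Function.update w j t) (fun x hx => ?_)
      (fun t ht => ?_) (fun x hx => ?_) fun t _ => by simp
    · simp only [coe_filter, mem_filter, Set.mem_ofPred_eq, Fintype.mem_piFinset] at hx ⊢
      obtain ⟨⟨h1, h2⟩, rfl⟩ := hx
      exact ⟨h1 j, by simpa using h2⟩
    · simp only [coe_filter, mem_filter, Set.mem_ofPred_eq, Fintype.mem_piFinset] at ht ⊢
      refine ⟨⟨fun i => ?_, ht.2⟩, ?_⟩
      · by_cases hi : i = j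
        · subst hi; simpa using ht.1
        · simpa [hi] using hw' i
      · have : w j = 0 := by simpa using hw' j
        rw [Function.update_idem, ← this, Function.update_eq_self]
    · simp only [coe_filter, Set.mem_ofPred_eq] at hx
      obtain ⟨-, rfl⟩ := hx
      simp
  · simp only [coe_filter, mem_coe, Set.mem_ofPred_eq, Fintype.mem_piFinset] at hw ⊢
    intro i
    by_cases hi : i = j
    · subst hi; simp
    · simpa [hi] using hw.1 i

theorem lin {g : ℕ} (j : Fin (2 * g + 1)) (hj : j.1 + 1 = 2 * g) (w : Vec g) (u v : ℤ) :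
    ∃ e, ∀ t, Gv (Function.update w j t) u v =
      t * ((-u ^ 2) ^ (2 * g - j.1) * (v ^ 2) ^ (j.1 + 1)) + e := by
  refine ⟨(-u ^ 2) ^ (2 * g + 1) +
    ∑ i ∈ univ.erase j, sv w i * (-u ^ 2) ^ (2 * g - i.1) * (v ^ 2) ^ (i.1 + 1), fun t => ?_⟩
  have h1 : sv (Function.update w j t) j = t := by
    rw [sv, if_neg (by omega), Function.update_self]
  have h2 : ∀ i ∈ univ.erase j, sv (Function.update w j t) i * (-u ^ 2) ^ (2 * g - i.1) *
      (v ^ 2) ^ (i.1 + 1) = sv w i * (-u ^ 2) ^ (2 * g - i.1) * (v ^ 2) ^ (i.1 + 1) :=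
    fun i hi => by simp only [sv, Function.update_of_ne (ne_of_mem_erase hi)]
  rw [Gv, ← add_sum_erase _ _ (mem_univ j), h1, sum_congr rfl h2]
  ring

end CbxA

open CbxA in
theorem cbx_n : CBXStmt := by
  intro g lo r L M m u v hg hM hm huv hmM S hS
  let j : Fin (2 * g + 1) := ⟨2 * g - 1, by omega⟩
  have hj : j.1 + 1 = 2 * g := by simp only [j]; omega
  have hne : ∀ i ∈ univ.erase j, ¬ i.1 + 1 = 2 * g := fun i hi h =>
    ne_of_mem_erase hi (Fin.ext (by omega))
  let A : Fin (2 * g + 1) → Finset ℤ := fun i => cl (lo i) (r i) (L i) (M i)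
  have e : S = (Fintype.piFinset A).filter fun w => (m : ℤ) ∣ Gv w u v := by
    ext w
    simp only [hS, mem_filter, Fintype.mem_piFinset, A, cl, mem_Icc, forall_and, and_assoc]
  have hu : IsCoprime (m : ℤ) u := Nat.isCoprime_iff_coprime.2 huv.coprime_mul_right_right
  have hv : IsCoprime (m : ℤ) v := Nat.isCoprime_iff_coprime.2 huv.coprime_mul_left_right
  have hf : ∀ w : Vec g, ∃ ρ, (A j).filter (fun t => (m : ℤ) ∣ Gv (Function.update w j t) u v) =
      cl (lo j) ρ (L j) (M j * m) := fun w => by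
    obtain ⟨e, he⟩ := lin j hj w u v
    simp only [he]
    exact crt _ _ _ _ _ (hu.pow_right.neg_right.pow_right.mul_right hv.pow_right.pow_right)
      (Nat.isCoprime_iff_coprime.2 (hmM j hj))
  have hc : ((Fintype.piFinset (Function.update A j {0})).card : ℝ) =
      ∏ i ∈ univ.erase j, ((A i).card : ℝ) := by
    rw [Fintype.card_piFinset, ← mul_prod_erase _ _ (mem_univ j), Function.update_self,
      card_singleton, one_mul, Nat.cast_prod]
    exact prod_congr rfl fun i hi => by rw [Function.update_of_ne (ne_of_mem_erase hi)]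
  have hp := Nat.mul_pos (hM j) hm
  rw [e, fib j, Nat.cast_sum]
  constructor
  · refine (sum_le_card_nsmul _ _ ((L j : ℝ) / (M j * m : ℕ) + 1) fun w _ => ?_).trans ?_
    · obtain ⟨ρ, hρ⟩ := hf w
      rw [hρ]
      exact (card_cl _ _ _ hp).1
    · rw [nsmul_eq_mul, hc, ← mul_prod_erase _ _ (mem_univ j), if_pos hj, mul_comm, Nat.cast_mul]
      refine mul_le_mul_of_nonneg_left (prod_le_prod (fun _ _ => Nat.cast_nonneg _) fun i hi => ?_)
        (by positivity)
      rw [if_neg (hne i hi)]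
      simpa using (card_cl (lo i) (r i) (L i) (hM i)).1
  · intro hL
    refine le_trans ?_ (card_nsmul_le_sum _ _ ((L j : ℝ) / (M j * m : ℕ) - 1) fun w _ => ?_)
    · rw [nsmul_eq_mul, hc, ← mul_prod_erase _ _ (mem_univ j), if_pos hj, mul_comm, Nat.cast_mul]
      refine mul_le_mul_of_nonneg_right (prod_le_prod (fun i hi => ?_) fun i hi => ?_) ?_
      · have h1 := hL i
        rw [if_neg (hne i hi), mul_one] at h1
        have h2 : (0 : ℝ) < M i := by exact_mod_cast hM i
        rw [if_neg (hne i hi), sub_nonneg]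
        simp only [Nat.cast_one, mul_one]
        rw [one_le_div h2]
        exact_mod_cast h1
      · rw [if_neg (hne i hi)]
        simpa using (card_cl (lo i) (r i) (L i) (hM i)).2
      · have h1 := hL j
        rw [if_pos hj] at h1
        rw [sub_nonneg, one_le_div (by exact_mod_cast hp)]
        exact_mod_cast h1
    · obtain ⟨ρ, hρ⟩ := hf w
      rw [hρ]
      exact (card_cl _ _ _ hp).2

end Pool.Agent.MP_a43263_nt.N2
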