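import Pool.Agent.MP_a43263_nt.N2.SpecD
import Pool.Agent.MP_a43263_nt.K2.Cls
import Pool.Agent.MP_a43263_nt.K2.Geo

/-! THEOREM N2: admissible classes exist. -/

set_option autoImplicit false

noncomputable section

namespace Pool.Agent.MP_a43263_nt.N2

open Polynomial Finset Filter Matrix JC Pool.Agent.MP_a43263_nt.UV K2

namespace ClsA

theorem nonroot {g l : ℕ} {f : ℤ[X]} (hf : Zq g f) (hl : l.Prime) (h : 4 * g + 2 < l) :
    ∃ a : ℕ, ¬(l : ℤ) ∣ f.eval (1 - (a : ℤ) ^ 2) := by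
  have := Fact.mk hl
  by_contra c
  have c' : ∀ a : ℕ, (l : ℤ) ∣ f.eval (1 - (a : ℤ) ^ 2) := fun a => by
    by_contra d
    exact c ⟨a, d⟩
  have h2 : (zK f (ZMod l)).natDegree = 2 * g + 1 := by rw [hf.monic.natDegree_map, hf.deg]
  have h3 : (1 - X ^ 2 : (ZMod l)[X]).natDegree = 2 := by
    rw [natDegree_sub_eq_right_of_natDegree_lt (by simp), natDegree_X_pow]
  have h4 : ((zK f (ZMod l)).comp (1 - X ^ 2)).natDegree = (2 * g + 1) * 2 := by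
    rw [natDegree_comp, h2, h3]
  have h5 : (zK f (ZMod l)).comp (1 - X ^ 2) = 0 :=
    eq_zero_of_natDegree_lt_card_of_eval_eq_zero _ Function.injective_id (fun x => by
      have := c' x.val
      rw [← ZMod.intCast_zmod_eq_zero_iff_dvd, K2.ClsA.cast_eval] at this
      simpa [eval_comp] using this) (by rw [h4, ZMod.card]; omega)
  rw [h5, natDegree_zero] at h4
  omega

theorem loc {g v z : ℕ} {Q S : Finset ℕ} {w : Vec g} (trn : TRNStmt) (hv : Pv g v)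
    (hF : Fam g Q (f1 w)) (hS : S ⊆ Q) (hQ : ∀ q ∈ Q, v < q ∧ q ≤ z) (l : ℕ) :
    ∃ a : ℕ, l.Prime → (l = 5 → a = v) ∧ (l ∣ v → ¬l ∣ a) ∧
      (l ∉ S → ¬(l : ℤ) ∣ Gv w a v) ∧
      (l ∈ S → ¬l ∣ a ∧ (l : ℤ) ∣ Gv w a v ∧ ¬(l : ℤ) ^ 2 ∣ Gv w a v) := by
  have hg := hF.zq.pos
  have hG := (trn g w hg).2.2.2.2.2.1
  have v0 : 0 < v := by have := hv.ge; omega
  have h5 : 5 ∉ Q := fun c => absurd (hF.ty 5 c).2.1 (by norm_num)
  by_cases hl : l.Prime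
  swap
  · exact ⟨0, fun c => (hl c).elim⟩
  have hz := Nat.prime_iff_prime_int.1 hl
  by_cases cv : l ∣ v
  · have nS : l ∉ S := fun c => absurd (Nat.le_of_dvd v0 cv) (not_le.2 (hQ l (hS c)).1)
    refine ⟨1, fun _ => ⟨fun c => (hv.n5 (c ▸ cv)).elim, fun _ => hl.not_dvd_one,
      fun _ d => ?_, fun c => (nS c).elim⟩⟩
    have := (geo_k g hg).2.2.2.2 w ((1 : ℕ) : ℤ) v (by rw [Nat.cast_one]; exact isCoprime_one_left)
    exact hz.not_isUnit (this.isUnit_of_dvd' d (Int.natCast_dvd_natCast.2 cv))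
  have cz : ¬(l : ℤ) ∣ (v : ℤ) ^ (4 * g + 2) := fun d =>
    cv (Int.natCast_dvd_natCast.1 (hz.dvd_of_dvd_pow d))
  have hh : ∀ a : ℕ, Gv w ((a * v : ℕ) : ℤ) v =
      (v : ℤ) ^ (4 * g + 2) * (f1 w).eval (1 - (a : ℤ) ^ 2) := fun a => by
    rw [Nat.cast_mul, GeoA.homog, hG]
  have key : ∀ a : ℕ, ¬(l : ℤ) ∣ (f1 w).eval (1 - (a : ℤ) ^ 2) →
      ¬(l : ℤ) ∣ Gv w ((a * v : ℕ) : ℤ) v := fun a ha d => by
    rw [hh] at d
    exact (hz.dvd_or_dvd d).elim cz ha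
  by_cases c5 : l = 5
  · subst c5
    exact ⟨1 * v, fun _ => ⟨fun _ => one_mul v, fun c => (cv c).elim,
      fun _ => key 1 (K2.ClsA.five hF.t5), fun c => (h5 (hS c)).elim⟩⟩
  by_cases cS : l ∈ S
  · obtain ⟨k1, k2, k3⟩ := hF.ty l (hS cS)
    obtain ⟨a, ha, ha'⟩ := K2.ClsA.inn hF.zq k1 (by omega) k3
    refine ⟨a * v, fun _ => ⟨fun c => (c5 c).elim, fun c => (cv c).elim, fun c => (c cS).elim,
      fun _ => ⟨fun d => ?_, by rw [hh]; exact ha.mul_left _, fun d => ha' ?_⟩⟩⟩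
    · have e := K2.ClsA.cong (f1 w)
        ((Nat.modEq_zero_iff_dvd.2 ((hl.dvd_mul.1 d).resolve_right cv)) : a ≡ 0 [MOD l])
      exact K2.ClsA.out hF.zq k1 k3 ((dvd_sub_left ha).1 e)
    · rw [hh] at d
      exact ((hz.irreducible.coprime_iff_not_dvd.2 cz).pow_left).dvd_of_dvd_mul_left d
  · obtain ⟨a, ha⟩ := nonroot hF.zq hl (not_le.1 fun c => cv (hv.sm l hl c c5))
    exact ⟨a * v, fun _ => ⟨fun c => (c5 c).elim, fun c => (cv c).elim, fun _ => key a ha,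
      fun c => (cS c).elim⟩⟩

theorem one {g v N : ℕ} {S : Finset ℕ} {w wb : Vec g} (hN : 0 < N) (hd : (∏ q ∈ S, q) ∣ N)
    (h : ∀ i, wb i ≡ w i [ZMOD (N ^ 2 : ℕ)]) (a : ℕ) (c : Cl v N S wb a) : Cl v N S w a :=
  ⟨c.five, c.cop, c.nd, GeoA.quot hN hd (by rw [one_mul]; exact GeoA.gv_mod _ h rfl)
    isCoprime_one_left c.ad⟩

end ClsA

open ClsA in
theorem cls_n : TRNStmt → CLSStmt := by
  intro trn
  refine ⟨fun g v z Q S w hv hz hF hS hQ => ?_, fun g v N S w wb hN hd h => ?_⟩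
  swap
  · have h' : ∀ i, wb i ≡ w i [ZMOD (N ^ 2 : ℕ)] := fun i =>
      Int.modEq_iff_dvd.2 (by simpa using h i)
    have e : ∀ a, Cl v N S w a ↔ Cl v N S wb a := fun a =>
      ⟨one hN hd (fun i => (h' i).symm) a, one hN hd h' a⟩
    exact ⟨e, congrArg sInf (Set.ext e)⟩
  choose r hr using loc trn hv hF hS hQ
  have v0 : 0 < v := by have := hv.ge; omega
  set P : Finset ℕ := (range (z + 1)).filter Nat.Prime with hP
  have hp : ∀ l ∈ P, l.Prime := fun l hl => (mem_filter.1 hl).2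
  have hm : ∀ l : ℕ, l.Prime → l ≤ z → l ∈ P := fun l h1 h2 =>
    mem_filter.2 ⟨mem_range.2 (by omega), h1⟩
  have hs0 : ∀ l ∈ P, l ^ 2 ≠ 0 := fun l hl => pow_ne_zero 2 (hp l hl).ne_zero
  have hpp : Set.Pairwise (↑P : Set ℕ) (Function.onFun Nat.Coprime fun l => l ^ 2) :=
    fun l hl l' hl' c => Nat.Coprime.pow 2 2 ((Nat.coprime_primes (hp l hl) (hp l' hl')).2 c)
  obtain ⟨a, ha⟩ : ∃ a : ℕ, ∀ l ∈ P, a ≡ r l [MOD l ^ 2] :=
    ⟨_, (Nat.chineseRemainderOfFinset r (fun l => l ^ 2) P hs0 hpp).2⟩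
  have ha1 : ∀ l ∈ P, l ∣ a → l ∣ r l := fun l hl d =>
    (((ha l hl).of_dvd (dvd_pow_self l two_ne_zero)).dvd_iff dvd_rfl).1 d
  have hd : ∀ l ∈ P, (l : ℤ) ^ 2 ∣ Gv w (r l) v - Gv w a v := fun l hl => by
    have := (GeoA.gv_mod (M := l ^ 2) (w := w) (w' := w) (v : ℤ) (fun _ => rfl)
      (Int.natCast_modEq_iff.2 (ha l hl))).dvd
    exact_mod_cast this
  have hd1 := fun (l : ℕ) hl => (dvd_pow_self (l : ℤ) two_ne_zero).trans (hd l hl)
  have mS : ∀ l ∈ S, l ∈ P := fun l hl => hm l (hF.ty l (hS hl)).1 (hQ l (hS hl)).2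
  have dv : ((∏ q ∈ S, q : ℕ) : ℤ) ∣ Gv w a v := by
    rw [Nat.cast_prod]
    refine prod_dvd_of_coprime (fun l hl l' hl' c => ?_) fun l hl => ?_
    · exact Nat.isCoprime_iff_coprime.2
        ((Nat.coprime_primes (hF.ty l (hS hl)).1 (hF.ty l' (hS hl')).1).2 c)
    · exact (dvd_sub_right ((hr l (hp l (mS l hl))).2.2.2 hl).2.1).1 (hd1 l (mS l hl))
  refine ⟨a, ?_, Nat.coprime_of_dvd fun l hl d1 d2 => ?_,
    fun l hl d => ((hr l (hp l (mS l hl))).2.2.2 hl).1 (ha1 l (mS l hl) d), dv, ?_⟩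
  · have m5 : 5 ∈ P := hm 5 Nat.prime_five (by have := hv.ge; omega)
    have := (ha 5 m5).of_dvd (dvd_pow_self 5 two_ne_zero)
    rw [(hr 5 Nat.prime_five).1 rfl] at this
    exact_mod_cast this.symm.dvd
  · exact (hr l hl).2.1 d2 (ha1 l (hm l hl ((Nat.le_of_dvd v0 d2).trans hz)) d1)
  · obtain ⟨c, hc⟩ := dv
    have d0 : ((∏ q ∈ S, q : ℕ) : ℤ) ≠ 0 :=
      Int.natCast_ne_zero.2 (prod_ne_zero_iff.2 fun l hl => (hF.ty l (hS hl)).1.ne_zero)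
    rw [hc, Int.mul_ediv_cancel_left _ d0, primorial, ← hP, Nat.cast_prod]
    refine IsCoprime.prod_right fun l hl => ?_
    refine ((Nat.prime_iff_prime_int.1 (hp l hl)).irreducible.coprime_iff_not_dvd.2 fun d => ?_).symm
    by_cases cS : l ∈ S
    · refine ((hr l (hp l hl)).2.2.2 cS).2.2 ((dvd_sub_left ?_).1 (hd l hl))
      rw [hc, sq]
      exact mul_dvd_mul (Int.natCast_dvd_natCast.2 (dvd_prod_of_mem _ cS)) d
    · exact (hr l (hp l hl)).2.2.1 cS ((dvd_sub_left (hc ▸ d.mul_left _)).1 (hd1 l hl))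

end Pool.Agent.MP_a43263_nt.N2
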