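import Pool.Agent.MP_a43263_nt.N2.SpecB

/-! THEOREM N2, row COUNT: the count of non-isomorphic triples, with a rate. -/

set_option autoImplicit false

noncomputable section

namespace Pool.Agent.MP_a43263_nt.N2

open Polynomial Finset Filter Matrix JC Pool.Agent.MP_a43263_nt.UV K2

namespace CountA

variable {g : ℕ}

/-- the change of both bases -/
def act (γ β : Mat g ℤ) (x : Trp g) : Trp g := (γᵀ * x.1 * γ, βᵀ * x.2.1 * β, βᵀ * x.2.2 * γ)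

theorem act_act (γ β γ' β' : Mat g ℤ) (x : Trp g) :
    act γ' β' (act γ β x) = act (γ * γ') (β * β') x := by
  simp only [act, Matrix.transpose_mul, Matrix.mul_assoc]

theorem act_one (x : Trp g) : act 1 1 x = x := by
  simp only [act, Matrix.transpose_one, Matrix.one_mul, Matrix.mul_one]

theorem rel {S : Finset (Trp g)} (hS : Nis S) {x y : Trp g} (hx : x ∈ S) (hy : y ∈ S)
    {γ β γ₂ β₂ : Mat g ℤ} (h1 : γ.det = 1) (h2 : β.det = 1) (h3 : γ₂.det = 1) (h4 : β₂.det = 1)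
    (h : act γ₂ β₂ y = act γ β x) : x = y := by
  have u3 : γ₂ * γ₂⁻¹ = 1 := Matrix.mul_nonsing_inv _ (by rw [h3]; exact isUnit_one)
  have u4 : β₂ * β₂⁻¹ = 1 := Matrix.mul_nonsing_inv _ (by rw [h4]; exact isUnit_one)
  have d3 : (γ₂⁻¹).det = 1 := by
    have := congrArg Matrix.det u3
    rwa [Matrix.det_mul, h3, one_mul, Matrix.det_one] at this
  have d4 : (β₂⁻¹).det = 1 := by
    have := congrArg Matrix.det u4
    rwa [Matrix.det_mul, h4, one_mul, Matrix.det_one] at this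
  have e : y = act (γ * γ₂⁻¹) (β * β₂⁻¹) x := by
    rw [← act_act, ← h, act_act, u3, u4, act_one]
  exact hS x hx y hy _ _ (by rw [Matrix.det_mul, h1, d3, one_mul])
    (by rw [Matrix.det_mul, h2, d4, one_mul]) e

/-- representatives with a property -/
theorem reps {S : Finset (Trp g)} (hS : Nis S) (P : Trp g → Prop)
    (h : ∀ x ∈ S, ∃ γ β : Mat g ℤ, γ.det = 1 ∧ β.det = 1 ∧ P (act γ β x)) :
    ∃ S' : Finset (Trp g), S'.card = S.card ∧ Nis S' ∧ ∀ x ∈ S', P x := by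
  classical
  choose! γ β hγ hβ hP using h
  refine ⟨S.image fun x => act (γ x) (β x) x, Finset.card_image_of_injOn fun x hx y hy e => ?_,
    fun x' hx' y' hy' γ₃ β₃ h3 h4 e => ?_, fun x' hx' => ?_⟩
  · exact rel hS hx hy (hγ x hx) (hβ x hx) (hγ y hy) (hβ y hy) e.symm
  · obtain ⟨x, hx, rfl⟩ := Finset.mem_image.1 hx'
    obtain ⟨y, hy, rfl⟩ := Finset.mem_image.1 hy'
    have e' : act (γ y) (β y) y = act (γ x * γ₃) (β x * β₃) x := by rw [← act_act]; exact e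
    rw [rel hS hx hy (by rw [Matrix.det_mul, hγ x hx, h3, one_mul])
      (by rw [Matrix.det_mul, hβ x hx, h4, one_mul]) (hγ y hy) (hβ y hy) e']
  · obtain ⟨x, hx, rfl⟩ := Finset.mem_image.1 hx'
    exact hP x hx

/-- the scales -/
theorem scales {N₀ : ℕ} {ρ : ℝ} (h1 : 1 ≤ N₀) (h : (N₀ : ℝ) ≤ ρ) : ∃ l s k : ℕ, N₀ ≤ 2 ^ l ∧
    4 * s + l ≤ k ∧ ρ ≤ 2 ^ k ∧ (2 : ℝ) ^ k ≤ 2 * ρ ∧
    1 / (2 : ℝ) ^ s ≤ 2 * ((N₀ : ℝ) / ρ) ^ (1 / 4 : ℝ) := by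
  have hN : (1 : ℝ) ≤ N₀ := by exact_mod_cast h1
  have hρ1 : 1 ≤ ρ := hN.trans h
  obtain ⟨j, hj1, hj2⟩ := exists_nat_pow_near hρ1 (y := (2 : ℝ)) (by norm_num)
  obtain ⟨i, hi1, hi2⟩ := exists_nat_pow_near hN (y := (2 : ℝ)) (by norm_num)
  have hij : i < j + 1 :=
    (pow_lt_pow_iff_right₀ (by norm_num : (1 : ℝ) < 2)).1 ((hi1.trans h).trans_lt hj2)
  refine ⟨i + 1, (j - i) / 4, j + 1, by exact_mod_cast hi2.le, by omega, hj2.le,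
    by rw [pow_succ]; linarith, ?_⟩
  have hq : 0 ≤ (N₀ : ℝ) / ρ := by positivity
  have ht : (((N₀ : ℝ) / ρ) ^ (1 / 4 : ℝ)) ^ 4 = N₀ / ρ := by
    rw [← Real.rpow_natCast, ← Real.rpow_mul hq]; norm_num
  refine (pow_le_pow_iff_left₀ (n := 4) (by positivity) (by positivity) (by norm_num)).1 ?_
  rw [mul_pow, ht, div_pow, one_pow, ← mul_div_assoc,
    div_le_div_iff₀ (by positivity) (by positivity), one_mul]
  have e : (2 : ℝ) ^ (j + 1) ≤ 2 ^ 4 * 2 ^ i * (2 ^ ((j - i) / 4)) ^ 4 := by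
    rw [← pow_mul, ← pow_add, ← pow_add]
    exact pow_le_pow_right₀ (by norm_num) (by omega)
  calc ρ ≤ _ := hj2.le
    _ ≤ _ := e
    _ ≤ _ := by gcongr

end CountA

theorem count_n : CHGStmt → K2.REDStmt → COREStmt → COUNTStmt := by
  classical
  intro hC hR hK g hg
  obtain ⟨κ, hκ⟩ := hR g
  obtain ⟨K, hK, hcore⟩ := hK g κ hg
  obtain ⟨n, hn⟩ : ∃ n, n = (2 * g + 1) ^ 2 := ⟨_, rfl⟩
  rw [← hn] at hcore ⊢
  refine ⟨K * 2 ^ n * (2 * 2 ^ (g * κ)), by positivity,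
    fun L μ N₀ M ρ hL hμ hDen hN hM hρ S hNis hS => ?_⟩
  obtain ⟨m₂, hm1, hm2⟩ : ∃ m₂ : ℕ, M / 2 ^ (g * κ) < 4 ^ (m₂ + 1) ∧
      (m₂ ≠ 0 → 4 ^ m₂ ≤ M / 2 ^ (g * κ)) := by
    by_cases h1 : 1 ≤ M / 2 ^ (g * κ)
    · obtain ⟨n, h2, h3⟩ := exists_nat_pow_near h1 (y := (4 : ℝ)) (by norm_num)
      exact ⟨n, h3, fun _ => h2⟩
    · exact ⟨0, by linarith [not_le.1 h1], fun h => absurd rfl h⟩
  obtain ⟨l, s, k, hl, hk, hk1, hk2, hs⟩ := CountA.scales hN hρ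
  have hρ0 : 0 ≤ ρ := le_trans (Nat.cast_nonneg _) hρ
  obtain ⟨S', hc, hNis', hS'⟩ := CountA.reps hNis (fun x =>
      (∃ f m, UC.Irr f ∧ m ≠ 0 ∧ Tri f m x.1 x.2.1 x.2.2) ∧ L x.1 x.2.1 x.2.2 ∧
      ∃ e e' : Fin (2 * g + 1) → ℤ, UC.Ex e ∧ UC.Ex e' ∧ UC.Box κ e x.1 ∧ UC.Box κ e' x.2.1 ∧
      Box2 ((κ : ℤ) + k) e e' x.2.2 ∧ ¬Zb x.2.1 (Tt x.2.1 x.1 x.2.2ᵀ) ∧
      (Zb x.1 (Tt x.1 x.2.1 x.2.2) → m₂ ≠ 0 → (2 * m₂ : ℤ) ≤ dp k e)) fun x hx => by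
    obtain ⟨hLx, f, m, H, H', hZ, h0, hT, hMaj, hDst, hDst'⟩ := hS x hx
    obtain ⟨γ, β, e, e', hγ, hβ, hE, hE', b0, b1, b2, hcu, hnz⟩ :=
      hκ M ρ k x.1 x.2.1 x.2.2 H H' hT.det hT.det' hMaj hDst hDst' hρ0 hk1
    refine ⟨γ, β, hγ, hβ, ⟨f, m, hZ.irr, h0,
      hC.2.1 _ f m x.1 x.2.1 x.2.2 γ β hT.det hT.det' hγ hβ hT⟩,
      hL x.1 x.2.1 x.2.2 γ β hT.det hT.det' hγ hβ hLx, e, e', hE, hE', b0, b1, b2, hnz,
      fun hd h1 => ?_⟩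
    have h2 := hm2 h1
    rw [le_div_iff₀ (by positivity)] at h2
    have h3 : (4 : ℝ) ^ m₂ * 2 ^ (g * κ) = 2 ^ ((2 * m₂ + g * κ : ℕ) : ℤ) := by
      rw [zpow_natCast, pow_add, pow_mul 2 2 m₂]; norm_num
    have h4 := h2.trans (hcu hd)
    rw [h3, zpow_le_zpow_iff_right₀ (by norm_num)] at h4
    push_cast at h4 ⊢
    linarith
  have hmain := hcore L μ N₀ l hL hμ hDen hl s m₂ k hk S' hNis' hS'
  rw [hc] at hmain
  have hpow : ((2 : ℝ) ^ k) ^ n ≤ 2 ^ n * ρ ^ n := by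
    rw [← mul_pow]
    gcongr
  have hg1 : (1 : ℝ) ≤ 2 ^ (g * κ) := one_le_pow₀ (by norm_num)
  have t1 : μ ≤ 2 * 2 ^ (g * κ) * μ := le_mul_of_one_le_left hμ (by linarith)
  have t2 : 1 / (2 : ℝ) ^ s ≤ 2 * 2 ^ (g * κ) * ((N₀ : ℝ) / ρ) ^ (1 / 4 : ℝ) :=
    hs.trans (mul_le_mul_of_nonneg_right (by linarith) (by positivity))
  have t3 : 1 / (2 : ℝ) ^ m₂ ≤ 2 * 2 ^ (g * κ) * (1 / √M) := by
    rw [← mul_div_assoc, mul_one, div_le_div_iff₀ (by positivity) (Real.sqrt_pos.2 hM), one_mul]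
    refine Real.sqrt_le_iff.2 ⟨by positivity, ?_⟩
    rw [div_lt_iff₀ (by positivity)] at hm1
    have h4 : (4 : ℝ) ^ (m₂ + 1) = (2 * 2 ^ m₂) ^ 2 := by
      rw [← pow_succ', ← pow_mul, mul_comm, pow_mul]; norm_num
    calc M ≤ 4 ^ (m₂ + 1) * 2 ^ (g * κ) := hm1.le
      _ ≤ 4 ^ (m₂ + 1) * (2 ^ (g * κ)) ^ 2 := by
          gcongr
          exact le_self_pow₀ hg1 (by norm_num)
      _ = _ := by rw [h4]; ring
  calc (S.card : ℝ) ≤ _ := hmain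
    _ ≤ K * (2 ^ n * ρ ^ n) * (2 * 2 ^ (g * κ) * μ +
          2 * 2 ^ (g * κ) * ((N₀ : ℝ) / ρ) ^ (1 / 4 : ℝ) + 2 * 2 ^ (g * κ) * (1 / √M)) := by
        gcongr
    _ = _ := by ring

end Pool.Agent.MP_a43263_nt.N2
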