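import Pool.Agent.MP_a43263_nt.N2.SpecB
import Pool.Agent.MP_a43263_nt.K2.Den

/-! Row DEN: the density of all local conditions. -/

set_option autoImplicit false

noncomputable section

namespace Pool.Agent.MP_a43263_nt.N2

open Polynomial Finset Filter Matrix JC Pool.Agent.MP_a43263_nt.UV K2
open Pool.Agent.MP_a43263_nt.K2.DenA (map_tt det_mp)

namespace DenA

/-- The condition `P` forces the class modulo `r` into a set of density `μ`. -/
def LD (n r : ℕ) (P : UC.Mz n → Prop) (μ : ℝ) : Prop :=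
  ∃ S : Finset (Matrix (Fin n) (Fin n) (ZMod r)),
    (∀ B, P B → B.map (Int.castRingHom (ZMod r)) ∈ S) ∧ (S.card : ℝ) ≤ μ * (r : ℝ) ^ (n * n)

theorem crt (n : ℕ) {ι : Type} (I : Finset ι) (md : ι → ℕ) (P : ι → UC.Mz n → Prop) (μ : ι → ℝ)
    (h0 : ∀ i ∈ I, 0 < md i) (hc : ∀ i ∈ I, ∀ j ∈ I, i ≠ j → (md i).Coprime (md j))
    (hL : ∀ i ∈ I, LD n (md i) (P i) (μ i)) (Y : Fin n → Fin n → ℕ)
    (hY : ∀ p q, ∏ r ∈ I, md r ≤ Y p q) : ∃ W : Finset (UC.Mz n),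
      (∀ B : UC.Mz n, (∀ i ∈ I, P i B) → (∀ p q, |B p q| ≤ (Y p q : ℤ)) → B ∈ W) ∧
      (W.card : ℝ) ≤ (∏ i ∈ I, μ i) * ∏ p, ∏ q, (3 * (Y p q : ℝ)) := by
  classical
  have hS : ∀ i, ∃ S : Finset (Matrix (Fin n) (Fin n) (ZMod (md i))), i ∈ I →
      (∀ B, P i B → B.map (Int.castRingHom (ZMod (md i))) ∈ S) ∧
        (S.card : ℝ) ≤ μ i * (md i : ℝ) ^ (n * n) := fun i => by
    by_cases h : i ∈ I
    · exact (hL i h).imp fun _ a _ => a
    · exact ⟨∅, fun a => absurd a h⟩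
  choose S hS using hS
  set N := ∏ r ∈ I, md r with hN
  have N0 : 0 < N := prod_pos h0
  let W0 : Finset (UC.Mz n) := Fintype.piFinset fun p => Fintype.piFinset fun q =>
    Icc (-(Y p q : ℤ)) (Y p q)
  let W := W0.filter fun B : UC.Mz n => ∀ i ∈ I, B.map (Int.castRingHom (ZMod (md i))) ∈ S i
  refine ⟨W, fun B h3 h2 => mem_filter.2 ⟨Fintype.mem_piFinset.2 fun p =>
    Fintype.mem_piFinset.2 fun q => mem_Icc.2 (abs_le.1 (h2 p q)),
      fun i hi => (hS i hi).1 B (h3 i hi)⟩, ?_⟩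
  have key : W.card ≤ (∏ p, ∏ q, (2 * Y p q / N + 1)) * (I.pi S).card := by
    refine card_le_mul_card_image_of_maps_to
      (f := fun (B : UC.Mz n) i (_ : i ∈ I) => B.map (Int.castRingHom (ZMod (md i))))
      (fun B hB => mem_pi.2 (mem_filter.1 hB).2) _ fun s _ => ?_
    rcases (W.filter fun B : UC.Mz n => (fun i (_ : i ∈ I) =>
      B.map (Int.castRingHom (ZMod (md i)))) = s).eq_empty_or_nonempty with h | ⟨B0, h0⟩
    · rw [h]
      exact Nat.zero_le _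
    refine le_trans (card_le_card (t := Fintype.piFinset fun p => Fintype.piFinset fun q =>
      (Icc (-(Y p q : ℤ)) (Y p q)).filter fun z => (N : ℤ) ∣ z - B0 p q) fun B hB => ?_) ?_
    · obtain ⟨hB1, hB2⟩ := mem_filter.1 hB
      refine Fintype.mem_piFinset.2 fun p => Fintype.mem_piFinset.2 fun r =>
        mem_filter.2 ⟨Fintype.mem_piFinset.1
          (Fintype.mem_piFinset.1 (mem_filter.1 hB1).1 p) r, ?_⟩
      rw [hN, Nat.cast_prod]
      refine Finset.prod_dvd_of_coprime (fun q hq q' hq' hne => Nat.isCoprime_iff_coprime.2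
        (hc q hq q' hq' hne)) fun q hq => ?_
      have := congrFun (congrFun (congrFun (congrFun
        (((mem_filter.1 h0).2).trans hB2.symm) q) hq) p) r
      exact (ZMod.intCast_eq_intCast_iff_dvd_sub _ _ _).1 this
    · rw [Fintype.card_piFinset]
      refine prod_le_prod' fun p _ => ?_
      rw [Fintype.card_piFinset]
      exact prod_le_prod' fun r _ => UC.Den.card_class N _ N0 _
  have N0' : (0 : ℝ) < N := by exact_mod_cast N0
  rw [card_pi] at key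
  have k2 : (W.card : ℝ) ≤ (∏ p, ∏ q, (3 * (Y p q : ℝ) / N)) *
      ∏ i ∈ I, μ i * (md i : ℝ) ^ (n * n) := by
    refine le_trans (Nat.cast_le.2 key) ?_
    push_cast
    refine mul_le_mul (prod_le_prod
      (fun _ _ => prod_nonneg fun _ _ => by positivity) fun p _ =>
      prod_le_prod (fun _ _ => by positivity) fun r _ => ?_)
      (prod_le_prod (fun _ _ => Nat.cast_nonneg _) fun i hi => (hS i hi).2)
      (prod_nonneg fun _ _ => Nat.cast_nonneg _) (by positivity)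
    have h1 : ((2 * Y p r / N : ℕ) : ℝ) ≤ (2 * Y p r : ℕ) / N := Nat.cast_div_le
    have h2 : (1 : ℝ) ≤ Y p r / N := (one_le_div N0').2 (by exact_mod_cast hY p r)
    push_cast at h1
    calc _ ≤ 2 * (Y p r : ℝ) / N + Y p r / N := add_le_add h1 h2
      _ = _ := by ring
  refine k2.trans (le_of_eq ?_)
  simp only [prod_div_distrib, prod_const, card_univ, Fintype.card_fin]
  rw [prod_mul_distrib, prod_pow, ← Nat.cast_prod, ← hN, ← pow_mul]
  field_simp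

theorem two_ne {p : ℕ} (hp : p.Prime) (h2 : p ≠ 2) : (2 : ZMod p) ≠ 0 := fun e =>
  h2 ((Nat.prime_dvd_prime_iff_eq hp Nat.prime_two).1
    ((ZMod.natCast_eq_zero_iff 2 p).1 (by exact_mod_cast e)))

variable {g : ℕ} {A A' : Mat g ℤ}

theorem det_ne {p : ℕ} [Fact p.Prime] (h : IsUnit A.det) : (mK A (ZMod p)).det ≠ 0 := by
  rw [det_mp]
  exact (h.map _).ne_zero

theorem ldQ (hF : K2.FCStmt) (g : ℕ) (hg : 1 ≤ g) : ∃ q₀ : ℕ, ∀ (q : ℕ) (f₀ : ℤ[X]) (mb : ℤ)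
    (m₁ : ℕ) (A A' : Mat g ℤ), q.Prime → q₀ ≤ q → Ty q f₀ → ¬(q : ℤ) ∣ mb → A.IsSymm →
    A'.IsSymm → IsUnit A.det → IsUnit A'.det →
    LD (2 * g + 1) q (LQ q f₀ mb m₁ A A') (9 / 10 / (q : ℝ) ^ (2 * g + 1)) := by
  obtain ⟨q0, hq0⟩ := hF g hg
  refine ⟨max q0 3, ?_⟩
  rintro q f₀ mb m₁ A A' h1 h2 ⟨h, h3, h4, -⟩ h5 hA hA' hd hd'
  have := Fact.mk h1
  classical
  by_cases hdeg : h.natDegree = 2 * g
  swap
  · refine ⟨∅, fun N t => absurd ?_ hdeg, by rw [card_empty, Nat.cast_zero]; positivity⟩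
    obtain ⟨c, -, ⟨T, -, hT, -⟩, -⟩ := t
    have h6 := T.charpoly_natDegree_eq_dim
    rw [hT, h3, natDegree_X_mul h4.ne_zero, Fintype.card_fin] at h6
    omega
  have h6 := hq0 (ZMod q) (by rw [ZMod.card]; exact (le_max_left _ _).trans h2)
    (two_ne h1 (by have := (le_max_right _ _).trans h2; omega))
    (mK A (ZMod q)) (mK A' (ZMod q)) (hA.map _) (hA'.map _) (det_ne hd) (det_ne hd')
    (mb : ZMod q) h (fun e => h5 ((ZMod.intCast_zmod_eq_zero_iff_dvd _ _).1 e)) h4 hdeg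
  rw [Nat.card_eq_fintype_card, Fintype.card_subtype, ZMod.card] at h6
  refine ⟨image (fun N => (m₁ : ZMod q) • N) _, ?_, (Nat.cast_le.2 card_image_le).trans
    (le_of_mul_le_mul_left (a := 10) (le_trans (by exact_mod_cast h6 : _ ≤
      9 * (q : ℝ) ^ (2 * g * (2 * g + 1))) (le_of_eq ?_)) (by norm_num))⟩
  · rintro N ⟨c, c1, c2, c3⟩
    exact mem_image.2 ⟨c • mK N (ZMod q), mem_filter.2 ⟨mem_univ _, c3, h3 ▸ c2⟩, by
      rw [smul_smul, mul_comm _ c, c1, one_smul]⟩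
  · have q0' : (0 : ℝ) < q := by exact_mod_cast h1.pos
    rw [show (2 * g + 1) * (2 * g + 1) = 2 * g * (2 * g + 1) + (2 * g + 1) by ring,
      pow_add _ (2 * g * (2 * g + 1))]
    field_simp

theorem ld1 (hF : FLGStmt) {p : ℕ} {C C' : ℝ} (c : ℤ) (hp : p.Prime) (h2 : p ≠ 2) (hA : A.IsSymm)
    (hA' : A'.IsSymm) (hd : IsUnit A.det) (hd' : IsUnit A'.det) (hC : 0 < C)
    (hC' : 2 * C + C ^ 2 ≤ C')
    (h : (Nat.card {M : Sub g p // Is1 p A M} : ℝ) ≤ (p : ℝ) ^ (g + 1).choose 2 * (1 + C / p))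
    (h' : (Nat.card {M : Sub g p // Is1 p A' M} : ℝ) ≤ (p : ℝ) ^ (g + 1).choose 2 * (1 + C / p)) :
    LD (2 * g + 1) (p ^ 2) (L1 p c A A') (2 * (p : ℝ) ^ (5 * g ^ 2 + 3 * g) * (1 + C' / p) /
      (p : ℝ) ^ (2 * (2 * g + 1) ^ 2)) := by
  classical
  have := Fact.mk hp
  have := Fintype.ofFinite ({M : Sub g p // Is1 p A M} × {M : Sub g p // Is1 p A' M})
  choose W w1 w2 using fun x : {M : Sub g p // Is1 p A M} × {M : Sub g p // Is1 p A' M} =>
    hF g p c A A' x.1.1 x.2.1 hp h2 hA hA' hd hd' x.1.2 x.2.2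
  refine ⟨univ.biUnion W, ?_, ?_⟩
  · rintro N ⟨M, M', a1, a2, a3⟩
    exact mem_biUnion.2 ⟨(⟨M, a1⟩, ⟨M', a2⟩), mem_univ _, w2 _ N a3⟩
  · have p1 : (1 : ℝ) ≤ p := by exact_mod_cast hp.one_le
    have b1 := card_biUnion_le_card_mul univ W _ fun x _ => w1 x
    rw [card_univ, ← Nat.card_eq_fintype_card, Nat.card_prod] at b1
    have b2 : (1 + C / p) * (1 + C / p) ≤ 1 + C' / p := by
      have d1 : C / p ≤ C := div_le_self hC.le p1
      have d2 : 0 ≤ C / p := by positivity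
      have d3 : (2 * C + C ^ 2) / p ≤ C' / p := div_le_div_of_nonneg_right hC' (by linarith)
      have d4 : (2 * C + C ^ 2) / p = 2 * (C / p) + C * (C / p) := by ring
      nlinarith
    have b3 : 5 * g ^ 2 + 3 * g = (g + 1).choose 2 + (g + 1).choose 2 + (4 * g ^ 2 + 2 * g) := by
      have := Nat.div_two_mul_two_of_even (Nat.even_mul_pred_self (g + 1))
      rw [Nat.choose_two_right]
      simp only [Nat.add_sub_cancel] at this ⊢
      nlinarith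
    refine (Nat.cast_le.2 b1).trans ?_
    push_cast
    rw [← pow_mul, ← pow_two, div_mul_cancel₀ _ (by positivity), b3,
      pow_add _ _ (4 * g ^ 2 + 2 * g), pow_add _ ((g + 1).choose 2)]
    calc _ ≤ ((p : ℝ) ^ (g + 1).choose 2 * (1 + C / p)) * ((p : ℝ) ^ (g + 1).choose 2 *
          (1 + C / p)) * (2 * (p : ℝ) ^ (4 * g ^ 2 + 2 * g)) :=
          mul_le_mul_of_nonneg_right (mul_le_mul h h' (Nat.cast_nonneg _) (by positivity))
            (by positivity)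
      _ = 2 * ((p : ℝ) ^ (g + 1).choose 2 * (p : ℝ) ^ (g + 1).choose 2 *
          (p : ℝ) ^ (4 * g ^ 2 + 2 * g)) * ((1 + C / p) * (1 + C / p)) := by ring
      _ ≤ _ := mul_le_mul_of_nonneg_left b2 (by positivity)

theorem ld2 {p : ℕ} [Fact p.Prime] {C C' : ℝ} (c : ℤ) (hd : IsUnit A.det) (hd' : IsUnit A'.det)
    (hC : C ≤ C') (h : (Nat.card {N : Mat g (ZMod p) // Hz g ((c : ZMod p) • mK A (ZMod p) +
      mK A (ZMod p) * Tt (mK A (ZMod p)) (mK A' (ZMod p)) N)} : ℝ) * (2 * Fintype.card (ZMod p)) ≤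
      (Fintype.card (ZMod p) : ℝ) ^ ((2 * g + 1) ^ 2) * (1 + C / Fintype.card (ZMod p))) :
    LD (2 * g + 1) p (L2 p c A A') ((1 + C' / p) / (2 * p)) := by
  classical
  have p0 : (0 : ℝ) < p := by exact_mod_cast (Fact.out : p.Prime).pos
  rw [Nat.card_eq_fintype_card, Fintype.card_subtype, ZMod.card] at h
  refine ⟨_, fun N t => mem_filter.2 ⟨mem_univ _, ?_⟩, le_trans ((le_div_iff₀ (by positivity)).2 h)
    ?_⟩
  · rw [← map_tt _ N hd hd', show (c : ZMod p) • mK A (ZMod p) = mK (c • A) (ZMod p) from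
      Matrix.ext fun i j => (Int.cast_mul c (A i j)).symm, ← Matrix.map_add _ (map_add _)]
    exact t
  · rw [← pow_two, div_mul_eq_mul_div, mul_comm (1 + C' / p)]
    gcongr

end DenA

open DenA

theorem den_n : K2.FCStmt → ISCStmt → FLGStmt → DTWStmt → DENStmt := by
  intro hF hI hG hD g hg
  obtain ⟨q₀, hq⟩ := ldQ hF g hg
  obtain ⟨C₁, c1, h1⟩ := hI g
  obtain ⟨C₂, c2, h2⟩ := hD g hg
  refine ⟨q₀, 2 * C₁ + C₁ ^ 2 + C₂, by positivity,
    fun Q f₀ mb m₀ m₁ a hQ hS hm A A' hA hA' hd hd' Y hY => ?_⟩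
  have m0 : m₀ ≠ 0 := hS.sf.ne_zero
  have m1 : m₁ ≠ 0 := ne_zero_of_dvd_ne_zero m0 hm
  have hsub : m₁.primeFactors ⊆ m₀.primeFactors := Nat.primeFactors_mono hm m0
  have o2 : ∀ p, p ∣ m₀ → p ≠ 2 := fun p h e => hS.odd (e ▸ h)
  let I := Q.disjSum (m₁.primeFactors.disjSum (m₀.primeFactors \ m₁.primeFactors))
  let pr : ℕ ⊕ ℕ ⊕ ℕ → ℕ := Sum.elim id (Sum.elim id id)
  let md : ℕ ⊕ ℕ ⊕ ℕ → ℕ := Sum.elim id (Sum.elim (· ^ 2) id)
  have hI : ∀ i ∈ I, (∃ q ∈ Q, i = .inl q) ∨ (∃ p, p.Prime ∧ p ∣ m₁ ∧ i = .inr (.inl p)) ∨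
      ∃ p, p.Prime ∧ p ∣ m₀ ∧ ¬p ∣ m₁ ∧ i = .inr (.inr p) := by
    rintro (q | p | p) hi
    · exact Or.inl ⟨q, inl_mem_disjSum.1 hi, rfl⟩
    · have := Nat.mem_primeFactors.1 (inl_mem_disjSum.1 (inr_mem_disjSum.1 hi))
      exact Or.inr (Or.inl ⟨p, this.1, this.2.1, rfl⟩)
    · obtain ⟨a1, a2⟩ := mem_sdiff.1 (inr_mem_disjSum.1 (inr_mem_disjSum.1 hi))
      have := Nat.mem_primeFactors.1 a1
      exact Or.inr (Or.inr ⟨p, this.1, this.2.1,
        fun h => a2 (Nat.mem_primeFactors.2 ⟨this.1, h, m1⟩), rfl⟩)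
  have hp : ∀ i ∈ I, (pr i).Prime ∧ md i ∣ pr i ^ 2 := fun i hi => by
    rcases hI i hi with ⟨q, a, rfl⟩ | ⟨p, a, -, rfl⟩ | ⟨p, a, -, -, rfl⟩
    exacts [⟨(hQ q a).1, dvd_pow_self _ two_ne_zero⟩, ⟨a, dvd_rfl⟩,
      ⟨a, dvd_pow_self _ two_ne_zero⟩]
  have hj : ∀ i ∈ I, ∀ j ∈ I, pr i = pr j → i = j := fun i hi j hj e => by
    rcases hI i hi with ⟨q, a, rfl⟩ | ⟨p, -, a, rfl⟩ | ⟨p, -, a, a', rfl⟩ <;>
      rcases hI j hj with ⟨q', b, rfl⟩ | ⟨p', -, b, rfl⟩ | ⟨p', -, b, b', rfl⟩ <;>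
      obtain rfl : _ = _ := (show (_ : ℕ) = _ from e)
    exacts [rfl, absurd (b.trans hm) (hS.cop _ a), absurd b (hS.cop _ a),
      absurd (a.trans hm) (hS.cop _ b), rfl, absurd a b', absurd a (hS.cop _ b), absurd b a', rfl]
  obtain ⟨W, w1, w2⟩ := crt (2 * g + 1) I md
    (Sum.elim (fun q => LQ q f₀ mb m₁ A A') (Sum.elim
      (fun p => L1 p ((1 - a) * ((m₁ / p : ℕ) : ℤ) ^ 2) A A')
      fun p => L2 p ((m₁ : ℤ) ^ 2 * (1 - a) - 1) A A'))
    (Sum.elim (fun q : ℕ => 9 / 10 / (q : ℝ) ^ (2 * g + 1)) (Sum.elim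
      (fun p : ℕ => 2 * (p : ℝ) ^ (5 * g ^ 2 + 3 * g) * (1 + (2 * C₁ + C₁ ^ 2 + C₂) / p) /
        (p : ℝ) ^ (2 * (2 * g + 1) ^ 2))
      fun p : ℕ => (1 + (2 * C₁ + C₁ ^ 2 + C₂) / p) / (2 * p)))
    (fun i hi => Nat.pos_of_dvd_of_pos (hp i hi).2 (pow_pos (hp i hi).1.pos 2))
    (fun i hi j hj' e => Nat.Coprime.of_dvd (hp i hi).2 (hp j hj').2 (Nat.Coprime.pow 2 2
      ((Nat.coprime_primes (hp i hi).1 (hp j hj').1).2 fun h => e (hj i hi j hj' h))))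
    (fun i hi => by
      rcases hI i hi with ⟨q, b, rfl⟩ | ⟨p, b, b', rfl⟩ | ⟨p, b, b1, b2, rfl⟩
      · obtain ⟨a1, a2, a3, a4⟩ := hQ q b
        exact hq q f₀ mb m₁ A A' a1 a2 a3 a4 hA hA' hd hd'
      · have e := o2 p (b'.trans hm)
        exact ld1 hG _ b e hA hA' hd hd' c1 (by linarith) (h1 p A b e hA hd) (h1 p A' b e hA' hd')
      · have := Fact.mk b
        obtain ⟨⟨s, hs⟩, a2⟩ := hS.sq p b b1
        refine ld2 (p := p) _ hd hd' (by nlinarith) (h2 (ZMod p) (two_ne b (o2 p b1)) _ _ _ (m₁ * s)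
          (hA.map _) (hA'.map _) (det_ne hd) (det_ne hd') (mul_ne_zero
            (fun e => b2 ((ZMod.natCast_eq_zero_iff _ _).1 e)) fun e => a2
              ((ZMod.intCast_zmod_eq_zero_iff_dvd _ _).1 (by rw [hs, e, mul_zero]))) ?_)
        rw [Int.cast_sub, Int.cast_mul, hs]
        push_cast
        ring) Y
    (fun p q => le_trans (by
      rw [prod_disjSum, prod_disjSum]
      refine Nat.mul_le_mul_left _ ?_
      refine le_trans (Nat.mul_le_mul_left _ (prod_le_prod' (g := fun p => p ^ 2) fun p _ =>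
        Nat.le_self_pow two_ne_zero p)) (le_of_eq ?_)
      rw [mul_comm]
      refine (prod_sdiff (f := fun p => p ^ 2) hsub).trans ?_
      rw [prod_pow, Nat.prod_primeFactors_of_squarefree hS.sf]) (hY p q))
  refine ⟨W, fun N t => w1 N fun i hi => ?_, w2.trans (le_of_eq ?_)⟩
  · rcases hI i hi with ⟨q, b, rfl⟩ | ⟨p, b, b', rfl⟩ | ⟨p, b, b1, b2, rfl⟩
    exacts [t.1 q b, t.2.1 p b b', t.2.2 p b b1 b2]
  · rw [prod_disjSum, prod_disjSum, den, ← prod_pow, ← prod_const, ← prod_div_distrib,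
      ← mul_assoc (∏ q ∈ Q, _)]
    rfl

end Pool.Agent.MP_a43263_nt.N2
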