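import Pool.Agent.MP_a43263_nt.N2.SpecB

/-! THEOREM N2, row FAM: many pairwise non-isomorphic triples. -/

set_option autoImplicit false

noncomputable section

namespace Pool.Agent.MP_a43263_nt.N2

open Polynomial Finset Filter Matrix JC Pool.Agent.MP_a43263_nt.UV K2

namespace FamA

/-- A product of finite families, as functions on all indices. -/
theorem fam {β : ℕ → Type} [∀ p, Inhabited (β p)] (s : Finset ℕ) (P : ∀ p, β p → Prop) (c : ℕ → ℕ)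
    (h : ∀ p ∈ s, ∃ L : Finset (β p), c p ≤ L.card ∧ ∀ x ∈ L, P p x) :
    ∃ J : Finset (∀ p, β p), ∏ p ∈ s, c p ≤ J.card ∧ (∀ x ∈ J, ∀ p ∈ s, P p (x p)) ∧
      ∀ x ∈ J, ∀ y ∈ J, (∀ p ∈ s, x p = y p) → x = y := by
  classical
  choose! L h1 h2 using h
  let e : (∀ p ∈ s, β p) → ∀ p, β p := fun j p => if k : p ∈ s then j p k else default
  have he : ∀ j p k, e j p = j p k := fun j p k => dif_pos k
  have hi : ∀ j j', (∀ p ∈ s, e j p = e j' p) → j = j' := fun j j' q =>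
    funext₂ fun p k => by rw [← he j p k, q p k, he]
  refine ⟨(s.pi L).image e, ?_, fun x hx p k => ?_, fun x hx y hy q => ?_⟩
  · rw [card_image_of_injective _ fun j j' q => hi j j' fun p _ => congrFun q p, card_pi]
    exact prod_le_prod' h1
  · obtain ⟨j, hj, rfl⟩ := mem_image.1 hx
    rw [he j p k]
    exact h2 p k _ (mem_pi.1 hj p k)
  · obtain ⟨j, -, rfl⟩ := mem_image.1 hx
    obtain ⟨j', -, rfl⟩ := mem_image.1 hy
    rw [hi j j' q]

end FamA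

theorem fam_n : LGOStmt → OVLStmt → TRPStmt → LOPStmt → LTPStmt → NISStmt → FAMStmt := by
  classical
  intro lgo ovl trp lop ltp nis g Q m₀ m₁ a f m A A' M T hS hF hd hP
  have sf : Squarefree m₁ := hS.sf.squarefree_of_dvd hd
  have mem : ∀ p : ℕ, p.Prime → p ∣ m₁ → p ∈ m₁.primeFactors := fun p a b =>
    Nat.mem_primeFactors.2 ⟨a, b, sf.ne_zero⟩
  have odd : ∀ p : ℕ, p ∣ m₁ → p ≠ 2 := fun p b e => hS.odd (e ▸ b.trans hd)
  have l1 := fun p a b => lgo g p A hF.zq.pos a (odd p b) hP.sa (hP.hy p a b).1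
  have l2 := fun p a b => lgo g p A' hF.zq.pos a (odd p b) hP.sa' (hP.hy p a b).2.1
  obtain ⟨J, j1, j2, j3⟩ := FamA.fam m₁.primeFactors (fun p Λ => Lg (g := g) p A Λ)
    (fun p => 2 * p ^ g.choose 2) fun p k =>
      (l1 p (Nat.prime_of_mem_primeFactors k) (Nat.dvd_of_mem_primeFactors k)).2
  obtain ⟨J', k1, k2, k3⟩ := FamA.fam m₁.primeFactors (fun p Λ => Lg (g := g) p A' Λ)
    (fun p => 2 * p ^ g.choose 2) fun p k =>
      (l2 p (Nat.prime_of_mem_primeFactors k) (Nat.dvd_of_mem_primeFactors k)).2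
  have ex : ∀ z ∈ J ×ˢ J', ∃ (t : Trp g) (R R' : Mat g ℤ), Ov m₁ A z.1 R t.1 ∧
      Ov m₁ A' z.2 R' t.2.1 ∧ Tp g f m m₁ A' M T R R' t.1 t.2.1 t.2.2 := fun z hz => by
    obtain ⟨z1, z2⟩ := mem_product.1 hz
    obtain ⟨R, B, o⟩ := ovl g m₁ A z.1 sf hP.dA fun p a b => j2 _ z1 p (mem p a b)
    obtain ⟨R', B', o'⟩ := ovl g m₁ A' z.2 sf hP.dA' fun p a b => k2 _ z2 p (mem p a b)
    obtain ⟨N, hN⟩ := trp g Q m₀ m₁ a f m A A' M T R R' B B' z.1 z.2 hF.zq hF.ev sf hP o o'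
    exact ⟨(B, B', N), R, R', o, o', hN⟩
  choose! t R R' o o' ht using ex
  have key : ∀ z ∈ J ×ˢ J', ∀ w ∈ J ×ˢ J', ∀ γ β : Mat g ℤ, γ.det = 1 → β.det = 1 →
      t w = (γᵀ * (t z).1 * γ, βᵀ * (t z).2.1 * β, βᵀ * (t z).2.2 * γ) → z = w := by
    intro z hz w hw γ β h1 h2 e
    have q := nis g Q m₀ m₁ a f m A A' M T _ _ _ _ _ _ _ _ _ _ γ β z.1 z.2 w.1 w.2 hF.zq hF.ev sf
      hP (o z hz) (o' z hz) (ht z hz) (o w hw) (o' w hw) (ht w hw) h1 h2 (congrArg (·.1) e)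
      (congrArg (·.2.1) e) (congrArg (·.2.2) e)
    have q' := fun p k => q p (Nat.prime_of_mem_primeFactors k) (Nat.dvd_of_mem_primeFactors k)
    exact Prod.ext (j3 _ (mem_product.1 hz).1 _ (mem_product.1 hw).1 fun p k => (q' p k).1)
      (k3 _ (mem_product.1 hz).2 _ (mem_product.1 hw).2 fun p k => (q' p k).2)
  refine ⟨(J ×ˢ J').image t, ?_, fun x hx y hy γ β h1 h2 e => ?_, fun x hx => ?_⟩
  · rw [card_image_of_injOn fun z hz w hw e => key z hz w hw 1 1 det_one det_one (by simp [← e]),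
      card_product, mu1, prod_pow, sq]
    exact Nat.mul_le_mul j1 k1
  · obtain ⟨z, hz, rfl⟩ := mem_image.1 hx
    obtain ⟨w, hw, rfl⟩ := mem_image.1 hy
    rw [key z hz w hw γ β h1 h2 e]
  · obtain ⟨z, hz, rfl⟩ := mem_image.1 hx
    have u := ltp g Q m₀ m₁ a f m A A' M T _ _ _ _ _ z.1 z.2 hS hF hd hP (o z hz) (o' z hz) (ht z hz)
    exact ⟨(ht z hz).tri, ⟨u.1, fun p b c => lop g Q m₀ m₁ a f m A A' M T _ _ _ _ _ z.1 z.2 p hS hF
      hd hP (o z hz) (o' z hz) (ht z hz) b c (l1 p b c).1 (l2 p b c).1, u.2⟩, (ht z hz).nd⟩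

end Pool.Agent.MP_a43263_nt.N2
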