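import Pool.Agent.MP_a43263_nt.N2.SpecB

/-! THEOREM N2, the scaled polynomial. -/

set_option autoImplicit false

noncomputable section

namespace Pool.Agent.MP_a43263_nt.N2

open Polynomial Finset Filter Matrix JC Pool.Agent.MP_a43263_nt.UV K2

namespace FhA

theorem ev (K : Type) [CommRing K] (c : ℤ) (f : ℤ[X]) (y : K) :
    (zK (fh c f) K).eval (1 - (c : K) ^ 2 + (c : K) ^ 2 * y) =
      ((c : K) ^ 2) ^ f.natDegree * (zK f K).eval y := by
  have h := scaleRoots_eval₂_mul (p := f) (Int.castRingHom K) y (c ^ 2)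
  simp only [eq_intCast, Int.cast_pow] at h
  rw [eval_map, eval_map, fh, eval₂_comp, ← h]
  congr 1
  rw [eval₂_sub, eval₂_X, eval₂_C, eq_intCast]
  push_cast
  ring

theorem ev' (K : Type) [Field K] {c : ℤ} (hc : (c : K) ≠ 0) (f : ℤ[X]) (x : K) :
    (zK (fh c f) K).eval x =
      ((c : K) ^ 2) ^ f.natDegree * (zK f K).eval ((x - (1 - (c : K) ^ 2)) / (c : K) ^ 2) := by
  rw [← ev]
  congr 1
  field_simp
  ring

theorem inj {f f' : ℤ[X]} (h : ∀ x : ℚ, (zK f ℚ).eval x = (zK f' ℚ).eval x) : f = f' :=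
  map_injective (Int.castRingHom ℚ) (RingHom.injective_int _) (Polynomial.funext h)

end FhA

open FhA in
theorem fh_n : FHStmt := by
  intro g c f hc hf
  have hq : (c : ℚ) ≠ 0 := by exact_mod_cast hc
  have hq2 : (c : ℚ) ^ 2 ≠ 0 := pow_ne_zero _ hq
  refine ⟨⟨hf.pos, ?_, ?_, ?_⟩, fun T hT => inj fun x => ?_, fun ρ hρ h θ hθ => ?_,
    fun f' hf' h => inj fun y => ?_⟩
  · exact ((monic_scaleRoots_iff _).2 hf.monic).comp_X_sub_C _
  · rw [fh, natDegree_comp, natDegree_scaleRoots, natDegree_X_sub_C, mul_one, hf.deg]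
  · let _ : Invertible ((c : ℚ) ^ 2)⁻¹ := invertibleOfNonzero (inv_ne_zero hq2)
    have e : zK (fh c f) ℚ = C (((c : ℚ) ^ 2) ^ f.natDegree) *
        algEquivCMulXAddC ((c : ℚ) ^ 2)⁻¹ (-(1 - (c : ℚ) ^ 2) / (c : ℚ) ^ 2) (zK f ℚ) := by
      refine Polynomial.funext fun x => ?_
      rw [ev' ℚ hq, eval_mul, eval_C, algEquivCMulXAddC_apply, ← comp_eq_aeval, eval_comp]
      congr 2
      simp only [eval_add, eval_mul, eval_C, eval_X]
      field_simp
      ring
    rw [e, irreducible_isUnit_mul (isUnit_C.2 (IsUnit.mk0 _ (pow_ne_zero _ hq2)))]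
    exact (MulEquiv.irreducible_iff _).2 hf.irr
  · rw [ev' ℚ hq, hf.deg, ← hT, zK, zK, ← charpoly_map, ← charpoly_map, eval_charpoly,
      eval_charpoly]
    have e := det_smul (scalar (Fin (2 * g + 1)) ((x - (1 - (c : ℚ) ^ 2)) / (c : ℚ) ^ 2) -
      T.map (Int.castRingHom ℚ)) ((c : ℚ) ^ 2)
    rw [Fintype.card_fin] at e
    rw [← e]
    congr 1
    ext i j
    simp only [map_apply, Matrix.sub_apply, Matrix.add_apply, Matrix.smul_apply, smul_eq_mul,
      scalar_apply, diagonal_apply, one_apply, eq_intCast]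
    split_ifs
    · push_cast
      field_simp
      ring
    · push_cast
      ring
  · have hC : (c : ℂ) ≠ 0 := by exact_mod_cast hc
    rw [ev' ℂ hC, mul_eq_zero] at hθ
    obtain ⟨-, h2⟩ := h _ (hθ.resolve_left (pow_ne_zero _ (pow_ne_zero _ hC)))
    have e : 1 - (θ - (1 - (c : ℂ) ^ 2)) / (c : ℂ) ^ 2 = (1 - θ) / (c : ℂ) ^ 2 := by
      field_simp
      ring
    have h1 : (1 : ℝ) ≤ |(c : ℝ)| := by exact_mod_cast Int.one_le_abs hc
    rw [e, norm_div, norm_pow, Complex.norm_intCast, div_le_iff₀ (by positivity)] at h2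
    have h3 : ‖θ‖ ≤ 1 + ‖1 - θ‖ := by
      have := norm_sub_le (1 : ℂ) (1 - θ)
      rwa [sub_sub_cancel, norm_one] at this
    have h4 : 1 ≤ ρ ^ 2 * |(c : ℝ)| ^ 2 :=
      one_le_mul_of_one_le_of_one_le (one_le_pow₀ hρ) (one_le_pow₀ h1)
    constructor <;> nlinarith
  · have h1 := FhA.ev ℚ c f y
    rw [h, FhA.ev, hf.deg, hf'.deg] at h1
    exact (mul_left_cancel₀ (pow_ne_zero _ hq2) h1).symm

end Pool.Agent.MP_a43263_nt.N2
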