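import Pool.Agent.MP_a43263_nt.N2.SpecD

/-! THEOREM N2: the final count. -/

set_option autoImplicit false

noncomputable section

namespace Pool.Agent.MP_a43263_nt.N2

open Finset Filter K2

namespace FinA

theorem cop {z m d : ℕ} {κ : ℝ} (h : Mz z κ m) (hd : d ∣ primorial z) : m.Coprime d :=
  Nat.coprime_of_dvd fun p hp h1 h2 =>
    absurd (hp.dvd_primorial_iff.1 (h2.trans hd)) (not_le.2 (h.2.1 p hp h1))

/-- the smooth part is determined by the point -/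
theorem uniq {g v z k m m' x : ℕ} {κ : ℝ} {w : Vec g} (hz : z ≤ k) (hm : Mz z κ m)
    (hm' : Mz z κ m') (h0 : 0 < m') (hk : m' ≤ k) (h : Hit v (primorial z) k m x w)
    (h' : Hit v (primorial z) k m' x w) : m = m' := by
  obtain ⟨-, d, r, hd, hr, kr, e⟩ := h
  obtain ⟨-, d', r', hd', hr', -, e'⟩ := h'
  have e1 : m * d * r = m' * d' * r' := by exact_mod_cast e.symm.trans e'
  have e2 : r = r' := by
    rcases (Nat.Prime.dvd_mul hr).1 (e1 ▸ Dvd.intro_left _ rfl : r ∣ m' * d' * r') with a | a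
    · rcases (Nat.Prime.dvd_mul hr).1 a with b | b
      · have := Nat.le_of_dvd h0 b
        omega
      · have := hr.dvd_primorial_iff.1 (b.trans hd')
        omega
    · exact (Nat.prime_dvd_prime_iff_eq hr hr').1 a
  subst e2
  have e3 : m * d = m' * d' := Nat.eq_of_mul_eq_mul_right hr.pos e1
  exact Nat.dvd_antisymm ((cop hm hd').dvd_of_dvd_mul_right (e3 ▸ Dvd.intro _ rfl))
    ((cop hm' hd).dvd_of_dvd_mul_right (e3 ▸ Dvd.intro _ rfl))

open Classical in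
theorem sum_ind {α : Type} (s : Finset α) (P : α → Prop) :
    ∑ x ∈ s, ind (P x) = ((s.filter P).card : ℝ) := by
  unfold ind
  rw [card_filter]
  push_cast
  exact sum_congr rfl fun x _ => by congr

/-- one vector and one index -/
theorem inj {g v z k U j : ℕ} {κ : ℝ} (w : Vec g) (M : Finset ℕ) (hz : z ≤ k)
    (hM : ∀ m ∈ M, Mz z κ m ∧ 0 < m ∧ m ≤ k ∧ m * (primorial z ^ 2 * j) ≤ U) :
    ∑ m ∈ M, ∑ u ∈ Ioc U (2 * U), ind (Hit v (primorial z) k m (pu (primorial z) m u j) w) ≤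
      ∑ x ∈ Ioc U (3 * U), ind (Bst w x v) := by
  classical
  rw [← sum_product' (f := fun m u => ind (Hit v (primorial z) k m (pu (primorial z) m u j) w)),
    sum_ind, sum_ind, Nat.cast_le]
  refine card_le_card_of_injOn (fun y => pu (primorial z) y.1 y.2 j) (fun y hy => ?_)
    fun y hy y' hy' e => ?_
  · obtain ⟨a, b⟩ := mem_filter.1 (mem_coe.1 hy)
    obtain ⟨a1, a2⟩ := mem_product.1 a
    have := (hM _ a1).2.2.2
    have := mem_Ioc.1 a2
    exact mem_coe.2 (mem_filter.2 ⟨mem_Ioc.2 (by simp only [pu]; omega), b.1⟩)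
  · obtain ⟨a, b⟩ := mem_filter.1 (mem_coe.1 hy)
    obtain ⟨a', b'⟩ := mem_filter.1 (mem_coe.1 hy')
    have c := hM _ (mem_product.1 a).1
    have c' := hM _ (mem_product.1 a').1
    have e1 : pu (primorial z) y.1 y.2 j = pu (primorial z) y'.1 y'.2 j := e
    have e2 : y.1 = y'.1 := uniq hz c.1 c'.1 c'.2.1 c'.2.2.1 (e1 ▸ b) b'
    refine Prod.ext e2 ?_
    unfold pu at e1
    rw [e2] at e1
    omega

/-- all vectors and indices -/
theorem tot {g v z k U : ℕ} {κ : ℝ} (M : Finset ℕ) (hz : z ≤ k)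
    (hM : ∀ m ∈ M, Mz z κ m ∧ 0 < m ∧ m ≤ k ∧ m * (primorial z ^ 2 * nl k) ≤ U) :
    ∑ m ∈ M, ∑ u ∈ Ioc U (2 * U), ∑ j ∈ range (nl k),
        cnt g k (Hit v (primorial z) k m (pu (primorial z) m u j)) ≤
      nl k * ∑ x ∈ Ioc U (3 * U), cnt g k fun w => Bst w x v := by
  unfold cnt
  calc _ = ∑ j ∈ range (nl k), ∑ w ∈ bx g k, ∑ m ∈ M, ∑ u ∈ Ioc U (2 * U),
          ind (Hit v (primorial z) k m (pu (primorial z) m u j) w) := by
        rw [sum_congr rfl fun m _ => sum_comm, sum_comm]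
        refine sum_congr rfl fun j _ => ?_
        rw [sum_congr rfl fun m _ => sum_comm, sum_comm]
    _ ≤ ∑ j ∈ range (nl k), ∑ w ∈ bx g k, ∑ x ∈ Ioc U (3 * U), ind (Bst w x v) :=
        sum_le_sum fun j hj => sum_le_sum fun w _ => inj w M hz fun m hm =>
          ⟨(hM m hm).1, (hM m hm).2.1, (hM m hm).2.2.1, le_trans (Nat.mul_le_mul_left _
            (Nat.mul_le_mul_left _ (mem_range.1 hj).le)) (hM m hm).2.2.2⟩
    _ = _ := by rw [sum_const, card_range, nsmul_eq_mul, sum_comm]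

/-- the number of indices is small -/
theorem small (N : ℕ) : ∀ᶠ k : ℕ in atTop, (N * nl k) ^ 4 ≤ k ∧ 0 < nl k := by
  have h := (Real.isLittleO_pow_log_id_atTop (n := 8)).bound
    (show (0 : ℝ) < 1 / ((N : ℝ) ^ 4 + 1) by positivity)
  filter_upwards [tendsto_natCast_atTop_atTop.eventually h,
    (Real.tendsto_log_atTop.comp tendsto_natCast_atTop_atTop).eventually_ge_atTop 1] with k h1 h2
  have h3 : (1 : ℝ) ≤ Real.log k := h2
  refine ⟨?_, Nat.floor_pos.2 (one_le_pow₀ h3)⟩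
  have h4 : (nl k : ℝ) ≤ Real.log k ^ 2 := Nat.floor_le (by positivity)
  rw [Real.norm_of_nonneg (by positivity), id, Real.norm_of_nonneg (Nat.cast_nonneg k),
    div_mul_eq_mul_div, one_mul, le_div_iff₀ (by positivity)] at h1
  have h5 : ((nl k : ℝ)) ^ 4 ≤ Real.log k ^ 8 :=
    (pow_le_pow_left₀ (Nat.cast_nonneg _) h4 4).trans_eq (by ring)
  have h6 : (((N * nl k) ^ 4 : ℕ) : ℝ) ≤ k := by
    push_cast
    rw [mul_pow]
    have : (0 : ℝ) ≤ (N : ℝ) ^ 4 := by positivity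
    have : (0 : ℝ) ≤ Real.log k ^ 8 := by positivity
    nlinarith
  exact_mod_cast h6

theorem step {k U m n : ℕ} (h1 : m ^ 12 ≤ k) (h2 : n ^ 4 ≤ k) (h3 : k ≤ U ^ 3) : m * n ≤ U := by
  refine (Nat.pow_le_pow_iff_left (n := 12) (by norm_num)).1 ?_
  calc _ = m ^ 12 * (n ^ 4) ^ 3 := by ring
    _ ≤ k * k ^ 3 := Nat.mul_le_mul h1 (Nat.pow_le_pow_left h2 3)
    _ = k ^ 4 := by ring
    _ ≤ (U ^ 3) ^ 4 := Nat.pow_le_pow_left h3 4
    _ = _ := by ring

theorem lg {D k Y : ℕ} (h0 : 0 < k) (h1 : k < (Y + 1) ^ D) (h2 : 2 ≤ Y) :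
    Real.log k ≤ 2 * D * Real.log Y := by
  have h3 : k ≤ Y ^ (2 * D) := by
    rw [pow_mul]
    exact h1.le.trans (Nat.pow_le_pow_left (by nlinarith) D)
  have h4 : (k : ℝ) ≤ (Y : ℝ) ^ (2 * D) := by exact_mod_cast h3
  have := Real.log_le_log (Nat.cast_pos.2 h0) h4
  rwa [Real.log_pow, Nat.cast_mul, Nat.cast_ofNat] at this

end FinA

open FinA in
theorem fin_n : PVXStmt → MSETStmt → MNYStmt → MainStmt := by
  classical
  intro pvx mset mny g hg
  obtain ⟨v, hv⟩ := pvx g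
  obtain ⟨E, hE⟩ := mny g v hg hv
  obtain ⟨z, ⟨ε, hε, h1⟩, c, hc, h2⟩ := (hE.and (mset (1 / 56) (by norm_num))).exists
  obtain ⟨Y₀, hY⟩ := eventually_atTop.1 h2
  have hD : E + 12 ≠ 0 := by omega
  have hD' : (0 : ℝ) < (E + 12 : ℕ) := Nat.cast_pos.2 (by omega)
  refine ⟨v, ε * c / (2 * (E + 12 : ℕ)), by have := hv.ge; omega, by positivity, ?_⟩
  filter_upwards [h1, small (primorial z ^ 2), eventually_ge_atTop z,
    eventually_ge_atTop (max Y₀ 2 ^ (E + 12)), eventually_ge_atTop 2] with k a1 a2 a3 a4 a5 U hU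
  obtain ⟨Y, hYe⟩ : ∃ Y, Y = Nat.nthRoot (E + 12) k := ⟨_, rfl⟩
  have b1 : Y ^ (E + 12) ≤ k := hYe ▸ Nat.pow_nthRoot_le_iff.2 (Or.inl hD)
  have b2 : k < (Y + 1) ^ (E + 12) := hYe ▸ Nat.lt_pow_nthRoot_add_one hD k
  have b3 : max Y₀ 2 ≤ Y := hYe ▸ (Nat.le_nthRoot_iff hD).2 a4
  have b4 := lg (by omega) b2 (le_of_max_le_right b3)
  have b5 := hY Y (le_of_max_le_left b3)
  have b6 : ∀ m ∈ (Icc 1 Y).filter (Mz z (1 / 56)), Mz z (1 / 56) m ∧ 0 < m ∧
      ∀ n ≤ E + 12, m ^ n ≤ k := fun m hm => by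
    obtain ⟨c1, c2⟩ := mem_filter.1 hm
    obtain ⟨c3, c4⟩ := mem_Icc.1 c1
    exact ⟨c2, c3, fun n hn => (Nat.pow_le_pow_right c3 hn).trans
      ((Nat.pow_le_pow_left c4 _).trans b1)⟩
  have b7 := (sum_le_sum fun m hm => a1 U m hU (b6 m hm).1 ((b6 m hm).2.2 E (by omega))
    ((b6 m hm).2.2 12 (by omega))).trans (tot (v := v) _ a3 fun m hm =>
      ⟨(b6 m hm).1, (b6 m hm).2.1, by simpa using (b6 m hm).2.2 1 (by omega),
        step ((b6 m hm).2.2 12 (by omega)) a2.1 hU.lo⟩)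
  have hl : 0 < Real.log k := Real.log_pos (by exact_mod_cast a5)
  have hn : (0 : ℝ) < nl k := Nat.cast_pos.2 a2.2
  have hw : 0 ≤ vol g k * U := by unfold vol; positivity
  rw [sum_congr rfl fun m _ => show ε * (vol g k * U / (m : ℕ)) * (nl k / Real.log k) =
    nl k * (ε * (vol g k * U) / Real.log k) * (1 / (m : ℝ)) by ring, ← mul_sum, mul_assoc] at b7
  refine le_trans ?_ (le_of_mul_le_mul_left b7 hn)
  refine le_trans ?_ (mul_le_mul_of_nonneg_left b5 (by positivity))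
  rw [mul_assoc, div_mul_eq_mul_div, div_mul_eq_mul_div, div_le_div_iff₀ (by positivity) hl]
  have := mul_le_mul_of_nonneg_left b4 (show 0 ≤ ε * c * (vol g k * U) by positivity)
  linarith

end Pool.Agent.MP_a43263_nt.N2
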