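import Pool.Agent.MP_a43263_nt.N2.SpecB

/-! THEOREM N2: the number of matrices adapted to a pair of flags. -/

set_option autoImplicit false

noncomputable section

namespace Pool.Agent.MP_a43263_nt.N2

open Polynomial Finset Filter Matrix JC Pool.Agent.MP_a43263_nt.UV K2

namespace FlgA

theorem grow {F V : Type} [Field F] [AddCommGroup V] [Module F V] [Module.Finite F V]
    (U : Submodule F V) (m : ℕ) (x : ℕ → V) (h : LinearIndependent F fun i : Fin m => x i)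
    (hU : ∀ i < m, x i ∈ U) (k : ℕ) (hk : m + k ≤ Module.finrank F U) :
    ∃ y : ℕ → V, (LinearIndependent F fun i : Fin (m + k) => y i) ∧ (∀ i < m, y i = x i) ∧
      ∀ i < m + k, y i ∈ U := by
  induction k with
  | zero => exact ⟨x, h, fun _ _ => rfl, hU⟩
  | succ k ih =>
    obtain ⟨y, h1, h2, h3⟩ := ih (by omega)
    obtain ⟨v, hv, hv'⟩ : ∃ v ∈ U,
        v ∉ Submodule.span F (Set.range fun i : Fin (m + k) => y i) := by
      by_contra hc
      push Not at hc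
      have a1 := Submodule.finrank_mono (show U ≤ _ from hc)
      have a2 := finrank_range_le_card (R := F) fun i : Fin (m + k) => y i
      rw [Set.finrank, Fintype.card_fin] at a2
      omega
    refine ⟨Function.update y (m + k) v, ?_, fun i hi => ?_, fun i hi => ?_⟩
    · have e : (fun i : Fin (m + k + 1) => Function.update y (m + k) v i) =
          Fin.snoc (fun i : Fin (m + k) => y i) v := by
        funext i
        induction i using Fin.lastCases with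
        | last => simp
        | cast j => simp [Function.update_of_ne j.2.ne]
      exact e ▸ linearIndependent_finSnoc.2 ⟨h1, hv'⟩
    · rw [Function.update_of_ne (by omega), h2 i hi]
    · by_cases e : i = m + k
      · rw [e, Function.update_self]; exact hv
      · rw [Function.update_of_ne e]; exact h3 i (by omega)

theorem cast_dot {g : ℕ} (p : ℕ) (A : Mat g ℤ) (x y : Vz g) :
    ((x ⬝ᵥ A *ᵥ y : ℤ) : ZMod p) = rd p x ⬝ᵥ mK A (ZMod p) *ᵥ rd p y := by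
  simp [dotProduct, mulVec, rd]

theorem rd_surj {g : ℕ} (p : ℕ) (v : Fin (2 * g + 1) → ZMod p) : ∃ x : Vz g, rd p x = v :=
  ⟨fun i => (v i).cast, funext fun i => ZMod.intCast_zmod_cast (v i)⟩

/-- a frame adapted to the flag -/
theorem frame {g p : ℕ} (hp : p.Prime) (A : Mat g ℤ) (M : Sub g p) (hM : Is1 p A M) :
    ∃ P : Mat g ℤ, IsUnit (mK P (ZMod (p ^ 2))) ∧ ∀ j : Fin (2 * g + 1),
      (j.1 < g → rd p (Pᵀ j) ∈ M) ∧ (j.1 ≤ g → Pp p A M (Pᵀ j)) := by
  have : Fact p.Prime := ⟨hp⟩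
  have h1 : Module.finrank (ZMod p) M = g := by
    have := hM.1
    rw [Module.natCard_eq_pow_finrank (K := ZMod p), Nat.card_zmod] at this
    exact Nat.pow_right_injective hp.two_le this
  let Φ := (Matrix.toBilin' (mK A (ZMod p))).compl₂ M.subtype
  have h2 : ∀ v, v ∈ LinearMap.ker Φ ↔ ∀ y ∈ M, v ⬝ᵥ mK A (ZMod p) *ᵥ y = 0 := fun v => by
    rw [LinearMap.mem_ker, LinearMap.ext_iff]
    simp [Φ, Matrix.toBilin'_apply']
  have h3 : g + 1 ≤ Module.finrank (ZMod p) (LinearMap.ker Φ) := by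
    have a1 := Φ.finrank_range_add_finrank_ker
    have a2 := Submodule.finrank_le (LinearMap.range Φ)
    have a3 : Module.finrank (ZMod p) (M →ₗ[ZMod p] ZMod p) = g :=
      (Subspace.dual_finrank_eq (K := ZMod p) (V := M)).trans h1
    rw [Module.finrank_fintype_fun_eq_card, Fintype.card_fin] at a1
    omega
  have h4 : M ≤ LinearMap.ker Φ := fun v hv => (h2 v).2 fun y hy => by
    obtain ⟨x, rfl⟩ := rd_surj p v
    obtain ⟨z, rfl⟩ := rd_surj p y
    rw [← cast_dot, ZMod.intCast_zmod_eq_zero_iff_dvd]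
    exact hM.2 x z hv hy
  obtain ⟨y1, a1, -, a2⟩ := grow M 0 (fun _ => 0) linearIndependent_empty_type
    (fun _ h => absurd h (Nat.not_lt_zero _)) g (by omega)
  obtain ⟨y2, b1, b2, b3⟩ := grow (LinearMap.ker Φ) (0 + g) y1 a1 (fun i hi => h4 (a2 i hi)) 1
    (by omega)
  obtain ⟨y3, c1, c2, -⟩ := grow ⊤ (0 + g + 1) y2 b1 (fun _ _ => trivial) g
    (by rw [finrank_top, Module.finrank_fintype_fun_eq_card, Fintype.card_fin]; omega)
  rw [show 0 + g + 1 + g = 2 * g + 1 by omega] at c1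
  choose x hx using fun i => rd_surj p (y3 i)
  refine ⟨Matrix.of fun i j => x j i, ?_, fun j => ⟨fun hj => ?_, fun hj y hy => ?_⟩⟩
  · have d1 : IsUnit (mK (g := g) (Matrix.of fun i j => x j i) (ZMod p)) :=
      Matrix.linearIndependent_cols_iff_isUnit.1 (by
        have e : (mK (g := g) (Matrix.of fun i j => x j i) (ZMod p)).col =
            fun i : Fin (2 * g + 1) => y3 i := funext fun j => hx j
        rw [e]
        exact c1)
    rw [Matrix.isUnit_iff_isUnit_det, mK_det, ZMod.coe_int_isUnit_iff_isCoprime] at d1 ⊢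
    push_cast
    exact d1.pow_left
  · show rd p (x j) ∈ M
    rw [hx, c2 j (by omega), b2 j (by omega)]
    exact a2 j (by omega)
  · show (p : ℤ) ∣ x j ⬝ᵥ A *ᵥ y
    rw [← ZMod.intCast_zmod_eq_zero_iff_dvd, cast_dot, hx, c2 j (by omega)]
    exact (h2 _).1 (b3 j (by omega)) _ hy

theorem cast_zero {p : ℕ} {u : ℤ} (h : (p : ℤ) ^ 2 ∣ u) : (u : ZMod (p ^ 2)) = 0 :=
  (ZMod.intCast_zmod_eq_zero_iff_dvd u (p ^ 2)).2 (by exact_mod_cast h)

theorem mult {p : ℕ} (hp : p.Prime) : ∃ e : Finset (ZMod (p ^ 2)), e.card ≤ p ∧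
    ∀ u : ℤ, (p : ℤ) ∣ u → (u : ZMod (p ^ 2)) ∈ e := by
  have : NeZero p := ⟨hp.ne_zero⟩
  refine ⟨univ.image fun t : ZMod p => (((p : ℤ) * (t.cast : ℤ) : ℤ) : ZMod (p ^ 2)),
    card_image_le.trans (by simp), ?_⟩
  rintro _ ⟨s, rfl⟩
  refine mem_image.2 ⟨(s : ZMod p), mem_univ _, ?_⟩
  rw [← sub_eq_zero, ← Int.cast_sub, ← mul_sub]
  refine cast_zero ?_
  rw [sq]
  refine mul_dvd_mul_left _ ((ZMod.intCast_zmod_eq_zero_iff_dvd _ p).1 ?_)
  rw [Int.cast_sub, ZMod.intCast_zmod_cast, sub_self]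

theorem two {p : ℕ} (hp : p.Prime) (c : ℤ) : ∃ e : Finset (ZMod (p ^ 2)), e.card ≤ 2 ∧
    ∀ u : ℤ, (p : ℤ) ∣ u → (p : ℤ) ^ 3 ∣ u ^ 2 - (p : ℤ) ^ 2 * c → (u : ZMod (p ^ 2)) ∈ e := by
  have p0 : (p : ℤ) ^ 2 ≠ 0 := pow_ne_zero _ (by exact_mod_cast hp.ne_zero)
  have key : ∀ s : ℤ, (p : ℤ) ^ 3 ∣ (p * s) ^ 2 - (p : ℤ) ^ 2 * c → (p : ℤ) ∣ s ^ 2 - c :=
    fun s h => (mul_dvd_mul_iff_left p0).1 (by rwa [← pow_succ, mul_sub, ← mul_pow])
  by_cases h : ∃ s : ℤ, (p : ℤ) ∣ s ^ 2 - c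
  · obtain ⟨s, hs⟩ := h
    refine ⟨{((p * s : ℤ) : ZMod (p ^ 2)), ((-(p * s) : ℤ) : ZMod (p ^ 2))}, card_le_two, ?_⟩
    rintro _ ⟨t, rfl⟩ ht
    have h1 : (p : ℤ) ∣ (t - s) * (t + s) := by
      have := (key t ht).sub hs
      rwa [show t ^ 2 - c - (s ^ 2 - c) = (t - s) * (t + s) by ring] at this
    rw [mem_insert, mem_singleton, ← sub_eq_zero, ← Int.cast_sub, ← sub_eq_zero (b := Int.cast _),
      ← Int.cast_sub, sub_neg_eq_add, ← mul_sub, ← mul_add]
    exact ((Nat.prime_iff_prime_int.1 hp).dvd_or_dvd h1).imp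
      (fun a => cast_zero (by rw [sq]; exact mul_dvd_mul_left _ a))
      fun a => cast_zero (by rw [sq]; exact mul_dvd_mul_left _ a)
  · refine ⟨∅, Nat.zero_le _, ?_⟩
    rintro _ ⟨t, rfl⟩ ht
    exact absurd ⟨t, key t ht⟩ h

theorem entry {p : ℕ} (hp : p.Prime) (g i j : ℕ) (c : ℤ) : ∃ e : Finset (ZMod (p ^ 2)),
    e.card ≤ (if i = g ∧ j = g then 2 else 1) *
      (p ^ (if g < i then 1 else 0) * p ^ (if g < j then 1 else 0)) ∧
    ∀ u : ℤ, (j ≤ g → (p : ℤ) ∣ u) → (i ≤ g → (p : ℤ) ∣ u) → (j < g → i ≤ g → (p : ℤ) ^ 2 ∣ u) →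
      (j ≤ g → i < g → (p : ℤ) ^ 2 ∣ u) →
      (j ≤ g → i ≤ g → (p : ℤ) ^ 3 ∣ u ^ 2 - (p : ℤ) ^ 2 * c) → (u : ZMod (p ^ 2)) ∈ e := by
  have : NeZero (p ^ 2) := ⟨pow_ne_zero _ hp.ne_zero⟩
  obtain ⟨e1, a1, a2⟩ := mult hp
  obtain ⟨e2, b1, b2⟩ := two hp c
  by_cases hi : g < i <;> by_cases hj : g < j
  · refine ⟨univ, ?_, fun _ _ _ _ _ _ => mem_univ _⟩
    rw [if_pos hi, if_pos hj, if_neg (by omega), card_univ, ZMod.card, one_mul, pow_one, sq]
  · refine ⟨e1, ?_, fun u h _ _ _ _ => a2 u (h (by omega))⟩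
    rwa [if_pos hi, if_neg hj, if_neg (by omega), one_mul, pow_one, pow_zero, mul_one]
  · refine ⟨e1, ?_, fun u _ h _ _ _ => a2 u (h (by omega))⟩
    rwa [if_neg hi, if_pos hj, if_neg (by omega), one_mul, pow_one, pow_zero, one_mul]
  · rw [if_neg hi, if_neg hj, pow_zero, mul_one, mul_one]
    by_cases h : i = g ∧ j = g
    · exact ⟨e2, by rwa [if_pos h], fun u h1 _ _ _ h2 =>
        b2 u (h1 h.2.le) (h2 h.2.le h.1.le)⟩
    · refine ⟨{0}, by rw [if_neg h, card_singleton], fun u _ _ h1 h2 _ =>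
        mem_singleton.2 (cast_zero ?_)⟩
      by_cases a : j < g
      · exact h1 a (by omega)
      · exact h2 (by omega) (by omega)

theorem count (g p : ℕ) : ∏ i : Fin (2 * g + 1), ∏ j : Fin (2 * g + 1),
    (if i.1 = g ∧ j.1 = g then 2 else 1) *
      (p ^ (if g < i.1 then 1 else 0) * p ^ (if g < j.1 then 1 else 0)) =
    2 * p ^ (4 * g ^ 2 + 2 * g) := by
  have h1 : ∑ i : Fin (2 * g + 1), (if g < i.1 then 1 else 0) = g := by
    rw [Fin.sum_univ_eq_sum_range (fun i => if g < i then 1 else 0), ← card_filter,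
      show (range (2 * g + 1)).filter (fun i => g < i) = Ioo g (2 * g + 1) by
        ext i; simp [and_comm], Nat.card_Ioo]
    omega
  have h2 : ∏ i : Fin (2 * g + 1), ∏ j : Fin (2 * g + 1),
      (if i.1 = g ∧ j.1 = g then 2 else 1) = 2 := by
    rw [prod_eq_single ⟨g, by omega⟩, prod_eq_single ⟨g, by omega⟩, if_pos ⟨rfl, rfl⟩]
    · exact fun j _ hj => if_neg fun c => hj (Fin.ext c.2)
    · exact fun h => absurd (mem_univ _) h
    · exact fun i _ hi => prod_eq_one fun j _ => if_neg fun c => hi (Fin.ext c.1)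
    · exact fun h => absurd (mem_univ _) h
  simp only [prod_mul_distrib, h2, prod_pow_eq_pow_sum, ← pow_add]
  simp only [sum_add_distrib, h1, sum_const, card_univ, Fintype.card_fin, smul_eq_mul, ← mul_sum]
  congr 2
  ring

end FlgA

theorem flg_n : FLGStmt := by
  intro g p c A A' M M' hp _ _ _ _ _ hM hM'
  have : NeZero (p ^ 2) := ⟨pow_ne_zero _ hp.ne_zero⟩
  obtain ⟨P, u1, h1⟩ := FlgA.frame hp A M hM
  obtain ⟨P', u2, h2⟩ := FlgA.frame hp A' M' hM'
  choose e he he' using fun i j : Fin (2 * g + 1) => FlgA.entry hp g i j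
    (c * ((Pᵀ j ⬝ᵥ A *ᵥ Pᵀ j) * (P'ᵀ i ⬝ᵥ A' *ᵥ P'ᵀ i)))
  let φ : Mat g (ZMod (p ^ 2)) → Mat g (ZMod (p ^ 2)) := fun N =>
    (mK P' (ZMod (p ^ 2)))ᵀ * N * mK P (ZMod (p ^ 2))
  have hφ : Function.Injective φ := fun N N' h =>
    ((Matrix.isUnit_transpose _).2 u2).mul_left_cancel (u1.mul_right_cancel h)
  let E : Finset (Mat g (ZMod (p ^ 2))) := Fintype.piFinset fun i => Fintype.piFinset (e i)
  refine ⟨univ.filter fun N => φ N ∈ E, ?_, fun N hN => mem_filter.2 ⟨mem_univ _, ?_⟩⟩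
  · refine (card_le_card_of_injOn φ (fun N hN => (mem_filter.1 (mem_coe.1 hN)).2)
      hφ.injOn).trans ?_
    rw [← FlgA.count g p]
    refine (Fintype.card_piFinset _).trans_le (prod_le_prod' fun i _ => ?_)
    rw [Fintype.card_piFinset]
    exact prod_le_prod' fun j _ => he i j
  · refine Fintype.mem_piFinset.2 fun i => Fintype.mem_piFinset.2 fun j => ?_
    have e1 : φ (mK N (ZMod (p ^ 2))) i j = ((P'ᵀ i ⬝ᵥ N *ᵥ Pᵀ j : ℤ) : ZMod (p ^ 2)) := by
      simp only [φ]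
      rw [← mK_transpose, ← mK_mul, ← mK_mul, mK_apply, Matrix.mul_assoc]
      rfl
    obtain ⟨b1, b2, b3, b4, b5⟩ := hN (Pᵀ j) (P'ᵀ i)
    rw [e1]
    refine he' i j _ (fun a => b1 ((h1 j).2 a)) (fun a => b2 ((h2 i).2 a))
      (fun a b => b3 ((h1 j).1 a) ((h2 i).2 b)) (fun a b => b4 ((h1 j).2 a) ((h2 i).1 b))
      fun a b => ?_
    rw [← mul_assoc]
    exact b5 ((h1 j).2 a) ((h2 i).2 b)

end Pool.Agent.MP_a43263_nt.N2
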