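import Pool.Agent.MP_a43263_nt.N2.SpecB

/-! THEOREM N2: the first moment, sum over the types. -/

set_option autoImplicit false

noncomputable section

namespace Pool.Agent.MP_a43263_nt.N2

open Polynomial Finset Filter JC Pool.Agent.MP_a43263_nt.UV K2

namespace FmA

/-- the local factors -/
def pp (C : ℝ) (m₀ : ℕ) : ℝ := ∏ p ∈ m₀.primeFactors, (1 + C / p) / (2 * p)

/-- the factor at `Q` -/
def dd (g : ℕ) (Q : Finset ℕ) : ℝ := (9 / 10) ^ Q.card / (∏ q ∈ Q, (q : ℝ)) ^ (2 * g + 1)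

theorem pp_nonneg {C : ℝ} (hC : 0 < C) (m₀ : ℕ) : 0 ≤ pp C m₀ :=
  prod_nonneg fun p _ => by positivity

theorem dd_nonneg (g : ℕ) (Q : Finset ℕ) : 0 ≤ dd g Q :=
  div_nonneg (by positivity) (pow_nonneg (prod_nonneg fun q _ => q.cast_nonneg) _)

theorem cast_eq {m : ℕ} (h : Squarefree m) : (m : ℝ) = ∏ p ∈ m.primeFactors, (p : ℝ) := by
  rw [← Nat.cast_prod, Nat.prod_primeFactors_of_squarefree h]

theorem pp_le {C : ℝ} (hC : 0 < C) {m₀ : ℕ} (h : Squarefree m₀)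
    (hs : ∑ p ∈ m₀.primeFactors, 1 / (p : ℝ) ≤ 1) :
    (m₀.divisors.card + 1 : ℝ) * pp C m₀ ≤ 2 * Real.exp C / m₀ := by
  have h1 : m₀.divisors.card ≤ 2 ^ m₀.primeFactors.card := by
    rw [Nat.card_divisors h.ne_zero]
    exact prod_le_pow_card _ _ _ fun p _ => Nat.succ_le_succ (h.natFactorization_le_one p)
  have h2 : (m₀.divisors.card + 1 : ℝ) ≤ 2 * 2 ^ m₀.primeFactors.card := by
    have := Nat.one_le_two_pow (n := m₀.primeFactors.card)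
    exact_mod_cast (by omega : m₀.divisors.card + 1 ≤ 2 * 2 ^ m₀.primeFactors.card)
  have h3 : (2 : ℝ) ^ m₀.primeFactors.card * pp C m₀ =
      (∏ p ∈ m₀.primeFactors, (1 + C / p)) / m₀ := by
    rw [pp, ← prod_const, ← prod_mul_distrib, cast_eq h, ← prod_div_distrib]
    refine prod_congr rfl fun p hp => ?_
    have : (p : ℝ) ≠ 0 := Nat.cast_ne_zero.2 (Nat.prime_of_mem_primeFactors hp).ne_zero
    field_simp
  have h4 : ∏ p ∈ m₀.primeFactors, (1 + C / p) ≤ Real.exp C := by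
    refine (Real.prod_one_add_le_exp_sum _ fun p => by positivity).trans (Real.exp_le_exp.2 ?_)
    calc ∑ p ∈ m₀.primeFactors, C / (p : ℝ) = C * ∑ p ∈ m₀.primeFactors, 1 / (p : ℝ) := by
          rw [mul_sum]
          exact sum_congr rfl fun p _ => by ring
      _ ≤ C := mul_le_of_le_one_right hC.le hs
  calc _ ≤ 2 * 2 ^ m₀.primeFactors.card * pp C m₀ :=
        mul_le_mul_of_nonneg_right h2 (pp_nonneg hC m₀)
    _ = 2 * (∏ p ∈ m₀.primeFactors, (1 + C / p)) / m₀ := by rw [mul_assoc, h3, mul_div_assoc]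
    _ ≤ _ := by gcongr

theorem ch (g : ℕ) : 2 * g.choose 2 + g = g ^ 2 := by
  induction g with
  | zero => rfl
  | succ g ih =>
    rw [Nat.choose_succ_succ' g 1, Nat.choose_one_right]
    nlinarith

theorem den_eq (g : ℕ) (C : ℝ) (Q : Finset ℕ) {m₀ m₁ : ℕ} (h : Squarefree m₀) (hd : m₁ ∣ m₀) :
    den g C Q m₀ m₁ * (m₁ : ℝ) ^ ((2 * g + 1) ^ 2) = dd g Q * pp C m₀ * mu1 g m₁ := by
  have e : (∏ p ∈ m₁.primeFactors, 2 * (p : ℝ) ^ (5 * g ^ 2 + 3 * g) * (1 + C / p) /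
      (p : ℝ) ^ (2 * (2 * g + 1) ^ 2)) * (m₁ : ℝ) ^ ((2 * g + 1) ^ 2) =
      (∏ p ∈ m₁.primeFactors, (1 + C / p) / (2 * p)) * mu1 g m₁ := by
    rw [cast_eq (h.squarefree_of_dvd hd), ← prod_pow, mu1, Nat.cast_prod, ← prod_mul_distrib,
      ← prod_mul_distrib]
    refine prod_congr rfl fun p hp => ?_
    have p0 : (p : ℝ) ≠ 0 := Nat.cast_ne_zero.2 (Nat.prime_of_mem_primeFactors hp).ne_zero
    have e1 : (p : ℝ) ^ (5 * g ^ 2 + 3 * g) =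
        (p : ℝ) ^ ((2 * g + 1) ^ 2) * ((p : ℝ) ^ g.choose 2) ^ 2 / p := by
      rw [eq_div_iff p0, ← pow_succ, ← pow_mul, ← pow_add]
      congr 1
      have := ch g
      nlinarith
    rw [e1, two_mul ((2 * g + 1) ^ 2), pow_add]
    push_cast
    field_simp
  rw [den, pp, ← prod_sdiff (Nat.primeFactors_mono hd h.ne_zero), dd]
  linear_combination ((9 / 10) ^ Q.card / (∏ q ∈ Q, (q : ℝ)) ^ (2 * g + 1) *
    ∏ p ∈ m₀.primeFactors \ m₁.primeFactors, (1 + C / p) / (2 * p)) * e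

theorem mu_pos (g m₁ : ℕ) : 0 < mu1 g m₁ :=
  prod_pos fun p hp => by
    have := (Nat.prime_of_mem_primeFactors hp).pos
    positivity

theorem key {P t ρ η : ℝ} (hη : 0 < η) (h0 : 0 ≤ ρ) (h1 : t ^ 2 ≤ ρ) (h2 : (P / η) ^ 2 ≤ ρ) :
    t * P ≤ η * ρ := by
  refine le_of_sq_le_sq ?_ (by positivity)
  rw [div_pow, div_le_iff₀ (by positivity)] at h2
  calc (t * P) ^ 2 = t ^ 2 * P ^ 2 := mul_pow _ _ _
    _ ≤ ρ * (ρ * η ^ 2) := mul_le_mul h1 h2 (sq_nonneg _) h0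
    _ = _ := by ring

theorem err {P m ρ δ : ℝ} {n : ℕ} (hP : 0 ≤ P) (hm : 1 ≤ m) (hρ : 0 < ρ) (hδ : 0 < δ)
    (h : m ^ (4 * (n + 3)) * P ≤ δ ^ 4 * ρ) :
    (P * m ^ 2 / ρ) ^ (1 / 4 : ℝ) * m ^ n ≤ δ / m ^ 2 := by
  have m0 : 0 < m := by linarith
  have h1 : P * m ^ 2 / ρ ≤ (δ / m ^ (n + 2)) ^ 4 := by
    rw [div_pow, div_le_div_iff₀ hρ (by positivity), ← pow_mul]
    refine le_trans ?_ h
    rw [mul_assoc, ← pow_add, mul_comm]
    exact mul_le_mul_of_nonneg_right (pow_le_pow_right₀ hm (by omega)) hP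
  have h2 := Real.rpow_le_rpow (by positivity) h1 (by norm_num : (0 : ℝ) ≤ 1 / 4)
  have h3 := Real.pow_rpow_inv_natCast (x := δ / m ^ (n + 2)) (n := 4) (by positivity) (by norm_num)
  rw [one_div] at h2 ⊢
  rw [Nat.cast_ofNat] at h3
  rw [h3] at h2
  calc _ ≤ δ / m ^ (n + 2) * m ^ n := mul_le_mul_of_nonneg_right h2 (by positivity)
    _ = _ := by rw [pow_add]; field_simp

end FmA

open FmA

theorem fm_n : PREStmt → FMAStmt → FMStmt := by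
  classical
  intro pre fma g hg
  obtain ⟨q₀, c, C, hc, hC, H⟩ := fma g hg
  have hd := den_eq g C
  generalize (2 * g + 1) ^ 2 = n at H hd ⊢
  refine ⟨q₀, 4 * (n + 3) * 2, 2 * Real.exp C * c * 2 ^ n, by positivity,
    fun Q f₀ mb ε hQ hε => ?_⟩
  obtain ⟨δ, hδ, eδ⟩ : ∃ δ : ℝ, 0 < δ ∧ ε = 4 * δ * c * 2 ^ n :=
    ⟨ε / (4 * c * 2 ^ n), by positivity, by field_simp⟩
  replace H := H Q f₀ mb
  simp only [Nat.cast_mul, Nat.cast_pow] at H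
  generalize (∏ q ∈ Q, q : ℕ) = P at H
  filter_upwards [eventually_ge_atTop (((P : ℝ) / 1) ^ 2),
    eventually_ge_atTop (((P : ℝ) / δ ^ 4) ^ 2)] with ρ r1 r2 m₀ a sm hE hs S hS
  have m1 : (1 : ℝ) ≤ m₀ := Nat.one_le_cast.2 (Nat.pos_of_ne_zero sm.sf.ne_zero)
  have m0 : (0 : ℝ) < m₀ := by linarith
  have r0 : 0 < ρ := lt_of_lt_of_le (by positivity) hE
  rw [pow_mul] at hE
  have k1 : (P : ℝ) * (m₀ : ℝ) ^ 2 ≤ ρ := by
    refine le_trans ?_ ((key one_pos r0.le hE r1).trans_eq (one_mul ρ))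
    rw [mul_comm]
    exact mul_le_mul_of_nonneg_right (pow_le_pow_right₀ m1 (by omega)) P.cast_nonneg
  have k2 := err P.cast_nonneg m1 r0 hδ (key (by positivity) r0.le hE r2)
  replace H := fun T : Finset (ℤ[X] × ℤ) => fun hT : T ⊆ S => H m₀ a ρ hQ sm k1 T fun x hx =>
    ⟨(hS x (hT hx)).1, (hS x (hT hx)).2.1, (hS x (hT hx)).2.2.1⟩
  have e0 : 0 ≤ ((P : ℝ) * (m₀ : ℝ) ^ 2 / ρ) ^ (1 / 4 : ℝ) := by positivity
  generalize ((P : ℝ) * (m₀ : ℝ) ^ 2 / ρ) ^ (1 / 4 : ℝ) = e at H k2 e0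
  have d0 := dd_nonneg g Q
  have p0 := pp_nonneg hC m₀
  obtain ⟨B, hB⟩ : ∃ B, B = c * (dd g Q * pp C m₀ + 2 * (δ / (m₀ : ℝ) ^ 2)) * (2 * ρ) ^ n :=
    ⟨_, rfl⟩
  let S₀ := S.filter fun x =>
    ∃ p : ℕ, p.Prime ∧ p ≠ 2 ∧ p ∉ Q ∧ ¬p ∣ m₀ ∧ √ρ ≤ p ∧ Nx p x.1
  let S₁ := fun m₁ => S.filter fun x => ∃ A A' M T : Mat g ℤ, Pre g Q x.1 m₀ m₁ a A A' M T
  have b0 : (S₀.card : ℝ) ≤ B := by
    refine ((H S₀ (filter_subset _ _)).2 fun x hx =>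
      ⟨(hS x (mem_filter.1 hx).1).2.2.2.1, (mem_filter.1 hx).2⟩).trans ?_
    have h1 := hd Q sm.sf (one_dvd m₀)
    simp only [mu1, Nat.primeFactors_one, prod_empty, Nat.cast_one, one_pow, mul_one] at h1
    have h2 : e ≤ δ / (m₀ : ℝ) ^ 2 :=
      (le_mul_of_one_le_right e0 (one_le_pow₀ m1)).trans k2
    rw [h1, hB]
    gcongr
    linarith
  have b1 : ∀ m₁ ∈ m₀.divisors, ((S₁ m₁).card : ℝ) ≤ B := by
    intro m₁ hm
    have h0 := Nat.dvd_of_mem_divisors hm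
    have h1 := (H (S₁ m₁) (filter_subset _ _)).1 m₁ h0 fun x hx => (mem_filter.1 hx).2
    have u1 : (1 : ℝ) ≤ mu1 g m₁ := Nat.one_le_cast.2 (mu_pos g m₁)
    refine le_of_mul_le_mul_right (h1.trans ?_) (by linarith : (0 : ℝ) < mu1 g m₁)
    have h2 : e * (m₁ : ℝ) ^ n ≤ δ / (m₀ : ℝ) ^ 2 * mu1 g m₁ := by
      refine le_trans ?_ (k2.trans (le_mul_of_one_le_right (by positivity) u1))
      have : (m₁ : ℝ) ≤ m₀ := Nat.cast_le.2 (Nat.divisor_le hm)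
      gcongr
    calc _ = c * (den g C Q m₀ m₁ * (m₁ : ℝ) ^ n + 2 * (e * (m₁ : ℝ) ^ n)) * (2 * ρ) ^ n := by
          simp only [mul_pow]
          ring
      _ ≤ c * (dd g Q * pp C m₀ * mu1 g m₁ + 2 * (δ / (m₀ : ℝ) ^ 2 * mu1 g m₁)) * (2 * ρ) ^ n := by
          rw [hd Q sm.sf h0]
          gcongr
      _ = _ := by rw [hB]; ring
  have cov : S ⊆ m₀.divisors.biUnion S₁ ∪ S₀ := by
    intro x hx
    obtain ⟨f1, -, -, -, h | h⟩ := hS x hx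
    · obtain ⟨m₁, h1, h2⟩ := pre g Q m₀ a x.1 x.2 sm f1 h
      exact mem_union_left _ (mem_biUnion.2
        ⟨m₁, Nat.mem_divisors.2 ⟨h1, sm.sf.ne_zero⟩, mem_filter.2 ⟨hx, h2⟩⟩)
    · exact mem_union_right _ (mem_filter.2 ⟨hx, h⟩)
  have c1 : S.card ≤ ∑ m₁ ∈ m₀.divisors, (S₁ m₁).card + S₀.card :=
    (card_le_card cov).trans ((card_union_le _ _).trans (Nat.add_le_add_right card_biUnion_le _))
  have c2 : (S.card : ℝ) ≤ (m₀.divisors.card + 1) * B := by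
    have := sum_le_card_nsmul _ _ _ b1
    rw [nsmul_eq_mul] at this
    have c3 : (S.card : ℝ) ≤ ∑ m₁ ∈ m₀.divisors, ((S₁ m₁).card : ℝ) + S₀.card := by
      exact_mod_cast c1
    linarith
  have t1 := pp_le hC sm.sf hs
  have t2 : (m₀.divisors.card + 1 : ℝ) ≤ 2 * m₀ := by
    have : (m₀.divisors.card : ℝ) ≤ m₀ := Nat.cast_le.2 (Nat.card_divisors_le_self m₀)
    linarith
  calc _ ≤ _ := c2
    _ = c * (dd g Q * ((m₀.divisors.card + 1) * pp C m₀) +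
          (m₀.divisors.card + 1) * (2 * (δ / (m₀ : ℝ) ^ 2))) * (2 * ρ) ^ n := by rw [hB]; ring
    _ ≤ c * (dd g Q * (2 * Real.exp C / m₀) + 2 * m₀ * (2 * (δ / (m₀ : ℝ) ^ 2))) * (2 * ρ) ^ n := by
        gcongr
    _ = _ := by
        rw [mul_div_assoc (2 * Real.exp C * c * 2 ^ n), ← dd, eδ, mul_pow]
        field_simp
        ring

end Pool.Agent.MP_a43263_nt.N2
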