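import Pool.Agent.MP_a43263_nt.N2.SpecB
import Pool.Agent.MP_a43263_nt.K2.Chg
import Pool.Agent.MP_a43263_nt.K2.Lat

/-! THEOREM N2: the first moment for one type. -/

set_option autoImplicit false

noncomputable section

namespace Pool.Agent.MP_a43263_nt.N2

open Polynomial Finset Filter Matrix JC Pool.Agent.MP_a43263_nt.UV K2

namespace FmaA

variable {g : ℕ}

theorem same {f f' : ℤ[X]} {m m' : ℤ} {x y : Trp g} {γ β : Mat g ℤ}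
    (h : Tri f m x.1 x.2.1 x.2.2) (h' : Tri f' m' y.1 y.2.1 y.2.2) (hγ : γ.det = 1)
    (hβ : β.det = 1) (e : y = (γᵀ * x.1 * γ, βᵀ * x.2.1 * β, βᵀ * x.2.2 * γ)) :
    f = f' ∧ m = m' := by
  have k := chg_k.2.1 _ f m x.1 x.2.1 x.2.2 γ β h.det h.det' hγ hβ h
  subst e
  exact ⟨k.ch.symm.trans h'.ch, k.dt.symm.trans h'.dt⟩

theorem glue {α : Type} (S : Finset α) (I : α → Finset (Trp g)) (φ : α → ℤ[X]) (ψ : α → ℤ) (k : ℕ)
    (inj : ∀ x ∈ S, ∀ y ∈ S, φ x = φ y → ψ x = ψ y → x = y)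
    (tri : ∀ x ∈ S, ∀ t ∈ I x, Tri (φ x) (ψ x) t.1 t.2.1 t.2.2) (nis : ∀ x ∈ S, Nis (I x))
    (cd : ∀ x ∈ S, k ≤ (I x).card) :
    ∃ T : Finset (Trp g), Nis T ∧ S.card * k ≤ T.card ∧ ∀ t ∈ T, ∃ x ∈ S, t ∈ I x := by
  classical
  refine ⟨S.biUnion I, fun s hs t ht γ β hγ hβ e => ?_, ?_, fun t ht => mem_biUnion.1 ht⟩
  · obtain ⟨x, hx, hs⟩ := mem_biUnion.1 hs
    obtain ⟨y, hy, ht⟩ := mem_biUnion.1 ht
    obtain ⟨e1, e2⟩ := same (tri x hx s hs) (tri y hy t ht) hγ hβ e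
    obtain rfl := inj x hx y hy e1 e2
    exact nis x hx s hs t ht γ β hγ hβ e
  · rw [card_biUnion fun x hx y hy hne => disjoint_left.2 fun t h1 h2 => hne ?_]
    · exact card_nsmul_le_sum S (fun x => (I x).card) k cd
    · have a := tri x hx t h1
      have b := tri y hy t h2
      exact inj x hx y hy (a.ch.symm.trans b.ch) (a.dt.symm.trans b.dt)

theorem move {Q : Finset ℕ} {f₀ f : ℤ[X]} {mb m a : ℤ} {m₀ m₁ : ℕ} {A A' N : Mat g ℤ}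
    (h : Rs Q f₀ mb f m) (L : Lall Q f m m₀ m₁ a A A' N) : Lall Q f₀ mb m₀ m₁ a A A' N := by
  refine ⟨fun q hq => ?_, L.2⟩
  have k := L.1 q hq
  unfold LQ at k ⊢
  rwa [(h q hq).1, (h q hq).2] at k

theorem den_nn (g : ℕ) {C : ℝ} (hC : 0 < C) (Q : Finset ℕ) (m₀ m₁ : ℕ) :
    0 ≤ den g C Q m₀ m₁ := by
  unfold den
  positivity

theorem root {N ρ : ℝ} (h1 : 1 ≤ N) (h2 : N ≤ ρ) : 1 / √(√ρ) ≤ (N / ρ) ^ (1 / 4 : ℝ) := by
  have r0 : 0 < ρ := by linarith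
  have e : 1 / √(√ρ) = (1 / ρ) ^ (1 / 4 : ℝ) := by
    rw [Real.div_rpow zero_le_one r0.le, Real.one_rpow, Real.sqrt_eq_rpow, Real.sqrt_eq_rpow,
      ← Real.rpow_mul r0.le]
    norm_num
  rw [e]
  exact Real.rpow_le_rpow (by positivity) (div_le_div_of_nonneg_right h1 r0.le) (by norm_num)

end FmaA

open FmaA in
theorem fma_n : K2.MAJStmt → FHStmt → FAMStmt → BADNStmt → INVStmt → COUNTStmt → DENStmt →
    FMAStmt := by
  intro maj fhs fam badn inv count dens g hg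
  obtain ⟨c, hc, count⟩ := count g hg
  obtain ⟨q₀, C, hC, dens⟩ := dens g hg
  refine ⟨q₀, c, C, hc, hC, fun Q f₀ mb m₀ a ρ hQ hm hρ S hS => ?_⟩
  have m0 : 0 < m₀ := Nat.pos_of_ne_zero hm.sf.ne_zero
  have N1 : 1 ≤ (∏ q ∈ Q, q) * m₀ ^ 2 :=
    Nat.mul_pos (prod_pos fun q hq => (hQ q hq).1.pos) (pow_pos m0 2)
  generalize hN : (∏ q ∈ Q, q) * m₀ ^ 2 = N₀ at hρ N1 ⊢
  have N1' : (1 : ℝ) ≤ N₀ := by exact_mod_cast N1
  have r1 : 1 ≤ ρ := N1'.trans hρ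
  have r0 : 0 < ρ := by linarith
  have s0 : 0 < √ρ := Real.sqrt_pos.2 r0
  have rt := root N1' hρ
  refine ⟨fun m₁ h1 hP => ?_, fun hB => ?_⟩
  · have m1 : 0 < m₁ := Nat.pos_of_dvd_of_pos h1 m0
    have m1' : (m₁ : ℤ) ≠ 0 := by exact_mod_cast m1.ne'
    have m1r : (1 : ℝ) ≤ m₁ := by exact_mod_cast m1
    have key : ∀ x ∈ S, ∃ I : Finset (Trp g), mu1 g m₁ ≤ I.card ∧ Nis I ∧ ∀ t ∈ I,
        Tri (fh m₁ x.1) ((m₁ : ℤ) ^ (2 * g + 1) * x.2) t.1 t.2.1 t.2.2 ∧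
        Lall Q x.1 x.2 m₀ m₁ a t.1 t.2.1 t.2.2 ∧ Nd t.1 t.2.1 t.2.2 := fun x hx => by
      obtain ⟨A, A', M, T, h⟩ := hP x hx
      exact fam g Q m₀ m₁ a x.1 x.2 A A' M T hm (hS x hx).1 h1 h
    choose! I I1 I2 I3 using key
    obtain ⟨T, T1, T2, T3⟩ := glue S I (fun x => fh m₁ x.1)
      (fun x => (m₁ : ℤ) ^ (2 * g + 1) * x.2) (mu1 g m₁) (fun x hx y hy e1 e2 => Prod.ext
        ((fhs g m₁ x.1 m1' (hS x hx).1.zq).2.2.2 y.1 (hS y hy).1.zq e1)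
        (mul_left_cancel₀ (pow_ne_zero _ m1') e2)) (fun x hx t ht => (I3 x hx t ht).1) I2 I1
    have le : ρ ≤ 2 * m₁ * ρ := by nlinarith
    have hD := dens Q f₀ mb m₀ m₁ a hQ hm h1
    rw [hN] at hD
    have k := count (Lall Q f₀ mb m₀ m₁ a) (den g C Q m₀ m₁) N₀ (√ρ) (2 * m₁ * ρ)
      (inv g Q f₀ mb m₀ m₁ a) (den_nn g hC Q m₀ m₁) hD N1 s0 (hρ.trans le) T T1 fun t ht => by
        obtain ⟨x, hx, ht⟩ := T3 t ht
        obtain ⟨a1, a2, a3⟩ := I3 x hx t ht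
        obtain ⟨b1, b2, b3⟩ := hS x hx
        obtain ⟨c1, -, c3, -⟩ := fhs g m₁ x.1 m1' b1.zq
        have c4 := c3 ρ r1 b3
        rw [Int.cast_natCast, Nat.abs_cast] at c4
        have ne : (m₁ : ℤ) ^ (2 * g + 1) * x.2 ≠ 0 :=
          mul_ne_zero (pow_ne_zero _ m1') (LatA.m_ne b1.zq b1.ev)
        obtain ⟨H, H', hH⟩ := maj g _ _ _ _ _ _ c1 ne a1 c4
        exact ⟨move b2 a2, _, _, H, H', c1, ne, a1, hH, a3.1 _ _ _, fun M' _ => a3.2 _ _ _⟩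
    have T2' : (S.card : ℝ) * mu1 g m₁ ≤ T.card := by exact_mod_cast T2
    refine T2'.trans (k.trans (mul_le_mul_of_nonneg_right (mul_le_mul_of_nonneg_left ?_ hc.le)
      (by positivity)))
    have : ((N₀ : ℝ) / (2 * m₁ * ρ)) ^ (1 / 4 : ℝ) ≤ (N₀ / ρ) ^ (1 / 4 : ℝ) :=
      Real.rpow_le_rpow (by positivity) (div_le_div_of_nonneg_left (by positivity) r0 le)
        (by norm_num)
    linarith
  · have key : ∀ x ∈ S, ∃ t : Trp g, ∃ H H' : Mat g ℝ, Tri x.1 x.2 t.1 t.2.1 t.2.2 ∧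
        Lall Q x.1 x.2 m₀ 1 a t.1 t.2.1 t.2.2 ∧ Maj2 ρ t.1 t.2.1 t.2.2 H H' ∧
        Dst (√ρ) (ρ ^ 2) t.1 (Tt t.1 t.2.1 t.2.2) H ∧
        ∀ M' : ℝ, 0 ≤ M' → Dst M' (ρ ^ 2) t.2.1 (Tt t.2.1 t.1 t.2.2ᵀ) H' := fun x hx => by
      obtain ⟨b1, -, b3⟩ := hS x hx
      obtain ⟨d1, p, p1, p2, p3, p4, p5, p6⟩ := hB x hx
      obtain ⟨A, A', N, H, H', h⟩ :=
        badn g Q m₀ a x.1 x.2 (√ρ) ρ p hm b1 d1 r1 b3 s0.le p1 p2 p3 p4 p5 p6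
      exact ⟨(A, A', N), H, H', h⟩
    choose! t ht using key
    obtain ⟨T, T1, T2, T3⟩ := glue S (fun x => {t x}) Prod.fst Prod.snd 1
      (fun x _ y _ e1 e2 => Prod.ext e1 e2)
      (fun x hx s hs => by
        obtain ⟨H, H', h, -⟩ := ht x hx
        rwa [mem_singleton.1 hs])
      (fun x _ s hs u hu _ _ _ _ _ => (mem_singleton.1 hs).trans (mem_singleton.1 hu).symm)
      fun x _ => (card_singleton _).ge
    have hD := dens Q f₀ mb m₀ 1 a hQ hm (one_dvd _)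
    rw [hN] at hD
    have k := count (Lall Q f₀ mb m₀ 1 a) (den g C Q m₀ 1) N₀ (√ρ) ρ
      (inv g Q f₀ mb m₀ 1 a) (den_nn g hC Q m₀ 1) hD N1 s0 hρ T T1 fun s hs => by
        obtain ⟨x, hx, hs⟩ := T3 s hs
        obtain rfl := mem_singleton.1 hs
        obtain ⟨H, H', a1, a2, a3⟩ := ht x hx
        obtain ⟨b1, b2, -⟩ := hS x hx
        exact ⟨move b2 a2, _, _, H, H', b1.zq, LatA.m_ne b1.zq b1.ev, a1, a3⟩
    have T2' : (S.card : ℝ) ≤ T.card := by exact_mod_cast (mul_one S.card).symm.le.trans T2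
    refine T2'.trans (k.trans (mul_le_mul_of_nonneg_right (mul_le_mul_of_nonneg_left ?_ hc.le)
      (by positivity)))
    linarith

end Pool.Agent.MP_a43263_nt.N2

end
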