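import Pool.Agent.MP_a43263_nt.N2.SpecB

/-! THEOREM N2: gluing of local lattices with local frames. -/

set_option autoImplicit false

noncomputable section

namespace Pool.Agent.MP_a43263_nt.N2

open Polynomial Finset Filter Matrix JC Pool.Agent.MP_a43263_nt.UV K2

namespace GluA

open UV.Glu (L mem_of_loc)

section
variable {K : Type} [Field K] {O : Subring K} {n : ℕ}

theorem L_add {p : ℕ} (hp : p.Prime) {a b : K} (ha : L O p a) (hb : L O p b) : L O p (a + b) := by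
  obtain ⟨m, h1, h2⟩ := ha
  obtain ⟨k, h3, h4⟩ := hb
  refine ⟨m * k, fun h => ((Nat.prime_iff_prime_int.1 hp).dvd_or_dvd h).elim h1 h3, ?_⟩
  rw [show ((m * k : ℤ) : K) * (a + b) = k * (m * a) + m * (k * b) by push_cast; ring]
  exact add_mem (mul_mem (intCast_mem O k) h2) (mul_mem (intCast_mem O m) h4)

/-- the lattice with the local generators `x` -/
def lam (O : Subring K) (x : ℕ → K) : Submodule ℤ K where
  carrier := {z | ∀ p : ℕ, p.Prime → L O p (z / x p)}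
  add_mem' ha hb p hp := by
    rw [add_div]
    exact L_add hp (ha p hp) (hb p hp)
  zero_mem' p hp := by
    rw [zero_div]
    exact L.of_mem hp (zero_mem O)
  smul_mem' c z hz p hp := by
    rw [zsmul_eq_mul, mul_div_assoc]
    exact (L.of_mem hp (intCast_mem O c)).mul hp (hz p hp)

theorem lam_mul {x : ℕ → K} {a z : K} (ha : a ∈ O) (hz : z ∈ lam O x) : a * z ∈ lam O x :=
  fun p hp => by
    rw [mul_div_assoc]
    exact (L.of_mem hp ha).mul hp (hz p hp)

theorem com (h1 : ∀ w : K, ∃ D : ℤ, D ≠ 0 ∧ (D : K) * w ∈ O) {x : ℕ → K} {P : Finset ℕ}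
    (h : ∀ p : ℕ, p.Prime → p ∉ P → x p = x 0) (u : K → K) :
    ∃ E : ℤ, E ≠ 0 ∧ ∀ l : ℕ, l.Prime → (E : K) * u (x l) ∈ O := by
  choose D D0 D1 using h1
  refine ⟨∏ l ∈ insert 0 P, D (u (x l)), prod_ne_zero_iff.2 fun l _ => D0 _, fun l hl => ?_⟩
  obtain ⟨l', a, b⟩ : ∃ l' ∈ insert 0 P, x l = x l' := by
    by_cases c : l ∈ P
    · exact ⟨l, mem_insert_of_mem c, rfl⟩
    · exact ⟨0, mem_insert_self _ _, h l hl c⟩
  rw [b, ← prod_erase_mul _ _ a, Int.cast_mul, mul_assoc]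
  exact mul_mem (intCast_mem O _) (D1 _)

theorem key {x : ℕ → K} {p : ℕ} (hp : p.Prime) (x0 : x p ≠ 0) {E : ℤ} (E0 : E ≠ 0)
    (E1 : ∀ l : ℕ, l.Prime → (E : K) * (x p / x l) ∈ O) :
    ∃ m : ℤ, ¬(p : ℤ) ∣ m ∧ (m : K) * x p ∈ lam O x := by
  obtain ⟨k, m, m1, rfl⟩ := WfDvdMonoid.max_power_factor E0
    (Nat.prime_iff_prime_int.1 hp).irreducible
  refine ⟨m, m1, fun l hl => ?_⟩
  by_cases c : l = p
  · rw [c, mul_div_cancel_right₀ _ x0]
    exact L.of_mem hp (intCast_mem O m)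
  · refine ⟨p ^ k, fun e => c ?_, ?_⟩
    · exact (Nat.prime_dvd_prime_iff_eq hl hp).1
        (Int.natCast_dvd_natCast.1 ((Nat.prime_iff_prime_int.1 hl).dvd_of_dvd_pow e))
    · have := E1 l hl
      rwa [Int.cast_mul, mul_assoc, ← mul_div_assoc] at this

theorem basis [Algebra ℚ K] (hn : Module.finrank ℚ K = n) (Λ : Submodule ℤ K) (v : Fin n → K)
    {E : ℤ} (hE : E ≠ 0) (h1 : ∀ z ∈ Λ, ∃ c : Fin n → ℤ, (E : K) * z = ∑ i, (c i : K) * v i)
    (h2 : ∀ w : K, ∃ D : ℤ, D ≠ 0 ∧ (D : K) * w ∈ Λ) :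
    ∃ β : Fin n → K, (∀ i, β i ∈ Λ) ∧ (∀ z ∈ Λ, ∃ c : Fin n → ℤ, z = ∑ i, (c i : K) * β i) ∧
      LinearIndependent ℚ β := by
  have hc : CharZero K := algebraRat.charZero K
  have hL : Λ.IsLattice ℚ := by
    constructor
    · refine (Submodule.fg_span (Set.finite_range fun i => (E : K)⁻¹ * v i)).of_le fun z hz => ?_
      obtain ⟨c, hc⟩ := h1 z hz
      have e : (E : K) ≠ 0 := Int.cast_ne_zero.2 hE
      rw [← inv_mul_cancel_left₀ e z, hc, mul_sum]
      refine Submodule.sum_mem _ fun i _ => ?_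
      rw [mul_left_comm, ← zsmul_eq_mul]
      exact Submodule.smul_mem _ _ (Submodule.subset_span ⟨i, rfl⟩)
    · refine eq_top_iff.2 fun w _ => ?_
      obtain ⟨D, D0, D1⟩ := h2 w
      refine (Submodule.smul_mem_iff _ (Int.cast_ne_zero.2 D0 : (D : ℚ) ≠ 0)).1
        (Submodule.subset_span ?_)
      rwa [Int.cast_smul_eq_zsmul, zsmul_eq_mul]
  have hr : Module.finrank ℤ Λ = n := by
    rw [← hn, Module.finrank, Module.finrank, Submodule.IsLattice.rank' ℚ Λ]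
  let e := Module.finBasisOfFinrankEq ℤ Λ hr
  refine ⟨fun i => (e i).1, fun i => (e i).2, fun z hz => ⟨e.repr ⟨z, hz⟩, ?_⟩, ?_⟩
  · have h3 := congrArg Subtype.val (e.sum_repr ⟨z, hz⟩)
    simp only [Submodule.coe_sum, Submodule.coe_smul, zsmul_eq_mul] at h3
    exact h3.symm
  · have h3 := (e.extendOfIsLattice ℚ).linearIndependent
    rwa [show ⇑(e.extendOfIsLattice ℚ) = fun i => (e i).1 from
      funext (e.extendOfIsLattice_apply ℚ)] at h3

/-- the columns of `Γ` are the coordinates of `w` in `v` -/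
def Co (v w : Fin n → K) (Γ : Matrix (Fin n) (Fin n) ℤ) : Prop :=
  ∀ j, w j = ∑ i, (Γ i j : K) * v i

variable {u v w : Fin n → K} {Γ Δ : Matrix (Fin n) (Fin n) ℤ}

theorem Co.trans (h : Co v w Γ) (k : Co w u Δ) : Co v u (Γ * Δ) := fun j => by
  simp only [k j, h _, mul_sum, mul_apply, Int.cast_sum, Int.cast_mul, sum_mul]
  rw [sum_comm]
  exact sum_congr rfl fun i _ => sum_congr rfl fun l _ => by ring

theorem Co.mul (h : Co v w Γ) (c : K) : Co (fun i => c * v i) (fun i => c * w i) Γ := fun j => by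
  simp only [h j, mul_sum, mul_left_comm]

theorem Co.diag (v : Fin n → K) (d : Fin n → ℤ) :
    Co v (fun i => (d i : K) * v i) (diagonal d) := fun j => by
  simp [diagonal_apply, apply_ite (Int.cast : ℤ → K)]

theorem Co.uniq [Algebra ℚ K] (hv : LinearIndependent ℚ v) (h : Co v w Γ) (k : Co v w Δ) :
    Γ = Δ := by
  ext i j
  have e : ∑ i, ((Γ i j - Δ i j : ℤ) : ℚ) • v i = 0 := by
    simp only [Int.cast_smul_eq_zsmul, zsmul_eq_mul]
    simp only [Int.cast_sub, sub_mul, sum_sub_distrib, ← h j, ← k j, sub_self]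
  exact sub_eq_zero.1 (Int.cast_eq_zero.1 (Fintype.linearIndependent_iff.1 hv _ e i))

theorem Co.gram (h : Co v w Γ) (τ : K →+ ℚ) (δ : K) (hA : ∀ i j, (Δ i j : ℚ) = τ (δ * v i * v j))
    (i j : Fin n) : (((Γᵀ * Δ * Γ) i j : ℤ) : ℚ) = τ (δ * w i * w j) := by
  have e : ∀ (m : ℤ) (z : K), τ ((m : K) * z) = (m : ℚ) * τ z := fun m z => by
    rw [← zsmul_eq_mul, map_zsmul, zsmul_eq_mul]
  simp only [h i, h j, mul_apply, transpose_apply, Int.cast_sum, Int.cast_mul, hA, mul_sum, sum_mul,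
    map_sum]
  refine sum_congr rfl fun l _ => sum_congr rfl fun k _ => ?_
  rw [show δ * ((Γ k i : K) * v k) * ((Γ l j : K) * v l) = Γ k i * (Γ l j * (δ * v k * v l)) by ring,
    e, e]
  ring

end

end GluA

open GluA UV.Glu in
theorem glu_n : GLUStmt := by
  intro g f δ x R P hf h
  have : Fact (Irreducible (zK f ℚ)) := ⟨hf.irr⟩
  let π := AdjoinRoot.mk (zK f ℚ)
  let ψ := π.comp (mapRingHom (Int.castRingHom ℚ))
  let O := ψ.range
  let θ := π X
  have hO : ∀ t : ℤ[X], π (zK t ℚ) ∈ O := fun t => ⟨t, rfl⟩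
  have hθ : ∀ k : ℕ, θ ^ k ∈ O := fun k => ⟨X ^ k, by simp [ψ, θ]⟩
  have hI : ∀ z, In f z ↔ π z ∈ O := fun z =>
    exists_congr fun t => AdjoinRoot.mk_eq_mk.symm.trans eq_comm
  have hC : ∀ m : ℤ, π (C (m : ℚ)) = m := fun m => by rw [map_intCast, map_intCast]
  have hπ : ∀ a b, zK f ℚ ∣ a - b ↔ π a = π b := fun a b => AdjoinRoot.mk_eq_mk.symm
  have hf0 : ψ f = 0 := AdjoinRoot.mk_self
  have hw : ∀ s : ℤ[X], ψ s = ∑ i : Fin (2 * g + 1), (((s %ₘ f).coeff i.1 : ℤ) : _) * θ ^ i.1 := by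
    intro s
    have e := congrArg ψ (po_ve hf.monic hf.deg s)
    rw [modByMonic_eq_sub_mul_div, map_sub, map_mul, hf0, zero_mul, sub_zero] at e
    rw [← e, po, map_sum]
    refine sum_congr rfl fun i _ => ?_
    simp [ψ, θ, ve]
  have h1 : ∀ w : AdjoinRoot (zK f ℚ), ∃ D : ℤ, D ≠ 0 ∧ (D : AdjoinRoot (zK f ℚ)) * w ∈ O := by
    intro w
    obtain ⟨z, rfl⟩ := AdjoinRoot.mk_surjective w
    obtain ⟨D, t, a, b⟩ := UV.Glu.den z
    exact ⟨D, a, by rw [← hC, ← map_mul, ← b]; exact hO t⟩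
  have hR : ∀ p : ℕ, p.Prime → π δ * π (x p) ^ 2 = ψ (R p) := fun p hp => by
    rw [← map_pow, ← map_mul]
    exact (hπ _ _).1 (h p hp).1
  have x0 : ∀ p : ℕ, p.Prime → π (x p) ≠ 0 := fun p hp e => by
    obtain ⟨A, B, -, -, hAB⟩ := exists_mul_add_mul_eq_C_resultant f (R p) le_rfl le_rfl
      (Or.inl (by rw [hf.deg]; omega))
    have e2 := congrArg ψ hAB
    rw [map_add, map_mul, map_mul, hf0, ← hR p hp, e, eq_intCast, map_intCast] at e2
    exact (h p hp).2.1 (by simpa [Nm] using e2.symm)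
  have hP : ∀ p : ℕ, p.Prime → p ∉ P → π (x p) = π (x 0) := fun p hp c => by rw [(h p hp).2.2 c]
  have hM : ∀ y, Mem f x y ↔ π y ∈ lam O fun p => π (x p) := fun y =>
    forall_congr' fun p => forall_congr' fun hp => exists_congr fun t => by
      rw [exists_and_left]
      refine and_congr_right fun _ => exists_congr fun s => ?_
      rw [hπ, map_mul, map_mul, hC, ← mul_div_assoc, eq_comm, eq_div_iff (x0 p hp), mul_comm]
      rfl
  obtain ⟨E, E0, E1⟩ := com h1 hP id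
  obtain ⟨β, b1, b2, b3⟩ := basis (n := 2 * g + 1)
    ((AdjoinRoot.powerBasis' (hf.mo ℚ)).finrank.trans (hf.dg ℚ)) (lam O fun p => π (x p))
    (fun i => θ ^ i.1) E0 (fun z hz => by
      obtain ⟨s, hs⟩ : (E : AdjoinRoot (zK f ℚ)) * z ∈ O := mem_of_loc fun p hp => by
        rw [← mul_div_cancel₀ z (x0 p hp), ← mul_assoc]
        exact (L.of_mem hp (E1 p hp)).mul hp (hz p hp)
      exact ⟨_, hs.symm.trans (hw s)⟩) fun w => by
      obtain ⟨D, D0, D1⟩ := com h1 hP fun a => w / a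
      exact ⟨D, D0, fun p hp => L.of_mem hp (by rw [mul_div_assoc]; exact D1 p hp)⟩
  choose b hb using fun i => AdjoinRoot.mk_surjective (β i)
  have hb' : ∀ i, π (b i) = β i := hb
  have hs : ∀ (y : ℚ[X]) (c : Fin (2 * g + 1) → ℤ), π y = ∑ i, (c i : _) * β i →
      zK f ℚ ∣ y - ∑ i, C (c i : ℚ) * b i := fun y c e => by
    rw [hπ, e, map_sum]
    simp only [map_mul, hC, hb']
  choose A hA using fun i j : Fin (2 * g + 1) => ((hI (δ * b i * b j)).2 (mem_of_loc fun p hp => by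
    have := x0 p hp
    rw [map_mul, map_mul, hb', hb', show π δ * β i * β j =
      π δ * π (x p) ^ 2 * (β i / π (x p) * (β j / π (x p))) by field_simp, hR p hp]
    exact (L.of_mem hp (hO (R p))).mul hp ((b1 i p hp).mul hp (b1 j p hp)))).ta hf.monic g
  choose T hT using fun j => b2 _ (lam_mul (hθ 1) (b1 j))
  simp only [pow_one] at hT
  refine ⟨b, of A, (of T)ᵀ, ⟨fun i => (hM _).2 (hb' i ▸ b1 i), fun y hy => ?_, fun z hz => ?_⟩,
    ⟨fun i j => (hA i j).symm, fun j => hs _ _ (by rw [map_mul, hb']; exact hT j)⟩, fun p hp => ?_⟩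
  · obtain ⟨c, hc⟩ := b2 _ ((hM y).1 hy)
    exact ⟨c, hs y c hc⟩
  · refine funext (Fintype.linearIndependent_iff.1 b3 z ?_)
    rw [← AdjoinRoot.mk_eq_zero.2 hz, map_sum]
    refine sum_congr rfl fun i _ => ?_
    rw [map_mul, hb, Algebra.smul_def]
    rfl
  obtain ⟨D, D0, D1⟩ := com h1 hP fun a => π (x p) / a
  obtain ⟨t, t0, t1⟩ := key (x := fun p => π (x p)) hp (x0 p hp) D0 D1
  choose Γ hΓ using fun j : Fin (2 * g + 1) => b2 _ (lam_mul (hθ j.1) t1)
  choose r r0 s hr using fun i => b1 i p hp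
  have c1 : Co β (fun j => (t * π (x p)) * θ ^ j.1) (of Γ)ᵀ := fun j => (mul_comm _ _).trans (hΓ j)
  have c2 : Co β (fun j => θ * β j) (of T)ᵀ := hT
  have c3 : Co (fun i : Fin (2 * g + 1) => θ ^ i.1) (fun j => θ * θ ^ j.1) (Cx g f) := fun j => by
    refine Eq.trans ?_ (hw (X ^ (j.1 + 1)))
    simp [ψ, θ, pow_succ']
  have c4 : Co (fun i : Fin (2 * g + 1) => θ ^ i.1) (fun j => ψ (s j))
      (of fun i j => (s j %ₘ f).coeff i.1) := fun j => hw (s j)
  have hq := Nat.prime_iff_prime_int.1 hp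
  refine ⟨(of Γ)ᵀ, t, fun c => ?_, t0, ?_, ?_⟩
  · have c5 := c1.trans (c4.mul (t * π (x p)))
    have e : (fun j => (t * π (x p)) * ψ (s j)) = fun j => ((t * r j : ℤ) : _) * β j := by
      funext j
      have := x0 p hp
      rw [hr j]
      push_cast
      field_simp
    rw [e] at c5
    have e2 := congrArg Matrix.det (Co.uniq b3 c5 (Co.diag β _))
    rw [det_mul, det_diagonal] at e2
    obtain ⟨i, -, hi⟩ := (hq.dvd_finsetProd_iff _).1 (e2 ▸ c.mul_right _)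
    exact (hq.dvd_or_dvd hi).elim t0 (r0 i)
  · let τ : AdjoinRoot (zK f ℚ) →+ ℚ :=
      ((lcoeff ℚ (2 * g)).comp (AdjoinRoot.modByMonicHom (hf.mo ℚ))).toAddMonoidHom
    have hτ : ∀ y, τ (π y) = ta g (zK f ℚ) y := fun y => rfl
    ext i j
    refine Int.cast_injective (α := ℚ) ((c1.gram τ (π δ) (fun i j => ?_) i j).trans ?_)
    · rw [← hb', ← hb', ← map_mul, ← map_mul, hτ]
      exact (hA i j).symm
    · rw [show π δ * ((t * π (x p)) * θ ^ i.1) * ((t * π (x p)) * θ ^ j.1) =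
        t ^ 2 * (π δ * π (x p) ^ 2) * θ ^ (i.1 + j.1) by ring, hR p hp]
      refine Eq.trans ?_ ((hτ _).trans (ta_map hf.monic (Int.castRingHom ℚ)
        (C (t ^ 2) * R p * X ^ (i.1 + j.1))))
      congr 1
      simp [ψ, θ]
  · refine Co.uniq b3 (c2.trans (c1.mul θ)) ?_
    have c5 := c1.trans (c3.mul (t * π (x p)))
    simpa only [mul_left_comm] using c5

end Pool.Agent.MP_a43263_nt.N2
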