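import Pool.Agent.MP_a43263_nt.N2.SpecB

/-! THEOREM N2, row HEN: the factorisation at a simple root. -/

set_option autoImplicit false

noncomputable section

namespace Pool.Agent.MP_a43263_nt.N2

open Polynomial Pool.Agent.MP_a43263_nt.UV Pool.Agent.MP_a43263_nt.UV.Cmp

namespace HenA

variable {p : ℕ} [Fact p.Prime]

theorem rq_ev (r : ℤ_[p][X]) {α : ℤ_[p]} {b : ZMod p} (h : PadicInt.toZMod α = b) :
    (rq p r).eval b = PadicInt.toZMod (r.eval α) := by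
  rw [← h, eval_map, eval₂_at_apply]

theorem zK_ev (f : ℤ[X]) (a : ℤ) (R : Type) [CommRing R] :
    (zK f R).eval (a : R) = ((f.eval a : ℤ) : R) :=
  (eval_map _ _).trans (eval₂_at_apply (Int.castRingHom R) a)

end HenA

open HenA in
theorem hen_n : HENStmt := by
  intro p _ g f a Z ⟨⟨c, hc⟩, h2⟩
  have hp : (p : ℤ_[p]) ≠ 0 := Nat.cast_ne_zero.2 (Fact.out : p.Prime).ne_zero
  have p0 : PadicInt.toZMod (p : ℤ_[p]) = 0 := by simp
  have h3 : (((derivative f).eval a : ℤ) : ZMod p) ≠ 0 :=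
    fun e => h2 ((ZMod.intCast_zmod_eq_zero_iff_dvd _ p).1 e)
  have a1 : ‖(zK f ℤ_[p]).eval (a : ℤ_[p])‖ < 1 := by
    rw [← zero_iff, zK_ev, hc]
    simp
  have a2 : ‖(zK f ℤ_[p]).derivative.eval (a : ℤ_[p])‖ = 1 := by
    rw [← PadicInt.isUnit_iff, Cmp.unit_iff, derivative_map, zK_ev, map_intCast]
    exact h3
  obtain ⟨α, b1, b2, -⟩ := hensels_lemma (F := zK f ℤ_[p]) (a := (a : ℤ_[p]))
    (by rw [coe_aeval_eq_eval, a2, one_pow]; exact a1)
  rw [coe_aeval_eq_eval] at b1 b2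
  rw [a2] at b2
  obtain ⟨b, hb⟩ := (PadicInt.norm_lt_one_iff_dvd _).1 b2
  have r0 : PadicInt.toZMod α = (a : ZMod p) := by
    rw [eq_add_of_sub_eq hb, map_add, map_mul, p0, zero_mul, zero_add, map_intCast]
  obtain ⟨h, hh⟩ := (dvd_iff_isRoot (p := zK f ℤ_[p]) (a := α)).2 b1
  obtain ⟨k, hk⟩ := X_sub_C_dvd_sub_C_eval (p := h) (a := (a : ℤ_[p]))
  set D := zK (f /ₘ (X - C a)) ℤ_[p] with hD
  have s0 : f = C (p * c : ℤ) + (X - C a) * (f /ₘ (X - C a)) := by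
    rw [← hc, ← modByMonic_X_sub_C_eq_C_eval, modByMonic_add_div]
  have s1 : (X - C (a : ℤ_[p]) - C (p : ℤ_[p]) * C b) * h =
      C (p : ℤ_[p]) * C (c : ℤ_[p]) + (X - C (a : ℤ_[p])) * D := by
    rw [← C_mul, ← hb, C_sub, show X - C (a : ℤ_[p]) - (C α - C (a : ℤ_[p])) = X - C α by ring,
      ← hh]
    conv_lhs => rw [s0]
    simp [hD]
  have s2 : (c : ℤ_[p]) = -(b * h.eval (a : ℤ_[p])) := by
    have := congrArg (eval (a : ℤ_[p])) s1
    simp only [eval_mul, eval_sub, eval_add, eval_X, eval_C, sub_self, zero_mul, add_zero] at this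
    exact mul_left_cancel₀ hp (by linear_combination -this)
  have s3 : D = h - C (p : ℤ_[p]) * C b * k := by
    refine mul_left_cancel₀ (X_sub_C_ne_zero (a : ℤ_[p])) ?_
    rw [s2, C_neg, C_mul] at s1
    linear_combination -s1 - C (p : ℤ_[p]) * C b * hk
  have s4 : zK (pw p f a) ℤ_[p] = D ^ 3 + C (p : ℤ_[p]) * (X - C (a : ℤ_[p])) := by
    simp [pw, hD]
  refine ⟨α, h, X - C (a : ℤ_[p]) - C (p : ℤ_[p]) ^ 2 * (C b * k) ^ 3, hh,
    (monic_X_sub_C α).of_mul_monic_left (hh ▸ Z.monic.map _), r0, fun e => h3 ?_, ?_, ?_, ?_⟩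
  · rw [← zK_ev, ← rq_zK, rq_ev _ r0, zK, ← derivative_map, ← zK, hh, ← e, rq_ev _ r0]
    simp
  · rw [s4, s3]
    exact ⟨h ^ 2 - 3 * h * (C (p : ℤ_[p]) * C b * k) + 3 * (C (p : ℤ_[p]) * C b * k) ^ 2, by ring⟩
  · simp [rq, Polynomial.map_sub, Polynomial.map_mul, Polynomial.map_pow]
  · rw [s4, s3, rq_ev _ r0]
    simp only [eval_mul, eval_sub, eval_add, eval_pow, eval_C, map_add, map_mul, map_sub, map_pow,
      p0, zero_mul, sub_zero, add_zero]

end Pool.Agent.MP_a43263_nt.N2
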