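import Pool.Agent.MP_a43263_nt.N2.SpecB

/-! THEOREM N2, row HYP: diagonal forms of hyperbolic discriminant over finite fields. -/

set_option autoImplicit false

noncomputable section

namespace Pool.Agent.MP_a43263_nt.N2

open Polynomial Finset Matrix

namespace HypA

variable {F : Type} [Field F]

/-- the diagonal form `e` represents the diagonal form `e'` -/
def Rep {n : ℕ} (e e' : Fin n → F) : Prop :=
  ∃ ψ : (Fin n → F) → (Fin n → F), IsLinearMap F ψ ∧
    ∀ x y, ∑ i, e i * ψ x i * ψ y i = ∑ i, e' i * x i * y i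

theorem Rep.trans {n : ℕ} {e e' e'' : Fin n → F} (h : Rep e e') (k : Rep e' e'') : Rep e e'' := by
  obtain ⟨ψ, a, b⟩ := h
  obtain ⟨θ, c, d⟩ := k
  exact ⟨fun x => ψ (θ x), ⟨fun x y => by rw [c.map_add, a.map_add],
    fun t x => by rw [c.map_smul, a.map_smul]⟩, fun x y => (b _ _).trans (d x y)⟩

theorem Rep.cons {n : ℕ} {e e' : Fin n → F} (h : Rep e e') (a : F) :
    Rep (Fin.cons a e : Fin (n + 1) → F) (Fin.cons a e') := by
  obtain ⟨ψ, l, b⟩ := h
  refine ⟨fun x => Fin.cons (x 0) (ψ fun i => x i.succ), ⟨fun x y => ?_, fun t x => ?_⟩,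
    fun x y => ?_⟩
  · funext i
    refine Fin.cases ?_ (fun j => ?_) i
    · simp
    · exact congrFun (l.map_add (fun i => x i.succ) fun i => y i.succ) j
  · funext i
    refine Fin.cases ?_ (fun j => ?_) i
    · simp
    · exact congrFun (l.map_smul t fun i => x i.succ) j
  · simp only [Fin.sum_univ_succ, Fin.cons_zero, Fin.cons_succ]
    rw [b]

theorem two {n : ℕ} (r : Fin n → F) {a b c u w : F} (h : a * u ^ 2 + b * w ^ 2 = c) :
    Rep (Fin.cons a (Fin.cons b r : Fin (n + 1) → F) : Fin (n + 2) → F)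
      (Fin.cons c (Fin.cons (a * b * c) r : Fin (n + 1) → F)) := by
  refine ⟨fun x => Fin.cons (u * x 0 - b * w * x (Fin.succ 0))
    (Fin.cons (w * x 0 + a * u * x (Fin.succ 0)) (fun i => x i.succ.succ) : Fin (n + 1) → F),
    ⟨fun x y => ?_, fun t x => ?_⟩, fun x y => ?_⟩
  · funext i
    refine Fin.cases ?_ (fun j => Fin.cases ?_ (fun k => ?_) j) i
    · simp only [Fin.cons_zero, Pi.add_apply]; ring
    · simp only [Fin.cons_zero, Fin.cons_succ, Pi.add_apply]; ring
    · simp only [Fin.cons_succ, Pi.add_apply]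
  · funext i
    refine Fin.cases ?_ (fun j => Fin.cases ?_ (fun k => ?_) j) i
    · simp only [Fin.cons_zero, Pi.smul_apply, smul_eq_mul]; ring
    · simp only [Fin.cons_zero, Fin.cons_succ, Pi.smul_apply, smul_eq_mul]; ring
    · simp only [Fin.cons_succ, Pi.smul_apply]
  · simp only [Fin.sum_univ_succ, Fin.cons_zero, Fin.cons_succ]
    rw [← h]
    ring

theorem one {e e' : Fin 1 → F} (h0 : e 0 ≠ 0) (h : IsSquare (e 0 * e' 0)) : Rep e e' := by
  obtain ⟨s, hs⟩ := h
  refine ⟨fun x => (s / e 0) • x, ⟨fun x y => smul_add _ _ _, fun t x => smul_comm _ _ _⟩,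
    fun x y => ?_⟩
  simp only [Fin.sum_univ_succ, Finset.univ_eq_empty, Finset.sum_empty, add_zero, Pi.smul_apply,
    smul_eq_mul]
  have : e' 0 = s * s / e 0 := by rw [← hs]; field_simp
  rw [this]
  field_simp

theorem binary [Fintype F] (h2 : (2 : F) ≠ 0) {a b : F} (ha : a ≠ 0) (hb : b ≠ 0) (c : F) :
    ∃ u w, a * u ^ 2 + b * w ^ 2 = c := by
  have hc : ringChar F ≠ 2 := fun h => h2 (by
    have := (ringChar.spec F 2).2 (by rw [h])
    exact_mod_cast this)
  obtain ⟨u, w, h⟩ := FiniteField.exists_root_sum_quadratic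
    (f := C a * X ^ 2 + C 0 * X + C 0) (g := C b * X ^ 2 + C 0 * X + C (-c))
    (degree_quadratic ha) (degree_quadratic hb) (FiniteField.odd_card_of_char_ne_two hc)
  refine ⟨u, w, ?_⟩
  simp only [eval_add, eval_mul, eval_C, eval_pow, eval_X] at h
  linear_combination h

theorem rep [Fintype F] (h2 : (2 : F) ≠ 0) : ∀ (n : ℕ) (e e' : Fin n → F), (∀ i, e i ≠ 0) →
    (∀ i, e' i ≠ 0) → IsSquare ((∏ i, e i) * ∏ i, e' i) → Rep e e'
  | 0, e, e', _, _, _ => ⟨id, ⟨fun _ _ => rfl, fun _ _ => rfl⟩, fun _ _ => by simp⟩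
  | 1, e, e', h, _, k => one (h 0) (by simpa using k)
  | n + 2, e, e', h, h', k => by
    obtain ⟨u, w, huw⟩ := binary h2 (h 0) (h (Fin.succ 0)) (e' 0)
    have e1 : e = Fin.cons (e 0)
        (Fin.cons (e (Fin.succ 0)) (fun i => e i.succ.succ) : Fin (n + 1) → F) := by
      funext i
      exact Fin.cases rfl (fun j => Fin.cases rfl (fun _ => rfl) j) i
    have e2 : e' = Fin.cons (e' 0) fun i => e' i.succ := by
      funext i
      exact Fin.cases rfl (fun _ => rfl) i
    have ih := rep h2 (n + 1)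
      (Fin.cons (e 0 * e (Fin.succ 0) * e' 0) fun i => e i.succ.succ) (fun i => e' i.succ)
      (fun i => Fin.cases (mul_ne_zero (mul_ne_zero (h _) (h _)) (h' _)) (fun j => h _) i)
      (fun i => h' _) (by
        rw [Fin.prod_univ_succ, Fin.prod_univ_succ, Fin.prod_univ_succ e'] at k
        rw [Fin.prod_univ_succ]
        simp only [Fin.cons_zero, Fin.cons_succ]
        have q : e 0 * e (Fin.succ 0) * e' 0 * (∏ i : Fin n, e i.succ.succ) *
            ∏ i : Fin (n + 1), e' i.succ = e 0 * (e (Fin.succ 0) * ∏ i : Fin n, e i.succ.succ) *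
            (e' 0 * ∏ i : Fin (n + 1), e' i.succ) := by ring
        rw [q]
        exact k)
    rw [e1, e2]
    exact (two _ huw).trans (ih.cons _)

/-- the splitting of the index set -/
def sg (g : ℕ) : Fin g ⊕ Fin g ≃ Fin (2 * g) := finSumFinEquiv.trans (finCongr (two_mul g).symm)

end HypA

open HypA in
theorem hyp_n : HYPStmt := by
  intro F _ _ h2 g e he hs
  obtain ⟨h, hh⟩ : ∃ h : Fin (2 * g) → F,
      ∀ s, h (sg g s) = Sum.elim (fun _ => (1 : F)) (fun _ => -1) s :=
    ⟨fun i => Sum.elim (fun _ => (1 : F)) (fun _ => -1) ((sg g).symm i), fun s => by simp⟩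
  have h0 : ∀ i, h i ≠ 0 := fun i => by
    obtain ⟨s, rfl⟩ := (sg g).surjective i
    rw [hh]
    cases s <;> simp
  have hp : ∏ i, h i = (-1) ^ g := by
    rw [← (sg g).prod_comp h]
    simp [hh]
  obtain ⟨ψ, l, hψ⟩ := rep h2 (2 * g) e h he h0 (by rw [hp, mul_comm]; exact hs)
  obtain ⟨θ, hθ⟩ : ∃ θ : (Fin g → F) × (Fin g → F) → Fin (2 * g) → F, ∀ x s,
      θ x (sg g s) = Sum.elim (fun j => x.1 j + x.2 j / 2) (fun j => x.1 j - x.2 j / 2) s :=
    ⟨fun x i => Sum.elim (fun j => x.1 j + x.2 j / 2) (fun j => x.1 j - x.2 j / 2)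
      ((sg g).symm i), fun x s => by simp⟩
  have lθ : IsLinearMap F θ := ⟨fun x y => by
      funext i
      obtain ⟨s, rfl⟩ := (sg g).surjective i
      rw [Pi.add_apply, hθ, hθ, hθ]
      cases s <;> simp only [Sum.elim_inl, Sum.elim_inr, Prod.fst_add, Prod.snd_add,
        Pi.add_apply] <;> ring, fun t x => by
      funext i
      obtain ⟨s, rfl⟩ := (sg g).surjective i
      rw [Pi.smul_apply, hθ, hθ]
      cases s <;> simp only [Sum.elim_inl, Sum.elim_inr, Prod.smul_fst, Prod.smul_snd,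
        Pi.smul_apply, smul_eq_mul] <;> ring⟩
  have key : ∀ x y, ∑ i, e i * ψ (θ x) i * ψ (θ y) i = x.1 ⬝ᵥ y.2 + x.2 ⬝ᵥ y.1 := fun x y => by
    rw [hψ, ← (sg g).sum_comp, Fintype.sum_sum_type, dotProduct, dotProduct, ← sum_add_distrib,
      ← sum_add_distrib]
    refine sum_congr rfl fun j _ => ?_
    simp only [hh, hθ, Sum.elim_inl, Sum.elim_inr]
    field_simp
    ring
  obtain ⟨L, hL⟩ : ∃ L : ((Fin g → F) × (Fin g → F)) →ₗ[F] (Fin (2 * g) → F),
      ∀ x, L x = ψ (θ x) := ⟨(l.mk' ψ).comp (lθ.mk' θ), fun _ => rfl⟩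
  have inj : Function.Injective L := by
    rw [← LinearMap.ker_eq_bot, LinearMap.ker_eq_bot']
    intro x hx
    have z : ∀ y : (Fin g → F) × (Fin g → F), x.1 ⬝ᵥ y.2 + x.2 ⬝ᵥ y.1 = 0 := fun y => by
      rw [← key, ← hL x, hx]
      simp
    refine Prod.ext (funext fun j => ?_) (funext fun j => ?_)
    · simpa using z (0, Pi.single j 1)
    · simpa using z (Pi.single j 1, 0)
  refine ⟨L.linearEquivOfInjective inj (by simp [two_mul]), fun x y => ?_⟩
  rw [LinearMap.linearEquivOfInjective_apply, LinearMap.linearEquivOfInjective_apply, hL, hL]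
  exact key x y

end Pool.Agent.MP_a43263_nt.N2
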