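import Pool.Agent.MP_a43263_nt.N2.SpecB

/-! THEOREM N2: the local conditions are invariant under changes of basis. -/

set_option autoImplicit false

noncomputable section

namespace Pool.Agent.MP_a43263_nt.N2

open Polynomial Finset Filter Matrix JC Pool.Agent.MP_a43263_nt.UV K2

namespace InvA

open UC.Chg

section
variable {n g : ℕ} {R : Type} [CommRing R]

theorem one (A A' N γ γ' β : Matrix (Fin n) (Fin n) R) (h : γ * γ' = 1) (hβ : IsUnit β.det) :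
    Tt (γᵀ * A * γ) (βᵀ * A' * β) (βᵀ * N * γ) = γ' * Tt A A' N * γ := by
  have u : IsUnit γ.det := isUnit_det_of_right_inverse h
  have e1 : ∀ M : Matrix (Fin n) (Fin n) R, γᵀ⁻¹ * (γᵀ * M) = M :=
    fun M => nonsing_inv_mul_cancel_left _ M (isUnit_det_transpose _ u)
  have e2 : ∀ M : Matrix (Fin n) (Fin n) R, βᵀ⁻¹ * (βᵀ * M) = M :=
    fun M => nonsing_inv_mul_cancel_left _ M (isUnit_det_transpose _ hβ)
  have e3 : ∀ M : Matrix (Fin n) (Fin n) R, β * (β⁻¹ * M) = M :=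
    fun M => mul_nonsing_inv_cancel_left _ M hβ
  simp only [Tt, Matrix.mul_inv_rev, transpose_mul, transpose_transpose, Matrix.mul_assoc, e1, e2,
    e3, inv_eq_right_inv h, Matrix.mul_sub, Matrix.sub_mul, Matrix.one_mul, mul_eq_one_comm.1 h]

theorem form2 (B β γ : Matrix (Fin n) (Fin n) R) (y z : Fin n → R) :
    y ⬝ᵥ (βᵀ * B * γ) *ᵥ z = (β *ᵥ y) ⬝ᵥ B *ᵥ (γ *ᵥ z) := by
  rw [← mulVec_mulVec, ← mulVec_mulVec, dotProduct_mulVec y, vecMul_transpose]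

theorem inv1 {γ : Matrix (Fin n) (Fin n) R} (h : γ.det = 1) : γ * γ⁻¹ = 1 :=
  mul_nonsing_inv _ (h ▸ isUnit_one)

theorem st {f : R[X]} {A T γ γ' : Mat g R} (h : γ * γ' = 1) (s : St f A (A * T)) :
    St f (γᵀ * A * γ) (γᵀ * A * γ * (γ' * T * γ)) := by
  obtain ⟨T, c0, c, x, s, s0, x1, x2⟩ := s
  refine ⟨γ' * T * γ, by rw [mul1 h, mul1 h, c0], (chp h).trans c, γ' *ᵥ x, s, s0, ?_, ?_⟩
  · rw [mulVec_mulVec, Matrix.mul_assoc, h, Matrix.mul_one, ← mulVec_mulVec, x1, mulVec_zero]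
  · rw [form, mulVec_mulVec, h, one_mulVec, x2]

theorem hz {S γ : Mat g R} (h : γ.det = 1) (s : Hz g S) : Hz g (γᵀ * S * γ) := by
  obtain ⟨Γ, e, a, b, c, d⟩ := s
  refine ⟨γ⁻¹ * Γ, e, ?_, b, c, ?_⟩
  · rw [det_mul]
    exact (isUnit_det_of_left_inverse (inv1 h)).mul a
  · have e1 : γ * (γ⁻¹ * Γ) = Γ := by rw [← Matrix.mul_assoc, inv1 h, Matrix.one_mul]
    rw [← d, Matrix.mul_assoc, Matrix.mul_assoc _ γ, e1, Matrix.mul_assoc γᵀ, ← Matrix.mul_assoc,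
      ← transpose_mul, e1, Matrix.mul_assoc]

theorem det1 {γ : Mat g ℤ} (h : γ.det = 1) : (mK γ R).det = 1 := by rw [mK_det, h, Int.cast_one]

theorem mk3 (β N γ : Mat g ℤ) : mK (βᵀ * N * γ) R = (mK β R)ᵀ * mK N R * mK γ R := by
  rw [mK_mul, mK_mul, mK_transpose]

end

variable {g p : ℕ} {A γ : Mat g ℤ} {M : Sub g p}

/-- the preimage of a subspace -/
def cm (γ : Mat g ℤ) (M : Sub g p) : Sub g p := M.comap (mK γ (ZMod p)).mulVecLin

theorem mem_cm {x : Vz g} : rd p x ∈ cm γ M ↔ rd p (γ *ᵥ x) ∈ M := by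
  have : rd p (γ *ᵥ x) = mK γ (ZMod p) *ᵥ rd p x :=
    funext fun i => (Int.castRingHom (ZMod p)).map_mulVec γ x i
  rw [this]
  rfl

theorem is1 (h : γ.det = 1) (s : Is1 p A M) : Is1 p (γᵀ * A * γ) (cm γ M) := by
  refine ⟨Eq.trans ?_ s.1, fun x y hx hy => ?_⟩
  · have h1 := inv1 (det1 (R := ZMod p) h)
    exact Nat.card_congr (Equiv.subtypeEquiv ⟨fun x => mK γ (ZMod p) *ᵥ x,
      fun x => (mK γ (ZMod p))⁻¹ *ᵥ x,
      fun x => by simp only [mulVec_mulVec, mul_eq_one_comm.1 h1, one_mulVec],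
      fun x => by simp only [mulVec_mulVec, h1, one_mulVec]⟩ fun _ => Iff.rfl)
  · rw [form]
    exact s.2 _ _ (mem_cm.1 hx) (mem_cm.1 hy)

theorem pp (h : γ.det = 1) {x : Vz g} (s : Pp p (γᵀ * A * γ) (cm γ M) x) : Pp p A M (γ *ᵥ x) :=
  fun y hy => by
    have e : γ *ᵥ (γ⁻¹ *ᵥ y) = y := by rw [mulVec_mulVec, inv1 h, one_mulVec]
    have := s (γ⁻¹ *ᵥ y) (mem_cm.2 (e.symm ▸ hy))
    rwa [form, e] at this

end InvA

open InvA UC.Chg in
theorem inv_n : CHGStmt → INVStmt := fun _ g Q f₀ mb m₀ m₁ a A A' N γ β _ _ h k L => by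
  refine ⟨fun q hq => ?_, fun p hp hm => ?_, fun p hp h0 h1 => ?_⟩
  · obtain ⟨c, c1, s, d⟩ := L.1 q hq
    have h' := det1 (R := ZMod q) h
    have k' := det1 (R := ZMod q) k
    have e : c • mK (βᵀ * N * γ) (ZMod q) =
        (mK β (ZMod q))ᵀ * (c • mK N (ZMod q)) * mK γ (ZMod q) := by
      rw [mk3, Matrix.mul_smul, Matrix.smul_mul]
    refine ⟨c, c1, ?_, ?_⟩
    · rw [e, mk3, mk3, one _ _ _ _ _ _ (inv1 h') (k' ▸ isUnit_one)]
      exact st (inv1 h') s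
    · rw [e, det_mul, det_mul, det_transpose, h', k', one_mul, mul_one, d]
  · obtain ⟨M, M', s, s', t⟩ := L.2.1 p hp hm
    refine ⟨cm γ M, cm β M', is1 h s, is1 k s', fun x x' => ?_⟩
    obtain ⟨t1, t2, t3, t4, t5⟩ := t (γ *ᵥ x) (β *ᵥ x')
    rw [form2, form, form]
    exact ⟨fun u => t1 (pp h u), fun u => t2 (pp k u), fun u v => t3 (mem_cm.1 u) (pp k v),
      fun u v => t4 (pp h u) (mem_cm.1 v), fun u v => t5 (pp h u) (pp k v)⟩
  · have s := hz (det1 (R := ZMod p) h) (L.2.2 p hp h0 h1)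
    rw [← mk3] at s
    rwa [L2, one _ _ _ _ _ _ (inv1 h) (k ▸ isUnit_one), mul1 (inv1 h), ← Matrix.smul_mul,
      ← Matrix.mul_smul, ← Matrix.add_mul, ← Matrix.mul_add]

end Pool.Agent.MP_a43263_nt.N2
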