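import Pool.Agent.MP_a43263_nt.N2.SpecB

/-! THEOREM N2, row Isc: the number of maximal isotropic subspaces. -/

set_option autoImplicit false

noncomputable section

namespace Pool.Agent.MP_a43263_nt.N2

open Polynomial Finset Filter Matrix JC Pool.Agent.MP_a43263_nt.UV K2

namespace IscA

theorem count {X Y : Type} [Finite X] [Finite Y] (f : X → Y) (P : Y → Prop) (L Q : X → Prop)
    (hQ : ∀ x, P (f x) → Q x) {a b : ℝ} (hb : 0 ≤ b)
    (h : ∀ M, P M → a ≤ b * (Nat.card {x // L x ∧ f x = M} : ℝ)) :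
    (Nat.card {M // P M} : ℝ) * a ≤ b * (Nat.card {x // L x ∧ Q x} : ℝ) := by
  have := Fintype.ofFinite {M // P M}
  have h1 : Nat.card (Σ M : {M // P M}, {x // L x ∧ f x = M.1}) ≤ Nat.card {x // L x ∧ Q x} := by
    refine Nat.card_le_card_of_injective
      (fun z => ⟨z.2.1, z.2.2.1, hQ _ (z.2.2.2.symm ▸ z.1.2)⟩) ?_
    rintro ⟨⟨M, hM⟩, x, hx, e1⟩ ⟨⟨M', hM'⟩, x', hx', e2⟩ e
    obtain rfl : x = x' := congrArg Subtype.val e
    obtain rfl : M = M' := e1.symm.trans e2
    rfl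
  rw [Nat.card_sigma] at h1
  calc (Nat.card {M // P M} : ℝ) * a = ∑ _M : {M // P M}, a := by
        rw [sum_const, card_univ, nsmul_eq_mul, Nat.card_eq_fintype_card]
    _ ≤ ∑ M : {M // P M}, b * (Nat.card {x // L x ∧ f x = M.1} : ℝ) := sum_le_sum fun M _ => h _ M.2
    _ ≤ _ := by
        rw [← mul_sum]
        exact mul_le_mul_of_nonneg_left (by exact_mod_cast h1) hb

theorem iso {g p : ℕ} {A : Mat g ℤ} {M : Sub g p} (h : Is1 p A M) {u v : Fin (2 * g + 1) → ZMod p}
    (hu : u ∈ M) (hv : v ∈ M) : u ⬝ᵥ A.map (Int.castRingHom (ZMod p)) *ᵥ v = 0 := by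
  have e : ∀ w : Fin (2 * g + 1) → ZMod p, rd p (fun i => (w i).cast) = w := fun w =>
    funext fun i => ZMod.intCast_zmod_cast _
  have h1 := (ZMod.intCast_zmod_eq_zero_iff_dvd _ p).2
    (h.2 _ _ ((e u).symm ▸ hu) ((e v).symm ▸ hv))
  simpa [dotProduct, mulVec] using h1

end IscA

theorem isc_n : TUPStmt → BASStmt → ISCStmt := by
  intro tup bas g
  obtain ⟨C, hC, tup⟩ := tup g
  refine ⟨3 + C + 3 * C, by positivity, fun p A hp h2 hs hd => ?_⟩
  have := Fact.mk hp
  have p3 : 3 ≤ p := by have := hp.two_le; omega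
  have two : (2 : ZMod p) ≠ 0 := fun e => by
    have := Nat.le_of_dvd two_pos ((ZMod.natCast_eq_zero_iff 2 p).1 (by exact_mod_cast e))
    omega
  have t := tup (ZMod p) two (Fin (2 * g + 1)) (A.map (Int.castRingHom (ZMod p))) (hs.map _)
    (by rw [← RingHom.mapMatrix_apply, ← RingHom.map_det]; exact (hd.map _).ne_zero) (by simp)
  have p0 : (0 : ℝ) < p := by exact_mod_cast hp.pos
  have p1 : (1 : ℝ) ≤ p := by exact_mod_cast hp.pos
  have c := IscA.count (fun x : Fin g → Fin (2 * g + 1) → ZMod p =>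
      Submodule.span (ZMod p) (Set.range x)) (Is1 p A) (fun x => LinearIndependent (ZMod p) x)
    (fun x => ∀ i j, x i ⬝ᵥ A.map (Int.castRingHom (ZMod p)) *ᵥ x j = 0)
    (fun x h i j => IscA.iso h (Submodule.subset_span ⟨i, rfl⟩) (Submodule.subset_span ⟨j, rfl⟩))
    (a := (p : ℝ) ^ (g * g)) (b := 1 + 3 / p) (by positivity) fun M h => by
      have := bas (ZMod p) (by rwa [ZMod.card]) g _ M (by rw [ZMod.card]; exact h.1)
      rwa [ZMod.card] at this
  rw [ZMod.card, Fintype.card_fin] at t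
  have e : g * (2 * g + 1) = g * g + (g + 1).choose 2 + (g + 1).choose 2 := by
    have h1 := Nat.choose_two_right (g + 1)
    have h2 : 2 ∣ (g + 1) * (g + 1 - 1) := (Nat.even_mul_pred_self (g + 1)).two_dvd
    have h3 := Nat.div_mul_cancel h2
    rw [← h1, Nat.add_sub_cancel] at h3
    linarith
  rw [e, pow_add, pow_add] at t
  have a0 : 0 < (p : ℝ) ^ (g * g) * (p : ℝ) ^ (g + 1).choose 2 := by positivity
  have i1 : 3 * C / p / p ≤ 3 * C / p := div_le_self (by positivity) p1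
  refine le_trans (le_of_mul_le_mul_right (a := (p : ℝ) ^ (g * g) * (p : ℝ) ^ (g + 1).choose 2)
    (c := (p : ℝ) ^ (g + 1).choose 2 * ((1 + 3 / p) * (1 + C / p))) ?_ a0) ?_
  · rw [← mul_assoc]
    refine (mul_le_mul_of_nonneg_right c (by positivity)).trans ?_
    rw [mul_assoc]
    exact (mul_le_mul_of_nonneg_left t (by positivity)).trans_eq (by ring)
  · refine mul_le_mul_of_nonneg_left ?_ (by positivity)
    have : (1 + 3 / (p : ℝ)) * (1 + C / p) = 1 + (3 + C) / p + 3 * C / p / p := by ring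
    rw [this, add_div (3 + C)]
    linarith

end Pool.Agent.MP_a43263_nt.N2
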