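import Pool.Agent.MP_a43263_nt.N2.SpecB

/-! Row Lagc: a hyperbolic space has many Lagrangian subspaces. -/

set_option autoImplicit false

noncomputable section

namespace Pool.Agent.MP_a43263_nt.N2

open Finset Matrix

namespace LagcA

variable {F : Type} [Field F] {g : ℕ}

abbrev Pr (g : ℕ) : Type := {z : Fin g × Fin g // z.1 < z.2}

theorem card_Pr (g : ℕ) : Fintype.card (Pr g) = g.choose 2 := by
  have := card_product_filter_lt (s := (univ : Finset (Fin g)))
  rw [univ_product_univ, card_univ, Fintype.card_fin] at this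
  rw [Fintype.card_subtype, this]

def up (c : Pr g → F) : Matrix (Fin g) (Fin g) F :=
  Matrix.of fun i j => if h : i < j then c ⟨(i, j), h⟩ else 0

def sk (c : Pr g → F) : Matrix (Fin g) (Fin g) F := up c - (up c)ᵀ

theorem sk_tr (c : Pr g → F) : (sk c)ᵀ = -sk c := by simp [sk]

theorem sk_inj : Function.Injective (sk : (Pr g → F) → _) := fun c c' h => funext fun z => by
  have := congrFun (congrFun h z.1.1) z.1.2
  simpa [sk, up, z.2, z.2.not_gt] using this

def gr (c : Pr g → F) : Submodule F ((Fin g → F) × (Fin g → F)) := (mulVecLin (sk c)).graph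

theorem mem_gr {c : Pr g → F} {w : (Fin g → F) × (Fin g → F)} : w ∈ gr c ↔ w.2 = sk c *ᵥ w.1 :=
  LinearMap.mem_graph_iff _ _

theorem gr_inj : Function.Injective (gr : (Pr g → F) → _) := fun c _ h =>
  sk_inj (Matrix.ext_iff_mulVec.2 fun v =>
    mem_gr.1 (h ▸ (mem_gr.2 rfl : (v, sk c *ᵥ v) ∈ gr c)))

theorem gr_card [Fintype F] (c : Pr g → F) : Nat.card (gr c) = Fintype.card F ^ g := by
  have e : gr c ≃ (Fin g → F) :=
    ⟨fun w => w.1.1, fun v => ⟨(v, sk c *ᵥ v), mem_gr.2 rfl⟩,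
      fun w => Subtype.ext (Prod.ext rfl (mem_gr.1 w.2).symm), fun _ => rfl⟩
  rw [Nat.card_congr e]
  simp

theorem gr_iso {c : Pr g → F} {x y : (Fin g → F) × (Fin g → F)} (hx : x ∈ gr c) (hy : y ∈ gr c) :
    x.1 ⬝ᵥ y.2 + x.2 ⬝ᵥ y.1 = 0 := by
  rw [mem_gr.1 hx, mem_gr.1 hy, dotProduct_mulVec, ← mulVec_transpose, sk_tr, neg_mulVec,
    neg_dotProduct, neg_add_cancel]

def sw (o : Fin g) : ((Fin g → F) × (Fin g → F)) →ₗ[F] ((Fin g → F) × (Fin g → F)) where
  toFun w := (fun i => if i = o then w.2 i else w.1 i, fun i => if i = o then w.1 i else w.2 i)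
  map_add' v w := by ext i <;> by_cases h : i = o <;> simp [h]
  map_smul' a w := by ext i <;> by_cases h : i = o <;> simp [h]

theorem sw_inv (o : Fin g) : Function.Involutive (sw (F := F) o) := fun w => by
  ext i <;> by_cases h : i = o <;> simp [sw, h]

theorem sw_iso (o : Fin g) (x y : (Fin g → F) × (Fin g → F)) :
    (sw o x).1 ⬝ᵥ (sw o y).2 + (sw o x).2 ⬝ᵥ (sw o y).1 = x.1 ⬝ᵥ y.2 + x.2 ⬝ᵥ y.1 := by
  simp only [dotProduct, ← sum_add_distrib]
  refine sum_congr rfl fun i _ => ?_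
  by_cases h : i = o <;> simp [sw, h, add_comm]

theorem sw_ne (o : Fin g) (c c' : Pr g → F) : (gr c).map (sw o) ≠ gr c' := fun h => by
  have h1 : sw o (Pi.single o 1, sk c *ᵥ Pi.single o 1) ∈ gr c' :=
    h ▸ Submodule.mem_map_of_mem (mem_gr.2 rfl)
  have h2 : (sw o (Pi.single o 1, sk c *ᵥ Pi.single o (1 : F))).1 = 0 := by
    ext i
    by_cases h : i = o <;> simp [sw, h, sk]
  have h3 := congrFun (mem_gr.1 h1) o
  rw [h2, mulVec_zero] at h3
  simp [sw] at h3

def fam (o : Fin g) (z : Bool × (Pr g → F)) : Submodule F ((Fin g → F) × (Fin g → F)) :=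
  if z.1 then (gr z.2).map (sw o) else gr z.2

theorem fam_inj (o : Fin g) : Function.Injective (fam (F := F) o) := by
  rintro ⟨_ | _, c⟩ ⟨_ | _, c'⟩ h <;> simp only [fam, if_true, Bool.false_eq_true, if_false] at h
  · rw [gr_inj h]
  · exact (sw_ne o _ _ h.symm).elim
  · exact (sw_ne o _ _ h).elim
  · rw [gr_inj (Submodule.map_injective_of_injective (sw_inv o).injective h)]

theorem fam_card [Fintype F] (o : Fin g) (z : Bool × (Pr g → F)) :
    Nat.card (fam o z) = Fintype.card F ^ g := by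
  unfold fam
  split_ifs
  · rw [← Nat.card_congr (Submodule.equivMapOfInjective _ (sw_inv o).injective _).toEquiv,
      gr_card]
  · exact gr_card _

theorem fam_iso (o : Fin g) (z : Bool × (Pr g → F)) {x y : (Fin g → F) × (Fin g → F)}
    (hx : x ∈ fam o z) (hy : y ∈ fam o z) : x.1 ⬝ᵥ y.2 + x.2 ⬝ᵥ y.1 = 0 := by
  unfold fam at hx hy
  split_ifs at hx hy
  · obtain ⟨x, hx, rfl⟩ := hx
    obtain ⟨y, hy, rfl⟩ := hy
    rw [sw_iso, gr_iso hx hy]
  · exact gr_iso hx hy

end LagcA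

open LagcA in
theorem lagc_n : HYPStmt → LAGCStmt := by
  classical
  intro hyp F _ _ h2 g e hg he hs
  obtain ⟨φ, hφ⟩ := hyp F h2 g e he hs
  have hi : Function.Injective (φ.toLinearMap) := φ.injective
  refine ⟨univ.image (Submodule.map φ.toLinearMap ∘ fam ⟨0, hg⟩), le_of_eq ?_, fun Λ hΛ => ?_⟩
  · rw [card_image_of_injective _ ((Submodule.map_injective_of_injective hi).comp
      (fam_inj ⟨0, hg⟩)), card_univ, Fintype.card_prod, Fintype.card_bool, Fintype.card_fun,
      card_Pr]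
  · obtain ⟨z, -, rfl⟩ := mem_image.1 hΛ
    refine ⟨(Nat.card_congr (Submodule.equivMapOfInjective _ hi _).toEquiv).symm.trans
      (fam_card _ z), ?_⟩
    rintro _ ⟨x, hx, rfl⟩ _ ⟨y, hy, rfl⟩
    exact (hφ x y).trans (fam_iso _ z hx hy)

end Pool.Agent.MP_a43263_nt.N2
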