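import Pool.Agent.MP_a43263_nt.N2.SpecB

/-! THEOREM N2, row Lgo: Lagrangians of the kernel from Lagrangians of a hyperbolic space. -/

set_option autoImplicit false

noncomputable section

namespace Pool.Agent.MP_a43263_nt.N2

open Polynomial Finset Filter Matrix JC Pool.Agent.MP_a43263_nt.UV K2

namespace LgoA

variable {m : ℕ}

theorem dvd_mulVec {n : Type} [Fintype n] (c : ℤ) (M : Matrix n n ℤ) (v : n → ℤ)
    (h : ∀ i, c ∣ v i) (i : n) : c ∣ (M *ᵥ v) i := by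
  unfold Matrix.mulVec dotProduct
  exact Finset.dvd_sum fun j _ => Dvd.dvd.mul_left (h j) _

theorem dvd_mulVec' {n : Type} [Fintype n] (c : ℤ) (M : Matrix n n ℤ) (v : n → ℤ)
    (h : ∀ i j, c ∣ M i j) (i : n) : c ∣ (M *ᵥ v) i := by
  unfold Matrix.mulVec dotProduct
  exact Finset.dvd_sum fun j _ => Dvd.dvd.mul_right (h i j) _

theorem dvd_dot {n : Type} [Fintype n] (c : ℤ) (u v : n → ℤ) (h : ∀ i, c ∣ v i) :
    c ∣ u ⬝ᵥ v := by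
  unfold dotProduct
  exact Finset.dvd_sum fun j _ => Dvd.dvd.mul_left (h j) _

theorem cancel {n : Type} [Fintype n] [DecidableEq n] {p : ℤ} (hp : Prime p) (M : Matrix n n ℤ)
    (hM : ¬p ∣ M.det) (v : n → ℤ) (h : ∀ i, p ∣ (M *ᵥ v) i) (i : n) : p ∣ v i := by
  have h1 := dvd_mulVec p M.adjugate _ h i
  rw [Matrix.mulVec_mulVec, Matrix.adjugate_mul, Matrix.smul_mulVec, Matrix.one_mulVec] at h1
  exact (hp.dvd_or_dvd h1).resolve_left hM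

theorem adj_vec {n : Type} [Fintype n] [DecidableEq n] (M : Matrix n n ℤ) (v : n → ℤ) :
    M *ᵥ (M.adjugate *ᵥ v) = M.det • v := by
  rw [Matrix.mulVec_mulVec, Matrix.mul_adjugate, Matrix.smul_mulVec, Matrix.one_mulVec]

theorem vec_eq {n : Type} [Fintype n] [DecidableEq n] (c : ℤ) (Γ A : Matrix n n ℤ) (d : n → ℤ)
    (h : ∀ i j, c ∣ (Γᵀ * A * Γ - diagonal d) i j) (z : n → ℤ) (i : n) :
    c ∣ (Γᵀ *ᵥ (A *ᵥ (Γ *ᵥ z))) i - d i * z i := by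
  have h1 := dvd_mulVec' c _ z h i
  rw [Matrix.sub_mulVec, Pi.sub_apply, Matrix.mulVec_diagonal] at h1
  rwa [Matrix.mulVec_mulVec, Matrix.mulVec_mulVec]

theorem form_eq {n : Type} [Fintype n] [DecidableEq n] (c : ℤ) (Γ A : Matrix n n ℤ) (d : n → ℤ)
    (h : ∀ i j, c ∣ (Γᵀ * A * Γ - diagonal d) i j) (z z' : n → ℤ) :
    c ∣ (Γ *ᵥ z) ⬝ᵥ A *ᵥ (Γ *ᵥ z') - ∑ i, d i * z i * z' i := by
  have h1 := dvd_dot c z (fun i => (Γᵀ *ᵥ (A *ᵥ (Γ *ᵥ z'))) i - d i * z' i)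
    (vec_eq c Γ A d h z')
  have h2 : (Γ *ᵥ z) ⬝ᵥ A *ᵥ (Γ *ᵥ z') = z ⬝ᵥ Γᵀ *ᵥ (A *ᵥ (Γ *ᵥ z')) := by
    rw [Matrix.dotProduct_mulVec z, Matrix.vecMul_transpose]
  rw [h2]
  convert h1 using 1
  unfold dotProduct
  rw [← Finset.sum_sub_distrib]
  exact Finset.sum_congr rfl fun i _ => by ring

theorem sum_cons (p w : ℤ) (e : Fin m → ℤ) (z z' : Fin (m + 1) → ℤ) :
    ∑ i, (Fin.cons w fun i => p * e i : Fin (m + 1) → ℤ) i * z i * z' i =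
      w * z 0 * z' 0 + p * ∑ i, e i * z i.succ * z' i.succ := by
  rw [Fin.sum_univ_succ, Finset.mul_sum]
  simp only [Fin.cons_zero, Fin.cons_succ]
  congr 1
  exact Finset.sum_congr rfl fun i _ => by ring

theorem lk_ker {p : ℤ} (hp : Prime p) (Γ A : Matrix (Fin (m + 1)) (Fin (m + 1)) ℤ) (w : ℤ)
    (e : Fin m → ℤ) (hΓ : ¬p ∣ Γ.det) (hw : ¬p ∣ w) (he : ∀ i, ¬p ∣ e i)
    (h : ∀ i j, p ^ 2 ∣
      (Γᵀ * A * Γ - diagonal (Fin.cons w fun i => p * e i : Fin (m + 1) → ℤ)) i j)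
    (y : Fin (m + 1) → ℤ) (hy : ∀ i, p ^ 2 ∣ (A *ᵥ y) i) (i : Fin (m + 1)) : p ∣ y i := by
  set z := Γ.adjugate *ᵥ y with hz
  have h1 : Γ *ᵥ z = Γ.det • y := adj_vec Γ y
  have h2 : ∀ k, p ^ 2 ∣ (Γᵀ *ᵥ (A *ᵥ (Γ *ᵥ z))) k := by
    refine dvd_mulVec _ _ _ fun k => ?_
    rw [h1, Matrix.mulVec_smul, Pi.smul_apply, smul_eq_mul]
    exact Dvd.dvd.mul_left (hy k) _
  have h3 : ∀ k, p ^ 2 ∣ (Fin.cons w fun i => p * e i : Fin (m + 1) → ℤ) k * z k := fun k =>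
    (dvd_iff_dvd_of_dvd_sub (vec_eq _ Γ A _ h z k)).1 (h2 k)
  have h4 : ∀ k, p ∣ z k := by
    intro k
    refine Fin.cases ?_ (fun k => ?_) k
    · have h5 := h3 0
      rw [Fin.cons_zero] at h5
      exact (hp.dvd_or_dvd ((dvd_pow_self p two_ne_zero).trans h5)).resolve_left hw
    · have h5 := h3 k.succ
      rw [Fin.cons_succ, pow_two, mul_assoc] at h5
      exact (hp.dvd_or_dvd ((mul_dvd_mul_iff_left hp.ne_zero).1 h5)).resolve_left (he k)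
  have h6 := dvd_mulVec p Γ z h4 i
  rw [h1, Pi.smul_apply, smul_eq_mul] at h6
  exact (hp.dvd_or_dvd h6).resolve_left hΓ

theorem form_mod {p : ℤ} (Γ A : Matrix (Fin (m + 1)) (Fin (m + 1)) ℤ) (w : ℤ) (e : Fin m → ℤ)
    (h : ∀ i j, p ^ 2 ∣
      (Γᵀ * A * Γ - diagonal (Fin.cons w fun i => p * e i : Fin (m + 1) → ℤ)) i j)
    (x y : Fin (m + 1) → ℤ) : ∃ k, Γ.det ^ 2 * (x ⬝ᵥ A *ᵥ y) =
      w * (Γ.adjugate *ᵥ x) 0 * (Γ.adjugate *ᵥ y) 0 + p * k := by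
  obtain ⟨k, hk⟩ := form_eq _ Γ A _ h (Γ.adjugate *ᵥ x) (Γ.adjugate *ᵥ y)
  rw [sum_cons, adj_vec, adj_vec, Matrix.mulVec_smul, smul_dotProduct, dotProduct_smul,
    smul_eq_mul, smul_eq_mul] at hk
  refine ⟨∑ i, e i * (Γ.adjugate *ᵥ x) i.succ * (Γ.adjugate *ᵥ y) i.succ + p * k, ?_⟩
  linear_combination hk

theorem lk_rk {p : ℤ} (hp : Prime p) (Γ A : Matrix (Fin (m + 1)) (Fin (m + 1)) ℤ) (w : ℤ)
    (e : Fin m → ℤ) (hΓ : ¬p ∣ Γ.det)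
    (h : ∀ i j, p ^ 2 ∣
      (Γᵀ * A * Γ - diagonal (Fin.cons w fun i => p * e i : Fin (m + 1) → ℤ)) i j)
    (x y : Fin (m + 1) → ℤ) :
    p ∣ (x ⬝ᵥ A *ᵥ y) ^ 2 - (x ⬝ᵥ A *ᵥ x) * (y ⬝ᵥ A *ᵥ y) := by
  obtain ⟨k1, h1⟩ := form_mod Γ A w e h x y
  obtain ⟨k2, h2⟩ := form_mod Γ A w e h x x
  obtain ⟨k3, h3⟩ := form_mod Γ A w e h y y
  set a := (Γ.adjugate *ᵥ x) 0
  set b := (Γ.adjugate *ᵥ y) 0
  have h4 : p ∣ Γ.det ^ 4 * ((x ⬝ᵥ A *ᵥ y) ^ 2 - (x ⬝ᵥ A *ᵥ x) * (y ⬝ᵥ A *ᵥ y)) := by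
    refine ⟨2 * w * a * b * k1 + p * k1 ^ 2 - w * a * a * k3 - w * b * b * k2 - p * k2 * k3, ?_⟩
    have e1 : Γ.det ^ 4 * ((x ⬝ᵥ A *ᵥ y) ^ 2 - (x ⬝ᵥ A *ᵥ x) * (y ⬝ᵥ A *ᵥ y)) =
        (Γ.det ^ 2 * (x ⬝ᵥ A *ᵥ y)) ^ 2 -
          (Γ.det ^ 2 * (x ⬝ᵥ A *ᵥ x)) * (Γ.det ^ 2 * (y ⬝ᵥ A *ᵥ y)) := by ring
    rw [e1, h1, h2, h3]
    ring
  exact (hp.dvd_or_dvd h4).resolve_left fun h5 => hΓ (hp.dvd_of_dvd_pow h5)

/-- extension by zero -/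
def ext0 (F : Type) [CommRing F] (m : ℕ) : (Fin m → F) →ₗ[F] (Fin (m + 1) → F) where
  toFun u := Fin.cons 0 u
  map_add' u v := by
    funext i
    refine Fin.cases ?_ (fun k => ?_) i <;> simp
  map_smul' c u := by
    funext i
    refine Fin.cases ?_ (fun k => ?_) i <;> simp

/-- the embedding of the hyperbolic space -/
def emb (p : ℕ) (Γ : Matrix (Fin (m + 1)) (Fin (m + 1)) ℤ) :
    (Fin m → ZMod p) →ₗ[ZMod p] (Fin (m + 1) → ZMod p) :=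
  (Γ.map (Int.castRingHom (ZMod p))).mulVecLin ∘ₗ ext0 (ZMod p) m

theorem emb_cast (p : ℕ) (Γ : Matrix (Fin (m + 1)) (Fin (m + 1)) ℤ) (z : Fin m → ℤ)
    (i : Fin (m + 1)) :
    emb p Γ (fun k => (z k : ZMod p)) i =
      (((Γ *ᵥ (Fin.cons 0 z : Fin (m + 1) → ℤ)) i : ℤ) : ZMod p) := by
  have h1 := RingHom.map_mulVec (Int.castRingHom (ZMod p)) Γ
    (Fin.cons 0 z : Fin (m + 1) → ℤ) i
  have h2 : (Int.castRingHom (ZMod p)) ∘ (Fin.cons 0 z : Fin (m + 1) → ℤ) =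
      ext0 (ZMod p) m (fun k => (z k : ZMod p)) := by
    funext j
    refine Fin.cases ?_ (fun k => ?_) j <;> simp [ext0]
  rw [h2] at h1
  exact h1.symm

theorem lift_vec (p : ℕ) (u : Fin m → ZMod p) : ∃ z : Fin m → ℤ, (fun k => (z k : ZMod p)) = u := by
  choose z hz using fun k => ZMod.intCast_surjective (u k)
  exact ⟨z, funext hz⟩

theorem emb_inj {p : ℕ} (hp : p.Prime) (Γ : Matrix (Fin (m + 1)) (Fin (m + 1)) ℤ)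
    (hΓ : ¬(p : ℤ) ∣ Γ.det) : Function.Injective (emb p Γ) := by
  rw [injective_iff_map_eq_zero]
  intro u hu
  obtain ⟨z, rfl⟩ := lift_vec p u
  funext k
  have h1 := cancel (Nat.prime_iff_prime_int.1 hp) Γ hΓ (Fin.cons 0 z : Fin (m + 1) → ℤ)
    (fun i => by
      rw [← ZMod.intCast_zmod_eq_zero_iff_dvd, ← emb_cast, hu]
      rfl) k.succ
  rw [Fin.cons_succ] at h1
  exact (ZMod.intCast_zmod_eq_zero_iff_dvd _ _).2 h1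

theorem decomp (p : ℕ) (Γ : Matrix (Fin (m + 1)) (Fin (m + 1)) ℤ)
    (L : Submodule (ZMod p) (Fin m → ZMod p)) (x : Fin (m + 1) → ℤ)
    (hx : (fun i => (x i : ZMod p)) ∈ L.map (emb p Γ)) :
    ∃ (z : Fin m → ℤ) (y : Fin (m + 1) → ℤ), (fun k => (z k : ZMod p)) ∈ L ∧
      x = Γ *ᵥ (Fin.cons 0 z : Fin (m + 1) → ℤ) + (p : ℤ) • y := by
  obtain ⟨u, hu, hux⟩ := hx
  obtain ⟨z, rfl⟩ := lift_vec p u
  have h1 : ∀ i, (p : ℤ) ∣ x i - (Γ *ᵥ (Fin.cons 0 z : Fin (m + 1) → ℤ)) i := by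
    intro i
    rw [← ZMod.intCast_zmod_eq_zero_iff_dvd, Int.cast_sub, ← emb_cast, hux, sub_self]
  choose y hy using h1
  refine ⟨z, y, hu, funext fun i => ?_⟩
  rw [Pi.add_apply, Pi.smul_apply, smul_eq_mul, ← hy i]
  ring

theorem ker0 {p : ℤ} (hp : Prime p) (Γ A : Matrix (Fin (m + 1)) (Fin (m + 1)) ℤ) (w : ℤ)
    (e : Fin m → ℤ) (hΓ : ¬p ∣ Γ.det)
    (h : ∀ i j, p ^ 2 ∣
      (Γᵀ * A * Γ - diagonal (Fin.cons w fun i => p * e i : Fin (m + 1) → ℤ)) i j)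
    (z : Fin m → ℤ) (i : Fin (m + 1)) :
    p ∣ (A *ᵥ (Γ *ᵥ (Fin.cons 0 z : Fin (m + 1) → ℤ))) i := by
  refine cancel hp Γᵀ (by rwa [Matrix.det_transpose]) _ (fun k => ?_) i
  have h1 := (dvd_pow_self p two_ne_zero).trans
    (vec_eq _ Γ A _ h (Fin.cons 0 z : Fin (m + 1) → ℤ) k)
  refine (dvd_iff_dvd_of_dvd_sub h1).2 ?_
  refine Fin.cases ?_ (fun k => ?_) k
  · simp
  · rw [Fin.cons_succ, mul_assoc]
    exact Dvd.intro _ rfl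

theorem iso0 {p : ℤ} (hp : Prime p) (Γ A : Matrix (Fin (m + 1)) (Fin (m + 1)) ℤ) (w : ℤ)
    (e : Fin m → ℤ) (hΓ : ¬p ∣ Γ.det) (hA : A.IsSymm)
    (h : ∀ i j, p ^ 2 ∣
      (Γᵀ * A * Γ - diagonal (Fin.cons w fun i => p * e i : Fin (m + 1) → ℤ)) i j)
    (z z' : Fin m → ℤ) (y y' : Fin (m + 1) → ℤ) (hz : p ∣ ∑ i, e i * z i * z' i) :
    p ^ 2 ∣ (Γ *ᵥ (Fin.cons 0 z : Fin (m + 1) → ℤ) + p • y) ⬝ᵥ
      A *ᵥ (Γ *ᵥ (Fin.cons 0 z' : Fin (m + 1) → ℤ) + p • y') := by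
  set v := Γ *ᵥ (Fin.cons 0 z : Fin (m + 1) → ℤ) with hv
  set v' := Γ *ᵥ (Fin.cons 0 z' : Fin (m + 1) → ℤ) with hv'
  obtain ⟨k1, h1⟩ := form_eq _ Γ A _ h (Fin.cons 0 z : Fin (m + 1) → ℤ)
    (Fin.cons 0 z' : Fin (m + 1) → ℤ)
  rw [sum_cons] at h1
  simp only [Fin.cons_zero, Fin.cons_succ] at h1
  obtain ⟨k2, h2⟩ := hz
  obtain ⟨k3, h3⟩ := dvd_dot p y _ (ker0 hp Γ A w e hΓ h z')
  obtain ⟨k4, h4⟩ := dvd_dot p y' _ (ker0 hp Γ A w e hΓ h z)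
  have h5 : v ⬝ᵥ A *ᵥ y' = y' ⬝ᵥ A *ᵥ v := by
    rw [Matrix.dotProduct_mulVec, ← Matrix.mulVec_transpose, hA.eq, dotProduct_comm]
  rw [Matrix.mulVec_add, Matrix.mulVec_smul, add_dotProduct, dotProduct_add, dotProduct_add,
    smul_dotProduct, smul_dotProduct, dotProduct_smul, dotProduct_smul]
  simp only [smul_eq_mul]
  refine ⟨k1 + k2 + k3 + k4 + y ⬝ᵥ A *ᵥ y', ?_⟩
  rw [← hv, ← hv'] at h1
  rw [← hv'] at h3
  rw [← hv] at h4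
  rw [h5, h3, h4]
  linear_combination h1 + p * h2

end LgoA

open LgoA in
theorem lgo_n : LAGCStmt → LGOStmt := by
  intro hL g p A hg hp h2 hA hy
  obtain ⟨Γ, w, e, hΓ, hw, he, hsq, h⟩ := hy
  have hp' : Prime (p : ℤ) := Nat.prime_iff_prime_int.1 hp
  refine ⟨⟨lk_ker hp' Γ A w e hΓ hw he h, lk_rk hp' Γ A w e hΓ h⟩, ?_⟩
  have : Fact p.Prime := ⟨hp⟩
  have h2' : (2 : ZMod p) ≠ 0 := by
    intro h0
    have h1 : ((2 : ℕ) : ZMod p) = 0 := by exact_mod_cast h0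
    rw [ZMod.natCast_eq_zero_iff] at h1
    exact h2 ((Nat.prime_dvd_prime_iff_eq hp Nat.prime_two).1 h1)
  obtain ⟨𝓛, hc, hΛ⟩ := hL (ZMod p) h2' g (fun i => (e i : ZMod p)) hg
    (fun i h0 => he i ((ZMod.intCast_zmod_eq_zero_iff_dvd _ _).1 h0))
    (by simpa using hsq)
  rw [ZMod.card] at hc hΛ
  have hinj := emb_inj hp Γ hΓ
  refine ⟨𝓛.map ⟨fun L => L.map (LgoA.emb p Γ), Submodule.map_injective_of_injective hinj⟩, ?_, ?_⟩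
  · rwa [Finset.card_map]
  · intro Λ hm
    obtain ⟨L, hLm, rfl⟩ := Finset.mem_map.1 hm
    obtain ⟨hcard, hiso⟩ := hΛ L hLm
    refine ⟨?_, fun x hx i => ?_, fun x x' hx hx' => ?_⟩
    · rw [← hcard]
      exact (Nat.card_congr (Submodule.equivMapOfInjective _ hinj L).toEquiv).symm
    · obtain ⟨z, y, _, rfl⟩ := decomp p Γ L x hx
      rw [Matrix.mulVec_add, Matrix.mulVec_smul, Pi.add_apply, Pi.smul_apply, smul_eq_mul]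
      exact dvd_add (ker0 hp' Γ A w e hΓ h z i) (Dvd.intro _ rfl)
    · obtain ⟨z, y, hz, rfl⟩ := decomp p Γ L x hx
      obtain ⟨z', y', hz', rfl⟩ := decomp p Γ L x' hx'
      refine iso0 hp' Γ A w e hΓ hA h z z' y y' ?_
      rw [← ZMod.intCast_zmod_eq_zero_iff_dvd]
      push_cast
      exact hiso _ hz _ hz'

end Pool.Agent.MP_a43263_nt.N2
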