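import Pool.Agent.MP_a43263_nt.N2.SpecB

/-! THEOREM N2: rational local generators for one class. -/

set_option autoImplicit false

noncomputable section

namespace Pool.Agent.MP_a43263_nt.N2

open Polynomial Finset Matrix JC Pool.Agent.MP_a43263_nt.UV K2

namespace LocaA

theorem ev_cast (R : Type) [CommRing R] (r : ℤ[X]) (a : ℤ) :
    (zK r R).eval (a : R) = ((r.eval a : ℤ) : R) := by
  simp

/-- approximation with a twist -/
theorem tw (p : ℕ) [Fact p.Prime] (f w : ℤ[X]) (δ : ℚ[X]) (x : ℚ_[p][X]) (r : ℤ_[p][X])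
    (hf : f.Monic) (hw : IsCoprime (zK w ℚ_[p]) (zK f ℚ_[p]))
    (h : zK f ℚ_[p] ∣ fK δ ℚ_[p] * x ^ 2 - iq p r * zK w ℚ_[p])
    (hr : IsCoprime (rq p r) (zK f (ZMod p))) :
    ∃ (x' : ℚ[X]) (r' : ℤ[X]), zK f ℚ ∣ δ * x' ^ 2 - zK (r' * w) ℚ ∧ Nm f (r' * w) ≠ 0 ∧
      IsCoprime (zK r' (ZMod p)) (zK f (ZMod p)) ∧
      ∀ c : ℤ, (p : ℤ) ∣ f.eval c → IsSquare ((rq p r).eval (c : ZMod p)) →
        IsSquare (((r'.eval c : ℤ)) : ZMod p) := by
  have hw' := hw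
  obtain ⟨u, v, huv⟩ := hw'
  have h1 : zK f ℚ_[p] ∣ fK (δ * zK w ℚ) ℚ_[p] * (x * u) ^ 2 - iq p r := by
    rw [show fK (δ * zK w ℚ) ℚ_[p] = fK δ ℚ_[p] * fK (zK w ℚ) ℚ_[p] from Polynomial.map_mul _,
      fK_zK]
    obtain ⟨k, hk⟩ := h
    refine ⟨k * zK w ℚ_[p] * u ^ 2 - iq p r * v * (1 + u * zK w ℚ_[p]), ?_⟩
    linear_combination (zK w ℚ_[p] * u ^ 2) * hk + iq p r * (1 + u * zK w ℚ_[p]) * huv
  obtain ⟨x', r', m, m0, h2, k, hk⟩ := apx p f (δ * zK w ℚ) (x * u) r hf h1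
  rw [sub_eq_iff_eq_add'] at hk
  have hc : IsCoprime (zK r' (ZMod p)) (zK f (ZMod p)) := by
    rw [hk]
    exact ((isCoprime_mul_unit_left_left (isUnit_C.2 (pow_ne_zero 2 m0).isUnit) _ _).2
      hr).add_mul_left_left _
  refine ⟨zK w ℚ * x', r', (h2.mul_left (zK w ℚ)).trans (dvd_of_eq ?_), ?_, hc, fun c h3 h4 => ?_⟩
  · simp only [zK, Polynomial.map_mul]
    ring
  · rw [(gram.1 ℤ f hf).1]
    refine mul_ne_zero (fun e => ?_) fun e => ?_
    · have := ((gram.1 _ _ (hf.map (Int.castRingHom (ZMod p)))).2.2.2.1 _).2 hc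
      rw [(gram.1 ℤ f hf).2.2.2.2.2, e, map_zero] at this
      exact not_isUnit_zero this
    · have := ((gram.1 _ _ (hf.map (Int.castRingHom ℚ_[p]))).2.2.2.1 _).2 hw
      rw [(gram.1 ℤ f hf).2.2.2.2.2, e, map_zero] at this
      exact not_isUnit_zero this
  · have := congrArg (eval (c : ZMod p)) hk
    rw [eval_add, eval_mul, eval_mul, eval_C, ev_cast, ev_cast,
      (ZMod.intCast_zmod_eq_zero_iff_dvd _ _).2 h3, zero_mul, add_zero] at this
    rw [this]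
    exact (IsSquare.sq m).mul h4

end LocaA

theorem loca_n : NGMStmt → LOCAStmt := by
  intro ngm g Q m₀ m₁ a f m δ hS hF h1 hE hG hN
  have hf := hF.zq
  have m0 : m₀ ≠ 0 := hS.sf.ne_zero
  have key : ∀ p : ℕ, ∃ (x : ℚ[X]) (r : ℤ[X]), p.Prime →
      zK f ℚ ∣ δ * x ^ 2 - zK (r * pw p f a ^ (if p ∣ m₁ then 1 else 0)) ℚ ∧
      Nm f (r * pw p f a ^ (if p ∣ m₁ then 1 else 0)) ≠ 0 ∧
      IsCoprime (zK r (ZMod p)) (zK f (ZMod p)) ∧
      (p ∣ m₀ → IsSquare (((r.eval a : ℤ)) : ZMod p)) ∧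
      (p ∈ Q → IsSquare (((r.eval 0 : ℤ)) : ZMod p)) := fun p => by
    by_cases hp : p.Prime
    swap
    · exact ⟨0, 0, fun h => absurd h hp⟩
    have := Fact.mk hp
    by_cases c : p ∣ m₀
    · have p2 : p ≠ 2 := fun e => hS.odd (e ▸ c)
      have hR := hF.rt p hp c
      obtain ⟨x, r, a1, a2, a3⟩ := hG p c
      have ev : (if p ∣ m₁ then (1 : ZMod 2) else 0).val = if p ∣ m₁ then 1 else 0 := by
        split_ifs <;> rfl
      rw [ev, zK, zK, ← Polynomial.map_pow] at a1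
      obtain ⟨x', r', b1, b2, b3, b4⟩ := LocaA.tw p f _ δ x r hf.monic (by
        rw [zK, Polynomial.map_pow]
        exact (ngm p g f a p2 hf hR).1.pow_left) a1 a2
      exact ⟨x', r', fun _ => ⟨b1, b2, b3, fun _ => b4 a hR.1 (a3.2 rfl),
        fun e => absurd c (hS.cop p e)⟩⟩
    · rw [if_neg fun e => c (e.trans h1), pow_zero]
      obtain ⟨x, r, a1, a2, a3⟩ : ∃ (x : ℚ_[p][X]) (r : ℤ_[p][X]),
          zK f ℚ_[p] ∣ fK δ ℚ_[p] * x ^ 2 - iq p r ∧ IsCoprime (rq p r) (zK f (ZMod p)) ∧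
            (p ∈ Q → IsSquare ((rq p r).eval 0)) := by
        by_cases h : p ∈ Q
        · obtain ⟨x, r, a, b, c⟩ := hN p h
          exact ⟨x, r, by simpa using a, b, fun _ => c.2 rfl⟩
        · obtain ⟨x, r, a, b⟩ := hE p c
          exact ⟨x, r, a, b, fun e => absurd e h⟩
      obtain ⟨x', r', b1, b2, b3, b4⟩ := LocaA.tw p f 1 δ x r hf.monic (by
        rw [zK, Polynomial.map_one]
        exact isCoprime_one_left) (by simpa using a1) a2
      refine ⟨x', r', fun _ => ⟨b1, b2, b3, fun e => absurd e c, fun e => b4 0 ?_ ?_⟩⟩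
      · obtain ⟨h', e', -⟩ := (hF.ty p e).2
        rw [← ZMod.intCast_zmod_eq_zero_iff_dvd, ← LocaA.ev_cast, e']
        simp
      · simpa using a3 e
  choose x r h using key
  have h2 := h 2 Nat.prime_two
  rw [if_neg fun e => hS.odd (e.trans h1), pow_zero, mul_one] at h2
  have nm : ∀ (p : ℕ) [Fact p.Prime], ((Nm f (r 2) : ℤ) : ZMod p) ≠ 0 →
      IsCoprime (zK (r 2) (ZMod p)) (zK f (ZMod p)) := fun p _ => by
    rw [← (gram.1 _ _ (hf.mo (ZMod p))).2.2.2.1, (gram.1 _ _ hf.monic).2.2.2.2.2,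
      isUnit_iff_ne_zero, eq_intCast]
    exact id
  obtain ⟨P, hP⟩ : ∃ P, P = Q ∪ m₀.primeFactors ∪ (Nm f (r 2)).natAbs.primeFactors := ⟨_, rfl⟩
  have P0 : 0 ∉ P := by
    rw [hP, mem_union, mem_union, not_or, not_or]
    exact ⟨⟨fun e => Nat.not_prime_zero (hF.ty 0 e).1, fun e =>
      Nat.not_prime_zero (Nat.prime_of_mem_primeFactors e)⟩, fun e =>
      Nat.not_prime_zero (Nat.prime_of_mem_primeFactors e)⟩
  have nd : ∀ p : ℕ, p.Prime → p ∉ P → ¬p ∣ m₀ := fun p hp c e => c (hP ▸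
    mem_union_left _ (mem_union_right _ (Nat.mem_primeFactors.2 ⟨hp, e, m0⟩)))
  refine ⟨fun p => if p ∈ P then x p else x 2, fun p => if p ∈ P then r p else r 2, P,
    fun p hp => ?_, fun p hp => ?_⟩
  · by_cases c : p ∈ P
    · simp only [Rp, if_pos c]
      exact ⟨(h p hp).1, (h p hp).2.1, fun e => absurd c e⟩
    · simp only [Rp, if_neg c, if_neg P0, if_neg fun e => nd p hp c (Dvd.dvd.trans e h1), pow_zero,
        mul_one]
      exact ⟨h2.1, h2.2.1, fun _ => trivial⟩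
  · by_cases c : p ∈ P
    · simp only [if_pos c]
      exact (h p hp).2.2
    · have := Fact.mk hp
      simp only [if_neg c]
      refine ⟨nm p fun e => c ?_, fun e => absurd e (nd p hp c), fun e => absurd ?_ c⟩
      · rw [hP]
        exact mem_union_right _ (Nat.mem_primeFactors.2 ⟨hp, Int.natCast_dvd.1
          ((ZMod.intCast_zmod_eq_zero_iff_dvd _ _).1 e), Int.natAbs_ne_zero.2 h2.2.1⟩)
      · rw [hP]
        exact mem_union_left _ (mem_union_left _ e)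

end Pool.Agent.MP_a43263_nt.N2
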