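import Pool.Agent.MP_a43263_nt.N2.SpecB
import Pool.Agent.MP_a43263_nt.K2.Lat

/-! THEOREM N2, row LOCB: local generators for the second class. -/

set_option autoImplicit false

noncomputable section

namespace Pool.Agent.MP_a43263_nt.N2

open Polynomial Finset Filter Matrix JC Pool.Agent.MP_a43263_nt.UV K2

namespace LocbA

theorem nm_mul {f : ℤ[X]} (hf : f.Monic) (r s : ℤ[X]) : Nm f (r * s) = Nm f r * Nm f s := by
  rw [Gram.nm_eq hf _ natDegree_mul_le, resultant_mul_right _ _ _ _ le_rfl, Nm, Nm]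

theorem nm_nd {f η : ℤ[X]} (hf : f.Monic) {p : ℕ} (hp : p.Prime)
    (h : IsCoprime (zK η (ZMod p)) (zK f (ZMod p))) : ¬(p : ℤ) ∣ Nm f η := by
  have := Fact.mk hp
  intro hd
  have h1 : IsUnit (Nm (zK f (ZMod p)) (zK η (ZMod p))) :=
    (isUnit_resultant_iff_isCoprime (hf.map _)).2 h.symm
  rw [Gram.nm_map hf] at h1
  exact h1.ne_zero ((ZMod.intCast_zmod_eq_zero_iff_dvd _ p).2 hd)

/-- the data of the change of generators at one prime -/
structure Ch (f : ℤ[X]) (p : ℕ) (w : ℚ[X]) (η γ : ℤ[X]) : Prop where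
  sq : zK f ℚ ∣ (1 - X) * w ^ 2 - zK η ℚ
  inv : zK f ℚ ∣ w * zK γ ℚ - zK η ℚ
  co : IsCoprime (zK η (ZMod p)) (zK f (ZMod p))

theorem z1 (R : Type) [CommRing R] : zK (1 - X) R = 1 - X := by
  rw [zK, Polynomial.map_sub, Polynomial.map_one, map_X]

section
variable {f Q a b c : ℤ[X]} {m : ℤ} {p : ℕ} (hp : p.Prime) (hf : f = C m * C m - (1 - X) * Q)
include hf

theorem zf (R : Type) [CommRing R] : zK f R = C (m : R) * C (m : R) - (1 - X) * zK Q R := by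
  conv_lhs => rw [hf]
  simp

include hp

theorem ch_one (h : ¬(p : ℤ) ∣ m) : Ch f p 1 (1 - X) (1 - X) := by
  have := Fact.mk hp
  have hm : (m : ZMod p) ≠ 0 := fun e => h ((ZMod.intCast_zmod_eq_zero_iff_dvd _ p).1 e)
  have hi : C (m : ZMod p)⁻¹ * C (m : ZMod p) = 1 := by rw [← C_mul, inv_mul_cancel₀ hm, C_1]
  refine ⟨by simp, by simp, C (m : ZMod p)⁻¹ ^ 2 * zK Q (ZMod p), C (m : ZMod p)⁻¹ ^ 2, ?_⟩
  rw [z1, zf hf]
  linear_combination (C (m : ZMod p)⁻¹ * C (m : ZMod p) + 1) * hi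

theorem ch_two (hm : m ≠ 0) (hu : a * (1 - X) + b * C m + c * Q = 1) (h : (p : ℤ) ∣ m) :
    Ch f p (1 + C (m : ℚ)⁻¹ * zK Q ℚ) (1 - X + 2 * C m + Q) (1 - X + C m) := by
  have := Fact.mk hp
  have hm' : (m : ℚ) ≠ 0 := by exact_mod_cast hm
  have hi : C (m : ℚ)⁻¹ * C (m : ℚ) = 1 := by rw [← C_mul, inv_mul_cancel₀ hm', C_1]
  have h0 : (m : ZMod p) = 0 := (ZMod.intCast_zmod_eq_zero_iff_dvd _ p).2 h
  have e1 : ∀ (R : Type) [CommRing R], zK (1 - X + 2 * C m + Q) R =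
      1 - X + 2 * C (m : R) + zK Q R := fun R _ => by simp [zK]
  have e2 : zK (1 - X + C m) ℚ = 1 - X + C (m : ℚ) := by simp [zK]
  refine ⟨⟨-(2 * C (m : ℚ)⁻¹ + C (m : ℚ)⁻¹ ^ 2 * zK Q ℚ), ?_⟩, ⟨-C (m : ℚ)⁻¹, ?_⟩, ?_⟩
  · rw [e1, zf hf]
    linear_combination (2 * C (m : ℚ) + (C (m : ℚ)⁻¹ * C (m : ℚ) + 1) * zK Q ℚ) * hi
  · rw [e1, e2, zf hf]
    linear_combination (C (m : ℚ) + zK Q ℚ) * hi
  · have hV : zK a (ZMod p) * (1 - X) + zK b (ZMod p) * C (m : ZMod p) +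
        zK c (ZMod p) * zK Q (ZMod p) = 1 := by
      simpa using congrArg (fun P : ℤ[X] => zK P (ZMod p)) hu
    rw [h0, C_0, mul_zero, add_zero] at hV
    rw [e1, zf hf, h0, C_0, mul_zero, mul_zero, add_zero, zero_sub]
    refine IsCoprime.neg_right (IsCoprime.mul_right
      ⟨zK c (ZMod p), zK a (ZMod p) - zK c (ZMod p), ?_⟩
      ⟨zK a (ZMod p), zK c (ZMod p) - zK a (ZMod p), ?_⟩)
    · linear_combination hV
    · linear_combination hV

end

end LocbA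

open LocbA in
theorem locb_n : LOCBStmt := by
  intro g Q m₀ m₁ a f m δ x r P hS hF _ hG hr
  have hm := LatA.m_ne hF.zq hF.ev
  obtain ⟨q, a', b, c, hf, hu⟩ := LatA.decomp hF.ev hF.co
  have hmem : ∀ p : ℕ, p.Prime → (p ∈ m.natAbs.primeFactors ↔ (p : ℤ) ∣ m) := fun p hp => by
    rw [Nat.mem_primeFactors, Int.natCast_dvd]
    exact ⟨fun h => h.2.1, fun h => ⟨hp, h, Int.natAbs_ne_zero.2 hm⟩⟩
  obtain ⟨w, η, γ, h1, h2⟩ : ∃ (w : ℕ → ℚ[X]) (η γ : ℕ → ℤ[X]),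
      (∀ p : ℕ, p.Prime → Ch f p (w p) (η p) (γ p)) ∧
      ∀ p, p ∉ m.natAbs.primeFactors → w p = 1 ∧ η p = 1 - X := by
    refine ⟨fun p => if p ∈ m.natAbs.primeFactors then 1 + C (m : ℚ)⁻¹ * zK q ℚ else 1,
      fun p => if p ∈ m.natAbs.primeFactors then 1 - X + 2 * C m + q else 1 - X,
      fun p => if p ∈ m.natAbs.primeFactors then 1 - X + C m else 1 - X,
      fun p hp => ?_, fun p hp => ⟨if_neg hp, if_neg hp⟩⟩
    by_cases h : p ∈ m.natAbs.primeFactors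
    · simp only [if_pos h]
      exact ch_two hp hf hm hu ((hmem p hp).1 h)
    · simp only [if_neg h]
      exact ch_one hp hf fun e => h ((hmem p hp).2 e)
  have hR : ∀ p, Rp m₁ f a (fun p => r p * η p) p = Rp m₁ f a r p * η p := fun p => by
    simp only [Rp]
    ring
  refine ⟨fun p => x p * w p, fun p => r p * η p, P ∪ m.natAbs.primeFactors,
    fun p hp => ⟨?_, ?_, fun h => ?_⟩, fun y hy p hp => ?_, fun p hp => ⟨?_, fun h => ?_⟩⟩
  · have := ((h1 p hp).sq.mul_left (δ * x p ^ 2)).add ((hG p hp).1.mul_left (zK (η p) ℚ))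
    rw [hR, zK, zK, Polynomial.map_mul]
    refine (congrArg _ ?_).mp this
    ring
  · rw [hR, nm_mul hF.zq.monic]
    exact mul_ne_zero (hG p hp).2.1 fun e =>
      nm_nd hF.zq.monic hp (h1 p hp).co (e ▸ dvd_zero _)
  · rw [mem_union, not_or] at h
    show x p * w p = x 0 * w 0
    rw [(hG p hp).2.2 h.1, (h2 p h.2).1, (h2 0 (by simp)).1]
  · obtain ⟨t, s, ht, hs⟩ := hy p hp
    obtain ⟨k, e, -, -, hk⟩ := exists_mul_add_mul_eq_C_resultant f (η p) le_rfl le_rfl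
      (Or.inl (by rw [hF.zq.deg]; omega))
    have hk' : zK f ℚ * zK k ℚ + zK (η p) ℚ * zK e ℚ = C ((Nm f (η p) : ℤ) : ℚ) := by
      simpa [Nm] using congrArg (fun P : ℤ[X] => zK P ℚ) hk
    refine ⟨t * Nm f (η p), γ p * e * s, fun hd => ?_, ?_⟩
    · exact ((Nat.prime_iff_prime_int.1 hp).dvd_or_dvd hd).elim ht
        (nm_nd hF.zq.monic hp (h1 p hp).co)
    · have := ((hs.mul_left (C ((Nm f (η p) : ℤ) : ℚ))).add
        (dvd_mul_right (zK f ℚ) (zK k ℚ * x p * zK s ℚ))).sub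
        ((h1 p hp).inv.mul_left (x p * zK e ℚ * zK s ℚ))
      refine (congrArg _ ?_).mp this
      simp only [zK, Polynomial.map_mul, Int.cast_mul, C_mul] at hk' ⊢
      linear_combination (x p * s.map (Int.castRingHom ℚ)) * hk'
  · rw [zK, Polynomial.map_mul]
    exact (hr p hp).1.mul_left (h1 p hp).co
  · have hn : p ∉ m.natAbs.primeFactors := fun e =>
      (Nat.prime_iff_prime_int.1 hp).not_isUnit
        (hF.cm.isUnit_of_dvd' ((hmem p hp).1 e) (Int.natCast_dvd_natCast.2 h))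
    show IsSquare ((((r p * η p).eval a : ℤ)) : ZMod p)
    rw [(h2 p hn).2, eval_mul, Int.cast_mul]
    refine ((hr p hp).2 h).mul ?_
    simpa using (hS.sq p hp h).1

end Pool.Agent.MP_a43263_nt.N2

end
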