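import Pool.Agent.MP_a43263_nt.N2.SpecB

/-! THEOREM N2, row LOCG: the Hasse symbol of a class ramified at a simple root. -/

set_option autoImplicit false

noncomputable section

namespace Pool.Agent.MP_a43263_nt.N2

open Polynomial Finset Filter Matrix JC Pool.Agent.MP_a43263_nt.UV K2

namespace LocgA

theorem Hs_const {A : Type} (σ : ℤ) : ∀ (n : ℕ) (t : Fin n → A),
    Hs (fun _ _ => σ) t = σ ^ n.choose 2
  | 0, t => by simp [Hs]
  | n + 1, t => by
    have h := Hs_const σ n (Fin.tail t)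
    rw [← Fin.cons_self_tail t, Locq.Hs_cons, h, prod_const, card_univ, Fintype.card_fin,
      Nat.choose_succ_succ' n 1, Nat.choose_one_right, pow_add]

theorem pow_choose {σ : ℤ} (h : σ * σ = 1) : ∀ g : ℕ, σ ^ (2 * g).choose 2 = σ ^ g
  | 0 => by simp
  | g + 1 => by
    have e : (2 * (g + 1)).choose 2 = 2 * (2 * g) + 1 + (2 * g).choose 2 := by
      rw [show 2 * (g + 1) = 2 * g + 1 + 1 by ring, Nat.choose_succ_succ' _ 1,
        Nat.choose_succ_succ' _ 1, Nat.choose_one_right, Nat.choose_one_right]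
      ring
    rw [e, pow_add, pow_choose h g, pow_succ, pow_mul, sq, h, one_pow, pow_succ]
    ring

end LocgA

open Locq in
theorem locg_n : NGMStmt → SHZStmt → LOCGStmt := by
  rintro - shz p _ g f a δ s e u hp hf ht hs he hsq ⟨x, r, h1, h2, h3⟩
  obtain ⟨w, e1, P, -, hw, w2, w1, -, w3, -⟩ := shz p g f a r hp hf ht h2
  have p0 : (p : ℚ_[p]) ≠ 0 := Nat.cast_ne_zero.2 (Fact.out : p.Prime).ne_zero
  have w0 := coe_ne hw
  have e0 : ∀ i, (e1 i : ℚ_[p]) ≠ 0 := fun i => coe_ne (w2 i)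
  have h1' : zK f ℚ_[p] ∣ δ * x ^ 2 - iq p (r * zK (pw p f a) ℤ_[p]) := by
    rw [iq, Polynomial.map_mul, zK_map]
    simpa [ZMod.val_one] using h1
  set E : Fin (2 * g + 1) → ℚ_[p] := Fin.cons (w : ℚ_[p]) fun i => p * (e1 i : ℚ_[p]) with hE
  have E0 : ∀ i, E i ≠ 0 := fun i => Fin.cases w0 (fun i => mul_ne_zero p0 (e0 i)) i
  have w4 : (P.map PadicInt.Coe.ringHom)ᵀ *
      Gm g (zK f ℚ_[p]) (iq p (r * zK (pw p f a) ℤ_[p])) *
      P.map PadicInt.Coe.ringHom = diagonal E := by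
    rw [Gm_iq hf, ← transpose_map, ← Matrix.map_mul, ← Matrix.map_mul, w3,
      diagonal_map (map_zero _)]
    congr 1
    funext i
    refine Fin.cases rfl (fun i => ?_) i
    rw [Fin.cons_succ, map_mul, map_natCast]
    rfl
  have w5 := congrArg det w4
  rw [det_mul, det_mul, det_transpose, det_diagonal] at w5
  have w6 : ∏ i, E i ≠ 0 := prod_ne_zero_iff.2 fun i _ => E0 i
  rw [← w5] at w6
  have h5 := move UV.gram hf h1' (right_ne_zero_of_mul (left_ne_zero_of_mul w6))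
    ⟨_, IsUnit.mk0 _ (right_ne_zero_of_mul w6), w4⟩
  rw [← (UV.hinv _ s hs.1).1 _ _ _ _ h5 he E0]
  obtain ⟨pu, pp⟩ := (UV.pad.1 p hp).2 s hs
  have S := hs.1
  have m0 : (-1 : ℚ_[p]) ≠ 0 := neg_ne_zero.2 one_ne_zero
  have mr : ∀ x y y' : ℚ_[p], x ≠ 0 → y ≠ 0 → y' ≠ 0 → s x (y * y') = s x y * s x y' :=
    fun x y y' a b c => by rw [S.comm, S.mul _ _ _ b c a, S.comm y, S.comm y']
  have sq1 : ∀ x y : ℚ_[p], x ≠ 0 → y ≠ 0 → s x y * s x y = 1 := fun x y a b => by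
    rcases S.pm x y a b with c | c <;> simp [c]
  have spp : s p p = s p (-1) := by
    have c : s p (-1 * p) = 1 :=
      S.con _ _ p0 (mul_ne_zero m0 p0) ⟨1, 1, 0, by simp, by ring⟩
    rw [mr _ _ _ p0 m0 p0] at c
    linear_combination s p (-1) * c - s p p * sq1 _ _ p0 m0
  have s1 : s p 1 = 1 := by simpa using (pp 1 isUnit_one).2 (by simp)
  have spr : ∀ T : Finset (Fin (2 * g)), s p (∏ i ∈ T, (e1 i : ℚ_[p])) = ∏ i ∈ T, s p (e1 i) := by
    intro T
    induction T using Finset.induction_on with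
    | empty => simpa using s1
    | insert i T hi ih =>
      rw [prod_insert hi, prod_insert hi, mr _ _ _ p0 (e0 i) (prod_ne_zero_iff.2 fun i _ => e0 i),
        ih]
  have spw : ∀ k : ℕ, s p ((-1) ^ k) = s p (-1) ^ k := by
    intro k
    induction k with
    | zero => simpa using s1
    | succ k ih => rw [pow_succ, pow_succ, mr _ _ _ p0 (pow_ne_zero _ m0) m0, ih]
  have pr0 : ∏ i, (e1 i : ℚ_[p]) ≠ 0 := prod_ne_zero_iff.2 fun i _ => e0 i
  have t1 : ∏ i, s w (p * (e1 i : ℚ_[p])) = 1 := by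
    rw [prod_congr rfl fun i _ => show s w (p * (e1 i : ℚ_[p])) = s w p by
      rw [mr _ _ _ w0 p0 (e0 i), pu _ _ hw (w2 i), mul_one], prod_const, card_univ,
      Fintype.card_fin, pow_mul, sq, sq1 _ _ w0 p0, one_pow]
  have t2 : Hs s (fun i => p * (e1 i : ℚ_[p])) =
      s p (-1) ^ g * Hs (· * ·) fun i => s p (e1 i) := by
    rw [← LocgA.pow_choose (sq1 _ _ p0 m0), ← LocgA.Hs_const _ _ e1, Hs, Hs, Hs,
      ← prod_mul_distrib]
    refine prod_congr rfl fun i _ => ?_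
    rw [← prod_mul_distrib]
    refine prod_congr rfl fun k _ => ?_
    rw [S.mul _ _ _ p0 (e0 i) (mul_ne_zero p0 (e0 k)), mr _ _ _ p0 p0 (e0 k),
      mr _ _ _ (e0 i) p0 (e0 k), spp, pu _ _ (w2 i) (w2 k), S.comm (e1 i)]
    ring
  have t3 := Hs_mul _ fun i => s p (e1 i)
  rw [← spr, pow_mul, sq, sq1 _ _ p0 pr0, one_pow] at t3
  obtain ⟨c, -, hc⟩ := h5.det
  obtain ⟨n, hn⟩ := hsq
  rw [(UV.gram.2 _ g _ (hf.sq ℚ_[p])).1, hn, hE, Fin.prod_univ_succ] at hc
  simp only [Fin.cons_zero, Fin.cons_succ, prod_mul_distrib, prod_const, card_univ,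
    Fintype.card_fin] at hc
  have t4 : (w : ℚ_[p]) * ∏ i, (e1 i : ℚ_[p]) =
      (-1) ^ g * (c * n / p ^ g * (c * n / p ^ g)) := by
    rw [pow_mul', sq] at hc
    field_simp
    linear_combination hc
  have t5 : s p w * s p (∏ i, (e1 i : ℚ_[p])) = s p (-1) ^ g := by
    have z0 : c * n / p ^ g ≠ 0 :=
      left_ne_zero_of_mul (right_ne_zero_of_mul (t4 ▸ mul_ne_zero w0 pr0))
    rw [← mr _ _ _ p0 w0 pr0, t4, mr _ _ _ p0 (pow_ne_zero _ m0) (mul_ne_zero z0 z0),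
      mr _ _ _ p0 z0 z0, sq1 _ _ p0 z0, spw, mul_one]
  have t6 : Hs s E = s p w := by
    rw [hE, Hs_cons, t1, one_mul, t2, ← t5]
    linear_combination s p w * t3
  rw [t6, pp w hw, w1, h3]

end Pool.Agent.MP_a43263_nt.N2
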