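import Pool.Agent.MP_a43263_nt.N2.SpecB

/-! THEOREM N2, row LOP: the condition at the ramified primes holds. -/

set_option autoImplicit false

noncomputable section

namespace Pool.Agent.MP_a43263_nt.N2

open Polynomial Finset Filter Matrix JC Pool.Agent.MP_a43263_nt.UV K2

namespace LopA

variable {g : ℕ}

theorem ex_smul {c : ℤ} {v : Vz g} (h : ∀ i, c ∣ v i) : ∃ y : Vz g, v = c • y := by
  choose y hy using h
  exact ⟨y, funext hy⟩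

theorem rd_mul (p : ℕ) (R : Mat g ℤ) (x : Vz g) : rd p (R *ᵥ x) = mK R (ZMod p) *ᵥ rd p x := by
  ext i; simp [rd, mulVec, dotProduct]

theorem rd_surj (p : ℕ) (v : Fin (2 * g + 1) → ZMod p) : ∃ x : Vz g, rd p x = v := by
  choose x hx using fun i => ZMod.intCast_surjective (v i)
  exact ⟨x, funext hx⟩

theorem tdot (R : Mat g ℤ) (x v : Vz g) : x ⬝ᵥ Rᵀ *ᵥ v = (R *ᵥ x) ⬝ᵥ v := by
  rw [dotProduct_mulVec, vecMul_transpose]

theorem cancel {c : ℤ} (hc : c ≠ 0) {X Y : Mat g ℤ} (h : c • X = c • Y) : X = Y :=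
  smul_right_injective _ hc h

/-- one overlattice -/
theorem one (hF : OVFStmt) {m₁ p : ℕ} {k : ℤ} {A R B : Mat g ℤ} {Λ : ∀ p : ℕ, Sub g p}
    (hs : Squarefree m₁) (hA : A.IsSymm) (hO : Ov m₁ A Λ R B) (hp : p.Prime) (hd : p ∣ m₁)
    (hk : (m₁ : ℤ) = p * k) (hc : IsCoprime (p : ℤ) k) (hL : Lk p A) :
    ∃ (Z : Mat g ℤ) (M : Sub g p), A * R = (m₁ : ℤ) • Z ∧ Is1 p B M ∧
      (∀ x, Pp p B M x → ∃ y, R *ᵥ x = (p : ℤ) • y) ∧
      ∀ x, rd p x ∈ M → ∃ y, Z *ᵥ x = (p : ℤ) • y := by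
  have : Fact p.Prime := ⟨hp⟩
  obtain ⟨-, -, ⟨R₁, h1⟩, h2, h3⟩ := hF g m₁ A R B Λ hs hA hO
  have m0 : (m₁ : ℤ) ≠ 0 := by exact_mod_cast hs.ne_zero
  have p0 : (p : ℤ) ≠ 0 := by exact_mod_cast hp.ne_zero
  choose z hz using h2
  obtain ⟨Z, hZ⟩ : ∃ Z : Mat g ℤ, A * R = (m₁ : ℤ) • Z := ⟨Matrix.of z, by ext i j; exact hz i j⟩
  have e1 : Rᵀ * Z = (m₁ : ℤ) • B := cancel m0 (by
    rw [← Matrix.mul_smul, ← hZ, ← Matrix.mul_assoc, hO.eq, smul_smul, sq])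
  have e2 : R₁ᵀ * Rᵀ = (m₁ : ℤ) • 1 := by
    rw [← transpose_mul, h1, transpose_smul, transpose_one]
  have e3 : Z = R₁ᵀ * B := cancel m0 (by
    rw [← Matrix.mul_smul, ← e1, ← Matrix.mul_assoc, e2, Matrix.smul_mul, Matrix.one_mul])
  have e4 : B * B⁻¹ = 1 := mul_nonsing_inv B hO.un
  have key : ∀ x, rd p x ∈ LinearMap.range (mK (B⁻¹ * Rᵀ) (ZMod p)).mulVecLin →
      ∃ y, Z *ᵥ x = (p : ℤ) • y := by
    rintro x ⟨v, hv⟩
    obtain ⟨u, rfl⟩ := rd_surj p v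
    refine ex_smul fun i => (ZMod.intCast_zmod_eq_zero_iff_dvd _ _).1 ?_
    have e : rd p (Z *ᵥ x) = rd p ((m₁ : ℤ) • u) := by
      rw [rd_mul, ← hv, mulVecLin_apply, ← rd_mul, ← rd_mul, mulVec_mulVec, e3, Matrix.mul_assoc,
        ← Matrix.mul_assoc B, e4, Matrix.one_mul, e2, smul_mulVec, one_mulVec]
    have := congrFun e i
    simp only [rd, hk, Pi.smul_apply, smul_eq_mul] at this
    rw [this]; simp
  refine ⟨Z, LinearMap.range (mK (B⁻¹ * Rᵀ) (ZMod p)).mulVecLin, hZ, ⟨?_, fun x y hx hy => ?_⟩,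
    fun x hx => ex_smul fun i => ?_, key⟩
  · have r1 : LinearMap.range (mK R (ZMod p)).mulVecLin = Λ p := by
      ext x
      rw [h3 p hp hd x]
      refine ⟨?_, ?_⟩
      · rintro ⟨v, rfl⟩
        obtain ⟨u, rfl⟩ := rd_surj p v
        exact ⟨u, rd_mul p R u⟩
      · rintro ⟨u, rfl⟩
        exact ⟨_, (rd_mul p R u).symm⟩
    have u1 : IsUnit (mK B⁻¹ (ZMod p)).det := by
      have := (isUnit_nonsing_inv_det B hO.un).map (Int.castRingHom (ZMod p))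
      rwa [RingHom.map_det] at this
    have r2 : (mK (B⁻¹ * Rᵀ) (ZMod p)).rank = (mK R (ZMod p)).rank := by
      rw [mK, Matrix.map_mul, rank_mul_eq_right_of_isUnit_det _ _ u1, transpose_map,
        rank_transpose]
    rw [← (hO.lg p hp hd).card, ← r1]
    exact Nat.card_congr (LinearEquiv.ofFinrankEq _ _ r2).toEquiv
  · obtain ⟨x', hx'⟩ := key x hx
    obtain ⟨y', hy'⟩ := key y hy
    obtain ⟨u, hu⟩ := ex_smul (hL.ker (R *ᵥ x) fun i => by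
      rw [mulVec_mulVec, hZ, smul_mulVec, hx', hk]
      exact ⟨k * x' i, by simp only [Pi.smul_apply, smul_eq_mul]; ring⟩)
    have e : (m₁ : ℤ) * (x ⬝ᵥ B *ᵥ y) = p * (p * (u ⬝ᵥ y')) := by
      rw [← smul_eq_mul, ← dotProduct_smul, ← smul_mulVec, ← e1, ← mulVec_mulVec, tdot, hu, hy',
        smul_dotProduct, dotProduct_smul, smul_eq_mul, smul_eq_mul]
    rw [hk, mul_assoc] at e
    exact hc.dvd_of_dvd_mul_left ⟨_, mul_left_cancel₀ p0 e⟩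
  · have := hx ((B⁻¹ * Rᵀ) *ᵥ Pi.single i 1) ⟨_, (rd_mul p _ _).symm⟩
    rwa [mulVec_mulVec, ← Matrix.mul_assoc, e4, Matrix.one_mul, tdot, dotProduct_single,
      mul_one] at this

theorem quad {m₁ p k : ℤ} {A R B : Mat g ℤ} (p0 : p ≠ 0) (hk : m₁ = p * k)
    (h : Rᵀ * A * R = (m₁ ^ 2) • B) {x y : Vz g} (e : R *ᵥ x = p • y) :
    k ^ 2 * (x ⬝ᵥ B *ᵥ x) = y ⬝ᵥ A *ᵥ y := by
  have e1 : m₁ ^ 2 * (x ⬝ᵥ B *ᵥ x) = p * (p * (y ⬝ᵥ A *ᵥ y)) := by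
    rw [← smul_eq_mul, ← dotProduct_smul, ← smul_mulVec, ← h, ← mulVec_mulVec, ← mulVec_mulVec,
      tdot, e, mulVec_smul, smul_dotProduct, dotProduct_smul, smul_eq_mul, smul_eq_mul]
  refine mul_left_cancel₀ p0 (mul_left_cancel₀ p0 ?_)
  rw [← e1, hk]; ring

end LopA

open LopA in
theorem lop_n : OVFStmt → LOPStmt := by
  intro hF g Q m₀ m₁ a f m A A' M T R R' B B' N Λ Λ' p hS hf hm hP hO hO' hT hp hd hL hL'
  have hs : Squarefree m₁ := hS.sf.squarefree_of_dvd hm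
  have m0 : (m₁ : ℤ) ≠ 0 := by exact_mod_cast hs.ne_zero
  have p0 : (p : ℤ) ≠ 0 := by exact_mod_cast hp.ne_zero
  have pp : Prime (p : ℤ) := Nat.prime_iff_prime_int.1 hp
  obtain ⟨k, hk0⟩ : ∃ k : ℤ, k = ((m₁ / p : ℕ) : ℤ) := ⟨_, rfl⟩
  have hk : (m₁ : ℤ) = p * k := by rw [hk0]; exact_mod_cast (Nat.mul_div_cancel' hd).symm
  have hc : IsCoprime (p : ℤ) k := pp.irreducible.coprime_iff_not_dvd.2 fun ⟨j, hj⟩ =>
    hp.not_isUnit (hs p (by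
      have : ((p * p : ℕ) : ℤ) ∣ m₁ := ⟨j, by rw [hk, hj]; push_cast; ring⟩
      exact_mod_cast this))
  rw [← hk0]
  obtain ⟨Z, M₀, hZ, i1, a1, b1⟩ := one hF hs hP.sa hO hp hd hk hc hL
  obtain ⟨Z', M₀', hZ', i2, a2, b2⟩ := one hF hs hP.sa' hO' hp hd hk hc hL'
  obtain ⟨ε, hε, hN⟩ := hT.eq
  have hM : IsCoprime (p : ℤ) M.det := pp.irreducible.coprime_iff_not_dvd.2 fun hdv => by
    have e := congrArg Matrix.det hP.rel
    have e1 : (1 - T).det = m ^ 2 := by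
      rw [← hf.ev, ← hP.ch, eval_charpoly, map_one]
    rw [det_mul, det_mul, det_mul, det_transpose, e1] at e
    have e2 := congrArg Int.natAbs e
    rw [Int.natAbs_mul, Int.natAbs_mul, Int.natAbs_mul, hP.dA, hP.dA', Int.natAbs_pow,
      mul_right_comm, mul_comm] at e2
    have e3 := mul_left_cancel₀ (pow_ne_zero _ hs.ne_zero) e2
    have h1 : p ∣ m.natAbs := hp.dvd_of_dvd_pow
      (e3 ▸ (Int.natCast_dvd.1 hdv).mul_right _)
    exact pp.not_isUnit (hf.cm.isUnit_of_dvd' (Int.natCast_dvd.2 h1)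
      (by exact_mod_cast hd.trans hm))
  have n1 : N = ε • (Z'ᵀ * M * R) := cancel m0 (by
    have : R'ᵀ * A' = (m₁ : ℤ) • Z'ᵀ := by
      rw [← transpose_smul, ← hZ', transpose_mul, hP.sa'.eq]
    rw [hN, this, Matrix.smul_mul, Matrix.smul_mul, smul_comm])
  have t1 : A * (1 - T) = (1 - T)ᵀ * A := by
    have := hP.st.eq
    rw [transpose_mul, hP.sa.eq] at this
    rw [Matrix.mul_sub, transpose_sub, Matrix.sub_mul, this, transpose_one, Matrix.mul_one,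
      Matrix.one_mul]
  have n2 : M.det • N = ε • (R'ᵀ * (adjugate Mᵀ * (1 - T)ᵀ) * Z) := cancel m0 (by
    have e : M.det • (A' * M) = adjugate Mᵀ * (1 - T)ᵀ * A := by
      rw [Matrix.mul_assoc, ← t1, ← hP.rel, Matrix.mul_assoc Mᵀ, ← Matrix.mul_assoc (adjugate _),
        adjugate_mul, det_transpose, Matrix.smul_mul, Matrix.one_mul]
    rw [smul_comm, hN, smul_comm, smul_comm (m₁ : ℤ), ← Matrix.mul_smul _ (m₁ : ℤ), ← hZ,
      Matrix.mul_assoc R'ᵀ A', ← Matrix.smul_mul, ← Matrix.mul_smul R'ᵀ, e]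
    simp only [Matrix.mul_assoc])
  have v1 : ∀ x x' : Vz g, x' ⬝ᵥ N *ᵥ x = ε * ((Z' *ᵥ x') ⬝ᵥ M *ᵥ R *ᵥ x) := fun x x' => by
    rw [n1, smul_mulVec, dotProduct_smul, ← mulVec_mulVec, ← mulVec_mulVec, tdot, smul_eq_mul]
  have v2 : ∀ x x' : Vz g, M.det * (x' ⬝ᵥ N *ᵥ x) =
      ε * ((R' *ᵥ x') ⬝ᵥ (adjugate Mᵀ * (1 - T)ᵀ) *ᵥ Z *ᵥ x) := fun x x' => by
    rw [← smul_eq_mul, ← dotProduct_smul, ← smul_mulVec, n2, smul_mulVec, dotProduct_smul,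
      ← mulVec_mulVec, ← mulVec_mulVec, tdot, smul_eq_mul]
  refine ⟨M₀, M₀', i1, i2, fun x x' => ⟨fun h => ?_, fun h => ?_, fun h h' => ?_, fun h h' => ?_,
    fun h h' => ?_⟩⟩
  · obtain ⟨y, hy⟩ := a1 x h
    rw [v1, hy, mulVec_smul, dotProduct_smul, smul_eq_mul]
    exact (dvd_mul_right _ _).mul_left _
  · obtain ⟨y, hy⟩ := a2 x' h
    refine hM.dvd_of_dvd_mul_left ?_
    rw [v2, hy, smul_dotProduct, smul_eq_mul]
    exact (dvd_mul_right _ _).mul_left _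
  · obtain ⟨y, hy⟩ := b1 x h
    obtain ⟨y', hy'⟩ := a2 x' h'
    refine (hM.pow_left (m := 2)).dvd_of_dvd_mul_left ?_
    rw [v2, hy, hy', mulVec_smul, smul_dotProduct, dotProduct_smul, smul_smul, smul_eq_mul, sq]
    exact (dvd_mul_right _ _).mul_left _
  · obtain ⟨y, hy⟩ := a1 x h
    obtain ⟨y', hy'⟩ := b2 x' h'
    rw [v1, hy, hy', mulVec_smul, smul_dotProduct, dotProduct_smul, smul_smul, smul_eq_mul, sq]
    exact (dvd_mul_right _ _).mul_left _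
  · obtain ⟨y, hy⟩ := a1 x h
    obtain ⟨y', hy'⟩ := a2 x' h'
    have q1 := quad p0 hk hO.eq hy
    have q2 := quad p0 hk hO'.eq hy'
    have q3 : k * (x' ⬝ᵥ N *ᵥ x) = ε * (p * (y' ⬝ᵥ A' *ᵥ M *ᵥ y)) := by
      refine mul_left_cancel₀ p0 ?_
      rw [← mul_assoc, ← hk, ← smul_eq_mul, ← dotProduct_smul, ← smul_mulVec, hN, smul_mulVec,
        dotProduct_smul, ← mulVec_mulVec, ← mulVec_mulVec, ← mulVec_mulVec, tdot, hy, hy',
        mulVec_smul, mulVec_smul, smul_dotProduct, dotProduct_smul]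
      simp only [smul_eq_mul]; ring
    obtain ⟨c1, q4⟩ := hL'.rk y' (M *ᵥ y)
    obtain ⟨c2, q5⟩ : (p : ℤ) ∣ y ⬝ᵥ (A * T - a • A) *ᵥ y :=
      Finset.dvd_sum fun i _ => Dvd.dvd.mul_left (b := ∑ j, (A * T - a • A) i j * y j)
        (Finset.dvd_sum fun j _ => ((hP.hy p hp hd).2.2 i j).mul_right _) _
    have q6 : (M *ᵥ y) ⬝ᵥ A' *ᵥ M *ᵥ y = y ⬝ᵥ A *ᵥ y - y ⬝ᵥ (A * T) *ᵥ y := by
      rw [← tdot, mulVec_mulVec, mulVec_mulVec, hP.rel, Matrix.mul_sub, Matrix.mul_one, sub_mulVec,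
        dotProduct_sub]
    rw [sub_mulVec, dotProduct_sub, smul_mulVec, dotProduct_smul, smul_eq_mul] at q5
    rw [q6] at q4
    refine (hc.pow (m := 3) (n := 2)).dvd_of_dvd_mul_left ⟨c1 - (y' ⬝ᵥ A' *ᵥ y') * c2, ?_⟩
    have q7 : (k * (x' ⬝ᵥ N *ᵥ x)) ^ 2 = p ^ 2 * (y' ⬝ᵥ A' *ᵥ M *ᵥ y) ^ 2 := by
      rw [q3, mul_pow, sq ε, hε]; ring
    rw [← q2] at q4 ⊢
    rw [← q1] at q4 q5
    linear_combination q7 + (p : ℤ) ^ 2 * q4 - (p : ℤ) ^ 2 * (k ^ 2 * (x' ⬝ᵥ B' *ᵥ x')) * q5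

end Pool.Agent.MP_a43263_nt.N2
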