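import Pool.Agent.MP_a43263_nt.N2.SpecD
import Pool.Agent.MP_a43263_nt.K2.Low

/-! THEOREM N2, row Low: the sieve at the small primes. -/

set_option autoImplicit false

noncomputable section

namespace Pool.Agent.MP_a43263_nt.N2

open Polynomial Finset Filter Matrix JC Pool.Agent.MP_a43263_nt.UV K2 Topology

namespace LowA

theorem prod_one (g : ℕ) (hg : 1 ≤ g) (a : ℝ) :
    ∏ i : Fin (2 * g + 1), (if i.1 + 1 = 2 * g then a else 1) = a := by
  rw [Finset.prod_eq_single (⟨2 * g - 1, by omega⟩ : Fin (2 * g + 1))]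
  · rw [if_pos (by simp only; omega)]
  · intro b _ hb
    rw [if_neg]
    intro h
    apply hb
    ext
    simp only
    omega
  · simp

/-- the main term of one coordinate -/
def D (g k M m : ℕ) (i : Fin (2 * g + 1)) : ℝ :=
  (k : ℝ) ^ xp g i.1 / (M * if i.1 + 1 = 2 * g then (m : ℝ) else 1)

theorem D_nonneg (g k M m : ℕ) (i : Fin (2 * g + 1)) : 0 ≤ D g k M m i := by
  unfold D
  split_ifs <;> positivity

theorem prod_D (g k M m : ℕ) (hg : 1 ≤ g) :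
    ∏ i, D g k M m i = vol g k / ((M : ℝ) ^ (2 * g + 1) * m) := by
  unfold D
  rw [prod_div_distrib, prod_pow_eq_pow_sum, K2.LowA.sum_xp, vol, prod_mul_distrib, prod_one g hg]
  simp

theorem pb_eq (g k M m : ℕ) (s : ℝ) : pb g k M m s = ∏ i, (2 * D g k M m i + s) := by
  unfold pb D
  refine prod_congr rfl fun i _ => ?_
  rw [mul_div_assoc]

theorem D_ge (g k M m : ℕ) (hk : 1 ≤ k) (hM : 0 < M) (hm : 0 < m) (h : m ^ 2 ≤ k)
    (i : Fin (2 * g + 1)) (hg : 1 ≤ g) : 5 * (k : ℝ) ≤ D g k M m i * (5 * M / √(k : ℝ)) := by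
  have hk1 : (1 : ℝ) ≤ k := by exact_mod_cast hk
  have hM1 : (0 : ℝ) < M := by exact_mod_cast hM
  have hm1 : (1 : ℝ) ≤ m := by exact_mod_cast hm
  have hs : 0 < √(k : ℝ) := Real.sqrt_pos.2 (by linarith)
  have h1 : (m : ℝ) ≤ √(k : ℝ) := Real.le_sqrt_of_sq_le (by exact_mod_cast h)
  have h2 : (k : ℝ) ^ 2 ≤ (k : ℝ) ^ xp g i.1 :=
    pow_le_pow_right₀ hk1 (by unfold xp; split_ifs <;> omega)
  have h3 : √(k : ℝ) * √(k : ℝ) = k := Real.mul_self_sqrt (by linarith)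
  obtain ⟨a, ha, ha1, ha2⟩ : ∃ a : ℝ, a = (if i.1 + 1 = 2 * g then (m : ℝ) else 1) ∧ 0 < a ∧
      a ≤ √(k : ℝ) := ⟨_, rfl, by split_ifs <;> linarith, by split_ifs <;> linarith⟩
  unfold D
  rw [← ha]
  have e : (k : ℝ) ^ xp g i.1 / (M * a) * (5 * M / √(k : ℝ)) =
      5 * (k : ℝ) ^ xp g i.1 / (a * √(k : ℝ)) := by field_simp
  rw [e, le_div_iff₀ (by positivity)]
  have h4 : a * √(k : ℝ) ≤ k := by nlinarith
  nlinarith

theorem pb_le (g k M m : ℕ) (s t : ℝ) (hs : 0 ≤ s) (h : ∀ i, s ≤ D g k M m i * t) :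
    pb g k M m s ≤ (∏ i, D g k M m i) * (2 + t) ^ (2 * g + 1) := by
  rw [pb_eq, ← Fin.prod_const (2 * g + 1) (2 + t), ← prod_mul_distrib]
  refine prod_le_prod (fun i _ => by have := D_nonneg g k M m i; positivity) fun i _ => ?_
  nlinarith [h i]

theorem pb_div (g k M m p : ℕ) (s : ℝ) (hg : 1 ≤ g) (hs : 0 ≤ s) (hp : 1 ≤ p) (hm : 0 < m)
    (hM : 0 < M) : pb g k M m s ≤ p * pb g k M (m * p) s := by
  have hp1 : (1 : ℝ) ≤ p := by exact_mod_cast hp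
  have hm1 : (0 : ℝ) < m := by exact_mod_cast hm
  have hM1 : (0 : ℝ) < M := by exact_mod_cast hM
  rw [pb_eq, pb_eq]
  conv_rhs => rw [← prod_one g hg (p : ℝ)]
  rw [← prod_mul_distrib]
  refine prod_le_prod (fun i _ => by have := D_nonneg g k M m i; positivity) fun i _ => ?_
  unfold D
  split_ifs
  · have e : (p : ℝ) * (2 * ((k : ℝ) ^ xp g i.1 / (M * ((m * p : ℕ) : ℝ))) + s) =
        2 * ((k : ℝ) ^ xp g i.1 / (M * m)) + p * s := by
      push_cast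
      field_simp
    rw [e]
    nlinarith
  · rw [one_mul]

theorem ev (n : ℕ) (K : ℝ) : ∀ᶠ H : ℕ in atTop, 1 ≤ H ∧ K / √(H : ℝ) ≤ 1 ∧
    1 / 2 ≤ (2 - K / √(H : ℝ)) ^ (n + 1) - 125 / 168 * (2 + K / √(H : ℝ)) ^ (n + 1) := by
  have h0 : Tendsto (fun H : ℕ => K / √(H : ℝ)) atTop (𝓝 0) :=
    (Real.tendsto_sqrt_atTop.comp tendsto_natCast_atTop_atTop).const_div_atTop K
  have h1 : Tendsto (fun H : ℕ => (2 - K / √(H : ℝ)) ^ (n + 1) -
      125 / 168 * (2 + K / √(H : ℝ)) ^ (n + 1))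
      atTop (𝓝 ((2 - 0) ^ (n + 1) - 125 / 168 * (2 + 0) ^ (n + 1))) :=
    ((h0.const_sub 2).pow _).sub (((h0.const_add 2).pow _).const_mul _)
  refine (eventually_ge_atTop 1).and ((h0.eventually_le_const one_pos).and ?_)
  refine h1.eventually_const_le ?_
  have : (1 : ℝ) ≤ 2 ^ n := one_le_pow₀ one_le_two
  rw [sub_zero, add_zero, pow_succ]
  linarith

open Classical in
theorem ex_S (g k : ℕ) (P : Vec g → Prop) :
    ∃ S : Finset (Vec g), (∀ w, w ∈ S ↔ w ∈ bx g k ∧ P w) ∧ cnt g k P = S.card :=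
  ⟨_, fun w => by rw [mem_filter], cnt_eq_card⟩

/-- the base count -/
theorem base (cbx : CBXStmt) (g k M m u v : ℕ) (w₀ : Vec g) (t : ℝ) (hg : 1 ≤ g) (hM : 0 < M)
    (hm : 0 < m) (h1 : m.Coprime (u * v)) (h2 : m.Coprime M) (ht : t ≤ 1)
    (h : ∀ i, 1 ≤ D g k M m i * t) :
    (∏ i, D g k M m i) * (2 - t) ^ (2 * g + 1) ≤
      cnt g k fun w => (∀ i, (w i : ZMod M) = w₀ i) ∧ (m : ℤ) ∣ Gv w u v := by
  classical
  have hm1 : (0 : ℝ) < m := by exact_mod_cast hm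
  have hM1 : (0 : ℝ) < M := by exact_mod_cast hM
  obtain ⟨S, hS, hc⟩ := ex_S g k fun w => (∀ i, (w i : ZMod M) = w₀ i) ∧ (m : ℤ) ∣ Gv w u v
  rw [hc]
  have h3 := (cbx g (fun i => ce g k i.1 - (k : ℤ) ^ xp g i.1) w₀ (fun i => 2 * k ^ xp g i.1)
    (fun _ => M) m u v hg (fun _ => hM) hm h1 (fun _ _ => h2)
    S (fun w => by
      rw [hS, mem_bx]
      refine and_congr (forall_congr' fun i => ?_) (and_congr_left' (forall_congr' fun i => ?_))
      · push_cast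
        constructor <;> rintro ⟨a, b⟩ <;> constructor <;> linarith
      · rw [ZMod.intCast_eq_intCast_iff_dvd_sub, ← dvd_neg, neg_sub])).2 fun i => ?_
  · refine le_trans ?_ h3
    rw [← Fin.prod_const (2 * g + 1) (2 - t), ← prod_mul_distrib]
    refine prod_le_prod (fun i _ => mul_nonneg (D_nonneg g k M m i) (by linarith)) fun i _ => ?_
    have e : ((2 * k ^ xp g i.1 : ℕ) : ℝ) / (M * ((if i.1 + 1 = 2 * g then m else 1 : ℕ) : ℝ)) =
        2 * D g k M m i := by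
      unfold D
      push_cast
      rw [mul_div_assoc]
    rw [e]
    nlinarith [h i]
  · have h4 : 1 ≤ D g k M m i := by nlinarith [h i, D_nonneg g k M m i]
    unfold D at h4
    rw [one_le_div (by split_ifs <;> positivity)] at h4
    have h5 : ((M * if i.1 + 1 = 2 * g then m else 1 : ℕ) : ℝ) ≤ ((k ^ xp g i.1 : ℕ) : ℝ) := by
      push_cast
      exact h4
    have h6 := Nat.cast_le.1 h5
    omega

end LowA

theorem low_n : CBXStmt → LWNStmt → LWXStmt → LOWStmt := by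
  intro cbx lwn lwx g v Q w₀ hg hQ
  classical
  have hM : 0 < 30 * ∏ q ∈ Q, q := mul_pos (by norm_num) (prod_pos fun q hq => (hQ q hq).1.pos)
  have hmc : 30 * ∏ q ∈ Q, (q : ℝ) = ((30 * ∏ q ∈ Q, q : ℕ) : ℝ) := by push_cast; rfl
  have hco : ∀ p : ℕ, p.Prime → 7 ≤ p → p ∉ Q → (30 * ∏ q ∈ Q, q).Coprime p := fun p hp h7 hq => by
    refine Nat.Coprime.mul_left ?_ (Nat.Coprime.prod_left fun q h =>
      (Nat.coprime_primes (hQ q h).1 hp).2 fun e => hq (e ▸ h))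
    exact (((Nat.coprime_primes Nat.prime_two hp).2 (by omega)).mul_left
      ((Nat.coprime_primes Nat.prime_three hp).2 (by omega))).mul_left
      ((Nat.coprime_primes Nat.prime_five hp).2 (by omega))
  rw [hmc]
  filter_upwards [LowA.ev (2 * g) (5 * ((30 * ∏ q ∈ Q, q : ℕ) : ℝ))] with k ⟨hk, ht1, ht2⟩
  intro m u hms hmk
  obtain ⟨sf, cu, cq, hsum⟩ := hms
  generalize 30 * ∏ q ∈ Q, q = M at *
  have hm : 0 < m := Nat.pos_of_ne_zero sf.ne_zero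
  have hk1 : (1 : ℝ) ≤ k := by exact_mod_cast hk
  have hm2 : m ^ 2 ≤ k := (Nat.pow_le_pow_right hm (by norm_num)).trans hmk
  have hD := fun i => LowA.D_ge g k M m hk hM hm hm2 i hg
  have ht0 : 0 ≤ 5 * (M : ℝ) / √(k : ℝ) := by positivity
  generalize 5 * (M : ℝ) / √(k : ℝ) = t at *
  have hX := LowA.prod_D g k M m hg
  have h0 : 0 ≤ ∏ i, LowA.D g k M m i := prod_nonneg fun i _ => LowA.D_nonneg g k M m i
  have hA := LowA.base cbx g k M m u v w₀ t hg hM hm cu cq ht1 fun i => by linarith [hD i]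
  have hpb : ∀ s : ℝ, 0 ≤ s → s ≤ 5 * k →
      pb g k M m s ≤ (∏ i, LowA.D g k M m i) * (2 + t) ^ (2 * g + 1) := fun s h1 h2 =>
    LowA.pb_le g k M m s t h1 fun i => h2.trans (hD i)
  have hY : 0 ≤ (∏ i, LowA.D g k M m i) * (2 + t) ^ (2 * g + 1) := by positivity
  have hfin := mul_le_mul_of_nonneg_left ht2 h0
  rw [mul_sub, ← mul_left_comm] at hfin
  have e : 1 / 2 / (M : ℝ) ^ (2 * g + 1) * vol g k / m = (∏ i, LowA.D g k M m i) * (1 / 2) := by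
    rw [hX]
    ring
  rw [e]
  generalize (∏ i, LowA.D g k M m i) * (2 + t) ^ (2 * g + 1) = Y at *
  let Ps := (range ⌈√(5 * (k : ℝ))⌉₊).filter fun p => p.Prime ∧ 7 ≤ p ∧ p ∉ Q ∧ ¬p ∣ m
  have hb1 : ∀ p ∈ Ps, (cnt g k fun w => (∀ i, (w i : ZMod M) = w₀ i) ∧ (m : ℤ) ∣ Gv w u v ∧
      Nx p (f1 w)) ≤ Y * 4 * (1 / ((p : ℝ) ^ 2 - 1)) := by
    intro p hp
    obtain ⟨hpM, hp, h7, hq, hpm⟩ := mem_filter.1 hp
    have hpM' : (p : ℝ) < √(5 * (k : ℝ)) := Nat.lt_ceil.1 (mem_range.1 hpM)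
    have h7' : (7 : ℝ) ≤ p := by exact_mod_cast h7
    have h1 : (p : ℝ) ^ 2 ≤ 5 * k := ((Real.lt_sqrt (by positivity)).1 hpM').le
    refine (lwn g k M m p u v w₀ hg hp (by omega) hM hm (hco p hp h7 hq) cu
      (cq.mul_right ((Nat.Prime.coprime_iff_not_dvd hp).2 hpm).symm)).trans ?_
    have h2 : 0 ≤ 4 / ((p : ℝ) ^ 2 - 1) := div_nonneg (by norm_num) (by nlinarith)
    refine (mul_le_mul_of_nonneg_left (hpb _ (by positivity) h1) h2).trans_eq ?_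
    ring
  have hs1 := sum_le_sum hb1
  rw [← mul_sum] at hs1
  replace hs1 := hs1.trans (mul_le_mul_of_nonneg_left (K2.LowA.sum_le Ps fun p hp =>
    (mem_filter.1 hp).2.2.1) (by positivity))
  have hb2 : ∀ p ∈ m.primeFactors, (cnt g k fun w => (∀ i, (w i : ZMod M) = w₀ i) ∧
      (m : ℤ) ∣ Gv w u v ∧ (Nx p (f1 w) ∨ (p : ℤ) ∣ w (Fin.last _) ∨ (p : ℤ) ∣ Gx w u v)) ≤
      Y * 7 * (1 / (p : ℝ)) := by
    intro p hpf
    have hp := Nat.prime_of_mem_primeFactors hpf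
    have hpm := Nat.dvd_of_mem_primeFactors hpf
    have hp0 : (0 : ℝ) < p := by exact_mod_cast hp.pos
    have h56 : (56 : ℝ) ≤ p := by
      have h1 := (single_le_sum (f := fun q : ℕ => 1 / (q : ℝ)) (fun q _ => by positivity)
        hpf).trans hsum
      rw [div_le_div_iff₀ hp0 (by norm_num)] at h1
      linarith
    have h56' : 56 ≤ p := by exact_mod_cast h56
    have hp2 : (p : ℝ) ^ 2 ≤ k := by
      exact_mod_cast (Nat.pow_le_pow_left (Nat.le_of_dvd hm hpm) 2).trans hm2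
    obtain ⟨m', rfl⟩ : ∃ m', m = m' * p := exists_eq_mul_left_of_dvd hpm
    have hm' : 0 < m' := Nat.pos_of_mul_pos_right hm
    have h1 := lwn g k M m' p u v w₀ hg hp (by omega) hM hm' (cq.coprime_mul_left.symm)
      cu.coprime_mul_right (cq.coprime_mul_right.mul_right (Nat.coprime_of_squarefree_mul sf))
    have h2 := lwx g k M (m' * p) p u v w₀ hg hp hM hm hpm cu cq
    have h3 := LowA.pb_div g k M m' p ((p : ℝ) ^ 2) hg (by positivity) hp.pos hm' hM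
    have h4 := hpb ((p : ℝ) ^ 2) (by positivity) (by linarith)
    have h5 := hpb p (by positivity) (by nlinarith)
    have h6 : 0 < (p : ℝ) ^ 2 - 1 := by nlinarith
    have h7 : 4 / ((p : ℝ) ^ 2 - 1) * p ≤ 5 / p := by
      rw [div_mul_eq_mul_div, div_le_div_iff₀ h6 hp0]
      nlinarith
    refine (cnt_le_add fun w _ hw => ?_).trans ((add_le_add h1 h2).trans ?_)
    · rcases hw.2.2 with h | h
      · refine .inl ⟨hw.1, dvd_trans ?_ hw.2.1, h⟩
        exact Int.natCast_dvd_natCast.2 (Dvd.intro _ rfl)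
      · exact .inr ⟨hw.1, hw.2.1, h⟩
    · have h8 := mul_le_mul_of_nonneg_left (h3.trans (mul_le_mul_of_nonneg_left h4 hp0.le))
        (by positivity : 0 ≤ 4 / ((p : ℝ) ^ 2 - 1))
      rw [← mul_assoc] at h8
      have h9 := h8.trans (mul_le_mul_of_nonneg_right h7 hY)
      have h10 := mul_le_mul_of_nonneg_left h5 (by positivity : 0 ≤ 2 / (p : ℝ))
      refine (add_le_add h9 h10).trans_eq ?_
      ring
  have hs2 := sum_le_sum hb2
  rw [← mul_sum] at hs2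
  replace hs2 := hs2.trans (mul_le_mul_of_nonneg_left hsum (by positivity))
  have hcov := (cnt_le_add (g := g) (k := k)
    (P := fun w => (∀ i, (w i : ZMod M) = w₀ i) ∧ (m : ℤ) ∣ Gv w u v)
    (Q := fun w => (∀ i, (w i : ZMod M) = w₀ i) ∧ (m : ℤ) ∣ Gv w u v ∧
      (∀ p : ℕ, p.Prime → 7 ≤ p → p ∉ Q → (p : ℝ) < √(5 * k) → ¬Nx p (f1 w)) ∧
      ∀ p : ℕ, p.Prime → p ∣ m → ¬(p : ℤ) ∣ w (Fin.last _) ∧ ¬(p : ℤ) ∣ Gx w u v)
    (R := fun w => (∃ p ∈ Ps, (∀ i, (w i : ZMod M) = w₀ i) ∧ (m : ℤ) ∣ Gv w u v ∧ Nx p (f1 w)) ∨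
      ∃ p ∈ m.primeFactors, (∀ i, (w i : ZMod M) = w₀ i) ∧ (m : ℤ) ∣ Gv w u v ∧
        (Nx p (f1 w) ∨ (p : ℤ) ∣ w (Fin.last _) ∨ (p : ℤ) ∣ Gx w u v)) fun w _ hw => by
      by_contra h
      rw [not_or, not_or] at h
      refine h.1 ⟨hw.1, hw.2, fun p hp h7 hq hM hx => ?_, fun p hp hpm => ⟨fun hx => ?_,
        fun hx => ?_⟩⟩
      · by_cases hpm : p ∣ m
        · exact h.2.2 ⟨p, Nat.mem_primeFactors.2 ⟨hp, hpm, hm.ne'⟩, hw.1, hw.2, .inl hx⟩
        · exact h.2.1 ⟨p, mem_filter.2 ⟨mem_range.2 (Nat.lt_ceil.2 hM), hp, h7, hq, hpm⟩,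
            hw.1, hw.2, hx⟩
      · exact h.2.2 ⟨p, Nat.mem_primeFactors.2 ⟨hp, hpm, hm.ne'⟩, hw.1, hw.2, .inr (.inl hx)⟩
      · exact h.2.2 ⟨p, Nat.mem_primeFactors.2 ⟨hp, hpm, hm.ne'⟩, hw.1, hw.2,
          .inr (.inr hx)⟩).trans
    (add_le_add le_rfl ((cnt_le_add fun _ _ h => h).trans (add_le_add
      ((cnt_le_sum Ps _ fun _ _ h => h).trans hs1)
      ((cnt_le_sum m.primeFactors _ fun _ _ h => h).trans hs2))))
  linarith

end Pool.Agent.MP_a43263_nt.N2
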