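import Pool.Agent.MP_a43263_nt.N2.SpecC
import Pool.Agent.MP_678834_nt.gy.Fam

/-! THEOREM N2: the large sieve for primitive characters on an interval. -/

set_option autoImplicit false

noncomputable section

namespace Pool.Agent.MP_a43263_nt.N2

open Finset Pool.Agent.MP_678834_nt.gy

namespace LsmA

theorem expand1 {q : ℕ} (hq : 0 < q) (χ : DirichletCharacter ℂ q) (hχ : χ.IsPrimitive) :
    ∃ τ : ℂ, ‖τ‖ ^ 2 = q ∧ ∀ n : ℕ, τ * χ (n : ZMod q) =
      ∑ a ∈ range q, χ⁻¹ (a : ZMod q) * ee (n * ((a : ℝ) / q)) := by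
  rcases Nat.lt_or_ge 1 q with h | h
  · exact FamAux.expand h χ hχ
  · obtain rfl : q = 1 := by omega
    refine ⟨1, by simp, fun n => ?_⟩
    have e : ∀ (ψ : DirichletCharacter ℂ 1) (x : ZMod 1), ψ x = 1 := fun ψ x => by
      rw [Subsingleton.elim x 1, map_one]
    simp [e, ee_zero]

theorem shift {Q : ℕ} (hQ : 1 ≤ Q) (y h : ℕ) (c : ℕ → ℂ) :
    ∑ z ∈ Far Q, ‖∑ n ∈ Ico y (y + h), c n * ee (n * ((z.2 : ℝ) / z.1))‖ ^ 2 ≤
      (h + (Q : ℝ) ^ 2 * (1 + 2 * Real.log Q)) * ∑ n ∈ Ico y (y + h), ‖c n‖ ^ 2 := by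
  have k := ls_far hQ h fun i => c (y + i)
  rw [sum_Ico_eq_sum_range, Nat.add_sub_cancel_left]
  refine le_trans (le_of_eq (sum_congr rfl fun z _ => ?_)) k
  rw [sum_Ico_eq_sum_range, Nat.add_sub_cancel_left]
  have e : ∑ i ∈ range h, c (y + i) * ee (((y + i : ℕ) : ℝ) * ((z.2 : ℝ) / z.1)) =
      ee (y * ((z.2 : ℝ) / z.1)) * ∑ i ∈ range h, c (y + i) * ee (i * ((z.2 : ℝ) / z.1)) := by
    rw [mul_sum]
    refine sum_congr rfl fun i _ => ?_
    rw [Nat.cast_add, add_mul, ee_add]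
    ring
  rw [e, norm_mul, norm_ee, one_mul]

end LsmA

theorem lsm_n : LSMStmt := by
  intro R y h c S hR hS
  set s : ℕ × ℕ → ℂ := fun z => ∑ n ∈ Ico y (y + h), c n * ee (n * ((z.2 : ℝ) / z.1)) with hs
  have sub : S ⊆ FamAux.All R := fun z hz => by
    obtain ⟨h1, h2, -⟩ := hS z hz
    simp only [FamAux.All, mem_sigma, mem_Ioc, mem_univ, and_true]
    exact ⟨h1, h2⟩
  calc ∑ z ∈ S, ‖∑ n ∈ Ico y (y + h), c n * z.2 n‖ ^ 2
      = ∑ z ∈ S, 1 / (z.1 : ℝ) * ‖∑ a ∈ range z.1, z.2⁻¹ (a : ZMod z.1) * s (z.1, a)‖ ^ 2 := by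
        refine sum_congr rfl fun z hz => ?_
        obtain ⟨a1, -, a3⟩ := hS z hz
        obtain ⟨τ, t1, t2⟩ := LsmA.expand1 a1 z.2 a3
        have q0 : (z.1 : ℝ) ≠ 0 := by exact_mod_cast a1.ne'
        have e : ∑ a ∈ range z.1, z.2⁻¹ (a : ZMod z.1) * s (z.1, a) =
            τ * ∑ n ∈ Ico y (y + h), c n * z.2 n := by
          simp only [hs, mul_sum]
          rw [sum_comm]
          refine sum_congr rfl fun n _ => ?_
          rw [mul_left_comm, t2, mul_sum]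
          exact sum_congr rfl fun a _ => by ring
        rw [e, norm_mul, mul_pow, t1]
        field_simp
    _ ≤ ∑ z ∈ FamAux.All R, 1 / (z.1 : ℝ) *
          ‖∑ a ∈ range z.1, z.2⁻¹ (a : ZMod z.1) * s (z.1, a)‖ ^ 2 :=
        sum_le_sum_of_subset_of_nonneg sub fun _ _ _ => by positivity
    _ ≤ ∑ q ∈ Ioc 0 R, ∑ a ∈ (range q).filter (fun b => Nat.Coprime b q), ‖s (q, a)‖ ^ 2 := by
        rw [FamAux.All, sum_sigma]
        refine sum_le_sum fun q hq => ?_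
        obtain ⟨q1, -⟩ := mem_Ioc.1 hq
        have : NeZero q := ⟨q1.ne'⟩
        have q0 : (0 : ℝ) < q := by exact_mod_cast q1
        dsimp only
        rw [← mul_sum, FamAux.pars_mul fun a => s (q, a), ← mul_assoc]
        refine mul_le_of_le_one_left (sum_nonneg fun _ _ => sq_nonneg _) ?_
        rw [one_div, inv_mul_le_iff₀ q0, mul_one]
        exact_mod_cast Nat.totient_le q
    _ = ∑ z ∈ FF 0 R, ‖s z‖ ^ 2 := (sum_FF 0 R fun z => ‖s z‖ ^ 2).symm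
    _ ≤ ∑ z ∈ Far R, ‖s z‖ ^ 2 :=
        sum_le_sum_of_subset_of_nonneg (filter_subset _ _) fun _ _ _ => sq_nonneg _
    _ ≤ _ := LsmA.shift hR y h c

end Pool.Agent.MP_a43263_nt.N2

end
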