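import Pool.Agent.MP_a43263_nt.N2.SpecB

/-! THEOREM N2, row LTP: the conditions at the primes of `Q` and at the unramified primes. -/

set_option autoImplicit false

noncomputable section

namespace Pool.Agent.MP_a43263_nt.N2

open Polynomial Finset Filter Matrix JC Pool.Agent.MP_a43263_nt.UV K2

namespace LtpA

open UC.Chg

variable {g : ℕ} {F : Type} [CommRing F]

theorem st_cg {f : F[X]} {A B γ γ' : Mat g F} (h : γ * γ' = 1) (s : St f A B) :
    St f (γᵀ * A * γ) (γᵀ * B * γ) := by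
  obtain ⟨T, c0, c, x, s, s0, x1, x2⟩ := s
  refine ⟨γ' * T * γ, by rw [mul1 h, c0], (chp h).trans c, γ' *ᵥ x, s, s0, ?_, ?_⟩
  · rw [mulVec_mulVec, Matrix.mul_assoc, h, Matrix.mul_one, ← mulVec_mulVec, x1, mulVec_zero]
  · rw [UC.Chg.form, mulVec_mulVec, h, one_mulVec, x2]

theorem hz_cg {S γ γ' : Mat g F} (h : γ * γ' = 1) (s : Hz g S) : Hz g (γᵀ * S * γ) := by
  obtain ⟨Γ, e, u, e1, e2, e3⟩ := s
  refine ⟨γ' * Γ, e, ?_, e1, e2, ?_⟩
  · rw [det_mul]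
    exact (isUnit_det_of_left_inverse h).mul u
  · rw [← e3, transpose_mul]
    calc Γᵀ * γ'ᵀ * (γᵀ * S * γ) * (γ' * Γ) = Γᵀ * (γ * γ')ᵀ * S * (γ * γ') * Γ := by
          simp only [transpose_mul, Matrix.mul_assoc]
      _ = _ := by rw [h, transpose_one, Matrix.mul_one, Matrix.mul_one]

/-- the relations over a ring in which `m` is invertible -/
theorem core {A R R₁ B S T : Mat g F} {c m : F} (hc : c * m = 1) (h1 : R * R₁ = m • 1)
    (h2 : Rᵀ * A * R = m ^ 2 • B) (h3 : R * S = ((1 - m ^ 2) • (1 : Mat g F) + m ^ 2 • T) * R) :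
    (c • R) * R₁ = 1 ∧ B = (c • R)ᵀ * A * (c • R) ∧
      1 - S = m ^ 2 • (1 - R₁ * T * (c • R)) := by
  have k1 : (c • R) * R₁ = 1 := by rw [Matrix.smul_mul, h1, smul_smul, hc, one_smul]
  have k2 : R₁ * (c • R) = 1 := mul_eq_one_comm.1 k1
  refine ⟨k1, ?_, ?_⟩
  · rw [transpose_smul, Matrix.smul_mul, Matrix.smul_mul, Matrix.mul_smul, h2, smul_smul,
      smul_smul, show c * c * m ^ 2 = (c * m) ^ 2 by ring, hc, one_pow, one_smul]
  · have k3 : S = R₁ * (((1 - m ^ 2) • (1 : Mat g F) + m ^ 2 • T) * (c • R)) := by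
      rw [Matrix.mul_smul _ c R, ← h3, ← Matrix.smul_mul, ← Matrix.mul_assoc, k2, Matrix.one_mul]
    rw [k3, Matrix.add_mul, Matrix.mul_add, Matrix.smul_mul, Matrix.one_mul, Matrix.mul_smul R₁,
      k2, Matrix.smul_mul, Matrix.mul_smul R₁ (m ^ 2), Matrix.mul_assoc, sub_smul, smul_sub,
      one_smul]
    abel

theorem tt_smul (B B' N : Mat g F) (c : F) :
    Tt B B' (c • N) = 1 - c ^ 2 • (1 - Tt B B' N) := by
  rw [Tt, Tt, sub_sub_cancel, transpose_smul, Matrix.mul_smul, Matrix.mul_smul, Matrix.smul_mul,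
    Matrix.smul_mul, smul_smul, sq]

theorem mk_inv {A : Mat g ℤ} (hA : IsUnit A.det) : mK A⁻¹ F = (mK A F)⁻¹ :=
  (Matrix.inv_eq_left_inv (by
    rw [← mK_mul, Matrix.nonsing_inv_mul _ hA]
    exact Matrix.map_one _ (map_zero _) (map_one _))).symm

theorem mk_one : mK (1 : Mat g ℤ) F = 1 := Matrix.map_one _ (map_zero _) (map_one _)

theorem mk_add (A B : Mat g ℤ) : mK (A + B) F = mK A F + mK B F := by
  ext i j; simp

theorem mk_sub (A B : Mat g ℤ) : mK (A - B) F = mK A F - mK B F := by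
  ext i j; simp

theorem mk_smul (c : ℤ) (A : Mat g ℤ) : mK (c • A) F = (c : F) • mK A F := by
  ext i j
  rw [mK_apply, Matrix.smul_apply, Matrix.smul_apply, mK_apply, smul_eq_mul, smul_eq_mul,
    Int.cast_mul]

theorem mk_tt {A A' : Mat g ℤ} (N : Mat g ℤ) (hA : IsUnit A.det) (hA' : IsUnit A'.det) :
    mK (Tt A A' N) F = Tt (mK A F) (mK A' F) (mK N F) := by
  rw [Tt, Tt, mk_sub, mk_one, mK_mul, mK_mul, mK_mul, mk_inv hA, mk_inv hA', mK_transpose]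

/-- the relations modulo anything prime to `m₁` -/
theorem red {m₁ : ℕ} {A R R₁ B B' N T : Mat g ℤ} {c : F} (hc : c * m₁ = 1)
    (hB : IsUnit B.det) (hB' : IsUnit B'.det) (h1 : R * R₁ = (m₁ : ℤ) • 1)
    (h2 : Rᵀ * A * R = ((m₁ : ℤ) ^ 2) • B)
    (h3 : R * Tt B B' N = ((1 - (m₁ : ℤ) ^ 2) • (1 : Mat g ℤ) + ((m₁ : ℤ) ^ 2) • T) * R) :
    (c • mK R F) * mK R₁ F = 1 ∧ mK B F = (c • mK R F)ᵀ * mK A F * (c • mK R F) ∧
      1 - Tt (mK B F) (mK B' F) (mK N F) =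
        (m₁ : F) ^ 2 • (1 - mK R₁ F * mK T F * (c • mK R F)) := by
  refine core hc ?_ ?_ ?_
  · rw [← mK_mul, h1, mk_smul, mk_one, Int.cast_natCast]
  · rw [← mK_transpose, ← mK_mul, ← mK_mul, h2, mk_smul]
    push_cast
    rfl
  · rw [← mk_tt N hB hB', ← mK_mul, h3, mK_mul, mk_add, mk_smul, mk_smul, mk_one]
    push_cast
    rfl

theorem inv_ex {p m : ℕ} (hp : p.Prime) (h : ¬p ∣ m) : ∃ c : ZMod p, c * m = 1 :=
  ((ZMod.isUnit_iff_coprime m p).2 ((Nat.Prime.coprime_iff_not_dvd hp).2 h).symm).exists_left_inv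

end LtpA

open LtpA UC.Chg in
theorem ltp_n : CHGStmt → OVFStmt → LTPStmt := by
  intro _ ovf g Q m₀ m₁ a f m A A' M T R R' B B' N Λ Λ' hS hF hd hP hO hO' hT
  obtain ⟨-, -, ⟨R₁, h1⟩, -⟩ := ovf g m₁ A R B Λ (hS.sf.squarefree_of_dvd hd) hP.sa hO
  refine ⟨fun q hq => ?_, fun p hp h0 hn => ?_⟩
  · obtain ⟨c, hc⟩ := inv_ex (hF.ty q hq).1 fun h => hS.cop q hq (h.trans hd)
    obtain ⟨k1, k2, k3⟩ := red hc hO.un hO'.un h1 hO.eq hT.cj
    refine ⟨c, hc, ?_, ?_⟩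
    · rw [tt_smul, k3, smul_smul, ← mul_pow, hc, one_pow, one_smul, sub_sub_cancel, k2, mul1 k1,
        ← mK_mul]
      exact st_cg k1 (hP.sq q hq)
    · rw [det_smul, mK_det, hT.tri.dt, Fintype.card_fin]
      push_cast
      rw [← mul_assoc, ← mul_pow, hc, one_pow, one_mul]
  · obtain ⟨c, hc⟩ := inv_ex hp hn
    obtain ⟨k1, k2, k3⟩ := red hc hO.un hO'.un h1 hO.eq hT.cj
    have k4 : mK R (ZMod p) * (c • mK R₁ (ZMod p)) = 1 := by
      rw [Matrix.mul_smul, ← Matrix.smul_mul, k1]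
    have k5 := hz_cg k4 (hP.hz p hp h0 hn)
    have k6 : mK R (ZMod p) = (m₁ : ZMod p) • c • mK R (ZMod p) := by
      rw [smul_smul, mul_comm _ c, hc, one_smul]
    have k7 : Tt (mK B (ZMod p)) (mK B' (ZMod p)) (mK N (ZMod p)) = 1 - (m₁ : ZMod p) ^ 2 •
        (1 - mK R₁ (ZMod p) * mK T (ZMod p) * (c • mK R (ZMod p))) := by
      rw [← k3, sub_sub_cancel]
    unfold L2
    convert k5 using 1
    rw [mk_add, mk_smul, mK_mul, mk_tt N hO.un hO'.un, k7, mk_sub, mK_mul, mk_smul]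
    generalize c • mK R (ZMod p) = γ at k1 k2 k6 ⊢
    rw [k6, Matrix.mul_sub, Matrix.mul_smul, Matrix.mul_sub, Matrix.mul_one, k2, mul1 k1]
    simp only [transpose_smul, Matrix.smul_mul, Matrix.mul_smul, Matrix.mul_sub, Matrix.sub_mul]
    push_cast
    module

end Pool.Agent.MP_a43263_nt.N2
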