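import Pool.Agent.MP_a43263_nt.N2.SpecD

/-! Polynomials that are not maximal at one prime. -/

set_option autoImplicit false

noncomputable section

namespace Pool.Agent.MP_a43263_nt.N2

open Polynomial Finset Pool.Agent.MP_a43263_nt.UV K2

namespace LwnA

theorem one (cbx : CBXStmt) {g k m m' p u v : ℕ} (w₀ : Vec g) (hg : 1 ≤ g) (hp : 0 < p)
    (hm : 0 < m) (hm' : 0 < m') (c1 : m.Coprime p) (c2 : m'.Coprime (u * v))
    (c3 : m'.Coprime (m * p)) (x : Fin (2 * g + 1) → ZMod (p ^ 2)) :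
    (p : ℝ) ^ (2 * (2 * g + 1)) * cnt g k (fun w => (∀ i, (w i : ZMod m) = w₀ i) ∧
      (m' : ℤ) ∣ Gv w u v ∧ (fun i => (w i : ZMod (p ^ 2))) = x) ≤ pb g k m m' ((p : ℝ) ^ 2) := by
  classical
  by_cases h : ∃ r : Vec g, (∀ i, (r i : ZMod m) = w₀ i) ∧ (fun i => (r i : ZMod (p ^ 2))) = x
  swap
  · rw [cnt, sum_eq_zero fun w _ => ind_neg fun q => h ⟨w, q.1, q.2.2⟩, mul_zero, pb]
    exact prod_nonneg fun i _ => by split_ifs <;> positivity
  obtain ⟨r, r1, r2⟩ := h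
  have c4 : m'.Coprime (m * p ^ 2) :=
    Nat.Coprime.mul_right (Nat.Coprime.coprime_mul_right_right c3)
      ((Nat.Coprime.coprime_mul_left_right c3).pow_right 2)
  have h1 := (cbx g (fun i => ce g k i.1 - (k : ℤ) ^ xp g i.1) r (fun i => 2 * k ^ xp g i.1)
    (fun _ => m * p ^ 2) m' u v hg (fun _ => by positivity) hm' c2 (fun _ _ => c4)
    ((bx g k).filter fun w => (∀ i, ((m * p ^ 2 : ℕ) : ℤ) ∣ w i - r i) ∧ (m' : ℤ) ∣ Gv w u v)
    (fun w => by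
      rw [mem_filter, mem_bx]
      refine and_congr_left fun _ => forall_congr' fun i => and_congr_right fun _ => ?_
      push_cast
      constructor <;> intro q <;> linarith)).1
  have h2 : cnt g k (fun w => (∀ i, (w i : ZMod m) = w₀ i) ∧
      (m' : ℤ) ∣ Gv w u v ∧ (fun i => (w i : ZMod (p ^ 2))) = x) ≤
      cnt g k (fun w => (∀ i, ((m * p ^ 2 : ℕ) : ℤ) ∣ w i - r i) ∧ (m' : ℤ) ∣ Gv w u v) := by
    refine cnt_mono fun w _ q => ⟨fun i => ?_, q.2.1⟩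
    rw [Nat.cast_mul]
    refine IsCoprime.mul_dvd (Nat.isCoprime_iff_coprime.2 (c1.pow_right 2)) ?_ ?_
    · exact (ZMod.intCast_eq_intCast_iff_dvd_sub _ _ _).1 ((r1 i).trans (q.1 i).symm)
    · exact (ZMod.intCast_eq_intCast_iff_dvd_sub _ _ _).1
        ((congrFun r2 i).trans (congrFun q.2.2 i).symm)
  rw [cnt_eq_card (P := fun w => (∀ i, ((m * p ^ 2 : ℕ) : ℤ) ∣ w i - r i) ∧ (m' : ℤ) ∣ Gv w u v)]
    at h2
  have h3 := h2.trans ((Nat.cast_le.2 (card_le_card fun w hw => by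
    simpa only [mem_filter] using hw)).trans h1)
  refine (mul_le_mul_of_nonneg_left h3 (by positivity)).trans (le_of_eq ?_)
  have e : (p : ℝ) ^ (2 * (2 * g + 1)) = ∏ _i : Fin (2 * g + 1), (p : ℝ) ^ 2 := by
    rw [prod_const, card_univ, Fintype.card_fin, ← pow_mul]
  rw [e, ← prod_mul_distrib, pb]
  refine prod_congr rfl fun i _ => ?_
  have hp0 : (p : ℝ) ≠ 0 := by positivity
  have hm0 : (m : ℝ) ≠ 0 := by positivity
  have hm1 : (m' : ℝ) ≠ 0 := by positivity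
  push_cast
  split_ifs <;> field_simp

end LwnA

theorem lwn_n : K2.BETAStmt → CBXStmt → LWNStmt := by
  intro beta cbx g k m m' p u v w₀ hg hp h2 hm hm' c1 c2 c3
  have : NeZero (p ^ 2) := ⟨pow_ne_zero 2 hp.ne_zero⟩
  have hb := beta g p hg hp h2
  set Y := {x : Fin (2 * g + 1) → ZMod (p ^ 2) | ∃ w : Vec g,
    (fun i => (w i : ZMod (p ^ 2))) = x ∧ Nx p (f1 w)} with hY
  have hf : Y.Finite := Set.toFinite Y
  rw [Set.ncard_eq_toFinset_card Y hf] at hb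
  have hP : (0 : ℝ) < (p : ℝ) ^ (2 * (2 * g + 1)) := by have := hp.pos; positivity
  have h0 : 0 ≤ pb g k m m' ((p : ℝ) ^ 2) :=
    prod_nonneg fun i _ => by split_ifs <;> positivity
  refine (cnt_le_sum hf.toFinset (fun x w => (∀ i, (w i : ZMod m) = w₀ i) ∧
    (m' : ℤ) ∣ Gv w u v ∧ (fun i => (w i : ZMod (p ^ 2))) = x)
    fun w _ q => ⟨_, hf.mem_toFinset.2 ⟨w, rfl, q.2.2⟩, q.1, q.2.1, rfl⟩).trans ?_
  refine (sum_le_card_nsmul _ _ (pb g k m m' ((p : ℝ) ^ 2) / (p : ℝ) ^ (2 * (2 * g + 1)))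
    fun x _ => (le_div_iff₀' hP).2 (LwnA.one cbx w₀ hg hp.pos hm hm' c1 c2 c3 x)).trans ?_
  rw [nsmul_eq_mul]
  refine (mul_le_mul_of_nonneg_right hb (by positivity)).trans (le_of_eq ?_)
  field_simp

end Pool.Agent.MP_a43263_nt.N2
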