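import Pool.Agent.MP_a43263_nt.N2.SpecD

/-! THEOREM N2, row Lwx: exclusions at a prime of the smooth part. -/

set_option autoImplicit false

noncomputable section

namespace Pool.Agent.MP_a43263_nt.N2

open Finset Filter K2

namespace LwxA

theorem diff {g : ℕ} (w w' : Vec g) (u v : ℤ) :
    Gv w u v - Gv w' u v + u ^ 2 * (Gx w u v - Gx w' u v) =
      ∑ i, (1 - ((2 * g - i.1 : ℕ) : ℤ)) * (sv w i - sv w' i) * (-u ^ 2) ^ (2 * g - i.1) *
        (v ^ 2) ^ (i.1 + 1) := by
  rw [Gv, Gv, Gx, Gx, add_sub_add_left_eq_sub, add_sub_add_left_eq_sub, ← sum_sub_distrib,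
    ← sum_sub_distrib, mul_sum, ← sum_add_distrib]
  refine sum_congr rfl fun i _ => ?_
  generalize 2 * g - i.1 = n
  cases n with
  | zero => simp; ring
  | succ n => rw [Nat.add_sub_cancel, pow_succ (-u ^ 2) n]; ring

theorem det {g : ℕ} {p u v : ℤ} (hu : IsCoprime p u) (hv : IsCoprime p v) (j : Fin (2 * g + 1))
    (hj : j.1 + 2 = 2 * g) {w w' : Vec g} (a : p ∣ Gv w u v) (b : p ∣ Gx w u v)
    (a' : p ∣ Gv w' u v) (b' : p ∣ Gx w' u v)
    (h : ∀ i, i.1 + 1 ≠ 2 * g → i ≠ j → p ∣ w i - w' i) : p ∣ w j - w' j := by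
  have h1 := dvd_add (dvd_sub a a') ((dvd_sub b b').mul_left (u ^ 2))
  rw [diff, ← add_sum_erase _ _ (mem_univ j), dvd_add_left (dvd_sum fun i hi => ?_)] at h1
  · have e : 2 * g - j.1 = 2 := by omega
    have e' : j.1 ≠ 2 * g := by omega
    rw [e] at h1
    simp only [sv, if_neg e'] at h1
    have h2 := hu.pow_right.neg_right.pow_right.dvd_of_dvd_mul_right
      (hv.pow_right.pow_right.dvd_of_dvd_mul_right h1)
    norm_num at h2
    exact dvd_sub_comm.1 h2
  · by_cases e : i.1 + 1 = 2 * g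
    · have : 2 * g - i.1 = 1 := by omega
      simp [this]
    · refine ((Dvd.dvd.mul_left ?_ _).mul_right _).mul_right _
      have := h i e (ne_of_mem_erase hi)
      rw [sv, sv]
      split_ifs
      · rw [sq_sub_sq]
        exact this.mul_left _
      · exact this

theorem cls (cbx : CBXStmt) {g k m m' p u v : ℕ} (w₀ : Vec g) (hg : 1 ≤ g) (hp : p.Prime)
    (hm : 0 < m) (hm' : 0 < m') (hd : p ∣ m') (c1 : m'.Coprime (u * v)) (c2 : m'.Coprime m)
    (j : Fin (2 * g + 1)) (hj : j.1 + 1 ≠ 2 * g) (P : Vec g → Prop)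
    (hP : ∀ w w', (m' : ℤ) ∣ Gv w u v → (m' : ℤ) ∣ Gv w' u v → P w → P w' →
      (∀ i, i.1 + 1 ≠ 2 * g → i ≠ j → (p : ℤ) ∣ w i - w' i) → (p : ℤ) ∣ w j - w' j) :
    cnt g k (fun w => (∀ i, (w i : ZMod m) = w₀ i) ∧ (m' : ℤ) ∣ Gv w u v ∧ P w) ≤
      1 / (p : ℝ) * pb g k m m' p := by
  classical
  have : NeZero p := ⟨hp.ne_zero⟩
  have p0 : (0 : ℝ) < p := Nat.cast_pos.2 hp.pos
  have p1 : (1 : ℝ) ≤ p := Nat.one_le_cast.2 hp.pos
  have m0 : (0 : ℝ) < m := Nat.cast_pos.2 hm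
  have cp : IsCoprime (m : ℤ) p := Nat.isCoprime_iff_coprime.2 (c2.coprime_dvd_left hd).symm
  let M : Fin (2 * g + 1) → ℕ := fun i => if i.1 + 1 = 2 * g then m else m * p
  let φ : Vec g → Fin (2 * g + 1) → ZMod p := fun w i =>
    if i.1 + 1 = 2 * g ∨ i = j then 0 else w i
  let T : Finset (Fin (2 * g + 1) → ZMod p) :=
    Fintype.piFinset fun i => if i.1 + 1 = 2 * g ∨ i = j then {0} else univ
  obtain ⟨S, hS, eS⟩ : ∃ S : Finset (Vec g), (∀ w ∈ S, w ∈ bx g k ∧ (∀ i, (w i : ZMod m) = w₀ i) ∧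
      (m' : ℤ) ∣ Gv w u v ∧ P w) ∧ cnt g k (fun w => (∀ i, (w i : ZMod m) = w₀ i) ∧
      (m' : ℤ) ∣ Gv w u v ∧ P w) = S.card := ⟨_, fun w hw => by simpa using hw, cnt_eq_card⟩
  rw [eS, card_eq_sum_card_fiberwise (f := φ) (t := T) fun w _ => ?_, Nat.cast_sum]
  swap
  · refine mem_coe.2 (Fintype.mem_piFinset.2 fun i => ?_)
    simp only [φ]
    split_ifs <;> simp
  refine (sum_le_card_nsmul _ _ (∏ i, (((2 * k ^ xp g i.1 : ℕ) : ℝ) /
    (M i * if i.1 + 1 = 2 * g then m' else 1) + 1)) fun x _ => ?_).trans ?_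
  · rcases (S.filter fun w => φ w = x).eq_empty_or_nonempty with h | ⟨r, hr⟩
    · rw [h, card_empty, Nat.cast_zero]
      positivity
    refine le_trans (Nat.cast_le.2 (card_le_card fun w hw => ?_))
      (cbx g (fun i => ce g k i.1 - (k : ℤ) ^ xp g i.1) r (fun i => 2 * k ^ xp g i.1) M m' u v hg
        (fun i => ?_) hm' c1 (fun i hi => ?_) ((bx g k).filter fun w =>
          (∀ i, (M i : ℤ) ∣ w i - r i) ∧ (m' : ℤ) ∣ Gv w u v) fun w => ?_).1
    · rw [mem_filter] at hw hr ⊢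
      obtain ⟨a1, a2, a3, a4⟩ := hS w hw.1
      obtain ⟨-, b2, b3, b4⟩ := hS r hr.1
      have q1 : ∀ i, (m : ℤ) ∣ w i - r i := fun i =>
        (ZMod.intCast_eq_intCast_iff_dvd_sub _ _ _).1 ((b2 i).trans (a2 i).symm)
      have q2 : ∀ i, i.1 + 1 ≠ 2 * g → i ≠ j → (p : ℤ) ∣ w i - r i := fun i h1 h2 => by
        have := congrFun (hr.2.trans hw.2.symm) i
        simp only [φ, if_neg (not_or.2 ⟨h1, h2⟩)] at this
        exact (ZMod.intCast_eq_intCast_iff_dvd_sub _ _ _).1 this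
      refine ⟨a1, fun i => ?_, a3⟩
      simp only [M]
      split_ifs with h1
      · exact q1 i
      · rw [Nat.cast_mul]
        refine cp.mul_dvd (q1 i) ?_
        by_cases h2 : i = j
        · exact h2 ▸ hP w r a3 b3 a4 b4 q2
        · exact q2 i h1 h2
    · simp only [M]
      split_ifs
      exacts [hm, Nat.mul_pos hm hp.pos]
    · simp only [M, if_pos hi]
      exact c2
    · rw [mem_filter, mem_bx]
      refine and_congr_left' (forall_congr' fun i => and_congr_right' ?_)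
      push_cast
      rw [show ∀ a b : ℤ, a - b + 2 * b = a + b from fun a b => by ring]
  · have e : (p : ℝ) = ∏ i, if i = j then (p : ℝ) else 1 := by
      rw [prod_ite_eq', if_pos (mem_univ j)]
    rw [nsmul_eq_mul, one_div, le_inv_mul_iff₀ p0, Fintype.card_piFinset, Nat.cast_prod, pb,
      ← prod_mul_distrib]
    refine (congrArg (· * _) e).trans_le ?_
    clear e
    rw [← prod_mul_distrib]
    refine prod_le_prod (fun i _ => by positivity) fun i _ => ?_
    simp only [M]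
    by_cases h1 : i.1 + 1 = 2 * g
    · have h2 : i ≠ j := fun h => hj (h ▸ h1)
      simp [h1, h2, p1]
    · by_cases h2 : i = j
      · simp only [h2, hj, if_true, if_false, or_true, card_singleton]
        push_cast
        refine le_of_eq ?_
        field_simp
      · simp only [h1, h2, if_false, or_false, card_univ, ZMod.card]
        push_cast
        refine le_of_eq ?_
        field_simp

end LwxA

open LwxA in
theorem lwx_n : CBXStmt → LWXStmt := by
  intro cbx g k m m' p u v w₀ hg hp hm hm' hd c1 c2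
  have c3 := c1.coprime_dvd_left hd
  have hd' : (p : ℤ) ∣ m' := Int.natCast_dvd_natCast.2 hd
  have a := cls cbx (k := k) w₀ hg hp hm hm' hd c1 c2 (Fin.last _) (by simp)
    (fun w => (p : ℤ) ∣ w (Fin.last _)) fun w w' _ _ a b _ => dvd_sub a b
  have b := cls cbx (k := k) w₀ hg hp hm hm' hd c1 c2 ⟨2 * g - 2, by omega⟩ (by simp only; omega)
    (fun w => (p : ℤ) ∣ Gx w u v) fun w w' a a' b b' h =>
      det (Nat.isCoprime_iff_coprime.2 c3.coprime_mul_right_right)
        (Nat.isCoprime_iff_coprime.2 c3.coprime_mul_left_right) _ (by simp only; omega)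
        (hd'.trans a) b (hd'.trans a') b' h
  refine le_trans (cnt_le_add fun w _ h => ?_) ((add_le_add a b).trans_eq (by ring))
  exact h.2.2.imp (fun q => ⟨h.1, h.2.1, q⟩) fun q => ⟨h.1, h.2.1, q⟩

end Pool.Agent.MP_a43263_nt.N2
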