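import Pool.Agent.MP_a43263_nt.N2.SpecC

/-! THEOREM N2, analytic part: one moment. -/

set_option autoImplicit false

noncomputable section

namespace Pool.Agent.MP_a43263_nt.N2

open Finset Filter K2

namespace MomA

theorem smul_sh (g : ℕ) (i t u' v : ℤ) : i • sh g t u' v = sh g (i * t) u' v := by
  funext j
  simp only [sh, Pi.smul_apply, smul_eq_mul]
  split_ifs <;> ring

theorem om_inv {g : ℕ} {ω : Vec g → ℝ} {σ : Vec g} (h : ∀ w, ω (w + σ) = ω w) (w : Vec g) (i : ℕ) :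
    ω (w + (i : ℤ) • σ) = ω w := by
  induction i with
  | zero => simp
  | succ i ih => rw [Nat.cast_succ, add_smul, one_smul, ← add_assoc, h, ih]

theorem co_eq {g d u v : ℕ} {w : Vec g} (hd : (d : ℤ) ∣ Gv w u v) (h : 0 ≤ Gv w u v) :
    Gv w u v = d * co d w u v := by
  rw [co, Int.toNat_of_nonneg (Int.ediv_nonneg h (by positivity)), Int.mul_ediv_cancel' hd]

theorem co_add {g d u v a : ℕ} {w w' : Vec g} (d0 : 0 < d) (hd : (d : ℤ) ∣ Gv w u v)
    (h : 0 ≤ Gv w u v) (e : Gv w' u v = Gv w u v + d * a) : co d w' u v = co d w u v + a := by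
  rw [co, e, co_eq hd h, ← mul_add, Int.mul_ediv_cancel_left _ (by exact_mod_cast d0.ne'),
    ← Nat.cast_add, Int.toNat_natCast]

theorem ql_mul {g v N d m s s' u : ℕ} (hN : 0 < N) (hd : d ∣ N) :
    ((m * d : ℕ) : ℤ) * (ql g v N d m s s' u : ℕ) =
      (N : ℤ) ^ 2 * Int.sign ((s : ℤ) - s') * (((u + m * s : ℕ) : ℤ) ^ 2 * (v : ℤ) ^ (4 * g) *
        (((u + m * s : ℕ) : ℤ) ^ 2 - ((u + m * s' : ℕ) : ℤ) ^ 2)) := by
  obtain ⟨e, rfl⟩ := hd
  have d0 : 0 < d := Nat.pos_of_mul_pos_right hN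
  rw [ql, show (d * e) ^ 2 = d * (d * e ^ 2) by ring, Nat.mul_div_cancel_left _ d0]
  push_cast
  rw [← Int.sign_mul_self_eq_abs]
  ring

/-- sum over the fibres of the value -/
theorem fib {g k d u v : ℕ} {ω : Vec g → ℝ} {B M : ℝ} {E : ℕ → ℝ} {Y : Finset ℕ}
    (h0 : ∀ w, 0 ≤ ω w ∧ ω w ≤ B)
    (h1 : ∀ w ∈ bx g k, ω w ≠ 0 → co d w u v ∈ Y ∧ Gv w u v = d * co d w u v)
    (h2 : ∀ y ∈ Y, E y ≠ 0 → cnt g k (fun w => Gv w u v = (d : ℤ) * y) ≤ M) :
    |∑ w ∈ bx g k, ω w * E (co d w u v)| ≤ B * (M * ∑ y ∈ Y, |E y|) := by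
  have B0 : 0 ≤ B := (h0 0).1.trans (h0 0).2
  refine (abs_sum_le_sum_abs _ _).trans ?_
  calc ∑ w ∈ bx g k, |ω w * E (co d w u v)|
      ≤ ∑ w ∈ bx g k, ∑ y ∈ Y, B * (ind (Gv w u v = (d : ℤ) * y) * |E y|) := by
        refine sum_le_sum fun w hw => ?_
        have nn : ∀ y ∈ Y, 0 ≤ B * (ind (Gv w u v = (d : ℤ) * y) * |E y|) := fun y _ =>
          mul_nonneg B0 (mul_nonneg (ind_nonneg _) (abs_nonneg _))
        by_cases e : ω w = 0
        · rw [e, zero_mul, abs_zero]; exact sum_nonneg nn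
        · obtain ⟨a, b⟩ := h1 w hw e
          refine le_trans ?_ (single_le_sum nn a)
          rw [ind_pos b, one_mul, abs_mul, abs_of_nonneg (h0 w).1]
          exact mul_le_mul_of_nonneg_right (h0 w).2 (abs_nonneg _)
    _ = B * ∑ y ∈ Y, cnt g k (fun w => Gv w u v = (d : ℤ) * y) * |E y| := by
        rw [sum_comm, mul_sum]
        exact sum_congr rfl fun y _ => by rw [← mul_sum, cnt, sum_mul]
    _ ≤ B * (M * ∑ y ∈ Y, |E y|) := by
        rw [mul_sum Y _ M]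
        refine mul_le_mul_of_nonneg_left (sum_le_sum fun y hy => ?_) B0
        by_cases e : E y = 0
        · rw [e, abs_zero, mul_zero, mul_zero]
        · exact mul_le_mul_of_nonneg_right (h2 y hy e) (abs_nonneg _)

/-- no primes in a progression that is not reduced -/
theorem ezero {y q K : ℕ} (q1 : 1 ≤ q) (h : q < y) (hc : ¬y.Coprime q) :
    ∑ i ∈ range K, lam (y + i * q) - K * (ph q * ind (y.Coprime q)) = 0 := by
  rw [ind_neg hc, mul_zero, mul_zero, sub_zero]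
  refine sum_eq_zero fun i _ => if_neg fun p => ?_
  have a : Nat.gcd y q ∣ y + i * q :=
    dvd_add (Nat.gcd_dvd_left _ _) ((Nat.gcd_dvd_right _ _).mul_left _)
  have b := Nat.gcd_le_right y q1
  rcases (Nat.dvd_prime p).1 a with e | e
  · exact hc e
  · omega

theorem tau_sum (n : ℕ) :
    ∑ x ∈ Ioc 0 n, (x.divisors.card : ℝ) ≤ n * (1 + Real.log n) := by
  have a := ArithmeticFunction.sum_Ioc_sigma0_eq_sum_div n
  simp only [ArithmeticFunction.sigma_zero_apply] at a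
  have b : ∑ x ∈ Ioc 0 n, (x.divisors.card : ℝ) = ∑ x ∈ Ioc 0 n, ((n / x : ℕ) : ℝ) := by
    exact_mod_cast a
  have c := harmonic_le_one_add_log n
  rw [harmonic_eq_sum_Icc] at c
  push_cast at c
  rw [b]
  refine le_trans ?_ (mul_le_mul_of_nonneg_left c (Nat.cast_nonneg n))
  rw [mul_sum]
  exact sum_le_sum fun x _ => Nat.cast_div_le

/-- few points have many divisors -/
theorem bad {U a : ℕ} {T : Finset ℕ} {R : ℝ} (ha : a ≤ U) (hT : T ⊆ Ioc U (2 * U)) :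
    ((T.filter fun u => ¬((u + a).divisors.card : ℝ) ≤ R).card : ℝ) * R ≤
      3 * U * (1 + Real.log (3 * U)) := by
  have t := tau_sum (3 * U)
  push_cast at t
  refine le_trans ?_ t
  rw [← nsmul_eq_mul]
  refine (card_nsmul_le_sum _ (fun u => ((u + a).divisors.card : ℝ)) R
    fun u hu => (not_le.1 (mem_filter.1 hu).2).le).trans ?_
  rw [← sum_image (s := T.filter fun u => ¬((u + a).divisors.card : ℝ) ≤ R) (g := fun u => u + a)
    (f := fun x => (x.divisors.card : ℝ)) fun x _ y _ e => Nat.add_right_cancel e]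
  refine sum_le_sum_of_subset_of_nonneg (fun x hx => ?_) fun _ _ _ => Nat.cast_nonneg _
  obtain ⟨u, hu, rfl⟩ := mem_image.1 hx
  have := mem_Ioc.1 (hT (mem_filter.1 hu).1)
  exact mem_Ioc.2 ⟨by omega, by omega⟩

/-- how often `m` divides the value -/
theorem cnt_dvd (geo : GEOStmt) (cbx : CBXStmt) {g k m x v : ℕ} (hg : 1 ≤ g) (m0 : 0 < m)
    (mk : m ≤ k) (hc : m.Coprime (x * v)) :
    cnt g k (fun w => (m : ℤ) ∣ Gv w x v) ≤ 2 * 3 ^ (2 * g + 1) * vol g k / m := by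
  classical
  have k1 : 1 ≤ k := by omega
  have mp : (0 : ℝ) < m := by exact_mod_cast m0
  have a := (cbx g (fun i => ce g k i.1 - (k : ℤ) ^ xp g i.1) 0 (fun i => 2 * k ^ xp g i.1)
    (fun _ => 1) m x v hg (fun _ => one_pos) m0 hc (fun _ _ => Nat.coprime_one_right m)
    ((bx g k).filter fun w => (m : ℤ) ∣ Gv w x v) fun w => by
      rw [mem_filter, mem_bx]
      refine ⟨fun h => ⟨fun i => ⟨(h.1 i).1, ?_⟩, fun i => by simp, h.2⟩,
        fun h => ⟨fun i => ⟨(h.1 i).1, ?_⟩, h.2.2⟩⟩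
      · have := (h.1 i).2
        push_cast
        linarith
      · have := (h.1 i).2
        push_cast at this
        linarith).1
  have b : ((bx g k).card : ℝ) = ∏ i : Fin (2 * g + 1), (2 * (k : ℝ) ^ xp g i.1 + 1) := by
    rw [bx, Fintype.card_piFinset]
    push_cast
    refine prod_congr rfl fun i _ => ?_
    rw [Int.card_Icc, show ce g k i.1 + (k : ℤ) ^ xp g i.1 + 1 - (ce g k i.1 - (k : ℤ) ^ xp g i.1) =
      ((2 * k ^ xp g i.1 + 1 : ℕ) : ℤ) by push_cast; ring, Int.toNat_natCast]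
    push_cast
    rfl
  have c := ((geo g hg).1 k k1).2
  rw [cnt_eq_card]
  refine le_trans (le_of_eq (by congr)) (a.trans ?_)
  let j : Fin (2 * g + 1) := ⟨2 * g - 1, by omega⟩
  have e : ∏ i : Fin (2 * g + 1), (if i = j then (2 / m : ℝ) else 1) = 2 / m := by simp
  calc _ ≤ ∏ i : Fin (2 * g + 1), (2 * (k : ℝ) ^ xp g i.1 + 1) * (if i = j then (2 / m : ℝ) else 1) := by
        refine prod_le_prod (fun i _ => by positivity) fun i _ => ?_
        by_cases h : i.1 + 1 = 2 * g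
        · have h' : i = j := Fin.ext (by simp only [j]; omega)
          rw [if_pos h, if_pos h']
          have p : (m : ℝ) ≤ (k : ℝ) ^ xp g i.1 := by
            have : k ≤ k ^ xp g i.1 := Nat.le_self_pow (by rw [xp, if_neg (by omega)]; omega) k
            exact_mod_cast mk.trans this
          push_cast
          rw [one_mul, div_add_one mp.ne', ← mul_div_assoc]
          exact div_le_div_of_nonneg_right (by linarith) mp.le
        · have h' : i ≠ j := fun e => h (by rw [e]; simp only [j]; omega)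
          rw [if_neg h, if_neg h']
          push_cast
          simp
    _ = (bx g k).card * (2 / m) := by rw [prod_mul_distrib, e, b]
    _ ≤ 3 ^ (2 * g + 1) * vol g k * (2 / m) := mul_le_mul_of_nonneg_right c (by positivity)
    _ = _ := by ring

theorem mem_win {P d y : ℕ} (d0 : 0 < d) (hd : d ≤ P) (h1 : 35 * P ≤ d * y) (h2 : d * y ≤ 65 * P) :
    y ∈ Ioc (34 * P / d + 34 * P / d / 100) (2 * (34 * P / d)) := by
  have a := Nat.mul_div_le (34 * P) d
  have b := Nat.lt_mul_div_succ (34 * P) d0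
  generalize 34 * P / d = X at a b
  have c := Nat.mul_div_le X 100
  generalize X / 100 = Z at c
  refine mem_Ioc.2 ⟨lt_of_mul_lt_mul_left (a := d) (?_ : d * (X + Z) < d * y) d0.le,
    Nat.le_of_mul_le_mul_left (?_ : d * y ≤ d * (2 * X)) d0⟩
  · have : d * (100 * Z) ≤ d * X := Nat.mul_le_mul_left d c
    nlinarith
  · nlinarith

/-- one base point -/
theorem one {g k m n x v q K X : ℕ} {σ : Vec g} {ω : Vec g → ℝ} {B R M S : ℝ}
    (hsh : ∀ (F : Vec g → ℝ) (B' : ℝ), 0 ≤ B' →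
      (∀ w ∈ bx g k, ∀ i : ℕ, i < K → |F (w + (i : ℤ) • σ)| ≤ B') →
      (∀ w, F w ≠ 0 → (m : ℤ) ∣ Gv w x v) →
      |∑ w ∈ bx g k, ∑ i ∈ range K, F (w + (i : ℤ) • σ) - K * ∑ w ∈ bx g k, F w| ≤ K * (B' * S))
    (hmul : ∀ y : ℤ, IsCoprime y (x : ℤ) → cnt g k (fun w => Gv w x v = y) ≤ M)
    (K1 : 1 ≤ K) (n0 : 0 < n) (mn : m ∣ n) (q1 : 1 ≤ q) (KX : K * q ≤ X) (xq : x ∣ q)
    (cop : n.Coprime x) (h0 : ∀ w, 0 ≤ ω w ∧ ω w ≤ B) (h1 : ∀ w, ω (w + σ) = ω w)
    (h2 : ∀ w, ω w ≠ 0 → (n : ℤ) ∣ Gv w x v)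
    (win : ∀ w ∈ bx g k, ω w ≠ 0 →
      co n w x v ∈ Ioc (X + X / 100) (2 * X) ∧ Gv w x v = n * co n w x v)
    (shf : ∀ w, ∀ i : ℕ, Gv (w + (i : ℤ) • σ) x v = Gv w x v + n * (i * q : ℕ))
    (R0 : 0 ≤ R) (term : ∀ y : ℕ, 0 < y → y ≤ 3 * X → ∀ P : Prop, |lam y - ph q * ind P| ≤ R) :
    |∑ w ∈ bx g k, ω w * (lam (co n w x v) - ph q * ind ((co n w x v).Coprime q))| ≤
      B * R * S + B * (M * ((∑ y ∈ Ioc (X + X / 100) (2 * X),
        |∑ i ∈ range K, lam (y + i * q) - K * (ph q * ind (y.Coprime q))|) / K)) ∧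
    |∑ w ∈ bx g k, ω w * (lam (co n w x v) - ph q * ind ((co n w x v).Coprime q))| ≤
      B * R * cnt g k (fun w => (m : ℤ) ∣ Gv w x v) := by
  have B0 : 0 ≤ B := (h0 0).1.trans (h0 0).2
  have K0 : (0 : ℝ) < K := by exact_mod_cast K1
  have qX : q ≤ X := le_trans (Nat.le_mul_of_pos_left q K1) KX
  have dv : ∀ w, ω w ≠ 0 → (m : ℤ) ∣ Gv w x v := fun w e =>
    (Int.natCast_dvd_natCast.2 mn).trans (h2 w e)
  have shift : ∀ w ∈ bx g k, ω w ≠ 0 → ∀ i : ℕ,
      co n (w + (i : ℤ) • σ) x v = co n w x v + i * q := fun w hw e i =>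
    co_add n0 (h2 w e) (by rw [(win w hw e).2]; positivity) (shf w i)
  obtain ⟨F, hF⟩ : ∃ F : Vec g → ℝ, F = fun w => ω w * (lam (co n w x v) -
    ph q * ind ((co n w x v).Coprime q)) := ⟨_, rfl⟩
  have Fs : ∀ w ∈ bx g k, ∀ i : ℕ, F (w + (i : ℤ) • σ) =
      ω w * (lam (co n w x v + i * q) - ph q * ind ((co n w x v).Coprime q)) := fun w hw i => by
    rw [hF]
    beta_reduce
    rw [om_inv h1]
    by_cases e : ω w = 0
    · rw [e, zero_mul, zero_mul]
    · rw [shift w hw e, ind_congr (Nat.coprime_add_mul_right_left _ _ _)]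
  have bd : ∀ w ∈ bx g k, ∀ i : ℕ, i < K → |F (w + (i : ℤ) • σ)| ≤ B * R := fun w hw i hi => by
    rw [Fs w hw, abs_mul, abs_of_nonneg (h0 w).1]
    by_cases e : ω w = 0
    · rw [e, zero_mul]; positivity
    have a := mem_Ioc.1 (win w hw e).1
    have b : i * q ≤ K * q := by gcongr
    exact mul_le_mul (h0 w).2 (term _ (by omega) (by omega) _) (abs_nonneg _) B0
  have Fd : ∀ w, F w ≠ 0 → (m : ℤ) ∣ Gv w x v := fun w e => dv w fun e' => e (by
    rw [hF]
    beta_reduce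
    rw [e', zero_mul])
  have goal : ∑ w ∈ bx g k, ω w * (lam (co n w x v) - ph q * ind ((co n w x v).Coprime q)) =
      ∑ w ∈ bx g k, F w := by rw [hF]
  rw [goal]
  constructor
  · have sh1 := hsh F (B * R) (by positivity) bd Fd
    have fb := fib (E := fun y => ∑ i ∈ range K, lam (y + i * q) - K * (ph q * ind (y.Coprime q)))
      (M := M) h0 win fun y hy e => hmul _ (by
        have c : y.Coprime q := by_contra fun c => e (ezero q1 (by
          have := (mem_Ioc.1 hy).1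
          omega) c)
        have := Nat.isCoprime_iff_coprime.2 (Nat.Coprime.mul_left cop (c.coprime_dvd_right xq))
        exact_mod_cast this)
    have eq : ∑ w ∈ bx g k, ∑ i ∈ range K, F (w + (i : ℤ) • σ) = ∑ w ∈ bx g k, ω w *
        (∑ i ∈ range K, lam (co n w x v + i * q) - K * (ph q * ind ((co n w x v).Coprime q))) :=
      sum_congr rfl fun w hw => by
        rw [sum_congr rfl fun i _ => Fs w hw i, ← mul_sum, sum_sub_distrib, sum_const, card_range,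
          nsmul_eq_mul]
    rw [← eq] at fb
    refine le_of_mul_le_mul_left ?_ K0
    generalize (∑ y ∈ Ioc (X + X / 100) (2 * X),
        |∑ i ∈ range K, lam (y + i * q) - K * (ph q * ind (y.Coprime q))|) = Z at fb ⊢
    rw [show K * (B * R * S + B * (M * (Z / K))) = K * (B * R * S) + B * (M * Z) by
      field_simp]
    have a := abs_le.1 sh1
    have b := abs_le.1 fb
    rw [← abs_of_pos K0, ← abs_mul, abs_of_pos K0]
    exact abs_le.2 ⟨by linarith [a.1, a.2, b.1, b.2], by linarith [a.1, a.2, b.1, b.2]⟩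
  · refine (abs_sum_le_sum_abs _ _).trans ?_
    rw [cnt, mul_sum]
    refine sum_le_sum fun w hw => ?_
    by_cases e : F w = 0
    · rw [e, abs_zero]
      exact mul_nonneg (by positivity) (ind_nonneg _)
    · rw [ind_pos (Fd w e), mul_one]
      simpa using bd w hw 0 K1

/-- the length of the progressions -/
theorem len {k e E D U : ℕ} {L X : ℝ} (hL : 2 ≤ L) (he : 2 ≤ e) (hE : 4 ≤ E)
    (h : 54 ^ 45 * L ^ (25 * E + 105) ≤ k) (D1 : 1 ≤ D) (Dl : (D : ℝ) ≤ L ^ 4) (lo : k ≤ U ^ 3)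
    (hi : U ≤ k) (X0 : 0 ≤ X) (hX : X ≤ L * (k : ℝ) ^ (e + 4)) :
    ∃ K : ℕ, 27 ≤ K ∧ (K : ℝ) * L ^ (E + 1) ≤ (k : ℝ) ^ e ∧
      X ^ (1 / 4 : ℝ) ≤ (K * (2 * D * U ^ 3) : ℕ) ∧ K * (2 * D * U ^ 3) ≤ k ^ (e + 3) ∧
      (54 * D * U ^ 3) ^ 4 ≤ (K * (2 * D * U ^ 3)) ^ 2 * U ^ 3 := by
  have L1 : 1 ≤ L := by linarith
  have pk : ∀ j, j ≤ 25 * E + 105 → 54 ^ 45 * L ^ j ≤ k := fun j hj =>
    le_trans (mul_le_mul_of_nonneg_left (pow_le_pow_right₀ L1 hj) (by positivity)) h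
  have k1 : (1 : ℝ) ≤ k := by
    have := pk 0 (by omega)
    norm_num at this ⊢
    omega
  have ke : (k : ℝ) ≤ (k : ℝ) ^ e := le_self_pow₀ k1 (by omega)
  have pE : 0 < L ^ (E + 1) := by positivity
  have b : (27 : ℝ) ≤ (k : ℝ) ^ e / L ^ (E + 1) := by
    rw [le_div_iff₀ pE]
    have := pk (E + 1) (by omega)
    have a : (27 : ℝ) * L ^ (E + 1) ≤ 54 ^ 45 * L ^ (E + 1) := by gcongr; norm_num
    linarith
  have K1 : 27 ≤ ⌊(k : ℝ) ^ e / L ^ (E + 1)⌋₊ := Nat.le_floor (by simpa using b)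
  have K2 := (le_div_iff₀ pE).1 (Nat.floor_le (a := (k : ℝ) ^ e / L ^ (E + 1)) (by positivity))
  have c := Nat.lt_floor_add_one ((k : ℝ) ^ e / L ^ (E + 1))
  generalize ⌊(k : ℝ) ^ e / L ^ (E + 1)⌋₊ = K at K1 K2 c
  have K1' : (27 : ℝ) ≤ K := by exact_mod_cast K1
  have d : (k : ℝ) ^ e ≤ 2 * K * L ^ (E + 1) := (div_le_iff₀ pE).1 (by linarith)
  have D1' : (1 : ℝ) ≤ D := by exact_mod_cast D1
  have lo' : (k : ℝ) ≤ (U : ℝ) ^ 3 := by exact_mod_cast lo
  refine ⟨K, K1, K2, ?_, ?_, ?_⟩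
  · have f : X ≤ ((K * (2 * D * U ^ 3) : ℕ) : ℝ) ^ 4 := by
      refine hX.trans (le_of_mul_le_mul_right ?_ (show 0 < (L ^ (E + 1)) ^ 4 by positivity))
      have a1 : L ^ (4 * E + 5) ≤ k := by
        have := pk (4 * E + 5) (by omega)
        have a : 1 * L ^ (4 * E + 5) ≤ 54 ^ 45 * L ^ (4 * E + 5) := by gcongr; norm_num
        linarith
      have a2 : (k : ℝ) ≤ ((k : ℝ) ^ e) ^ 3 := ke.trans (le_self_pow₀ (k1.trans ke) (by omega))
      push_cast
      calc L * (k : ℝ) ^ (e + 4) * (L ^ (E + 1)) ^ 4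
          = (k : ℝ) ^ e * L ^ (4 * E + 5) * (1 * (k : ℝ)) ^ 4 := by ring
        _ ≤ (k : ℝ) ^ e * ((k : ℝ) ^ e) ^ 3 * (D * (U : ℝ) ^ 3) ^ 4 := by
            gcongr
            exact a1.trans a2
        _ = ((k : ℝ) ^ e) ^ 4 * (D * (U : ℝ) ^ 3) ^ 4 := by ring
        _ ≤ (2 * K * L ^ (E + 1)) ^ 4 * (D * (U : ℝ) ^ 3) ^ 4 := by gcongr
        _ = _ := by ring
    refine (Real.rpow_le_rpow X0 f (by norm_num)).trans_eq ?_
    rw [show (1 / 4 : ℝ) = ((4 : ℕ) : ℝ)⁻¹ by norm_num,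
      Real.pow_rpow_inv_natCast (by positivity) (by norm_num)]
  · have a1 : 2 * (D : ℝ) ≤ L ^ (E + 1) := by
      calc 2 * (D : ℝ) ≤ L * L ^ 4 := by gcongr
        _ = L ^ 5 := by ring
        _ ≤ _ := pow_le_pow_right₀ L1 (by omega)
    have a2 : K * (2 * D) ≤ k ^ e := by
      have : (K : ℝ) * (2 * D) ≤ (k : ℝ) ^ e := le_trans (by gcongr) K2
      exact_mod_cast this
    calc K * (2 * D * U ^ 3) = K * (2 * D) * U ^ 3 := by ring
      _ ≤ k ^ e * k ^ 3 := by gcongr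
      _ = _ := by ring
  · have hi' : (U : ℝ) ≤ k := by exact_mod_cast hi
    have a2 : 54 ^ 4 * (D : ℝ) ^ 2 * (U : ℝ) ^ 3 ≤ (2 * K : ℝ) ^ 2 := by
      refine le_of_mul_le_mul_right ?_ (show 0 < (L ^ (E + 1)) ^ 2 by positivity)
      calc 54 ^ 4 * (D : ℝ) ^ 2 * (U : ℝ) ^ 3 * (L ^ (E + 1)) ^ 2
          ≤ 54 ^ 45 * (L ^ 4) ^ 2 * (k : ℝ) ^ 3 * (L ^ (E + 1)) ^ 2 := by gcongr <;> norm_num
        _ = 54 ^ 45 * L ^ (2 * E + 10) * (k : ℝ) ^ 3 := by ring
        _ ≤ k * (k : ℝ) ^ 3 := by gcongr; exact pk _ (by omega)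
        _ = ((k : ℝ) ^ 2) ^ 2 := by ring
        _ ≤ ((k : ℝ) ^ e) ^ 2 := by gcongr
        _ ≤ (2 * K * L ^ (E + 1)) ^ 2 := by gcongr
        _ = _ := by ring
    have a3 : 54 ^ 4 * D ^ 2 * U ^ 3 ≤ (2 * K) ^ 2 := by exact_mod_cast a2
    calc (54 * D * U ^ 3) ^ 4 = 54 ^ 4 * D ^ 2 * U ^ 3 * (D ^ 2 * U ^ 9) := by ring
      _ ≤ (2 * K) ^ 2 * (D ^ 2 * U ^ 9) := by gcongr
      _ = _ := by ring

theorem sh_le {L : ℝ} {g N x v k K e E : ℕ} {t : ℤ} (he : e + 2 = 4 * g) (v1 : 1 ≤ v)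
    (L0 : 0 < L) (hN : 9 * (N : ℝ) ^ 2 * (v : ℝ) ^ 2 ≤ L) (hx : x ≤ 3 * k)
    (hK : (K : ℝ) * L ^ (E + 1) ≤ (k : ℝ) ^ e) (i : Fin (2 * g + 1)) :
    (K : ℝ) * |(sh g ((N : ℤ) ^ 2 * Int.sign t) x v i : ℝ)| ≤ 1 / L ^ E * (k : ℝ) ^ xp g i.1 := by
  have s1 : |((Int.sign t : ℤ) : ℝ)| ≤ 1 := by
    have : |Int.sign t| ≤ 1 := by rcases Int.sign_trichotomy t with h | h | h <;> simp [h]
    exact_mod_cast this
  have v1' : (1 : ℝ) ≤ (v : ℝ) ^ 2 := one_le_pow₀ (by exact_mod_cast v1)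
  have hx' : (x : ℝ) ≤ 3 * k := by exact_mod_cast hx
  have N0 := sq_nonneg (N : ℝ)
  rw [one_div, inv_mul_eq_div, le_div_iff₀ (by positivity), sh]
  split_ifs with e1 e2
  · rw [xp, if_neg (by omega), show 2 * (i.1 + 1) = e by omega]
    push_cast
    rw [abs_mul, abs_mul, abs_sq, abs_sq]
    refine le_trans ?_ hK
    calc (K : ℝ) * ((N : ℝ) ^ 2 * |((Int.sign t : ℤ) : ℝ)| * (v : ℝ) ^ 2) * L ^ E
        ≤ K * ((N : ℝ) ^ 2 * 9 * (v : ℝ) ^ 2) * L ^ E := by gcongr; linarith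
      _ ≤ K * L * L ^ E := by gcongr; linarith
      _ = _ := by ring
  · rw [xp, if_neg (by omega), show 2 * (i.1 + 1) = e + 2 by omega]
    push_cast
    rw [abs_mul, abs_mul, abs_sq, abs_sq]
    calc (K : ℝ) * ((N : ℝ) ^ 2 * |((Int.sign t : ℤ) : ℝ)| * (x : ℝ) ^ 2) * L ^ E
        ≤ K * ((N : ℝ) ^ 2 * (v : ℝ) ^ 2 * (3 * k) ^ 2) * L ^ E := by gcongr; linarith
      _ = K * (9 * (N : ℝ) ^ 2 * (v : ℝ) ^ 2) * L ^ E * (k : ℝ) ^ 2 := by ring
      _ ≤ K * L * L ^ E * (k : ℝ) ^ 2 := by gcongr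
      _ = K * L ^ (E + 1) * (k : ℝ) ^ 2 := by ring
      _ ≤ (k : ℝ) ^ e * (k : ℝ) ^ 2 := by gcongr
      _ = _ := by ring
  · rw [Int.cast_zero, abs_zero, mul_zero, zero_mul]; positivity

theorem term_le (pha : PHAStmt) {k j q y : ℕ} (q1 : 1 ≤ q) (y1 : 0 < y) (hq : q ≤ k ^ j)
    (hy : y ≤ k ^ j) (hL : 2 * j + 2 ≤ Real.log k) (P : Prop) :
    |lam y - ph q * ind P| ≤ Real.log k ^ 2 := by
  have key : ∀ z : ℕ, 0 < z → z ≤ k ^ j → Real.log z ≤ j * Real.log k := fun z a b => by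
    rw [← Real.log_pow]
    exact Real.log_le_log (by exact_mod_cast a) (by exact_mod_cast b)
  have a := lam_nonneg y
  have b := (lam_le y).trans (key y y1 hy)
  obtain ⟨p1, p2⟩ := pha.1 q q1
  have c := mul_nonneg (zero_le_one.trans p1) (ind_nonneg P)
  have d : ph q * ind P ≤ ph q := mul_le_of_le_one_right (zero_le_one.trans p1) (ind_le_one P)
  have e := key q q1 hq
  have j0 : (0 : ℝ) ≤ j := Nat.cast_nonneg j
  have f : (2 * j + 2) * Real.log k ≤ Real.log k ^ 2 := by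
    rw [sq]; exact mul_le_mul_of_nonneg_right hL (by linarith)
  have : 0 ≤ j * Real.log k := mul_nonneg j0 (by linarith)
  exact abs_le.2 ⟨by nlinarith, by nlinarith⟩

theorem ms_le {k U m s : ℕ} {L : ℝ} (lo : k ≤ U ^ 3) (hm : m ^ 12 ≤ k) (k1 : 1 ≤ k)
    (hs : (s : ℝ) ≤ L ^ 3) (hL : L ^ 36 ≤ k) : m * s ≤ U := by
  have a : s ^ 12 ≤ k := by
    have : (s : ℝ) ^ 12 ≤ (L ^ 3) ^ 12 := by gcongr
    rw [← pow_mul] at this
    exact_mod_cast this.trans hL
  refine le_of_pow_le_pow_left₀ (n := 12) (by norm_num) (Nat.zero_le _) ?_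
  calc (m * s) ^ 12 = m ^ 12 * s ^ 12 * 1 * 1 := by ring
    _ ≤ k * k * k * k := by gcongr
    _ = k ^ 4 := by ring
    _ ≤ (U ^ 3) ^ 4 := by gcongr
    _ = U ^ 12 := by ring

end MomA

open MomA in
theorem mom_n : GEOStmt → PHAStmt → APLStmt → CBXStmt → SHStmt → SIZStmt → MULStmt → MOMStmt := by
  intro geo pha apl cbx shf siz mul g v N d A hg pv hN hd
  classical
  obtain ⟨c, c0, hc⟩ := shf g hg
  obtain ⟨c', c0', hc'⟩ := mul g hg
  obtain ⟨X0, hX0⟩ := eventually_atTop.1 (apl (2 * A + 6) 4)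
  obtain ⟨e, he⟩ : ∃ e, e + 2 = 4 * g := ⟨4 * g - 2, by omega⟩
  filter_upwards [siz g v hg pv, eventually_ge_atTop X0, eventually_ge_atTop (N ^ 2),
    ev_le_log (N ^ 2 * v ^ (4 * g)), ev_le_log (9 * N ^ 2 * v ^ 2),
    ev_le_log (34 * v ^ (4 * g + 2)), ev_le_log (2 * (4 * g + 3 : ℕ) + 2), ev_le_log (3 * c),
    ev_le_log (3 * c'), ev_le_log (36 * 3 ^ (2 * g + 1)),
    ev_log_le (54 ^ 45) (25 * (A + 4) + 105)] with k sz k0 kN l1 l2 l3 l4 l5 l6 l7 l8
  intro U m s s' ω B T ur m0 mk ne hs hs' hT mv cop h0 h1 h2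
  have d0 : 0 < d := Nat.pos_of_dvd_of_pos hd hN
  have v1 : 1 ≤ v := le_trans (by omega) pv.ge
  have B0 : 0 ≤ B := (h0 0 0).1.trans (h0 0 0).2
  have k1 : 1 ≤ k := le_trans (Nat.succ_le_of_lt (by positivity)) kN
  have L3 : 3 ≤ Real.log k := by
    have : (0 : ℝ) ≤ g := by positivity
    push_cast at l4
    linarith
  have tl := fun q y a b c d P => term_le pha (k := k) (j := 4 * g + 3) (q := q) (y := y) a b c d l4 P
  have lU : ∀ U : ℕ, 1 ≤ U → U ≤ k → 1 + Real.log (3 * U) ≤ 2 * Real.log k := fun U a b => by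
    have a' : (0 : ℝ) < U := by exact_mod_cast a
    have e1 : Real.log U ≤ Real.log k := Real.log_le_log a' (by exact_mod_cast b)
    have e2 := Real.log_le_sub_one_of_pos (show (0 : ℝ) < 3 by norm_num)
    rw [Real.log_mul (by norm_num) a'.ne']
    linarith
  have xl : ∀ X : ℕ, k ≤ X → Real.log k ≤ Real.log X := fun X h =>
    Real.log_le_log (by exact_mod_cast k1) (by exact_mod_cast h)
  generalize Real.log k = L at *
  have L1 : 1 ≤ L := by linarith
  have L0 : 0 < L := by linarith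
  have kp : (0 : ℝ) < k := by exact_mod_cast k1
  have mp : (0 : ℝ) < m := by exact_mod_cast m0
  have pk : ∀ j, j ≤ 25 * (A + 4) + 105 → 3 * L ^ j ≤ k := fun j hj => by
    refine le_trans ?_ l8
    gcongr
    norm_num
  have pk' : ∀ j, j ≤ 25 * (A + 4) + 105 → L ^ j ≤ k := fun j hj => by
    have := pk j hj
    have : 0 < L ^ j := by positivity
    linarith
  have U1 : 1 ≤ U := Nat.pos_of_ne_zero fun h => by
    have := ur.lo
    rw [h] at this
    omega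
  have m1 := ms_le ur.lo mk k1 hs (pk' 36 (by omega))
  have m2 := ms_le ur.lo mk k1 hs' (pk' 36 (by omega))
  have mk' : m ≤ k := (Nat.le_self_pow (by norm_num) m).trans mk
  have mdk : m * d ≤ k := by
    refine le_of_pow_le_pow_left₀ (n := 2) (by norm_num) (Nat.zero_le _) ?_
    have a : m ^ 2 ≤ k := (Nat.pow_le_pow_right m0 (by norm_num)).trans mk
    have b : d ^ 2 ≤ k := (Nat.pow_le_pow_left (Nat.le_of_dvd hN hd) 2).trans kN
    calc (m * d) ^ 2 = m ^ 2 * d ^ 2 := by ring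
      _ ≤ k * k := by gcongr
      _ = k ^ 2 := by ring
  have md0 : 0 < m * d := by positivity
  obtain ⟨D, hD⟩ : ∃ D, D = N ^ 2 / d * v ^ (4 * g) * ((s : ℤ) - s').natAbs := ⟨_, rfl⟩
  have D1 : 1 ≤ D := by
    have a : 0 < N ^ 2 / d := Nat.div_pos
      ((Nat.le_of_dvd hN hd).trans (Nat.le_self_pow two_ne_zero N)) d0
    have b : 0 < ((s : ℤ) - s').natAbs := by omega
    rw [hD]
    exact Nat.succ_le_of_lt (by positivity)
  have Dl : (D : ℝ) ≤ L ^ 4 := by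
    have a : ((N ^ 2 / d : ℕ) : ℝ) ≤ (N : ℝ) ^ 2 := by exact_mod_cast Nat.div_le_self _ _
    have b : ((((s : ℤ) - s').natAbs : ℕ) : ℝ) ≤ L ^ 3 := by
      rcases (show ((s : ℤ) - s').natAbs ≤ s ∨ ((s : ℤ) - s').natAbs ≤ s' by omega) with h | h
      · exact le_trans (by exact_mod_cast h) hs
      · exact le_trans (by exact_mod_cast h) hs'
    rw [hD, Nat.cast_mul, Nat.cast_mul, Nat.cast_pow]
    calc _ ≤ (N : ℝ) ^ 2 * (v : ℝ) ^ (4 * g) * L ^ 3 := by gcongr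
      _ ≤ L * L ^ 3 := by gcongr
      _ = _ := by ring
  have qe : ∀ u, ql g v N d m s s' u = D * ((u + m * s) ^ 2 * (2 * u + m * (s + s'))) :=
    fun u => by rw [hD, ql]
  obtain ⟨P, hP⟩ : ∃ P, P = (k * v) ^ (4 * g + 2) := ⟨_, rfl⟩
  have P1 : k ^ (4 * g + 2) ≤ P := hP ▸ Nat.pow_le_pow_left (Nat.le_mul_of_pos_right k v1) _
  obtain ⟨X, hX⟩ : ∃ X, X = 34 * P / (m * d) := ⟨_, rfl⟩
  have x1 : (X : ℝ) * m ≤ L * (k : ℝ) ^ (4 * g + 2) := by
    have a : X * m ≤ 34 * P := by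
      have := Nat.div_mul_le_self (34 * P) (m * d)
      rw [← hX] at this
      exact le_trans (Nat.mul_le_mul_left X (Nat.le_mul_of_pos_right m d0)) this
    calc (X : ℝ) * m ≤ 34 * ((k : ℝ) * v) ^ (4 * g + 2) := by rw [hP] at a; exact_mod_cast a
      _ = 34 * (v : ℝ) ^ (4 * g + 2) * (k : ℝ) ^ (4 * g + 2) := by ring
      _ ≤ _ := by gcongr
  have x5 : (X : ℝ) ≤ L * (k : ℝ) ^ (4 * g + 2) :=
    le_trans (le_mul_of_one_le_right (by positivity) (by exact_mod_cast m0)) x1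
  have x2 : k ^ (4 * g + 1) ≤ X := by
    rw [hX, Nat.le_div_iff_mul_le md0]
    calc k ^ (4 * g + 1) * (m * d) ≤ k ^ (4 * g + 1) * k := by gcongr
      _ = k ^ (4 * g + 2) := by ring
      _ ≤ 34 * P := by omega
  have x3 : k ≤ X := (Nat.le_self_pow (by omega) k).trans x2
  have x4 := xl X x3
  have x6 : 3 * X ≤ k ^ (4 * g + 3) := by
    have a := pk 1 (by omega)
    have : 3 * (X : ℝ) ≤ (k : ℝ) ^ (4 * g + 3) := by
      calc 3 * (X : ℝ) ≤ 3 * (L * (k : ℝ) ^ (4 * g + 2)) := by gcongr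
        _ = 3 * L ^ 1 * (k : ℝ) ^ (4 * g + 2) := by ring
        _ ≤ k * (k : ℝ) ^ (4 * g + 2) := by gcongr
        _ = _ := by ring
    exact_mod_cast this
  obtain ⟨K, K1, K2, K3, K4, K5⟩ := len (k := k) (e := e) (E := A + 4) (D := D) (U := U)
    (X := X) (by linarith) (by omega) (by omega) l8 D1 Dl ur.lo ur.hi
    (by positivity)
    (by rwa [show e + 4 = 4 * g + 2 by omega])
  obtain ⟨h, hh⟩ : ∃ h, h = K * (2 * D * U ^ 3) := ⟨_, rfl⟩
  rw [← hh] at K3 K4 K5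
  have hX' : h ≤ X := by
    rw [show e + 3 = 4 * g + 1 by omega] at K4
    exact K4.trans x2
  have ap := hX0 X (k0.trans x3) U h D (m * s) (m * (s + s')) (ql g v N d m s s') T
    ⟨U1, D1, Dl.trans (by gcongr), m1, by rw [mul_add]; omega, hT, fun u _ => qe u, K3, hX', K5⟩
  have v0 : 0 < vol g k := by rw [vol]; positivity
  have key := fun u (hu : u ∈ T) => by
    have hu' := mem_Ioc.1 (hT hu)
    have q1 : 2 * D * U ^ 3 ≤ ql g v N d m s s' u := by
      rw [qe]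
      calc 2 * D * U ^ 3 = D * (U ^ 2 * (2 * U)) := by ring
        _ ≤ _ := by gcongr <;> omega
    have q2 : ql g v N d m s s' u ≤ h := by
      rw [qe, hh]
      calc _ ≤ D * ((3 * U) ^ 2 * (6 * U)) := by
            gcongr
            · omega
            · rw [mul_add]; omega
        _ = 27 * (2 * D * U ^ 3) := by ring
        _ ≤ _ := by gcongr
    have q0 : 1 ≤ ql g v N d m s s' u := le_trans (Nat.succ_le_of_lt (by positivity)) q1
    have q3 : h / ql g v N d m s s' u ≤ K := Nat.div_le_of_le_mul (by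
      rw [hh, mul_comm]
      gcongr)
    have c1 : m.Coprime (u + m * s) := (Nat.coprime_add_mul_left_right _ _ _).2 (cop u hu).1.symm
    have c2 := Nat.coprime_mul_iff_right.1 (cop u hu).2
    have c3 : (u + m * s).Coprime (2 * v) :=
      Nat.Coprime.mul_right (c2.1.coprime_dvd_right (Dvd.dvd.trans (by norm_num) pv.dv)) c2.1
    have o := one (g := g) (k := k) (m := m) (n := m * d) (x := u + m * s) (v := v)
      (q := ql g v N d m s s' u) (K := h / ql g v N d m s s' u) (X := X)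
      (σ := sh g ((N : ℤ) ^ 2 * Int.sign ((s : ℤ) - s')) (u + m * s' : ℕ) v) (ω := ω u) (B := B)
      (R := L ^ 2) (M := c' * (u + m * s).divisors.card * vol g k / (k : ℝ) ^ (4 * g + 2))
      (S := c * (1 / L ^ (A + 4)) * vol g k / m)
      (fun F B' b0 => hc k _ m (u + m * s) v _ F B' _ k1 m0 (c1.mul_right mv) b0
        (by
          rw [one_div, inv_mul_eq_div, le_div_iff₀ (by positivity), sq]
          have := pk' (A + 4) (by omega)
          gcongr)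
        ((div_le_one (by positivity)).2 (one_le_pow₀ L1))
        (sh_le he v1 L0 l2 (by have := ur.hi; omega) (le_trans (by gcongr) K2)))
      (fun y hy => (le_div_iff₀ (by positivity)).2 (hc' k _ v y k1 (by omega) v1 c3 hy))
      (Nat.div_pos q2 q0) md0 (dvd_mul_right m d) q0 ((Nat.div_mul_le_self _ _).trans hX')
      (by rw [qe]; exact ((dvd_pow_self _ two_ne_zero).mul_right _).mul_left _)
      (Nat.Coprime.mul_left c1 c2.2.symm) (h0 u) (h1 u hu) (h2 u hu)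
      (fun w hw e => by
        obtain ⟨a, b, -⟩ := sz w hw (u + m * s) (by have := ur.hi; omega)
        have f := co_eq (h2 u hu w e) (le_trans (by positivity) a)
        refine ⟨hX ▸ mem_win md0 (mdk.trans ((Nat.le_self_pow (by omega) k).trans P1)) ?_ ?_, f⟩
        · rw [hP]; rw [f] at a; exact_mod_cast a
        · rw [hP]; rw [f] at b; exact_mod_cast b)
      (fun w i => by
        rw [smul_sh, (geo g hg).2.1, Nat.cast_mul i, mul_left_comm _ (i : ℤ), ql_mul hN hd]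
        ring)
      (by positivity) fun y a b P => tl _ y q0 a (by omega) (by omega) P
    exact And.intro o.1 (o.2.trans (mul_le_mul_of_nonneg_left
      (cnt_dvd geo cbx hg m0 mk' (c1.mul_right mv)) (by positivity)))
  have cT : (T.card : ℝ) ≤ U := by
    have := card_le_card hT
    rw [Nat.card_Ioc] at this
    exact_mod_cast (show T.card ≤ U by omega)
  have bd := (bad (R := L ^ (A + 4)) m1 hT).trans
    (mul_le_mul_of_nonneg_left (lU U U1 ur.hi) (by positivity))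
  rw [← sum_filter_add_sum_filter_not T
    fun u => ((u + m * s).divisors.card : ℝ) ≤ L ^ (A + 4)]
  have t1 : B * L ^ 2 * (c * (1 / L ^ (A + 4)) * vol g k / m) * U ≤
      B * vol g k * U / (m * L ^ A) / 3 := by
    rw [show B * L ^ 2 * (c * (1 / L ^ (A + 4)) * vol g k / m) * U =
      B * vol g k * U / (m * L ^ A) / 3 * (3 * c / L ^ 2) by field_simp; ring]
    exact mul_le_of_le_one_right (by positivity)
      ((div_le_one (by positivity)).2 (l5.trans (le_self_pow₀ L1 two_ne_zero)))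
  have t2 : B * (c' * L ^ (A + 4) * vol g k / (k : ℝ) ^ (4 * g + 2)) *
      ((U : ℝ) * X / Real.log X ^ (2 * A + 6)) ≤ B * vol g k * U / (m * L ^ A) / 3 := by
    have a : (X : ℝ) ≤ L * (k : ℝ) ^ (4 * g + 2) / m := (le_div_iff₀ mp).2 x1
    calc _ ≤ B * (c' * L ^ (A + 4) * vol g k / (k : ℝ) ^ (4 * g + 2)) *
          ((U : ℝ) * (L * (k : ℝ) ^ (4 * g + 2) / m) / L ^ (2 * A + 6)) := by gcongr
      _ = B * vol g k * U / (m * L ^ A) / 3 * (3 * c' / L) := by field_simp; ring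
      _ ≤ _ := mul_le_of_le_one_right (by positivity) ((div_le_one L0).2 l6)
  have t3 : B * L ^ 2 * (2 * 3 ^ (2 * g + 1) * vol g k / m) * (3 * U * (2 * L) / L ^ (A + 4)) ≤
      B * vol g k * U / (m * L ^ A) / 3 := by
    rw [show B * L ^ 2 * (2 * 3 ^ (2 * g + 1) * vol g k / m) * (3 * U * (2 * L) / L ^ (A + 4)) =
      B * vol g k * U / (m * L ^ A) / 3 * (36 * 3 ^ (2 * g + 1) / L) by field_simp; ring]
    exact mul_le_of_le_one_right (by positivity) ((div_le_one L0).2 l7)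
  refine le_trans (add_le_add (le_trans ?_ (add_le_add t1 t2)) (le_trans ?_ t3))
    (le_of_eq (by ring))
  · refine le_trans ?_ (add_le_add (mul_le_mul_of_nonneg_left cT (by positivity))
      (mul_le_mul_of_nonneg_left ap (by positivity)))
    rw [mul_comm _ (T.card : ℝ), ← nsmul_eq_mul, ← sum_const, mul_sum, ← sum_add_distrib]
    refine le_trans (sum_le_sum fun u hu => ?_) (sum_le_sum_of_subset_of_nonneg
      (filter_subset _ T) fun u _ _ => by positivity)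
    obtain ⟨hu, τ⟩ := mem_filter.1 hu
    refine (key u hu).1.trans (add_le_add le_rfl ?_)
    rw [mul_assoc B]
    gcongr
  · refine (sum_le_card_nsmul _ _ _ fun u hu => (key u (mem_filter.1 hu).1).2).trans ?_
    rw [nsmul_eq_mul, mul_comm]
    exact mul_le_mul_of_nonneg_left ((le_div_iff₀ (by positivity)).2 bd) (by positivity)

end Pool.Agent.MP_a43263_nt.N2
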