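import Pool.Agent.MP_a43263_nt.N2.SpecC
import Pool.Agent.MP_a43263_nt.K2.Geo

/-! THEOREM N2: the first moment. -/

set_option autoImplicit false

noncomputable section

namespace Pool.Agent.MP_a43263_nt.N2

open Finset Filter K2

namespace MoneA

variable {g k v N d a m u x U z p : ℕ}

theorem card_cls (r a U : ℕ) (hr : 0 < r) (h : r ≤ U) :
    (((Ioc U (2 * U)).filter fun u => u ≡ a [MOD r]).card : ℝ) ≤ 2 * (U / (r : ℝ)) := by
  have e := Nat.Ioc_filter_modEq_card U (2 * U) hr a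
  have r0 : (0 : ℚ) < r := by exact_mod_cast hr
  have b1 := Int.floor_le ((((2 * U : ℕ) : ℚ) - a) / r)
  have b2 := Int.lt_floor_add_one (((U : ℚ) - a) / r)
  have b3 : (1 : ℚ) ≤ U / r := (one_le_div r0).2 (by exact_mod_cast h)
  have b4 : (((2 * U : ℕ) : ℚ) - a) / r = ((U : ℚ) - a) / r + U / r := by
    push_cast
    ring
  have f : (((Ioc U (2 * U)).filter fun u => u ≡ a [MOD r]).card : ℚ) ≤ 2 * (U / (r : ℚ)) := by
    have e' := congrArg (fun t : ℤ => (t : ℚ)) e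
    simp only [Int.cast_natCast, Int.cast_max, Int.cast_sub, Int.cast_zero] at e'
    rw [e']
    exact max_le (by linarith) (by linarith)
  have f' := (Rat.cast_le (K := ℝ)).2 f
  push_cast at f'
  exact f'

theorem two_le_xp (hg : 1 ≤ g) (i : ℕ) : 2 ≤ xp g i := by
  unfold xp
  split_ifs <;> omega

theorem vol_nonneg : 0 ≤ vol g k := by unfold vol; positivity

theorem box (cbx : CBXStmt) (hg : 1 ≤ g) (hk : 1 ≤ k) (r : Vec g) (M : Fin (2 * g + 1) → ℕ)
    (hM : ∀ i, 0 < M i) (hm : 0 < m) (c1 : m.Coprime (x * v))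
    (c2 : ∀ i, i.1 + 1 = 2 * g → m.Coprime (M i)) (hs : ∀ i, M i * m ≤ k ^ 2) :
    cnt g k (fun w => (∀ i, (M i : ℤ) ∣ w i - r i) ∧ (m : ℤ) ∣ Gv w x v) ≤
      3 ^ (2 * g + 1) * vol g k / ((∏ i, (M i : ℝ)) * m) := by
  classical
  rw [cnt_eq_card]
  refine (cbx g (fun i => ce g k i.1 - (k : ℤ) ^ xp g i.1) r (fun i => 2 * k ^ xp g i.1) M m x v
    hg hM hm c1 c2 _ fun w => ?_).1.trans ?_
  · simp only [mem_filter, mem_bx]
    refine and_congr_left fun _ => forall_congr' fun i => and_congr_right fun _ => ?_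
    push_cast
    constructor <;> intro h <;> linarith
  · have e : ∏ i : Fin (2 * g + 1), (if i.1 + 1 = 2 * g then (m : ℝ) else 1) = m := by
      rw [Fintype.prod_eq_single (⟨2 * g - 1, by omega⟩ : Fin (2 * g + 1))
        fun i hi => if_neg fun e => hi (Fin.ext (by simp only; omega)), if_pos (by simp only; omega)]
    have e3 : (3 : ℝ) ^ (2 * g + 1) = ∏ _i : Fin (2 * g + 1), (3 : ℝ) := by
      rw [prod_const, card_univ, Fintype.card_fin]
    rw [GeoA.vol_eq, e3, ← prod_mul_distrib, ← e, ← prod_mul_distrib, ← prod_div_distrib]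
    refine prod_le_prod (fun i _ => by split_ifs <;> positivity) fun i _ => ?_
    have m1 : (1 : ℝ) ≤ m := by exact_mod_cast hm
    have M0 : (0 : ℝ) < M i := by exact_mod_cast hM i
    have h1 : (M i : ℝ) * m ≤ (k : ℝ) ^ xp g i.1 := by
      exact_mod_cast (hs i).trans (Nat.pow_le_pow_right hk (two_le_xp hg i.1))
    have h2 : (M i : ℝ) * (if i.1 + 1 = 2 * g then (m : ℝ) else 1) ≤ (k : ℝ) ^ xp g i.1 := by
      split_ifs
      · exact h1
      · nlinarith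
    have h3 : 0 < (M i : ℝ) * (if i.1 + 1 = 2 * g then (m : ℝ) else 1) := by
      split_ifs <;> positivity
    push_cast
    rw [div_add_one h3.ne']
    gcongr
    linarith

theorem box1 (cbx : CBXStmt) (hg : 1 ≤ g) (hk : 1 ≤ k) (wb : Vec g) (hN : 0 < N) (hm : 0 < m)
    (c1 : m.Coprime (x * v)) (c2 : m.Coprime N) (hs : N ^ 2 * m ≤ k ^ 2) :
    cnt g k (Cm v N m wb x) ≤ 3 ^ (2 * g + 1) * (vol g k / (m * (N : ℝ) ^ (2 * (2 * g + 1)))) := by
  refine le_trans (cnt_mono fun w _ h => ?_) ((box cbx hg hk wb (fun _ => N ^ 2)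
    (fun _ => by positivity) hm c1 (fun _ _ => c2.pow_right 2) fun _ => hs).trans_eq ?_)
  · exact ⟨fun i => by exact_mod_cast h.1 i, h.2⟩
  · rw [prod_const, card_univ, Fintype.card_fin]
    push_cast
    ring

theorem box2 (cbx : CBXStmt) (hg : 1 ≤ g) (hk : 1 ≤ k) (wb : Vec g) (hN : 0 < N) (hm : 0 < m)
    (c1 : m.Coprime (x * v)) (c2 : m.Coprime N) (hp : 0 < p) (c3 : N.Coprime p)
    (hs : N ^ 2 * p * m ≤ k ^ 2) :
    cnt g k (fun w => Cm v N m wb x w ∧ (p : ℤ) ∣ w (Fin.last _)) ≤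
      3 ^ (2 * g + 1) * (vol g k / (m * (N : ℝ) ^ (2 * (2 * g + 1)))) * (1 / (p : ℝ)) := by
  have c4 : IsCoprime ((N : ℤ) ^ 2) p := (Nat.isCoprime_iff_coprime.2 c3).pow_left
  obtain ⟨α, β, e⟩ := id c4
  refine le_trans (cnt_mono fun w _ h => ?_) ((box cbx hg hk
    (fun i => if i = Fin.last _ then wb i * (β * p) else wb i)
    (fun i => N ^ 2 * if i = Fin.last _ then p else 1)
    (fun _ => by split_ifs <;> positivity) hm c1 (fun i hi => ?_) fun i => ?_).trans_eq ?_)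
  · refine ⟨fun i => ?_, h.1.2⟩
    by_cases q : i = Fin.last _
    · subst q
      simp only [if_true]
      push_cast
      refine c4.mul_dvd ?_ (dvd_sub h.2 ((dvd_mul_left _ _).mul_left _))
      have : w (Fin.last _) - wb (Fin.last _) * (β * p) =
          w (Fin.last _) - wb (Fin.last _) + (N : ℤ) ^ 2 * (α * wb (Fin.last _)) := by
        linear_combination (-wb (Fin.last _)) * e
      rw [this]
      exact dvd_add (h.1.1 _) (dvd_mul_right _ _)
    · simp only [if_neg q, mul_one]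
      exact_mod_cast h.1.1 i
  · rw [if_neg fun q => by rw [q, Fin.val_last] at hi; omega, mul_one]
    exact c2.pow_right 2
  · refine le_trans ?_ hs
    split_ifs
    · exact le_rfl
    · gcongr
      exact hp
  · simp only [Nat.cast_mul, Nat.cast_pow, Nat.cast_ite, Nat.cast_one]
    rw [prod_mul_distrib, prod_const, card_univ, Fintype.card_fin, prod_ite_eq', if_pos (mem_univ _)]
    ring

theorem gv_zero (w : Vec g) (v : ℤ) : Gv w 0 v = w (Fin.last _) ^ 2 * (v ^ 2) ^ (2 * g + 1) := by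
  rw [Gv, sum_eq_single (Fin.last _) (fun i _ hi => ?_) fun h => absurd (mem_univ _) h]
  · simp [sv]
  · have : 2 * g - i.1 ≠ 0 := by have := Fin.val_lt_last hi; omega
    simp [this]

theorem gv_dvd (w : Vec g) (h : p ∣ x) :
    (p : ℤ) ∣ Gv w x v ↔ (p : ℤ) ∣ w (Fin.last _) ^ 2 * ((v : ℤ) ^ 2) ^ (2 * g + 1) := by
  rw [← gv_zero]
  exact (GeoA.gv_mod (M := p) (w := w) (w' := w) (u := x) (u' := 0) v (fun _ => rfl)
    (Int.natCast_dvd_natCast.2 h).modEq_zero_int).dvd_iff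

theorem adm {wb w : Vec g} (hN : 0 < N) (hd : d ∣ N) (h : Ad1 v N d wb a) (hx : x ≡ a [MOD N ^ 2])
    (hw : Cw N wb w) : Ad1 v N d w x :=
  GeoA.quot hN hd (c := 1) (by
    rw [one_mul]
    exact GeoA.gv_mod _ (fun i => Int.modEq_iff_dvd.2 (by exact_mod_cast hw i))
      (Int.natCast_modEq_iff.2 hx.symm)) isCoprime_one_left h

theorem cm_shift {wb w : Vec g} (s : ℕ) : Cm v N m wb (u + m * s) w ↔ Cm v N m wb u w :=
  and_congr_right fun _ => (GeoA.gv_mod (M := m) (w := w) (w' := w) v (fun _ => rfl)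
    (Int.natCast_modEq_iff.2 (Nat.ModEq.symm (by simp [Nat.ModEq])))).dvd_iff

theorem sh_dvd (t x y : ℤ) (i : Fin (2 * g + 1)) : (N : ℤ) ^ 2 ∣ sh g ((N : ℤ) ^ 2 * t) x y i := by
  unfold sh
  split_ifs
  exacts [(dvd_mul_right _ _).mul_right _, (dvd_mul_right _ _).mul_right _, dvd_zero _]

theorem cop_v {wb : Vec g} (h : Ad1 v N d wb a) (hd : d.Coprime v)
    (hv : ∀ p : ℕ, p.Prime → p ∣ v → p ∣ N) (hp : p.Prime) (h1 : p ∣ v) : ¬p ∣ a := fun h2 => by
  have b1 : (p : ℤ) ∣ Gv wb a v := (gv_dvd wb h2).2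
    ((((Int.natCast_dvd_natCast.2 h1).trans (dvd_pow_self _ two_ne_zero)).trans
      (dvd_pow_self _ (Nat.succ_ne_zero _))).mul_left _)
  have pz := Nat.prime_iff_prime_int.1 hp
  rw [← Int.mul_ediv_cancel' h.1] at b1
  rcases pz.dvd_or_dvd b1 with e | e
  · exact hp.one_lt.ne' (Nat.eq_one_of_dvd_coprimes hd (Int.natCast_dvd_natCast.1 e) h1)
  · exact pz.not_isUnit (h.2.isUnit_of_dvd' e (Int.natCast_dvd_natCast.2 (hv p hp h1)))

theorem ex_nonneg (N z x : ℕ) : 0 ≤ ex N z x := sum_nonneg fun _ _ => by positivity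

theorem ex_one (hz : 1 ≤ z) : ex N z 1 = 0 :=
  sum_eq_zero fun e he => by
    obtain ⟨h1, h2, -⟩ := mem_filter.1 he
    have := Nat.dvd_one.1 (Nat.dvd_of_mem_divisors h1)
    omega

theorem md_dvd {wb w : Vec g} (hN : 0 < N) (hd : d ∣ N) (h : Ad1 v N d wb a)
    (hx : x ≡ a [MOD N ^ 2]) (c : m.Coprime N) (hw : Cm v N m wb x w) :
    ((m * d : ℕ) : ℤ) ∣ Gv w x v := by
  push_cast
  exact (Nat.isCoprime_iff_coprime.2 (c.coprime_dvd_right hd)).mul_dvd hw.2 (adm hN hd h hx hw.1).1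

/-- the vectors whose cofactor is not coprime to the modulus -/
theorem bad (cbx : CBXStmt) (hg : 1 ≤ g) (hk : 1 ≤ k) {wb : Vec g} {s y D : ℕ} (hN : 0 < N)
    (hz : ∀ p : ℕ, p.Prime → (p ∣ N ↔ p ≤ z)) (v0 : 0 < v) (vz : v ≤ z) (hd : d ∣ N)
    (h : Ad1 v N d wb a) (hm : 0 < m) (c1 : m.Coprime N) (c2 : m.Coprime v) (c3 : u.Coprime m)
    (hx : x = u + m * s) (xa : x ≡ a [MOD N ^ 2]) (x0 : 0 < x) (xy : x ≤ y)
    (hs : N ^ 2 * y * m ≤ k ^ 2) (hD : ∀ p : ℕ, p.Prime → p ∣ D → p ≤ z)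
    (h0 : ∀ w ∈ bx g k, 0 ≤ Gv w x v)
    (p3 : ∀ x : ℕ, ∑ p ∈ x.primeFactors.filter (fun p => z < p), 1 / (p : ℝ) ≤ ex N z x) :
    cnt g k (fun w => Cm v N m wb u w ∧ ¬(co (m * d) w x v).Coprime (D * 1 * (x ^ 2 * y))) ≤
      3 ^ (2 * g + 1) * (vol g k / (m * (N : ℝ) ^ (2 * (2 * g + 1)))) * (ex N z x + ex N z y) := by
  obtain ⟨W, hW⟩ : ∃ W : ℝ, W = 3 ^ (2 * g + 1) *
    (vol g k / (m * (N : ℝ) ^ (2 * (2 * g + 1)))) := ⟨_, rfl⟩
  have W0 : 0 ≤ W := by have := vol_nonneg (g := g) (k := k); rw [hW]; positivity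
  have y0 : 0 < y := x0.trans_le xy
  have nv : ∀ p : ℕ, z < p → ¬p ∣ v := fun p a b => by have := Nat.le_of_dvd v0 b; omega
  have cN : ∀ p : ℕ, p.Prime → z < p → p.Coprime N := fun p a b =>
    (Nat.Prime.coprime_iff_not_dvd a).2 fun e => by have := (hz p a).1 e; omega
  have mx : m.Coprime x := by
    rw [hx]
    exact (Nat.coprime_add_mul_left_right _ _ _).2 c3.symm
  have sz : ∀ p ≤ y, N ^ 2 * p * m ≤ k ^ 2 := fun p e => le_trans (by gcongr) hs
  rw [← hW, mul_add]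
  refine (cnt_le_add
    (Q := fun w => ∃ p ∈ x.primeFactors.filter (fun p => z < p),
      Cm v N m wb u w ∧ (p : ℤ) ∣ w (Fin.last _))
    (R := fun w => ∃ p ∈ (y.primeFactors.filter (fun p => z < p)).filter (fun p => ¬p ∣ x),
      Cm v N (m * p) wb x w) ?_).trans (add_le_add ?_ ?_)
  · rintro w hw ⟨h1, h2⟩
    obtain ⟨p, a1, a2, a3⟩ := Nat.Prime.not_coprime_iff_dvd.1 h2
    have h1' : Cm v N m wb x w := by rw [hx]; exact_mod_cast (cm_shift s).2 h1
    obtain ⟨G, hG⟩ := md_dvd hN hd h xa c1 h1'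
    have d0 : 0 < d := Nat.pos_of_dvd_of_pos hd hN
    have md : ((m * d : ℕ) : ℤ) ≠ 0 := by positivity
    have b4 : (p : ℤ) ∣ G := by
      have := Int.natCast_dvd_natCast.2 a2
      rwa [co, Int.toNat_of_nonneg (Int.ediv_nonneg (h0 w hw) (Nat.cast_nonneg _)), hG,
        Int.mul_ediv_cancel_left _ md] at this
    have b2 := (adm hN hd h xa h1.1).2
    rw [hG, show ((m * d : ℕ) : ℤ) * G = d * (m * G) by push_cast; ring,
      Int.mul_ediv_cancel_left _ (by positivity)] at b2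
    have pz := Nat.prime_iff_prime_int.1 a1
    have b7 : z < p := not_le.1 fun e => pz.not_isUnit
      (b2.isUnit_of_dvd' (b4.mul_left _) (Int.natCast_dvd_natCast.2 ((hz p a1).2 e)))
    by_cases q : p ∣ x
    · refine Or.inl ⟨p, mem_filter.2 ⟨Nat.mem_primeFactors.2 ⟨a1, q, x0.ne'⟩, b7⟩, h1, ?_⟩
      rcases pz.dvd_or_dvd ((gv_dvd w q).1 (hG ▸ b4.mul_left _)) with e | e
      · exact pz.dvd_of_dvd_pow e
      · exact absurd (Int.natCast_dvd_natCast.1 (pz.dvd_of_dvd_pow (pz.dvd_of_dvd_pow e))) (nv p b7)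
    · refine Or.inr ⟨p, mem_filter.2 ⟨mem_filter.2 ⟨Nat.mem_primeFactors.2 ⟨a1, ?_, y0.ne'⟩, b7⟩,
        q⟩, h1.1, ?_⟩
      · rw [mul_one] at a3
        rcases (Nat.Prime.dvd_mul a1).1 a3 with e | e
        · exact absurd (hD p a1 e) (by omega)
        · exact ((Nat.Prime.dvd_mul a1).1 e).resolve_left fun f => q (a1.dvd_of_dvd_pow f)
      · rw [hG]
        push_cast
        rw [mul_assoc]
        exact mul_dvd_mul_left _ (b4.mul_left _)
  · refine (cnt_le_sum _ _ fun _ _ h => h).trans (le_trans (sum_le_sum fun p hp => ?_)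
      ((mul_sum _ _ W).symm.trans_le (mul_le_mul_of_nonneg_left (p3 x) W0)))
    obtain ⟨a1, a2⟩ := mem_filter.1 hp
    have pp := Nat.prime_of_mem_primeFactors a1
    rw [hW]
    exact box2 cbx hg hk wb hN hm (Nat.Coprime.mul_right c3.symm c2) c1 pp.pos (cN p pp a2).symm
      (sz p ((Nat.le_of_mem_primeFactors a1).trans xy))
  · refine (cnt_le_sum _ _ fun _ _ h => h).trans (le_trans (sum_le_sum
      (g := fun p : ℕ => W * (1 / (p : ℝ))) fun p hp => ?_)
      ((sum_le_sum_of_subset_of_nonneg (filter_subset _ _) fun _ _ _ => by positivity).trans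
      ((mul_sum _ _ W).symm.trans_le (mul_le_mul_of_nonneg_left (p3 y) W0))))
    obtain ⟨a0, a3⟩ := mem_filter.1 hp
    obtain ⟨a1, a2⟩ := mem_filter.1 a0
    have pp := Nat.prime_of_mem_primeFactors a1
    refine (box1 cbx hg hk wb hN (Nat.mul_pos hm pp.pos) (Nat.Coprime.mul_left
      (Nat.Coprime.mul_right mx c2) (Nat.Coprime.mul_right ((Nat.Prime.coprime_iff_not_dvd pp).2 a3)
        ((Nat.Prime.coprime_iff_not_dvd pp).2 (nv p a2)))) (Nat.Coprime.mul_left c1 (cN p pp a2))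
      ?_).trans_eq ?_
    · exact le_trans (le_of_eq (by ring)) (sz p (Nat.le_of_mem_primeFactors a1))
    · rw [hW]
      push_cast
      ring

theorem fin (T : Finset ℕ) (S q c b E : ℕ → ℝ) {P V Y e ε r η : ℝ}
    (h : ∑ u ∈ T, |S u - q u * (c u - b u)| ≤ ε * (V * Y))
    (hu : ∀ u ∈ T, P ≤ q u ∧ q u ≤ P * (1 + 2 * E u) ∧ 0 ≤ b u ∧ b u ≤ c u ∧ c u ≤ e * V ∧
      b u ≤ e * V * E u ∧ 0 ≤ E u)
    (hE : ∑ u ∈ T, E u ≤ (4 * r + 2 * ε) * Y) (hT : (T.card : ℝ) ≤ 2 * Y) (P1 : 1 ≤ P)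
    (e1 : 1 ≤ e) (r0 : 0 ≤ r) (r1 : r ≤ 1) (ε0 : 0 ≤ ε) (ε1 : ε ≤ 1) (hη : 3 * e * ε ≤ η)
    (V0 : 0 ≤ V) (Y0 : 0 ≤ Y) :
    P * (∑ u ∈ T, c u - (η + 15 * e * r) * (V * Y)) ≤ ∑ u ∈ T, S u ∧
      ∑ u ∈ T, S u ≤ 15 * e * P * (V * Y) := by
  have R0 : 0 ≤ V * Y := by positivity
  have x1 : ε * (V * Y) ≤ P * (e * ε * (V * Y)) := by
    have : ε * (V * Y) * 1 ≤ ε * (V * Y) * (P * e) := by
      gcongr
      exact one_le_mul_of_one_le_of_one_le P1 e1
    linarith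
  have x2 : P * (e * V) * ∑ u ∈ T, E u ≤ P * (e * V) * ((4 * r + 2 * ε) * Y) := by gcongr
  constructor
  · have l : ∑ u ∈ T, (P * c u - P * (e * V) * E u - |S u - q u * (c u - b u)|) ≤ ∑ u ∈ T, S u :=
      sum_le_sum fun u hu' => by
        obtain ⟨a1, -, -, a4, -, a6, -⟩ := hu u hu'
        have y1 := neg_abs_le (S u - q u * (c u - b u))
        have y2 : P * (c u - b u) ≤ q u * (c u - b u) := by gcongr
        have y3 : P * b u ≤ P * (e * V * E u) := by gcongr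
        linarith
    rw [sum_sub_distrib, sum_sub_distrib, ← mul_sum, ← mul_sum] at l
    have x3 : P * (3 * e * ε * (V * Y)) ≤ P * (η * (V * Y)) := by gcongr
    have x4 : 0 ≤ P * (e * r * (V * Y)) := by positivity
    linarith
  · have l : ∑ u ∈ T, S u ≤
        ∑ u ∈ T, (P * (e * V) + 2 * (P * (e * V)) * E u + |S u - q u * (c u - b u)|) :=
      sum_le_sum fun u hu' => by
        obtain ⟨a1, a2, a3, a4, a5, -, a7⟩ := hu u hu'
        have y1 := le_abs_self (S u - q u * (c u - b u))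
        have y2 : q u * (c u - b u) ≤ P * (1 + 2 * E u) * (e * V) :=
          mul_le_mul a2 (by linarith) (by linarith) (by positivity)
        linarith
    rw [sum_add_distrib, sum_add_distrib, sum_const, nsmul_eq_mul, ← mul_sum] at l
    have x3 : (T.card : ℝ) * (P * (e * V)) ≤ 2 * Y * (P * (e * V)) := by gcongr
    have x4 : P * e * (V * Y) * r ≤ P * e * (V * Y) * 1 := by gcongr
    have x5 : P * e * (V * Y) * ε ≤ P * e * (V * Y) * 1 := by gcongr
    linarith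

theorem evU (c : ℝ) : ∀ᶠ k : ℕ in atTop, ∀ U : ℕ, k ≤ U ^ 3 → c ≤ U := by
  filter_upwards [tendsto_natCast_atTop_atTop.eventually_ge_atTop (c ^ 3)] with k hk U h
  exact le_of_pow_le_pow_left₀ three_ne_zero (Nat.cast_nonneg U) (hk.trans (by exact_mod_cast h))

/-- the weight of a cofactor is bounded -/
theorem lam_co {w : Vec g} (a0 : 0 ≤ Gv w x v) (b : Gv w x v ≤ 65 * ((k : ℤ) * v) ^ (4 * g + 2))
    (k2 : 65 * v ^ (4 * g + 2) ≤ k) : lam (co d w x v) ≤ (4 * g + 3) * Real.log k := by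
  have l := Real.log_natCast_nonneg k
  have c : (co d w x v : ℤ) ≤ 65 * ((k : ℤ) * v) ^ (4 * g + 2) := by
    rw [co, Int.toNat_of_nonneg (Int.ediv_nonneg a0 (Nat.cast_nonneg d))]
    exact (Int.ediv_le_self _ a0).trans b
  have c' : co d w x v ≤ 65 * (k * v) ^ (4 * g + 2) := by exact_mod_cast c
  have e : co d w x v ≤ k ^ (4 * g + 3) := by
    calc _ ≤ k ^ (4 * g + 2) * (65 * v ^ (4 * g + 2)) := c'.trans_eq (by ring)
      _ ≤ k ^ (4 * g + 2) * k := by gcongr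
      _ = _ := by ring
  unfold lam
  split_ifs with h
  · have := Real.log_le_log (by exact_mod_cast h.pos) ((Nat.cast_le (α := ℝ)).2 e)
    rw [Nat.cast_pow, Real.log_pow] at this
    exact_mod_cast this
  · positivity

theorem small {s : ℕ} (h1 : m ^ 12 ≤ k) (h2 : k ≤ U ^ 3) (h3 : (s : ℝ) ≤ 2 * Real.log k ^ 3)
    (h4 : 16 * Real.log k ^ 12 ≤ k) : m * s ≤ U := by
  have a : m ^ 4 ≤ U := (Nat.pow_le_pow_iff_left three_ne_zero).1 (by
    rw [← pow_mul]
    exact h1.trans h2)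
  have b : s ^ 4 ≤ k := by
    have : (s : ℝ) ^ 4 ≤ (2 * Real.log k ^ 3) ^ 4 := by gcongr
    exact_mod_cast (this.trans_eq (by ring)).trans h4
  refine (Nat.pow_le_pow_iff_left four_ne_zero).1 ?_
  calc (m * s) ^ 4 = m ^ 4 * s ^ 4 := mul_pow _ _ _
    _ ≤ U * U ^ 3 := Nat.mul_le_mul a (b.trans h2)
    _ = _ := by ring

end MoneA

open MoneA in
theorem m1_n : GEOStmt → CBXStmt → SIZStmt → PHAStmt → PHBStmt → MOMStmt → M1Stmt := by
  intro geo cbx siz pha phb mom g v hg hv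
  obtain ⟨e, he⟩ : ∃ e : ℝ, e = 3 ^ (2 * g + 1) := ⟨_, rfl⟩
  have e1 : 1 ≤ e := he ▸ one_le_pow₀ (by norm_num)
  refine ⟨15 * e, by positivity, fun z d a wb vz z0 hd dv da ad η η0 => ?_⟩
  obtain ⟨-, g2, -⟩ := geo g hg
  have hN : 0 < primorial z := primorial_pos z
  have hz : ∀ p : ℕ, p.Prime → (p ∣ primorial z ↔ p ≤ z) := fun p hp => hp.dvd_primorial_iff
  have pb := phb (primorial z) z hN ((hz 2 Nat.prime_two).2 (by omega)) (by omega)
  have pa := fun D x y => pha.2 z D 1 x x y z0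
  have P1 := (pha.1 _ hN).1
  generalize primorial z = N at *
  have v0 : 0 < v := lt_of_lt_of_le (by omega) hv.ge
  have vN : ∀ p : ℕ, p.Prime → p ∣ v → p ∣ N := fun p hp h =>
    (hz p hp).2 ((Nat.le_of_dvd v0 h).trans vz)
  have N0 : (0 : ℝ) < N := by exact_mod_cast hN
  obtain ⟨ε, ε0, ε1, ε2⟩ : ∃ ε : ℝ, 0 < ε ∧ ε ≤ 1 ∧ 3 * e * ε ≤ η :=
    ⟨min 1 (η / (3 * e)), lt_min one_pos (by positivity), min_le_left _ _,
      (le_div_iff₀' (by positivity)).1 (min_le_right _ _)⟩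
  obtain ⟨D, hD⟩ : ∃ D : ℕ, D = N ^ 2 / d * v ^ (4 * g) * N ^ 2 := ⟨_, rfl⟩
  have dN : d ∣ N ^ 2 := hd.trans (dvd_pow_self N two_ne_zero)
  have D0 : 0 < D := by
    have : 0 < N ^ 2 / d :=
      Nat.div_pos (Nat.le_of_dvd (by positivity) dN) (Nat.pos_of_dvd_of_pos hd hN)
    rw [hD]
    positivity
  have D1 : N ∣ D := hD ▸ (dvd_pow_self N two_ne_zero).mul_left _
  have D2 : ∀ p : ℕ, p.Prime → p ∣ D → p ≤ z := fun p hp h => by
    rw [hD] at h
    refine (hz p hp).1 ?_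
    rcases (Nat.Prime.dvd_mul hp).1 h with h | h
    · rcases (Nat.Prime.dvd_mul hp).1 h with h | h
      · exact hp.dvd_of_dvd_pow (h.trans (Nat.div_dvd_of_dvd dN))
      · exact vN p hp (hp.dvd_of_dvd_pow h)
    · exact hp.dvd_of_dvd_pow h
  filter_upwards [siz g v hg hv, mom g v N d 1 hg hv hN hd, ev_le_log ((N : ℝ) ^ 2),
    ev_log_le 16 12, eventually_ge_atTop (65 * v ^ (4 * g + 2)),
    eventually_ge_atTop ((5 * N ^ 2) ^ 2),
    ev_le_log ((N : ℝ) ^ (2 * (2 * g + 1)) * (N : ℝ) ^ 2 / ε), evU ((N : ℝ) ^ 2),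
    evU ((5 * (N : ℝ) ^ 2 / ε) ^ 2), eventually_ge_atTop 1]
    with k k1 k2 k3 k4 k5 k6 k7 k8 k9 hk U m ur hm mk c1
  have N1 : (1 : ℝ) ≤ (N : ℝ) ^ 2 := one_le_pow₀ (by exact_mod_cast hN)
  have l1 : 1 ≤ Real.log k := N1.trans k3
  have NU : N ^ 2 ≤ U := by exact_mod_cast k8 U ur.lo
  have U1 : 1 ≤ U := le_trans (Nat.pow_pos hN) NU
  have Uk := ur.hi
  have c2 : m.Coprime v := Nat.coprime_of_dvd fun p hp a b =>
    hp.one_lt.ne' (Nat.eq_one_of_dvd_coprimes c1 a (vN p hp b))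
  have s5 : 5 * N ^ 2 * m ≤ k := (Nat.pow_le_pow_iff_left two_ne_zero).1 (by
    rw [mul_pow, sq k]
    exact Nat.mul_le_mul k6 ((Nat.pow_le_pow_right hm (by omega)).trans mk))
  have sz : ∀ y ≤ 5 * k, N ^ 2 * y * m ≤ k ^ 2 := fun y h =>
    calc N ^ 2 * y * m ≤ N ^ 2 * (5 * k) * m := by gcongr
      _ = k * (5 * N ^ 2 * m) := by ring
      _ ≤ k * k := by gcongr
      _ = _ := by ring
  obtain ⟨V, hV⟩ : ∃ V : ℝ, V = vol g k / (m * (N : ℝ) ^ (2 * (2 * g + 1))) := ⟨_, rfl⟩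
  obtain ⟨Y, hY⟩ : ∃ Y : ℝ, Y = U / (N : ℝ) ^ 2 := ⟨_, rfl⟩
  have w0 := vol_nonneg (g := g) (k := k)
  have V0 : 0 ≤ V := by rw [hV]; positivity
  have Y0 : 0 ≤ Y := by rw [hY]; positivity
  have hR : rf g k N m U = V * Y := by rw [rf, hV, hY]
  have sub : Us N a m U ⊆ (Ioc U (2 * U)).filter fun u => u ≡ a [MOD N ^ 2] :=
    monotone_filter_right _ fun _ _ h => h.1
  have hT : ((Us N a m U).card : ℝ) ≤ 2 * Y := by
    have := card_cls (N ^ 2) a U (by positivity) NU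
    rw [Nat.cast_pow, ← hY] at this
    exact le_trans (by exact_mod_cast card_le_card sub) this
  have cu : ∀ u ∈ Us N a m U, cnt g k (Cm v N m wb u) ≤ e * V := fun u hu => by
    rw [he, hV]
    exact box1 cbx hg hk wb hN hm (Nat.Coprime.mul_right (mem_filter.1 hu).2.2.symm c2) c1
      (by simpa using sz 1 (by omega))
  rw [hR]
  refine ⟨?_, fun j hj => ?_⟩
  · have a1 := sum_le_card_nsmul _ _ _ cu
    rw [nsmul_eq_mul] at a1
    have a2 : ((Us N a m U).card : ℝ) * (e * V) ≤ 2 * Y * (e * V) := by gcongr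
    have a3 : 0 ≤ e * (V * Y) := by positivity
    linarith
  have j1 : ((N ^ 2 * (j + 1) : ℕ) : ℝ) ≤ Real.log k ^ 3 := by
    have : ((j + 1 : ℕ) : ℝ) ≤ Real.log k ^ 2 :=
      le_trans (by exact_mod_cast mem_range.1 hj) (nl_le k)
    rw [Nat.cast_mul, Nat.cast_pow, pow_succ' _ 2]
    gcongr
  have jj : N ^ 2 * j < N ^ 2 * (j + 1) := Nat.mul_lt_mul_of_pos_left j.lt_succ_self (by positivity)
  have ja : (((N ^ 2 * j : ℕ) : ℤ) - (N ^ 2 * (j + 1) : ℕ)).natAbs = N ^ 2 := by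
    rw [show ((N ^ 2 * j : ℕ) : ℤ) - (N ^ 2 * (j + 1) : ℕ) = -((N ^ 2 : ℕ) : ℤ) by push_cast; ring,
      Int.natAbs_neg, Int.natAbs_natCast]
  have xa : ∀ u ∈ Us N a m U, u + m * (N ^ 2 * j) ≡ a [MOD N ^ 2] := fun u hu => by
    have : m * (N ^ 2 * j) ≡ 0 [MOD N ^ 2] :=
      Nat.modEq_zero_iff_dvd.2 ((dvd_mul_right _ _).mul_left _)
    exact (mem_filter.1 hu).2.1.add this
  simp only [pu]
  generalize N ^ 2 * j = s at *
  generalize N ^ 2 * (j + 1) = s' at *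
  have j0 : (s : ℝ) ≤ Real.log k ^ 3 := le_trans (by exact_mod_cast jj.le) j1
  have ms : m * (s + s') ≤ U := small mk ur.lo (by push_cast; linarith) k4
  have ms' : m * s ≤ m * (s + s') := Nat.mul_le_mul_left _ (Nat.le_add_right _ _)
  have ur' : ∀ u ∈ Us N a m U, U < u ∧ u ≤ 2 * U := fun u hu => mem_Ioc.1 (mem_filter.1 hu).1
  have sg : ∀ u ∈ Us N a m U, ∀ w ∈ bx g k, 0 ≤ Gv w (u + m * s : ℕ) v ∧
      Gv w (u + m * s : ℕ) v ≤ 65 * ((k : ℤ) * v) ^ (4 * g + 2) := fun u hu w hw => by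
    obtain ⟨a1, a2, -⟩ := k1 w hw (u + m * s) (by have := ur' u hu; omega)
    exact ⟨le_trans (by positivity) a1, a2⟩
  refine ⟨fun u hu w hw => lam_co (sg u hu w hw).1 (sg u hu w hw).2 k5, ?_⟩
  have hq : ∀ u, ql g v N d m s s' u = D * 1 * ((u + m * s) ^ 2 * (2 * u + m * (s + s'))) :=
    fun u => by rw [ql, ja, hD, mul_one]
  have mo := k2 U m s s' (fun u w => ind (Cm v N m wb u w)) 1 (Us N a m U) ur hm mk jj.ne j0 j1
    (filter_subset _ _) c2 (fun u hu => ⟨(mem_filter.1 hu).2.2, Nat.coprime_of_dvd fun p hp b1 b2 => by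
      have key : p ∣ N → p ∣ a := fun h =>
        ((xa u hu).dvd_iff (h.trans (dvd_pow_self N two_ne_zero))).1 b1
      rcases (Nat.Prime.dvd_mul hp).1 b2 with h | h
      · exact cop_v ad dv vN hp h (key (vN p hp h))
      · exact da p hp h (key (h.trans hd))⟩)
    (fun u w => ⟨ind_nonneg _, ind_le_one _⟩)
    (fun u hu w => ind_congr (and_congr (forall_congr' fun i => by
      rw [Pi.add_apply, add_sub_right_comm]
      exact dvd_add_left (sh_dvd _ _ _ i)) (by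
      rw [g2]
      refine dvd_add_left (Dvd.dvd.mul_left (Dvd.dvd.mul_left
        ⟨-((s' : ℤ) * (2 * u + m * s')), ?_⟩ _) _)
      push_cast
      ring)))
    fun u hu w h => md_dvd hN hd ad (xa u hu) c1 (by exact_mod_cast (cm_shift s).2 (of_ind_ne h))
  have sq : 5 * √(U : ℝ) ≤ ε * Y := by
    have a1 : 5 * (N : ℝ) ^ 2 / ε ≤ √(U : ℝ) := Real.le_sqrt_of_sq_le (k9 U ur.lo)
    rw [div_le_iff₀ ε0] at a1
    rw [hY, ← mul_div_assoc, le_div_iff₀ (by positivity)]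
    have a2 := Real.mul_self_sqrt (Nat.cast_nonneg (α := ℝ) U)
    have a3 := mul_le_mul_of_nonneg_left a1 (Real.sqrt_nonneg (U : ℝ))
    nlinarith
  have zs : 1 ≤ √(z : ℝ) := Real.one_le_sqrt.2 (by exact_mod_cast (by omega : 1 ≤ z))
  rw [div_eq_mul_one_div (15 * e)]
  refine fin (Us N a m U) _ (fun u => ph (ql g v N d m s s' u)) _
    (fun u => cnt g k fun w => Cm v N m wb u w ∧
      ¬(co (m * d) w (u + m * s) v).Coprime (ql g v N d m s s' u))
    (fun u => ex N z (u + m * s) + ex N z (2 * u + m * (s + s'))) (ε := ε) ?_ (fun u hu => ?_) ?_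
    hT P1 e1 (by positivity) ((div_le_one (by positivity)).2 zs) ε0.le ε1 ε2 V0 Y0
  · refine le_trans (le_of_eq (sum_congr rfl fun u _ => ?_)) (mo.trans ?_)
    · simp only [cnt, ← sum_sub_distrib, mul_sum]
      refine congrArg _ (sum_congr rfl fun w _ => ?_)
      rw [ind_and]
      by_cases h : (co (m * d) w (u + m * s) v).Coprime (ql g v N d m s s' u)
      · rw [ind_pos h, ind_neg (not_not.2 h)]; ring
      · rw [ind_neg h, ind_pos h]; ring
    · have m0 : (0 : ℝ) < m := by exact_mod_cast hm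
      rw [div_le_iff₀ ε0] at k7
      rw [hV, hY, div_mul_div_comm, ← mul_div_assoc, div_le_div_iff₀ (by positivity) (by positivity)]
      have := mul_le_mul_of_nonneg_left k7 (show 0 ≤ vol g k * U * m by positivity)
      linarith
  · have b0 := ur' u hu
    obtain ⟨p1, p2, p3⟩ := pa D (u + m * s) (2 * u + m * (s + s')) D0 one_pos (by omega) (by omega)
      (by omega) D1 D2
    have x1 := ex_nonneg N z (u + m * s)
    have x2 := ex_nonneg N z (2 * u + m * (s + s'))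
    rw [hq]
    refine ⟨p1, ?_, cnt_nonneg, cnt_mono fun _ _ h => h.1, cu u hu, ?_, by positivity⟩
    · rw [ex_one (by omega), ← pow_two] at p2
      refine le_of_pow_le_pow_left₀ two_ne_zero (by positivity) (p2.trans ?_)
      rw [mul_pow]
      gcongr
      nlinarith
    · rw [he, hV]
      exact bad cbx hg hk hN hz v0 vz hd ad hm c1 c2 (mem_filter.1 hu).2.2 rfl (xa u hu) (by omega)
        (by omega) (sz _ (by omega)) D2 (fun w hw => (sg u hu w hw).1) p3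
  · have a1 := pb.1 U a (m * s) 1 U1 (by omega) (Or.inl rfl)
    have a2 := pb.1 U a (m * (s + s')) 2 U1 (by omega) (Or.inr rfl)
    simp only [one_mul] at a1
    have a3 := sum_le_sum_of_subset_of_nonneg
      (f := fun u => ex N z (u + m * s) + ex N z (2 * u + m * (s + s'))) sub
      fun _ _ _ => add_nonneg (ex_nonneg _ _ _) (ex_nonneg _ _ _)
    rw [← hY, div_eq_mul_one_div] at a1 a2
    refine a3.trans ?_
    rw [sum_add_distrib]
    linarith

end Pool.Agent.MP_a43263_nt.N2
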