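import Pool.Agent.MP_a43263_nt.N2.SpecC

/-! The smooth parts have a large harmonic sum. -/

set_option autoImplicit false

noncomputable section

namespace Pool.Agent.MP_a43263_nt.N2

open Finset Filter

namespace MsetA

open Classical in
/-- squarefree numbers without small prime factors -/
def A (z Y : ℕ) : Finset ℕ :=
  (Icc 1 Y).filter fun m => Squarefree m ∧ ∀ p : ℕ, p.Prime → p ∣ m → z < p

lemma mem_A {z Y m : ℕ} :
    m ∈ A z Y ↔ (1 ≤ m ∧ m ≤ Y) ∧ Squarefree m ∧ ∀ p : ℕ, p.Prime → p ∣ m → z < p := by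
  simp [A]

lemma inv_sq (Y : ℕ) : ∑ b ∈ Icc 1 Y, ((b : ℝ) ^ 2)⁻¹ ≤ 2 := by
  simpa using (sum_Ioo_inv_sq_le (α := ℝ) 0 (Y + 1)).trans_eq' (sum_congr (by ext; simp; omega)
    fun _ _ => rfl)

lemma harm (z Y : ℕ) : Real.log Y ≤ 2 * (z.factorial.divisors.card * ∑ m ∈ A z Y, 1 / (m : ℝ)) := by
  have h1 : Real.log Y ≤ ∑ n ∈ Icc 1 Y, (n : ℝ)⁻¹ := by
    have := log_add_one_le_harmonic Y
    rw [harmonic_eq_sum_Icc] at this
    push_cast at this
    refine le_trans ?_ this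
    rcases Nat.eq_zero_or_pos Y with rfl | h
    · simp
    · exact Real.log_le_log (by positivity) (by linarith)
  have h2 : Icc 1 Y ⊆ (Icc 1 Y ×ˢ z.factorial.divisors ×ˢ A z Y).image
      fun x => x.1 ^ 2 * (x.2.1 * x.2.2) := fun n hn => by
    obtain ⟨a1, a2⟩ := mem_Icc.1 hn
    obtain ⟨a, b, a3, a4, a5, a6⟩ := Nat.sq_mul_squarefree_of_pos a1
    obtain ⟨m, hm⟩ := Nat.gcd_dvd_left a z.factorial
    have a7 : m ∣ a := Dvd.intro_left _ hm.symm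
    refine mem_image.2 ⟨(b, a.gcd z.factorial, m), mem_product.2 ⟨mem_Icc.2 ⟨a4, ?_⟩,
      mem_product.2 ⟨Nat.mem_divisors.2 ⟨Nat.gcd_dvd_right _ _, z.factorial_ne_zero⟩,
        mem_A.2 ⟨⟨Nat.pos_of_dvd_of_pos a7 a3, ?_⟩, a6.squarefree_of_dvd a7, fun p hp h => ?_⟩⟩⟩,
      by rw [← hm, a5]⟩
    · exact (Nat.le_of_dvd a1 (a5 ▸ (dvd_pow_self b two_ne_zero).mul_right a)).trans a2
    · exact (Nat.le_of_dvd a1 (a5 ▸ a7.mul_left _)).trans a2
    · by_contra c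
      exact hp.not_isUnit (a6 p (hm ▸ mul_dvd_mul (Nat.dvd_gcd (h.trans a7)
        (hp.dvd_factorial.2 (not_lt.1 c))) h))
  refine h1.trans ((sum_le_sum_of_subset_of_nonneg h2 fun _ _ _ => by positivity).trans
    ((sum_image_le_of_nonneg fun _ _ => by positivity).trans ?_))
  simp only [sum_product, Nat.cast_mul, Nat.cast_pow, mul_inv, ← mul_sum, ← sum_mul, one_div]
  refine mul_le_mul (inv_sq Y) (mul_le_mul_of_nonneg_right ?_ (by positivity)) (by positivity)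
    zero_le_two
  refine (sum_le_card_nsmul _ _ 1 fun s hs => inv_le_one_of_one_le₀ ?_).trans (by simp)
  exact_mod_cast Nat.pos_of_mem_divisors hs

lemma markov {z : ℕ} (hz : z ≠ 0) (Y : ℕ) :
    ∑ m ∈ A z Y, 1 / (m : ℝ) * ∑ p ∈ m.primeFactors, 1 / (p : ℝ) ≤
      (z : ℝ)⁻¹ * ∑ m ∈ A z Y, 1 / (m : ℝ) := by
  have h1 : ∑ p ∈ Ioc z Y, ((p : ℝ) ^ 2)⁻¹ ≤ (z : ℝ)⁻¹ := by
    rcases le_total z Y with c | c
    · exact (sum_Ioc_inv_sq_le_sub hz c).trans (sub_le_self _ (by positivity))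
    · rw [Ioc_eq_empty (not_lt.2 c), sum_empty]
      positivity
  refine le_trans ?_ (mul_le_mul_of_nonneg_right h1 (by positivity))
  rw [sum_mul_sum, ← sum_product']
  simp only [mul_sum]
  rw [sum_sigma']
  have h2 : ∀ x ∈ (A z Y).sigma Nat.primeFactors, x.2.Prime ∧ x.2 ∣ x.1 := fun x hx =>
    ⟨Nat.prime_of_mem_primeFactors (mem_sigma.1 hx).2, Nat.dvd_of_mem_primeFactors (mem_sigma.1 hx).2⟩
  rw [sum_congr rfl (g := fun x => (fun y : ℕ × ℕ => ((y.1 : ℝ) ^ 2)⁻¹ * (1 / (y.2 : ℝ)))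
    (x.2, x.1 / x.2)) fun x hx => by
      have := (h2 x hx).1.pos
      simp only
      rw [Nat.cast_div (h2 x hx).2 (by positivity)]
      rcases eq_or_ne (x.1 : ℝ) 0 with c | c
      · simp [c]
      · field_simp, ← sum_image (g := fun x : Σ _ : ℕ, ℕ => (x.2, x.1 / x.2))
      (f := fun y : ℕ × ℕ => ((y.1 : ℝ) ^ 2)⁻¹ * (1 / (y.2 : ℝ)))]
  · refine sum_le_sum_of_subset_of_nonneg (fun y hy => ?_) fun _ _ _ => by positivity
    obtain ⟨x, hx, rfl⟩ := mem_image.1 hy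
    obtain ⟨⟨a1, a2⟩, a3, a4⟩ := mem_A.1 (mem_sigma.1 hx).1
    obtain ⟨a5, a6⟩ := h2 x hx
    have a7 := Nat.div_dvd_of_dvd a6
    exact mem_product.2 ⟨mem_Ioc.2 ⟨a4 _ a5 a6, (Nat.le_of_dvd a1 a6).trans a2⟩,
      mem_A.2 ⟨⟨Nat.pos_of_dvd_of_pos a7 a1, (Nat.div_le_self _ _).trans a2⟩,
        a3.squarefree_of_dvd a7, fun p hp h => a4 p hp (h.trans a7)⟩⟩
  · rintro ⟨m, p⟩ hx ⟨m', p'⟩ hy e
    obtain ⟨rfl, e2⟩ : p = p' ∧ m / p = m' / p' := Prod.mk.inj e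
    rw [show m = m' from (Nat.div_mul_cancel (h2 _ hx).2).symm.trans
      ((congrArg (· * p) e2).trans (Nat.div_mul_cancel (h2 _ hy).2))]

end MsetA

open MsetA in
theorem mset_n : MSETStmt := by
  classical
  intro κ hκ
  filter_upwards [eventually_ge_atTop (⌈2 / κ⌉₊ + 1)] with z hz
  have h0 : (0 : ℝ) < z.factorial.divisors.card := by
    exact_mod_cast card_pos.2 ⟨1, Nat.one_mem_divisors.2 z.factorial_ne_zero⟩
  have h1 : (z : ℝ)⁻¹ ≤ κ / 2 := by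
    rw [← inv_div]
    refine inv_anti₀ (by positivity) ((Nat.le_ceil _).trans ?_)
    exact_mod_cast (by omega)
  refine ⟨1 / (4 * z.factorial.divisors.card), by positivity, Eventually.of_forall fun Y => ?_⟩
  have h2 := (markov (by omega) Y).trans (mul_le_mul_of_nonneg_right h1 (by positivity))
  have h3 := harm z Y
  have h4 := sum_filter_add_sum_filter_not (A z Y)
    (fun m => ∑ p ∈ m.primeFactors, 1 / (p : ℝ) ≤ κ) fun m => 1 / (m : ℝ)
  have h5 : κ * ∑ m ∈ (A z Y).filter fun m : ℕ => ¬ ∑ p ∈ m.primeFactors, 1 / (p : ℝ) ≤ κ,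
      1 / (m : ℝ) ≤ ∑ m ∈ A z Y, 1 / (m : ℝ) * ∑ p ∈ m.primeFactors, 1 / (p : ℝ) := by
    rw [mul_sum]
    refine (sum_le_sum fun m hm => ?_).trans (sum_le_sum_of_subset_of_nonneg (filter_subset _ _)
      fun _ _ _ => by positivity)
    rw [mul_comm]
    exact mul_le_mul_of_nonneg_left (not_le.1 (mem_filter.1 hm).2).le (by positivity)
  have h6 := le_of_mul_le_mul_left ((h5.trans h2).trans_eq
    (show _ = κ * ((∑ m ∈ A z Y, 1 / (m : ℝ)) / 2) by ring)) hκ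
  rw [show (Icc 1 Y).filter (Mz z κ) = (A z Y).filter
    fun m : ℕ => ∑ p ∈ m.primeFactors, 1 / (p : ℝ) ≤ κ by ext; simp [mem_A, Mz, and_assoc],
    div_mul_eq_mul_div, one_mul, div_le_iff₀ (by positivity)]
  nlinarith

end Pool.Agent.MP_a43263_nt.N2
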