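import Pool.Agent.MP_a43263_nt.N2.SpecC
import Pool.Agent.MP_a43263_nt.K2.Geo

/-! THEOREM N2: the second moment. -/

set_option autoImplicit false

noncomputable section

namespace Pool.Agent.MP_a43263_nt.N2

open Finset Filter K2

namespace MtwoA

theorem card_us {N U : ℕ} (a m : ℕ) (hN : 0 < N) (h : N ^ 2 ≤ U) :
    ((Us N a m U).card : ℝ) ≤ 2 * (U / (N : ℝ) ^ 2) := by
  have h0 : 0 < N ^ 2 := pow_pos hN 2
  have h1 : (Us N a m U).card ≤ ((Ioc U (2 * U)).filter fun u => u ≡ a [MOD N ^ 2]).card :=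
    card_le_card (monotone_filter_right _ fun u _ k => k.1)
  have h2 := Nat.Ioc_filter_modEq_card U (2 * U) h0 a
  generalize ((Ioc U (2 * U)).filter fun u => u ≡ a [MOD N ^ 2]).card = c at h1 h2
  have q0 : (0 : ℚ) < (N ^ 2 : ℕ) := by exact_mod_cast h0
  have q1 : (1 : ℚ) ≤ U / (N ^ 2 : ℕ) := (one_le_div q0).2 (by exact_mod_cast h)
  have q2 : (c : ℚ) ≤ 2 * (U / (N ^ 2 : ℕ)) := by
    have a1 := Int.floor_le ((((2 * U : ℕ) : ℚ) - a) / (N ^ 2 : ℕ))
    have a2 := Int.lt_floor_add_one (((U : ℚ) - a) / (N ^ 2 : ℕ))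
    have a3 : (((2 * U : ℕ) : ℚ) - a) / (N ^ 2 : ℕ) =
        ((U : ℚ) - a) / (N ^ 2 : ℕ) + U / (N ^ 2 : ℕ) := by
      rw [← add_div]; push_cast; ring_nf
    have a4 : (c : ℚ) = ((c : ℤ) : ℚ) := rfl
    rw [a4, h2, Int.cast_max, Int.cast_sub, Int.cast_zero]
    exact max_le (by linarith) (by linarith)
  have q3 : ((c : ℚ) : ℝ) ≤ ((2 * (U / (N ^ 2 : ℕ)) : ℚ) : ℝ) := Rat.cast_le.2 q2
  push_cast at q3
  exact le_trans (by exact_mod_cast h1) q3

variable {g : ℕ}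

theorem cnt_le (cbx : CBXStmt) (hg : 1 ≤ g) {k v N m u : ℕ} (wb : Vec g) (hN : 0 < N)
    (hm : 0 < m) (h1 : m.Coprime (u * v)) (h2 : m.Coprime N) (h3 : N ^ 2 * m ≤ k ^ 2) :
    cnt g k (Cm v N m wb u) ≤ 3 ^ (2 * g + 1) * (vol g k / (m * (N : ℝ) ^ (2 * (2 * g + 1)))) := by
  classical
  have k0 : 1 ≤ k := Nat.pos_of_ne_zero fun e => by
    rw [e] at h3
    exact absurd h3 (Nat.not_le.2 (Nat.mul_pos (pow_pos hN 2) hm))
  rw [cnt_eq_card]
  refine (cbx g (fun i => ce g k i.1 - (k : ℤ) ^ xp g i.1) wb (fun i => 2 * k ^ xp g i.1)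
    (fun _ => N ^ 2) m u v hg (fun _ => pow_pos hN 2) hm h1 (fun _ _ => h2.pow_right 2) _
    fun w => ?_).1.trans ?_
  · rw [mem_filter, mem_bx, Cm, Cw]
    push_cast
    refine and_congr_left fun _ => forall_congr' fun i => and_congr_right fun _ => ?_
    constructor <;> intro <;> linarith
  · refine (prod_le_prod (g := fun i => 3 * ((k : ℝ) ^ xp g i.1 /
      ((N : ℝ) ^ 2 * if i.1 + 1 = 2 * g then (m : ℝ) else 1))) (fun i _ => by positivity)
      fun i _ => ?_).trans_eq ?_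
    · have p0 : (0 : ℝ) < (N : ℝ) ^ 2 * if i.1 + 1 = 2 * g then (m : ℝ) else 1 := by
        split_ifs <;> positivity
      have p1 : ((N : ℝ) ^ 2 * if i.1 + 1 = 2 * g then (m : ℝ) else 1) ≤ (k : ℝ) ^ xp g i.1 := by
        have b1 : N ^ 2 * m ≤ k ^ xp g i.1 :=
          h3.trans (Nat.pow_le_pow_right k0 (by unfold xp; split_ifs <;> omega))
        have b2 : N ^ 2 * 1 ≤ k ^ xp g i.1 := (Nat.mul_le_mul_left _ hm).trans b1
        split_ifs
        · exact_mod_cast b1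
        · exact_mod_cast b2
      have p2 := (one_le_div p0).2 p1
      push_cast
      rw [mul_div_assoc]
      linarith
    · have e : ∏ i : Fin (2 * g + 1), (if i.1 + 1 = 2 * g then (m : ℝ) else 1) = m := by
        rw [Fintype.prod_eq_single (⟨2 * g - 1, by omega⟩ : Fin (2 * g + 1)) fun i hi =>
          if_neg fun e => hi (Fin.ext (by simp only; omega)), if_pos (by simp only; omega)]
      rw [prod_mul_distrib, prod_div_distrib, prod_mul_distrib, e, prod_const, prod_const,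
        card_univ, Fintype.card_fin, ← GeoA.vol_eq, ← pow_mul, mul_comm (m : ℝ)]

theorem cop {v N d a u : ℕ} (m j : ℕ) {wb : Vec g} (pN : ∀ p : ℕ, p.Prime → p ∣ v → p ∣ N)
    (hd : d ∣ N) (hdv : d.Coprime v) (hda : ∀ q : ℕ, q.Prime → q ∣ d → ¬q ∣ a)
    (had : Ad1 v N d wb a) (hu : u ≡ a [MOD N ^ 2]) : (u + m * (N ^ 2 * j)).Coprime (v * d) := by
  refine Nat.coprime_of_dvd fun p hp h1 h2 => ?_
  have pn : p ∣ N := ((Nat.Prime.dvd_mul hp).1 h2).elim (pN p hp) (·.trans hd)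
  have p2 : p ∣ N ^ 2 := dvd_pow pn two_ne_zero
  have pa : p ∣ a :=
    (hu.dvd_iff p2).1 ((Nat.dvd_add_left ((p2.mul_right j).mul_left m)).1 h1)
  rcases (Nat.Prime.dvd_mul hp).1 h2 with pv | pd
  · have pz := Nat.prime_iff_prime_int.1 hp
    have b1 : (p : ℤ) ∣ Gv wb a v :=
      dvd_add (dvd_pow (dvd_neg.2 (dvd_pow (Int.natCast_dvd_natCast.2 pa) two_ne_zero))
        (Nat.succ_ne_zero _)) (dvd_sum fun i _ => (dvd_pow
          (dvd_pow (Int.natCast_dvd_natCast.2 pv) two_ne_zero) (Nat.succ_ne_zero _)).mul_left _)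
    rw [← Int.mul_ediv_cancel' had.1] at b1
    rcases pz.dvd_or_dvd b1 with b | b
    · exact hp.one_lt.ne' (Nat.eq_one_of_dvd_coprimes hdv (Int.natCast_dvd_natCast.1 b) pv)
    · exact pz.not_isUnit (had.2.isUnit_of_dvd' b (Int.natCast_dvd_natCast.2 pn))
  · exact hda p hp pd pa

theorem dv {v N d a u m : ℕ} (j : ℕ) {wb w : Vec g} (hd : d ∣ N) (hm : m.Coprime N)
    (had : Ad1 v N d wb a) (hu : u ≡ a [MOD N ^ 2]) (h : Cm v N m wb u w) :
    ((m * d : ℕ) : ℤ) ∣ Gv w (u + m * (N ^ 2 * j) : ℕ) v := by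
  have d2 : d ∣ N ^ 2 := dvd_pow hd two_ne_zero
  have d3 : (d : ℤ) ∣ (N : ℤ) ^ 2 := by exact_mod_cast d2
  rw [Nat.cast_mul]
  refine (Nat.isCoprime_iff_coprime.2 (hm.coprime_dvd_right hd)).mul_dvd ?_ ?_
  · have e : (u : ℤ) ≡ (u + m * (N ^ 2 * j) : ℕ) [ZMOD m] :=
      Int.modEq_iff_dvd.2 ⟨N ^ 2 * j, by push_cast; ring⟩
    exact (GeoA.gv_mod (M := m) v (fun _ => rfl) e).dvd_iff.1 h.2
  · have e : (a : ℤ) ≡ (u + m * (N ^ 2 * j) : ℕ) [ZMOD d] :=
      Int.natCast_modEq_iff.2 ((hu.of_dvd d2).symm.trans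
        ((Nat.modEq_zero_iff_dvd.2 ((d2.mul_right j).mul_left m)).add_left u).symm)
    exact (GeoA.gv_mod (M := d) v (fun i => Int.modEq_iff_dvd.2 (d3.trans (h.1 i))) e).dvd_iff.1
      had.1

theorem inv (hg : 1 ≤ g) (v N m u s : ℕ) (t : ℤ) (wb w : Vec g) :
    Cm v N m wb u (w + sh g ((N : ℤ) ^ 2 * t) (u + m * s : ℕ) v) ↔ Cm v N m wb u w := by
  refine and_congr (forall_congr' fun i => ?_) ?_
  · rw [Pi.add_apply, add_sub_right_comm]
    refine dvd_add_left ?_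
    unfold sh
    split_ifs
    · exact (dvd_mul_right _ _).mul_right _
    · exact (dvd_mul_right _ _).mul_right _
    · exact dvd_zero _
  · rw [GeoA.shift hg]
    exact dvd_add_left ((Dvd.dvd.mul_left ⟨-((s : ℤ) * (2 * u + m * s)), by push_cast; ring⟩ _).mul_left _)

theorem fix (hg : 1 ≤ g) (e x v : ℕ) (t : ℤ) (w : Vec g) : co e (w + sh g t x v) x v = co e w x v := by
  rw [co, GeoA.shift hg, sub_self, mul_zero, mul_zero, add_zero, co]

theorem lamb {k v x : ℕ} (e : ℕ) {w : Vec g} (h0 : 35 * ((k : ℤ) * v) ^ (4 * g + 2) ≤ Gv w x v)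
    (h1 : Gv w x v ≤ 65 * ((k : ℤ) * v) ^ (4 * g + 2)) (hk : 65 * v ^ (4 * g + 2) ≤ k) :
    lam (co e w x v) ≤ (4 * g + 3) * Real.log k := by
  unfold lam
  split_ifs with hp
  · have b0 : 0 ≤ Gv w x v := le_trans (by positivity) h0
    have b1 : ((co e w x v : ℕ) : ℤ) ≤ Gv w x v := by
      rw [co, Int.toNat_of_nonneg (Int.ediv_nonneg b0 (Nat.cast_nonneg _))]
      exact Int.ediv_le_self _ b0
    have b2 : co e w x v ≤ 65 * (k * v) ^ (4 * g + 2) := by exact_mod_cast b1.trans h1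
    have b3 : co e w x v ≤ k ^ (4 * g + 3) := b2.trans (by
      rw [mul_pow, mul_left_comm, pow_succ k (4 * g + 2)]
      exact Nat.mul_le_mul_left _ hk)
    refine (Real.log_le_log (by exact_mod_cast hp.pos) (show _ ≤ (k : ℝ) ^ (4 * g + 3) by
      exact_mod_cast b3)).trans_eq ?_
    rw [Real.log_pow]
    push_cast
    rfl
  · positivity

theorem key {α : Type} (S : Finset α) {I L L' ι ι' Ω : α → ℝ} {P P' Q : ℝ} (hI : ∀ w, 0 ≤ I w)
    (hL : ∀ w, 0 ≤ L' w) (h1 : ∀ w, ι w ≤ 1) (h2 : ∀ w, ι' w ≤ 1) (p0 : 0 ≤ P) (p1 : P ≤ Q)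
    (p2 : 0 ≤ P') (hΩ : ∀ w ∈ S, Ω w = I w * L' w) :
    ∑ w ∈ S, I w * (L w * L' w) ≤ |∑ w ∈ S, Ω w * (L w - P * ι w)| +
      Q * |∑ w ∈ S, I w * (L' w - P' * ι' w)| + P * P' * ∑ w ∈ S, I w := by
  have a1 : ∑ w ∈ S, I w * (L w * L' w) ≤ ∑ w ∈ S, Ω w * (L w - P * ι w) +
      P * ∑ w ∈ S, I w * (L' w - P' * ι' w) + P * P' * ∑ w ∈ S, I w := by
    rw [mul_sum, mul_sum, ← sum_add_distrib, ← sum_add_distrib]
    refine sum_le_sum fun w hw => ?_
    rw [hΩ w hw]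
    have b1 := mul_nonneg (mul_nonneg p0 (mul_nonneg (hI w) (hL w))) (sub_nonneg.2 (h1 w))
    have b2 := mul_nonneg (mul_nonneg (mul_nonneg p0 p2) (hI w)) (sub_nonneg.2 (h2 w))
    nlinarith
  have a2 := le_abs_self (∑ w ∈ S, Ω w * (L w - P * ι w))
  have a3 := (mul_le_mul_of_nonneg_left (le_abs_self (∑ w ∈ S, I w * (L' w - P' * ι' w))) p0).trans
    (mul_le_mul_of_nonneg_right p1 (abs_nonneg _))
  linarith

theorem ql_eq (g v N d m j j' u : ℕ) : ql g v N d m (N ^ 2 * j) (N ^ 2 * j') u =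
    N ^ 2 / d * v ^ (4 * g) * N ^ 2 * ((j : ℤ) - j').natAbs *
      ((u + m * (N ^ 2 * j)) ^ 2 * (2 * u + m * (N ^ 2 * j + N ^ 2 * j'))) := by
  rw [ql, show ((N ^ 2 * j : ℕ) : ℤ) - (N ^ 2 * j' : ℕ) = (N ^ 2 : ℕ) * ((j : ℤ) - j') by
    push_cast; ring, Int.natAbs_mul, Int.natAbs_natCast, mul_assoc _ (N ^ 2)]

theorem ex_nonneg (N z x : ℕ) : 0 ≤ ex N z x := sum_nonneg fun _ _ => by positivity

end MtwoA

open MtwoA in
theorem m2_n : GEOStmt → CBXStmt → SIZStmt → PHAStmt → PHBStmt → MOMStmt → M2Stmt := by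
  intro _ cbx siz pha phb mom g v hg hv
  refine ⟨6 * 3 ^ (2 * g + 1), by positivity, fun z d a wb hvz hz hd hdv hda had η hη => ?_⟩
  have N0 : 0 < primorial z := primorial_pos z
  have v0 : 0 < v := lt_of_lt_of_le (by omega) hv.ge
  have pN : ∀ p : ℕ, p.Prime → p ∣ v → p ∣ primorial z := fun p hp h =>
    hp.dvd_primorial_iff.2 ((Nat.le_of_dvd v0 h).trans hvz)
  have N2 : 2 ∣ primorial z := Nat.prime_two.dvd_primorial_iff.2 (by omega)
  have d2 : d ∣ primorial z ^ 2 := dvd_pow hd two_ne_zero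
  obtain ⟨D, hD⟩ : ∃ D, D = primorial z ^ 2 / d * v ^ (4 * g) * primorial z ^ 2 := ⟨_, rfl⟩
  have D0 : 0 < D := hD ▸ Nat.mul_pos (Nat.mul_pos (Nat.div_pos (Nat.le_of_dvd (pow_pos N0 2) d2)
    (Nat.pos_of_dvd_of_pos hd N0)) (pow_pos v0 _)) (pow_pos N0 2)
  have D1 : primorial z ∣ D := hD ▸ (dvd_pow_self _ two_ne_zero).mul_left _
  have D2 : ∀ p : ℕ, p.Prime → p ∣ D → p ≤ z := fun p hp h => by
    rw [hD, hp.dvd_mul, hp.dvd_mul] at h
    refine hp.dvd_primorial_iff.1 ?_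
    rcases h with (h | h) | h
    · exact hp.dvd_of_dvd_pow (h.trans (Nat.div_dvd_of_dvd d2))
    · exact pN p hp (hp.dvd_of_dvd_pow h)
    · exact hp.dvd_of_dvd_pow h
  have pa := fun t x x' y => pha.2 z D t x x' y hz D0
  have pb := (phb _ z N0 N2 (by omega)).1
  have mo := mom g v _ d 2 hg hv N0 hd
  have p1 := (pha.1 _ N0).1
  unfold pu
  generalize primorial z = N at *
  have NR : (0 : ℝ) < N := by exact_mod_cast N0
  obtain ⟨R, hR⟩ := exists_nat_ge (30 * 3 ^ (2 * g + 1) * (N : ℝ) ^ 2 / η)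
  filter_upwards [mo, siz g v hg hv, ev_le_log ((N : ℝ) ^ 2),
    ev_le_log (2 * (4 * g + 17) * ((N : ℝ) ^ (2 * (2 * g + 1)) * (N : ℝ) ^ 2) / η), ev_log_le 1 12,
    eventually_ge_atTop D, eventually_ge_atTop 54, eventually_ge_atTop ((N ^ 2) ^ 3),
    eventually_ge_atTop (65 * v ^ (4 * g + 2)), eventually_ge_atTop ((R ^ 2) ^ 3)]
    with k hM hS l1 l2 l3 k1 k2 k3 k4 k5 U m hU m0 mk mN j hj j' hj' jj
  have cu : ∀ c : ℕ, c ^ 3 ≤ k → c ≤ U := fun c h =>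
    (Nat.pow_le_pow_iff_left three_ne_zero).1 (h.trans hU.lo)
  have U1 : 1 ≤ U := cu 1 (by omega)
  have NU := cu _ k3
  have l0 : 1 ≤ Real.log k := le_trans (one_le_pow₀ (by exact_mod_cast N0)) l1
  have mv : m.Coprime v := Nat.coprime_of_dvd fun p hp a b =>
    hp.one_lt.ne' (Nat.eq_one_of_dvd_coprimes mN a (pN p hp b))
  have m4 : m ^ 4 ≤ U := cu _ (by rw [← pow_mul]; exact mk)
  have sA : ∀ i ∈ range (nl k), ((N ^ 2 * i : ℕ) : ℝ) ≤ Real.log k ^ 3 := fun i hi => by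
    have : (i : ℝ) ≤ Real.log k ^ 2 :=
      le_trans (by exact_mod_cast (mem_range.1 hi).le) (nl_le k)
    push_cast
    rw [pow_succ' _ 2]
    exact mul_le_mul l1 this (by positivity) (by positivity)
  have sK : ∀ i ∈ range (nl k), (N ^ 2 * i) ^ 4 ≤ k := fun i hi => by
    have := pow_le_pow_left₀ (by positivity) (sA i hi) 4
    rw [← pow_mul] at this
    rw [one_mul] at l3
    exact_mod_cast this.trans l3
  have sB : ∀ i ∈ range (nl k), m * (N ^ 2 * i) ≤ U := fun i hi => by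
    refine (Nat.pow_le_pow_iff_left four_ne_zero).1 ?_
    rw [mul_pow, pow_succ' U 3]
    exact Nat.mul_le_mul m4 ((sK i hi).trans hU.lo)
  have jk : ∀ i ∈ range (nl k), i ≤ k := fun i hi =>
    ((Nat.le_mul_of_pos_left i (pow_pos N0 2)).trans ((Nat.le_mul_of_pos_left _ m0).trans
      (sB i hi))).trans hU.hi
  have sub : Us N a m U ⊆ Ioc U (2 * U) := filter_subset _ _
  have us : ∀ u ∈ Us N a m U, u ≡ a [MOD N ^ 2] ∧ u.Coprime m := fun u hu => (mem_filter.1 hu).2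
  have ss : N ^ 2 * j ≠ N ^ 2 * j' := fun e => jj (Nat.eq_of_mul_eq_mul_left (pow_pos N0 2) e)
  have B0 : 0 ≤ (4 * g + 3) * Real.log k := by positivity
  have e1 := hM U m _ _ (fun u w => ind (Cm v N m wb u w) *
      min (lam (co (m * d) w (u + m * (N ^ 2 * j')) v)) ((4 * g + 3) * Real.log k))
    ((4 * g + 3) * Real.log k) _ hU m0 mk ss (sA j hj) (sA j' hj') sub mv
    (fun u hu => ⟨(us u hu).2, cop m j pN hd hdv hda had (us u hu).1⟩)
    (fun u w => ⟨mul_nonneg (ind_nonneg _) (le_min (lam_nonneg _) B0),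
      (mul_le_of_le_one_left (le_min (lam_nonneg _) B0) (ind_le_one _)).trans (min_le_right _ _)⟩)
    (fun u _ w => by rw [ind_congr (inv hg v N m u _ _ wb w), fix hg])
    fun u hu w h => dv j hd mN had (us u hu).1 (of_ind_ne (left_ne_zero_of_mul h))
  have e2 := hM U m _ _ (fun u w => ind (Cm v N m wb u w)) 1 _ hU m0 mk ss.symm (sA j' hj')
    (sA j hj) sub mv (fun u hu => ⟨(us u hu).2, cop m j' pN hd hdv hda had (us u hu).1⟩)
    (fun u w => ⟨ind_nonneg _, ind_le_one _⟩)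
    (fun u _ w => ind_congr (inv hg v N m u _ _ wb w))
    fun u hu w h => dv j' hd mN had (us u hu).1 (of_ind_ne h)
  obtain ⟨t, ht⟩ : ∃ t, t = ((j : ℤ) - j').natAbs := ⟨_, rfl⟩
  have t0 : 0 < t := by omega
  have tk : t ≤ k := by have := jk j hj; have := jk j' hj'; omega
  have s1 := sB j hj
  have s2 := sB j' hj'
  have s3 : m * (N ^ 2 * j + N ^ 2 * j') ≤ 2 * U := by rw [mul_add]; omega
  obtain ⟨V, hV⟩ : ∃ V, V = vol g k / (m * (N : ℝ) ^ (2 * (2 * g + 1))) := ⟨_, rfl⟩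
  have mR : (0 : ℝ) < m := by exact_mod_cast m0
  have V0 : 0 ≤ V := by rw [hV, vol]; positivity
  have hk : N ^ 2 * m ≤ k ^ 2 := by
    rw [sq k]
    exact Nat.mul_le_mul (NU.trans hU.hi) (((Nat.le_self_pow four_ne_zero m).trans m4).trans hU.hi)
  have pw : ∀ u ∈ Us N a m U, ∑ w ∈ bx g k, ind (Cm v N m wb u w) *
      (lam (co (m * d) w (u + m * (N ^ 2 * j)) v) * lam (co (m * d) w (u + m * (N ^ 2 * j')) v)) ≤
      |∑ w ∈ bx g k, ind (Cm v N m wb u w) *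
        min (lam (co (m * d) w (u + m * (N ^ 2 * j')) v)) ((4 * g + 3) * Real.log k) *
        (lam (co (m * d) w (u + m * (N ^ 2 * j)) v) - ph (ql g v N d m (N ^ 2 * j) (N ^ 2 * j') u) *
          ind ((co (m * d) w (u + m * (N ^ 2 * j)) v).Coprime
            (ql g v N d m (N ^ 2 * j) (N ^ 2 * j') u)))| +
      14 * Real.log k * |∑ w ∈ bx g k, ind (Cm v N m wb u w) *
        (lam (co (m * d) w (u + m * (N ^ 2 * j')) v) - ph (ql g v N d m (N ^ 2 * j') (N ^ 2 * j) u) *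
          ind ((co (m * d) w (u + m * (N ^ 2 * j')) v).Coprime
            (ql g v N d m (N ^ 2 * j') (N ^ 2 * j) u)))| +
      ph N ^ 2 * (cnt g k (Cm v N m wb u) + 3 ^ (2 * g + 1) * V *
        (ex N z (1 * u + m * (N ^ 2 * j)) + ex N z (1 * u + m * (N ^ 2 * j')) +
          ex N z (2 * u + m * (N ^ 2 * j + N ^ 2 * j')) + ex N z t)) := fun u hu => by
    obtain ⟨u1, u2⟩ := mem_Ioc.1 (sub hu)
    have Uk := hU.hi
    have q1 := ql_eq g v N d m j j' u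
    have q2 := ql_eq g v N d m j' j u
    rw [← hD, ← ht] at q1
    rw [← hD, show ((j' : ℤ) - j).natAbs = t by omega, add_comm (N ^ 2 * j')] at q2
    have c1 := cnt_le cbx hg wb N0 m0 ((us u hu).2.symm.mul_right mv) mN hk
    rw [← hV] at c1
    rw [one_mul]
    have x0 : 0 < u + m * (N ^ 2 * j) := by omega
    have x1 : 0 < u + m * (N ^ 2 * j') := by omega
    have y0 : 0 < 2 * u + m * (N ^ 2 * j + N ^ 2 * j') := by omega
    have c2 := (pa t _ _ _ t0 x0 x1 y0 D1 D2).2.1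
    rw [← q1, ← q2] at c2
    have Q1 : 0 < ql g v N d m (N ^ 2 * j) (N ^ 2 * j') u := by rw [q1]; positivity
    have Q2 : 0 < ql g v N d m (N ^ 2 * j') (N ^ 2 * j) u := by rw [q2]; positivity
    have Q3 : ql g v N d m (N ^ 2 * j) (N ^ 2 * j') u ≤ k ^ 6 := by
      rw [q1]
      calc _ ≤ k * k * ((3 * k) ^ 2 * (6 * k)) := by gcongr <;> omega
        _ = 54 * k ^ 5 := by ring
        _ ≤ k * k ^ 5 := Nat.mul_le_mul_right _ k2
        _ = k ^ 6 := by ring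
    have Q4 : ph (ql g v N d m (N ^ 2 * j) (N ^ 2 * j') u) ≤ 14 * Real.log k := by
      have := Real.log_le_log (by exact_mod_cast Q1) (show
        (ql g v N d m (N ^ 2 * j) (N ^ 2 * j') u : ℝ) ≤ (k : ℝ) ^ 6 by exact_mod_cast Q3)
      rw [Real.log_pow] at this
      push_cast at this
      linarith only [(pha.1 _ Q1).2, this, l0]
    refine (key (bx g k) (fun _ => ind_nonneg _) (fun _ => lam_nonneg _) (fun _ => ind_le_one _)
      (fun _ => ind_le_one _) (zero_le_one.trans (pha.1 _ Q1).1) Q4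
      (zero_le_one.trans (pha.1 _ Q2).1) fun w hw => ?_).trans (add_le_add_right ?_ _)
    · have := hS w hw (u + m * (N ^ 2 * j')) (by omega)
      rw [min_eq_left (lamb _ this.1 this.2.1 k4)]
    · have c0 : 0 ≤ cnt g k (Cm v N m wb u) := cnt_nonneg
      refine (mul_le_mul_of_nonneg_right c2 c0).trans ?_
      rw [mul_assoc]
      refine mul_le_mul_of_nonneg_left ?_ (sq_nonneg _)
      have := mul_le_mul_of_nonneg_right c1 (add_nonneg (add_nonneg (add_nonneg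
        (ex_nonneg N z (u + m * (N ^ 2 * j))) (ex_nonneg N z (u + m * (N ^ 2 * j'))))
        (ex_nonneg N z (2 * u + m * (N ^ 2 * j + N ^ 2 * j')))) (ex_nonneg N z t))
      linarith only [this]
  refine (sum_le_sum pw).trans ?_
  have pc : ∀ b s : ℕ, s ≤ 2 * U → (b = 1 ∨ b = 2) → ∑ u ∈ Us N a m U, ex N z (b * u + s) ≤
      2 / √(z : ℝ) * (U / (N : ℝ) ^ 2) + 5 * √(U : ℝ) := fun b s h1 h2 =>
    (sum_le_sum_of_subset_of_nonneg (monotone_filter_right _ fun u _ k => k.1)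
      fun _ _ _ => ex_nonneg _ _ _).trans (pb U a s b U1 h1 h2)
  have f1 := pc 1 _ (s1.trans (by omega)) (.inl rfl)
  have f2 := pc 1 _ (s2.trans (by omega)) (.inl rfl)
  have f3 := pc 2 _ s3 (.inr rfl)
  have f4 := mul_le_mul_of_nonneg_right (card_us a m N0 NU) (ex_nonneg N z t)
  rw [sum_add_distrib, sum_add_distrib, ← mul_sum, ← mul_sum, sum_add_distrib, ← mul_sum,
    sum_add_distrib, sum_add_distrib, sum_add_distrib, sum_const, nsmul_eq_mul, rf, ← hV, ← ht]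
  obtain ⟨W, hW⟩ : ∃ W, W = (U : ℝ) / (N : ℝ) ^ 2 := ⟨_, rfl⟩
  rw [← hW] at f1 f2 f3 f4 ⊢
  have W0 : 0 ≤ W := by rw [hW]; positivity
  have g1 : 15 * 3 ^ (2 * g + 1) * √(U : ℝ) ≤ η / 2 * W := by
    have a1 : (R : ℝ) ≤ √(U : ℝ) := Real.le_sqrt_of_sq_le (by exact_mod_cast cu _ k5)
    have a2 := mul_le_mul_of_nonneg_right ((div_le_iff₀ hη).1 (hR.trans a1)) (Real.sqrt_nonneg U)
    have a3 := Real.mul_self_sqrt (Nat.cast_nonneg (α := ℝ) U)
    rw [mul_right_comm _ η, a3] at a2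
    rw [hW, ← mul_div_assoc, le_div_iff₀ (pow_pos NR 2)]
    linarith only [a2]
  have g2 : (4 * g + 3) * Real.log k * vol g k * U / (m * Real.log k ^ 2) +
      14 * Real.log k * (1 * vol g k * U / (m * Real.log k ^ 2)) ≤ η / 2 * (V * W) := by
    have a1 : (4 * g + 3) * Real.log k * vol g k * U / (m * Real.log k ^ 2) +
        14 * Real.log k * (1 * vol g k * U / (m * Real.log k ^ 2)) =
        (4 * g + 17) * ((N : ℝ) ^ (2 * (2 * g + 1)) * (N : ℝ) ^ 2) / Real.log k * (V * W) := by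
      rw [hV, hW]
      field_simp
      ring
    rw [a1]
    refine mul_le_mul_of_nonneg_right ?_ (mul_nonneg V0 W0)
    rw [div_le_iff₀ hη] at l2
    rw [div_le_iff₀ (one_pos.trans_le l0)]
    linarith only [l2]
  have g3 := mul_le_mul_of_nonneg_left e2 (show 0 ≤ 14 * Real.log k by positivity)
  have g4 : η / 2 * (V * W) ≤ ph N ^ 2 * (η / 2 * (V * W)) :=
    le_mul_of_one_le_left (by positivity) (one_le_pow₀ p1)
  have g5 := mul_le_mul_of_nonneg_left (add_le_add (add_le_add (add_le_add f1 f2) f3) f4)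
    (show 0 ≤ 3 ^ (2 * g + 1) * V by positivity)
  have g6 := mul_le_mul_of_nonneg_left g1 V0
  have g7 : 0 ≤ 3 ^ (2 * g + 1) * ex N z t * (V * W) := by
    have := ex_nonneg N z t
    positivity
  have g8 : 3 ^ (2 * g + 1) * V * (2 / √(z : ℝ) * W + 5 * √(U : ℝ) +
      (2 / √(z : ℝ) * W + 5 * √(U : ℝ)) + (2 / √(z : ℝ) * W + 5 * √(U : ℝ)) + 2 * W * ex N z t) ≤
      (η / 2 + 6 * 3 ^ (2 * g + 1) / √(z : ℝ) + 6 * 3 ^ (2 * g + 1) * ex N z t) * (V * W) := by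
    rw [div_eq_mul_inv 2, div_eq_mul_inv (6 * _)]
    linarith only [g6, g7]
  have g9 := mul_le_mul_of_nonneg_left (g5.trans g8) (sq_nonneg (ph N))
  linarith only [g9, g4, g3, g2, e1]

end Pool.Agent.MP_a43263_nt.N2
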