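import Pool.Agent.MP_a43263_nt.N2.SpecB

/-! THEOREM N2: facts on the matrices of a basis. -/

set_option autoImplicit false

noncomputable section

namespace Pool.Agent.MP_a43263_nt.N2

open Polynomial Finset Filter Matrix JC Pool.Agent.MP_a43263_nt.UV K2

theorem mtx_n : MTXStmt := by
  intro g f δ Λ b A T hf hδ hN hb hm
  have h1 : ∀ i j, ((A * T) i j : ℚ) = ta g (zK f ℚ) (δ * b i * (X * b j)) := fun i j => by
    rw [ta_congr (hf.mo ℚ) (Q := δ * b i * ∑ k, C (T k j : ℚ) * b k)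
      (by rw [← mul_sub]; exact (hm.mul j).mul_left _), Bas.ta_comb hm.gram]
    simp [mul_apply, mulVec, dotProduct]
  obtain ⟨P, hP, hA⟩ : ∃ P : Mat g ℚ, P.det ≠ 0 ∧ mK A ℚ = Pᵀ * Gm g (zK f ℚ) δ * P := by
    refine ⟨Matrix.of fun k j => ve _ (zK f ℚ) (b j) k, fun h0 => ?_, ?_⟩
    · obtain ⟨y, hy, hy0⟩ := exists_mulVec_eq_zero_iff.2 h0
      refine hy (hb.ind y ?_)
      have e : ∑ j, y j • ve (2 * g + 1) (zK f ℚ) (b j) = 0 := by
        rw [← hy0]
        funext k
        simp [mulVec, dotProduct, Finset.sum_apply, mul_comm]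
      have a := Finset.dvd_sum (s := univ) fun j _ => (Bas.dvd_ve hf (b j)).mul_left (C (y j))
      simp only [mul_sub, sum_sub_distrib] at a
      rw [← Bas.po_sum, e] at a
      simpa [po] using a
    · ext i j
      rw [mK_apply, hm.gram, Locq.conj_apply, Gm_form]
      refine ta_congr (hf.mo ℚ) ?_
      change _ ∣ _ - δ * po (ve _ _ (b i)) * po (ve _ _ (b j))
      refine (dvd_add ((Bas.dvd_ve hf (b i)).mul_right (δ * b j))
        ((Bas.dvd_ve hf (b j)).mul_right (δ * po (ve (2 * g + 1) (zK f ℚ) (b i))))).trans (dvd_of_eq ?_)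
      ring
  have hd : ((A.det : ℤ) : ℚ) = P.det ^ 2 * ((-1) ^ g * Nm (zK f ℚ) δ) := by
    rw [← mK_det, hA, det_mul, det_mul, det_transpose, (gram.2 ℚ g _ (hf.sq ℚ)).1]
    ring
  have hn : Nm (zK f ℚ) δ ≠ 0 := (((gram.1 ℚ _ (hf.mo ℚ)).2.2.2.1 δ).2 hδ).ne_zero
  refine ⟨?_, ?_, ?_, fun h0 => ?_, ?_, fun hs e he hi => hs ?_, fun i j => ?_, hm.mul⟩
  · ext i j
    refine Int.cast_injective (α := ℚ) ?_
    rw [transpose_apply, hm.gram, hm.gram, mul_right_comm]
  · ext i j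
    refine Int.cast_injective (α := ℚ) ?_
    rw [transpose_apply, h1, h1]
    congr 1
    ring
  · have h1 : aeval (mK T ℚ) (zK f ℚ) = 0 := by
      refine ext_of_mulVec_single fun j => ?_
      rw [zero_mulVec]
      exact hb.ind _ ((dvd_sub_right (dvd_mul_right _ _)).1 (Bas.aeval_comb hm.mul _ _))
    have h2 := minpoly_dvd_charpoly (mK T ℚ)
    rw [← minpoly.eq_of_irreducible_of_monic hf.irr h1 (hf.mo ℚ)] at h2
    refine Polynomial.map_injective (Int.castRingHom ℚ) Int.cast_injective ?_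
    rw [← charpoly_map]
    exact eq_of_monic_of_dvd_of_natDegree_le (hf.mo ℚ) (charpoly_monic _) h2
      (by rw [charpoly_natDegree_eq_dim, hf.dg ℚ, Fintype.card_fin])
  · rw [h0, Int.cast_zero] at hd
    exact mul_ne_zero (pow_ne_zero 2 hP) (mul_ne_zero (pow_ne_zero g (by norm_num)) hn) hd.symm
  · obtain ⟨s, hs⟩ := hN
    refine ⟨P.det * s, ?_⟩
    have e : ((-1 : ℚ) ^ g) * (-1) ^ g = 1 := by rw [← mul_pow]; simp
    rw [Int.cast_mul, hd, hs, Int.cast_pow, Int.cast_neg, Int.cast_one]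
    linear_combination (P.det * s) ^ 2 * e
  · have ta2 : ∀ (w : Fin (2 * g + 1) → ℚ) (Q : ℚ[X]),
        ta g (zK f ℚ) (δ * (∑ k, C (w k) * b k) * Q) =
          ∑ k, w k * ta g (zK f ℚ) (δ * b k * Q) := fun w Q => by
      simp only [mul_sum, sum_mul, ta_sum, ← ta_C_mul]
      refine sum_congr rfl fun k _ => ?_
      congr 1
      ring
    refine (uniq gram g (zK f ℚ) δ (fun i => ∑ k, C (e i k) * b k) (hf.sq ℚ) hf.irr hδ hN
      (fun z hz => ?_) fun i j => ⟨?_, ?_⟩).1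
    · refine funext (Fintype.linearIndependent_iff.1 he z (hb.ind _ (hz.trans (dvd_of_eq ?_))))
      simp only [mul_sum, Finset.sum_apply, Pi.smul_apply, smul_eq_mul, map_sum, sum_mul, C_mul,
        mul_assoc]
      exact sum_comm
    · rw [ta2]
      simp only [Bas.ta_comb hm.gram]
      exact (hi i j).1
    · have a := Bas.aeval_comb hm.mul X (e j)
      rw [aeval_X] at a
      rw [ta_congr (hf.mo ℚ) (Q := δ * (∑ k, C (e i k) * b k) *
        ∑ k, C ((mK T ℚ *ᵥ e j) k) * b k) (by rw [← mul_sub]; exact a.mul_left _), ta2]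
      simp only [Bas.ta_comb hm.gram, mulVec_mulVec, ← mK_mul]
      exact (hi i j).2
  · rw [Matrix.mul_sub, Matrix.mul_one, Matrix.sub_apply, Int.cast_sub, h1, hm.gram, ← ta_sub]
    congr 1
    ring

end Pool.Agent.MP_a43263_nt.N2

end
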