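import Pool.Agent.MP_a43263_nt.N2.SpecC

/-! THEOREM N2, row MUL: multiplicities of the values. -/

set_option autoImplicit false

noncomputable section

namespace Pool.Agent.MP_a43263_nt.N2

open Finset Filter K2

namespace MulA

theorem sum_xp (g : ℕ) : ∑ i : Fin (2 * g + 1), xp g i.1 = (2 * g + 1) ^ 2 := by
  have h : ∀ m : ℕ, ∑ i ∈ range m, 2 * (i + 1) = m * (m + 1) := by
    intro m
    induction m with
    | zero => simp
    | succ m ih => rw [sum_range_succ, ih]; ring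
  rw [Fin.sum_univ_eq_sum_range (fun i => xp g i), sum_range_succ,
    sum_congr rfl (g := fun i => 2 * (i + 1)) (fun i hi => by
      have := mem_range.1 hi
      simp only [xp]; rw [if_neg (by omega)]), h]
  simp only [xp, if_true]
  ring

open Classical in
/-- counting along the fibres over the coordinates outside `J` -/
theorem fib {g k : ℕ} (hk : 1 ≤ k) (J : Finset (Fin (2 * g + 1))) (P : Vec g → Prop) (M : ℕ)
    (h : ∀ w₀ ∈ bx g k, P w₀ → ∀ s : Finset (Vec g),
      (∀ w ∈ s, w ∈ bx g k ∧ P w ∧ ∀ i ∉ J, w i = w₀ i) → s.card ≤ M) :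
    cnt g k P * ∏ i ∈ J, (k : ℝ) ^ xp g i.1 ≤ M * (3 ^ (2 * g + 1) * vol g k) := by
  set t : Finset (Vec g) := Fintype.piFinset fun i => if i ∈ J then {0} else
    Icc (ce g k i.1 - (k : ℤ) ^ xp g i.1) (ce g k i.1 + (k : ℤ) ^ xp g i.1) with ht
  have h1 : ((bx g k).filter P).card ≤ M * t.card := by
    refine card_le_mul_card_image_of_maps_to (f := fun w i => if i ∈ J then 0 else w i)
      (fun w hw => ?_) M fun a _ => ?_
    · rw [ht, Fintype.mem_piFinset]
      intro i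
      by_cases e : i ∈ J
      · simp [e]
      · simp only [e, if_false]
        exact mem_Icc.2 (mem_bx.1 (mem_filter.1 hw).1 i)
    · rcases (((bx g k).filter P).filter
          fun w => (fun i => if i ∈ J then 0 else w i) = a).eq_empty_or_nonempty with e | ⟨w₀, e⟩
      · rw [e]; simp
      · obtain ⟨e1, e2⟩ := mem_filter.1 e
        refine h w₀ (mem_filter.1 e1).1 (mem_filter.1 e1).2 _ fun w hw => ?_
        obtain ⟨f1, f2⟩ := mem_filter.1 hw
        refine ⟨(mem_filter.1 f1).1, (mem_filter.1 f1).2, fun i hi => ?_⟩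
        have := congrFun (f2.trans e2.symm) i
        simpa [hi] using this
  have hk' : (1 : ℝ) ≤ k := by exact_mod_cast hk
  have h2 : (t.card : ℝ) * ∏ i ∈ J, (k : ℝ) ^ xp g i.1 ≤ 3 ^ (2 * g + 1) * vol g k := by
    have h0 : (3 : ℝ) ^ (2 * g + 1) = ∏ _i : Fin (2 * g + 1), 3 := by simp
    rw [ht, Fintype.card_piFinset, Nat.cast_prod, ← Fintype.prod_ite_mem J, ← prod_mul_distrib,
      vol, ← sum_xp, ← prod_pow_eq_pow_sum, h0, ← prod_mul_distrib]
    refine prod_le_prod (fun i _ => by positivity) fun i _ => ?_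
    have h3 : (1 : ℝ) ≤ (k : ℝ) ^ xp g i.1 := one_le_pow₀ hk'
    by_cases e : i ∈ J
    · simp only [e, if_true, card_singleton, Nat.cast_one]
      linarith
    · simp only [e, if_false, Int.card_Icc, mul_one]
      have : ce g k i.1 + (k : ℤ) ^ xp g i.1 + 1 - (ce g k i.1 - (k : ℤ) ^ xp g i.1) =
          ((2 * k ^ xp g i.1 + 1 : ℕ) : ℤ) := by push_cast; ring
      rw [this, Int.toNat_natCast]
      push_cast
      linarith
  rw [cnt_eq_card]
  have h4 : (((bx g k).filter P).card : ℝ) ≤ M * t.card := by exact_mod_cast h1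
  calc _ ≤ (M * t.card : ℝ) * ∏ i ∈ J, (k : ℝ) ^ xp g i.1 := by gcongr
    _ ≤ _ := by rw [mul_assoc]; gcongr

/-- the last but one index -/
def ic (g : ℕ) : Fin (2 * g + 1) := ⟨2 * g - 1, by omega⟩

theorem diff {g : ℕ} (hg : 1 ≤ g) (w w' : Vec g) (u v : ℤ)
    (h : ∀ i, i ≠ ic g → i ≠ Fin.last _ → w i = w' i) :
    Gv w u v - Gv w' u v = (w (Fin.last _) ^ 2 - w' (Fin.last _) ^ 2) * v ^ (4 * g + 2) -
      (w (ic g) - w' (ic g)) * u ^ 2 * v ^ (4 * g) := by
  have hne : ic g ≠ Fin.last _ := fun e => by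
    have := congrArg Fin.val e
    simp only [ic, Fin.val_last] at this
    omega
  rw [Gv, Gv, add_sub_add_left_eq_sub, ← sum_sub_distrib,
    Fintype.sum_eq_add (ic g) (Fin.last _) hne fun i hi => by simp only [sv, h i hi.1 hi.2, sub_self]]
  have e1 : 2 * g - (2 * g - 1) = 1 := by omega
  have e2 : 2 * g - 1 + 1 = 2 * g := by omega
  have e3 : ¬(2 * g - 1 = 2 * g) := by omega
  simp only [sv, ic, Fin.val_last, if_true, e1, e2, e3, if_false, Nat.sub_self]
  ring

/-- points of one residue class in an interval -/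
theorem cls (lo : ℤ) (D p : ℕ) (hp : 0 < p) (s : Finset ℤ) (h : ∀ m ∈ s, m ∈ Icc lo (lo + D))
    (h' : ∀ m ∈ s, ∀ m' ∈ s, (p : ℤ) ∣ m' - m) : s.card ≤ D / p + 1 := by
  have hp' : (0 : ℤ) < p := by exact_mod_cast hp
  have : D / p + 1 = (Icc (0 : ℤ) ((D / p : ℕ) : ℤ)).card := by
    rw [Int.card_Icc, sub_zero]
    exact (Int.toNat_natCast (D / p + 1)).symm
  rw [this]
  refine card_le_card_of_injOn (fun m => (m - lo) / p) (fun m hm => ?_) fun m hm m' hm' e => ?_
  · obtain ⟨h1, h2⟩ := mem_Icc.1 (h m hm)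
    refine mem_coe.2 (mem_Icc.2 ⟨Int.ediv_nonneg (by omega) hp'.le, ?_⟩)
    rw [Int.natCast_div]
    exact Int.ediv_le_ediv hp' (by omega)
  · have h1 : (p : ℤ) ∣ (m' - lo) - (m - lo) := by
      rw [sub_sub_sub_cancel_right]
      exact h' m hm m' hm'
    have h2 : (m - lo) % p = (m' - lo) % p := (Int.modEq_iff_dvd.2 h1 :)
    have h3 := Int.mul_ediv_add_emod (m - lo) p
    have h4 := Int.mul_ediv_add_emod (m' - lo) p
    simp only at e
    rw [e, h2] at h3
    omega

theorem split {u : ℕ} {m r : ℤ} (hc : IsCoprime (2 * r) (u : ℤ))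
    (h : (u : ℤ) ^ 2 ∣ (m - r) * (m + r)) : ∃ e f : ℕ, u = e * f ∧ IsCoprime (e : ℤ) (f : ℤ) ∧
      (e : ℤ) ^ 2 ∣ m - r ∧ (f : ℤ) ^ 2 ∣ m + r := by
  have h1 := Int.natCast_dvd.1 ((dvd_pow_self (u : ℤ) two_ne_zero).trans h)
  rw [Int.natAbs_mul] at h1
  obtain ⟨e, f, he, hf, rfl⟩ := exists_dvd_and_dvd_of_dvd_mul h1
  obtain ⟨a, ha⟩ := Int.natCast_dvd.2 he
  obtain ⟨b, hb⟩ := Int.natCast_dvd.2 hf
  rw [Nat.cast_mul] at hc h
  have c1 : IsCoprime (e : ℤ) (m + r) := by
    rw [show m + r = 2 * r + e * a by linarith]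
    exact hc.of_mul_right_left.symm.add_mul_left_right a
  have c2 : IsCoprime (f : ℤ) (m - r) := by
    rw [show m - r = -(2 * r) + f * b by linarith]
    exact hc.of_mul_right_right.symm.neg_right.add_mul_left_right b
  rw [mul_pow] at h
  exact ⟨e, f, rfl, (hb ▸ c1).of_mul_right_left,
    c1.pow_left.dvd_of_dvd_mul_right ((dvd_mul_right _ _).trans h),
    c2.pow_left.dvd_of_dvd_mul_left ((dvd_mul_left _ _).trans h)⟩

theorem roots {u : ℕ} (hu : 1 ≤ u) (B : ℕ) {r : ℤ} (hc : IsCoprime (2 * r) (u : ℤ)) :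
    ((Icc (r - (B * u ^ 2 : ℕ)) (r + (B * u ^ 2 : ℕ))).filter
      fun m => (u : ℤ) ^ 2 ∣ (m - r) * (m + r)).card ≤ u.divisors.card * (2 * B + 1) := by
  classical
  refine le_trans (card_le_card (t := u.divisors.biUnion fun e =>
    (Icc (r - (B * u ^ 2 : ℕ)) (r + (B * u ^ 2 : ℕ))).filter fun m =>
      IsCoprime (e : ℤ) ((u / e : ℕ) : ℤ) ∧ (e : ℤ) ^ 2 ∣ m - r ∧ ((u / e : ℕ) : ℤ) ^ 2 ∣ m + r)
    fun m hm => ?_) (card_biUnion_le_card_mul _ _ _ fun e he => ?_)
  · obtain ⟨e, f, h1, h2⟩ := split hc (mem_filter.1 hm).2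
    have h3 : u / e = f := by
      rw [h1] at hu ⊢
      exact Nat.mul_div_cancel_left f (Nat.pos_of_mul_pos_right hu)
    refine mem_biUnion.2 ⟨e, Nat.mem_divisors.2 ⟨⟨f, h1⟩, by omega⟩, ?_⟩
    rw [h3]
    exact mem_filter.2 ⟨(mem_filter.1 hm).1, h2⟩
  · have h0 : 0 < u ^ 2 := by positivity
    refine (cls (r - (B * u ^ 2 : ℕ)) (2 * B * u ^ 2) (u ^ 2) h0 _ (fun m hm => ?_)
      fun m hm m' hm' => ?_).trans_eq (by rw [Nat.mul_div_cancel _ h0])
    · have := mem_Icc.1 (mem_filter.1 hm).1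
      rw [mem_Icc]
      push_cast at this ⊢
      constructor <;> linarith [this.1, this.2]
    · obtain ⟨a1, a2, a3⟩ := (mem_filter.1 hm).2
      obtain ⟨-, b2, b3⟩ := (mem_filter.1 hm').2
      have h1 := Nat.mul_div_cancel' (Nat.dvd_of_mem_divisors he)
      generalize u / e = f at *
      rw [← h1, Nat.cast_pow, Nat.cast_mul, mul_pow]
      exact a1.pow.mul_dvd (by simpa using dvd_sub b2 a2) (by simpa using dvd_sub b3 a3)

theorem cop {g : ℕ} {w : Vec g} {u v : ℤ} (h : IsCoprime (Gv w u v) u) :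
    IsCoprime (w (Fin.last _)) u := by
  have h0 : u ∣ -u ^ 2 := dvd_neg.2 (dvd_pow_self u two_ne_zero)
  obtain ⟨t, ht⟩ : u ∣ Gv w u v - w (Fin.last _) * (w (Fin.last _) * (v ^ 2) ^ (2 * g + 1)) := by
    rw [Gv, Fin.sum_univ_castSucc]
    simp only [sv, Fin.val_last, if_true, Nat.sub_self, pow_zero, mul_one]
    rw [← add_assoc, sq (w _), mul_assoc, add_sub_cancel_right]
    refine dvd_add (dvd_pow h0 (by omega)) (dvd_sum fun i _ => ?_)
    have := i.2
    exact ((dvd_pow h0 (by rw [Fin.val_castSucc]; omega)).mul_left _).mul_right _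
  rw [sub_eq_iff_eq_add'.1 ht] at h
  exact h.of_add_mul_left_left.of_mul_left_left

theorem last_mem {g k : ℕ} {w : Vec g} (h : w ∈ bx g k) :
    6 * (k : ℤ) ^ (2 * g + 1) ≤ w (Fin.last _) ∧ w (Fin.last _) ≤ 8 * (k : ℤ) ^ (2 * g + 1) := by
  have := mem_bx.1 h (Fin.last _)
  simp only [ce, xp, Fin.val_last, or_true, if_true] at this
  constructor <;> linarith [this.1, this.2]

theorem xp_ic {g : ℕ} (hg : 1 ≤ g) : xp g (ic g).1 = 4 * g := by
  change xp g (2 * g - 1) = _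
  rw [xp, if_neg (by omega)]
  omega

theorem near {g k : ℕ} (hg : 1 ≤ g) (hk : 1 ≤ k) {w w' : Vec g} (h : w ∈ bx g k)
    (h' : w' ∈ bx g k) {u v : ℤ} (hv : 1 ≤ v)
    (e : (w (Fin.last _) ^ 2 - w' (Fin.last _) ^ 2) * v ^ (4 * g + 2) =
      (w (ic g) - w' (ic g)) * u ^ 2 * v ^ (4 * g)) :
    w (Fin.last _) - w' (Fin.last _) ≤ (k : ℤ) ^ (2 * g - 1) * u ^ 2 := by
  have a := last_mem h
  have a' := last_mem h'
  have b := mem_bx.1 h (ic g)
  have b' := mem_bx.1 h' (ic g)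
  rw [xp_ic hg] at b b'
  have hk' : (0 : ℤ) < k := by exact_mod_cast hk
  have e1 : (w (Fin.last _) ^ 2 - w' (Fin.last _) ^ 2) * v ^ 2 =
      (w (ic g) - w' (ic g)) * u ^ 2 := by
    refine mul_right_cancel₀ (pow_ne_zero (4 * g) (by omega : v ≠ 0)) ?_
    rw [← e]; ring
  have e2 : (k : ℤ) ^ (4 * g) = (k : ℤ) ^ (2 * g - 1) * (k : ℤ) ^ (2 * g + 1) := by
    rw [← pow_add]; congr 1; omega
  have p1 : 0 < (k : ℤ) ^ (2 * g + 1) := by positivity
  have p2 : 0 < (k : ℤ) ^ (2 * g - 1) := by positivity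
  generalize w (Fin.last _) = m at *
  generalize w' (Fin.last _) = m' at *
  generalize (k : ℤ) ^ (2 * g + 1) = A at *
  generalize (k : ℤ) ^ (2 * g - 1) = B at *
  by_contra hc
  push Not at hc
  have q0 : 0 ≤ B * u ^ 2 := by positivity
  have q1 : (w (ic g) - w' (ic g)) * u ^ 2 ≤ 2 * (B * A) * u ^ 2 :=
    mul_le_mul_of_nonneg_right (by linarith [b.2, b'.1]) (sq_nonneg u)
  have q2 : (m - m') * (12 * A) ≤ (m - m') * (m + m') :=
    mul_le_mul_of_nonneg_left (by linarith [a.1, a'.1]) (by linarith)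
  have q3 : (m - m') * (m + m') * 1 ≤ (m - m') * (m + m') * v ^ 2 :=
    mul_le_mul_of_nonneg_left (one_le_pow₀ hv) (mul_nonneg (by linarith) (by linarith [a.1, a'.1]))
  have q4 : B * u ^ 2 * (12 * A) < (m - m') * (12 * A) := mul_lt_mul_of_pos_right hc (by linarith)
  have q5 : 0 ≤ B * u ^ 2 * A := by positivity
  nlinarith

end MulA

open MulA in
theorem mul_n : MULStmt := by
  classical
  intro g hg
  refine ⟨3 * 3 ^ (2 * g + 1), by positivity, fun k u v y hk hu hv huv hy => ?_⟩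
  have hne : ic g ≠ Fin.last _ := fun e => by
    have := congrArg Fin.val e
    simp only [ic, Fin.val_last] at this
    omega
  have hu' : (1 : ℤ) ≤ u := by exact_mod_cast hu
  have hv' : (1 : ℤ) ≤ v := by exact_mod_cast hv
  have c0 : IsCoprime (u : ℤ) (2 * v) := by exact_mod_cast Nat.isCoprime_iff_coprime.2 huv
  have key := fib hk {ic g, Fin.last _} (fun w => Gv w u v = y)
    (u.divisors.card * (3 * k ^ (2 * g - 1))) fun w₀ h₀ e₀ s hs => by
    have hD : 1 ≤ k ^ (2 * g - 1) := Nat.succ_le_of_lt (by positivity)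
    have ag : ∀ w w' : Vec g, (∀ i ∉ ({ic g, Fin.last _} : Finset _), w i = w₀ i) →
        (∀ i ∉ ({ic g, Fin.last _} : Finset _), w' i = w₀ i) → Gv w u v = y → Gv w' u v = y →
        (w (Fin.last _) ^ 2 - w' (Fin.last _) ^ 2) * (v : ℤ) ^ (4 * g + 2) =
          (w (ic g) - w' (ic g)) * (u : ℤ) ^ 2 * (v : ℤ) ^ (4 * g) := fun w w' a a' b b' => by
      have := diff hg w w' u v fun i h1 h2 => by
        rw [a i (by simp [h1, h2]), a' i (by simp [h1, h2])]
      rw [b, b', sub_self] at this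
      linarith
    refine le_trans (card_le_card_of_injOn (fun w => w (Fin.last _)) (fun w hw => ?_)
      fun w hw w' hw' e => ?_) ((roots hu (k ^ (2 * g - 1)) (r := w₀ (Fin.last _))
        (c0.of_mul_right_left.symm.mul_left (cop (e₀ ▸ hy)))).trans
          (Nat.mul_le_mul_left _ (by omega)))
    · obtain ⟨h1, h2, h3⟩ := hs w hw
      have n0 := ag w w₀ h3 (fun _ _ => rfl) h2 e₀
      have n1 := near hg hk h1 h₀ hv' n0
      have n2 := near hg hk h₀ h1 hv' (ag w₀ w (fun _ _ => rfl) h3 e₀ h2)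
      refine mem_coe.2 (mem_filter.2 ⟨mem_Icc.2 ?_, ?_⟩)
      · push_cast
        constructor <;> linarith
      · refine (c0.of_mul_right_right.pow (m := 2) (n := 4 * g + 2)).dvd_of_dvd_mul_right ?_
        rw [mul_comm (_ - _), ← sq_sub_sq, n0]
        exact (dvd_mul_left _ _).mul_right _
    · obtain ⟨-, h2, h3⟩ := hs w hw
      obtain ⟨-, h2', h3'⟩ := hs w' hw'
      have e' : w (Fin.last _) = w' (Fin.last _) := e
      have := ag w w' h3 h3' h2 h2'
      rw [e', sub_self, zero_mul] at this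
      have e'' : w (ic g) = w' (ic g) := by
        have := (mul_eq_zero.1 ((mul_eq_zero.1 this.symm).resolve_right
          (by positivity))).resolve_right (by positivity)
        linarith
      funext i
      by_cases c1 : i = ic g
      · rw [c1, e'']
      by_cases c2 : i = Fin.last _
      · rw [c2, e']
      rw [h3 i (by simp [c1, c2]), h3' i (by simp [c1, c2])]
  rw [prod_pair hne, xp_ic hg] at key
  simp only [xp, Fin.val_last, if_true] at key
  have hk' : (0 : ℝ) < k := by exact_mod_cast hk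
  have e2 : (k : ℝ) ^ (4 * g) * (k : ℝ) ^ (2 * g + 1) =
      (k : ℝ) ^ (4 * g + 2) * (k : ℝ) ^ (2 * g - 1) := by
    rw [← pow_add, ← pow_add]; congr 1; omega
  rw [e2] at key
  push_cast at key
  have p2 : 0 < (k : ℝ) ^ (2 * g - 1) := by positivity
  exact le_of_mul_le_mul_right (by linarith) p2

end Pool.Agent.MP_a43263_nt.N2
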