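import Pool.Agent.MP_a43263_nt.N2.SpecC

/-! How often a conductor occurs. -/

set_option autoImplicit false

noncomputable section

namespace Pool.Agent.MP_a43263_nt.N2

open Finset

namespace NcA

theorem succ_le_exp {δ : ℝ} (hδ : 0 < δ) (a : ℕ) :
    (a : ℝ) + 1 ≤ (1 + 1 / δ) * Real.exp (a * δ) := by
  have h1 : a * δ + 1 ≤ Real.exp (a * δ) := Real.add_one_le_exp _
  have h2 : (0 : ℝ) ≤ a := Nat.cast_nonneg a
  have h3 : (1 + 1 / δ) * (a * δ + 1) = a * δ + 1 + a + 1 / δ := by field_simp; ring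
  have h4 : 0 < 1 / δ := by positivity
  calc (a : ℝ) + 1 ≤ (1 + 1 / δ) * (a * δ + 1) := by rw [h3]; nlinarith
    _ ≤ _ := by gcongr

theorem divisor {ε : ℝ} (hε : 0 < ε) : ∃ C : ℝ, 1 ≤ C ∧ ∀ n : ℕ, 1 ≤ n →
    (n.divisors.card : ℝ) ≤ C * (n : ℝ) ^ ε := by
  have hl : 0 < Real.log 2 := Real.log_pos one_lt_two
  have hδ : 0 < ε * Real.log 2 := by positivity
  set K : ℝ := 1 + 1 / (ε * Real.log 2) with hK
  have hK1 : 1 ≤ K := by rw [hK]; linarith [show 0 < 1 / (ε * Real.log 2) by positivity]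
  set B : ℕ := ⌈Real.exp (1 / ε)⌉₊ with hB
  refine ⟨K ^ B, one_le_pow₀ hK1, fun n hn => ?_⟩
  have hn0 : n ≠ 0 := by omega
  rw [Nat.card_divisors hn0, Nat.cast_prod]
  have h1 : ∀ p ∈ n.primeFactors, ((n.factorization p + 1 : ℕ) : ℝ) ≤
      (if p < B then K else 1) * (((p ^ n.factorization p : ℕ) : ℝ)) ^ ε := by
    intro p hp
    have hp2 : 2 ≤ p := (Nat.prime_of_mem_primeFactors hp).two_le
    have hp2' : (2 : ℝ) ≤ p := by exact_mod_cast hp2
    have hp0 : (0 : ℝ) < p := by linarith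
    have ha : (0 : ℝ) ≤ n.factorization p := Nat.cast_nonneg _
    have e : (((p ^ n.factorization p : ℕ) : ℝ)) ^ ε =
        Real.exp (n.factorization p * (ε * Real.log p)) := by
      push_cast
      rw [Real.rpow_def_of_pos (by positivity), Real.log_pow]
      congr 1
      ring
    rw [e]
    push_cast
    split_ifs with h
    · refine (succ_le_exp hδ _).trans ?_
      have : Real.log 2 ≤ Real.log p := Real.log_le_log two_pos hp2'
      gcongr
    · have a1 : Real.exp (1 / ε) ≤ p := by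
        refine (Nat.le_ceil _).trans ?_
        exact_mod_cast not_lt.1 h
      have a2 : 1 / ε ≤ Real.log p := by
        rw [Real.le_log_iff_exp_le hp0]
        exact a1
      have a3 : 1 ≤ ε * Real.log p := by
        rw [div_le_iff₀ hε] at a2
        linarith
      rw [one_mul]
      refine le_trans ?_ (Real.add_one_le_exp _)
      nlinarith
  refine (prod_le_prod (fun _ _ => by positivity) h1).trans ?_
  rw [prod_mul_distrib, Real.finsetProd_rpow _ _ (fun _ _ => by positivity), ← Nat.cast_prod]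
  have h2 : ∏ p ∈ n.primeFactors, p ^ n.factorization p = n := by
    conv_rhs => rw [← Nat.prod_factorization_pow_eq_self hn0]
    rfl
  rw [h2]
  refine mul_le_mul_of_nonneg_right ?_ (by positivity)
  rw [prod_ite, prod_const_one, mul_one, prod_const]
  refine pow_le_pow_right₀ hK1 ?_
  calc (n.primeFactors.filter (fun p => p < B)).card ≤ (range B).card :=
        card_le_card (fun p hp => mem_range.2 (mem_filter.1 hp).2)
    _ = B := card_range B

/-- a large divisor of one of the two factors -/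
theorem big {c D x y : ℕ} (hc : 1 ≤ c) (hD : 1 ≤ D) (h : c ∣ D * (x ^ 2 * y)) :
    ∃ e : ℕ, e ∣ c ∧ c ≤ (e * D) ^ 3 ∧ (e ∣ x ∨ e ∣ y) := by
  obtain ⟨c0, r, h0, hr, rfl⟩ := exists_dvd_and_dvd_of_dvd_mul h
  obtain ⟨r1, c3, h1, h3, rfl⟩ := exists_dvd_and_dvd_of_dvd_mul hr
  rw [pow_two] at h1
  obtain ⟨c1, c2, g1, h2, rfl⟩ := exists_dvd_and_dvd_of_dvd_mul h1
  have hc0 : c0 ≤ D := Nat.le_of_dvd hD h0
  have hD3 : D ≤ D ^ 3 := Nat.le_self_pow (by norm_num) D
  have key : ∀ e : ℕ, c1 ≤ e → c2 ≤ e → c3 ≤ e → c0 * (c1 * c2 * c3) ≤ (e * D) ^ 3 := by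
    intro e a1 a2 a3
    calc c0 * (c1 * c2 * c3) ≤ D ^ 3 * (e * e * e) := by gcongr; exact hc0.trans hD3
      _ = (e * D) ^ 3 := by ring
  rcases le_total c1 c2 with a | a
  · rcases le_total c2 c3 with b | b
    · exact ⟨c3, ⟨c0 * c1 * c2, by ring⟩, key _ (a.trans b) b le_rfl, Or.inr h3⟩
    · exact ⟨c2, ⟨c0 * c1 * c3, by ring⟩, key _ a le_rfl b, Or.inl h2⟩
  · rcases le_total c1 c3 with b | b
    · exact ⟨c3, ⟨c0 * c1 * c2, by ring⟩, key _ b (a.trans b) le_rfl, Or.inr h3⟩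
    · exact ⟨c1, ⟨c0 * c2 * c3, by ring⟩, key _ le_rfl a b, Or.inl g1⟩

theorem cnt_le {U b s M e : ℕ} (hb : 1 ≤ b) (hM : b * (2 * U) + s ≤ M) :
    (((Ioc U (2 * U)).filter fun u => e ∣ b * u + s).card : ℝ) ≤ (M : ℝ) / e := by
  refine le_trans ?_ Nat.cast_div_le
  rw [← Nat.Ioc_filter_dvd_card_eq_div]
  refine Nat.cast_le.2 (card_le_card_of_injOn (fun u => b * u + s) ?_ ?_)
  · intro u hu
    obtain ⟨h1, h2⟩ := mem_filter.1 (mem_coe.1 hu)
    obtain ⟨h3, h4⟩ := mem_Ioc.1 h1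
    refine mem_coe.2 (mem_filter.2 ⟨mem_Ioc.2 ⟨?_, ?_⟩, h2⟩)
    · have : 0 < b * u := Nat.mul_pos hb (by omega)
      show 0 < b * u + s
      omega
    · have : b * u ≤ b * (2 * U) := Nat.mul_le_mul_left _ h4
      show b * u + s ≤ M
      omega
  · intro u _ u' _ h
    have h' : b * u + s = b * u' + s := h
    exact Nat.eq_of_mul_eq_mul_left hb (by omega)

end NcA

theorem nc_n : NCStmt := by
  obtain ⟨C, hC1, hC⟩ := NcA.divisor (ε := 1 / 12) (by norm_num)
  refine ⟨9 * C, by positivity, fun U D s s' c hU hD hs hs' hc => ?_⟩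
  have hc0 : (0 : ℝ) < c := by exact_mod_cast hc
  set t : ℝ := (c : ℝ) ^ (1 / 12 : ℝ) with ht
  have ht0 : 0 < t := by positivity
  have e12 : t ^ 12 = c := by
    rw [ht, ← Real.rpow_natCast, ← Real.rpow_mul hc0.le]; norm_num
  have e3 : (c : ℝ) ^ (1 / 4 : ℝ) = t ^ 3 := by
    rw [ht, ← Real.rpow_natCast, ← Real.rpow_mul hc0.le]; norm_num
  set E := c.divisors.filter fun e => c ≤ (e * D) ^ 3 with hE
  have hsub : ((Ioc U (2 * U)).filter fun u => c ∣ D * ((u + s) ^ 2 * (2 * u + s'))) ⊆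
      E.biUnion fun e => ((Ioc U (2 * U)).filter fun u => e ∣ 1 * u + s) ∪
        ((Ioc U (2 * U)).filter fun u => e ∣ 2 * u + s') := by
    intro u hu
    obtain ⟨h1, h2⟩ := mem_filter.1 hu
    obtain ⟨e, a1, a2, a3⟩ := NcA.big hc hD h2
    refine mem_biUnion.2 ⟨e, mem_filter.2 ⟨Nat.mem_divisors.2 ⟨a1, by omega⟩, a2⟩, ?_⟩
    rcases a3 with a | a
    · exact mem_union_left _ (mem_filter.2 ⟨h1, by rwa [one_mul]⟩)
    · exact mem_union_right _ (mem_filter.2 ⟨h1, a⟩)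
  have hone : ∀ e ∈ E, ((((Ioc U (2 * U)).filter fun u => e ∣ 1 * u + s) ∪
        ((Ioc U (2 * U)).filter fun u => e ∣ 2 * u + s')).card : ℝ) ≤ 9 * U * D / t ^ 4 := by
    intro e he
    obtain ⟨a1, a2⟩ := mem_filter.1 he
    have he0 : (0 : ℝ) < e := by exact_mod_cast Nat.pos_of_mem_divisors a1
    have a3 : t ^ 4 ≤ e * D := by
      refine le_of_pow_le_pow_left₀ (n := 3) (by norm_num) (by positivity) ?_
      rw [← pow_mul, e12]
      exact_mod_cast a2
    have b1 := NcA.cnt_le (U := U) (b := 1) (s := s) (M := 3 * U) (e := e) le_rfl (by omega)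
    have b2 := NcA.cnt_le (U := U) (b := 2) (s := s') (M := 6 * U) (e := e) (by norm_num) (by omega)
    refine (Nat.cast_le.2 (card_union_le _ _)).trans ?_
    push_cast at b1 b2 ⊢
    refine (add_le_add b1 b2).trans ?_
    rw [← add_div, div_le_div_iff₀ he0 (by positivity)]
    have hU0 : (0 : ℝ) ≤ U := Nat.cast_nonneg U
    nlinarith [mul_le_mul_of_nonneg_left a3 hU0]
  have hcard : (E.card : ℝ) ≤ C * t :=
    (Nat.cast_le.2 (card_filter_le _ _)).trans (hC c hc)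
  refine (Nat.cast_le.2 ((card_le_card hsub).trans card_biUnion_le)).trans ?_
  push_cast
  refine (sum_le_card_nsmul _ _ _ hone).trans ?_
  rw [nsmul_eq_mul, e3]
  calc (E.card : ℝ) * (9 * U * D / t ^ 4) ≤ C * t * (9 * U * D / t ^ 4) := by gcongr
    _ = 9 * C * U * D / t ^ 3 := by field_simp

end Pool.Agent.MP_a43263_nt.N2
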