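import Pool.Agent.MP_a43263_nt.N2.SpecB

/-! THEOREM N2: the local invariants at a simple root are additive. -/

set_option autoImplicit false

noncomputable section

namespace Pool.Agent.MP_a43263_nt.N2

open Polynomial Finset Matrix JC Pool.Agent.MP_a43263_nt.UV K2

namespace NgmA

variable {p : ℕ} [Fact p.Prime] {g : ℕ} {f : ℤ[X]} {a : ℤ}

/-- the norm of the marked element -/
theorem nm_pw (hf : Zq g f) {α : ℤ_[p]} {h t : ℤ_[p][X]} (H : Ha p f a α h t) :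
    ∃ u : ℤ_[p], PadicInt.toZMod u = ((rq p h).eval (a : ZMod p) ^ 2) ^ 2 ∧
      Nm (zK f ℤ_[p]) (zK (pw p f a) ℤ_[p]) = ((p : ℤ_[p]) ^ g) ^ 2 * u := by
  have hdg := hf.dg ℤ_[p]
  have dh : h.natDegree = 2 * g := by
    rw [H.eq, (monic_X_sub_C α).natDegree_mul H.monic, natDegree_X_sub_C] at hdg
    omega
  obtain ⟨g1, g2, g3, -, -, g6⟩ := gram.1 _ _ H.monic
  have e1 : Nm (X - C α) (zK (pw p f a) ℤ_[p]) = (zK (pw p f a) ℤ_[p]).eval α := by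
    rw [Nm, natDegree_X_sub_C, resultant_X_sub_C_left _ _ _ le_rfl]
  have e2 : PadicInt.toZMod (Nm h t) = (rq p h).eval (a : ZMod p) := by
    rw [← g6, show t.map PadicInt.toZMod = _ from H.un, Nm, natDegree_X_sub_C,
      resultant_X_sub_C_right _ _ _ le_rfl, H.monic.natDegree_map, dh, pow_mul]
    simp
  refine ⟨(zK (pw p f a) ℤ_[p]).eval α * Nm h t, ?_, ?_⟩
  · rw [map_mul, H.val, e2]
    ring
  · rw [H.eq, Gram.nm_mul_left (monic_X_sub_C α) H.monic, e1, g2 _ _ H.pi, g1, g3, dh]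
    ring

theorem nm_sq (hp : p ≠ 2) (hf : Zq g f) {α : ℤ_[p]} {h t : ℤ_[p][X]} (H : Ha p f a α h t) :
    Nm (zK f ℚ_[p]) (zK (pw p f a) ℚ_[p]) ≠ 0 ∧
      IsSquare (Nm (zK f ℚ_[p]) (zK (pw p f a) ℚ_[p])) := by
  obtain ⟨u, h1, h2⟩ := nm_pw hf H
  have hu : IsUnit u := Locq.unit_iff.2 (h1 ▸ pow_ne_zero _ (pow_ne_zero _ H.ne))
  have hs : IsSquare (u : ℚ_[p]) := ((pad.1 p hp).1 u hu).2 (h1 ▸ IsSquare.sq _)
  have e : Nm (zK f ℚ_[p]) (zK (pw p f a) ℚ_[p]) = ((p : ℚ_[p]) ^ g) ^ 2 * u := by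
    rw [← iq_zK, ← iq_zK, Gram.nm_map (hf.mo _), h2]
    simp
  have p0 : (p : ℚ_[p]) ≠ 0 := Nat.cast_ne_zero.2 (Fact.out : p.Prime).ne_zero
  rw [e]
  exact ⟨mul_ne_zero (pow_ne_zero _ (pow_ne_zero _ p0)) (Locq.coe_ne hu),
    (IsSquare.sq _).mul hs⟩

theorem ev_ne (hr : Rt p f a) {r : (ZMod p)[X]} (hc : IsCoprime r (zK f (ZMod p))) :
    r.eval (a : ZMod p) ≠ 0 := fun e => by
  obtain ⟨u, v, e'⟩ := hc
  have z : (zK f (ZMod p)).eval (a : ZMod p) = 0 := by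
    rw [zK, eval_intCast_map, Int.cast_id, eq_intCast]
    exact (ZMod.intCast_zmod_eq_zero_iff_dvd _ _).2 hr.1
  simpa [e, z] using congrArg (eval (a : ZMod p)) e'

end NgmA

open NgmA Ram in
theorem ngm_n : HENStmt → NGMStmt := by
  intro hen p _ g f a hp hf hr
  obtain ⟨α, h, t, H⟩ := hen p g f a hf hr
  obtain ⟨n1, n2⟩ := nm_sq hp hf H
  have co : IsCoprime (zK (pw p f a) ℚ_[p]) (zK f ℚ_[p]) :=
    ((gram.1 _ _ (hf.mo _)).2.2.2.1 _).1 (IsUnit.mk0 _ n1)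
  refine ⟨co, n2, ⟨1, 1, by simp, by simpa using isCoprime_one_left, by simp⟩, ?_,
    fun δ => ⟨?_, ?_⟩, ?_⟩
  · rintro δ δ' u y u' y' ⟨x, r, h1, h2, h3⟩ ⟨x', r', h4, h5, h6⟩
    obtain ⟨b, c0, hab⟩ := co
    have k2 : IsCoprime (rq p (r * r')) (zK f (ZMod p)) := by
      simpa only [rq, Polynomial.map_mul] using h2.mul_left h5
    have k3 : IsSquare ((rq p (r * r')).eval (a : ZMod p)) ↔ u + u' = 0 := by
      rw [rq, Polynomial.map_mul, eval_mul]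
      exact sq_mul (NgmA.ev_ne hr h2) (NgmA.ev_ne hr h5) h3 h6
    have k1 := dvd_mul_sub h1 h4
    have hy : ∀ y y' : ZMod 2, (y + y').val = y.val + y'.val ∨
        ((y + y').val = 0 ∧ y.val = 1 ∧ y'.val = 1) := by decide
    rcases hy y y' with c | ⟨c, c1, c2⟩
    · refine ⟨x * x', r * r', ?_, k2, k3⟩
      rw [iq, Polynomial.map_mul, c, pow_add, mul_mul_mul_comm,
        show δ * δ' * (x * x') ^ 2 = δ * x ^ 2 * (δ' * x' ^ 2) by ring]
      exact k1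
    · refine ⟨x * x' * b, r * r', ?_, k2, k3⟩
      rw [c1, c2] at k1
      rw [iq, Polynomial.map_mul, c]
      have k4 : zK f ℚ_[p] ∣ b * zK (pw p f a) ℚ_[p] - 1 := ⟨-c0, by linear_combination hab⟩
      have k5 := dvd_add (k1.mul_right (b ^ 2))
        ((dvd_mul_sub k4 k4).mul_left (iq p r * iq p r'))
      refine (congrArg _ ?_).mp k5
      ring
  · rintro ⟨x, r, h1, h2⟩
    by_cases c : IsSquare ((rq p r).eval (a : ZMod p))
    · exact ⟨0, x, r, by simpa using h1, h2, iff_of_true c rfl⟩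
    · exact ⟨1, x, r, by simpa using h1, h2, iff_of_false c one_ne_zero⟩
  · rintro ⟨u, x, r, h1, h2, -⟩
    exact ⟨x, r, by simpa using h1, h2⟩
  · rintro δ z s y ⟨x, r, h1, h2⟩
    exact ⟨z * x, r, by rwa [mul_pow, ← mul_assoc], h2⟩

end Pool.Agent.MP_a43263_nt.N2
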