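import Pool.Agent.MP_a43263_nt.N2.SpecB

/-! THEOREM N2: isomorphic triples come from the same Lagrangians. -/

set_option autoImplicit false

noncomputable section

namespace Pool.Agent.MP_a43263_nt.N2

open Polynomial Finset Filter Matrix JC Pool.Agent.MP_a43263_nt.UV K2

namespace NisA

variable {g : ℕ}

theorem cancel {F : Type} [CommRing F] [IsDomain F] {N P P' : Mat g F} (hN : N.det ≠ 0)
    (h : P * N = P' * N) : P = P' := by
  have := congrArg (fun M => M * N.adjugate) h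
  simp only [mul_assoc, mul_adjugate, mul_smul_comm, mul_one] at this
  exact smul_right_injective _ hN this

/-- an isometry in the centraliser is a sign -/
theorem sign {A T d : Mat g ℚ} (hA : A.det ≠ 0) (hT : Irreducible T.charpoly) (hc : Commute d T)
    (h : dᵀ * A * d = A) : d = 1 ∨ d = -1 := by
  obtain ⟨e, he⟩ : ∃ e, e = d.det := ⟨_, rfl⟩
  have e2 : e * e = 1 := by
    have := congrArg det h
    rw [det_mul, det_mul, det_transpose, ← he] at this
    exact mul_right_cancel₀ hA (by linear_combination this)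
  have k : dᵀ * A * (d - e • 1) = ((-e) • (d - e • 1))ᵀ * A := by
    rw [Matrix.mul_sub, h, smul_sub, smul_smul, neg_mul, e2, transpose_sub, transpose_smul,
      transpose_smul, transpose_one, Matrix.sub_mul, Matrix.mul_smul, Matrix.mul_one,
      Matrix.smul_mul, Matrix.smul_mul, Matrix.one_mul, neg_smul, neg_smul, one_smul]
    abel
  have z : (d - e • 1).det = 0 := by
    have := congrArg det k
    rw [det_mul, det_mul, det_mul, det_transpose, det_transpose, det_smul, Fintype.card_fin, ← he,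
      pow_succ, pow_mul, neg_sq, sq, e2, one_pow, one_mul] at this
    exact mul_right_cancel₀ hA (by
      linear_combination (e / 2) * this - (d - e • 1).det * A.det * e2)
  obtain ⟨v, v0, hv⟩ := exists_mulVec_eq_zero_iff.2 z
  have := UC.Uni.rigid hT (hc.sub_left ((Commute.one_left T).smul_left e)) v0 hv
  rw [sub_eq_zero] at this
  rcases mul_self_eq_one_iff.1 e2 with q | q
  · exact Or.inl (by rw [this, q, one_smul])
  · exact Or.inr (by rw [this, q, neg_smul, one_smul])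

theorem keyQ {A T P R S : Mat g ℚ} {c k : ℚ} (hA : A.det ≠ 0) (hT : Irreducible T.charpoly)
    (hR : R.det ≠ 0) (hk : k ≠ 0) (h : Pᵀ * A * P = Rᵀ * A * R)
    (h1 : P * S = (c • (1 : Mat g ℚ) + k • T) * P) (h2 : R * S = (c • (1 : Mat g ℚ) + k • T) * R) :
    P = R ∨ P = -R := by
  obtain ⟨d, rfl⟩ : ∃ d, P = d * R :=
    ⟨P * R⁻¹, (nonsing_inv_mul_cancel_right _ _ (Ne.isUnit hR)).symm⟩
  have a1 : dᵀ * A * d = A := by
    refine cancel hR (transpose_injective (cancel hR (transpose_injective ?_)))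
    simpa only [transpose_mul, transpose_transpose, Matrix.mul_assoc] using h
  have a2 : Commute d T := by
    rw [Matrix.mul_assoc, h2, ← Matrix.mul_assoc, ← Matrix.mul_assoc] at h1
    have := cancel hR h1
    simp only [Matrix.mul_add, Matrix.add_mul, Matrix.mul_smul, Matrix.smul_mul, Matrix.mul_one,
      Matrix.one_mul, add_right_inj] at this
    exact smul_right_injective _ hk this
  rcases sign hA hT a2 a1 with q | q
  · exact Or.inl (by rw [q, Matrix.one_mul])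
  · exact Or.inr (by rw [q, Matrix.neg_mul, Matrix.one_mul])

theorem keyZ {A T P R S : Mat g ℤ} {c k : ℤ} (hA : A.det ≠ 0) (hT : Irreducible (zK T.charpoly ℚ))
    (hR : R.det ≠ 0) (hk : k ≠ 0) (h : Pᵀ * A * P = Rᵀ * A * R)
    (h1 : P * S = (c • (1 : Mat g ℤ) + k • T) * P) (h2 : R * S = (c • (1 : Mat g ℤ) + k • T) * R) :
    ∃ e : ℤ, e * e = 1 ∧ P = e • R := by
  let φ : Mat g ℤ →+* Mat g ℚ := (Int.castRingHom ℚ).mapMatrix
  have i : Function.Injective φ := Matrix.map_injective (Int.cast_injective (α := ℚ))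
  have dt : ∀ M : Mat g ℤ, M.det ≠ 0 → (φ M).det ≠ 0 := fun M hM => by
    rw [← RingHom.map_det]
    exact Int.cast_ne_zero.2 hM
  have tr : ∀ M : Mat g ℤ, φ Mᵀ = (φ M)ᵀ := fun _ => rfl
  have sm : φ (c • (1 : Mat g ℤ) + k • T) = (c : ℚ) • (1 : Mat g ℚ) + (k : ℚ) • φ T := by
    rw [map_add, map_zsmul, map_zsmul, map_one, Int.cast_smul_eq_zsmul, Int.cast_smul_eq_zsmul]
  rcases keyQ (P := φ P) (S := φ S) (c := c) (k := k) (T := φ T) (dt A hA)
    ((Matrix.charpoly_map T (Int.castRingHom ℚ)).symm ▸ hT) (dt R hR) (Int.cast_ne_zero.2 hk)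
    (by rw [← tr, ← tr, ← map_mul, ← map_mul, h, map_mul, map_mul])
    (by rw [← sm, ← map_mul, h1, map_mul]) (by rw [← sm, ← map_mul, h2, map_mul]) with q | q
  · exact ⟨1, rfl, by rw [one_smul]; exact i q⟩
  · exact ⟨-1, rfl, by rw [neg_smul, one_smul]; exact i (q.trans (map_neg φ R).symm)⟩

/-- the two overlattices are equal -/
theorem same (ovf : OVFStmt) {m₁ : ℕ} {A R B R₂ B₂ γ : Mat g ℤ} {Λ Λ₂ : ∀ p : ℕ, Sub g p}
    (sf : Squarefree m₁) (sa : A.IsSymm) (o : Ov m₁ A Λ R B) (o₂ : Ov m₁ A Λ₂ R₂ B₂)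
    (hγ : γ.det = 1) {e : ℤ} (e2 : e * e = 1) (h : R * γ = e • R₂) {p : ℕ} (hp : p.Prime)
    (hm : p ∣ m₁) : Λ p = Λ₂ p := by
  ext x
  rw [(ovf g m₁ A R B Λ sf sa o).2.2.2.2 p hp hm, (ovf g m₁ A R₂ B₂ Λ₂ sf sa o₂).2.2.2.2 p hp hm]
  constructor
  · rintro ⟨ξ, rfl⟩
    refine ⟨e • (γ⁻¹ *ᵥ ξ), congrArg _ ?_⟩
    rw [mulVec_smul, ← smul_mulVec, ← h, mulVec_mulVec,
      mul_nonsing_inv_cancel_right _ _ (hγ ▸ isUnit_one)]
  · rintro ⟨ξ, rfl⟩
    refine ⟨e • (γ *ᵥ ξ), congrArg _ ?_⟩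
    rw [mulVec_smul, mulVec_mulVec, h, smul_mulVec, smul_smul, e2, one_smul]

end NisA

open NisA in
theorem nis_n : CHGStmt → OVFStmt → NISStmt := by
  intro chg ovf g Q m₀ m₁ a f m A A' M T R R' B B' N R₂ R₂' B₂ B₂' N₂ γ β Λ Λ' Λ₂ Λ₂' zq ev sf pre
    o o' t o₂ o₂' t₂ hγ hβ e1 e2 e3 p hp hm
  have m0 : (m₁ : ℤ) ≠ 0 := Nat.cast_ne_zero.2 sf.ne_zero
  have dA : A.det ≠ 0 := Int.natAbs_ne_zero.1 (pre.dA ▸ pow_ne_zero _ sf.ne_zero)
  have dA' : A'.det ≠ 0 := Int.natAbs_ne_zero.1 (pre.dA' ▸ pow_ne_zero _ sf.ne_zero)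
  have dR := (ovf g m₁ A R₂ B₂ Λ₂ sf pre.sa o₂).2.1
  have iγ : γ * γ⁻¹ = 1 := mul_nonsing_inv _ (hγ ▸ isUnit_one)
  have c := chg.1 _ B B' N γ _ β o.un o'.un iγ (hβ ▸ isUnit_one)
  rw [← e1, ← e2, ← e3] at c
  obtain ⟨e, ee, he⟩ := keyZ (P := R * γ) (S := Tt B₂ B₂' N₂) dA (pre.ch.symm ▸ zq.irr) dR
    (pow_ne_zero 2 m0) (by
      rw [o₂.eq, e1, transpose_mul, show γᵀ * Rᵀ * A * (R * γ) = γᵀ * (Rᵀ * A * R) * γ by
        simp only [Matrix.mul_assoc], o.eq, Matrix.mul_smul, Matrix.smul_mul])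
    (by rw [c, ← Matrix.mul_assoc, ← Matrix.mul_assoc, Matrix.mul_assoc R, iγ, Matrix.mul_one, t.cj,
      Matrix.mul_assoc]) t₂.cj
  refine ⟨same ovf sf pre.sa o o₂ hγ ee he hp hm, ?_⟩
  have f1 : (1 - T).det ≠ 0 := fun h => by
    have r : (zK f ℚ).IsRoot 1 := by
      have := Matrix.eval_charpoly T 1
      rw [map_one, h, pre.ch] at this
      rw [IsRoot, zK, eval_one_map, this, map_zero]
    have b : (zK f ℚ).natDegree = 1 :=
      natDegree_eq_of_degree_eq_some (degree_eq_one_of_irreducible_of_root zq.irr r)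
    rw [zK, zq.monic.natDegree_map, zq.deg] at b
    have := zq.pos
    omega
  have dM : M.det ≠ 0 := fun h => by
    have := congrArg det pre.rel
    rw [det_mul, h, mul_zero, det_mul] at this
    exact mul_ne_zero dA f1 this.symm
  obtain ⟨ε, ε1, ε2⟩ := t.eq
  obtain ⟨δ, δ1, δ2⟩ := t₂.eq
  have k : (δ • R₂'ᵀ) * (A' * M * R₂) = ((ε * e) • (R' * β)ᵀ) * (A' * M * R₂) := by
    calc _ = (m₁ : ℤ) • N₂ := by rw [δ2, Matrix.smul_mul]; simp only [Matrix.mul_assoc]
      _ = βᵀ * ((m₁ : ℤ) • N) * γ := by rw [e3, Matrix.mul_smul, Matrix.smul_mul]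
      _ = ε • ((R' * β)ᵀ * (A' * M * (R * γ))) := by
        rw [ε2, Matrix.mul_smul, Matrix.smul_mul, transpose_mul]
        simp only [Matrix.mul_assoc]
      _ = _ := by rw [he, Matrix.mul_smul, Matrix.mul_smul, smul_smul, Matrix.smul_mul]
  have k' := congrArg (fun Z => (ε * e) • Zᵀ) (cancel (by
    rw [det_mul, det_mul]
    exact mul_ne_zero (mul_ne_zero dA' dM) dR) k)
  simp only [transpose_smul, transpose_transpose, smul_smul] at k'
  rw [show ε * e * (ε * e) = 1 by linear_combination e * e * ε1 + ee, one_smul] at k'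
  exact same ovf sf pre.sa' o' o₂' hβ
    (by linear_combination e * e * δ * δ * ε1 + δ * δ * ee + δ1) k'.symm hp hm

end Pool.Agent.MP_a43263_nt.N2
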