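import Pool.Agent.MP_a43263_nt.N2.SpecD

/-! THEOREM N2: from a good point to rank two. -/

set_option autoImplicit false

noncomputable section

namespace Pool.Agent.MP_a43263_nt.N2

open Polynomial Finset Filter Matrix JC Pool.Agent.MP_a43263_nt.UV K2

namespace OneA

theorem sqf {S : Finset ℕ} {r : ℕ} (hS : ∀ q ∈ S, q.Prime) (hr : r.Prime) (h : r ∉ S) :
    Squarefree ((∏ q ∈ S, q) * r) := by
  rw [mul_comm, ← prod_insert (f := fun q => q) h]
  have k : ∀ q ∈ insert r S, q.Prime := fun q hq => (mem_insert.1 hq).elim (· ▸ hr) (hS q)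
  refine Finset.squarefree_prod_of_pairwise_isCoprime (fun p hp q hq e => ?_)
    fun p hp => (k p hp).squarefree
  simp only [← Nat.coprime_iff_isRelPrime]
  exact (Nat.coprime_primes (k p hp) (k q hq)).2 e

theorem sqf2 {S : Finset ℕ} {m r : ℕ} (hS : ∀ q ∈ S, q.Prime ∧ ¬q ∣ m) (hr : r.Prime) (h : r ∉ S)
    (hm : Squarefree m) (h' : ¬r ∣ m) : Squarefree (m * (∏ q ∈ S, q) * r) := by
  rw [mul_assoc]
  refine (Nat.squarefree_mul (Nat.Coprime.mul_right (Nat.Coprime.prod_right fun q hq => ?_)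
    ((Nat.Prime.coprime_iff_not_dvd hr).2 h').symm)).2 ⟨hm, sqf (fun q hq => (hS q hq).1) hr h⟩
  exact ((Nat.Prime.coprime_iff_not_dvd (hS q hq).1).2 (hS q hq).2).symm

end OneA

open OneA in
theorem one_n : SIZStmt → MODStmt → TRNStmt → POSStmt → ISOStmt → KILLStmt → INDStmt → FOURStmt →
    ONEStmt := by
  intro siz md trn pos iso kill ind four g v Q hg pv
  filter_upwards [siz g v hg pv, eventually_ge_atTop ((∏ q ∈ Q, q) ^ 2 + 2)]
    with k hs hD w hw m u a hmk sm gd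
  have fam := gd.fam
  have hk : 1 ≤ k := by omega
  obtain ⟨S, hSQ, hS⟩ :=
    kill g (f1 w) Q m a fam.zq fam.ty fam.nx (pos g k w hg hk hw) sm gd.rt gd.str
  refine ⟨S, hSQ, fun x r hx0 hx3 huv d5 hme hr hG => ?_⟩
  obtain ⟨_, hm, _, hirr, _, _, _, _, hsr, _⟩ := trn g w hg
  obtain ⟨s1, _, s3, s4⟩ := hs w hw x hx3
  have h24 := pv.dv
  have hv : 0 < v := by have := pv.ge; omega
  have hP : 0 < ∏ q ∈ Q, q := prod_pos fun q hq => (fam.ty q hq).1.pos
  have m0 : 0 < m := Nat.pos_of_ne_zero sm.sf.ne_zero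
  have m2 : m ^ 2 ≤ k := (Nat.pow_le_pow_right m0 (by norm_num)).trans hmk
  have hd : ∏ q ∈ S, q ≤ ∏ q ∈ Q, q := Nat.le_of_dvd hP (prod_dvd_prod_of_subset _ _ _ hSQ)
  have hd2 : m * ∏ q ∈ S, q ≤ k := by
    have h1 : (∏ q ∈ S, q) ^ 2 ≤ k := (Nat.pow_le_pow_left hd 2).trans (by omega)
    refine (Nat.pow_le_pow_iff_left two_ne_zero).1 ?_
    rw [mul_pow, sq k]
    exact Nat.mul_le_mul m2 h1
  have hkv : k ^ (4 * g + 2) < (m * ∏ q ∈ S, q) * r := by
    have h1 : 35 * (k * v) ^ (4 * g + 2) ≤ (m * ∏ q ∈ S, q) * r := by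
      rw [hG] at s1
      exact_mod_cast s1
    have h2 : k ^ (4 * g + 2) ≤ (k * v) ^ (4 * g + 2) :=
      Nat.pow_le_pow_left (Nat.le_mul_of_pos_right _ hv) _
    have h5 : 0 < k ^ (4 * g + 2) := by positivity
    omega
  have hkr : k ^ (4 * g + 1) < r := by
    have h6 : k * k ^ (4 * g + 1) < k * r := by
      rw [← pow_succ']
      exact hkv.trans_le (Nat.mul_le_mul_right _ hd2)
    exact lt_of_mul_lt_mul_left h6 (Nat.zero_le _)
  have hkk : k ≤ k ^ (4 * g + 1) := Nat.le_self_pow (by omega) k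
  have hrQ : r ∉ Q := fun h => by
    have h1 := Nat.le_of_dvd hP (dvd_prod_of_mem (fun q => q) h)
    have h2 := Nat.le_self_pow two_ne_zero (∏ q ∈ Q, q)
    omega
  have hrm : ¬r ∣ m := fun h => by
    have h1 := Nat.le_of_dvd m0 h
    have h2 := Nat.le_self_pow two_ne_zero m
    omega
  have hco : IsCoprime (x : ℤ) (v : ℤ) := Nat.isCoprime_iff_coprime.2 huv
  have hx : ¬(r : ℤ) ∣ Gx w x v := fun h => by
    have h1 := (Int.le_of_dvd s3 h).trans s4
    have h2 : r ≤ k ^ (4 * g + 1) := by exact_mod_cast h1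
    omega
  have hG0 : Gv w x v ≠ 0 := by
    have : (0 : ℤ) < 35 * ((k : ℤ) * v) ^ (4 * g + 2) := by positivity
    omega
  obtain ⟨hrs, F, κ, cp, hF⟩ := md g w x v hg (by omega) (by omega) hG0
  have h8 : (8 : ℤ) ∣ (v : ℤ) := by omega
  obtain ⟨i1, i2⟩ := ind g (f1 w) _ fam.zq hm fam.t3
  have n3 : ¬(3 : ℤ) ∣ (x : ℤ) := fun h => by
    have h1 : 3 ∣ Nat.gcd x v := Nat.dvd_gcd (by omega) (by omega)
    rw [huv] at h1
    omega
  have n5 : ¬(5 : ℤ) ∣ (v : ℤ) := fun h => pv.n5 (by omega)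
  obtain ⟨i3, i4⟩ := i2 x v _ cp.nm fam.t5 (by omega) n3 n5 d5
  have good := four g (f1 w) F κ x v _ _ fam.zq cp hm i1 i3 i4
    (hS F κ x v _ r cp hco h8 hr (by omega) hrQ hrm hG hme (hsr r x v hr hco hx))
  have zq := (iso g (f1 w) F κ x v _ fam.zq cp).1
  rw [Int.cast_natCast, Int.cast_natCast] at hrs hF
  refine ⟨⟨hirr fam.zq.irr, (m * ∏ q ∈ S, q) * r, ?_,
    sqf2 (fun q hq => ⟨(fam.ty q (hSQ hq)).1, sm.cop q (hSQ hq)⟩) hr (fun h => hrQ (hSQ h))
      sm.sf hrm, ?_⟩, by omega⟩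
  · rw [hrs, hG, Int.cast_mul, Int.cast_natCast, Int.cast_natCast, Nat.cast_mul _ r]
  · rw [← hF]
    exact ⟨zq.monic.map _, by rw [zq.monic.natDegree_map, zq.deg], zq.irr, good⟩

end Pool.Agent.MP_a43263_nt.N2
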