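import Pool.Agent.MP_a43263_nt.N2.SpecB

/-! THEOREM N2, row Ovf: first properties of a unimodular overlattice. -/

set_option autoImplicit false

noncomputable section

namespace Pool.Agent.MP_a43263_nt.N2

open Polynomial Finset Filter Matrix JC Pool.Agent.MP_a43263_nt.UV K2

namespace OvfA

theorem sq_dvd (m : ℕ) (hm : Squarefree m) (z : ℤ)
    (h : ∀ p : ℕ, p.Prime → p ∣ m → (p : ℤ) ∣ z) : (m : ℤ) ∣ z := by
  have h1 : (∏ p ∈ m.primeFactors, p) = m := Nat.prod_primeFactors_of_squarefree hm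
  rw [Int.natCast_dvd, ← h1]
  refine Finset.prod_primes_dvd _ (fun p hp => (Nat.prime_of_mem_primeFactors hp).prime) ?_
  intro p hp
  exact Int.natCast_dvd.1 (h p (Nat.prime_of_mem_primeFactors hp) (Nat.dvd_of_mem_primeFactors hp))

theorem rd_smul {g : ℕ} (p : ℕ) (c : ℤ) (y : Vz g) : rd p (c • y) = (c : ZMod p) • rd p y := by
  funext i
  simp [rd]

theorem ex_c (m p : ℕ) (hm : Squarefree m) (hp : p.Prime) (hpm : p ∣ m) :
    ∃ c : ℤ, (c : ZMod p) = 1 ∧ ∀ q : ℕ, q.Prime → q ∣ m → q ≠ p → (c : ZMod q) = 0 := by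
  obtain ⟨k, hk⟩ := hpm
  have hco : Nat.Coprime p k := by
    rw [hk] at hm
    exact Nat.coprime_of_squarefree_mul hm
  have h2 : IsCoprime (p : ℤ) (k : ℤ) := Nat.isCoprime_iff_coprime.2 hco
  obtain ⟨u, v, huv⟩ := h2
  refine ⟨v * k, ?_, ?_⟩
  · have h3 : ((u * p + v * k : ℤ) : ZMod p) = 1 := by rw [huv]; simp
    have h4 : ((u * p : ℤ) : ZMod p) = 0 := by simp
    rw [Int.cast_add, h4, zero_add] at h3
    exact h3
  · intro q hq hqm hne
    have h5 : q ∣ k := by
      rw [hk] at hqm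
      rcases (Nat.Prime.dvd_mul hq).1 hqm with h | h
      · exact absurd ((Nat.prime_dvd_prime_iff_eq hq hp).1 h) hne
      · exact h
    rw [ZMod.intCast_zmod_eq_zero_iff_dvd]
    exact Dvd.dvd.mul_left (Int.natCast_dvd_natCast.2 h5) v

end OvfA

open OvfA in
theorem ovf_n : OVFStmt := by
  intro g m₁ A R B Λ hm hA hO
  have hm0 : (m₁ : ℤ) ≠ 0 := by
    have := hm.ne_zero
    exact_mod_cast this
  have hR1 : ∃ R₁ : Mat g ℤ, R * R₁ = (m₁ : ℤ) • 1 := by
    have h1 : ∀ j : Fin (2 * g + 1), ∃ ξ : Vz g, R *ᵥ ξ = (m₁ : ℤ) • (Pi.single j (1 : ℤ) : Vz g) := by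
      intro j
      refine (hO.im _).2 ?_
      intro p hp hpm
      have h2 : ((m₁ : ℤ) : ZMod p) = 0 := by
        rw [ZMod.intCast_zmod_eq_zero_iff_dvd]
        exact Int.natCast_dvd_natCast.2 hpm
      rw [rd_smul, h2, zero_smul]
      exact (Λ p).zero_mem
    choose ξ hξ using h1
    refine ⟨Matrix.of fun i j => ξ j i, ?_⟩
    ext i j
    have h3 := congrFun (hξ j) i
    simp only [Matrix.mulVec, dotProduct, Pi.smul_apply, smul_eq_mul] at h3
    simp only [Matrix.mul_apply, Matrix.of_apply, Matrix.smul_apply, smul_eq_mul]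
    rw [h3, Matrix.one_apply, Pi.single_apply]
  refine ⟨?_, ?_, hR1, ?_, ?_⟩
  · have h1 : (((m₁ : ℤ) ^ 2) • B)ᵀ = ((m₁ : ℤ) ^ 2) • B := by
      rw [← hO.eq, Matrix.transpose_mul, Matrix.transpose_mul, Matrix.transpose_transpose,
        hA.eq, Matrix.mul_assoc]
    ext i j
    have h2 := congrFun (congrFun h1 i) j
    simp only [Matrix.transpose_apply, Matrix.smul_apply, smul_eq_mul] at h2
    rw [Matrix.transpose_apply]
    exact mul_left_cancel₀ (pow_ne_zero 2 hm0) h2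
  · obtain ⟨R₁, h1⟩ := hR1
    intro h0
    have h2 := congrArg Matrix.det h1
    rw [Matrix.det_mul, h0, zero_mul, Matrix.det_smul, Matrix.det_one, mul_one] at h2
    exact pow_ne_zero _ hm0 h2.symm
  · intro i j
    refine sq_dvd m₁ hm _ ?_
    intro p hp hpm
    have h1 : rd p (R *ᵥ (Pi.single j (1 : ℤ) : Vz g)) ∈ Λ p := (hO.im _).1 ⟨_, rfl⟩ p hp hpm
    have h2 := (hO.lg p hp hpm).ker _ h1 i
    rw [Matrix.mulVec_mulVec, Matrix.mulVec_single_one] at h2
    exact h2
  · intro p hp hpm x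
    constructor
    · intro hx
      obtain ⟨c, hc1, hc0⟩ := ex_c m₁ p hm hp hpm
      let y : Vz g := fun i => ((x i).cast : ℤ)
      have hy : rd p y = x := by
        funext i
        exact ZMod.intCast_zmod_cast (x i)
      have h1 : ∃ ξ : Vz g, R *ᵥ ξ = c • y := by
        refine (hO.im _).2 ?_
        intro q hq hqm
        by_cases hqp : q = p
        · subst hqp
          rw [rd_smul, hc1, one_smul, hy]
          exact hx
        · rw [rd_smul, hc0 q hq hqm hqp, zero_smul]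
          exact (Λ q).zero_mem
      obtain ⟨ξ, hξ⟩ := h1
      exact ⟨ξ, by rw [hξ, rd_smul, hc1, one_smul, hy]⟩
    · rintro ⟨ξ, rfl⟩
      exact (hO.im _).1 ⟨ξ, rfl⟩ p hp hpm

end Pool.Agent.MP_a43263_nt.N2
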