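import Pool.Agent.MP_a43263_nt.N2.SpecC

/-! THEOREM N2, row PHA: the size of `q / φ(q)`. -/

set_option autoImplicit false

noncomputable section

namespace Pool.Agent.MP_a43263_nt.N2

open Finset Filter K2

namespace PhaA

/-- the local factor -/
def lf (p : ℕ) : ℝ := (p : ℝ) / (p - 1)

theorem one_le {p : ℕ} (hp : 2 ≤ p) : 1 ≤ lf p := by
  have : (2 : ℝ) ≤ p := by exact_mod_cast hp
  rw [lf, le_div_iff₀ (by linarith)]
  linarith

theorem one_le_prod {S : Finset ℕ} (h : ∀ p ∈ S, p.Prime) : 1 ≤ ∏ p ∈ S, lf p :=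
  prod_induction _ (fun x => 1 ≤ x) (fun _ _ => one_le_mul_of_one_le_of_one_le) le_rfl
    fun p hp => one_le (h p hp).two_le

theorem ph_eq {q : ℕ} (hq : 0 < q) : ph q = ∏ p ∈ q.primeFactors, lf p := by
  have h : (q.totient : ℝ) = q * ∏ p ∈ q.primeFactors, (1 - (p : ℝ)⁻¹) := by
    have := congrArg (fun x : ℚ => (x : ℝ)) (Nat.totient_eq_mul_prod_factors q)
    simpa using this
  have hq' : (q : ℝ) ≠ 0 := by positivity
  rw [ph, h, div_mul_cancel_left₀ hq', ← prod_inv_distrib]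
  refine prod_congr rfl fun p hp => ?_
  have : (2 : ℝ) ≤ p := by exact_mod_cast (Nat.prime_of_mem_primeFactors hp).two_le
  have h1 : (p : ℝ) - 1 ≠ 0 := by linarith
  rw [lf]
  field_simp

theorem prod_le (S : Finset ℕ) (h : ∀ p ∈ S, 2 ≤ p) : ∏ p ∈ S, lf p ≤ S.card + 1 := by
  induction S using Finset.induction_on_max with
  | empty => simp
  | insert a S ha ih =>
    have h1 : a ∉ S := fun k => lt_irrefl _ (ha a k)
    have h2 := h a (mem_insert_self _ _)
    have h3 : S.card ≤ a - 2 := by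
      rw [← Nat.card_Ico]
      exact card_le_card fun p hp => mem_Ico.2 ⟨h p (mem_insert_of_mem hp), ha p hp⟩
    have h4 : (S.card : ℝ) + 2 ≤ a := by exact_mod_cast (by omega : S.card + 2 ≤ a)
    have h5 : (0 : ℝ) ≤ S.card := Nat.cast_nonneg _
    rw [prod_insert h1, card_insert_of_notMem h1]
    refine (mul_le_mul_of_nonneg_left (ih fun p hp => h p (mem_insert_of_mem hp))
      (zero_le_one.trans (one_le h2))).trans ?_
    rw [lf, div_mul_eq_mul_div, div_le_iff₀ (by linarith)]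
    push_cast
    nlinarith

theorem ph_le {q : ℕ} (hq : 0 < q) : ph q ≤ 2 + 2 * Real.log q := by
  have h1 : 2 ^ q.primeFactors.card ≤ q :=
    (pow_card_le_prod _ _ _ fun p hp => (Nat.prime_of_mem_primeFactors hp).two_le).trans
      (Nat.le_of_dvd hq (Nat.prod_primeFactors_dvd q))
  have h2 : (2 : ℝ) ^ q.primeFactors.card ≤ q := by exact_mod_cast h1
  have h3 := Real.log_le_log (by positivity) h2
  rw [Real.log_pow] at h3
  have h4 := Real.log_two_gt_d9
  have h5 : (0 : ℝ) ≤ q.primeFactors.card := Nat.cast_nonneg _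
  have h6 := prod_le q.primeFactors fun p hp => (Nat.prime_of_mem_primeFactors hp).two_le
  rw [ph_eq hq]
  nlinarith

/-- the factors of the large primes -/
def F (z x : ℕ) : ℝ := ∏ p ∈ x.primeFactors.filter (fun p => z < p), lf p

theorem one_le_F (z x : ℕ) : 1 ≤ F z x :=
  one_le_prod fun _ hp => Nat.prime_of_mem_primeFactors (mem_filter.1 hp).1

theorem F_mul (z : ℕ) {a b : ℕ} (ha : 0 < a) (hb : 0 < b) : F z (a * b) ≤ F z a * F z b := by
  rw [F, F, F, Nat.primeFactors_mul ha.ne' hb.ne', filter_union, ← prod_union_inter]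
  refine le_mul_of_one_le_right (prod_nonneg fun p hp => zero_le_one.trans (one_le ?_))
    (one_le_prod fun p hp => Nat.prime_of_mem_primeFactors (mem_filter.1 (mem_inter.1 hp).1).1)
  rcases mem_union.1 hp with h | h <;>
    exact (Nat.prime_of_mem_primeFactors (mem_filter.1 h).1).two_le

theorem ph_split {z q : ℕ} (hq : 0 < q) (h : primorial z ∣ q) :
    ph q = ph (primorial z) * F z q := by
  rw [ph_eq hq, ph_eq (primorial_pos z), F, mul_comm,
    ← prod_filter_mul_prod_filter_not q.primeFactors (fun p => z < p)]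
  congr 2
  ext p
  simp only [mem_filter, Nat.mem_primeFactors, not_lt]
  exact ⟨fun k => ⟨k.1.1, k.1.1.dvd_primorial_iff.2 k.2, (primorial_pos z).ne'⟩,
    fun k => ⟨⟨k.1, k.2.1.trans h, hq.ne'⟩, k.1.dvd_primorial_iff.1 k.2.1⟩⟩

theorem F_le {z D t x y : ℕ} (hD : 0 < D) (ht : 0 < t) (hx : 0 < x) (hy : 0 < y)
    (h : ∀ p : ℕ, p.Prime → p ∣ D → p ≤ z) :
    F z (D * t * (x ^ 2 * y)) ≤ F z t * (F z x * F z y) := by
  have h1 : F z D = 1 := by
    rw [F, filter_eq_empty_iff.2 fun p hp => not_lt.2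
      (h p (Nat.prime_of_mem_primeFactors hp) (Nat.dvd_of_mem_primeFactors hp)), prod_empty]
  have h2 : F z (x ^ 2) = F z x := by rw [F, Nat.primeFactors_pow _ two_ne_zero, F]
  have h3 := F_mul z hD ht
  have h4 := F_mul z (pow_pos hx 2) hy
  rw [h1, one_mul] at h3
  rw [h2] at h4
  exact (F_mul z (by positivity) (by positivity)).trans (mul_le_mul h3 h4
    (zero_le_one.trans (one_le_F _ _)) (zero_le_one.trans (one_le_F _ _)))

theorem lf_six {p : ℕ} (hp : 200 < p) : lf p ^ 6 ≤ 1 + 1 / √(p : ℝ) := by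
  have h0 : (201 : ℝ) ≤ p := by exact_mod_cast hp
  have h1 : lf p = 1 + 1 / ((p : ℝ) - 1) := by
    have : (p : ℝ) - 1 ≠ 0 := by linarith
    rw [lf]
    field_simp
    ring
  have h2 : 14 ≤ √(p : ℝ) := Real.le_sqrt_of_sq_le (by linarith)
  have h3 := Real.mul_self_sqrt (show (0 : ℝ) ≤ p by linarith)
  have h4 : 7 * (1 / ((p : ℝ) - 1)) ≤ 1 / √(p : ℝ) := by
    rw [mul_one_div, div_le_div_iff₀ (by linarith) (by linarith)]
    nlinarith
  have h5 : 1 / ((p : ℝ) - 1) ≤ 1 / 200 := one_div_le_one_div_of_le (by norm_num) (by linarith)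
  have h6 : 0 ≤ 1 / ((p : ℝ) - 1) := div_nonneg zero_le_one (by linarith)
  rw [h1]
  generalize 1 / ((p : ℝ) - 1) = u at h4 h5 h6
  have h7 : (1 + u) ^ 2 ≤ 1 + 2.01 * u := by nlinarith
  have h8 : (1 + u) ^ 3 ≤ 1 + 3.1 * u := by nlinarith
  have h9 : ((1 + u) ^ 3) ^ 2 ≤ (1 + 3.1 * u) ^ 2 := pow_le_pow_left₀ (by positivity) h8 2
  nlinarith

theorem ex_nonneg (N z x : ℕ) : 0 ≤ ex N z x := sum_nonneg fun _ _ => by positivity

theorem mem {z x : ℕ} {T : Finset ℕ} (h : T ⊆ x.primeFactors.filter fun p => z < p)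
    (hT : T.Nonempty) :
    ∏ p ∈ T, p ∈ x.divisors.filter fun e => z < e ∧ e.Coprime (primorial z) := by
  obtain ⟨q, hq⟩ := hT
  have h1 : ∀ p ∈ T, p.Prime := fun p hp => Nat.prime_of_mem_primeFactors (mem_filter.1 (h hp)).1
  refine mem_filter.2 ⟨Nat.mem_divisors.2 ⟨(prod_dvd_prod_of_subset _ _ _
    (h.trans (filter_subset _ _))).trans (Nat.prod_primeFactors_dvd x),
    (Nat.mem_primeFactors.1 (mem_filter.1 (h hq)).1).2.2⟩, (mem_filter.1 (h hq)).2.trans_le
      (Nat.le_of_dvd (prod_pos fun p hp => (h1 p hp).pos) (dvd_prod_of_mem _ hq)),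
    Nat.Coprime.prod_left fun p hp => (Nat.Prime.coprime_iff_not_dvd (h1 p hp)).2 fun k =>
      absurd ((h1 p hp).dvd_primorial_iff.1 k) (mem_filter.1 (h hp)).2.not_ge⟩

theorem F_six {z : ℕ} (hz : 200 ≤ z) (x : ℕ) : F z x ^ 6 ≤ 1 + ex (primorial z) z x := by
  have h1 : ∀ T ∈ (x.primeFactors.filter fun p => z < p).powerset.erase ∅, ∀ p ∈ T, p.Prime :=
    fun T hT p hp =>
      Nat.prime_of_mem_primeFactors (mem_filter.1 (mem_powerset.1 (mem_erase.1 hT).2 hp)).1
  rw [F, ← prod_pow]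
  refine (prod_le_prod (g := fun p : ℕ => 1 + 1 / √(p : ℝ)) (fun p _ => by positivity)
    fun p hp => lf_six (hz.trans_lt (mem_filter.1 hp).2)).trans ?_
  rw [prod_one_add, ← add_sum_erase _ _ (empty_mem_powerset _), prod_empty]
  refine add_le_add_right (le_trans (le_of_eq ?_) (sum_le_sum_of_subset_of_nonneg
    (s := ((x.primeFactors.filter fun p => z < p).powerset.erase ∅).image fun T => ∏ p ∈ T, p)
    (fun e he => ?_) fun _ _ _ => by positivity)) 1
  · rw [sum_image fun T hT T' hT' e => by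
      rw [← Nat.primeFactors_prod (h1 T hT), ← Nat.primeFactors_prod (h1 T' hT')]
      exact congrArg _ e]
    refine sum_congr rfl fun T _ => ?_
    rw [Nat.cast_prod, Real.sqrt_prod _ fun p _ => Nat.cast_nonneg p, prod_div_distrib,
      prod_const_one]
  · obtain ⟨T, hT, rfl⟩ := mem_image.1 he
    exact mem (mem_powerset.1 (mem_erase.1 hT).2) (nonempty_iff_ne_empty.2 (mem_erase.1 hT).1)

theorem six {a b c d S : ℝ} (h0 : 0 ≤ S) (ha : a ^ 6 ≤ S) (hb : b ^ 6 ≤ S) (hc : c ^ 6 ≤ S)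
    (hd : d ^ 6 ≤ S) : a * (c * b) * (a * (d * b)) ≤ S := by
  refine le_of_pow_le_pow_left₀ (n := 6) (by norm_num) h0 ?_
  calc _ = a ^ 6 * a ^ 6 * (b ^ 6 * b ^ 6) * (c ^ 6 * d ^ 6) := by ring
    _ ≤ S * S * (S * S) * (S * S) := by gcongr
    _ = S ^ 6 := by ring

end PhaA

open PhaA in
theorem pha_n : PHAStmt := by
  refine ⟨fun q hq => ⟨?_, ph_le hq⟩, fun z D t x x' y hz hD ht hx hx' hy h1 h2 => ?_⟩
  · rw [ph_eq hq]
    exact one_le_prod fun _ hp => Nat.prime_of_mem_primeFactors hp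
  have h0 : 0 ≤ ph (primorial z) := by unfold ph; positivity
  have h3 : ∀ a b, primorial z ∣ D * a * b := fun a b => (h1.mul_right a).mul_right b
  rw [ph_split (by positivity) (h3 t (x ^ 2 * y)), ph_split (by positivity) (h3 t (x' ^ 2 * y))]
  refine ⟨le_mul_of_one_le_right h0 (one_le_F _ _), ?_, fun x => ?_⟩
  · rw [mul_mul_mul_comm, ← sq]
    refine mul_le_mul_of_nonneg_left ((mul_le_mul (F_le hD ht hx hy h2) (F_le hD ht hx' hy h2)
      (zero_le_one.trans (one_le_F _ _)) (zero_le_one.trans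
        ((one_le_F _ _).trans (F_le hD ht hx hy h2)))).trans ?_) (sq_nonneg _)
    have e1 := ex_nonneg (primorial z) z x
    have e2 := ex_nonneg (primorial z) z x'
    have e3 := ex_nonneg (primorial z) z y
    have e4 := ex_nonneg (primorial z) z t
    exact six (by linarith) (by linarith [F_six hz t]) (by linarith [F_six hz y])
      (by linarith [F_six hz x]) (by linarith [F_six hz x'])
  · refine (sum_le_sum (g := fun p : ℕ => 1 / √(p : ℝ)) fun p hp => ?_).trans
      (sum_le_sum_of_subset_of_nonneg (fun p hp => ?_) fun _ _ _ => by positivity)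
    · have : (1 : ℝ) ≤ p := by
        exact_mod_cast (Nat.prime_of_mem_primeFactors (mem_filter.1 hp).1).one_le
      refine one_div_le_one_div_of_le (Real.sqrt_pos.2 (by linarith)) ?_
      rw [Real.sqrt_le_iff]
      exact ⟨by linarith, by nlinarith⟩
    · simpa using mem (singleton_subset_iff.2 hp) (singleton_nonempty p)

end Pool.Agent.MP_a43263_nt.N2
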