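import Pool.Agent.MP_a43263_nt.N2.SpecC

/-! The mean of the excess of the singular series. -/

set_option autoImplicit false

noncomputable section

namespace Pool.Agent.MP_a43263_nt.N2

open Finset

namespace PhbA

theorem step1 (n : ℕ) (hn : 1 ≤ n) :
    1 / √((n + 1 : ℕ) : ℝ) * (1 / ((n + 1 : ℕ) : ℝ)) ≤ 2 / √(n : ℝ) - 2 / √((n + 1 : ℕ) : ℝ) := by
  have hn0 : (0 : ℝ) < n := by exact_mod_cast hn
  have ha : 0 < √(n : ℝ) := Real.sqrt_pos.2 hn0
  have hb : 0 < √((n + 1 : ℕ) : ℝ) := Real.sqrt_pos.2 (by positivity)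
  have ea : √(n : ℝ) ^ 2 = n := Real.sq_sqrt hn0.le
  have eb : √((n + 1 : ℕ) : ℝ) ^ 2 = ((n + 1 : ℕ) : ℝ) := Real.sq_sqrt (by positivity)
  have hab : √(n : ℝ) ≤ √((n + 1 : ℕ) : ℝ) := Real.sqrt_le_sqrt (by push_cast; linarith)
  have e1 : √((n + 1 : ℕ) : ℝ) ^ 2 = √(n : ℝ) ^ 2 + 1 := by rw [ea, eb]; push_cast; ring
  nth_rewrite 2 [← eb]
  generalize √((n + 1 : ℕ) : ℝ) = b at *
  generalize √(n : ℝ) = a at *
  have h1 : (b - a) * (a + b) = 1 := by nlinarith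
  have h2 : 2 / a - 2 / b = 2 * (b - a) / (a * b) := by field_simp
  have h3 : 1 / b * (1 / b ^ 2) = 1 / b ^ 3 := by field_simp
  rw [h2, h3, div_le_div_iff₀ (by positivity) (by positivity)]
  have h4 : 1 ≤ (b - a) * (2 * b) := by nlinarith
  have h5 : a * b ≤ b ^ 2 := by nlinarith
  have h6 : 0 < b ^ 2 := by positivity
  calc 1 * (a * b) ≤ 1 * b ^ 2 := by linarith
    _ ≤ (b - a) * (2 * b) * b ^ 2 := by nlinarith
    _ = 2 * (b - a) * b ^ 3 := by ring

theorem sum1 (z : ℕ) (hz : 1 ≤ z) (n : ℕ) (hn : z ≤ n) :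
    ∑ e ∈ Ioc z n, 1 / √(e : ℝ) * (1 / (e : ℝ)) ≤ 2 / √(z : ℝ) - 2 / √(n : ℝ) := by
  induction n, hn using Nat.le_induction with
  | base => simp
  | succ n hn ih =>
    rw [sum_Ioc_succ_top hn]
    have := step1 n (hz.trans hn)
    linarith

theorem sum1' (z : ℕ) (hz : 1 ≤ z) (n : ℕ) :
    ∑ e ∈ Ioc z n, 1 / √(e : ℝ) * (1 / (e : ℝ)) ≤ 2 / √(z : ℝ) := by
  rcases le_total z n with h | h
  · have := sum1 z hz n h
    have h2 : 0 ≤ 2 / √(n : ℝ) := by positivity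
    linarith
  · rw [Ioc_eq_empty (by omega), sum_empty]
    positivity

theorem step2 (n : ℕ) : 1 / √((n + 1 : ℕ) : ℝ) ≤ 2 * √((n + 1 : ℕ) : ℝ) - 2 * √(n : ℝ) := by
  have hn0 : (0 : ℝ) ≤ n := by positivity
  have ha : 0 ≤ √(n : ℝ) := Real.sqrt_nonneg _
  have hb : 0 < √((n + 1 : ℕ) : ℝ) := Real.sqrt_pos.2 (by positivity)
  have ea : √(n : ℝ) ^ 2 = n := Real.sq_sqrt hn0
  have eb : √((n + 1 : ℕ) : ℝ) ^ 2 = ((n + 1 : ℕ) : ℝ) := Real.sq_sqrt (by positivity)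
  have e1 : √((n + 1 : ℕ) : ℝ) ^ 2 = √(n : ℝ) ^ 2 + 1 := by rw [ea, eb]; push_cast; ring
  generalize √((n + 1 : ℕ) : ℝ) = b at *
  generalize √(n : ℝ) = a at *
  rw [div_le_iff₀ hb]
  nlinarith [sq_nonneg (b - a)]

theorem sum2 (n : ℕ) : ∑ e ∈ Ioc 0 n, 1 / √(e : ℝ) ≤ 2 * √(n : ℝ) := by
  induction n with
  | zero => simp
  | succ n ih =>
    rw [sum_Ioc_succ_top (Nat.zero_le n)]
    have := step2 n
    linarith

theorem swap (N z n : ℕ) (T : Finset ℕ) (f : ℕ → ℕ) (hf : ∀ u ∈ T, 0 < f u ∧ f u ≤ n) :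
    ∑ u ∈ T, ex N z (f u) = ∑ e ∈ (Ioc z n).filter (fun e => e.Coprime N),
      1 / √(e : ℝ) * ((T.filter fun u => e ∣ f u).card : ℝ) := by
  have h1 : ∀ u ∈ T, ex N z (f u) = ∑ e ∈ (Ioc z n).filter (fun e => e.Coprime N),
      if e ∣ f u then 1 / √(e : ℝ) else 0 := by
    intro u hu
    rw [← sum_filter, ex]
    refine sum_congr ?_ fun _ _ => rfl
    ext e
    simp only [mem_filter, Nat.mem_divisors, mem_Ioc]
    constructor
    · rintro ⟨⟨h, _⟩, h2, h3⟩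
      exact ⟨⟨⟨h2, (Nat.le_of_dvd (hf u hu).1 h).trans (hf u hu).2⟩, h3⟩, h⟩
    · rintro ⟨⟨⟨h2, _⟩, h3⟩, h⟩
      exact ⟨⟨h, (hf u hu).1.ne'⟩, h2, h3⟩
  rw [sum_congr rfl h1, sum_comm]
  refine sum_congr rfl fun e _ => ?_
  rw [← sum_filter, sum_const, nsmul_eq_mul, mul_comm]

theorem card_class (U M : ℕ) (S : Finset ℕ) (hS : S ⊆ Ioc U (2 * U))
    (h : ∀ u ∈ S, ∀ u' ∈ S, u ≡ u' [MOD M]) : (S.card : ℝ) ≤ (U : ℝ) / M + 1 := by
  have h1 : S.card ≤ (range (U / M + 1)).card := by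
    refine card_le_card_of_injOn (fun u => (u - U) / M) (fun u hu => ?_) fun u hu u' hu' e => ?_
    · have := mem_Ioc.1 (hS hu)
      simp only [coe_range, Set.mem_Iio]
      exact Nat.lt_succ_of_le (Nat.div_le_div_right (by omega))
    · have a1 := mem_Ioc.1 (hS hu)
      have a2 := mem_Ioc.1 (hS hu')
      have e1 : (u - U) ≡ (u' - U) [MOD M] :=
        Nat.ModEq.sub a1.1.le a2.1.le (h u hu u' hu') (Nat.ModEq.refl U)
      have e2 : u - U = u' - U := by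
        rw [← Nat.div_add_mod (u - U) M, ← Nat.div_add_mod (u' - U) M]
        have e' : (u - U) / M = (u' - U) / M := e
        rw [e', e1]
      omega
  rw [card_range] at h1
  have h2 : ((U / M : ℕ) : ℝ) ≤ (U : ℝ) / M := Nat.cast_div_le
  have h3 : (S.card : ℝ) ≤ ((U / M + 1 : ℕ) : ℝ) := by exact_mod_cast h1
  push_cast at h3
  linarith

theorem cong (N e a s b u u' : ℕ) (h2 : 2 ∣ N) (he : e.Coprime N) (hb : b = 1 ∨ b = 2)
    (hu : u ≡ a [MOD N ^ 2]) (hu' : u' ≡ a [MOD N ^ 2]) (d : e ∣ b * u + s)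
    (d' : e ∣ b * u' + s) : u ≡ u' [MOD N ^ 2 * e] := by
  have hc : (N ^ 2).Coprime e := (Nat.Coprime.pow_right 2 he).symm
  have hbe : Nat.gcd e b = 1 := by
    rcases hb with rfl | rfl
    · simp
    · exact Nat.Coprime.coprime_dvd_right h2 he
  have e1 : b * u + s ≡ b * u' + s [MOD e] :=
    ((Nat.modEq_zero_iff_dvd).2 d).trans ((Nat.modEq_zero_iff_dvd).2 d').symm
  have e2 : b * u ≡ b * u' [MOD e] := Nat.ModEq.add_right_cancel' s e1
  have e3 : u ≡ u' [MOD e] := Nat.ModEq.cancel_left_of_coprime hbe e2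
  exact (Nat.modEq_and_modEq_iff_modEq_mul hc).1 ⟨hu.trans hu'.symm, e3⟩

end PhbA

open PhbA in
theorem phb_n : PHBStmt := by
  intro N z hN h2 hz
  have hN0 : (0 : ℝ) < N := by exact_mod_cast hN
  refine ⟨fun U a s b hU hs hb => ?_, fun L => ?_⟩
  · have hU0 : (0 : ℝ) < U := by exact_mod_cast hU
    rw [swap N z (6 * U) _ (fun u => b * u + s) (fun u hu => by
      have := mem_Ioc.1 (mem_filter.1 hu).1
      rcases hb with rfl | rfl <;> constructor <;> omega)]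
    have k1 : ∀ e ∈ (Ioc z (6 * U)).filter (fun e => e.Coprime N),
        1 / √(e : ℝ) * (((((Ioc U (2 * U)).filter (fun u => u ≡ a [MOD N ^ 2])).filter
          fun u => e ∣ b * u + s).card : ℕ) : ℝ) ≤
        1 / √(e : ℝ) * (1 / (e : ℝ)) * (U / (N : ℝ) ^ 2) + 1 / √(e : ℝ) := by
      intro e he
      have he1 := mem_Ioc.1 (mem_filter.1 he).1
      have he0 : (0 : ℝ) < e := by exact_mod_cast (show 0 < e by omega)
      have c := card_class U (N ^ 2 * e)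
        (((Ioc U (2 * U)).filter (fun u => u ≡ a [MOD N ^ 2])).filter fun u => e ∣ b * u + s)
        ((filter_subset _ _).trans (filter_subset _ _)) (fun u hu u' hu' =>
          cong N e a s b u u' h2 (mem_filter.1 he).2 hb (mem_filter.1 (mem_filter.1 hu).1).2
            (mem_filter.1 (mem_filter.1 hu').1).2 (mem_filter.1 hu).2 (mem_filter.1 hu').2)
      have p : 0 ≤ 1 / √(e : ℝ) := by positivity
      refine (mul_le_mul_of_nonneg_left c p).trans (le_of_eq ?_)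
      push_cast
      field_simp
    refine (sum_le_sum k1).trans ?_
    rw [sum_add_distrib, ← sum_mul]
    have k2 : ∑ e ∈ (Ioc z (6 * U)).filter (fun e => e.Coprime N), 1 / √(e : ℝ) * (1 / (e : ℝ)) ≤
        2 / √(z : ℝ) :=
      (sum_le_sum_of_subset_of_nonneg (filter_subset _ _) fun _ _ _ => by positivity).trans
        (sum1' z hz _)
    have k3 : ∑ e ∈ (Ioc z (6 * U)).filter (fun e => e.Coprime N), 1 / √(e : ℝ) ≤
        2 * √((6 * U : ℕ) : ℝ) :=
      (sum_le_sum_of_subset_of_nonneg ((filter_subset _ _).trans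
        (Ioc_subset_Ioc_left (Nat.zero_le z))) fun _ _ _ => by positivity).trans (sum2 _)
    have k4 : √((6 * U : ℕ) : ℝ) ≤ 5 / 2 * √(U : ℝ) := by
      rw [Real.sqrt_le_left (by positivity), mul_pow, Real.sq_sqrt hU0.le]
      push_cast
      linarith
    have k5 := mul_le_mul_of_nonneg_right k2 (show 0 ≤ U / (N : ℝ) ^ 2 by positivity)
    linarith
  · rw [swap N z L _ (fun t => t) (fun t ht => mem_Ioc.1 ht)]
    have k1 : ∀ e ∈ (Ioc z L).filter (fun e => e.Coprime N),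
        1 / √(e : ℝ) * ((((Ioc 0 L).filter fun t => e ∣ t).card : ℕ) : ℝ) ≤
        1 / √(e : ℝ) * (1 / (e : ℝ)) * L := by
      intro e _
      rw [Nat.Ioc_filter_dvd_card_eq_div, mul_assoc]
      refine mul_le_mul_of_nonneg_left ?_ (by positivity)
      rw [one_div, inv_mul_eq_div]
      exact Nat.cast_div_le
    refine (sum_le_sum k1).trans ?_
    rw [← sum_mul]
    refine mul_le_mul_of_nonneg_right ?_ (by positivity)
    exact (sum_le_sum_of_subset_of_nonneg (filter_subset _ _) fun _ _ _ => by positivity).trans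
      (sum1' z hz _)

end Pool.Agent.MP_a43263_nt.N2
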