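import Pool.Agent.MP_a43263_nt.N2.SpecB
import Pool.Agent.MP_a43263_nt.K2.Tri
import Pool.Agent.MP_a43263_nt.K2.Bad

/-! THEOREM N2, row PRE: a bad polynomial gives two lattices. -/

set_option autoImplicit false

noncomputable section

namespace Pool.Agent.MP_a43263_nt.N2

open Polynomial Finset Filter Matrix JC Pool.Agent.MP_a43263_nt.UV K2

namespace PreA

theorem abs_eq {d : ℤ} {m k : ℕ} (hm : Squarefree m) (hd : d ≠ 0)
    (h1 : ∀ p : ℕ, p.Prime → ¬p ∣ m → ¬(p : ℤ) ∣ d)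
    (h2 : ∀ p : ℕ, p.Prime → p ∣ m → (p : ℤ) ^ k ∣ d ∧ ¬(p : ℤ) ^ (k + 1) ∣ d) :
    d.natAbs = m ^ k := by
  have d0 := Int.natAbs_ne_zero.2 hd
  refine Nat.eq_of_factorization_eq d0 (pow_ne_zero _ hm.ne_zero) fun p => ?_
  by_cases hp : p.Prime
  swap
  · rw [Nat.factorization_eq_zero_of_not_prime _ hp, Nat.factorization_eq_zero_of_not_prime _ hp]
  rw [Nat.factorization_pow, Finsupp.smul_apply, smul_eq_mul]
  by_cases c : p ∣ m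
  · obtain ⟨a, b⟩ := h2 p hp c
    rw [← Nat.cast_pow, Int.natCast_dvd, hp.pow_dvd_iff_le_factorization d0] at a b
    have e1 := hm.natFactorization_le_one p
    have e2 := hp.factorization_pos_of_dvd hm.ne_zero c
    rw [show m.factorization p = 1 by omega]
    omega
  · rw [Nat.factorization_eq_zero_of_not_dvd c,
      Nat.factorization_eq_zero_of_not_dvd fun e => h1 p hp c (Int.natCast_dvd.2 e), mul_zero]

theorem rp_pos {m₁ p : ℕ} (f : ℤ[X]) (a : ℤ) (r : ℕ → ℤ[X]) (h : p ∣ m₁) :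
    Rp m₁ f a r p = r p * pw p f a := by rw [Rp, if_pos h, pow_one]

theorem rp_neg {m₁ p : ℕ} (f : ℤ[X]) (a : ℤ) (r : ℕ → ℤ[X]) (h : ¬p ∣ m₁) :
    Rp m₁ f a r p = r p := by rw [Rp, if_neg h, pow_zero, mul_one]

/-- the shape of one lattice -/
theorem one (shp : SHPStmt) {g m₀ m₁ : ℕ} {Q : Finset ℕ} {a m : ℤ} {f : ℤ[X]} {r : ℕ → ℤ[X]}
    {A T : Mat g ℤ} (s : Sm0 Q m₀ a) (F : Fm g Q m₀ a f m) (hm : m₁ ∣ m₀) (d0 : A.det ≠ 0)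
    (sq : IsSquare ((((-1) ^ g * A.det : ℤ)) : ℚ))
    (hr : ∀ p : ℕ, p.Prime → IsCoprime (zK (r p) (ZMod p)) (zK f (ZMod p)) ∧
      (p ∣ m₀ → IsSquare ((((r p).eval a : ℤ)) : ZMod p)))
    (fr : ∀ p : ℕ, p.Prime → Frm g p f (Rp m₁ f a r p) A T) :
    A.det.natAbs = m₁ ^ (2 * g) ∧
    (∀ p : ℕ, p.Prime → p ∣ m₁ → Hy g p A ∧ ∀ i j, (p : ℤ) ∣ (A * T - a • A) i j) ∧
    ∀ p : ℕ, p.Prime → p ∣ m₀ → ¬p ∣ m₁ → Hz g (mK (A * T - a • A) (ZMod p)) := by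
  have k := fun (p : ℕ) (hp : p.Prime) (c : p ∣ m₀) =>
    (shp p g f (r p) a A T hp F.zq (hr p hp).1).2 (fun e => s.odd (e ▸ c)) (F.rt p hp c)
      ((hr p hp).2 c) sq
  have k1 := fun (p : ℕ) (hp : p.Prime) (c : p ∣ m₁) =>
    (k p hp (c.trans hm)).1 (rp_pos f a r c ▸ fr p hp)
  refine ⟨abs_eq (s.sf.squarefree_of_dvd hm) d0 (fun p hp c => ?_) fun p hp c => (k1 p hp c).2.2,
    fun p hp c => ⟨(k1 p hp c).1, (k1 p hp c).2.1⟩,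
    fun p hp c n => (k p hp c).2 (rp_neg f a r n ▸ fr p hp)⟩
  exact (shp p g f (r p) a A T hp F.zq (hr p hp).1).1 (rp_neg f a r c ▸ fr p hp)

end PreA

open PreA in
theorem pre_n : GLUStmt → LOCAStmt → LOCBStmt → SHPStmt → STQStmt → MTXStmt → PREStmt := by
  classical
  intro glu loca locb shp stq mtx g Q m₀ a f m s F h
  simp only [Str3, not_forall, not_or] at h
  obtain ⟨δ, a1, a2, a3, a4, a5, a6, a7⟩ := h
  have hf := F.zq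
  let P : ℕ → Prop := fun p => ∃ _ : Fact p.Prime, NG p f a (fK δ ℚ_[p]) 0 1
  let m₁ := ∏ p ∈ m₀.primeFactors.filter P, p
  have hm : m₁ ∣ m₀ := (prod_dvd_prod_of_subset _ _ _ (filter_subset _ _)).trans
    (Nat.prod_primeFactors_dvd m₀)
  have hp1 : ∀ p : ℕ, p.Prime → (p ∣ m₁ ↔ p ∣ m₀ ∧ P p) := fun p hp => by
    refine ⟨fun c => ?_, fun c => dvd_prod_of_mem _
      (mem_filter.2 ⟨Nat.mem_primeFactors.2 ⟨hp, c.1, s.sf.ne_zero⟩, c.2⟩)⟩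
    obtain ⟨q, q1, q2⟩ := (hp.prime.dvd_finsetProd_iff _).1 c
    rw [mem_filter] at q1
    rw [(Nat.prime_dvd_prime_iff_eq hp (Nat.prime_of_mem_primeFactors q1.1)).1 q2]
    exact ⟨Nat.dvd_of_mem_primeFactors q1.1, q1.2⟩
  obtain ⟨x, r, W, g1, g2⟩ := loca g Q m₀ m₁ a f m δ s F hm a3 (fun p i c => by
    split_ifs with e
    · exact ((hp1 p i.out).1 e).2.2
    · obtain ⟨y, hy⟩ := a4 p c
      have : ∀ z : ZMod 2, z = 0 ∨ z = 1 := by decide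
      rcases this y with rfl | rfl
      · exact hy
      · exact absurd ((hp1 p i.out).2 ⟨c, i, hy⟩) e) a5
  have g3 := fun (p : ℕ) (hp : p.Prime) => And.intro (g2 p hp).1 (g2 p hp).2.1
  obtain ⟨x', r', W', g4, g5, g6⟩ := locb g Q m₀ m₁ a f m δ x r W s F hm g1 g3
  obtain ⟨b, A, T, b1, b2, b3⟩ := glu g f δ x _ W hf g1
  obtain ⟨b', A', T', c1, c2, c3⟩ := glu g f _ x' _ W' hf g4
  have m0 := WtgA.m_ne hf F.ev
  have e1 : (zK f ℚ).eval 1 = (m : ℚ) ^ 2 := by rw [eval_one_map, F.ev]; simp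
  have k1 : IsCoprime (δ * (1 - X)) (zK f ℚ) :=
    a1.mul_left (WtgA.cop_lin (x := 1) (by rw [e1]; simpa using m0))
  have k2 : IsSquare (Nm (zK f ℚ) (δ * (1 - X))) := by
    rw [(gram.1 ℚ _ (hf.mo ℚ)).1, BadA.nm_lin, e1]
    exact a2.mul (IsSquare.sq _)
  obtain ⟨t1, t2, t3, t4, t5, t6, t7⟩ := mtx g f δ _ b A T hf a1 a2 b1 b2
  obtain ⟨u1, -, -, u4, u5, -⟩ := mtx g f _ _ b' A' T' hf k1 k2 c1 c2
  have v := (mtx g f _ _ b _ T hf k1 k2 b1 t7).2.2.2.2.2.1 a7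
  choose z hz using fun j => c1.span (b j) (g5 _ (b1.mem j))
  obtain ⟨M, hM⟩ : ∃ M : Mat g ℤ, ∀ j, zK f ℚ ∣ b j - Dst.cb b' fun i => (M i j : ℚ) :=
    ⟨(of z)ᵀ, hz⟩
  obtain ⟨o1, o2, o3⟩ := one shp s F hm t4 t5 g3 b3
  obtain ⟨w1, w2, -⟩ := one shp s F hm u4 u5 g6 c3
  refine ⟨m₁, hm, A, A', M, T, t1, u1, t2, t3, TriA.form hf b2 c2 hM, o1, w1,
    fun p hp c => ⟨(o2 p hp c).1, (w2 p hp c).1, (o2 p hp c).2⟩, o3, fun q hq => ?_, t6 a6, v⟩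
  have q1 := (F.ty q hq).1
  exact stq q g f (r q) A T q1 hf (F.ty q hq).2 (g2 q q1).1 ((g2 q q1).2.2 hq)
    (rp_neg f a r (fun c => s.cop q hq (c.trans hm)) ▸ b3 q q1) t3

end Pool.Agent.MP_a43263_nt.N2
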