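import Pool.Agent.MP_a43263_nt.N2.SpecD

/-! THEOREM N2: the second coordinate exists. -/

set_option autoImplicit false

namespace Pool.Agent.MP_a43263_nt.N2

open Finset

theorem pvx_n : PVXStmt := by
  intro g
  have h5 : Nat.Prime 5 := by norm_num
  have h0 : 0 < ∏ p ∈ (range (4 * g + 3)).filter (fun p => p.Prime ∧ p ≠ 5), p :=
    prod_pos fun p hp => (mem_filter.1 hp).2.1.pos
  refine ⟨24 * 2 ^ g * ∏ p ∈ (range (4 * g + 3)).filter (fun p => p.Prime ∧ p ≠ 5), p,
    ⟨(dvd_mul_right _ _).mul_right _, fun h => ?_, ?_, fun p hp h1 h2 => ?_⟩⟩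
  · rcases (h5.dvd_mul).1 h with h | h
    · rcases (h5.dvd_mul).1 h with h | h
      · norm_num at h
      · exact absurd (h5.dvd_of_dvd_pow h) (by norm_num)
    · obtain ⟨p, hp, h⟩ := (h5.prime.dvd_finsetProd_iff _).1 h
      obtain ⟨-, a, b⟩ := mem_filter.1 hp
      exact b ((Nat.prime_dvd_prime_iff_eq h5 a).1 h).symm
  · exact (Nat.mul_le_mul_left 24 (Nat.succ_le_of_lt Nat.lt_two_pow_self)).trans
      (Nat.le_mul_of_pos_right _ h0)
  · exact (dvd_prod_of_mem _ (mem_filter.2 ⟨mem_range.2 (by omega), hp, h2⟩)).mul_left _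

end Pool.Agent.MP_a43263_nt.N2
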