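import Mathlib

/-! Independent isotropic tuples over a finite field. -/

set_option autoImplicit false

namespace Pool.Agent.MP_a43263_nt.N2.TupA

open Finset Module

variable {F V : Type} [Field F] [Fintype F] [AddCommGroup V] [Module F V] [Fintype V]

/-- sets with few points on the lines of one direction -/
theorem line (U : Submodule F V) (e : V) (he : e ∈ U) (Z : Finset V) (hZ : ∀ v ∈ Z, v ∈ U) (r : ℕ)
    (h : ∀ v : V, ∃ T : Finset F, T.card ≤ r ∧ ∀ t : F, v + t • e ∈ Z → t ∈ T) :
    Z.card * Fintype.card F ≤ r * Fintype.card F ^ finrank F U := by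
  classical
  choose T hT hT' using h
  have h1 : (Z ×ˢ (univ : Finset F)).card ≤
      ((univ.filter (· ∈ U)).sigma fun v => T v).card := by
    refine card_le_card_of_injOn (fun x => ⟨x.1 - x.2 • e, x.2⟩) (fun x hx => ?_) ?_
    · have hx' := (mem_product.1 (mem_coe.1 hx)).1
      simp only [coe_sigma, Set.mem_sigma_iff, mem_coe, mem_filter, mem_univ, true_and]
      exact ⟨U.sub_mem (hZ _ hx') (U.smul_mem _ he), hT' _ _ (by simpa using hx')⟩
    · rintro ⟨v, t⟩ - ⟨v', t'⟩ - k
      obtain ⟨k1, k2⟩ := Sigma.mk.inj_iff.1 k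
      obtain rfl := eq_of_heq k2
      exact Prod.ext (sub_left_injective k1) rfl
  rw [card_product, card_univ, card_sigma] at h1
  refine h1.trans ((sum_le_card_nsmul _ _ r fun v _ => hT v).trans ?_)
  rw [smul_eq_mul, mul_comm, ← Fintype.card_subtype, Module.card_eq_pow_finrank (K := F)]

variable {B : LinearMap.BilinForm F V}

theorem step (h2 : (2 : F) ≠ 0) (hs : ∀ x y, B x y = B y x) (hB : B.Nondegenerate)
    (W : Submodule F V) (i : ℕ) (hi : finrank F W = i) (hN : 2 * i + 3 ≤ finrank F V)
    (Z : Finset V) (hZ : ∀ v ∈ Z, v ∉ W ∧ v ∈ B.orthogonal W ∧ B v v = 0) :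
    Z.card * Fintype.card F ^ (i + 2) ≤ (Fintype.card F + 2) * Fintype.card F ^ finrank F V := by
  classical
  rcases Z.eq_empty_or_nonempty with rfl | ⟨e, he⟩
  · simp
  obtain ⟨e1, e2, e3⟩ := hZ e he
  set W₁ := W ⊔ Submodule.span F {e} with hW₁
  have e0 : e ≠ 0 := fun k => e1 (k ▸ W.zero_mem)
  have d1 : finrank F W₁ = i + 1 := by
    have := Submodule.finrank_sup_add_finrank_inf_eq W (Submodule.span F {e})
    rw [((Submodule.disjoint_span_singleton' e0).2 e1).eq_bot, finrank_bot,
      finrank_span_singleton e0, hi] at this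
    exact this
  have d2 := LinearMap.BilinForm.finrank_orthogonal hB W
  have d3 := LinearMap.BilinForm.finrank_orthogonal hB W₁
  have d4 := LinearMap.BilinForm.finrank_orthogonal hB (B.orthogonal W₁)
  obtain ⟨f, f1, f2⟩ : ∃ f ∈ B.orthogonal W₁, B f f ≠ 0 := by
    by_contra k
    push Not at k
    have : B.orthogonal W₁ ≤ B.orthogonal (B.orthogonal W₁) := fun x hx => by
      rw [LinearMap.BilinForm.mem_orthogonal_iff]
      intro y hy
      have k1 := k _ (Submodule.add_mem _ hx hy)
      simp only [map_add, LinearMap.add_apply, k x hx, k y hy, hs x y] at k1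
      exact (mul_eq_zero.1 (by linear_combination k1 : 2 * B y x = 0)).resolve_left h2
    have := Submodule.finrank_mono this
    omega
  have a1 := line (B.orthogonal W) e e2 (Z.filter fun v => B e v ≠ 0)
    (fun v hv => (hZ v (mem_filter.1 hv).1).2.1) 1 fun v =>
    ⟨{-B v v / (2 * B e v)}, by simp, fun t ht => by
      obtain ⟨k1, k2⟩ := mem_filter.1 ht
      have k3 := (hZ _ k1).2.2
      simp only [map_add, map_smul, LinearMap.add_apply, LinearMap.smul_apply, smul_eq_mul, e3,
        hs v e, mul_zero, add_zero] at k2 k3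
      rw [mem_singleton, eq_div_iff (mul_ne_zero h2 k2)]
      linear_combination k3⟩
  have a2 := line (B.orthogonal W₁) f f1 (Z.filter fun v => ¬B e v ≠ 0) (fun v hv => by
      obtain ⟨k1, k2⟩ := mem_filter.1 hv
      rw [LinearMap.BilinForm.mem_orthogonal_iff]
      intro y hy
      obtain ⟨a, ha, b, hb, rfl⟩ := Submodule.mem_sup.1 hy
      obtain ⟨c, rfl⟩ := Submodule.mem_span_singleton.1 hb
      have k3 : B a v = 0 := (hZ v k1).2.1 a ha
      show B (a + c • e) v = 0
      simp [k3, not_not.1 k2]) 2 fun v => by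
    have p0 : (Polynomial.C (B f f) * Polynomial.X ^ 2 + Polynomial.C (2 * B f v) * Polynomial.X +
      Polynomial.C (B v v)) ≠ 0 := fun k => f2 (by simpa using congrArg (·.coeff 2) k)
    refine ⟨(Polynomial.C (B f f) * Polynomial.X ^ 2 + Polynomial.C (2 * B f v) * Polynomial.X +
      Polynomial.C (B v v)).roots.toFinset, (Multiset.toFinset_card_le _).trans
      ((Polynomial.card_roots' _).trans Polynomial.natDegree_quadratic_le), fun t ht => ?_⟩
    have k3 := (hZ _ (mem_filter.1 ht).1).2.2
    simp only [map_add, map_smul, LinearMap.add_apply, LinearMap.smul_apply, smul_eq_mul,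
      hs v f] at k3
    rw [Multiset.mem_toFinset, Polynomial.mem_roots p0]
    simp only [Polynomial.IsRoot.def, Polynomial.eval_add, Polynomial.eval_mul, Polynomial.eval_C,
      Polynomial.eval_pow, Polynomial.eval_X]
    linear_combination k3
  obtain ⟨d, hd⟩ : ∃ d, finrank F V = d + 1 + i := ⟨finrank F V - (i + 1), by omega⟩
  rw [d2, hi, hd, Nat.add_sub_cancel] at a1
  rw [d3, d1, hd, show d + 1 + i - (i + 1) = d by omega] at a2
  rw [← card_filter_add_card_filter_not (s := Z) fun v => B e v ≠ 0, hd]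
  set q := Fintype.card F
  calc _ = ((Z.filter fun v => B e v ≠ 0).card * q + (Z.filter fun v => ¬B e v ≠ 0).card * q) * q ^ (i + 1) := by ring
    _ ≤ (1 * q ^ (d + 1) + 2 * q ^ d) * q ^ (i + 1) := by gcongr
    _ = _ := by ring

open Classical in
/-- independent isotropic tuples -/
theorem tuples (h2 : (2 : F) ≠ 0) (hs : ∀ x y, B x y = B y x) (hB : B.Nondegenerate) :
    ∀ k : ℕ, 2 * k + 1 ≤ finrank F V → ∀ S : Finset (Fin k → V),
    (∀ x ∈ S, LinearIndependent F x ∧ ∀ i j, B (x i) (x j) = 0) →
    S.card * Fintype.card F ^ (k + ∑ i ∈ range (k + 1), i) ≤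
      (Fintype.card F + 2) ^ k * Fintype.card F ^ (k * finrank F V) := by
  intro k
  induction k with
  | zero => exact fun _ S _ => by simpa using card_le_one.2 fun a _ b _ => Subsingleton.elim a b
  | succ k ih =>
    intro hk S hS
    have h1 := ih (by omega) (S.image Fin.tail) fun x hx => by
      obtain ⟨y, hy, rfl⟩ := mem_image.1 hx
      exact ⟨(linearIndependent_finSucc.1 (hS y hy).1).1, fun i j => (hS y hy).2 _ _⟩
    have h3 : ∀ x ∈ S.image Fin.tail, (S.filter fun y => Fin.tail y = x).card * Fintype.card F ^ (k + 2) ≤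
        (Fintype.card F + 2) * Fintype.card F ^ finrank F V := fun x hx => by
      obtain ⟨y₀, hy₀, e⟩ := mem_image.1 hx
      have l0 : LinearIndependent F x := e ▸ (linearIndependent_finSucc.1 (hS y₀ hy₀).1).1
      rw [← card_image_of_injOn (f := fun y : Fin (k + 1) → V => y 0) fun y hy z hz h => by
        rw [← Fin.cons_self_tail y, ← Fin.cons_self_tail z, (mem_filter.1 hy).2,
          (mem_filter.1 hz).2, show y 0 = z 0 from h]]
      refine step h2 hs hB (Submodule.span F (Set.range x)) k
        (by rw [finrank_span_eq_card l0, Fintype.card_fin]) (by omega) _ fun v hv => ?_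
      obtain ⟨y, hy, rfl⟩ := mem_image.1 hv
      obtain ⟨y1, rfl⟩ := mem_filter.1 hy
      refine ⟨(linearIndependent_finSucc.1 (hS y y1).1).2, fun a ha => ?_, (hS y y1).2 _ _⟩
      obtain ⟨c, rfl⟩ := (Submodule.mem_span_range_iff_exists_fun F).1 ha
      show B (∑ i, c i • Fin.tail y i) (y 0) = 0
      simp [Fin.tail, (hS y y1).2]
    rw [card_eq_sum_card_image Fin.tail S, sum_range_succ]
    set q := Fintype.card F
    calc _ = (∑ x ∈ S.image Fin.tail, (S.filter fun y => Fin.tail y = x).card * q ^ (k + 2)) *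
          q ^ (k + ∑ i ∈ range (k + 1), i) := by rw [← sum_mul]; ring
      _ ≤ ((S.image Fin.tail).card * ((q + 2) * q ^ finrank F V)) *
          q ^ (k + ∑ i ∈ range (k + 1), i) :=
        Nat.mul_le_mul_right _ (sum_le_card_nsmul _ _ _ h3)
      _ = (S.image Fin.tail).card * q ^ (k + ∑ i ∈ range (k + 1), i) *
          ((q + 2) * q ^ finrank F V) := by ring
      _ ≤ (q + 2) ^ k * q ^ (k * finrank F V) * ((q + 2) * q ^ finrank F V) :=
        Nat.mul_le_mul_right _ h1
      _ = _ := by ring

end Pool.Agent.MP_a43263_nt.N2.TupA
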