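import Pool.Agent.MP_a43263_nt.N2.SpecB
import Pool.Agent.MP_a43263_nt.N2.Tup0

/-! THEOREM N2, row Qz: zeros of a quadratic form of rank at least three. -/

set_option autoImplicit false

namespace Pool.Agent.MP_a43263_nt.N2

open Finset Module

namespace QzA

variable {F V : Type} [Field F] [Fintype F] [AddCommGroup V] [Module F V] [Fintype V]
  {B : LinearMap.BilinForm F V}

theorem nat (h2 : (2 : F) ≠ 0) (hs : ∀ x y, B x y = B y x)
    (hr : finrank F (LinearMap.ker B) + 3 ≤ finrank F V) (Z : Finset V) (hZ : ∀ v ∈ Z, B v v = 0) :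
    Z.card * Fintype.card F * Fintype.card F ≤
      (Fintype.card F + 2) * Fintype.card F ^ finrank F V := by
  classical
  have q1 : 1 ≤ Fintype.card F := Fintype.card_pos
  by_cases hk : ∀ v ∈ Z, v ∈ LinearMap.ker B
  · have a0 := TupA.line (LinearMap.ker B) 0 (zero_mem _) Z hk (Fintype.card F) fun _ =>
      ⟨univ, le_rfl, fun _ _ => mem_univ _⟩
    calc _ ≤ Fintype.card F * Fintype.card F ^ finrank F (LinearMap.ker B) * Fintype.card F :=
          Nat.mul_le_mul_right _ a0
      _ = 1 * Fintype.card F ^ (finrank F (LinearMap.ker B) + 2) := by ring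
      _ ≤ _ := Nat.mul_le_mul (by omega) (Nat.pow_le_pow_right q1 (by omega))
  push Not at hk
  obtain ⟨e, he, e1⟩ := hk
  have e3 := hZ e he
  have e2 : B e ≠ 0 := e1
  have d1 := Module.Dual.finrank_ker_add_one_of_ne_zero e2
  obtain ⟨f, f1, f2⟩ : ∃ f ∈ LinearMap.ker (B e), B f f ≠ 0 := by
    by_contra k
    push Not at k
    obtain ⟨z, hz⟩ : ∃ z, B e z ≠ 0 := by
      by_contra k'
      push Not at k'
      exact e2 (LinearMap.ext k')
    have z0 : B z ≠ 0 := fun k' => hz (by rw [hs, k', LinearMap.zero_apply])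
    have d2 := Module.Dual.finrank_ker_add_one_of_ne_zero z0
    have d3 := Submodule.finrank_sup_add_finrank_inf_eq (LinearMap.ker (B e)) (LinearMap.ker (B z))
    have d4 := Submodule.finrank_le (LinearMap.ker (B e) ⊔ LinearMap.ker (B z))
    have : LinearMap.ker (B e) ⊓ LinearMap.ker (B z) ≤ LinearMap.ker B := fun x hx => by
      refine LinearMap.ext fun y => ?_
      have hy : y - (B e y / B e z) • z ∈ LinearMap.ker (B e) := by
        simp [div_mul_cancel₀ _ hz]
      have k1 := k _ (Submodule.add_mem _ hx.1 hy)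
      have k2 := k _ hy
      have k3 : B z x = 0 := hx.2
      generalize hw : y - (B e y / B e z) • z = w at k1 k2
      simp only [map_add, LinearMap.add_apply, k x hx.1, k2, hs w x] at k1
      have k4 : B x w = 0 := (mul_eq_zero.1 (by linear_combination k1 : 2 * B x w = 0)).resolve_left h2
      rw [← hw, map_sub, map_smul, hs x z, k3, smul_zero, sub_zero] at k4
      exact k4
    have := Submodule.finrank_mono this
    omega
  have a1 := TupA.line ⊤ e trivial (Z.filter fun v => B e v ≠ 0) (fun _ _ => trivial) 1 fun v =>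
    ⟨{-B v v / (2 * B e v)}, by simp, fun t ht => by
      obtain ⟨k1, k2⟩ := mem_filter.1 ht
      have k3 := hZ _ k1
      simp only [map_add, map_smul, LinearMap.add_apply, LinearMap.smul_apply, smul_eq_mul, e3,
        hs v e, mul_zero, add_zero] at k2 k3
      rw [mem_singleton, eq_div_iff (mul_ne_zero h2 k2)]
      linear_combination k3⟩
  have a2 := TupA.line (LinearMap.ker (B e)) f f1 (Z.filter fun v => ¬B e v ≠ 0)
    (fun v hv => not_not.1 (mem_filter.1 hv).2) 2 fun v => by
    have p0 : (Polynomial.C (B f f) * Polynomial.X ^ 2 + Polynomial.C (2 * B f v) * Polynomial.X +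
      Polynomial.C (B v v)) ≠ 0 := fun k => f2 (by simpa using congrArg (·.coeff 2) k)
    refine ⟨(Polynomial.C (B f f) * Polynomial.X ^ 2 + Polynomial.C (2 * B f v) * Polynomial.X +
      Polynomial.C (B v v)).roots.toFinset, (Multiset.toFinset_card_le _).trans
      ((Polynomial.card_roots' _).trans Polynomial.natDegree_quadratic_le), fun t ht => ?_⟩
    have k3 := hZ _ (mem_filter.1 ht).1
    simp only [map_add, map_smul, LinearMap.add_apply, LinearMap.smul_apply, smul_eq_mul,
      hs v f] at k3
    rw [Multiset.mem_toFinset, Polynomial.mem_roots p0]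
    simp only [Polynomial.IsRoot.def, Polynomial.eval_add, Polynomial.eval_mul, Polynomial.eval_C,
      Polynomial.eval_pow, Polynomial.eval_X]
    linear_combination k3
  rw [finrank_top, ← d1] at a1
  rw [← card_filter_add_card_filter_not (s := Z) fun v => B e v ≠ 0, ← d1, add_mul]
  calc _ ≤ (1 * Fintype.card F ^ (finrank F (LinearMap.ker (B e)) + 1) +
        2 * Fintype.card F ^ finrank F (LinearMap.ker (B e))) * Fintype.card F := by gcongr
    _ = _ := by ring

end QzA

theorem qz_n : QZStmt := by
  classical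
  intro F _ _ h2 V _ _ _ B hs hr
  have : Finite V := Module.finite_of_finite F
  let _ := Fintype.ofFinite V
  have h := QzA.nat h2 hs hr (univ.filter fun x => B x x = 0) fun v hv => (mem_filter.1 hv).2
  rw [← Fintype.card_subtype, ← Nat.card_eq_fintype_card] at h
  have h' := (Nat.cast_le (α := ℝ)).2 h
  push_cast at h'
  have q0 : (0 : ℝ) < Fintype.card F := by exact_mod_cast Fintype.card_pos
  generalize (Fintype.card F : ℝ) = q at h' q0 ⊢
  refine le_of_mul_le_mul_right (h'.trans ?_) q0
  rw [mul_assoc, show (1 + 5 / q) * q = q + 5 by field_simp, mul_comm]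
  gcongr
  norm_num

end Pool.Agent.MP_a43263_nt.N2
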