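import Pool.Agent.MP_a43263_nt.N2.SpecB

/-! THEOREM N2: the local image at a prime of the smooth part. -/

set_option autoImplicit false

noncomputable section

namespace Pool.Agent.MP_a43263_nt.N2

open Polynomial Finset Filter Matrix JC Pool.Agent.MP_a43263_nt.UV K2

namespace RamgA

theorem sr {p : ℕ} [Fact p.Prime] {f : ℤ[X]} {a u v : ℤ} (hr : Rt p f a) (uv : IsCoprime u v)
    (d : (p : ℤ) ∣ (el u v).eval a) : Sr p f u v := by
  intro t h1 _
  have h2 := (ZMod.intCast_zmod_eq_zero_iff_dvd _ p).2 d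
  simp only [el, zK, Polynomial.map_add, Polynomial.map_mul, Polynomial.map_sub, map_C, map_X,
    Polynomial.map_one, eval_add, eval_mul, eval_sub, eval_C, eval_X, eval_one] at h1 h2
  simp only [eq_intCast] at h1
  push_cast at h1 h2
  have v0 : (v : ZMod p) ≠ 0 := fun c => by
    have := uv.map (Int.castRingHom (ZMod p))
    rw [eq_intCast, eq_intCast, c, isCoprime_zero_right] at this
    rw [c, zero_pow two_ne_zero, zero_mul, zero_add] at h2
    exact (this.pow 2).ne_zero h2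
  obtain rfl : t = (a : ZMod p) := by
    refine mul_left_cancel₀ (pow_ne_zero 2 v0) ?_
    linear_combination h1 - h2
  rw [zK, derivative_map, eval_intCast_map, eq_intCast, Int.cast_id]
  exact fun c => hr.2 ((ZMod.intCast_zmod_eq_zero_iff_dvd _ p).1 c)

end RamgA

theorem ramg_n : WTStmt → QSTStmt → EV2Stmt → NGMStmt → LOCGStmt → BEGStmt → RAMGStmt := by
  intro wt qst ev2 ngm locg beg p _ g f F κ a u v G δ hp2 hf hr cp uv nx d1 d2 d3 hW
  have hs := hf.sq ℚ_[p]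
  obtain ⟨w1, w2, -, w4, -⟩ := wt g f F κ u v G hf cp ℚ_[p]
  have key : ∀ δ₀ s₀, Wt (zK f ℚ_[p]) (zK F ℚ_[p]) (zK κ ℚ_[p]) δ₀ →
      NG p f a (δ₀ * zK (be u v G) ℚ_[p]) s₀ 1 → s₀ = 0 := by
    intro δ₀ s₀ h1 h2
    obtain ⟨c1, c2⟩ := w1 _ (w2 _ _ h1 w4)
    have c3 := qst g f F κ u v G hf cp _ δ₀ h1
    generalize δ₀ * zK (be u v G) ℚ_[p] = δ₁ at h2 c1 c2 c3
    obtain ⟨σ, hsy⟩ := JC.T.symb.2 p
    have g1 := (gram.2 ℚ_[p] g _ hs).1 δ₁
    have g2 := ((gram.1 ℚ_[p] _ hs.monic).2.2.2.1 δ₁).2 c1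
    obtain ⟨e, e1, e2⟩ := diag ℚ_[p] (Ne.isUnit two_ne_zero) _ _ (Gm_symm δ₁)
      (g1 ▸ (isUnit_neg_one.pow g).mul g2)
    refine (locg p g f a δ₁ σ e s₀ hp2 hf hr hsy e1 c2 h2).1 ?_
    rw [(hinv ℚ_[p] σ hsy.1).2 g _ e e1 (fun i => (e2 i).ne_zero) c3
      (by rw [g1, ← mul_assoc, ← mul_pow]; simpa using c2)]
    refine prod_eq_one fun i _ => prod_eq_one fun j _ => ?_
    simpa using ((pad.1 p hp2).2 σ hsy).1 ((-1) ^ i.1) ((-1) ^ j.1) (isUnit_neg_one.pow _)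
      (isUnit_neg_one.pow _)
  have hT := beg p g f a u v G hp2 hf hr cp.nm uv d2 d3
  obtain ⟨-, -, -, ad, ev, sq⟩ := ngm p g f a hp2 hf hr
  rcases ev2 p g f F κ u v G δ hf cp uv nx d1 d2 (RamgA.sr hr uv d3) hW with h | h
  · obtain ⟨s, hN⟩ := (ev _).1 h
    have hM := ad _ _ _ _ _ _ hN hT
    rw [zero_add, add_zero] at hM
    obtain rfl := key _ _ hW hM
    exact ⟨0, hN⟩
  · obtain ⟨s, hN⟩ := (ev _).1 h
    have hM := ad _ _ _ _ _ _ hN hT
    rw [zero_add, add_zero] at hM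
    obtain rfl := key _ _ (w2 _ _ hW w4) hM
    rw [mul_assoc, ← pow_two] at hM
    exact ⟨1, sq _ _ _ _ hM⟩

end Pool.Agent.MP_a43263_nt.N2
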