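import Pool.Agent.MP_a43263_nt.N2.SpecB

/-! THEOREM N2: reciprocity with the primes of the smooth part. -/

set_option autoImplicit false

noncomputable section

namespace Pool.Agent.MP_a43263_nt.N2

open Polynomial Finset Matrix JC Pool.Agent.MP_a43263_nt.UV

open UV.Rec in
theorem rec_n : NGMStmt → LOCGStmt → RECStmt := by
  intro ngm locg g f Q m₀ a₀ δ u y hf hq hm hrt hn hr h2 hev hng hnf
  have hS := JC.T.symb
  have hG := UV.gram
  have hQ := UV.qs
  have hD := UV.diag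
  have hH := UV.hinv
  have hU := UV.locu UV.gram UV.diag UV.hinv UV.pad
  have hL := UV.locq UV.gram UV.diag UV.hinv UV.pad UV.hens
  have hN := UV.nfm
  have hP := UV.pf
  have hc : IsCoprime δ (zK f ℚ) :=
    isCoprime_of_map (Rat.castHom ℝ) (by rw [zK_map]; exact hr.1)
  obtain ⟨e, he, hd⟩ := int_diag hD (Gm g (zK f ℚ) δ) (Gm_symm δ) (by
    rw [(hG.2 ℚ g _ (hf.sq ℚ)).1]
    exact (isUnit_one.neg.pow g).mul (((hG.1 ℚ _ (hf.mo ℚ)).2.2.2.1 δ).2 hc))
  have hE : ∏ i, e i ≠ 0 := prod_ne_zero_iff.2 fun i _ => he i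
  have q2 : ∀ q ∈ Q, q ≠ 2 := fun q h c => by
    have := (hq q h).2.1
    omega
  set T : Finset ℕ := Q ∪ (∏ i, e i).natAbs.primeFactors.erase 2 with hT
  have T2 : ∀ p ∈ T, p.Prime ∧ p ≠ 2 := fun p h => by
    rcases mem_union.1 h with h | h
    · exact ⟨(hq p h).1, q2 p h⟩
    · exact ⟨Nat.prime_of_mem_primeFactors (mem_of_mem_erase h), ne_of_mem_erase h⟩
  have n2 : 2 ∉ T := fun h => (T2 2 h).2 rfl
  have A := hP _ e (insert 2 T) he (mem_insert_self _ _)
    (fun p h => (mem_insert.1 h).elim (fun c => c ▸ Nat.prime_two) fun c => (T2 p c).1)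
    fun p i hp h => by
      by_cases c : p = 2
      · exact mem_insert.2 (Or.inl c)
      · exact mem_insert_of_mem (mem_union_right _ (mem_erase.2 ⟨c, Nat.mem_primeFactors.2
          ⟨hp, Int.natCast_dvd.1 (h.trans (dvd_prod_of_mem _ (mem_univ i))),
            Int.natAbs_ne_zero.2 hE⟩⟩))
  have B := hP _ (fun i : Fin (2 * g + 1) => (-1 : ℤ) ^ i.1) {2}
    (fun i => pow_ne_zero _ (neg_ne_zero.2 one_ne_zero)) (mem_singleton_self _)
    (fun p h => mem_singleton.1 h ▸ Nat.prime_two) fun p i hp h =>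
      absurd (isUnit_of_dvd_unit h (isUnit_one.neg.pow _)) (Nat.prime_iff_prime_int.1 hp).not_isUnit
  obtain ⟨s2, a2, b2⟩ := hS.2 2
  rw [prod_singleton, ← split hG hQ hH hf hn he hd a2 b2 h2,
    ← split hG hQ hH hf hn he hd hS.1 (fun x y _ _ => by simp only [Int.cast_lt_zero]) hr] at B
  rw [prod_insert n2, ← mul_assoc, B, one_mul] at A
  have key : ∀ p ∈ T, Hs (RH.hs p) e = if p ∈ Q then sn (u p * y p) else 1 := fun p h => by
    obtain ⟨hp, hp2⟩ := T2 p h
    have := Fact.mk hp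
    obtain ⟨s, a, b⟩ := hS.2 p
    have d := dg_loc hf hd ℚ_[p]
    have ev : Ev p f (fK δ ℚ_[p]) → Hs (RH.hs p) e = 1 := fun v =>
      (Hs_cast b he).symm.trans (hU p g f _ s _ hp2 hf ⟨a, b⟩ d v)
    split_ifs with c
    · have w := hnf p c
      rcases z2 (y p) with k | k <;> rw [k] at w ⊢
      · rw [mul_zero, ev (((hN p g f hf).2.2.1 _).2 ⟨_, w⟩)]
        rfl
      · have l := hL p g f _ s _ (u p) (hq p c).2.1 hf (hq p c).2.2 ⟨a, b⟩ d
          (sq_loc hG hf hn _) w
        rw [mul_one, ← Hs_cast b he, sn]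
        split_ifs with c'
        · exact l.2 c'
        · exact (Hs_pm a fun i => Int.cast_ne_zero.2 (he i)).resolve_left fun x => c' (l.1 x)
    · by_cases cm : p ∣ m₀
      · obtain ⟨t, w⟩ := hng p cm
        have r := hrt p hp cm
        rcases z2 t with k | k <;> rw [k] at w
        · exact ev (((ngm p g f a₀ hp2 hf r).2.2.2.2.1 _).2 ⟨_, w⟩)
        · exact (Hs_cast b he).symm.trans
            ((locg p g f a₀ _ s _ 0 hp2 hf r ⟨a, b⟩ d (sq_loc hG hf hn _) w).2 rfl)
      · exact ev (hev p c cm)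
  rw [prod_congr rfl key, prod_ite_mem, inter_eq_right.2 subset_union_left, ← sn_sum] at A
  exact sn_one _ A

end Pool.Agent.MP_a43263_nt.N2
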