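import Pool.Agent.MP_a43263_nt.N2.SpecD
import Pool.Agent.MP_a43263_nt.K2.Trn

/-! THEOREM N2: the root at the smooth part. -/

set_option autoImplicit false

noncomputable section

namespace Pool.Agent.MP_a43263_nt.N2

open Polynomial Finset Filter Matrix JC Pool.Agent.MP_a43263_nt.UV K2

namespace RtsA

theorem el_eval (u v a : ℤ) : (el u v).eval a = v ^ 2 * (a - 1) + u ^ 2 := by
  rw [el, eval_add, eval_mul, eval_sub, eval_C, eval_C, eval_X, eval_one]

theorem cast_eval (f : ℤ[X]) (a : ℤ) (R : Type) [CommRing R] :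
    ((f.eval a : ℤ) : R) = (zK f R).eval (a : R) :=
  (eval_intCast_map (Int.castRingHom R) f a).symm

theorem gv_eq {g : ℕ} (w : Vec g) (u v : ℤ) {R : Type} [CommRing R] (b : R)
    (h : -(u : R) ^ 2 = (v : R) ^ 2 * b) :
    (Gv w u v : R) = ((v : R) ^ 2) ^ (2 * g + 1) * (zK (pc (sv w)) R).eval b := by
  rw [zK, pc_map, TrnA.pc_eval, Gv, Nat.add_sub_cancel, mul_add, mul_sum]
  push_cast
  rw [h]
  congr 1
  · ring
  · refine sum_congr rfl fun i _ => ?_
    have hi := i.2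
    have h2 : ((v : R) ^ 2) ^ (2 * g + 1) =
        ((v : R) ^ 2) ^ (2 * g - i.1) * ((v : R) ^ 2) ^ (i.1 + 1) := by
      rw [← pow_add]
      congr 1
      omega
    rw [h2, eq_intCast]
    ring

theorem rel {p : ℕ} {u v a : ℤ} (h : (p : ℤ) ∣ (el u v).eval a) :
    -(u : ZMod p) ^ 2 = (v : ZMod p) ^ 2 * ((a : ZMod p) - 1) := by
  rw [el_eval, ← ZMod.intCast_zmod_eq_zero_iff_dvd] at h
  push_cast at h
  linear_combination -h

end RtsA

open RtsA in
theorem rts_n : RTSStmt := by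
  refine ⟨fun g p w u v a hp hv h1 h2 h3 => ?_, fun v Q m u a hQ h h1 => ?_, fun m u v h => ?_⟩
  · have : Fact p.Prime := ⟨hp⟩
    have r := rel h1
    have v0 : (v : ZMod p) ≠ 0 := fun e => hv ((ZMod.intCast_zmod_eq_zero_iff_dvd _ _).1 e)
    refine ⟨?_, fun k => h3 ?_⟩
    · rw [← ZMod.intCast_zmod_eq_zero_iff_dvd, gv_eq w u v _ r] at h2
      rw [← ZMod.intCast_zmod_eq_zero_iff_dvd, cast_eval, TrnA.zK_f1, eval_comp, eval_sub, eval_X,
        eval_one]
      exact (mul_eq_zero.1 h2).resolve_left (pow_ne_zero _ (pow_ne_zero _ v0))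
    · rw [← ZMod.intCast_zmod_eq_zero_iff_dvd, cast_eval, zK, ← derivative_map] at k
      have k' : (derivative (zK (f1 w) (ZMod p))).eval (a : ZMod p) = 0 := k
      rw [TrnA.zK_f1, TrnA.der_eval] at k'
      rw [← ZMod.intCast_zmod_eq_zero_iff_dvd, TrnA.gx_eq w u v _ r, k', mul_zero]
  · have nd : ∀ {p n : ℕ}, p.Prime → m.Coprime n → p ∣ n → ¬p ∣ m := fun hp c a b =>
      hp.one_lt.ne' (Nat.eq_one_of_dvd_coprimes c b a)
    refine ⟨h.sf, nd Nat.prime_two h.cq (Dvd.dvd.mul_right (by norm_num) _),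
      fun q hq => nd (hQ q hq) h.cq (Dvd.dvd.mul_left (dvd_prod_of_mem _ hq) _),
      fun p hp hm => ?_⟩
    have : Fact p.Prime := ⟨hp⟩
    have r := rel ((Int.natCast_dvd_natCast.2 hm).trans h1)
    rw [Int.cast_natCast, Int.cast_natCast] at r
    have u0 : (u : ZMod p) ≠ 0 := fun e =>
      nd hp h.cu (Dvd.dvd.mul_right ((ZMod.natCast_eq_zero_iff _ _).1 e) _) hm
    have v0 : (v : ZMod p) ≠ 0 := fun e =>
      nd hp h.cu (Dvd.dvd.mul_left ((ZMod.natCast_eq_zero_iff _ _).1 e) _) hm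
    refine ⟨⟨(u : ZMod p) / v, ?_⟩, fun k => u0 ?_⟩
    · push_cast
      field_simp
      linear_combination r
    · rw [← ZMod.intCast_zmod_eq_zero_iff_dvd] at k
      push_cast at k
      refine pow_eq_zero_iff two_ne_zero |>.1 ?_
      linear_combination -r + (v : ZMod p) ^ 2 * k
  · obtain ⟨x, y, e⟩ : IsCoprime (m : ℤ) ((v : ℤ) ^ 2) :=
      (Nat.isCoprime_iff_coprime.2 h).pow_right
    refine ⟨1 - (u : ℤ) ^ 2 * y, (u : ℤ) ^ 2 * x, ?_⟩
    rw [el_eval]
    linear_combination -(u : ℤ) ^ 2 * e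

end Pool.Agent.MP_a43263_nt.N2

end
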