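import Pool.Agent.MP_a43263_nt.N2.SpecC

/-! THEOREM N2: the shift lemma with a divisibility condition. -/

set_option autoImplicit false

noncomputable section

namespace Pool.Agent.MP_a43263_nt.N2

open Finset Filter K2

namespace ShfA

theorem abs_le_card {α : Type} (T T' : Finset α) (f : α → ℝ) {B : ℝ} (hB : 0 ≤ B)
    (h1 : ∀ x ∈ T, |f x| ≤ B) (h2 : ∀ x ∈ T, f x ≠ 0 → x ∈ T') :
    |∑ x ∈ T, f x| ≤ B * T'.card := by
  classical
  rw [← sum_filter_ne_zero]
  refine (abs_sum_le_sum_abs _ _).trans ((sum_le_card_nsmul _ _ B fun x hx =>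
    h1 x (mem_filter.1 hx).1).trans ?_)
  rw [nsmul_eq_mul, mul_comm]
  exact mul_le_mul_of_nonneg_left (Nat.cast_le.2 (card_le_card fun x hx =>
    h2 x (mem_filter.1 hx).1 (mem_filter.1 hx).2)) hB

theorem wl {α : Type} [AddCommGroup α] [DecidableEq α] {K : Finset α} (τ : α) {G : α → ℝ} {B : ℝ}
    (P : α → Prop) [DecidablePred P] (hB : 0 ≤ B) (h1 : ∀ x ∈ K, |G x| ≤ B)
    (h2 : ∀ x ∈ K, |G (x + τ)| ≤ B) (hP : ∀ x, G x ≠ 0 → P x) :
    |∑ x ∈ K, G (x + τ) - ∑ x ∈ K, G x| ≤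
      B * (K.filter fun x => x + τ ∉ K ∧ P (x + τ)).card +
        B * (K.filter fun x => x + -τ ∉ K ∧ P (x + 0)).card := by
  have e1 := sum_filter_add_sum_filter_not K (fun x => x + τ ∈ K) fun x => G (x + τ)
  have e2 := sum_filter_add_sum_filter_not K (fun x => x + -τ ∈ K) G
  have e3 : ∑ x ∈ K.filter (fun x => x + τ ∈ K), G (x + τ) =
      ∑ x ∈ K.filter (fun x => x + -τ ∈ K), G x :=
    sum_bij' (fun x _ => x + τ) (fun x _ => x + -τ)
      (fun x hx => mem_filter.2 ⟨(mem_filter.1 hx).2, by simpa using (mem_filter.1 hx).1⟩)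
      (fun x hx => mem_filter.2 ⟨(mem_filter.1 hx).2, by simpa using (mem_filter.1 hx).1⟩)
      (fun x _ => by simp) (fun x _ => by simp) fun _ _ => rfl
  have b1 := abs_le_card (K.filter fun x => x + τ ∉ K) (K.filter fun x => x + τ ∉ K ∧ P (x + τ))
    (fun x => G (x + τ)) hB (fun x hx => h2 x (mem_filter.1 hx).1) fun x hx h =>
      mem_filter.2 ⟨(mem_filter.1 hx).1, (mem_filter.1 hx).2, hP _ h⟩
  have b2 := abs_le_card (K.filter fun x => x + -τ ∉ K) (K.filter fun x => x + -τ ∉ K ∧ P (x + 0))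
    G hB (fun x hx => h1 x (mem_filter.1 hx).1) fun x hx h =>
      mem_filter.2 ⟨(mem_filter.1 hx).1, (mem_filter.1 hx).2, by rw [add_zero]; exact hP _ h⟩
  have e6 : ∑ x ∈ K, G (x + τ) - ∑ x ∈ K, G x =
      ∑ x ∈ K.filter (fun x => x + τ ∉ K), G (x + τ) -
        ∑ x ∈ K.filter (fun x => x + -τ ∉ K), G x := by linarith
  rw [e6]
  exact (abs_sub _ _).trans (add_le_add b1 b2)

theorem sum_xp (g : ℕ) : ∑ i : Fin (2 * g + 1), xp g i.1 = (2 * g + 1) ^ 2 := by
  have h : ∀ n : ℕ, ∑ i ∈ range n, 2 * (i + 1) = n * (n + 1) := fun n => by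
    induction n with
    | zero => rfl
    | succ n ih => rw [sum_range_succ, ih]; ring
  rw [Fin.sum_univ_eq_sum_range (xp g), sum_range_succ,
    sum_congr (g := fun i => 2 * (i + 1)) rfl fun i hi => by
      rw [xp, if_neg (mem_range.1 hi).ne], h, xp,
    if_pos rfl]
  ring

theorem two_le_xp {g : ℕ} (hg : 1 ≤ g) (i : ℕ) : 2 ≤ xp g i := by
  unfold xp
  split_ifs <;> omega

/-- the points of a box with the divisibility -/
def bs {g : ℕ} (lo : Vec g) (L : Fin (2 * g + 1) → ℕ) (m u v : ℕ) : Finset (Vec g) :=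
  (Fintype.piFinset fun i => Icc (lo i) (lo i + L i)).filter fun w => (m : ℤ) ∣ Gv w u v

theorem fac {L a x y m : ℝ} (hL : L ≤ 2 * (a * x)) (hm : m ≤ a * x) (hy : 0 < y) (hy' : y ≤ m) :
    L / y + 1 ≤ 3 * x * a * (1 / y) := by
  rw [div_add_one hy.ne', mul_one_div]
  exact div_le_div_of_nonneg_right (by linarith) hy.le

theorem box (cbx : CBXStmt) {g k m u v : ℕ} {δ : ℝ} (hg : 1 ≤ g) (hk : 1 ≤ k) (hm : 0 < m)
    (hc : m.Coprime (u * v)) (h1 : (m : ℝ) ≤ δ * (k : ℝ) ^ 2) (hδ : δ ≤ 1) (lo : Vec g)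
    (L : Fin (2 * g + 1) → ℕ) (j : Fin (2 * g + 1))
    (hL : ∀ i, (L i : ℝ) ≤ 2 * ((if i = j then δ else 1) * (k : ℝ) ^ xp g i.1)) :
    ((bs lo L m u v).card : ℝ) ≤ 3 ^ (2 * g + 1) * δ * vol g k / m := by
  have hm' : (1 : ℝ) ≤ m := by exact_mod_cast hm
  have hk' : (1 : ℝ) ≤ k := by exact_mod_cast hk
  have h0 : 0 ≤ δ := by
    by_contra hc
    have : δ * (k : ℝ) ^ 2 ≤ 0 := mul_nonpos_of_nonpos_of_nonneg (not_le.1 hc).le (by positivity)
    linarith
  have h2 : ∀ i : Fin (2 * g + 1), (m : ℝ) ≤ (if i = j then δ else 1) * (k : ℝ) ^ xp g i.1 :=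
    fun i => h1.trans (mul_le_mul (by split_ifs; exacts [le_rfl, hδ])
      (pow_le_pow_right₀ hk' (two_le_xp hg _)) (by positivity) (by split_ifs; exacts [h0, zero_le_one]))
  refine (cbx g lo 0 L (fun _ => 1) m u v hg (fun _ => one_pos) hm hc
    (fun _ _ => Nat.coprime_one_right _) (bs lo L m u v) fun w => by
      simp [bs, Fintype.mem_piFinset]).1.trans ?_
  refine (prod_le_prod (g := fun i : Fin (2 * g + 1) => 3 * (k : ℝ) ^ xp g i.1 *
    (if i = j then δ else 1) * (if i = ⟨2 * g - 1, by omega⟩ then 1 / (m : ℝ) else 1))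
    (fun i _ => by positivity) fun i _ => ?_).trans (le_of_eq ?_)
  · by_cases e : i.1 + 1 = 2 * g
    · have e' : i = ⟨2 * g - 1, by omega⟩ := Fin.ext (by simp only; omega)
      rw [if_pos e, if_pos e', Nat.cast_one, one_mul]
      exact fac (hL i) (h2 i) (by linarith) le_rfl
    · have e' : ¬i = ⟨2 * g - 1, by omega⟩ := fun c => e (by rw [c]; simp only; omega)
      rw [if_neg e, if_neg e']
      simpa using fac (hL i) (h2 i) one_pos hm'
  · rw [prod_mul_distrib, prod_mul_distrib, prod_mul_distrib, prod_const, card_univ,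
      Fintype.card_fin, prod_pow_eq_pow_sum, sum_xp, prod_ite_eq', prod_ite_eq',
      if_pos (mem_univ _), if_pos (mem_univ _), vol]
    ring

theorem strip (cbx : CBXStmt) {g k m u v : ℕ} {δ : ℝ} (hg : 1 ≤ g) (hk : 1 ≤ k) (hm : 0 < m)
    (hc : m.Coprime (u * v)) (h1 : (m : ℝ) ≤ δ * (k : ℝ) ^ 2) (hδ : δ ≤ 1) (τ ρ : Vec g)
    (h : ∀ i, |(τ i : ℝ)| ≤ δ * (k : ℝ) ^ xp g i.1) :
    (((bx g k).filter fun x => x + τ ∉ bx g k ∧ (m : ℤ) ∣ Gv (x + ρ) u v).card : ℝ) ≤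
      2 * (2 * g + 1) * (3 ^ (2 * g + 1) * δ * vol g k / m) := by
  let L : Fin (2 * g + 1) → Fin (2 * g + 1) → ℕ := fun j i =>
    if i = j then (τ i).natAbs else 2 * k ^ xp g i.1
  let lo : Fin (2 * g + 1) × Bool → Vec g := fun z i =>
    (if i = z.1 ∧ z.2 = true then ce g k i.1 + (k : ℤ) ^ xp g i.1 - (τ i).natAbs
      else ce g k i.1 - (k : ℤ) ^ xp g i.1) + ρ i
  have hL : ∀ j i, (L j i : ℝ) ≤ 2 * ((if i = j then δ else 1) * (k : ℝ) ^ xp g i.1) :=
    fun j i => by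
      simp only [L]
      split_ifs
      · have a := h i
        have b := abs_nonneg (τ i : ℝ)
        rw [Nat.cast_natAbs, Int.cast_abs]
        linarith
      · push_cast
        rw [one_mul]
  have sub : ((bx g k).filter fun x => x + τ ∉ bx g k ∧ (m : ℤ) ∣ Gv (x + ρ) u v).card ≤
      (univ.biUnion fun z : Fin (2 * g + 1) × Bool => bs (lo z) (L z.1) m u v).card := by
    refine card_le_card_of_injOn (fun x => x + ρ) (fun c hc => ?_) (add_left_injective ρ).injOn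
    obtain ⟨a1, a2, a3⟩ := mem_filter.1 (mem_coe.1 hc)
    rw [mem_bx] at a1 a2
    obtain ⟨j, hj⟩ := not_forall.1 a2
    rw [Pi.add_apply] at hj
    refine mem_coe.2 (mem_biUnion.2 ⟨(j, decide (0 ≤ τ j)), mem_univ _, mem_filter.2
      ⟨Fintype.mem_piFinset.2 fun i => mem_Icc.2 ?_, a3⟩⟩)
    have a4 := a1 i
    simp only [lo, L, Pi.add_apply, decide_eq_true_eq]
    by_cases e : i = j
    · subst e
      simp only [true_and, if_true]
      split_ifs <;> omega
    · simp only [e, false_and, if_false]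
      push_cast
      omega
  refine (Nat.cast_le.2 (sub.trans card_biUnion_le)).trans ?_
  rw [Nat.cast_sum]
  refine (sum_le_card_nsmul _ _ _ fun z _ => box cbx hg hk hm hc h1 hδ (lo z) (L z.1) z.1
    (hL z.1)).trans (le_of_eq ?_)
  rw [card_univ, Fintype.card_prod, Fintype.card_fin, Fintype.card_bool, nsmul_eq_mul]
  push_cast
  ring

end ShfA

open ShfA in
theorem shf_n : CBXStmt → SHStmt := by
  intro cbx g hg
  refine ⟨4 * (2 * g + 1) * 3 ^ (2 * g + 1), by positivity,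
    fun k K m u v σ F B δ hk hm hc hB h1 hδ hσ hF hP => ?_⟩
  rw [sum_comm, ← nsmul_eq_mul, ← nsmul_eq_mul, ← card_range K, ← sum_const, card_range,
    ← sum_sub_distrib]
  refine (abs_sum_le_sum_abs _ _).trans ((sum_le_card_nsmul _ _ _ fun i hi => ?_).trans
    (by rw [card_range]))
  have hi := mem_range.1 hi
  have h0 : ∀ w ∈ bx g k, |F w| ≤ B := fun w hw => by simpa using hF w hw 0 (by omega)
  refine (wl ((i : ℤ) • σ) (fun w => (m : ℤ) ∣ Gv w u v) hB h0 (fun w hw => hF w hw i hi)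
    hP).trans ?_
  have ht : ∀ j, |((((i : ℤ) • σ) j : ℤ) : ℝ)| ≤ δ * (k : ℝ) ^ xp g j.1 := fun j => le_trans (by
    rw [Pi.smul_apply, smul_eq_mul, Int.cast_mul, abs_mul, Int.cast_natCast, Nat.abs_cast]
    exact mul_le_mul_of_nonneg_right (Nat.cast_le.2 hi.le) (abs_nonneg _)) (hσ j)
  have s1 := mul_le_mul_of_nonneg_left
    (strip cbx hg hk hm hc h1 hδ ((i : ℤ) • σ) ((i : ℤ) • σ) ht) hB
  have s2 := mul_le_mul_of_nonneg_left
    (strip cbx hg hk hm hc h1 hδ (-((i : ℤ) • σ)) 0 fun j => by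
      rw [Pi.neg_apply, Int.cast_neg, abs_neg]; exact ht j) hB
  refine (add_le_add s1 s2).trans (le_of_eq ?_)
  ring

end Pool.Agent.MP_a43263_nt.N2
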