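import Pool.Agent.MP_a43263_nt.N2.SpecB

/-! THEOREM N2, row SHP: the shape of the matrices of a local frame. -/

set_option autoImplicit false

noncomputable section

namespace Pool.Agent.MP_a43263_nt.N2

open Polynomial Finset Filter Matrix JC Pool.Agent.MP_a43263_nt.UV K2

namespace ShpA

variable {g : ℕ} {f : ℤ[X]}

theorem detZ (hf : Zq g f) (δ : ℤ[X]) : (Gm g f δ).det = (-1) ^ g * Nm f δ := by
  have h := Gram.det (hf.sq ℚ) (zK δ ℚ)
  rw [Gm_map hf.monic, Gram.nm_map hf.monic] at h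
  apply (Int.castRingHom ℚ).injective_int
  rw [RingHom.map_det, map_mul, map_pow, map_neg, map_one]
  exact h

theorem Gm_Cx (hf : Zq g f) (δ : ℤ[X]) : Gm g f δ * Cx g f = Gm g f (δ * X) := by
  ext i j
  have e := po_ve hf.monic hf.deg (X ^ (j.1 + 1))
  have e1 : (Gm g f δ * Cx g f) i j =
      ta g f (δ * X ^ i.1 * po (ve (2 * g + 1) f (X ^ (j.1 + 1)))) := by
    simp only [mul_apply, po, mul_sum, ta_sum, Gm, Cx, of_apply, ve]
    refine sum_congr rfl fun k _ => ?_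
    rw [show ∀ c : ℤ, δ * X ^ i.1 * (C c * X ^ k.1) = C c * (δ * X ^ (i.1 + k.1)) from
      fun c => by ring, ta_C_mul, mul_comm]
  rw [e1, e, Gm, of_apply]
  refine (ta_congr hf.monic ?_).symm
  rw [show δ * X * X ^ (i.1 + j.1) - δ * X ^ i.1 * (X ^ (j.1 + 1) %ₘ f) =
    δ * X ^ i.1 * (X ^ (j.1 + 1) - X ^ (j.1 + 1) %ₘ f) by ring]
  exact (dvd_sub_mod _).mul_left _

theorem shift (hf : Zq g f) {R : ℤ[X]} {A T Γ : Mat g ℤ} (h1 : Γᵀ * A * Γ = Gm g f R)
    (h2 : T * Γ = Γ * Cx g f) (a : ℤ) :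
    Γᵀ * (A * T - a • A) * Γ = Gm g f (R * (X - C a)) := by
  have e : Γᵀ * (A * T) * Γ = Gm g f (R * X) := by
    rw [← Gm_Cx hf, ← h1]
    simp only [Matrix.mul_assoc, h2]
  rw [Matrix.mul_sub, Matrix.sub_mul, e, Matrix.mul_smul, Matrix.smul_mul, h1]
  ext i j
  simp only [Gm, Matrix.sub_apply, Matrix.smul_apply, of_apply, smul_eq_mul]
  rw [← ta_C_mul, ← ta_sub]
  congr 1
  ring

theorem map3 {R S : Type} [CommRing R] [CommRing S] (φ : R →+* S) (P A : Mat g R) :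
    (Pᵀ * A * P).map φ = (P.map φ)ᵀ * A.map φ * P.map φ := by
  rw [Matrix.map_mul, Matrix.map_mul, transpose_map]

theorem det3 {R : Type} [CommRing R] (P A : Mat g R) : (Pᵀ * A * P).det = P.det ^ 2 * A.det := by
  rw [det_mul, det_mul, det_transpose]
  ring

theorem comp3 {R : Type} [CommRing R] (P Q A : Mat g R) :
    (P * Q)ᵀ * A * (P * Q) = Qᵀ * (Pᵀ * A * P) * Q := by
  rw [transpose_mul]
  simp only [Matrix.mul_assoc]

theorem det_mK (A : Mat g ℤ) (R : Type) [CommRing R] : (mK A R).det = (A.det : R) :=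
  ((Int.castRingHom R).map_det A).symm

theorem sq_div {F : Type} [Field F] {x y : F} (hy : IsSquare y) (y0 : y ≠ 0)
    (h : IsSquare (x * y)) : IsSquare x := by
  obtain ⟨s, rfl⟩ := hy
  obtain ⟨z, hz⟩ := h
  have : s ≠ 0 := left_ne_zero_of_mul y0
  exact ⟨z / s, by rw [div_mul_div_comm, ← hz, mul_div_cancel_right₀ _ y0]⟩

variable {p : ℕ} [Fact p.Prime]

theorem ne_of {z : ℤ} (h : ¬(p : ℤ) ∣ z) : (z : ZMod p) ≠ 0 :=
  fun e => h ((ZMod.intCast_zmod_eq_zero_iff_dvd z p).1 e)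

theorem nd_of {z : ℤ} (h : (z : ZMod p) ≠ 0) : ¬(p : ℤ) ∣ z :=
  fun e => h ((ZMod.intCast_zmod_eq_zero_iff_dvd z p).2 e)

theorem unit_iff (x : ℤ_[p]) : IsUnit x ↔ PadicInt.toZMod x ≠ 0 := by
  rw [Ne, ← RingHom.mem_ker, PadicInt.ker_toZMod, IsLocalRing.mem_maximalIdeal, mem_nonunits_iff,
    not_not]

theorem appr (x : ℤ_[p]) : ∃ z : ℤ, PadicInt.toZModPow 2 x = z ∧ PadicInt.toZMod x = z := by
  obtain ⟨z, hz⟩ := ZMod.intCast_surjective (PadicInt.toZModPow 2 x)
  refine ⟨z, hz.symm, ?_⟩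
  have h : x - z ∈ RingHom.ker (PadicInt.toZModPow 2 : ℤ_[p] →+* ZMod (p ^ 2)) := by
    rw [RingHom.mem_ker, map_sub, map_intCast, hz, sub_self]
  rw [PadicInt.ker_toZModPow, Ideal.mem_span_singleton] at h
  obtain ⟨y, hy⟩ := h
  have := congrArg PadicInt.toZMod hy
  rwa [map_sub, map_intCast, map_mul, map_pow, map_natCast, ZMod.natCast_self, zero_pow two_ne_zero,
    zero_mul, sub_eq_zero] at this

theorem cop {r : ℤ[X]} {t : ℤ} (ht : ¬(p : ℤ) ∣ t)
    (h : IsCoprime (zK r (ZMod p)) (zK f (ZMod p))) :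
    IsCoprime (zK (C (t ^ 2) * r) (ZMod p)) (zK f (ZMod p)) := by
  rw [zK, Polynomial.map_mul, map_C]
  refine (isCoprime_mul_unit_left_left (isUnit_C.2 (IsUnit.mk0 _ ?_)) _ _).2 h
  rw [map_pow]
  exact pow_ne_zero _ (ne_of ht)

theorem sq_ev {r : ℤ[X]} {a : ℤ} (t : ℤ) (h : IsSquare (((r.eval a : ℤ)) : ZMod p)) :
    IsSquare ((zK (C (t ^ 2) * r) (ZMod p)).eval (a : ZMod p)) := by
  have e := eval_intCast_map (Int.castRingHom (ZMod p)) (C (t ^ 2) * r) a
  rw [Int.cast_id] at e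
  rw [e, eval_mul, eval_C, map_mul, map_pow]
  exact (IsSquare.sq _).mul h

theorem nm_ne (hf : Zq g f) {r : ℤ[X]} (h : IsCoprime (zK r (ZMod p)) (zK f (ZMod p))) :
    ((Nm f r : ℤ) : ZMod p) ≠ 0 := by
  have := ((gram.1 (ZMod p) _ (hf.mo _)).2.2.2.1 _).2 h
  rw [Gram.nm_map hf.monic] at this
  exact this.ne_zero

theorem dvd_pw {a : ℤ} (h : Rt p f a) :
    zK f (ZMod p) ∣ zK (pw p f a * (X - C a)) (ZMod p) := by
  have e := congrArg (Polynomial.map (Int.castRingHom (ZMod p))) (modByMonic_add_div f (X - C a))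
  rw [modByMonic_X_sub_C_eq_C_eval, Polynomial.map_add, map_C,
    show Int.castRingHom (ZMod p) (f.eval a) = 0 from
      (ZMod.intCast_zmod_eq_zero_iff_dvd _ p).2 h.1, C_0, zero_add, Polynomial.map_mul] at e
  refine ⟨(zK (f /ₘ (X - C a)) (ZMod p)) ^ 2, ?_⟩
  rw [zK, zK, ← e, pw, Polynomial.map_mul, Polynomial.map_add, Polynomial.map_pow,
    Polynomial.map_mul, map_C, map_natCast, ZMod.natCast_self, C_0, zero_mul, add_zero]
  ring

end ShpA

open ShpA in
theorem shp_n : NGMStmt → SHZStmt → SHPStmt := by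
  intro _ shz p g f r a A T hp hf hr
  have : Fact p.Prime := ⟨hp⟩
  refine ⟨?_, fun h2 hrt hsq hA => ⟨?_, ?_⟩⟩
  · rintro ⟨Γ, t, -, ht, h1, -⟩ hd
    have e := congrArg det h1
    rw [det3, detZ hf] at e
    have e' := congrArg (Int.cast : ℤ → ZMod p) e
    rw [Int.cast_mul, (ZMod.intCast_zmod_eq_zero_iff_dvd _ p).2 hd, mul_zero, Int.cast_mul] at e'
    refine mul_ne_zero ?_ (nm_ne hf (cop ht hr)) e'.symm
    simp
  · rintro ⟨Γ, t, hΓ, ht, h1, h3⟩
    obtain ⟨w, e, P, hP, hw, he, s1, -, s2, -⟩ := shz p g f a (zK (C (t ^ 2) * r) ℤ_[p]) h2 hf hrt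
      (by rw [rq_zK]; exact cop ht hr)
    rw [← Polynomial.map_mul, Gm_map hf.monic, mul_assoc (C (t ^ 2)), ← h1, map3, ← comp3] at s2
    have hu : IsUnit (mK Γ ℤ_[p] * P).det := by
      rw [det_mul, det_mK]
      exact ((unit_iff _).2 (by rw [map_intCast]; exact ne_of hΓ)).mul hP
    generalize mK Γ ℤ_[p] * P = G at s2 hu
    have hd := congrArg det s2
    rw [det3, det_mK, det_diagonal, Fin.prod_univ_succ] at hd
    simp only [Fin.cons_zero, Fin.cons_succ, prod_mul_distrib, prod_const, card_univ,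
      Fintype.card_fin] at hd
    have hv : IsUnit (w * ∏ i, e i) := hw.mul (IsUnit.prod_univ_iff.2 he)
    have p0 : (p : ℤ_[p]) ≠ 0 := Nat.cast_ne_zero.2 hp.ne_zero
    refine ⟨?_, fun i j => ?_, ?_, fun hn => ?_⟩
    · choose Γ₁ g1 g2 using fun i j => appr (G i j)
      choose e₀ e1 e2 using fun i => appr (e i)
      obtain ⟨w₀, w1, w2⟩ := appr w
      refine ⟨Matrix.of Γ₁, w₀, e₀, nd_of ?_, nd_of (w2 ▸ (unit_iff w).1 hw),
        fun i => nd_of (e2 i ▸ (unit_iff _).1 (he i)), ?_, fun i j => ?_⟩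
      · rw [← det_mK, show mK (Matrix.of Γ₁) (ZMod p) = G.map PadicInt.toZMod from
          Matrix.ext fun i j => (g2 i j).symm]
        exact PadicInt.toZMod.map_det G ▸ (unit_iff _).1 hu
      · obtain ⟨m, hm⟩ := Rat.isSquare_intCast_iff.1 hA
        have hm' := congrArg (Int.cast : ℤ → ℤ_[p]) hm
        rw [Int.cast_mul, Int.cast_mul, Int.cast_pow, Int.cast_neg, Int.cast_one] at hm'
        have k1 : (G.det * m) ^ 2 = ((p : ℤ_[p]) ^ g) ^ 2 * ((-1) ^ g * (∏ i, e i) * w) := by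
          linear_combination (-1) ^ g * hd - G.det ^ 2 * hm'
        obtain ⟨y, hy⟩ := (IsIntegrallyClosed.pow_dvd_pow_iff two_ne_zero).1 ⟨_, k1⟩
        rw [hy, mul_pow] at k1
        have k2 := congrArg PadicInt.toZMod
          (mul_left_cancel₀ (pow_ne_zero _ (pow_ne_zero _ p0)) k1)
        refine sq_div (s1.2 (by rw [rq_zK]; exact sq_ev t hsq)) ((unit_iff w).1 hw) ?_
        simp only [map_mul, map_pow, map_neg, map_one, map_prod, e2] at k2
        push_cast
        rw [← k2]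
        exact IsSquare.sq _
      · have k1 := congrArg (fun M : Mat g ℤ_[p] => M.map (PadicInt.toZModPow 2) i j) s2
        have k2 : G.map (PadicInt.toZModPow 2) = mK (Matrix.of Γ₁) (ZMod (p ^ 2)) :=
          Matrix.ext fun i j => g1 i j
        have k3 : (mK A ℤ_[p]).map (PadicInt.toZModPow 2) = mK A (ZMod (p ^ 2)) :=
          Matrix.ext fun i j => map_intCast (PadicInt.toZModPow 2) (A i j)
        simp only [map3, k2, k3] at k1
        rw [← map3] at k1
        rw [← Nat.cast_pow, ← ZMod.intCast_zmod_eq_zero_iff_dvd, Matrix.sub_apply, Int.cast_sub,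
          sub_eq_zero]
        refine k1.trans ?_
        rw [map_apply, diagonal_apply, diagonal_apply]
        split_ifs
        · refine Fin.cases ?_ (fun i => ?_) i
          · simpa using w1
          · simp [e1]
        · simp
    · have k1 := congrArg (fun M : Mat g ℤ => mK M (ZMod p)) (shift hf h1 h3 a)
      have k2 : IsUnit (mK Γ (ZMod p)) :=
        (isUnit_iff_isUnit_det _).2 (by rw [det_mK]; exact IsUnit.mk0 _ (ne_of hΓ))
      have k3 : mK (Gm g f (C (t ^ 2) * (r * pw p f a) * (X - C a))) (ZMod p) = 0 := by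
        rw [mK, ← Gm_map hf.monic]
        ext i j
        refine ta_dvd (hf.mo _) (Dvd.dvd.mul_right ?_ _)
        rw [← mul_assoc, mul_assoc _ _ (X - C a), Polynomial.map_mul]
        exact (dvd_pw hrt).mul_left _
      simp only [k3] at k1
      rw [mK, map3, k2.mul_left_eq_zero, ((isUnit_transpose _).2 k2).mul_right_eq_zero] at k1
      exact (ZMod.intCast_zmod_eq_zero_iff_dvd _ p).1 (congrFun (congrFun k1 i) j)
    · rw [← PadicInt.pow_p_dvd_int_iff, ← (hu.pow 2).dvd_mul_left, hd]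
      exact (dvd_mul_right _ _).mul_left _
    · rw [← PadicInt.pow_p_dvd_int_iff, ← (hu.pow 2).dvd_mul_left, hd, mul_left_comm, pow_succ,
        mul_dvd_mul_iff_left (pow_ne_zero _ p0)] at hn
      obtain ⟨y, hy⟩ := hn
      exact (unit_iff _).1 hv (by rw [hy, map_mul, map_natCast, ZMod.natCast_self, zero_mul])
  · rintro ⟨Γ, t, hΓ, ht, h1, h3⟩
    obtain ⟨w, e, P, hP, hw, he, s1, s3, -, s2⟩ := shz p g f a (zK (C (t ^ 2) * r) ℤ_[p]) h2 hf hrt
      (by rw [rq_zK]; exact cop ht hr)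
    have k0 : zK (C (t ^ 2) * r) (ZMod p) * (X - C (a : ZMod p)) =
        zK (C (t ^ 2) * r * (X - C a)) (ZMod p) := by
      rw [zK, zK, Polynomial.map_mul _ (p := C (t ^ 2) * r), Polynomial.map_sub, map_X, map_C]
      rfl
    rw [rq_zK, k0, Gm_map hf.monic, ← shift hf h1 h3 a, map3, ← comp3] at s2
    refine ⟨_, _, ?_, fun i => (he i).map _, ?_, s2⟩
    · rw [det_mul]
      exact (det_mK Γ (ZMod p) ▸ IsUnit.mk0 _ (ne_of hΓ)).mul
        (PadicInt.toZMod.map_det P ▸ hP.map PadicInt.toZMod)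
    · obtain ⟨m, hm⟩ := Rat.isSquare_intCast_iff.1 hA
      have k1 := congrArg det h1
      rw [det3, detZ hf] at k1
      have k2 : Nm f (C (t ^ 2) * r) = (Γ.det * m) ^ 2 := by
        have k3 : ((-1 : ℤ) ^ g) ^ 2 = 1 := by rw [← pow_mul, mul_comm, pow_mul]; simp
        linear_combination Γ.det ^ 2 * hm - (-1) ^ g * k1 - Nm f (C (t ^ 2) * r) * k3
      rw [Gram.nm_map hf.monic] at s3
      simp only [map_mul, map_pow, map_neg, map_one, map_prod, eq_intCast, map_intCast] at s3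
      refine sq_div (s1.2 (by rw [rq_zK]; exact sq_ev t hsq)) ((unit_iff w).1 hw)
        (sq_div (y := ((Nm f (C (t ^ 2) * r) : ℤ) : ZMod p)) ?_ (nm_ne hf (cop ht hr)) ?_)
      · rw [k2, Int.cast_pow]
        exact IsSquare.sq _
      · rw [mul_right_comm ((-1 : ZMod p) ^ g)]
        simpa using s3

end Pool.Agent.MP_a43263_nt.N2
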