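import Pool.Agent.MP_a43263_nt.N2.SpecB

/-! THEOREM N2: the shape of the local forms at a simple root. -/

set_option autoImplicit false

noncomputable section

namespace Pool.Agent.MP_a43263_nt.N2

open Polynomial Finset Matrix JC Pool.Agent.MP_a43263_nt.UV K2 Locq

namespace ShzA

section ring
variable {R : Type} [CommRing R] {g : ℕ}

theorem Gn_cg {f ν ν' : R[X]} (hf : f.Monic) (n : ℕ) (c : R) (h : f ∣ ν - C c * ν') :
    Gn n g f ν = c • Gn n g f ν' := by
  ext i j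
  simp only [Gn, of_apply, Matrix.smul_apply, smul_eq_mul]
  rw [← ta_C_mul]
  exact ta_congr hf (by rw [← mul_assoc, ← sub_mul]; exact h.mul_right _)

/-- one basis splits all the forms -/
theorem blk [Nontrivial R] (α : R) {f h : R[X]} (hm : h.Monic) (dh : h.natDegree = 2 * g)
    (hf : f = (X - C α) * h) (P1 : Matrix (Fin (2 * g)) (Fin (2 * g)) R) :
    ∃ P : Mat g R, ∀ (δ : R[X]) (e : Fin (2 * g) → R),
      P1ᵀ * Gn (2 * g) g f (δ * (X - C α) ^ 2) * P1 = diagonal e →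
      Pᵀ * Gm g f δ * P = diagonal (Fin.cons ((δ * h).eval α) e : Fin (2 * g + 1) → R) := by
  have fm : f.Monic := hf ▸ (monic_X_sub_C α).mul hm
  have fd : f.natDegree = 2 * g + 1 := by
    rw [hf, (monic_X_sub_C α).natDegree_mul hm, natDegree_X_sub_C, dh, add_comm]
  obtain ⟨b, hb⟩ : ∃ b : Fin (2 * g + 1) → R[X],
      b = Fin.cons h fun i => (X - C α) * po fun k => P1 k i := ⟨_, rfl⟩
  refine ⟨Matrix.of fun k j => ve _ f (b j) k, fun δ e he => ?_⟩
  ext i j
  have hP : ((Matrix.of fun k j => ve _ f (b j) k : Mat g R)ᵀ * Gm g f δ *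
      (Matrix.of fun k j => ve _ f (b j) k : Mat g R)) i j = ta g f (δ * b i * b j) := by
    rw [conj_apply, Gm_form]
    change ta g f (δ * po (ve _ f (b i)) * po (ve _ f (b j))) = _
    rw [po_ve fm fd, po_ve fm fd]
    refine (ta_congr fm ?_).symm
    rw [show δ * b i * b j - δ * (b i %ₘ f) * (b j %ₘ f) =
      (b i - b i %ₘ f) * (δ * b j) + (b j - b j %ₘ f) * (δ * (b i %ₘ f)) by ring]
    exact dvd_add ((dvd_sub_mod _).mul_right _) ((dvd_sub_mod _).mul_right _)
  rw [hP, hb]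
  refine Fin.cases ?_ (fun i => ?_) i <;> refine Fin.cases ?_ (fun j => ?_) j <;>
    simp only [Fin.cons_zero, Fin.cons_succ]
  · rw [diagonal_apply_eq, Fin.cons_zero, ta_congr fm (Q := C ((δ * h).eval α) * h), ta_C_mul,
      ta_of_lt fm, ← dh, hm.coeff_natDegree, mul_one]
    · rw [degree_eq_natDegree fm.ne_zero, degree_eq_natDegree hm.ne_zero, fd, dh]
      exact_mod_cast Nat.lt_succ_self _
    · rw [← sub_mul, hf]
      exact mul_dvd_mul_right X_sub_C_dvd_sub_C_eval _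
  · rw [diagonal_apply_ne _ (Fin.succ_ne_zero j).symm]
    exact ta_dvd fm ⟨δ * po fun k => P1 k j, by rw [hf]; ring⟩
  · rw [diagonal_apply_ne _ (Fin.succ_ne_zero i)]
    exact ta_dvd fm ⟨δ * po fun k => P1 k i, by rw [hf]; ring⟩
  · have h1 := congrFun (congrFun he i) j
    rw [conj_apply, Gn_form] at h1
    rw [show δ * ((X - C α) * po fun k => P1 k i) * ((X - C α) * po fun k => P1 k j) =
      δ * (X - C α) ^ 2 * (po fun k => P1 k i) * po fun k => P1 k j by ring, h1]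
    by_cases c : i = j
    · rw [c, diagonal_apply_eq, diagonal_apply_eq, Fin.cons_succ]
    · rw [diagonal_apply_ne _ c, diagonal_apply_ne _ fun d => c (Fin.succ_injective _ d)]

end ring

/-- the block is nondegenerate -/
theorem det_ne' {F : Type} [Field F] {g : ℕ} (a : F) {h ν : F[X]} (hm : h.Monic)
    (hd : h.natDegree = 2 * g) (hr : IsCoprime ν h) :
    (Gn (2 * g) g ((X - C a) * h) (ν * (X - C a))).det ≠ 0 := by
  classical
  intro e
  obtain ⟨v, v0, hv⟩ := Matrix.exists_mulVec_eq_zero_iff.2 e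
  have q0 : po v ≠ 0 := fun c => v0 (po_inj hm hd (c ▸ dvd_zero _))
  have q1 : (po v).natDegree < 2 * g := (natDegree_lt_iff_degree_lt q0).2 (po_degree v)
  obtain ⟨k, hk⟩ : ∃ k, 2 * g = 1 + k + (po v).natDegree := ⟨2 * g - 1 - (po v).natDegree, by omega⟩
  obtain ⟨u, w, c3⟩ := hr
  have hf : ((X - C a) * h).Monic := (monic_X_sub_C a).mul hm
  have m1 : ((X - C a) * X ^ k : F[X]).Monic := (monic_X_sub_C a).mul (monic_X_pow k)
  have m2 : ((X - C a) * X ^ k * po v).natDegree = 2 * g := by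
    rw [m1.natDegree_mul' q0, (monic_X_sub_C a).natDegree_mul (monic_X_pow k), natDegree_X_sub_C,
      natDegree_X_pow, ← hk]
  have h1 := Gn_form (g := g) (f := (X - C a) * h) (ν * (X - C a)) (ve (2 * g) h (u * X ^ k)) v
  have m3 := coeff_natDegree (p := (X - C a) * X ^ k * po v)
  rw [m2, leadingCoeff_monic_mul m1] at m3
  rw [hv, dotProduct_zero, po_ve hm hd, ta_congr hf (Q := (X - C a) * X ^ k * po v), ta_of_lt hf,
    m3] at h1
  · exact q0 (leadingCoeff_eq_zero.1 h1.symm)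
  · refine degree_lt_degree ?_
    rw [m2, (monic_X_sub_C a).natDegree_mul hm, natDegree_X_sub_C, hd]
    omega
  · obtain ⟨z, hz⟩ := dvd_sub_mod (f := h) (u * X ^ k)
    refine ⟨-(ν * po v * z) - w * X ^ k * po v, ?_⟩
    linear_combination ((X - C a) * X ^ k * po v) * c3 - (ν * (X - C a) * po v) * hz

theorem nm {F : Type} [Field F] {g : ℕ} (a : F) {h : F[X]} (hm : h.Monic)
    (hd : h.natDegree = 2 * g) : Nm ((X - C a) * h) (h + (X - C a)) = h.eval a * h.eval a := by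
  rw [(gram.1 F _ (monic_X_sub_C a)).2.2.2.2.1 h hm,
    (gram.1 F h hm).2.1 _ (X - C a) (by rw [add_sub_cancel_right])]
  unfold Nm
  rw [natDegree_X_sub_C, resultant_X_sub_C_left _ _ _ le_rfl, resultant_X_sub_C_right _ _ _ le_rfl,
    hd, pow_mul]
  simp

variable {p : ℕ} [Fact p.Prime]

theorem detG {g : ℕ} {f : ℤ[X]} (hf : Zq g f) (r : ℤ_[p][X]) :
    (Gm g (zK f ℤ_[p]) r).det = (-1) ^ g * Nm (zK f ℤ_[p]) r := by
  have inj : Function.Injective (PadicInt.Coe.ringHom (p := p)) := Subtype.val_injective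
  apply inj
  have h3 := (gram.2 _ g _ (hf.sq ℚ_[p])).1 (iq p r)
  rw [Gm_iq hf, ← RingHom.mapMatrix_apply, ← RingHom.map_det, ← iq_zK,
    (gram.1 _ _ (hf.mo _)).2.2.2.2.2] at h3
  rw [h3, map_mul, map_pow, map_neg, map_one]

theorem rdv (α : ℤ_[p]) (q : ℤ_[p][X]) :
    PadicInt.toZMod (q.eval α) = (rq p q).eval (PadicInt.toZMod α) := by
  rw [← eval₂_at_apply, ← eval_map]

end ShzA

open ShzA

theorem shz_n : HENStmt → SHZStmt := by
  intro hen p _ g f a r hp hf hR hr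
  obtain ⟨α, h, t, H⟩ := hen p g f a hf hR
  have hm := hf.mo ℤ_[p]
  have dh : h.natDegree = 2 * g := by
    have hdg := hf.dg ℤ_[p]
    rw [H.eq, (monic_X_sub_C α).natDegree_mul H.monic, natDegree_X_sub_C] at hdg
    omega
  have e3 : zK f (ZMod p) = (X - C (a : ZMod p)) * rq p h := by
    rw [← rq_zK, H.eq]; simp [rq, H.red]
  have m1 : (rq p h).Monic := H.monic.map _
  have d1 : (rq p h).natDegree = 2 * g := by rw [H.monic.natDegree_map, dh]
  have c1 : IsCoprime (X - C (a : ZMod p)) (rq p h) :=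
    (irreducible_X_sub_C _).coprime_iff_not_dvd.2 fun c => H.ne (dvd_iff_isRoot.1 c)
  have r0 : (rq p r).eval (a : ZMod p) ≠ 0 := fun c => by
    obtain ⟨y, z, hy⟩ := hr
    simpa [c, e3] using congrArg (eval (a : ZMod p)) hy
  have un := H.un
  have hM : IsUnit (Gn (2 * g) g (zK f ℤ_[p]) (r * t * (X - C α) ^ 2)).det := by
    rw [unit_iff, RingHom.map_det, RingHom.mapMatrix_apply, ← Gn_map hm]
    have := det_ne' (a : ZMod p) m1 d1
      ((e3 ▸ hr).of_mul_right_right.mul_left (c1.pow_left (m := 2)))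
    rw [← e3, ← rq_zK] at this
    rw [show (r * t * (X - C α) ^ 2 : ℤ_[p][X]).map PadicInt.toZMod =
      rq p r * (X - C (a : ZMod p)) ^ 2 * (X - C (a : ZMod p)) by
        rw [Polynomial.map_mul, Polynomial.map_mul, Polynomial.map_pow, Polynomial.map_sub, map_X,
          map_C, H.red, show t.map PadicInt.toZMod = _ from un]
        ring]
    exact this
  obtain ⟨e, ⟨P1, -, hP1⟩, he⟩ := diag _ (two_unit hp) _ _ (Gn_symm _ _) hM
  obtain ⟨P, hP⟩ := blk α H.monic dh H.eq P1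
  have k1 := hP _ e hP1
  have k2 := hP (r * (h + t)) e (by
    rw [Gn_cg hm _ 1 (ν' := r * t * (X - C α) ^ 2) ⟨r * (X - C α), by rw [H.eq, C_1]; ring⟩,
      one_smul, hP1])
  have k3 := hP (r * zK (pw p f a) ℤ_[p]) (fun i => p * e i) (by
    obtain ⟨z, hz⟩ := H.pi
    rw [Gn_cg hm _ (p : ℤ_[p]) (ν' := r * t * (X - C α) ^ 2) ⟨r * (X - C α) * z, by
      rw [H.eq]; linear_combination (r * (X - C α) ^ 2) * hz⟩, Matrix.mul_smul, Matrix.smul_mul,
      hP1, ← diagonal_smul]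
    rfl)
  have w1 : PadicInt.toZMod ((r * zK (pw p f a) ℤ_[p] * h).eval α) =
      (rq p r).eval (a : ZMod p) * ((rq p h).eval (a : ZMod p) ^ 2) ^ 2 := by
    rw [eval_mul, eval_mul, map_mul, map_mul, H.val, rdv, rdv, H.red]
    ring
  have t0 : PadicInt.toZMod (t.eval α) = 0 := by rw [rdv, H.red, un]; simp
  have n1 : PadicInt.toZMod (Nm (zK f ℤ_[p]) (h + t)) =
      (rq p h).eval (a : ZMod p) * (rq p h).eval (a : ZMod p) := by
    rw [← (gram.1 _ _ hm).2.2.2.2.2, zK_map, e3, Polynomial.map_add,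
      show t.map PadicInt.toZMod = _ from un]
    exact nm _ m1 d1
  have k4 := congrArg (fun M => PadicInt.toZMod (det M)) k2
  simp only [det_mul, det_transpose, det_diagonal, detG hf, (gram.1 _ _ hm).1, Fin.prod_univ_succ,
    Fin.cons_zero, Fin.cons_succ, eval_mul, eval_add, map_mul, map_add, n1, t0, rdv α r, rdv α h,
    H.red] at k4
  have E0 : PadicInt.toZMod (∏ i, e i) ≠ 0 := unit_iff.1 (IsUnit.prod_univ_iff.2 he)
  have h0 := H.ne
  refine ⟨_, e, P, unit_iff.2 fun c => ?_, unit_iff.2 ?_, he, ?_, ?_, k3, ?_⟩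
  · rw [c, zero_mul, zero_mul, add_zero] at k4
    exact mul_ne_zero (mul_ne_zero (mul_ne_zero r0 h0) h0) E0 k4.symm
  · rw [w1]
    exact mul_ne_zero r0 (pow_ne_zero _ (pow_ne_zero _ h0))
  · rw [w1]
    refine ⟨fun ⟨z, hz⟩ => ⟨z / (rq p h).eval (a : ZMod p) ^ 2, ?_⟩,
      fun c => c.mul (IsSquare.sq _)⟩
    field_simp
    linear_combination hz
  · rw [map_mul, map_mul, map_mul, w1]
    refine ⟨PadicInt.toZMod ((-1 : ℤ_[p]) ^ g) * (rq p h).eval (a : ZMod p) ^ 2 *
      PadicInt.toZMod (Nm (zK f ℤ_[p]) r) * PadicInt.toZMod P.det, ?_⟩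
    linear_combination (-(PadicInt.toZMod ((-1 : ℤ_[p]) ^ g) * (rq p h).eval (a : ZMod p) ^ 2 *
      PadicInt.toZMod (Nm (zK f ℤ_[p]) r))) * k4
  · rw [← un, ← Polynomial.map_mul, ← rq_zK, Gm_map hm, ← transpose_map, ← Matrix.map_mul,
      ← Matrix.map_mul, k1, diagonal_map (map_zero _)]
    congr 1
    funext i
    refine Fin.cases ?_ (fun i => rfl) i
    rw [Fin.cons_zero, Fin.cons_zero, eval_mul, eval_mul, map_mul, map_mul, t0, mul_zero, zero_mul]

end Pool.Agent.MP_a43263_nt.N2
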