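import Pool.Agent.MP_a43263_nt.N2.SpecC

/-! THEOREM N2: sizes of the values. -/

set_option autoImplicit false

noncomputable section

namespace Pool.Agent.MP_a43263_nt.N2

open Finset Filter K2

namespace SizA

theorem sum_near {n : ℕ} (f : Fin n → ℤ) (i₀ : Fin n) {B : ℤ} (hB : 0 ≤ B)
    (h : ∀ i, i ≠ i₀ → |f i| ≤ B) : |∑ i, f i - f i₀| ≤ n * B := by
  rw [← add_sum_erase univ f (mem_univ i₀), add_sub_cancel_left]
  refine (abs_sum_le_sum_abs _ _).trans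
    ((sum_le_card_nsmul _ _ B fun i hi => h i (ne_of_mem_erase hi)).trans ?_)
  rw [nsmul_eq_mul]
  refine mul_le_mul_of_nonneg_right ?_ hB
  exact_mod_cast (card_le_univ _).trans (Fintype.card_fin n).le

variable {g k : ℕ} {w : Vec g}

theorem abs_le8 (hw : w ∈ bx g k) (i : Fin (2 * g + 1)) : |w i| ≤ 8 * (k : ℤ) ^ xp g i.1 := by
  obtain ⟨a, b⟩ := mem_bx.1 hw i
  have : (0 : ℤ) ≤ (k : ℤ) ^ xp g i.1 := by positivity
  unfold ce at a b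
  rw [abs_le]
  split_ifs at a b <;> constructor <;> linarith

theorem big (hw : w ∈ bx g k) (i : Fin (2 * g + 1)) (h : Odd i.1 ∨ i.1 = 2 * g) :
    6 * (k : ℤ) ^ xp g i.1 ≤ w i ∧ w i ≤ 8 * (k : ℤ) ^ xp g i.1 := by
  obtain ⟨a, b⟩ := mem_bx.1 hw i
  rw [ce, if_pos h] at a b
  constructor <;> linarith

theorem pw {u P : ℤ} (hu : 0 ≤ u) (hP : u ≤ P) {j : ℕ} (hj : 1 ≤ j) :
    |(-u ^ 2) ^ j| ≤ P ^ (2 * (j - 1)) * u ^ 2 := by
  rw [abs_pow, abs_neg, abs_of_nonneg (sq_nonneg u), ← pow_mul,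
    show 2 * j = 2 * (j - 1) + 2 by omega, pow_add]
  gcongr

theorem tm (hw : w ∈ bx g k) {u v : ℤ} (hu : 0 ≤ u) (hv : 0 ≤ v) (hP : u ≤ (k : ℤ) * v)
    (i : Fin (2 * g + 1)) (hi : i.1 ≠ 2 * g) {j n : ℕ} (hj : 1 ≤ j)
    (hn : n = 2 * (i.1 + 1) + 2 * (j - 1)) :
    |sv w i * (-u ^ 2) ^ j * (v ^ 2) ^ (i.1 + 1)| ≤ 8 * (((k : ℤ) * v) ^ n * u ^ 2) := by
  have a := abs_le8 hw i
  rw [xp, if_neg hi] at a
  have b := pw hu hP hj
  have d : (0 : ℤ) ≤ v ^ (2 * (i.1 + 1)) := by positivity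
  rw [sv, if_neg hi, abs_mul, abs_mul, ← pow_mul v, abs_of_nonneg d]
  calc |w i| * |(-u ^ 2) ^ j| * v ^ (2 * (i.1 + 1))
      ≤ 8 * (k : ℤ) ^ (2 * (i.1 + 1)) * (((k : ℤ) * v) ^ (2 * (j - 1)) * u ^ 2) *
        v ^ (2 * (i.1 + 1)) := by gcongr
    _ = _ := by rw [hn, pow_add ((k : ℤ) * v), mul_pow _ v (2 * (i.1 + 1))]; ring

theorem gv (hw : w ∈ bx g k) {u v : ℤ} (hu : 0 ≤ u) (hv : 0 ≤ v) (hP : u ≤ (k : ℤ) * v)
    (hU : (16 * g + 9) * u ^ 2 ≤ ((k : ℤ) * v) ^ 2) :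
    35 * ((k : ℤ) * v) ^ (4 * g + 2) ≤ Gv w u v ∧ Gv w u v ≤ 65 * ((k : ℤ) * v) ^ (4 * g + 2) := by
  have hU0 : (0 : ℤ) ≤ u ^ (4 * g + 2) := by positivity
  have h1 := sum_near (fun i : Fin (2 * g + 1) =>
      sv w i * (-u ^ 2) ^ (2 * g - i.1) * (v ^ 2) ^ (i.1 + 1)) (Fin.last _)
    (B := 8 * (((k : ℤ) * v) ^ (4 * g) * u ^ 2)) (by positivity) fun i hi => by
      have : i.1 < 2 * g := Fin.val_lt_last hi
      exact tm hw hu hv hP i this.ne (by omega) (by omega)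
  obtain ⟨a, b⟩ := big hw (Fin.last _) (Or.inr rfl)
  simp only [Fin.val_last, Nat.sub_self, pow_zero, mul_one, sv, if_true, xp] at h1 a b
  have h2 : (-u ^ 2) ^ (2 * g + 1) = -u ^ (4 * g + 2) := by
    rw [Odd.neg_pow ⟨g, rfl⟩, ← pow_mul]; congr 2; ring
  have h3 : ((k : ℤ) * v) ^ (4 * g + 2) = ((k : ℤ) ^ (2 * g + 1)) ^ 2 * (v ^ 2) ^ (2 * g + 1) := by
    rw [mul_pow, ← pow_mul, ← pow_mul]; congr 2 <;> ring
  have h4 : (16 * g + 9) * (((k : ℤ) * v) ^ (4 * g) * u ^ 2) ≤ ((k : ℤ) * v) ^ (4 * g + 2) :=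
    calc _ = ((k : ℤ) * v) ^ (4 * g) * ((16 * g + 9) * u ^ 2) := by ring
      _ ≤ ((k : ℤ) * v) ^ (4 * g) * ((k : ℤ) * v) ^ 2 := by gcongr
      _ = _ := by rw [← pow_add]
  have h5 : u ^ (4 * g + 2) ≤ ((k : ℤ) * v) ^ (4 * g) * u ^ 2 := by
    rw [pow_add]
    gcongr
  have k0 : (0 : ℤ) ≤ (k : ℤ) ^ (2 * g + 1) := by positivity
  have v0 : (0 : ℤ) ≤ (v ^ 2) ^ (2 * g + 1) := by positivity
  have h6 : 36 * ((k : ℤ) * v) ^ (4 * g + 2) ≤ w (Fin.last _) ^ 2 * (v ^ 2) ^ (2 * g + 1) := by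
    rw [h3, ← mul_assoc]
    exact mul_le_mul_of_nonneg_right (by nlinarith) v0
  have h7 : w (Fin.last _) ^ 2 * (v ^ 2) ^ (2 * g + 1) ≤ 64 * ((k : ℤ) * v) ^ (4 * g + 2) := by
    rw [h3, ← mul_assoc]
    exact mul_le_mul_of_nonneg_right (by nlinarith) v0
  obtain ⟨c, d⟩ := abs_le.1 h1
  push_cast at c d
  simp only [Gv, sv, h2]
  constructor <;> linarith

theorem gx (hg : 1 ≤ g) (hw : w ∈ bx g k) {u v : ℤ} (hu : 0 ≤ u) (hv : 1 ≤ v) (hk : 1 ≤ (k : ℤ))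
    (hP : u ≤ (k : ℤ) * v) (hU : (2 * g + 1) * (16 * g + 1) * u ^ 2 ≤ ((k : ℤ) * v) ^ 2)
    (hV : 9 * v ^ (4 * g) ≤ k) : 0 < Gx w u v ∧ Gx w u v ≤ (k : ℤ) ^ (4 * g + 1) := by
  have lt : 2 * g - 1 < 2 * g + 1 := by omega
  have h1 := sum_near (fun i : Fin (2 * g + 1) => ((2 * g - i.1 : ℕ) : ℤ) * sv w i *
      (-u ^ 2) ^ (2 * g - i.1 - 1) * (v ^ 2) ^ (i.1 + 1)) ⟨2 * g - 1, lt⟩
    (B := 2 * g * (8 * (((k : ℤ) * v) ^ (4 * g - 2) * u ^ 2))) (by positivity)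
    fun i hi => by
      by_cases e : i.1 = 2 * g
      · simp only [e, Nat.sub_self, Nat.cast_zero, zero_mul, abs_zero]
        positivity
      have n : i.1 ≠ 2 * g - 1 := fun c => hi (Fin.ext c)
      have := i.2
      rw [mul_assoc, mul_assoc, abs_mul, ← mul_assoc (sv w i), Nat.abs_cast]
      refine mul_le_mul ?_ (tm hw hu (by omega) hP i e (by omega) (by omega)) (abs_nonneg _)
        (by positivity)
      exact_mod_cast Nat.sub_le _ _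
  obtain ⟨a, b⟩ := big hw ⟨2 * g - 1, lt⟩ (Or.inl ⟨g - 1, by simp only; omega⟩)
  have e1 : 2 * g - 1 ≠ 2 * g := by omega
  have e2 : 2 * (2 * g - 1 + 1) = 4 * g := by omega
  have e3 : 2 * g - (2 * g - 1) = 1 := by omega
  simp only [xp, if_neg e1, e2] at a b
  have e4 : ((2 * g - (2 * g - 1) : ℕ) : ℤ) * sv w ⟨2 * g - 1, lt⟩ *
      (-u ^ 2) ^ (2 * g - (2 * g - 1) - 1) * (v ^ 2) ^ (2 * g - 1 + 1) =
        w ⟨2 * g - 1, lt⟩ * v ^ (4 * g) := by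
    rw [e3, ← pow_mul, e2, sv]
    simp only [if_neg e1]
    simp
  simp only [e4] at h1
  have h2 : (0 : ℤ) ≤ (-u ^ 2) ^ (2 * g) := Even.pow_nonneg ⟨g, by ring⟩ _
  have h3 : (-u ^ 2) ^ (2 * g) ≤ ((k : ℤ) * v) ^ (4 * g - 2) * u ^ 2 := by
    have := (le_abs_self _).trans (pw hu hP (show 1 ≤ 2 * g by omega))
    rwa [show 2 * (2 * g - 1) = 4 * g - 2 by omega] at this
  have h4 : (2 * g + 1) * (16 * g + 1) * (((k : ℤ) * v) ^ (4 * g - 2) * u ^ 2) ≤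
      (k : ℤ) ^ (4 * g) * v ^ (4 * g) :=
    calc _ = ((k : ℤ) * v) ^ (4 * g - 2) * ((2 * g + 1) * (16 * g + 1) * u ^ 2) := by ring
      _ ≤ ((k : ℤ) * v) ^ (4 * g - 2) * ((k : ℤ) * v) ^ 2 := by gcongr
      _ = _ := by rw [← pow_add, ← mul_pow]; congr 1; omega
  have v0 : (0 : ℤ) < v ^ (4 * g) := by positivity
  have k0 : (0 : ℤ) < (k : ℤ) ^ (4 * g) := by positivity
  have h5 := mul_le_mul_of_nonneg_right a v0.le
  have h6 := mul_le_mul_of_nonneg_right b v0.le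
  have h7 := mul_le_mul_of_nonneg_left hV k0.le
  have h8 := mul_le_mul_of_nonneg_left h3 (show (0 : ℤ) ≤ 2 * g + 1 by positivity)
  have h9 := mul_nonneg (show (0 : ℤ) ≤ 2 * g + 1 by positivity) h2
  have h10 := mul_pos k0 v0
  obtain ⟨c, d⟩ := abs_le.1 h1
  push_cast at c d
  rw [Gx, pow_succ (k : ℤ)]
  constructor <;> nlinarith

end SizA

theorem siz_n : SIZStmt := by
  intro g v hg hv
  filter_upwards [eventually_ge_atTop 1, eventually_ge_atTop (9 * v ^ (4 * g))]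
    with k h1 h2 w hw u hu
  have g1 : (1 : ℤ) ≤ g := by exact_mod_cast hg
  have u0 : (0 : ℤ) ≤ u := Nat.cast_nonneg _
  have u1 : (u : ℤ) ≤ 3 * k := by exact_mod_cast hu
  have v1 : 24 * ((g : ℤ) + 1) ≤ v := by exact_mod_cast hv.ge
  have k1 : (1 : ℤ) ≤ k := by exact_mod_cast h1
  have a : 8 * ((g : ℤ) + 1) * u ≤ k * v := by nlinarith
  have b : (8 * ((g : ℤ) + 1) * u) ^ 2 ≤ ((k : ℤ) * v) ^ 2 := by gcongr
  have c : (u : ℤ) ≤ k * v := by nlinarith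
  have s := sq_nonneg (u : ℤ)
  rw [mul_pow] at b
  obtain ⟨d, e⟩ := SizA.gv hw u0 (by omega) c
    ((mul_le_mul_of_nonneg_right (by nlinarith) s).trans b)
  exact ⟨d, e, SizA.gx hg hw u0 (by omega) k1 c
    ((mul_le_mul_of_nonneg_right (by nlinarith) s).trans b) (by exact_mod_cast h2)⟩

end Pool.Agent.MP_a43263_nt.N2
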