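import Pool.Agent.MP_a43263_nt.N2.SpecB

/-! The condition at a prime of `Q`. -/

set_option autoImplicit false

noncomputable section

namespace Pool.Agent.MP_a43263_nt.N2

open Polynomial Finset Matrix JC Pool.Agent.MP_a43263_nt.UV K2

namespace StqA

theorem cx_mul {g : ℕ} {f : ℤ[X]} (hf : f.Monic) (R : Type) [CommRing R]
    (c : Fin (2 * g + 1) → R) (i : Fin (2 * g + 1)) :
    (mK (Cx g f) R *ᵥ c) i = ((X * po c) %ₘ zK f R).coeff i.1 := by
  have e : X * po c = ∑ j, c j • (X : R[X]) ^ (j.1 + 1) := by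
    rw [po, mul_sum]
    refine sum_congr rfl fun j _ => ?_
    rw [smul_eq_C_mul, pow_succ]
    ring
  rw [e, ← modByMonicHom_apply, map_sum, finsetSum_coeff]
  simp only [mulVec, dotProduct, mK_apply, Cx, of_apply]
  refine sum_congr rfl fun j _ => ?_
  rw [map_smul, modByMonicHom_apply, coeff_smul, smul_eq_mul, mul_comm]
  congr 1
  have := map_modByMonic (Int.castRingHom R) (p := X ^ (j.1 + 1)) hf
  rw [Polynomial.map_pow, map_X] at this
  rw [← this, coeff_map, eq_intCast]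

end StqA

theorem stq_n : STQStmt := by
  intro q g f r A T hq hf ⟨h, e, hi, t, ht⟩ hco ⟨s, hrs⟩ ⟨Γ, u, _, hu, hG, hT⟩ hch
  have := Fact.mk hq
  have h1 : h.Monic := monic_X.of_mul_monic_left (e ▸ hf.mo (ZMod q))
  have h2 : h.natDegree = 2 * g := by
    have := hf.dg (ZMod q)
    rw [e, natDegree_X_mul h1.ne_zero] at this
    omega
  have h3 : t ≠ 0 := fun c => by
    have := degree_eq_one_of_irreducible_of_root hi (x := 0) (by rw [IsRoot.def, ht, c, mul_zero])
    have := natDegree_eq_of_degree_eq_some (n := 1) this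
    omega
  have h4 : (zK r (ZMod q)).eval 0 = s * s := by rw [eval_zero_map, eq_intCast, hrs]
  have h5 : s ≠ 0 := fun c => by
    obtain ⟨a, b, hab⟩ := hco
    have := congrArg (eval 0) hab
    rw [eval_add, eval_mul, eval_mul, h4, c, e] at this
    simp at this
  have h6 : (u : ZMod q) ≠ 0 := fun c => hu ((ZMod.intCast_zmod_eq_zero_iff_dvd u q).1 c)
  obtain ⟨c, hc⟩ : ∃ c : Fin (2 * g + 1) → ZMod q, po c = h :=
    ⟨_, po_of_lt (by rw [degree_eq_natDegree h1.ne_zero, h2]; exact_mod_cast by omega)⟩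
  refine ⟨mK T (ZMod q), (mK_mul A T).symm, by rw [charpoly_map, hch], mK Γ (ZMod q) *ᵥ c,
    u * (s * t), mul_ne_zero h6 (mul_ne_zero h5 h3), ?_, ?_⟩
  · have a1 : mK (Cx g f) (ZMod q) *ᵥ c = 0 := funext fun i => by
      rw [StqA.cx_mul hf.monic, hc, ← e, (modByMonic_eq_zero_iff_dvd (hf.mo _)).2 dvd_rfl,
        coeff_zero, Pi.zero_apply]
    rw [mulVec_mulVec, ← mK_mul, hT, mK_mul, ← mulVec_mulVec, a1, mulVec_zero]
  · have a1 : (mK Γ (ZMod q) *ᵥ c) ⬝ᵥ mK A (ZMod q) *ᵥ (mK Γ (ZMod q) *ᵥ c) =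
        c ⬝ᵥ mK (Γᵀ * A * Γ) (ZMod q) *ᵥ c := by
      rw [mK_mul, mK_mul, mK_transpose, ← mulVec_mulVec, ← mulVec_mulVec,
        dotProduct_mulVec c, vecMul_transpose]
    have a2 : X ∣ zK r (ZMod q) * h - C ((s * t) ^ 2) := by
      rw [X_dvd_iff, coeff_zero_eq_eval_zero, eval_sub, eval_mul, eval_C, ht, h4]
      ring
    rw [a1, hG, mK, ← Gm_map hf.monic, Gm_form, hc,
      ta_congr (hf.mo _) (Q := C ((u * (s * t) : ZMod q) ^ 2) * h) ?_, ta_C_mul,
      ta_of_lt (hf.mo _) (degree_lt_degree (by rw [h2, hf.dg]; omega)),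
      show h.coeff (2 * g) = 1 from h2 ▸ h1.coeff_natDegree, mul_one]
    rw [e]
    refine (mul_dvd_mul_right (a2.mul_left (C ((u : ZMod q) ^ 2))) h).trans (dvd_of_eq ?_)
    rw [Polynomial.map_mul, map_C, map_pow (Int.castRingHom (ZMod q)), eq_intCast, mul_pow (u : ZMod q),
      C_mul]
    ring

end Pool.Agent.MP_a43263_nt.N2
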