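import Pool.Agent.MP_a43263_nt.N2.SpecB

set_option autoImplicit false

noncomputable section

namespace Pool.Agent.MP_a43263_nt.N2

open Polynomial Finset Filter Matrix JC Pool.Agent.MP_a43263_nt.UV K2

/-! The triple of two overlattices. -/

namespace TrpA

variable {g : ℕ}

theorem lcan {R X Y : Mat g ℤ} (hR : R.det ≠ 0) (h : R * X = R * Y) : X = Y := by
  have h1 := congrArg (R.adjugate * ·) h
  simp only [← Matrix.mul_assoc, Matrix.adjugate_mul, Matrix.smul_mul, Matrix.one_mul] at h1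
  exact smul_right_injective _ hR h1

theorem swap {R X : Mat g ℤ} {c : ℤ} (hR : R.det ≠ 0) (h : R * X = c • 1) : X * R = c • 1 :=
  lcan hR (by rw [← Matrix.mul_assoc, h, Matrix.smul_mul, Matrix.mul_smul, Matrix.one_mul,
    Matrix.mul_one])

theorem swap' {R X : Mat g ℤ} {c : ℤ} (hR : R.det ≠ 0) (h : X * R = c • 1) : R * X = c • 1 := by
  have h1 := congrArg Matrix.transpose h
  rw [Matrix.transpose_mul, Matrix.transpose_smul, Matrix.transpose_one] at h1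
  have h2 := congrArg Matrix.transpose (swap (by rwa [Matrix.det_transpose]) h1)
  simpa only [Matrix.transpose_mul, Matrix.transpose_smul, Matrix.transpose_one,
    Matrix.transpose_transpose] using h2

theorem chp {R X Y : Mat g ℤ} (hR : R.det ≠ 0) (h : R * X = Y * R) : X.charpoly = Y.charpoly := by
  have h1 : (C : ℤ →+* ℤ[X]).mapMatrix R * X.charmatrix =
      Y.charmatrix * (C : ℤ →+* ℤ[X]).mapMatrix R := by
    rw [Matrix.charmatrix, Matrix.charmatrix, Matrix.mul_sub, Matrix.sub_mul, ← map_mul, ← map_mul,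
      h, (Matrix.scalar_commute _ (fun _ => Commute.all _ _) _).eq]
  have h2 := congrArg Matrix.det h1
  rw [Matrix.det_mul, Matrix.det_mul, ← RingHom.map_det, mul_comm] at h2
  exact mul_right_cancel₀ (C_ne_zero.2 hR) h2

theorem dot (P S : Mat g ℤ) (x y : Vz g) :
    (fun k => ((P *ᵥ x) k : ℚ)) ⬝ᵥ mK S ℚ *ᵥ (fun k => ((P *ᵥ y) k : ℚ)) =
      ((x ⬝ᵥ (Pᵀ * S * P) *ᵥ y : ℤ) : ℚ) := by
  have e : x ⬝ᵥ (Pᵀ * S * P) *ᵥ y = (P *ᵥ x) ⬝ᵥ S *ᵥ (P *ᵥ y) := by
    rw [Matrix.mul_assoc, ← Matrix.mulVec_mulVec, Matrix.dotProduct_mulVec, Matrix.vecMul_transpose,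
      ← Matrix.mulVec_mulVec]
  rw [e]
  generalize P *ᵥ x = u
  generalize P *ᵥ y = v
  simp [dotProduct, Matrix.mulVec]

theorem dst {A T P B S : Mat g ℤ} {a b d : ℤ} (h : Ni g A T) (hP : P.det ≠ 0)
    (h1 : Pᵀ * A * P = a • B) (h2 : Pᵀ * (A * T) * P = b • B + d • (B * S)) (M ρ : ℝ)
    (H : Mat g ℝ) : Dst M ρ B S H := by
  intro e he hi
  refine (h (fun i k => ((P *ᵥ e i) k : ℚ)) ?_ fun i j => ⟨?_, ?_⟩).elim
  · rw [← LinearIndependent.iff_fractionRing ℤ ℚ]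
    refine he.map' (((Algebra.linearMap ℤ ℚ).compLeft _).comp P.mulVecLin)
      (LinearMap.ker_eq_bot'.2 fun x hx => ?_)
    refine Matrix.eq_zero_of_mulVec_eq_zero hP (funext fun k => ?_)
    have := congrFun hx k
    simpa using this
  · rw [dot, h1, Matrix.smul_mulVec, dotProduct_smul, (hi i j).1]; simp
  · rw [dot, h2, Matrix.add_mulVec, Matrix.smul_mulVec, Matrix.smul_mulVec, dotProduct_add,
      dotProduct_smul, dotProduct_smul, (hi i j).1, (hi i j).2]; simp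

theorem ne (f : ℤ[X]) (h : Zq g f) : f.eval 1 ≠ 0 := fun e => by
  have h1 : (zK f ℚ).IsRoot 1 := by
    rw [IsRoot, ← map_one (Int.castRingHom ℚ), eval_map, eval₂_at_apply, e, map_zero]
  have h2 := natDegree_eq_of_degree_eq_some (n := 1) (degree_eq_one_of_irreducible_of_root h.irr h1)
  rw [h.monic.natDegree_map, h.deg] at h2
  have := h.pos
  omega

end TrpA

open TrpA in
theorem trp_n : CHGStmt → OVFStmt → FHStmt → TRPStmt := by
  intro _ ovf fhs g Q m₀ m₁ a f m A A' M T R R' B B' Λ Λ' hz hm hs hp ho ho'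
  obtain ⟨sB, dR, -, -, -⟩ := ovf g m₁ A R B Λ hs hp.sa ho
  obtain ⟨sB', dR', -, hK, -⟩ := ovf g m₁ A' R' B' Λ' hs hp.sa' ho'
  have c0 : (m₁ : ℤ) ≠ 0 := by exact_mod_cast hs.ne_zero
  obtain ⟨-, hch, -, -⟩ := fhs g m₁ f c0 hz
  have hch := hch T hp.ch
  have e1 := ho.eq
  have e2 := ho'.eq
  have dA := hp.dA
  choose K₀ hK₀ using hK
  obtain ⟨K, hK⟩ : ∃ K : Mat g ℤ, A' * R' = (m₁ : ℤ) • K :=
    ⟨Matrix.of K₀, by ext i j; simpa using hK₀ i j⟩
  generalize hc : (m₁ : ℤ) = c at *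
  have uB := ho.un
  have uB' := ho'.un
  have hKt : R'ᵀ * A' = c • Kᵀ := by
    rw [← Matrix.transpose_smul, ← hK, Matrix.transpose_mul, hp.sa'.eq]
  have k1 : R'ᵀ * K = c • B' := smul_right_injective _ c0 (by
    simp only
    rw [← Matrix.mul_smul, ← hK, ← Matrix.mul_assoc, e2, smul_smul, sq])
  have k2 : K * B'⁻¹ * R'ᵀ = c • 1 := swap (by rwa [Matrix.det_transpose]) (by
    rw [← Matrix.mul_assoc, k1, Matrix.smul_mul, Matrix.mul_nonsing_inv _ uB'])
  have k3 : K * B'⁻¹ * Kᵀ = A' := smul_right_injective _ c0 (by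
    simp only
    rw [← Matrix.mul_smul, ← hKt, ← Matrix.mul_assoc, k2, Matrix.smul_mul, Matrix.one_mul])
  have z1 : R * (B⁻¹ * Rᵀ * A) = c ^ 2 • 1 := swap' dR (by
    rw [Matrix.mul_assoc, Matrix.mul_assoc, ← Matrix.mul_assoc Rᵀ, e1, Matrix.mul_smul,
      Matrix.nonsing_inv_mul _ uB])
  obtain ⟨N₀, hN₀⟩ : ∃ N₀, N₀ = Kᵀ * M * R := ⟨_, rfl⟩
  have n1 : c • N₀ = R'ᵀ * A' * M * R := by rw [hKt, hN₀, Matrix.smul_mul, Matrix.smul_mul]
  have n2 : N₀ᵀ * B'⁻¹ * N₀ = Rᵀ * (A * (1 - T)) * R := by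
    rw [← hp.rel, ← k3, hN₀]
    simp only [Matrix.transpose_mul, Matrix.transpose_transpose, Matrix.mul_assoc]
  have d1 : (1 - T).det = m ^ 2 := by
    rw [← hm, ← hp.ch, Matrix.eval_charpoly, map_one]
  have m0 : m ≠ 0 := fun e => ne f hz (by rw [hm, e]; norm_num)
  have a0 : A.det ≠ 0 := fun e => by
    rw [e] at dA
    exact pow_ne_zero _ hs.ne_zero dA.symm
  have dM : M.det ≠ 0 := fun e => by
    have h := congrArg Matrix.det hp.rel
    simp only [Matrix.det_mul, e, d1, mul_zero] at h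
    exact mul_ne_zero a0 (pow_ne_zero _ m0) h.symm
  have d2 : N₀.det.natAbs = (c ^ (2 * g + 1) * m).natAbs := by
    have h1 := congrArg Matrix.det n2
    have h2 := congrArg Matrix.det e1
    simp only [Matrix.det_mul, Matrix.det_transpose, d1, Matrix.det_smul, Fintype.card_fin] at h1 h2
    have h3 : N₀.det ^ 2 * B'⁻¹.det = (c ^ (2 * g + 1) * m) ^ 2 * B.det := by
      linear_combination h1 + m ^ 2 * h2
    have h4 := congrArg Int.natAbs h3
    rw [Int.natAbs_mul, Int.natAbs_mul, Int.isUnit_iff_natAbs_eq.1 uB,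
      Int.isUnit_iff_natAbs_eq.1 (Matrix.isUnit_nonsing_inv_det _ uB'), mul_one, mul_one,
      Int.natAbs_pow, Int.natAbs_pow] at h4
    exact Nat.pow_left_injective two_ne_zero h4
  obtain ⟨ε, hε, d3⟩ : ∃ ε : ℤ, ε * ε = 1 ∧ (ε • N₀).det = c ^ (2 * g + 1) * m := by
    rcases Int.natAbs_eq_natAbs_iff.1 d2 with h | h
    · exact ⟨1, by norm_num, by rw [one_smul, h]⟩
    · exact ⟨-1, by norm_num, by
        rw [Matrix.det_smul, Fintype.card_fin, h, pow_succ (-1 : ℤ), pow_mul]; norm_num⟩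
  have t1 : Tt B B' (ε • N₀) = 1 - B⁻¹ * (Rᵀ * (A * (1 - T)) * R) := by
    rw [Tt, ← n2]
    simp only [Matrix.transpose_smul, Matrix.smul_mul, Matrix.mul_smul, smul_smul, hε, one_smul,
      Matrix.mul_assoc]
  have t2 : Tt B' B (ε • N₀)ᵀ = 1 - B'⁻¹ * (N₀ * B⁻¹ * N₀ᵀ) := by
    rw [Tt]
    simp only [Matrix.transpose_smul, Matrix.transpose_transpose, Matrix.smul_mul, Matrix.mul_smul,
      smul_smul, hε, one_smul, Matrix.mul_assoc]
  have cj : R * Tt B B' (ε • N₀) = ((1 - c ^ 2) • (1 : Mat g ℤ) + (c ^ 2) • T) * R := by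
    have : R * (B⁻¹ * (Rᵀ * (A * (1 - T)) * R)) = R * (B⁻¹ * Rᵀ * A) * ((1 - T) * R) := by
      simp only [Matrix.mul_assoc]
    rw [t1, Matrix.mul_sub, this, z1]
    simp only [Matrix.mul_one, Matrix.smul_mul, Matrix.one_mul, Matrix.sub_mul, Matrix.add_mul]
    module
  subst hc
  refine ⟨ε • N₀, ⟨ε, hε, by rw [smul_comm, n1]⟩, ⟨sB, sB', uB, uB', d3, (chp dR cj).trans hch⟩, cj,
    dst (b := (m₁ : ℤ) ^ 2 - 1) (d := 1) hp.ni dR e1 ?_, ?_⟩
  · rw [t1, Matrix.mul_sub, ← Matrix.mul_assoc B, Matrix.mul_nonsing_inv _ uB, Matrix.one_mul,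
      Matrix.mul_sub A, Matrix.mul_sub, Matrix.sub_mul, Matrix.mul_one, Matrix.mul_one, e1]
    module
  obtain ⟨P, hP⟩ : ∃ P, P = M.adjugate * R' := ⟨_, rfl⟩
  have p1 : M * P = M.det • R' := by
    rw [hP, ← Matrix.mul_assoc, Matrix.mul_adjugate, Matrix.smul_mul, Matrix.one_mul]
  have p2 : P.det ≠ 0 := fun e => by
    have h := congrArg Matrix.det p1
    rw [Matrix.det_mul, e, mul_zero, Matrix.det_smul] at h
    exact mul_ne_zero (pow_ne_zero _ dM) dR' h.symm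
  have p1' : Pᵀ * Mᵀ = M.det • R'ᵀ := by rw [← Matrix.transpose_mul, p1, Matrix.transpose_smul]
  have p3 : Pᵀ * (A * (1 - T)) = (M.det * m₁) • (Kᵀ * M) := by
    rw [← hp.rel, ← Matrix.mul_assoc, ← Matrix.mul_assoc, p1', Matrix.smul_mul, hKt, smul_smul,
      Matrix.smul_mul]
  have p4 : A * (1 - T) * P = (M.det * m₁) • (Mᵀ * K) := by
    rw [← hp.rel, Matrix.mul_assoc, p1, Matrix.mul_smul, Matrix.mul_assoc, hK, Matrix.mul_smul,
      smul_smul]
  have p5 : Pᵀ * (A * (1 - T)) * P = (M.det ^ 2 * (m₁ : ℤ) ^ 2) • B' := by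
    rw [← hp.rel]
    calc Pᵀ * (Mᵀ * A' * M) * P = Pᵀ * Mᵀ * A' * (M * P) := by simp only [Matrix.mul_assoc]
      _ = _ := by
        rw [p1, p1', Matrix.smul_mul, Matrix.smul_mul, Matrix.mul_smul, e2, smul_smul, smul_smul, sq M.det]
  have p6 : Pᵀ * (A * (1 - T)) * ((1 - T) * P) = M.det ^ 2 • (N₀ * B⁻¹ * N₀ᵀ) :=
    smul_right_injective _ (pow_ne_zero 2 c0) (by
      simp only
      calc (m₁ : ℤ) ^ 2 • (Pᵀ * (A * (1 - T)) * ((1 - T) * P))
          = Pᵀ * (A * (1 - T)) * (R * (B⁻¹ * Rᵀ * A) * ((1 - T) * P)) := by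
            rw [z1, Matrix.smul_mul, Matrix.one_mul, Matrix.mul_smul]
        _ = Pᵀ * (A * (1 - T)) * (R * B⁻¹ * Rᵀ) * (A * (1 - T) * P) := by
            simp only [Matrix.mul_assoc]
        _ = _ := by
            rw [p3, p4, hN₀]
            simp only [Matrix.transpose_mul, Matrix.transpose_transpose, Matrix.smul_mul,
              Matrix.mul_smul, smul_smul, Matrix.mul_assoc]
            congr 1
            ring)
  refine dst (b := M.det ^ 2 * ((m₁ : ℤ) ^ 2 - 1)) (d := M.det ^ 2) hp.ni' p2 p5 ?_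
  rw [Matrix.sub_mul 1 T P, Matrix.mul_sub (Pᵀ * (A * (1 - T))), Matrix.one_mul, p5] at p6
  have p7 : Pᵀ * (A * (1 - T) * T) * P = Pᵀ * (A * (1 - T)) * (T * P) := by
    simp only [Matrix.mul_assoc]
  rw [t2, Matrix.mul_sub B', ← Matrix.mul_assoc B', Matrix.mul_nonsing_inv _ uB', Matrix.one_mul,
    Matrix.mul_one, p7, smul_sub, ← p6]
  module

end Pool.Agent.MP_a43263_nt.N2

end
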