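import Pool.Agent.MP_a43263_nt.N2.SpecB
import Pool.Agent.MP_a43263_nt.N2.Tup0

/-! THEOREM N2, row Tup: independent isotropic tuples. -/

set_option autoImplicit false

namespace Pool.Agent.MP_a43263_nt.N2

open Finset Matrix

namespace TupA

theorem pow_le (k : ℕ) {x : ℝ} (h0 : 0 ≤ x) (h1 : x ≤ 1) : (1 + 2 * x) ^ k ≤ 1 + 3 ^ k * x := by
  induction k with
  | zero => simpa using h0
  | succ k ih =>
    have h3 : (1 : ℝ) ≤ 3 ^ k := one_le_pow₀ (by norm_num)
    have h4 : (1 + 2 * x) ^ k ≤ 3 ^ k := pow_le_pow_left₀ (by positivity) (by linarith) k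
    have h5 : (1 + 2 * x) ^ k * (2 * x) ≤ 3 ^ k * (2 * x) := by gcongr
    rw [pow_succ, pow_succ]
    nlinarith

end TupA

theorem tup0 : TUPStmt := by
  classical
  intro k
  refine ⟨3 ^ k, by positivity, fun F _ _ h2 ι _ _ B hs hd hk => ?_⟩
  have h := TupA.tuples (F := F) (V := ι → F) (B := toBilin' B) h2
    (fun x y => by
      rw [toBilin'_apply', toBilin'_apply', dotProduct_mulVec, ← mulVec_transpose, hs.eq,
        dotProduct_comm])
    (LinearMap.BilinForm.nondegenerate_toBilin'_of_det_ne_zero' B hd) k (by simpa using hk)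
    (univ.filter fun x => LinearIndependent F x ∧ ∀ i j, x i ⬝ᵥ B *ᵥ x j = 0)
    fun x hx => by simpa only [toBilin'_apply'] using (mem_filter.1 hx).2
  rw [Module.finrank_pi, ← Fintype.card_subtype, ← Nat.card_eq_fintype_card, sum_range_id,
    ← Nat.choose_two_right] at h
  have h' := (Nat.cast_le (α := ℝ)).2 h
  push_cast at h'
  have q1 : (1 : ℝ) ≤ Fintype.card F := by exact_mod_cast Fintype.card_pos
  generalize (Fintype.card F : ℝ) = q at h' q1 ⊢
  have q0 : 0 < q := by linarith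
  have e := TupA.pow_le k (x := 1 / q) (by positivity) (by rw [div_le_one q0]; exact q1)
  refine le_of_mul_le_mul_right ?_ (pow_pos q0 k)
  calc _ = _ := by ring
    _ ≤ _ := h'
    _ = (1 + 2 * (1 / q)) ^ k * (q ^ (k * Fintype.card ι) * q ^ k) := by
      rw [show q + 2 = (1 + 2 * (1 / q)) * q by field_simp, mul_pow]; ring
    _ ≤ (1 + 3 ^ k * (1 / q)) * (q ^ (k * Fintype.card ι) * q ^ k) := by gcongr
    _ = _ := by ring

theorem tup_n : QZStmt → TUPStmt := fun _ => tup0

end Pool.Agent.MP_a43263_nt.N2
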