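import Pool.Agent.MP_a43263_nt.N2.Big

/-! THEOREM N2, row VAR: the variance over the characters of a family of moduli. -/

set_option autoImplicit false

noncomputable section

namespace Pool.Agent.MP_a43263_nt.N2

open Finset Filter K2 DirichletCharacter
open scoped ArithmeticFunction.vonMangoldt

namespace VarA

abbrev Ch : Type := Σ f : ℕ, DirichletCharacter ℂ f

def E (y h : ℕ) (z : Ch) : ℂ :=
  ∑ n ∈ Ico y (y + h), (((Λ n : ℝ) : ℂ) * z.2 n - (ind (z.2 = 1) : ℝ))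

def F (X h : ℕ) (z : Ch) : ℝ := ∑ y ∈ Ioc X (2 * X), ‖E y h z‖ ^ 2

def pr {q : ℕ} (χ : DirichletCharacter ℂ q) : Ch := ⟨_, χ.primitiveCharacter⟩

open Classical in
def P (Q : ℕ) : Finset Ch := (Icc 1 Q).sigma fun _ => univ.filter IsPrimitive

theorem F_nonneg (X h : ℕ) (z : Ch) : 0 ≤ F X h z := sum_nonneg fun _ _ => sq_nonneg _

theorem mem_P {Q : ℕ} {z : Ch} : z ∈ P Q ↔ (1 ≤ z.1 ∧ z.1 ≤ Q) ∧ z.2.IsPrimitive := by
  simp only [P, mem_sigma, mem_Icc, mem_filter, mem_univ, true_and]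

theorem card_ch {q : ℕ} (hq : 1 ≤ q) : (univ : Finset (DirichletCharacter ℂ q)).card ≤ q := by
  have : NeZero q := ⟨by omega⟩
  rw [card_univ, ← Nat.card_eq_fintype_card, card_eq_totient_of_hasEnoughRootsOfUnity ℂ q]
  exact Nat.totient_le q

theorem card_P (Q : ℕ) : (P Q).card ≤ Q * Q := by
  classical
  rw [P, card_sigma]
  refine (sum_le_card_nsmul _ _ Q fun c hc => ?_).trans (by simp)
  exact (card_filter_le _ _).trans ((card_ch (mem_Icc.1 hc).1).trans (mem_Icc.1 hc).2)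

theorem ncp {q K : ℕ} (hq : 1 ≤ q) (S : Finset ℕ) (hS : ∀ n ∈ S, n < 2 ^ K) :
    ∑ n ∈ S.filter (fun n => ¬n.Coprime q), Λ n ≤ K * Real.log q := by
  rw [← Real.log_pow, ← Nat.cast_pow, ← ArithmeticFunction.vonMangoldt_sum, ← sum_filter_ne_zero]
  refine sum_le_sum_of_subset_of_nonneg (fun n hn => ?_)
    fun _ _ _ => ArithmeticFunction.vonMangoldt_nonneg
  obtain ⟨h1, h2⟩ := mem_filter.1 hn
  obtain ⟨h3, h4⟩ := mem_filter.1 h1
  obtain ⟨p, k, hp, hk, rfl⟩ :=
    (isPrimePow_nat_iff _).1 (ArithmeticFunction.vonMangoldt_ne_zero_iff.1 h2)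
  have d : p ∣ q := by
    by_contra t
    exact h4 (Nat.Coprime.pow_left _ ((Nat.Prime.coprime_iff_not_dvd hp).2 t))
  have : k < K := (Nat.pow_lt_pow_iff_right one_lt_two).1
    ((Nat.pow_le_pow_left hp.two_le k).trans_lt (hS _ h3))
  exact Nat.mem_divisors.2 ⟨(pow_dvd_pow_of_dvd d k).trans (pow_dvd_pow q this.le), by positivity⟩

theorem diff {q K y h : ℕ} (hq : 1 ≤ q) (χ : DirichletCharacter ℂ q) (hK : y + h ≤ 2 ^ K) :
    ‖E y h ⟨q, χ⟩‖ ≤ ‖E y h (pr χ)‖ + K * Real.log q := by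
  have : NeZero q := ⟨by omega⟩
  have : NeZero χ.conductor := ⟨conductor_ne_zero χ⟩
  have e1 : χ.primitiveCharacter = 1 ↔ χ = 1 := by
    rw [eq_one_iff_conductor_eq_one, eq_one_iff_conductor_eq_one,
      (isPrimitive_def _).1 χ.primitiveCharacter_isPrimitive]
  have e2 : E y h ⟨q, χ⟩ = E y h (pr χ) - ∑ n ∈ (Ico y (y + h)).filter (fun n => ¬n.Coprime q),
      ((Λ n : ℝ) : ℂ) * χ.primitiveCharacter n := by
    rw [sum_filter, E, E, ← sum_sub_distrib]
    refine sum_congr rfl fun n _ => ?_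
    change ((Λ n : ℝ) : ℂ) * χ n - (ind (χ = 1) : ℝ) =
      ((Λ n : ℝ) : ℂ) * χ.primitiveCharacter n - (ind (χ.primitiveCharacter = 1) : ℝ) - _
    rw [ind_congr e1]
    by_cases k : n.Coprime q
    · have := χ.primitiveCharacter_apply_of_isCoprime (Nat.isCoprime_iff_coprime.2 k)
      rw [Int.cast_natCast, Int.cast_natCast] at this
      rw [if_neg (not_not.2 k), this, sub_zero]
    · rw [if_pos k, χ.map_nonunit fun t => k ((ZMod.isUnit_iff_coprime n q).1 t)]
      ring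
  rw [e2]
  refine (norm_sub_le _ _).trans (add_le_add_right ((norm_sum_le _ _).trans
    ((sum_le_sum fun n _ => ?_).trans (ncp hq _ fun n hn => (mem_Ico.1 hn).2.trans_le hK))) _)
  rw [norm_mul, Complex.norm_real, Real.norm_of_nonneg ArithmeticFunction.vonMangoldt_nonneg]
  exact mul_le_of_le_one_right ArithmeticFunction.vonMangoldt_nonneg (norm_le_one _ _)

theorem pr_inj (q : ℕ) : Function.Injective (pr (q := q)) := by
  classical
  refine Function.LeftInverse.injective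
    (g := fun z : Ch => if h : z.1 ∣ q then changeLevel h z.2 else 1) fun χ => ?_
  exact (dif_pos χ.conductor_dvd_level).trans χ.changeLevel_primitiveCharacter

theorem red {q Q K X h : ℕ} {R : ℝ} (hq : 1 ≤ q) (hQ : q ≤ Q) (hK : 2 * X + h ≤ 2 ^ K)
    (hR : K * Real.log q ≤ R) :
    ∑ y ∈ Ioc X (2 * X), ∑ χ : DirichletCharacter ℂ q, ‖E y h ⟨q, χ⟩‖ ^ 2 ≤
      2 * ∑ z ∈ (P Q).filter (fun z => z.1 ∣ q), F X h z + Q * (X * (2 * R ^ 2)) := by
  classical
  have : NeZero q := ⟨by omega⟩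
  have h1 : ∀ χ : DirichletCharacter ℂ q, ∑ y ∈ Ioc X (2 * X), ‖E y h ⟨q, χ⟩‖ ^ 2 ≤
      2 * F X h (pr χ) + X * (2 * R ^ 2) := by
    intro χ
    refine (sum_le_sum (g := fun y => 2 * ‖E y h (pr χ)‖ ^ 2 + 2 * R ^ 2) fun y hy => ?_).trans_eq ?_
    · have a := (diff hq χ (y := y) (h := h) (K := K)
        (by have := (mem_Ioc.1 hy).2; omega)).trans (add_le_add_right hR _)
      have b := pow_le_pow_left₀ (norm_nonneg _) a 2
      nlinarith [sq_nonneg (‖E y h (pr χ)‖ - R)]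
    · rw [sum_add_distrib, ← mul_sum, sum_const, Nat.card_Ioc, nsmul_eq_mul,
        show 2 * X - X = X by omega, F]
  rw [sum_comm]
  refine (sum_le_sum fun χ _ => h1 χ).trans ?_
  rw [sum_add_distrib, ← mul_sum, sum_const, nsmul_eq_mul,
    ← sum_image (f := F X h) fun a _ b _ e => pr_inj q e]
  refine add_le_add (mul_le_mul_of_nonneg_left (sum_le_sum_of_subset_of_nonneg (fun z hz => ?_)
    fun z _ _ => F_nonneg X h z) zero_le_two) (mul_le_mul_of_nonneg_right ?_ (by positivity))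
  · obtain ⟨χ, -, rfl⟩ := mem_image.1 hz
    exact mem_filter.2 ⟨mem_P.2 ⟨⟨Nat.pos_of_ne_zero (conductor_ne_zero χ),
      (Nat.le_of_dvd hq χ.conductor_dvd_level).trans hQ⟩, χ.primitiveCharacter_isPrimitive⟩,
      χ.conductor_dvd_level⟩
  · exact_mod_cast (card_ch hq).trans hQ

theorem swap (T : Finset ℕ) (q : ℕ → ℕ) (S : Finset Ch) (G : Ch → ℝ) :
    ∑ u ∈ T, ∑ z ∈ S.filter (fun z => z.1 ∣ q u), G z =
      ∑ z ∈ S, ((T.filter fun u => z.1 ∣ q u).card : ℝ) * G z := by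
  simp only [sum_filter]
  rw [sum_comm]
  refine sum_congr rfl fun z _ => ?_
  rw [← sum_filter, sum_const, nsmul_eq_mul]

theorem blk (lsm : LSMStmt) {X h Q : ℕ} {l : ℝ} (S : Finset Ch) (hQ : 1 ≤ Q)
    (hS : ∀ z ∈ S, 1 < z.1 ∧ z.1 ≤ Q ∧ z.2.IsPrimitive) (hl : ∀ n < 2 * X + h, Λ n ≤ l) :
    ∑ z ∈ S, F X h z ≤ X * ((h + (Q : ℝ) ^ 2 * (1 + 2 * Real.log Q)) * (h * l ^ 2)) := by
  simp only [F]
  rw [sum_comm]
  refine (sum_le_card_nsmul _ _ _ fun y hy => ?_).trans_eq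
    (by rw [Nat.card_Ioc, nsmul_eq_mul, show 2 * X - X = X by omega])
  have h1 := lsm Q y h (fun n => ((Λ n : ℝ) : ℂ)) S hQ
    fun z hz => ⟨by have := (hS z hz).1; omega, (hS z hz).2⟩
  have h2 : ∀ z ∈ S, E y h z = ∑ n ∈ Ico y (y + h), ((Λ n : ℝ) : ℂ) * z.2 n := by
    intro z hz
    obtain ⟨a, -, b⟩ := hS z hz
    have : NeZero z.1 := ⟨by omega⟩
    have c : z.2 ≠ 1 := fun t => by
      have := (eq_one_iff_conductor_eq_one.1 t).symm.trans ((isPrimitive_def _).1 b)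
      omega
    simp only [E, ind_neg c, Complex.ofReal_zero, sub_zero]
  rw [sum_congr rfl fun z hz => by rw [h2 z hz]]
  have := Real.log_natCast_nonneg Q
  refine h1.trans (mul_le_mul_of_nonneg_left ?_ (by positivity))
  refine (sum_le_card_nsmul _ _ (l ^ 2) fun n hn => ?_).trans_eq
    (by rw [Nat.card_Ico, nsmul_eq_mul, Nat.add_sub_cancel_left])
  rw [Complex.norm_real, Real.norm_of_nonneg ArithmeticFunction.vonMangoldt_nonneg]
  refine pow_le_pow_left₀ ArithmeticFunction.vonMangoldt_nonneg (hl n ?_) 2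
  have := (mem_Ioc.1 hy).2
  have := (mem_Ico.1 hn).2
  omega

theorem num {w L h M g : ℝ} {b : ℕ} (hw : 0 < w) (hL : 0 < L) (hh : 0 ≤ h)
    (h1 : L ^ (4 * b) ≤ 2 * w ^ 4) (h2 : w ^ 4 ≤ M) (h3 : M ^ 9 ≤ h ^ 5)
    (h4 : L ^ (36 * (b + 1)) ≤ h) (hg : g ≤ 5 * L) :
    (h + (2 * w ^ 4) ^ 2 * g) / w ≤ 22 * h / L ^ b := by
  have a1 : L ^ b ≤ 2 * w := by
    rw [← pow_le_pow_iff_left₀ (by positivity) (by positivity) (n := 4) (by norm_num), ← pow_mul,
      mul_comm b]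
    have : 0 ≤ w ^ 4 := by positivity
    linarith [show (2 * w) ^ 4 = 16 * w ^ 4 by ring]
  have a2 : w ^ 7 * (L ^ b * L) ≤ h := by
    rw [← pow_le_pow_iff_left₀ (by positivity) hh (n := 36) (by norm_num), ← pow_succ, mul_pow,
      ← pow_mul L, mul_comm (b + 1), show (w ^ 7) ^ 36 = ((w ^ 4) ^ 9) ^ 7 by ring,
      show h ^ 36 = (h ^ 5) ^ 7 * h by ring]
    exact mul_le_mul (pow_le_pow_left₀ (by positivity)
      ((pow_le_pow_left₀ (by positivity) h2 9).trans h3) 7) h4 (by positivity) (by positivity)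
  have a0 : 0 < L ^ b := by positivity
  rw [div_le_div_iff₀ hw a0]
  generalize L ^ b = l at a0 a1 a2
  have a3 := mul_le_mul_of_nonneg_left a1 hh
  have a4 := mul_le_mul_of_nonneg_left a2 hw.le
  have a5 := mul_le_mul_of_nonneg_left hg (show 0 ≤ w ^ 8 * l by positivity)
  linarith [show (h + (2 * w ^ 4) ^ 2 * g) * l = h * l + 4 * (w ^ 8 * l * g) by ring,
    show w ^ 8 * l * (5 * L) = 5 * (w * (w ^ 7 * (l * L))) by ring]

theorem ev (m : ℕ) (c : ℝ) : ∀ᶠ X : ℕ in atTop,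
    3 ≤ X ∧ c ≤ Real.log X ∧ Real.log X ^ m ≤ (X : ℝ) ^ (1 / 4 : ℝ) := by
  have h1 := (isLittleO_log_rpow_rpow_atTop (m : ℝ) (show (0 : ℝ) < 1 / 4 by norm_num)).bound
    one_pos
  filter_upwards [eventually_ge_atTop 3, tendsto_natCast_atTop_atTop.eventually h1,
    (Real.tendsto_log_atTop.comp tendsto_natCast_atTop_atTop).eventually_ge_atTop c]
    with X a b d
  refine ⟨a, d, ?_⟩
  rw [Real.rpow_natCast, one_mul] at b
  exact (le_abs_self _).trans (b.trans_eq (Real.norm_of_nonneg (by positivity)))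

end VarA

open VarA in
theorem var_n : SIVStmt → LSMStmt → NCStmt → VARStmt := by
  classical
  rintro siv lsm ⟨C, C0, nc⟩ A B
  obtain ⟨b, hb⟩ : ∃ b, b = A + B + 5 := ⟨_, rfl⟩
  obtain ⟨C', C0', lar⟩ := large
  filter_upwards [siv (A + 8 * b + 1) (4 * b), ev (36 * (b + 1)) (96 + 2112 * C),
    ev (9 * (1 + B + 3 * (4 * b))) (200 + C')]
    with X hs ⟨X3, hL, hp⟩ ⟨_, hL', hp'⟩ U h D s s' q T H
  have hh := hp.trans H.lo
  have hh' := hp'.trans H.lo
  have X0 : (3 : ℝ) ≤ X := by exact_mod_cast X3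
  have lg : ∀ x : ℝ, 0 < x → x ≤ 3 * X → Real.log x ≤ 2 * Real.log X := fun x a c => by
    rw [show 2 * Real.log X = Real.log ((X : ℝ) ^ 2) by simp]
    exact Real.log_le_log a (by nlinarith)
  have hD := H.Dl
  have hs' : ∀ z : Ch, 1 ≤ z.1 → (z.1 : ℝ) ≤ Real.log X ^ (4 * b) →
      F X h z ≤ (h : ℝ) ^ 2 * X / Real.log X ^ (A + 8 * b + 1) :=
    fun z a c => hs z.1 h z.2 a c H.lo H.hi
  obtain ⟨K, K1, K2, K3⟩ : ∃ K : ℕ, 3 * X < 2 ^ K ∧ (K : ℝ) ≤ 4 * Real.log X ∧
      ∀ c ≤ X, Nat.log 2 c < K := by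
    refine ⟨Nat.log 2 (3 * X) + 1, Nat.lt_pow_succ_log_self one_lt_two _, ?_,
      fun c hc => Nat.lt_succ_of_le (Nat.log_mono_right (by omega))⟩
    have a : ((2 : ℝ)) ^ Nat.log 2 (3 * X) ≤ 3 * X := by
      exact_mod_cast Nat.pow_log_le_self 2 (show 3 * X ≠ 0 by omega)
    have c := lg _ (by positivity) a
    rw [Real.log_pow] at c
    have d := mul_le_mul_of_nonneg_left Real.log_two_gt_d9.le
      (Nat.cast_nonneg (α := ℝ) (Nat.log 2 (3 * X)))
    push_cast
    linarith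
  have lX : ∀ c : ℕ, c ≤ X → Real.log c ≤ Real.log X := fun c hc => by
    rcases c.eq_zero_or_pos with rfl | e
    · simpa using Real.log_natCast_nonneg X
    · exact Real.log_le_log (by exact_mod_cast e) (by exact_mod_cast hc)
  clear hs hp hp'
  generalize Real.log X = L at *
  have L1 : 1 ≤ L := by linarith
  have L0 : 0 < L := by linarith
  have h1 : 1 ≤ h := by exact_mod_cast (one_le_pow₀ L1).trans hh
  obtain ⟨M, hM⟩ : ∃ M, M = 54 * D * U ^ 3 := ⟨_, rfl⟩
  have Mh : M ≤ h := by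
    have a2 : U ^ 3 ≤ M := hM ▸ Nat.le_mul_of_pos_left _ (by have := H.D1; omega)
    have a3 : 1 ≤ M := (Nat.one_le_pow _ _ H.U1).trans a2
    refine (Nat.pow_le_pow_iff_left (n := 2) (by norm_num)).1 ((Nat.pow_le_pow_right a3
      (by norm_num : 2 ≤ 3)).trans (Nat.le_of_mul_le_mul_right ((pow_succ _ 3).ge.trans
        ((hM ▸ H.big : M ^ 4 ≤ _).trans (Nat.mul_le_mul_left _ a2))) a3))
  have hX := H.hi
  have TU : T.card ≤ U := (card_le_card H.sub).trans (by rw [Nat.card_Ioc]; omega)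
  have TU' : (T.card : ℝ) ≤ U := by exact_mod_cast TU
  have hq : ∀ u ∈ T, 1 ≤ q u ∧ q u ≤ M := fun u hu => by
    have a := mem_Ioc.1 (H.sub hu)
    have := H.s1
    have := H.s2
    have := H.D1
    rw [H.eq u hu, hM, show 54 * D * U ^ 3 = D * ((3 * U) ^ 2 * (6 * U)) by ring]
    exact ⟨Nat.mul_pos this (Nat.mul_pos (Nat.pow_pos (by omega)) (by omega)),
      Nat.mul_le_mul_left _ (Nat.mul_le_mul (Nat.pow_le_pow_left (by omega) 2) (by omega))⟩
  have s1 := sum_le_sum fun u hu => red (X := X) (h := h) (K := K) (R := 4 * L * L) (hq u hu).1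
    (hq u hu).2 (by omega) (mul_le_mul K2 (lX _ (by have := (hq u hu).2; omega))
      (Real.log_natCast_nonneg _) (by positivity))
  rw [sum_add_distrib, ← mul_sum, swap, sum_const, nsmul_eq_mul,
    ← sum_filter_add_sum_filter_not (P M) fun z => (z.1 : ℝ) ≤ L ^ (4 * b),
    ← sum_filter_add_sum_filter_not ((P M).filter fun z => ¬(z.1 : ℝ) ≤ L ^ (4 * b))
      fun z => z.1 ^ 9 ≤ h ^ 5] at s1
  refine le_trans s1 ?_
  have Z0 : 0 ≤ (U : ℝ) * (h : ℝ) ^ 2 * X / L ^ A := by positivity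
  have t1 : ∑ z ∈ (P M).filter (fun z => (z.1 : ℝ) ≤ L ^ (4 * b)),
      ((T.filter fun u => z.1 ∣ q u).card : ℝ) * F X h z ≤ U * (h : ℝ) ^ 2 * X / L ^ A / 6 := by
    refine (sum_le_card_nsmul _ _ (U * ((h : ℝ) ^ 2 * X / L ^ (A + 8 * b + 1)))
      fun z hz => ?_).trans ?_
    · obtain ⟨a, c⟩ := mem_filter.1 hz
      exact mul_le_mul ((Nat.cast_le.2 (card_filter_le _ _)).trans TU')
        (hs' z (mem_P.1 a).1.1 c) (F_nonneg _ _ _) (by positivity)
    · have a : ((P M).filter fun z => (z.1 : ℝ) ≤ L ^ (4 * b)).card ≤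
          ⌊L ^ (4 * b)⌋₊ * ⌊L ^ (4 * b)⌋₊ := by
        refine (card_le_card fun z hz => ?_).trans (card_P _)
        obtain ⟨a, c⟩ := mem_filter.1 hz
        exact mem_P.2 ⟨⟨(mem_P.1 a).1.1, Nat.le_floor c⟩, (mem_P.1 a).2⟩
      have c := Nat.floor_le (show 0 ≤ L ^ (4 * b) by positivity)
      have d := (Nat.cast_le (α := ℝ).2 a).trans
        ((Nat.cast_mul _ _).trans_le (mul_le_mul c c (by positivity) (by positivity)))
      rw [nsmul_eq_mul]
      refine (mul_le_mul_of_nonneg_right d (by positivity)).trans ?_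
      rw [show L ^ (4 * b) * L ^ (4 * b) * (U * ((h : ℝ) ^ 2 * X / L ^ (A + 8 * b + 1))) =
        U * (h : ℝ) ^ 2 * X / L ^ A / L by field_simp; ring]
      exact div_le_div_of_nonneg_left Z0 (by norm_num) (by linarith)
  have t2 : ∑ z ∈ ((P M).filter fun z => ¬(z.1 : ℝ) ≤ L ^ (4 * b)).filter
      (fun z => z.1 ^ 9 ≤ h ^ 5),
      ((T.filter fun u => z.1 ∣ q u).card : ℝ) * F X h z ≤ U * (h : ℝ) ^ 2 * X / L ^ A / 12 := by
    rw [← sum_fiberwise_of_maps_to (t := range K) (g := fun z : Ch => Nat.log 2 z.1) fun z hz =>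
      mem_range.2 (K3 _ (by have := (mem_P.1 (mem_filter.1 (mem_filter.1 hz).1).1).1.2; omega))]
    refine (sum_le_card_nsmul _ _
      (C * U * L ^ B * (X * (22 * h / L ^ b * (h * (2 * L) ^ 2)))) fun i _ => ?_).trans ?_
    · generalize hS : (((P M).filter fun z => ¬(z.1 : ℝ) ≤ L ^ (4 * b)).filter
        fun z => z.1 ^ 9 ≤ h ^ 5).filter (fun z : Ch => Nat.log 2 z.1 = i) = S
      have mS : ∀ z ∈ S, L ^ (4 * b) < z.1 ∧ 2 ^ i ≤ z.1 ∧ z.1 < 2 ^ (i + 1) ∧
          (z.1 ≤ M ∧ z.1 ^ 9 ≤ h ^ 5) ∧ z.2.IsPrimitive := fun z hz => by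
        rw [← hS] at hz
        obtain ⟨a, rfl⟩ := mem_filter.1 hz
        obtain ⟨a, a'⟩ := mem_filter.1 a
        obtain ⟨c, d⟩ := mem_filter.1 a
        obtain ⟨⟨e, f⟩, g⟩ := mem_P.1 c
        exact ⟨not_le.1 d, Nat.pow_log_le_self 2 (by omega),
          Nat.lt_pow_succ_log_self one_lt_two _, ⟨f, a'⟩, g⟩
      rcases S.eq_empty_or_nonempty with rfl | ⟨z0, hz0⟩
      · rw [sum_empty]
        positivity
      obtain ⟨a1, a2, a3, ⟨a4, big⟩, -⟩ := mS z0 hz0
      have w0 : (0 : ℝ) < ((2 ^ i : ℕ) : ℝ) ^ (1 / 4 : ℝ) := by positivity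
      have w4 : (((2 ^ i : ℕ) : ℝ) ^ (1 / 4 : ℝ)) ^ 4 = (2 ^ i : ℕ) := by
        rw [← Real.rpow_natCast, ← Real.rpow_mul (by positivity)]
        norm_num
      have wl : ∀ z ∈ S, ((2 ^ i : ℕ) : ℝ) ^ (1 / 4 : ℝ) ≤ (z.1 : ℝ) ^ (1 / 4 : ℝ) := fun z hz =>
        Real.rpow_le_rpow (by positivity) (Nat.cast_le.2 (mS z hz).2.1) (by norm_num)
      generalize ((2 ^ i : ℕ) : ℝ) ^ (1 / 4 : ℝ) = w at w0 w4 wl
      have e2 : ((2 ^ (i + 1) : ℕ) : ℝ) = 2 * w ^ 4 := by
        rw [w4]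
        push_cast
        ring
      have b1 := blk lsm (X := X) (h := h) (Q := 2 ^ (i + 1)) (l := 2 * L) S Nat.one_le_two_pow
        (fun z hz => ⟨by exact_mod_cast (one_le_pow₀ L1).trans_lt (mS z hz).1,
          (mS z hz).2.2.1.le, (mS z hz).2.2.2.2⟩) fun n hn => by
          rcases n.eq_zero_or_pos with rfl | e
          · rw [ArithmeticFunction.map_zero]
            positivity
          · exact ArithmeticFunction.vonMangoldt_le_log.trans
              (lg _ (by exact_mod_cast e) (by exact_mod_cast (show n ≤ 3 * X by omega)))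
      have b2 := lg ((2 ^ (i + 1) : ℕ) : ℝ) (by positivity)
        (by exact_mod_cast (show 2 ^ (i + 1) ≤ 3 * X by rw [pow_succ]; omega))
      have b3 := num (g := 1 + 2 * Real.log ((2 ^ (i + 1) : ℕ) : ℝ)) (M := z0.1) w0 L0
        (Nat.cast_nonneg h) (e2 ▸ a1.le.trans (Nat.cast_le.2 a3.le))
        (w4 ▸ Nat.cast_le.2 a2) (by exact_mod_cast big) hh (by linarith)
      rw [← e2] at b3
      have b4 : ∀ z ∈ S, ((T.filter fun u => z.1 ∣ q u).card : ℝ) * F X h z ≤
          C * U * L ^ B / w * F X h z := fun z hz => by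
        refine mul_le_mul_of_nonneg_right (le_trans (Nat.cast_le.2 (card_le_card fun u hu => ?_))
          ((nc U D s s' z.1 H.U1 H.D1 H.s1 H.s2 (Nat.one_le_two_pow.trans (mS z hz).2.1)).trans
            (div_le_div₀ (by positivity) (mul_le_mul_of_nonneg_left hD (by positivity)) w0
              (wl z hz)))) (F_nonneg _ _ _)
        obtain ⟨a, c⟩ := mem_filter.1 hu
        exact mem_filter.2 ⟨H.sub a, H.eq u a ▸ c⟩
      refine (sum_le_sum b4).trans ?_
      rw [← mul_sum]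
      refine (mul_le_mul_of_nonneg_left b1 (by positivity)).trans ?_
      generalize (h : ℝ) + ((2 ^ (i + 1) : ℕ) : ℝ) ^ 2 *
        (1 + 2 * Real.log ((2 ^ (i + 1) : ℕ) : ℝ)) = G at b3
      rw [show C * U * L ^ B / w * (X * (G * (h * (2 * L) ^ 2))) =
        C * U * L ^ B * (X * (G / w * (h * (2 * L) ^ 2))) by ring]
      gcongr
    · rw [card_range, nsmul_eq_mul]
      refine (mul_le_mul_of_nonneg_right K2 (by positivity)).trans ?_
      rw [hb, show 4 * L * (C * U * L ^ B * (X * (22 * h / L ^ (A + B + 5) * (h * (2 * L) ^ 2)))) =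
        U * (h : ℝ) ^ 2 * X / L ^ A * (352 * C / (L * L)) by field_simp; ring, div_eq_mul_one_div _ 12]
      refine mul_le_mul_of_nonneg_left ?_ Z0
      rw [div_le_div_iff₀ (by positivity) (by norm_num)]
      nlinarith
  have t4 : ∑ z ∈ ((P M).filter fun z => ¬(z.1 : ℝ) ≤ L ^ (4 * b)).filter
      (fun z => ¬z.1 ^ 9 ≤ h ^ 5),
      ((T.filter fun u => z.1 ∣ q u).card : ℝ) * F X h z ≤ U * (h : ℝ) ^ 2 * X / L ^ A / 12 := by
    generalize hS : ((P M).filter fun z => ¬(z.1 : ℝ) ≤ L ^ (4 * b)).filter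
      (fun z => ¬z.1 ^ 9 ≤ h ^ 5) = S
    have mS : ∀ z ∈ S, 1 < z.1 ∧ z.1 ≤ M ∧ h ^ 5 < z.1 ^ 9 ∧ z.2.IsPrimitive := fun z hz => by
      rw [← hS] at hz
      obtain ⟨a, a'⟩ := mem_filter.1 hz
      obtain ⟨c, d⟩ := mem_filter.1 a
      exact ⟨by exact_mod_cast (one_le_pow₀ L1).trans_lt (not_le.1 d), (mem_P.1 c).1.2,
        not_le.1 a', (mem_P.1 c).2⟩
    rcases S.eq_empty_or_nonempty with rfl | ⟨z0, hz0⟩
    · rw [sum_empty]
      positivity
    have U0 : L ^ (4 * b) ≤ U := by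
      by_contra k
      have k1 : (M : ℝ) ≤ L ^ (1 + B + 3 * (4 * b)) := by
        rw [hM, pow_add, pow_add, pow_one, mul_comm 3, pow_mul L (4 * b) 3]
        push_cast
        gcongr
        · linarith
        · exact (not_le.1 k).le
      have k2 : (h : ℝ) ^ 5 < (M : ℝ) ^ 9 := by
        exact_mod_cast (mS z0 hz0).2.2.1.trans_le (Nat.pow_le_pow_left (mS z0 hz0).2.1 9)
      have k3 := pow_le_pow_left₀ (by positivity) k1 9
      rw [← pow_mul, mul_comm] at k3
      have k4 : (h : ℝ) ≤ (h : ℝ) ^ 5 := le_self_pow₀ (by exact_mod_cast h1) (by norm_num)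
      linarith
    have p1 : ∀ j : ℕ, j + 1 ≤ 4 * b → L * L ^ j ≤ U := fun j hj =>
      (pow_succ' L j).ge.trans ((pow_le_pow_right₀ L1 hj).trans U0)
    have l2 : ∀ n < 2 * X + h, Λ n ≤ 2 * L := fun n hn => by
      rcases n.eq_zero_or_pos with rfl | e
      · rw [ArithmeticFunction.map_zero]
        positivity
      · exact ArithmeticFunction.vonMangoldt_le_log.trans
          (lg _ (by exact_mod_cast e) (by exact_mod_cast (show n ≤ 3 * X by omega)))
    rw [← swap]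
    simp only [F]
    rw [sum_congr rfl fun u _ => sum_comm, sum_comm]
    refine (sum_le_card_nsmul _ _ (U / L ^ (A + 4) * (3 * L * h * (h * (2 * L) ^ 2)))
      fun y hy => ?_).trans ?_
    · have b1 := lar U h D s s' y q T (fun n => ((Λ n : ℝ) : ℂ))
        (fun u => S.filter fun z => z.1 ∣ q u) (U / L ^ (A + 4)) H.U1 H.D1
        (by
          have := mul_le_mul (show (108 : ℝ) ≤ L by linarith) hD (by positivity) L0.le
          exact_mod_cast this.trans (p1 B (by omega))) H.s1 H.s2 H.sub H.eq H.big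
        (fun u _ z hz => ⟨(mem_filter.1 hz).2, (mS z (mem_filter.1 hz).1).2.2⟩) (by positivity)
        (by
          rw [div_pow, le_div_iff₀ (by positivity), ← pow_mul, pow_succ' _ 3, mul_right_comm]
          exact mul_le_mul_of_nonneg_right ((mul_le_mul_of_nonneg_right (by linarith)
            (by positivity)).trans (p1 _ (by omega))) (by positivity))
      have b2 : ∀ z ∈ S, E y h z = ∑ n ∈ Ico y (y + h), ((Λ n : ℝ) : ℂ) * z.2 n := by
        intro z hz
        obtain ⟨a, -, -, b⟩ := mS z hz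
        have : NeZero z.1 := ⟨by omega⟩
        have c : z.2 ≠ 1 := fun t => by
          have := (eq_one_iff_conductor_eq_one.1 t).symm.trans ((isPrimitive_def _).1 b)
          omega
        simp only [E, ind_neg c, Complex.ofReal_zero, sub_zero]
      rw [sum_congr rfl fun u _ => sum_congr rfl fun z hz => by rw [b2 z (mem_filter.1 hz).1]]
      refine b1.trans (mul_le_mul_of_nonneg_left (mul_le_mul ?_ ?_
        (sum_nonneg fun _ _ => sq_nonneg _) (by positivity)) (by positivity))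
      · have := mul_le_mul_of_nonneg_left (show 2 + Real.log h ≤ 3 * L by linarith [lX h hX])
          (Nat.cast_nonneg (α := ℝ) h)
        linarith
      · refine (sum_le_card_nsmul _ _ ((2 * L) ^ 2) fun n hn => ?_).trans_eq
          (by rw [Nat.card_Ico, nsmul_eq_mul, Nat.add_sub_cancel_left])
        rw [Complex.norm_real, Real.norm_of_nonneg ArithmeticFunction.vonMangoldt_nonneg]
        refine pow_le_pow_left₀ ArithmeticFunction.vonMangoldt_nonneg (l2 n ?_) 2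
        have := (mem_Ioc.1 hy).2
        have := (mem_Ico.1 hn).2
        omega
    · rw [Nat.card_Ioc, nsmul_eq_mul, show 2 * X - X = X by omega,
        show (X : ℝ) * (U / L ^ (A + 4) * (3 * L * h * (h * (2 * L) ^ 2))) =
          U * (h : ℝ) ^ 2 * X / L ^ A * (12 / L) by field_simp; ring, div_eq_mul_one_div _ 12]
      refine mul_le_mul_of_nonneg_left ?_ Z0
      rw [div_le_div_iff₀ L0 (by norm_num)]
      linarith
  have t3 : (T.card : ℝ) * (M * (X * (2 * (4 * L * L) ^ 2))) ≤ U * (h : ℝ) ^ 2 * X / L ^ A / 3 := by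
    have a : (M : ℝ) ≤ h := by exact_mod_cast Mh
    have c : 96 * L ^ (A + 4) ≤ h := le_trans (by
      rw [pow_succ' L (A + 4)]
      exact mul_le_mul_of_nonneg_right (by linarith) (by positivity))
      ((pow_le_pow_right₀ L1 (show A + 4 + 1 ≤ 36 * (b + 1) by omega)).trans hh)
    refine (mul_le_mul TU' (mul_le_mul_of_nonneg_right a (by positivity)) (by positivity)
      (by positivity)).trans ?_
    rw [div_div, le_div_iff₀ (by positivity),
      show (U : ℝ) * (h * (X * (2 * (4 * L * L) ^ 2))) * (L ^ A * 3) =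
        U * h * X * (96 * L ^ (A + 4)) by ring,
      show (U : ℝ) * (h : ℝ) ^ 2 * X = U * h * X * h by ring]
    exact mul_le_mul_of_nonneg_left c (by positivity)
  linarith

end Pool.Agent.MP_a43263_nt.N2
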