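import Pool.Agent.MP_a43263_nt.K2.Adm
import Pool.Agent.MP_a43263_nt.K2.Base
import Pool.Agent.MP_a43263_nt.K2.Beta
import Pool.Agent.MP_a43263_nt.K2.Chg
import Pool.Agent.MP_a43263_nt.K2.Desc
import Pool.Agent.MP_a43263_nt.K2.Ev1
import Pool.Agent.MP_a43263_nt.K2.Ev2
import Pool.Agent.MP_a43263_nt.K2.Evh
import Pool.Agent.MP_a43263_nt.K2.Exp
import Pool.Agent.MP_a43263_nt.K2.Fc
import Pool.Agent.MP_a43263_nt.K2.Gal
import Pool.Agent.MP_a43263_nt.K2.Gcd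
import Pool.Agent.MP_a43263_nt.K2.Geo
import Pool.Agent.MP_a43263_nt.K2.Idx
import Pool.Agent.MP_a43263_nt.K2.Irr
import Pool.Agent.MP_a43263_nt.K2.Iso
import Pool.Agent.MP_a43263_nt.K2.Lat
import Pool.Agent.MP_a43263_nt.K2.Maj
import Pool.Agent.MP_a43263_nt.K2.Mob
import Pool.Agent.MP_a43263_nt.K2.Mod
import Pool.Agent.MP_a43263_nt.K2.Ns
import Pool.Agent.MP_a43263_nt.K2.Pos
import Pool.Agent.MP_a43263_nt.K2.Pt2
import Pool.Agent.MP_a43263_nt.K2.Qst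
import Pool.Agent.MP_a43263_nt.K2.Ram2
import Pool.Agent.MP_a43263_nt.K2.Real
import Pool.Agent.MP_a43263_nt.K2.Red
import Pool.Agent.MP_a43263_nt.K2.Sha
import Pool.Agent.MP_a43263_nt.K2.Siv
import Pool.Agent.MP_a43263_nt.K2.Sums
import Pool.Agent.MP_a43263_nt.K2.Tor
import Pool.Agent.MP_a43263_nt.K2.Tri
import Pool.Agent.MP_a43263_nt.K2.Trn
import Pool.Agent.MP_a43263_nt.K2.Two
import Pool.Agent.MP_a43263_nt.K2.Wtg
import Pool.Agent.MP_a43263_nt.N2.AllC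
import Pool.Agent.MP_a43263_nt.N2.Apl
import Pool.Agent.MP_a43263_nt.N2.Badn
import Pool.Agent.MP_a43263_nt.N2.Bas
import Pool.Agent.MP_a43263_nt.N2.Beg
import Pool.Agent.MP_a43263_nt.N2.Box
import Pool.Agent.MP_a43263_nt.N2.Bse
import Pool.Agent.MP_a43263_nt.N2.Cbx
import Pool.Agent.MP_a43263_nt.N2.Cls
import Pool.Agent.MP_a43263_nt.N2.Core
import Pool.Agent.MP_a43263_nt.N2.Count
import Pool.Agent.MP_a43263_nt.N2.Den
import Pool.Agent.MP_a43263_nt.N2.Dtw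
import Pool.Agent.MP_a43263_nt.N2.Fam
import Pool.Agent.MP_a43263_nt.N2.Fh
import Pool.Agent.MP_a43263_nt.N2.Fin
import Pool.Agent.MP_a43263_nt.N2.Flg
import Pool.Agent.MP_a43263_nt.N2.Fm
import Pool.Agent.MP_a43263_nt.N2.Fma
import Pool.Agent.MP_a43263_nt.N2.Glu
import Pool.Agent.MP_a43263_nt.N2.Hen
import Pool.Agent.MP_a43263_nt.N2.Hyp
import Pool.Agent.MP_a43263_nt.N2.Inv
import Pool.Agent.MP_a43263_nt.N2.Isc
import Pool.Agent.MP_a43263_nt.N2.Kill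
import Pool.Agent.MP_a43263_nt.N2.Lagc
import Pool.Agent.MP_a43263_nt.N2.Lgo
import Pool.Agent.MP_a43263_nt.N2.Loca
import Pool.Agent.MP_a43263_nt.N2.Locb
import Pool.Agent.MP_a43263_nt.N2.Locg
import Pool.Agent.MP_a43263_nt.N2.Lop
import Pool.Agent.MP_a43263_nt.N2.Low
import Pool.Agent.MP_a43263_nt.N2.Lsm
import Pool.Agent.MP_a43263_nt.N2.Ltp
import Pool.Agent.MP_a43263_nt.N2.Lwn
import Pool.Agent.MP_a43263_nt.N2.Lwx
import Pool.Agent.MP_a43263_nt.N2.Mny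
import Pool.Agent.MP_a43263_nt.N2.Mom
import Pool.Agent.MP_a43263_nt.N2.Mone
import Pool.Agent.MP_a43263_nt.N2.Mset
import Pool.Agent.MP_a43263_nt.N2.Mtwo
import Pool.Agent.MP_a43263_nt.N2.Mtx
import Pool.Agent.MP_a43263_nt.N2.Mul
import Pool.Agent.MP_a43263_nt.N2.Nc
import Pool.Agent.MP_a43263_nt.N2.Ngm
import Pool.Agent.MP_a43263_nt.N2.Nis
import Pool.Agent.MP_a43263_nt.N2.One
import Pool.Agent.MP_a43263_nt.N2.Ovf
import Pool.Agent.MP_a43263_nt.N2.Ovl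
import Pool.Agent.MP_a43263_nt.N2.Pha
import Pool.Agent.MP_a43263_nt.N2.Phb
import Pool.Agent.MP_a43263_nt.N2.Pre
import Pool.Agent.MP_a43263_nt.N2.Pvx
import Pool.Agent.MP_a43263_nt.N2.Qz
import Pool.Agent.MP_a43263_nt.N2.Ramg
import Pool.Agent.MP_a43263_nt.N2.Rec
import Pool.Agent.MP_a43263_nt.N2.Rts
import Pool.Agent.MP_a43263_nt.N2.Shf
import Pool.Agent.MP_a43263_nt.N2.Shp
import Pool.Agent.MP_a43263_nt.N2.Shz
import Pool.Agent.MP_a43263_nt.N2.Sieve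
import Pool.Agent.MP_a43263_nt.N2.Siz
import Pool.Agent.MP_a43263_nt.N2.Stq
import Pool.Agent.MP_a43263_nt.N2.Trp
import Pool.Agent.MP_a43263_nt.N2.Tup
import Pool.Agent.MP_a43263_nt.N2.Uni
import Pool.Agent.MP_a43263_nt.N2.Var

/-! THEOREM N2: assembly. -/

set_option autoImplicit false

namespace Pool.Agent.MP_a43263_nt.N2

open K2

theorem allp : ALLStmt :=
  all_of (siv_k gal_k) geo_k lsm_n nc_n var_n pha_n apl_n cbx_n shf_n siz_n mul_n phb_n mom_n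
    m1_n m2_n all_n

theorem killp : KILLStmt :=
  have hW := wtg_k iso_k wsq_k
  kill_of hW (qst_k iso_k) (ev1_k hW (mob_k iso_k) evh_k) (ev2_k hW (mob_k iso_k) evh_k)
    (ram2_k hW (qst_k iso_k)) (two_k iso_k wsq_k (pt2_k iso_k wsq_k)) (real_k wsq_k) hen_n ngm_n
    shz_n locg_n beg_n ramg_n rec_n kill_n

theorem fmp : FMStmt :=
  fm_of chg_k lat_k tri_k (maj_k chg_k) (red_k chg_k) (adm_k chg_k) exp_k sums_k fc_k
    (ngm_n hen_n) (shz_n hen_n) glu_n loca_n locb_n shp_n stq_n mtx_n pre_n hyp_n lagc_n lgo_n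
    ovl_n ovf_n fh_n trp_n lop_n ltp_n nis_n fam_n badn_n inv_n uni_n box_n core_n count_n qz_n
    tup_n bas_n isc_n flg_n dtw_n den_n fma_n fm_n

theorem main : MainStmt :=
  main_of trn_k mod_k pos_k iso_k (ind_k ns_k)
    (four_k iso_k (wtg_k iso_k wsq_k) (desc_k wsq_k sha_k idx_k tor_k)) (beta_k trn_k) gcd_k
    (base_k trn_k irr_k) cbx_n siz_n allp mset_n killp fmp pvx_n rts_n lwn_n lwx_n low_n sieve_n
    cls_n one_n bse_n mny_n fin_n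

end Pool.Agent.MP_a43263_nt.N2
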