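import Pool.Agent.MP_a43263_nt.N2.SpecC

/-! THEOREM N2: many prime values in almost every admissible class (Chebyshev). -/

set_option autoImplicit false

noncomputable section

namespace Pool.Agent.MP_a43263_nt.N2

open Finset Filter K2

namespace AllCA

/-- the variance -/
theorem var {ι : Type} (S : Finset ι) (n : ℕ) (c : ι → ℝ) (f : ℕ → ι → ℝ) (e : ℕ → ℕ → ℝ)
    (p E M B R δ : ℝ) (hp : 0 ≤ p) (hE : 0 ≤ E) (hM : 0 ≤ M) (hR : 0 ≤ R) (hc : ∀ w, 0 ≤ c w)
    (hf : ∀ j w, 0 ≤ f j w)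
    (h0 : ∀ j ∈ range n, p * (∑ w ∈ S, c w - E) ≤ ∑ w ∈ S, c w * f j w)
    (h1 : ∀ j ∈ range n, ∑ w ∈ S, c w * f j w ≤ B)
    (h2 : ∀ j ∈ range n, ∀ w ∈ S, f j w ≤ M)
    (h3 : ∀ j ∈ range n, ∀ j' ∈ range n, j ≠ j' →
      ∑ w ∈ S, c w * (f j w * f j' w) ≤ p ^ 2 * (∑ w ∈ S, c w + E + R * e j j'))
    (h4 : ∀ j ∈ range n, ∑ j' ∈ (range n).erase j, e j j' ≤ n * δ) :
    ∑ w ∈ S, c w * (∑ j ∈ range n, f j w - n * p) ^ 2 ≤
      n * (M * B) + (n * p) ^ 2 * (3 * E + R * δ) := by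
  set C := ∑ w ∈ S, c w with hC
  have hC0 : 0 ≤ C := sum_nonneg fun w _ => hc w
  have e1 : ∑ w ∈ S, c w * (∑ j ∈ range n, f j w - n * p) ^ 2 =
      ∑ j ∈ range n, ∑ j' ∈ range n, ∑ w ∈ S, c w * (f j w * f j' w) -
        2 * (n * p) * ∑ j ∈ range n, ∑ w ∈ S, c w * f j w + (n * p) ^ 2 * C := by
    have e2 : ∑ j ∈ range n, ∑ j' ∈ range n, ∑ w ∈ S, c w * (f j w * f j' w) =
        ∑ w ∈ S, c w * (∑ j ∈ range n, f j w) ^ 2 := by
      rw [sum_congr rfl fun j _ => sum_comm, sum_comm]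
      refine sum_congr rfl fun w _ => ?_
      rw [sq, sum_mul_sum, mul_sum]
      exact sum_congr rfl fun j _ => (mul_sum _ _ _).symm
    have e3 : ∑ j ∈ range n, ∑ w ∈ S, c w * f j w = ∑ w ∈ S, c w * ∑ j ∈ range n, f j w := by
      simp only [mul_sum]
      exact sum_comm
    rw [e2, e3, hC, mul_sum, mul_sum, ← sum_sub_distrib, ← sum_add_distrib]
    exact sum_congr rfl fun w _ => by ring
  have b1 : ∀ j ∈ range n, ∑ j' ∈ range n, ∑ w ∈ S, c w * (f j w * f j' w) ≤
      M * B + (n * (p ^ 2 * (C + E)) + p ^ 2 * R * (n * δ)) := by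
    intro j hj
    rw [← add_sum_erase _ _ hj]
    refine add_le_add ?_ ?_
    · calc _ ≤ ∑ w ∈ S, M * (c w * f j w) := sum_le_sum fun w hw => by
            have := mul_le_mul_of_nonneg_left (h2 j hj w hw) (mul_nonneg (hc w) (hf j w))
            linarith
        _ = M * ∑ w ∈ S, c w * f j w := (mul_sum _ _ _).symm
        _ ≤ _ := mul_le_mul_of_nonneg_left (h1 j hj) hM
    · calc _ ≤ ∑ j' ∈ (range n).erase j, (p ^ 2 * (C + E) + p ^ 2 * R * e j j') :=
            sum_le_sum fun j' hj' => (h3 j hj j' (mem_of_mem_erase hj')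
              (ne_of_mem_erase hj').symm).trans (le_of_eq (by ring))
        _ ≤ _ := by
            rw [sum_add_distrib, sum_const, nsmul_eq_mul, ← mul_sum]
            refine add_le_add (mul_le_mul_of_nonneg_right ?_ (by positivity))
              (mul_le_mul_of_nonneg_left (h4 j hj) (by positivity))
            exact_mod_cast (card_erase_le).trans (card_range n).le
  have b2 := sum_le_card_nsmul _ _ _ b1
  have b3 := card_nsmul_le_sum (range n) (fun j => ∑ w ∈ S, c w * f j w) _ h0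
  rw [card_range, nsmul_eq_mul] at b2 b3
  have b4 := mul_le_mul_of_nonneg_left b3 (by positivity : 0 ≤ 2 * ((n : ℝ) * p))
  rw [e1]
  linarith

theorem sum_inj {s t : Finset ℕ} {φ : ℕ → ℕ} {F : ℕ → ℝ} (hF : ∀ y, 0 ≤ F y)
    (h1 : ∀ x ∈ s, φ x ∈ t) (h2 : ∀ x ∈ s, ∀ y ∈ s, φ x = φ y → x = y) :
    ∑ x ∈ s, F (φ x) ≤ ∑ y ∈ t, F y := by
  rw [← sum_image (fun x hx y hy => h2 x hx y hy)]
  exact sum_le_sum_of_subset_of_nonneg (image_subset_iff.2 h1) fun y _ _ => hF y

theorem sum_abs {n j : ℕ} (hj : j ∈ range n) {F : ℕ → ℝ} (hF : ∀ y, 0 ≤ F y) :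
    ∑ j' ∈ (range n).erase j, F ((j : ℤ) - j').natAbs ≤ 2 * ∑ t ∈ Ioc 0 n, F t := by
  rw [← sum_filter_add_sum_filter_not _ (fun j' => j' < j), two_mul]
  have hj := mem_range.1 hj
  refine add_le_add (sum_inj hF (fun x hx => ?_) fun x hx y hy e => ?_)
    (sum_inj hF (fun x hx => ?_) fun x hx y hy e => ?_)
  all_goals simp only [mem_filter, mem_erase, mem_range, mem_Ioc] at *
  all_goals omega

theorem few {n : ℕ} {x : ℕ → ℕ} {M : ℝ} (h : ∀ j ∈ range n, lam (x j) ≤ M) :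
    ∑ j ∈ range n, lam (x j) ≤ ((range n).filter fun j => (x j).Prime).card * M := by
  rw [← sum_filter_of_ne (p := fun j => (x j).Prime) fun j _ hne => by
    by_contra k
    exact hne (if_neg k), ← nsmul_eq_mul]
  exact sum_le_card_nsmul _ _ _ fun j hj => h j (mem_of_mem_filter j hj)

end AllCA

theorem all_n : PHAStmt → PHBStmt → M1Stmt → M2Stmt → ALLStmt := by
  intro pha phb m1 m2 g v hg hv η hη
  obtain ⟨C1, hC1, m1⟩ := m1 g v hg hv
  obtain ⟨C2, hC2, m2⟩ := m2 g v hg hv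
  filter_upwards [eventually_ge_atTop v, eventually_ge_atTop 200,
    tendsto_natCast_atTop_atTop.eventually_ge_atTop ((112 * (C1 + C2) / η) ^ 2)]
    with z hz1 hz2 hz3 d a wb hd hdv ha hA
  filter_upwards [m1 z d a wb hz1 hz2 hd hdv ha hA (η / 48) (by positivity),
    m2 z d a wb hz1 hz2 hd hdv ha hA (η / 48) (by positivity), ev_le_log 1,
    ev_le_log (32 * ((4 * g + 3) * C1) / η)] with k h1 h2 h3 h4 U m hU hm hmk hmz
  obtain ⟨-, h1⟩ := h1 U m hU hm hmk hmz
  have h2 := h2 U m hU hm hmk hmz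
  have hN : 0 < primorial z := primorial_pos z
  have hp : 1 ≤ ph (primorial z) := (pha.1 _ hN).1
  have hex : ∀ y, 0 ≤ ex (primorial z) z y := fun y => sum_nonneg fun _ _ => by positivity
  have hb := (phb (primorial z) z hN (Nat.prime_two.dvd_primorial_iff.2 (by omega))
    (by omega)).2 (nl k)
  have hn := le_nl h3
  have hV : 0 ≤ rf g k (primorial z) m U := by unfold rf vol; positivity
  have hs : 0 < √(z : ℝ) := Real.sqrt_pos.2 (by exact_mod_cast (by omega : 0 < z))
  have hz : (C1 + C2) / √(z : ℝ) ≤ η / 112 := by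
    have := Real.le_sqrt_of_sq_le hz3
    rw [div_le_iff₀ hη] at this
    rw [div_le_iff₀ hs]
    linarith
  have a1 : 0 ≤ C1 / √(z : ℝ) := by positivity
  have a2 : 0 ≤ C2 / √(z : ℝ) := by positivity
  rw [add_div] at hz
  set N := primorial z
  set V := rf g k N m U
  set p := ph N
  have k1 := AllCA.var (Us N a m U ×ˢ bx g k) (nl k) (fun x => ind (Cm v N m wb x.1 x.2))
    (fun j x => lam (co (m * d) x.2 (pu N m x.1 j) v))
    (fun j j' => ex N z ((j : ℤ) - j').natAbs) p (η / 48 * V + η / 112 * V)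
    ((4 * g + 3) * Real.log k) (C1 * p * V) (C2 * V) (2 * (2 / √(z : ℝ))) (by linarith) (by positivity) (by positivity)
    (by positivity) (fun _ => ind_nonneg _) (fun _ _ => lam_nonneg _)
    (fun j hj => by
      rw [sum_product, sum_product]
      refine le_trans (mul_le_mul_of_nonneg_left (sub_le_sub_left ?_ _) (by linarith)) (h1 j hj).2.1
      rw [← add_mul]
      exact mul_le_mul_of_nonneg_right (by linarith) hV)
    (fun j hj => by rw [sum_product]; exact (h1 j hj).2.2)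
    (fun j hj x hx => (h1 j hj).1 _ (mem_product.1 hx).1 _ (mem_product.1 hx).2)
    (fun j hj j' hj' ne => by
      rw [sum_product, sum_product]
      refine (h2 j hj j' hj' ne).trans (mul_le_mul_of_nonneg_left ?_ (sq_nonneg _))
      have := mul_le_mul_of_nonneg_right (show C2 / √(z : ℝ) ≤ η / 112 by linarith) hV
      change _ ≤ ∑ u ∈ Us N a m U, cnt g k (Cm v N m wb u) + _ + _
      linarith)
    (fun j hj => (AllCA.sum_abs hj hex).trans (by linarith))
  rw [sum_product] at k1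
  set L := Real.log k
  have hL : 0 < L := by linarith
  have hn0 : (0 : ℝ) < nl k := lt_of_lt_of_le (by positivity) hn
  have k2 := sum_le_sum fun u (hu : u ∈ Us N a m U) => cnt_mul_le (g := g) (k := k)
    (P := fun w => Cm v N m wb u w ∧ Few v N d m k u w) (a := (nl k * p) ^ 2 / 4)
    (F := fun w => ind (Cm v N m wb u w) *
      (∑ j ∈ range (nl k), lam (co (m * d) w (pu N m u j) v) - nl k * p) ^ 2)
    (fun w _ => mul_nonneg (ind_nonneg _) (sq_nonneg _)) (by
      rintro w hw ⟨b1, b2⟩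
      have b3 := AllCA.few fun j hj => (h1 j hj).1 u hu w hw
      rw [Few, lt_div_iff₀ (by positivity)] at b2
      have b4 : (nl k : ℝ) ≤ nl k * p := le_mul_of_one_le_right hn0.le hp
      rw [ind_pos b1, one_mul]
      have b5 : nl k * p / 2 ≤ nl k * p - ∑ j ∈ range (nl k), lam (co (m * d) w (pu N m u j) v) := by
        linarith
      have := pow_le_pow_left₀ (by positivity) b5 2
      linarith)
  have k3 := k2.trans k1
  rw [← sum_mul] at k3
  set n : ℝ := (nl k : ℝ)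
  rw [div_le_iff₀ hη] at h4
  have k4 : (4 * g + 3) * L * (C1 * V) ≤ n * p * (η / 16 * V) := by
    calc _ = 32 * ((4 * g + 3) * C1) * (L * V / 32) := by ring
      _ ≤ L * η * (L * V / 32) := by gcongr
      _ = L ^ 2 / 2 * 1 * (η / 16 * V) := by ring
      _ ≤ _ := by gcongr
  have k5 := mul_le_mul_of_nonneg_left k4 (by positivity : 0 ≤ n * p)
  have k6 : 3 * (η / 48 * V + η / 112 * V) + C2 * V * (2 * (2 / √(z : ℝ))) ≤ η / 8 * V := by
    have := mul_le_mul_of_nonneg_right (show C2 / √(z : ℝ) ≤ η / 112 by linarith) hV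
    have e : C2 * V * (2 * (2 / √(z : ℝ))) = 4 * (C2 / √(z : ℝ) * V) := by ring
    linarith
  have k7 := mul_le_mul_of_nonneg_left k6 (sq_nonneg (n * p))
  have k8 : 0 ≤ (n * p) ^ 2 * (η * V) := by positivity
  refine le_of_mul_le_mul_right (a := (n * p) ^ 2 / 4) ?_ (by positivity)
  linarith

end Pool.Agent.MP_a43263_nt.N2
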