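import Pool.Agent.MP_a43263_nt.N2.Lsm
import Pool.Agent.MP_a43263_nt.N2.Nc

/-! THEOREM N2: characters of large conductor, by the additive energy of the set of moduli. -/

set_option autoImplicit false

noncomputable section

namespace Pool.Agent.MP_a43263_nt.N2

open Finset Pool.Agent.MP_678834_nt.gy

namespace BigA

/-- separated points -/
def Sep {ι : Type} (θ : ι → ℝ) (K : ℕ) (J : Finset ι) : Prop :=
  ∀ i ∈ J, ∀ j ∈ J, i ≠ j → ∀ r : ℤ, 1 / (K : ℝ) ≤ |θ i - θ j - r|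

open Classical in
/-- the large sieve for points with bounded clustering -/
theorem mls {ι : Type} (θ : ι → ℝ) {K : ℕ} (hK : 1 ≤ K) (N : ℕ) (c : ℕ → ℂ) : ∀ (m : ℕ)
    (I : Finset ι), (∀ i ∈ I, (I.filter fun j => ∃ r : ℤ, |θ i - θ j - r| < 1 / K).card ≤ m) →
    ∑ i ∈ I, ‖∑ n ∈ range N, c n * ee (n * θ i)‖ ^ 2 ≤
      m * ((N + K * (1 + Real.log K)) * ∑ n ∈ range N, ‖c n‖ ^ 2) := by
  have K0 : (0 : ℝ) < 1 / K := by positivity
  have self : ∀ i, ∃ r : ℤ, |θ i - θ i - r| < 1 / K := fun i => ⟨0, by simpa using K0⟩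
  intro m
  induction m with
  | zero =>
    intro I h
    rcases I.eq_empty_or_nonempty with rfl | ⟨i, hi⟩
    · simp
    · exact absurd (card_pos.2 ⟨i, mem_filter.2 ⟨hi, self i⟩⟩) (not_lt.2 (h i hi))
  | succ m ih =>
    intro I h
    obtain ⟨J, hJ, mx⟩ := exists_max_image (I.powerset.filter (Sep θ K)) card
      ⟨∅, mem_filter.2 ⟨empty_mem_powerset _, fun _ h => absurd h (notMem_empty _)⟩⟩
    obtain ⟨J1, J2⟩ := mem_filter.1 hJ
    rw [mem_powerset] at J1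
    have h1 := ih (I \ J) fun i hi => by
      obtain ⟨i1, i2⟩ := mem_sdiff.1 hi
      obtain ⟨j, j1, j2⟩ : ∃ j ∈ J, ∃ r : ℤ, |θ i - θ j - r| < 1 / K := by
        by_contra k
        push Not at k
        have := mx (insert i J) (mem_filter.2 ⟨mem_powerset.2 (insert_subset i1 J1), ?_⟩)
        · rw [card_insert_of_notMem i2] at this; omega
        intro a ha b hb ab r
        rcases mem_insert.1 ha with rfl | ha' <;> rcases mem_insert.1 hb with rfl | hb'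
        · exact absurd rfl ab
        · exact k b hb' r
        · rw [show θ a - θ b - r = -(θ b - θ a - (-r : ℤ)) by push_cast; ring, abs_neg]
          exact k a ha' _
        · exact J2 a ha' b hb' ab r
      refine Nat.lt_succ_iff.1 (lt_of_lt_of_le (card_lt_card ⟨filter_subset_filter _
        sdiff_subset, fun k => ?_⟩) (h i i1))
      exact (mem_sdiff.1 (mem_filter.1 (k (mem_filter.2 ⟨J1 j1, j2⟩))).1).2 j1
    rw [← sum_sdiff J1, Nat.cast_succ, add_mul, one_mul]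
    exact add_le_add h1 (ls J θ hK J2 N c)

/-- a residue class in an interval -/
theorem cls {c : ℕ} (hc : 0 < c) (M : ℕ) (S : Finset ℤ) (h1 : ∀ n ∈ S, |n| ≤ M)
    (h2 : ∀ n ∈ S, ∀ n' ∈ S, (c : ℤ) ∣ n - n') : S.card ≤ 2 * M / c + 1 := by
  rw [← card_range (2 * M / c + 1)]
  refine card_le_card_of_injOn (fun n => (n + M).toNat / c) (fun n hn => ?_) fun n hn n' hn' e => ?_
  · have := abs_le.1 (h1 n hn)
    exact mem_coe.2 (mem_range.2 (Nat.lt_succ_of_le (Nat.div_le_div_right (by omega))))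
  · have a := abs_le.1 (h1 n hn)
    have b := abs_le.1 (h1 n' hn')
    have e1 := Nat.div_add_mod (n + M).toNat c
    have e2 := Nat.div_add_mod (n' + M).toNat c
    have e3 := Nat.mod_lt (n + M).toNat hc
    have e4 := Nat.mod_lt (n' + M).toNat hc
    dsimp only at e
    rw [e] at e1
    have := Int.eq_zero_of_abs_lt_dvd (h2 n hn n' hn') (by rw [abs_lt]; constructor <;> omega)
    omega

/-- the signed divisors -/
def sd (n : ℤ) : Finset ℤ := n.natAbs.divisors.image (fun d : ℕ => (d : ℤ)) ∪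
  n.natAbs.divisors.image fun d : ℕ => -(d : ℤ)

theorem sd_card (n : ℤ) : (sd n).card ≤ 2 * n.natAbs.divisors.card :=
  (card_union_le _ _).trans ((Nat.add_le_add card_image_le card_image_le).trans_eq (two_mul _).symm)

theorem mem_sd {n d : ℤ} (h0 : n ≠ 0) (h : d ∣ n) : d ∈ sd n := by
  have : d.natAbs ∈ n.natAbs.divisors :=
    Nat.mem_divisors.2 ⟨Int.natAbs_dvd_natAbs.2 h, Int.natAbs_ne_zero.2 h0⟩
  rcases Int.natAbs_eq d with e | e
  · exact mem_union_left _ (mem_image.2 ⟨_, this, e.symm⟩)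
  · exact mem_union_right _ (mem_image.2 ⟨_, this, e.symm⟩)

/-- the additive energy -/
theorem pts {U D s s' c M J τ : ℕ} {a : ℤ} {q : ℕ → ℕ} (A : Finset ℕ) (hD : 1 ≤ D) (hc : 0 < c)
    (ha : IsCoprime (c : ℤ) a) (hA : A ⊆ Ioc U (2 * U))
    (hq : ∀ u ∈ A, q u = D * ((u + s) ^ 2 * (2 * u + s')) ∧ q u ≤ M)
    (hj : ∀ u ∈ A, ∃ j : ℤ, |j| ≤ J ∧ (c : ℤ) ∣ a * q u - j)
    (hτ : ∀ n : ℕ, 1 ≤ n → n ≤ 2 * M → n.divisors.card ≤ τ) :
    A.card ^ 4 ≤ 2 * U * (2 * U ^ 2 + (8 * J + 1) * (4 * M / c + 1) * (2 * τ) ^ 2) := by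
  classical
  have AU : A.card ≤ U := (card_le_card hA).trans (by rw [Nat.card_Ioc]; omega)
  have h1 := card_sq_le_card_mul_addEnergy A A (Ioc (2 * U) (4 * U))
  rw [filter_eq_self.2 fun x hx => by
    have a1 := mem_Ioc.1 (hA (mem_product.1 hx).1)
    have a2 := mem_Ioc.1 (hA (mem_product.1 hx).2)
    exact mem_Ioc.2 ⟨by omega, by omega⟩, card_product, Nat.card_Ioc,
    show 4 * U - 2 * U = 2 * U by omega, ← sq, ← pow_mul] at h1
  refine h1.trans (Nat.mul_le_mul_left _ ?_)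
  set R := (Icc (-(2 * M : ℕ) : ℤ) (2 * M : ℕ)).filter fun n => n ≠ 0 ∧
    ∃ j ∈ Icc (-(4 * J : ℕ) : ℤ) (4 * J : ℕ), (c : ℤ) ∣ a * n - j with hR
  have r1 : R.card ≤ (8 * J + 1) * (4 * M / c + 1) := by
    refine (card_le_card (t := (Icc (-(4 * J : ℕ) : ℤ) (4 * J : ℕ)).biUnion fun j =>
      (Icc (-(2 * M : ℕ) : ℤ) (2 * M : ℕ)).filter fun n => (c : ℤ) ∣ a * n - j)
      fun n hn => ?_).trans (card_biUnion_le.trans ((sum_le_card_nsmul _ _ (4 * M / c + 1)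
        fun j _ => ?_).trans_eq ?_))
    · obtain ⟨b1, -, j, b2, b3⟩ := mem_filter.1 hn
      exact mem_biUnion.2 ⟨j, b2, mem_filter.2 ⟨b1, b3⟩⟩
    · rw [show 4 * M = 2 * (2 * M) by ring]
      refine cls hc (2 * M) _ (fun n hn => abs_le.2 (mem_Icc.1 (mem_filter.1 hn).1))
        fun n hn n' hn' => ha.dvd_of_dvd_mul_left ?_
      have := dvd_sub (mem_filter.1 hn).2 (mem_filter.1 hn').2
      rwa [show a * n - j - (a * n' - j) = a * (n - n') by ring] at this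
    · rw [Int.card_Icc, smul_eq_mul]
      congr 1
      omega
  set E := ((A ×ˢ A) ×ˢ A ×ˢ A).filter fun x => x.1.1 + x.2.1 = x.1.2 + x.2.2 with hE
  have mE : ∀ x ∈ E, (x.1.1 ∈ A ∧ x.1.2 ∈ A) ∧ (x.2.1 ∈ A ∧ x.2.2 ∈ A) ∧
      x.1.1 + x.2.1 = x.1.2 + x.2.2 := fun x hx => by
    simpa only [hE, mem_filter, mem_product, and_assoc] using hx
  have key : ∀ x ∈ E, (q x.1.1 : ℤ) + q x.2.1 - q x.1.2 - q x.2.2 = D * ((x.1.2 - x.1.1) *
      ((x.2.2 - x.1.1) * (6 * (x.1.2 + x.2.2) + 8 * s + 2 * s'))) := fun x hx => by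
    obtain ⟨⟨a1, a2⟩, ⟨a3, a4⟩, a5⟩ := mE x hx
    rw [(hq _ a1).1, (hq _ a2).1, (hq _ a3).1, (hq _ a4).1]
    have e : (x.2.1 : ℤ) = x.1.2 + x.2.2 - x.1.1 := by omega
    push_cast
    rw [e]
    ring
  have e1 : (E.filter fun x => x.1.2 = x.1.1).card ≤ U ^ 2 := by
    refine (card_le_card_of_injOn (t := A ×ˢ A) (fun x => (x.1.1, x.2.1)) (fun x hx => ?_)
      fun x hx y hy e => ?_).trans (by rw [card_product, sq]; exact Nat.mul_le_mul AU AU)
    · have := mE x (mem_filter.1 hx).1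
      exact mem_coe.2 (mem_product.2 ⟨this.1.1, this.2.1.1⟩)
    · have a1 := (mE x (mem_filter.1 hx).1).2.2
      have a2 := (mE y (mem_filter.1 hy).1).2.2
      have a3 := (mem_filter.1 hx).2
      have a4 := (mem_filter.1 hy).2
      obtain ⟨a5, a6⟩ := Prod.ext_iff.1 e
      dsimp only at a5 a6
      exact Prod.ext (Prod.ext a5 (by omega)) (Prod.ext a6 (by omega))
  have e2 : (E.filter fun x => x.2.2 = x.1.1).card ≤ U ^ 2 := by
    refine (card_le_card_of_injOn (t := A ×ˢ A) (fun x => (x.1.1, x.2.1)) (fun x hx => ?_)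
      fun x hx y hy e => ?_).trans (by rw [card_product, sq]; exact Nat.mul_le_mul AU AU)
    · have := mE x (mem_filter.1 hx).1
      exact mem_coe.2 (mem_product.2 ⟨this.1.1, this.2.1.1⟩)
    · have a1 := (mE x (mem_filter.1 hx).1).2.2
      have a2 := (mE y (mem_filter.1 hy).1).2.2
      have a3 := (mem_filter.1 hx).2
      have a4 := (mem_filter.1 hy).2
      obtain ⟨a5, a6⟩ := Prod.ext_iff.1 e
      dsimp only at a5 a6
      exact Prod.ext (Prod.ext a5 (by omega)) (Prod.ext a6 (by omega))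
  have e3 : (E.filter fun x => x.1.2 ≠ x.1.1 ∧ x.2.2 ≠ x.1.1).card ≤
      (8 * J + 1) * (4 * M / c + 1) * (2 * τ) ^ 2 := by
    have n0 : ∀ x ∈ E.filter fun x => x.1.2 ≠ x.1.1 ∧ x.2.2 ≠ x.1.1,
        (q x.1.1 : ℤ) + q x.2.1 - q x.1.2 - q x.2.2 ≠ 0 := fun x hx => by
      obtain ⟨a1, a2, a3⟩ := mem_filter.1 hx
      have := mem_Ioc.1 (hA (mE x a1).1.2)
      rw [key x a1]
      exact mul_ne_zero (by omega) (mul_ne_zero (by omega) (mul_ne_zero (by omega) (by omega)))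
    refine (card_le_card_of_injOn (t := R.sigma fun n => sd n ×ˢ sd n)
      (fun x => ⟨(q x.1.1 : ℤ) + q x.2.1 - q x.1.2 - q x.2.2,
        ((x.1.2 : ℤ) - x.1.1, (x.2.2 : ℤ) - x.1.1)⟩) (fun x hx => ?_) fun x hx y hy e => ?_).trans ?_
    · have a0 := n0 x hx
      have a1 := (mem_filter.1 hx).1
      obtain ⟨⟨b1, b2⟩, ⟨b3, b4⟩, -⟩ := mE x a1
      obtain ⟨j1, c1, d1⟩ := hj _ b1
      obtain ⟨j2, c2, d2⟩ := hj _ b2
      obtain ⟨j3, c3, d3⟩ := hj _ b3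
      obtain ⟨j4, c4, d4⟩ := hj _ b4
      have := (hq _ b1).2
      have := (hq _ b2).2
      have := (hq _ b3).2
      have := (hq _ b4).2
      rw [abs_le] at c1 c2 c3 c4
      dsimp only
      refine mem_coe.2 (mem_sigma.2 ⟨mem_filter.2 ⟨mem_Icc.2 ⟨by dsimp only; omega,
        by dsimp only; omega⟩, a0,
        j1 + j3 - j2 - j4, mem_Icc.2 ⟨by omega, by omega⟩, ?_⟩,
        mem_product.2 ⟨mem_sd a0 ?_, mem_sd a0 ?_⟩⟩)
      · have := dvd_sub (dvd_sub (dvd_add d1 d3) d2) d4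
        exact (congrArg _ (by ring)).mp this
      · exact Dvd.dvd.trans ((dvd_mul_right _ _).mul_left _) (key x a1).symm.dvd
      · exact Dvd.dvd.trans (((dvd_mul_right _ _).mul_left _).mul_left _) (key x a1).symm.dvd
    · obtain ⟨a1, a2⟩ := Sigma.mk.inj_iff.1 e
      obtain ⟨a3, a4⟩ := Prod.ext_iff.1 (eq_of_heq a2)
      obtain ⟨b1, b2, b3⟩ := mem_filter.1 (mem_coe.1 hx)
      have b4 := (mem_filter.1 (mem_coe.1 hy)).1
      have b5 := (mE x b1).2.2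
      have b6 := (mE y b4).2.2
      dsimp only at a3 a4
      rw [key x b1, key y b4, ← a3, ← a4] at a1
      have := mul_left_cancel₀ (by omega) (mul_left_cancel₀ (by omega)
        (mul_left_cancel₀ (by omega) a1))
      exact Prod.ext (Prod.ext (by omega) (by omega)) (Prod.ext (by omega) (by omega))
    · rw [card_sigma]
      refine (sum_le_card_nsmul _ _ ((2 * τ) ^ 2) fun n hn => ?_).trans
        (Nat.mul_le_mul_right _ r1)
      obtain ⟨a1, a2, -⟩ := mem_filter.1 hn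
      have := mem_Icc.1 a1
      have a3 := (sd_card n).trans (Nat.mul_le_mul_left 2 (hτ _ (by omega) (by omega)))
      rw [card_product, sq]
      exact Nat.mul_le_mul a3 a3
  refine (card_le_card (t := (E.filter fun x => x.1.2 = x.1.1) ∪ (E.filter fun x => x.2.2 = x.1.1) ∪
    E.filter fun x => x.1.2 ≠ x.1.1 ∧ x.2.2 ≠ x.1.1) fun x hx => ?_).trans
    ((card_union_le _ _).trans ((Nat.add_le_add_right (card_union_le _ _) _).trans (by omega)))
  have hx' : x ∈ E := hx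
  simp only [mem_union, mem_filter, hx', true_and]
  tauto

abbrev Ch : Type := Σ f : ℕ, DirichletCharacter ℂ f

/-- reduced fractions with given denominators -/
def Fr (V : Finset ℕ) : Finset (Σ _ : ℕ, ℕ) :=
  V.sigma fun c => (range c).filter fun b => Nat.Coprime b c

/-- from characters to fractions -/
theorem gm (V : Finset ℕ) (S : Finset Ch) (hV : ∀ c ∈ V, 0 < c)
    (hS : ∀ z ∈ S, z.1 ∈ V ∧ z.2.IsPrimitive) (W : Finset ℕ) (c : ℕ → ℂ) :
    ∑ z ∈ S, ‖∑ n ∈ W, c n * z.2 n‖ ^ 2 ≤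
      ∑ z ∈ Fr V, ‖∑ n ∈ W, c n * ee (n * ((z.2 : ℝ) / z.1))‖ ^ 2 := by
  set s : ℕ × ℕ → ℂ := fun z => ∑ n ∈ W, c n * ee (n * ((z.2 : ℝ) / z.1)) with hs
  calc ∑ z ∈ S, ‖∑ n ∈ W, c n * z.2 n‖ ^ 2
      = ∑ z ∈ S, 1 / (z.1 : ℝ) * ‖∑ a ∈ range z.1, z.2⁻¹ (a : ZMod z.1) * s (z.1, a)‖ ^ 2 := by
        refine sum_congr rfl fun z hz => ?_
        obtain ⟨a1, a3⟩ := hS z hz
        obtain ⟨τ, t1, t2⟩ := LsmA.expand1 (hV _ a1) z.2 a3
        have q0 : (z.1 : ℝ) ≠ 0 := by exact_mod_cast (hV _ a1).ne'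
        have e : ∑ a ∈ range z.1, z.2⁻¹ (a : ZMod z.1) * s (z.1, a) =
            τ * ∑ n ∈ W, c n * z.2 n := by
          simp only [hs, mul_sum]
          rw [sum_comm]
          refine sum_congr rfl fun n _ => ?_
          rw [mul_left_comm, t2, mul_sum]
          exact sum_congr rfl fun a _ => by ring
        rw [e, norm_mul, mul_pow, t1]
        field_simp
    _ ≤ ∑ z ∈ V.sigma fun q => (univ : Finset (DirichletCharacter ℂ q)), 1 / (z.1 : ℝ) *
          ‖∑ a ∈ range z.1, z.2⁻¹ (a : ZMod z.1) * s (z.1, a)‖ ^ 2 :=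
        sum_le_sum_of_subset_of_nonneg (fun z hz => mem_sigma.2 ⟨(hS z hz).1, mem_univ _⟩)
          fun _ _ _ => by positivity
    _ ≤ _ := by
        rw [Fr, sum_sigma, sum_sigma]
        refine sum_le_sum fun q hq => ?_
        have q1 := hV q hq
        have : NeZero q := ⟨q1.ne'⟩
        have q0 : (0 : ℝ) < q := by exact_mod_cast q1
        dsimp only
        rw [← mul_sum, FamAux.pars_mul fun a => s (q, a), ← mul_assoc]
        refine mul_le_of_le_one_left (sum_nonneg fun _ _ => sq_nonneg _) ?_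
        rw [one_div, inv_mul_le_iff₀ q0, mul_one]
        exact_mod_cast Nat.totient_le q

/-- fractions with denominators dividing `q` are separated -/
theorem sepq {q a c a' c' : ℕ} {r : ℤ} (hq : 0 < q) (h1 : c ∣ q) (h2 : c' ∣ q) (h3 : a < c)
    (h4 : a' < c') (h5 : a.Coprime c) (h6 : a'.Coprime c')
    (h : |(a : ℝ) / c - (a' : ℝ) / c' - r| < 1 / q) : c = c' ∧ a = a' := by
  obtain ⟨e, rfl⟩ := h1
  obtain ⟨e', he⟩ := h2
  have c0 : 0 < c := by omega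
  have c1 : 0 < c' := by omega
  have e0 : 0 < e := Nat.pos_of_mul_pos_left hq
  have e1 : 0 < e' := Nat.pos_of_mul_pos_left (he ▸ hq)
  have q0 : (0 : ℝ) < (c * e : ℕ) := by exact_mod_cast hq
  have k1 : (a : ℝ) / c = (a * e : ℕ) / (c * e : ℕ) := by push_cast; field_simp
  have k2 : (a' : ℝ) / c' = (a' * e' : ℕ) / (c * e : ℕ) := by rw [he]; push_cast; field_simp
  have k3 : ((a * e : ℕ) : ℝ) / (c * e : ℕ) - (a' * e' : ℕ) / (c * e : ℕ) - r =
      (((a * e : ℕ) - (a' * e' : ℕ) - r * (c * e : ℕ) : ℤ) : ℝ) / (c * e : ℕ) := by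
    push_cast; field_simp
  rw [k1, k2, k3, abs_div, abs_of_pos q0, div_lt_div_iff_of_pos_right q0, ← Int.cast_abs] at h
  have k4 : ((a * e : ℕ) : ℤ) - (a' * e' : ℕ) - r * (c * e : ℕ) = 0 :=
    Int.abs_lt_one_iff.1 (by exact_mod_cast h)
  have k5 : a * e < c * e := Nat.mul_lt_mul_of_pos_right h3 e0
  have k6 : a' * e' < c * e := he ▸ Nat.mul_comm c' e' ▸ Nat.mul_comm a' e' ▸
    Nat.mul_lt_mul_of_pos_left h4 e1
  have k7 : a * e = a' * e' := by
    have := Int.eq_zero_of_abs_lt_dvd (m := (c * e : ℕ)) (x := (a * e : ℕ) - (a' * e' : ℕ))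
      ⟨r, by linarith⟩ (by rw [abs_lt]; constructor <;> omega)
    omega
  have k8 : e = e' := by
    rw [← one_mul e, ← one_mul e', ← h5.gcd_eq_one, ← Nat.gcd_mul_right, k7, he,
      Nat.gcd_mul_right, h6.gcd_eq_one, h5.gcd_eq_one]
  subst k8
  exact ⟨Nat.eq_of_mul_eq_mul_right e0 he, Nat.eq_of_mul_eq_mul_right e0 k7⟩

theorem num {U D h c C τ : ℝ} (U1 : 1 ≤ U) (D1 : 1 ≤ D) (h0 : 0 < h) (c0 : 0 < c) {M J P : ℝ}
    (hM : M = 54 * D * U ^ 3) (big : M ^ 4 ≤ h ^ 2 * U ^ 3) (c1 : c ≤ M) (c2 : h ^ 5 ≤ c ^ 9)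
    (J1 : J * h ≤ M * c) (P0 : 0 ≤ P) (P1 : P * c ≤ 4 * M) 
    (τ1 : τ ^ 4 ≤ C ^ 4 * U) :
    (8 * J + 1) * (P + 1) * (2 * τ) ^ 2 ≤ 180 * C ^ 2 * U ^ 2 := by
  obtain ⟨w, w1, rfl⟩ : ∃ w : ℝ, 1 ≤ w ∧ U = w ^ 2 :=
    ⟨√U, Real.one_le_sqrt.2 U1, (Real.sq_sqrt (by linarith)).symm⟩
  have w0 : 0 < w := by linarith
  have w3 : 1 ≤ w ^ 3 := one_le_pow₀ w1
  have M1 : w ^ 6 ≤ M := by
    rw [hM, show (w ^ 2) ^ 3 = w ^ 6 by ring]
    exact le_mul_of_one_le_left (by positivity) (by linarith)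
  have M0 : 0 < M := lt_of_lt_of_le (by positivity) M1
  have a1 : M ^ 2 ≤ h * w ^ 3 := (pow_le_pow_iff_left₀ (by positivity) (by positivity)
    two_ne_zero).1 (by linarith [show (M ^ 2) ^ 2 = M ^ 4 by ring,
      show (h * w ^ 3) ^ 2 = h ^ 2 * (w ^ 2) ^ 3 by ring])
  have a2 : τ ^ 2 ≤ C ^ 2 * w := (pow_le_pow_iff_left₀ (by positivity) (by positivity)
    two_ne_zero).1 (by linarith [show (τ ^ 2) ^ 2 = τ ^ 4 by ring,
      show (C ^ 2 * w) ^ 2 = C ^ 4 * w ^ 2 by ring])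
  have a3 : J ≤ w ^ 3 := le_of_mul_le_mul_right (by nlinarith) h0
  have a4 : J * P ≤ 4 * w ^ 3 := by
    refine le_of_mul_le_mul_right ?_ (mul_pos h0 c0)
    calc J * P * (h * c) = J * h * (P * c) := by ring
      _ ≤ M * c * (4 * M) := mul_le_mul J1 P1 (by positivity) (by positivity)
      _ = 4 * c * M ^ 2 := by ring
      _ ≤ 4 * c * (h * w ^ 3) := by gcongr
      _ = _ := by ring
  have a5 : M ≤ w ^ 3 * c := by
    refine (pow_le_pow_iff_left₀ M0.le (by positivity) (n := 9) (by norm_num)).1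
      (le_of_mul_le_mul_right ?_ (show 0 < M by positivity))
    calc M ^ 9 * M = (M ^ 2) ^ 5 := by ring
      _ ≤ (h * w ^ 3) ^ 5 := by gcongr
      _ = h ^ 5 * w ^ 15 * 1 := by ring
      _ ≤ c ^ 9 * w ^ 27 * M := by
        gcongr
        · norm_num
        · exact (one_le_pow₀ w1).trans M1
      _ = _ := by ring
  have a6 : P ≤ 4 * w ^ 3 := le_of_mul_le_mul_right (by linarith) c0
  calc _ = (8 * (J * P) + 8 * J + P + 1) * (4 * τ ^ 2) := by ring
    _ ≤ (45 * w ^ 3) * (4 * (C ^ 2 * w)) := by gcongr; linarith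
    _ = _ := by ring

end BigA

open BigA in
/-- the characters of large conductor -/
theorem large : ∃ C : ℝ, 0 < C ∧ ∀ (U h D s s' y : ℕ) (q : ℕ → ℕ) (T : Finset ℕ) (c : ℕ → ℂ)
    (S : ℕ → Finset BigA.Ch) (β : ℝ), 1 ≤ U → 1 ≤ D → 108 * D ≤ U → s ≤ U → s' ≤ 2 * U →
    T ⊆ Ioc U (2 * U) → (∀ u ∈ T, q u = D * ((u + s) ^ 2 * (2 * u + s'))) →
    (54 * D * U ^ 3) ^ 4 ≤ h ^ 2 * U ^ 3 →
    (∀ u ∈ T, ∀ z ∈ S u, z.1 ∣ q u ∧ h ^ 5 < z.1 ^ 9 ∧ z.2.IsPrimitive) → 0 ≤ β →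
    C * U ^ 3 ≤ β ^ 4 → ∑ u ∈ T, ∑ z ∈ S u, ‖∑ n ∈ Ico y (y + h), c n * z.2 n‖ ^ 2 ≤
      β * ((h + h * (1 + Real.log h)) * ∑ n ∈ Ico y (y + h), ‖c n‖ ^ 2) := by
  classical
  obtain ⟨C, C1, hC⟩ := NcA.divisor (show (0 : ℝ) < 1 / 16 by norm_num)
  refine ⟨4 + 360 * C ^ 2, by positivity,
    fun U h D s s' y q T c S β U1 D1 DU s1 s2 sub eq big hS β0 hβ => ?_⟩
  obtain ⟨M, hM⟩ : ∃ M, M = 54 * D * U ^ 3 := ⟨_, rfl⟩
  rw [← hM] at big
  have M1 : 54 * U ^ 3 ≤ M := hM ▸ Nat.mul_le_mul_right _ (by omega)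
  have U3 : 1 ≤ U ^ 3 := Nat.one_le_pow _ _ U1
  have Mh : 2 * M ≤ h := by
    by_contra k
    have a1 : h ^ 2 * U ^ 3 ≤ (2 * M) ^ 2 * M :=
      Nat.mul_le_mul (Nat.pow_le_pow_left (by omega) 2) (by omega)
    have a2 : M ^ 3 * M ≤ M ^ 3 * 4 := by nlinarith
    have := Nat.le_of_mul_le_mul_left a2 (Nat.pow_pos (by omega))
    omega
  have h1 : 1 ≤ h := by omega
  have h0 : (0 : ℝ) < h := by exact_mod_cast h1
  have hq : ∀ u ∈ T, 1 ≤ q u ∧ q u ≤ M := fun u hu => by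
    have a := mem_Ioc.1 (sub hu)
    rw [eq u hu, hM, show 54 * D * U ^ 3 = D * ((3 * U) ^ 2 * (6 * U)) by ring]
    exact ⟨Nat.mul_pos D1 (Nat.mul_pos (Nat.pow_pos (by omega)) (by omega)),
      Nat.mul_le_mul_left _ (Nat.mul_le_mul (Nat.pow_le_pow_left (by omega) 2) (by omega))⟩
  set V : ℕ → Finset ℕ := fun u => (q u).divisors.filter fun e => h ^ 5 < e ^ 9 with hV
  have a1 := sum_le_sum fun u (hu : u ∈ T) => gm (V u) (S u)
    (fun e he => Nat.pos_of_mem_divisors (mem_filter.1 he).1) (fun z hz => ⟨mem_filter.2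
      ⟨Nat.mem_divisors.2 ⟨(hS u hu z hz).1, by have := (hq u hu).1; omega⟩, (hS u hu z hz).2.1⟩,
      (hS u hu z hz).2.2⟩) (Ico y (y + h)) c
  refine a1.trans ?_
  rw [sum_sigma' T fun u => Fr (V u)]
  have mI : ∀ i ∈ T.sigma fun u => Fr (V u), i.1 ∈ T ∧ i.2.1 ∣ q i.1 ∧ h ^ 5 < i.2.1 ^ 9 ∧
      i.2.2 < i.2.1 ∧ i.2.2.Coprime i.2.1 := fun i hi => by
    obtain ⟨b1, b2⟩ := mem_sigma.1 hi
    obtain ⟨b3, b4⟩ := mem_sigma.1 b2
    exact ⟨b1, Nat.dvd_of_mem_divisors (mem_filter.1 b3).1, (mem_filter.1 b3).2,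
      mem_range.1 (mem_filter.1 b4).1, (mem_filter.1 b4).2⟩
  have cl : ∀ i ∈ T.sigma fun u => Fr (V u), ∀ N : Finset (Σ _ : ℕ, Σ _ : ℕ, ℕ),
      (∀ j ∈ N, (j ∈ T.sigma fun u => Fr (V u)) ∧
        ∃ r : ℤ, |(i.2.2 : ℝ) / i.2.1 - (j.2.2 : ℝ) / j.2.1 - r| < 1 / h) → N.card ≤ ⌊β⌋₊ := by
    intro i hi N mN
    obtain ⟨i1, i2, i3, i4, i5⟩ := mI i hi
    rw [← card_image_of_injOn (f := fun j : Σ _ : ℕ, Σ _ : ℕ, ℕ => j.1) fun j hj j' hj' e => by
      obtain ⟨j1, r, j2⟩ := mN j hj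
      obtain ⟨j3, r', j4⟩ := mN j' hj'
      obtain ⟨b1, b2, -, b3, b4⟩ := mI j j1
      obtain ⟨-, b5, -, b6, b7⟩ := mI j' j3
      obtain ⟨u, e1, a1⟩ := j
      obtain ⟨u', e2, a2⟩ := j'
      obtain rfl : u = u' := e
      have q0 : (0 : ℝ) < q u := by exact_mod_cast (hq u b1).1
      obtain ⟨rfl, rfl⟩ := sepq (r := r' - r) (hq u b1).1 b2 b5 b3 b6 b4 b7 (by
        have : 1 / (h : ℝ) + 1 / h ≤ 1 / q u := by
          rw [← add_div, div_le_div_iff₀ h0 q0]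
          exact_mod_cast (by have := (hq u b1).2; omega : (1 + 1) * q u ≤ 1 * h)
        rw [abs_lt] at j2 j4 ⊢
        push_cast
        constructor <;> linarith [j2.1, j2.2, j4.1, j4.2])
      rfl]
    have c0 : 0 < i.2.1 := by omega
    have c1 : i.2.1 ≤ M := (Nat.le_of_dvd (hq _ i1).1 i2).trans (hq _ i1).2
    have c2 : (0 : ℝ) < i.2.1 := by exact_mod_cast c0
    have b1 := pts (U := U) (D := D) (s := s) (s' := s') (c := i.2.1) (M := M) (J := M * i.2.1 / h)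
      (τ := ⌊C * (U : ℝ) ^ (1 / 4 : ℝ)⌋₊) (a := i.2.2) (q := q) (N.image fun j => j.1) D1 c0
      (Nat.isCoprime_iff_coprime.2 i5.symm) (fun u hu => by
        obtain ⟨j, hj, rfl⟩ := mem_image.1 hu
        exact sub (mI j (mN j hj).1).1) (fun u hu => by
        obtain ⟨j, hj, rfl⟩ := mem_image.1 hu
        exact ⟨eq _ (mI j (mN j hj).1).1, (hq _ (mI j (mN j hj).1).1).2⟩) (fun u hu => by
        obtain ⟨j, hj, rfl⟩ := mem_image.1 hu
        obtain ⟨j1, r, j2⟩ := mN j hj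
        obtain ⟨b1, ⟨e, b2⟩, -, b3, -⟩ := mI j j1
        refine ⟨i.2.2 * q j.1 - i.2.1 * (j.2.2 * e + r * q j.1), ?_, ⟨_, sub_sub_cancel _ _⟩⟩
        have j0 : (0 : ℝ) < j.2.1 := by exact_mod_cast (by omega : 0 < j.2.1)
        have q0 : (0 : ℝ) < q j.1 := by exact_mod_cast (hq _ b1).1
        have e1 : ((i.2.2 * q j.1 - i.2.1 * (j.2.2 * e + r * q j.1) : ℤ) : ℝ) =
            ((i.2.2 : ℝ) / i.2.1 - (j.2.2 : ℝ) / j.2.1 - r) * (q j.1 * i.2.1) := by
          rw [b2]; push_cast; field_simp; ring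
        rw [Int.abs_eq_natAbs, Nat.cast_le, Nat.le_div_iff_mul_le h1, ← Nat.cast_le (α := ℝ),
          Nat.cast_mul, Nat.cast_natAbs, Int.cast_abs, e1, abs_mul, abs_of_pos (mul_pos q0 c2),
          Nat.cast_mul, mul_right_comm]
        refine (mul_le_of_le_one_left (by positivity) ((lt_div_iff₀ h0).1 j2).le).trans ?_
        exact mul_le_mul_of_nonneg_right (Nat.cast_le.2 (hq _ b1).2) c2.le) fun n n1 n2 => by
        refine Nat.le_floor ((hC n n1).trans (mul_le_mul_of_nonneg_left ?_ (by linarith)))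
        have : (n : ℝ) ≤ (U : ℝ) ^ 4 := by
          exact_mod_cast n2.trans (by rw [hM]; nlinarith : 2 * M ≤ U ^ 4)
        refine (Real.rpow_le_rpow (by positivity) this (by norm_num)).trans_eq ?_
        rw [← Real.rpow_natCast, ← Real.rpow_mul (by positivity)]
        norm_num
    have b2 := num (C := C) (Nat.one_le_cast.2 U1) (Nat.one_le_cast.2 D1) h0 c2 (M := M)
      (J := (M * i.2.1 / h : ℕ)) (P := (4 * M / i.2.1 : ℕ)) (τ := ⌊C * (U : ℝ) ^ (1 / 4 : ℝ)⌋₊)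
      (by exact_mod_cast hM) (by exact_mod_cast big) (by exact_mod_cast c1)
      (by exact_mod_cast i3.le) (by exact_mod_cast Nat.div_mul_le_self _ _)
      (by positivity) (by exact_mod_cast Nat.div_mul_le_self _ _)
      ((pow_le_pow_left₀ (by positivity) (Nat.floor_le (by positivity)) 4).trans_eq (by
        rw [mul_pow, ← Real.rpow_natCast (_ ^ _), ← Real.rpow_mul (by positivity)]
        norm_num))
    have b3 := (Nat.cast_le (α := ℝ)).2 b1
    push_cast at b3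
    refine Nat.le_floor ((pow_le_pow_iff_left₀ (by positivity) β0 (n := 4) (by norm_num)).1
      (b3.trans (le_trans ?_ hβ)))
    calc _ ≤ 2 * (U : ℝ) * (2 * U ^ 2 + 180 * C ^ 2 * U ^ 2) := by gcongr
      _ = _ := by ring
  have a2 := mls (fun i : Σ _ : ℕ, Σ _ : ℕ, ℕ => (i.2.2 : ℝ) / i.2.1) h1 h (fun i => c (y + i))
    ⌊β⌋₊ (T.sigma fun u => Fr (V u)) fun i hi => cl i hi _ fun j hj => mem_filter.1 hj
  rw [sum_Ico_eq_sum_range (fun n => ‖c n‖ ^ 2), Nat.add_sub_cancel_left]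
  refine le_trans (le_of_eq (sum_congr rfl fun z _ => ?_)) (a2.trans
    (mul_le_mul_of_nonneg_right (Nat.floor_le β0) ?_))
  · rw [sum_Ico_eq_sum_range, Nat.add_sub_cancel_left]
    have e : ∑ i ∈ range h, c (y + i) * ee (((y + i : ℕ) : ℝ) * ((z.2.2 : ℝ) / z.2.1)) =
        ee (y * ((z.2.2 : ℝ) / z.2.1)) *
          ∑ i ∈ range h, c (y + i) * ee (i * ((z.2.2 : ℝ) / z.2.1)) := by
      rw [mul_sum]
      refine sum_congr rfl fun i _ => ?_
      rw [Nat.cast_add, add_mul, ee_add]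
      ring
    rw [e, norm_mul, norm_ee, one_mul]
  · have := Real.log_natCast_nonneg h
    positivity

end Pool.Agent.MP_a43263_nt.N2
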