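import Pool.Agent.MP_a43263_nt.N2.SpecB

/-! THEOREM N2, row Dtw: the density at an unramified prime. -/

set_option autoImplicit false

namespace Pool.Agent.MP_a43263_nt.N2

open Finset Matrix JC Pool.Agent.MP_a43263_nt.UV K2

namespace DtwA

variable {F : Type} [Field F]

/-- independent isotropic tuples -/
abbrev Iso (k : ℕ) {ι : Type} [Fintype ι] (S : Matrix ι ι F) : Type :=
  {x : Fin k → ι → F // LinearIndependent F x ∧ ∀ i j, x i ⬝ᵥ S *ᵥ x j = 0}

theorem ch2 (g : ℕ) : 2 * g.choose 2 + g = g * g := by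
  induction g with
  | zero => rfl
  | succ g ih =>
    rw [Nat.choose_succ_succ' g 1, Nat.choose_one_right]
    show 2 * (g + g.choose 2) + (g + 1) = _
    nlinarith

theorem expo (g : ℕ) : g.choose 2 + (g + 1) * (g + 1) + (2 * g + 1) * (g + 1) +
    (g + 1 + 1).choose 2 = (g + 1) * (2 * g + 1 + (2 * g + 1)) + 1 := by
  have a := ch2 g
  have b := ch2 (g + 1 + 1)
  nlinarith

theorem three [Fintype F] (h2 : (2 : F) ≠ 0) : 3 ≤ Fintype.card F :=
  Fintype.two_lt_card_iff.2 ⟨0, 1, 2, zero_ne_one, h2.symm, fun h => one_ne_zero (α := F) (by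
    linear_combination -h)⟩

theorem conj {ι κ : Type} [Fintype ι] [Fintype κ] (S : Matrix ι ι F) (Γ : Matrix ι κ F)
    (x y : κ → F) : (Γ *ᵥ x) ⬝ᵥ S *ᵥ (Γ *ᵥ y) = x ⬝ᵥ (Γᵀ * S * Γ) *ᵥ y := by
  rw [← mulVec_mulVec, ← mulVec_mulVec, dotProduct_mulVec x, vecMul_transpose]

/-- change of basis -/
theorem chg [Fintype F] {n k : ℕ} (S Γ : Matrix (Fin n) (Fin n) F) (h : IsUnit Γ.det) :
    Nat.card (Iso k (Γᵀ * S * Γ)) ≤ Nat.card (Iso k S) := by
  have hi : Function.Injective Γ.mulVec :=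
    mulVec_injective_iff_isUnit.2 ((isUnit_iff_isUnit_det Γ).2 h)
  refine Nat.card_le_card_of_injective (fun x => ⟨fun i => Γ *ᵥ x.1 i,
    x.2.1.map' Γ.mulVecLin (LinearMap.ker_eq_bot.2 hi), fun i j => by rw [conj, x.2.2]⟩) ?_
  intro x y e
  exact Subtype.ext (funext fun i => hi (congrFun (congrArg Subtype.val e) i))

theorem card_comap [Fintype F] {m : ℕ} (Λ : Submodule F (Fin m → F)) :
    Nat.card (Λ.comap (LinearMap.funLeft F F (Fin.succ : Fin m → Fin (m + 1)))) =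
      Fintype.card F * Nat.card Λ := by
  rw [← Nat.card_eq_fintype_card, ← Nat.card_prod]
  refine Nat.card_congr ⟨fun x => (x.1 0, ⟨Fin.tail x.1, x.2⟩),
    fun p => ⟨Fin.cons p.1 p.2.1, p.2.2⟩, fun x => Subtype.ext (Fin.cons_self_tail x.1),
    fun p => rfl⟩

/-- many isotropic tuples -/
theorem low [Fintype F] (lag : LAGCStmt) (bas : BASStmt) (h2 : (2 : F) ≠ 0) {g : ℕ} (hg : 1 ≤ g)
    {S : Mat g F} (h : Hz g S) :
    2 * (Fintype.card F : ℝ) ^ g.choose 2 * (Fintype.card F : ℝ) ^ ((g + 1) * (g + 1)) ≤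
      (1 + 3 / Fintype.card F) * (Nat.card (Iso (g + 1) S) : ℝ) := by
  classical
  obtain ⟨Γ, e, h1, he, hs, hD⟩ := h
  obtain ⟨L, hL, hΛ⟩ := lag F h2 g e hg (fun i => (he i).ne_zero) hs
  obtain ⟨τ, hτ⟩ : ∃ τ : (Fin (2 * g + 1) → F) →ₗ[F] (Fin (2 * g) → F),
    τ = LinearMap.funLeft F F Fin.succ := ⟨_, rfl⟩
  have sj : Function.Surjective τ := hτ ▸ LinearMap.funLeft_surjective_of_injective F F _
    (Fin.succ_injective _)
  have c1 : Nat.card (Σ Λ : L, {x : Fin (g + 1) → Fin (2 * g + 1) → F // LinearIndependent F x ∧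
      Submodule.span F (Set.range x) = Λ.1.comap τ}) ≤ Nat.card (Iso (g + 1) (Γᵀ * S * Γ)) := by
    refine Nat.card_le_card_of_injective (fun t => ⟨t.2.1, t.2.2.1, fun i j => ?_⟩) ?_
    · have m : ∀ i, τ (t.2.1 i) ∈ t.1.1 := fun i =>
        Submodule.mem_comap.1 (t.2.2.2.le (Submodule.subset_span ⟨i, rfl⟩))
      refine Eq.trans ?_ ((hΛ _ t.1.2).2 _ (m i) _ (m j))
      rw [hD, dotProduct, Fin.sum_univ_succ]
      simp only [mulVec_diagonal, Fin.cons_zero, Fin.cons_succ, hτ, LinearMap.funLeft_apply,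
        zero_mul, mul_zero, zero_add]
      exact sum_congr rfl fun _ _ => by ring
    · rintro ⟨⟨Λ, a⟩, x, b⟩ ⟨⟨Λ', a'⟩, x', b'⟩ e
      obtain rfl : x = x' := congrArg Subtype.val e
      obtain rfl : Λ = Λ' := Submodule.comap_injective_of_surjective sj (b.2.symm.trans b'.2)
      rfl
  have c2 := (Nat.cast_le (α := ℝ)).2 (c1.trans (chg S Γ h1))
  rw [Nat.card_sigma, Nat.cast_sum] at c2
  have c3 : 2 * (Fintype.card F : ℝ) ^ g.choose 2 ≤ L.card := by exact_mod_cast hL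
  refine le_trans ?_ (mul_le_mul_of_nonneg_left c2 (by positivity))
  rw [mul_sum]
  refine le_trans ?_ (card_nsmul_le_sum _ _ ((Fintype.card F : ℝ) ^ ((g + 1) * (g + 1)))
    fun Λ _ => bas F (three h2) (g + 1) _ _ ?_)
  · rw [nsmul_eq_mul, card_univ, Fintype.card_coe]
    gcongr
  · rw [hτ, card_comap, (hΛ _ Λ.2).1, pow_succ']

theorem dual {n k : ℕ} (x : Fin k → Fin n → F) : ∃ Y : Matrix (Fin k) (Fin n) F,
    LinearIndependent F x → ∀ j, Y *ᵥ x j = Pi.single j 1 := by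
  by_cases h : LinearIndependent F x
  · obtain ⟨L, hL⟩ := (Fintype.linearCombination F x).exists_leftInverse_of_injective
      (LinearMap.ker_eq_bot.2 (h.fintypeLinearCombination_injective))
    refine ⟨LinearMap.toMatrix' L, fun _ j => ?_⟩
    have := LinearMap.congr_fun hL (Pi.single j 1)
    rw [LinearMap.comp_apply, Fintype.linearCombination_apply_single, one_smul] at this
    rw [LinearMap.toMatrix'_mulVec, this, LinearMap.id_apply]
  · exact ⟨0, fun h' => absurd h' h⟩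

/-- the double count -/
theorem up [Fintype F] {n k : ℕ} (A B : Matrix (Fin n) (Fin n) F)
    (P : Matrix (Fin n) (Fin n) F → Prop) :
    Nat.card (Σ N : {N // P N}, Iso k (A + N.1ᵀ * B * N.1)) * Fintype.card F ^ (n * k) ≤
      Nat.card (Iso k (fromBlocks A 0 0 B)) * Fintype.card F ^ (n * n) := by
  classical
  choose Y hY using dual (F := F) (n := n) (k := k)
  have cm : ∀ m : ℕ, Fintype.card F ^ (n * m) = Nat.card (Matrix (Fin n) (Fin m) F) := fun m => by
    rw [Nat.card_eq_fintype_card]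
    show _ = Fintype.card (Fin n → Fin m → F)
    simp only [Fintype.card_fun, Fintype.card_fin]
    rw [← pow_mul, mul_comm]
  rw [cm, cm, ← Nat.card_prod, ← Nat.card_prod]
  refine Nat.card_le_card_of_injective (fun t =>
    (⟨fun i => Sum.elim (t.1.2.1 i) (t.1.1.1 *ᵥ t.1.2.1 i), ?_, fun i j => ?_⟩,
      t.1.1.1 + t.2 * Y t.1.2.1)) ?_
  · exact LinearIndependent.of_comp (LinearMap.funLeft F F Sum.inl) t.1.2.2.1
  · refine Eq.trans ?_ (t.1.2.2.2 i j)
    rw [add_mulVec, dotProduct_add, ← conj, fromBlocks_mulVec, sumElim_dotProduct_sumElim]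
    simp
  · rintro ⟨⟨⟨N, a⟩, x, b⟩, U⟩ ⟨⟨⟨N', a'⟩, x', b'⟩, U'⟩ e
    have e1 := congrArg Subtype.val (congrArg Prod.fst e)
    have e2 : N + U * Y x = N' + U' * Y x' := congrArg Prod.snd e
    obtain rfl : x = x' := funext fun i => funext fun s => congrFun (congrFun e1 i) (Sum.inl s)
    have e3 : ∀ i, N *ᵥ x i = N' *ᵥ x i := fun i =>
      funext fun s => congrFun (congrFun e1 i) (Sum.inr s)
    obtain rfl : U = U' := by
      ext s j
      have := congrFun (congrArg (fun M => M *ᵥ x j) e2) s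
      simpa [add_mulVec, ← mulVec_mulVec, hY x b.1 j, e3] using this
    obtain rfl : N = N' := add_right_cancel e2
    rfl

end DtwA

open DtwA in
theorem dtw_n : LAGCStmt → TUPStmt → BASStmt → DTWStmt := by
  classical
  intro lag tup bas g hg
  obtain ⟨C, C0, hC⟩ := tup (g + 1)
  refine ⟨3 + 4 * C, by positivity, fun F _ _ h2 A A' c w sA sA' dA dA' w0 hc => ?_⟩
  have eS : ∀ N : Mat g F, c • A + A * Tt A A' N = w ^ 2 • A + Nᵀ * (-A'⁻¹) * N := fun N => by
    rw [Tt, ← hc, mul_sub, mul_one, ← mul_assoc, ← mul_assoc, ← mul_assoc,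
      mul_nonsing_inv A (isUnit_iff_ne_zero.2 dA), one_mul, add_smul, one_smul, mul_neg, neg_mul]
    abel
  simp only [eS]
  have t := hC F h2 (Fin (2 * g + 1) ⊕ Fin (2 * g + 1)) (fromBlocks (w ^ 2 • A) 0 0 (-A'⁻¹))
    (IsSymm.fromBlocks (sA.smul _) transpose_zero sA'.inv.neg) (by
      rw [det_fromBlocks_zero₂₁, det_smul, det_neg]
      refine mul_ne_zero (mul_ne_zero (by positivity) dA) (mul_ne_zero (by simp) ?_)
      exact (isUnit_nonsing_inv_det A' (isUnit_iff_ne_zero.2 dA')).ne_zero)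
    (by simp only [Fintype.card_sum, Fintype.card_fin]; omega)
  simp only [Fintype.card_sum, Fintype.card_fin] at t
  have u := (Nat.cast_le (α := ℝ)).2 (up (k := g + 1) (w ^ 2 • A) (-A'⁻¹)
    fun N => Hz g (w ^ 2 • A + Nᵀ * (-A'⁻¹) * N))
  rw [Nat.card_sigma] at u
  push_cast at u
  have l := card_nsmul_le_sum univ _ _ fun
    (N : {N : Mat g F // Hz g (w ^ 2 • A + Nᵀ * (-A'⁻¹) * N)}) _ => low lag bas h2 hg N.2
  rw [← mul_sum, nsmul_eq_mul, card_univ, ← Nat.card_eq_fintype_card] at l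
  have q1 : (1 : ℝ) ≤ Fintype.card F := by exact_mod_cast Fintype.card_pos
  generalize (Fintype.card F : ℝ) = q at *
  generalize (Nat.card {N : Mat g F // Hz g (w ^ 2 • A + Nᵀ * (-A'⁻¹) * N)} : ℝ) = H at *
  generalize (∑ N : {N : Mat g F // Hz g (w ^ 2 • A + Nᵀ * (-A'⁻¹) * N)},
    (Nat.card (Iso (g + 1) (w ^ 2 • A + N.1ᵀ * (-A'⁻¹) * N.1)) : ℝ)) = T at *
  generalize (Nat.card (Iso (g + 1) (fromBlocks (w ^ 2 • A) 0 0 (-A'⁻¹))) : ℝ) = U at *
  have q0 : 0 < q := by linarith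
  have z : (1 + 3 / q) * (1 + C / q) ≤ 1 + (3 + 4 * C) / q := by
    have a1 : 3 / q ≤ 3 := div_le_self (by norm_num) q1
    have a2 : 0 ≤ C / q := by positivity
    have a3 : (3 + 4 * C) / q = 3 / q + 4 * (C / q) := by ring
    nlinarith
  refine le_of_mul_le_mul_right ?_ (pow_pos q0 ((g + 1) * (2 * g + 1 + (2 * g + 1))))
  calc _ = H * 2 * q ^ ((g + 1) * (2 * g + 1 + (2 * g + 1)) + 1) := by ring
    _ = H * (2 * q ^ g.choose 2 * q ^ ((g + 1) * (g + 1))) * q ^ ((2 * g + 1) * (g + 1)) *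
        q ^ (g + 1 + 1).choose 2 := by
      rw [← expo, pow_add, pow_add, pow_add]; ring
    _ ≤ (1 + 3 / q) * T * q ^ ((2 * g + 1) * (g + 1)) * q ^ (g + 1 + 1).choose 2 := by gcongr
    _ = (1 + 3 / q) * (T * q ^ ((2 * g + 1) * (g + 1))) * q ^ (g + 1 + 1).choose 2 := by ring
    _ ≤ (1 + 3 / q) * (U * q ^ ((2 * g + 1) * (2 * g + 1))) * q ^ (g + 1 + 1).choose 2 := by gcongr
    _ = (1 + 3 / q) * (U * q ^ (g + 1 + 1).choose 2) * q ^ ((2 * g + 1) * (2 * g + 1)) := by ring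
    _ ≤ (1 + 3 / q) * (q ^ ((g + 1) * (2 * g + 1 + (2 * g + 1))) * (1 + C / q)) *
        q ^ ((2 * g + 1) * (2 * g + 1)) := by gcongr
    _ = (1 + 3 / q) * (1 + C / q) * (q ^ ((g + 1) * (2 * g + 1 + (2 * g + 1))) *
        q ^ ((2 * g + 1) * (2 * g + 1))) := by ring
    _ ≤ (1 + (3 + 4 * C) / q) * (q ^ ((g + 1) * (2 * g + 1 + (2 * g + 1))) *
        q ^ ((2 * g + 1) * (2 * g + 1))) := by gcongr
    _ = _ := by rw [sq (2 * g + 1)]; ring

end Pool.Agent.MP_a43263_nt.N2
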