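import Pool.Agent.MP_a43263_nt.N2.SpecD
import Pool.Agent.MP_a43263_nt.K2.Geo

/-! THEOREM N2: many good points. -/

set_option autoImplicit false

noncomputable section

namespace Pool.Agent.MP_a43263_nt.N2

open Finset Filter K2

namespace MnyA

variable {g : ℕ}

open Classical in
/-- the admissible pairs of a subset and a class -/
def cls (g v N : ℕ) (Q : Finset ℕ) : Finset (Finset ℕ × Vec g) :=
  (Q.powerset ×ˢ Fintype.piFinset fun _ => Ico (0 : ℤ) ((N : ℤ) ^ 2)).filter fun t =>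
    Cl v N t.1 t.2 (al v N t.1 t.2)

theorem card_cls (g v N : ℕ) (Q : Finset ℕ) :
    ((cls g v N Q).card : ℝ) ≤ 2 ^ Q.card * (N : ℝ) ^ (2 * (2 * g + 1)) := by
  have h : (cls g v N Q).card ≤ 2 ^ Q.card * N ^ (2 * (2 * g + 1)) := by
    classical
    unfold cls
    refine (card_filter_le _ _).trans (le_of_eq ?_)
    have e : ((N : ℤ) ^ 2).toNat = N ^ 2 := by exact_mod_cast Int.toNat_natCast (N ^ 2)
    rw [card_product, card_powerset, Fintype.card_piFinset, pow_mul]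
    simp [e]
  exact_mod_cast h

theorem prod_dvd {z : ℕ} {S : Finset ℕ} (h : ∀ q ∈ S, q.Prime ∧ q ≤ z) :
    (∏ q ∈ S, q) ∣ primorial z :=
  prod_dvd_prod_of_subset _ _ _ fun q hq =>
    mem_filter.2 ⟨mem_range.2 (Nat.lt_succ_of_le (h q hq).2), (h q hq).1⟩

theorem cop_of_mz {z m : ℕ} {κ : ℝ} (h : Mz z κ m) : m.Coprime (primorial z) :=
  Nat.coprime_of_dvd fun p hp h1 h2 => (h.2.1 p hp h1).not_ge (hp.dvd_primorial_iff.1 h2)

theorem small (N : ℕ) : ∀ᶠ k : ℕ in atTop, ∀ U m : ℕ, k ≤ U ^ 3 → m ^ 12 ≤ k →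
    m * (N ^ 2 * nl k) ≤ U := by
  filter_upwards [ev_log_le ((N : ℝ) ^ 24) 24, eventually_ge_atTop 1] with k h1 h2 U m hU hm
  have a : (N ^ 2 * nl k) ^ 12 ≤ k := by
    have b : ((N : ℝ) ^ 2 * nl k) ^ 12 ≤ ((N : ℝ) ^ 2 * Real.log k ^ 2) ^ 12 := by
      gcongr
      exact nl_le k
    have c : ((N : ℝ) ^ 2 * Real.log k ^ 2) ^ 12 = (N : ℝ) ^ 24 * Real.log k ^ 24 := by ring
    exact_mod_cast b.trans (c.le.trans h1)
  refine (Nat.pow_le_pow_iff_left (n := 12) (by norm_num)).1 ?_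
  calc (m * (N ^ 2 * nl k)) ^ 12 = m ^ 12 * (N ^ 2 * nl k) ^ 12 := mul_pow _ _ _
    _ ≤ k * k := Nat.mul_le_mul hm a
    _ = k ^ 2 := (sq k).symm
    _ ≤ k ^ 4 := Nat.pow_le_pow_right h2 (by norm_num)
    _ ≤ (U ^ 3) ^ 4 := Nat.pow_le_pow_left hU 4
    _ = U ^ 12 := by ring

/-- the value at a point of the progression -/
theorem val {v N d m a u j : ℕ} {w : Vec g} (hd : d ∣ N) (hm : m.Coprime N)
    (h1 : (d : ℤ) ∣ Gv w a v) (h2 : (m : ℤ) ∣ Gv w u v) (hu : u ≡ a [MOD N ^ 2]) (h0 : 0 < m * d)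
    (hp : (co (m * d) w (pu N m u j) v).Prime) :
    Gv w (pu N m u j) v = ((m * d : ℕ) : ℤ) * (co (m * d) w (pu N m u j) v : ℕ) := by
  have e1 : (pu N m u j : ℤ) ≡ u [ZMOD m] := Int.natCast_modEq_iff.2
    ((Nat.ModEq.refl u).add (Nat.modEq_zero_iff_dvd.2 (dvd_mul_right m (N ^ 2 * j))))
  have e2 : (pu N m u j : ℤ) ≡ a [ZMOD d] := Int.natCast_modEq_iff.2 (by
    have d2 : d ∣ N ^ 2 := hd.trans (dvd_pow_self N two_ne_zero)
    have k : pu N m u j ≡ u + 0 [MOD d] :=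
      (Nat.ModEq.refl u).add ((Nat.modEq_zero_iff_dvd).2 ((d2.mul_right j).mul_left m))
    exact k.trans (hu.of_dvd d2))
  have f1 : (m : ℤ) ∣ Gv w (pu N m u j) v :=
    (Int.ModEq.dvd_iff (GeoA.gv_mod v (fun _ => rfl) e1)).2 h2
  have f2 : (d : ℤ) ∣ Gv w (pu N m u j) v :=
    (Int.ModEq.dvd_iff (GeoA.gv_mod v (fun _ => rfl) e2)).2 h1
  obtain ⟨s, hs⟩ : ((m * d : ℕ) : ℤ) ∣ Gv w (pu N m u j) v := by
    push_cast
    exact (Nat.isCoprime_iff_coprime.2 (hm.coprime_dvd_right hd)).mul_dvd f1 f2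
  have e : co (m * d) w (pu N m u j) v = s.toNat := by
    rw [co, hs, Int.mul_ediv_cancel_left _ (by exact_mod_cast h0.ne')]
  rw [e] at hp ⊢
  rw [hs, Int.toNat_of_nonneg]
  by_contra k
  rw [Int.toNat_of_nonpos (not_le.1 k).le] at hp
  exact Nat.not_prime_zero hp

/-- the alternative at one base point -/
theorem alt (hc : CLSStmt) {v z k U m u : ℕ} {Q : Finset ℕ} {w : Vec g}
    (hQ : ∀ q ∈ Q, q.Prime ∧ q ≤ z) (hm : m.Coprime (primorial z)) (m0 : 0 < m) (hU : U ≤ k)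
    (hs : m * (primorial z ^ 2 * nl k) ≤ U) (h : Ok v (primorial z) k U Q m u w) :
    (∃ t ∈ cls g v (primorial z) Q, u ∈ Us (primorial z) (al v (primorial z) t.1 t.2) m U ∧
      Cm v (primorial z) m t.2 u w ∧ Few v (primorial z) (∏ q ∈ t.1, q) m k u w) ∨
    nl k / ((8 * g + 6) * Real.log k) ≤
      ∑ j ∈ range (nl k), ind (Hit v (primorial z) k m (pu (primorial z) m u j) w) := by
  classical
  obtain ⟨S, hS, h1, h2, h3, h4⟩ := h
  have hN := primorial_pos z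
  have hd := prod_dvd fun q hq => hQ q (hS hq)
  by_cases f : Few v (primorial z) (∏ q ∈ S, q) m k u w
  · have n2 : (0 : ℤ) < (primorial z : ℤ) ^ 2 := by positivity
    have c : Cw (primorial z) (fun i => w i % (primorial z : ℤ) ^ 2) w := fun i =>
      Int.dvd_self_sub_emod
    obtain ⟨e1, e2⟩ := hc.2 g v _ S w _ hN hd c
    refine Or.inl ⟨(S, fun i => w i % (primorial z : ℤ) ^ 2), mem_filter.2 ⟨mem_product.2
      ⟨mem_powerset.2 hS, Fintype.mem_piFinset.2 fun i => mem_Ico.2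
        ⟨Int.emod_nonneg _ n2.ne', Int.emod_lt_of_pos _ n2⟩⟩, ?_⟩, ?_, ⟨c, h3⟩, f⟩
    · exact e2 ▸ (e1 _).1 h1
    · exact e2 ▸ h2
  · refine Or.inr ((not_lt.1 f).trans ?_)
    rw [card_eq_sum_ones, Nat.cast_sum, sum_filter]
    refine sum_le_sum fun j hj => ?_
    split_ifs with hp
    · obtain ⟨u1, u2, -⟩ := mem_filter.1 h2
      have e := val hd hm h1.ad.1 h3 u2 (Nat.mul_pos m0 (Nat.pos_of_dvd_of_pos hd hN)) hp
      have l : pu (primorial z) m u j ≤ 3 * k := by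
        have a : m * (primorial z ^ 2 * j) ≤ m * (primorial z ^ 2 * nl k) := by
          gcongr
          exact (mem_range.1 hj).le
        have b := (mem_Ioc.1 u1).2
        unfold pu
        omega
      obtain ⟨b1, b2⟩ := h4 j _ l hp e
      rw [ind_pos ⟨b1, _, _, hd, hp, b2, e⟩, Nat.cast_one]
    · exact ind_nonneg _

theorem one (hc : CLSStmt) {v z k U m : ℕ} (u : ℕ) {Q : Finset ℕ}
    (hQ : ∀ q ∈ Q, q.Prime ∧ q ≤ z) (hm : m.Coprime (primorial z)) (m0 : 0 < m) (hU : U ≤ k)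
    (hs : m * (primorial z ^ 2 * nl k) ≤ U) :
    cnt g k (Ok v (primorial z) k U Q m u) * (nl k / ((8 * g + 6) * Real.log k)) ≤
      (∑ t ∈ cls g v (primorial z) Q, cnt g k fun w =>
        u ∈ Us (primorial z) (al v (primorial z) t.1 t.2) m U ∧
        Cm v (primorial z) m t.2 u w ∧ Few v (primorial z) (∏ q ∈ t.1, q) m k u w) *
          (nl k / ((8 * g + 6) * Real.log k)) +
      ∑ j ∈ range (nl k), cnt g k (Hit v (primorial z) k m (pu (primorial z) m u j)) := by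
  have c0 : 0 ≤ nl k / ((8 * g + 6) * Real.log k) :=
    div_nonneg (Nat.cast_nonneg _) (mul_nonneg (by positivity) (Real.log_natCast_nonneg k))
  have h1 := cnt_le_add (g := g) (k := k) fun w _ h =>
    alt hc hQ hm m0 hU hs (v := v) (u := u) (w := w) h
  have h2 := cnt_le_sum (g := g) (k := k) (cls g v (primorial z) Q) (fun t w =>
    u ∈ Us (primorial z) (al v (primorial z) t.1 t.2) m U ∧
      Cm v (primorial z) m t.2 u w ∧ Few v (primorial z) (∏ q ∈ t.1, q) m k u w) fun _ _ h => h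
  have h3 := cnt_mul_le (g := g) (k := k) (a := nl k / ((8 * g + 6) * Real.log k))
    (F := fun w => ∑ j ∈ range (nl k), ind (Hit v (primorial z) k m (pu (primorial z) m u j) w))
    (fun _ _ => sum_nonneg fun _ _ => ind_nonneg _) fun _ _ h => h
  rw [sum_comm] at h3
  refine (mul_le_mul_of_nonneg_right (h1.trans (add_le_add h2 le_rfl)) c0).trans ?_
  rw [add_mul]
  exact add_le_add le_rfl h3

theorem sum_us {k N a m U : ℕ} (P : ℕ → Vec g → Prop) :
    ∑ u ∈ Ioc U (2 * U), cnt g k (fun w => u ∈ Us N a m U ∧ P u w) =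
      ∑ u ∈ Us N a m U, cnt g k (P u) := by
  refine (sum_subset (filter_subset _ _ : Us N a m U ⊆ Ioc U (2 * U)) fun u _ hu =>
    sum_eq_zero fun w _ => ind_neg fun h => hu h.1).symm.trans ?_
  exact sum_congr rfl fun u hu => sum_congr rfl fun w _ => ind_congr (and_iff_right hu)

end MnyA

open MnyA in
theorem mny_n : ALLStmt → CLSStmt → BSEStmt → MNYStmt := by
  classical
  intro all hc bse g v hg hv
  obtain ⟨Q, ε, E, hε, hQ, H⟩ := bse g v hg hv
  refine ⟨E, ?_⟩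
  have hη : 0 < ε / (2 * 2 ^ Q.card) := by positivity
  have v0 : 0 < v := lt_of_lt_of_le (by positivity) hv.ge
  filter_upwards [H, all g v hg hv _ hη, eventually_ge_atTop (Q.sup id)] with z Hz Az hz
  have hN : (0 : ℝ) < primorial z := by exact_mod_cast primorial_pos z
  have hq : ∀ q ∈ Q, q.Prime ∧ q ≤ z := fun q h => ⟨(hQ q h).1, (le_sup (f := id) h).trans hz⟩
  refine ⟨ε / (2 * (primorial z : ℝ) ^ 2 * (8 * g + 6)), by positivity, ?_⟩
  have hT := (eventually_all_finset (cls g v (primorial z) Q)).2 fun t ht => by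
    obtain ⟨t1, t2⟩ := mem_filter.1 ht
    have hS := mem_powerset.1 (mem_product.1 t1).1
    refine Az (∏ q ∈ t.1, q) (al v (primorial z) t.1 t.2) t.2 (prod_dvd fun q h => hq q (hS h))
      (Nat.Coprime.prod_left fun q h => (hQ q (hS h)).1.coprime_iff_not_dvd.2
        (Nat.not_dvd_of_pos_of_lt v0 (hQ q (hS h)).2)) (fun q h1 h2 => ?_) t2.ad
    obtain ⟨r, r1, r2⟩ := (h1.prime.dvd_finsetProd_iff _).1 h2
    rw [(Nat.prime_dvd_prime_iff_eq h1 (hQ r (hS r1)).1).1 r2]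
    exact t2.nd r r1
  filter_upwards [Hz, hT, small (primorial z)] with k h1 h2 h3 U m hU hm hE h12
  have m0 : 0 < m := Nat.pos_of_ne_zero hm.1.ne_zero
  have m1 : (0 : ℝ) < m := by exact_mod_cast m0
  have hmN := cop_of_mz hm
  have c0 : 0 ≤ nl k / ((8 * g + 6) * Real.log k) :=
    div_nonneg (Nat.cast_nonneg _) (mul_nonneg (by positivity) (Real.log_natCast_nonneg k))
  have a1 := sum_le_sum fun u (_ : u ∈ Ioc U (2 * U)) =>
    one (g := g) (v := v) hc u hq hmN m0 hU.hi (h3 U m hU.lo h12)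
  rw [sum_add_distrib, ← sum_mul, ← sum_mul, sum_comm (t := cls g v (primorial z) Q)] at a1
  have a2 := sum_le_card_nsmul _ _ _ fun t ht =>
    (sum_us _).le.trans (h2 t ht U m hU m0 h12 hmN)
  have r0 : 0 ≤ ε / (2 * 2 ^ Q.card) * rf g k (primorial z) m U := by
    unfold rf vol
    positivity
  rw [nsmul_eq_mul] at a2
  have a3 := a2.trans (mul_le_mul_of_nonneg_right (card_cls g v (primorial z) Q) r0)
  have e1 : 2 ^ Q.card * (primorial z : ℝ) ^ (2 * (2 * g + 1)) *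
      (ε / (2 * 2 ^ Q.card) * rf g k (primorial z) m U) =
      ε * (vol g k * U / (m * (primorial z : ℝ) ^ 2)) / 2 := by
    unfold rf
    field_simp
  have e2 : ε / (2 * (primorial z : ℝ) ^ 2 * (8 * g + 6)) * (vol g k * U / m) *
      (nl k / Real.log k) = ε * (vol g k * U / (m * (primorial z : ℝ) ^ 2)) / 2 *
      (nl k / ((8 * g + 6) * Real.log k)) := by
    rw [div_mul_eq_div_div_swap (nl k : ℝ)]
    field_simp
  have a4 := mul_le_mul_of_nonneg_right (a3.trans e1.le) c0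
  have a5 := mul_le_mul_of_nonneg_right (h1 U m hU hm hE h12) c0
  rw [e2]
  linarith

end Pool.Agent.MP_a43263_nt.N2
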