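import Pool.Agent.MP_a43263_nt.N2.SpecB

/-! Unimodular overlattices exist. -/

set_option autoImplicit false

noncomputable section

namespace Pool.Agent.MP_a43263_nt.N2

open Polynomial Finset Filter Matrix JC Pool.Agent.MP_a43263_nt.UV K2

namespace OvlA

variable {g : ℕ}

/-- reduction as a homomorphism -/
def rh (g p : ℕ) : Vz g →+ (Fin (2 * g + 1) → ZMod p) where
  toFun := rd p
  map_zero' := funext fun i => by simp [rd]
  map_add' x y := funext fun i => by simp [rd]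

theorem idx {p : ℕ} (hp : p.Prime) (Λ : Sub g p) (h : Nat.card Λ = p ^ g) :
    (Λ.toAddSubgroup.comap (rh g p)).index = p ^ (g + 1) := by
  have : NeZero p := ⟨hp.ne_zero⟩
  have hs : Function.Surjective (rh g p) := fun y =>
    ⟨fun i => ((y i).val : ℤ), _root_.funext fun i => by simp [rh, rd]⟩
  rw [AddSubgroup.index_comap_of_surjective _ hs]
  have h1 := Λ.toAddSubgroup.index_mul_card
  have h2 : Nat.card Λ.toAddSubgroup = p ^ g := h
  rw [h2, Nat.card_fun, Nat.card_zmod, Nat.card_eq_fintype_card, Fintype.card_fin] at h1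
  refine Nat.eq_of_mul_eq_mul_right (pow_pos hp.pos g) ?_
  rw [h1, ← pow_add]
  congr 1
  omega

theorem sq_dvd {m : ℕ} (hm : Squarefree m) {z : ℤ}
    (h : ∀ p : ℕ, p.Prime → p ∣ m → (p : ℤ) ^ 2 ∣ z) : (m : ℤ) ^ 2 ∣ z := by
  rw [← Nat.prod_primeFactors_of_squarefree hm, Nat.cast_prod, ← prod_pow]
  refine Finset.prod_dvd_of_coprime (fun p hp q hq hne => ?_) fun p hp =>
    h p (Nat.prime_of_mem_primeFactors hp) (Nat.dvd_of_mem_primeFactors hp)
  exact (Nat.isCoprime_iff_coprime.2 ((Nat.coprime_primes (Nat.prime_of_mem_primeFactors hp)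
    (Nat.prime_of_mem_primeFactors hq)).2 hne)).pow

/-- a subgroup of finite index is the image of a matrix -/
theorem mat (L : AddSubgroup (Vz g)) (h : L.index ≠ 0) : ∃ R : Mat g ℤ,
    R.det.natAbs = L.index ∧ ∀ y : Vz g, (∃ ξ : Vz g, R *ᵥ ξ = y) ↔ y ∈ L := by
  have : L.FiniteIndex := ⟨h⟩
  have : Module.Finite ℤ L := inferInstanceAs (Module.Finite ℤ L.toIntSubmodule)
  have : Module.Free ℤ L := inferInstanceAs (Module.Free ℤ L.toIntSubmodule)
  have b : Module.Basis (Fin (2 * g + 1)) ℤ L := Module.finBasisOfFinrankEq ℤ L (by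
    rw [AddSubgroup.finrank_eq_of_finiteIndex, Module.finrank_fin_fun])
  have e : ∀ ξ : Vz g, (Matrix.of fun i j => (b j : Vz g) i) *ᵥ ξ = ∑ j, ξ j • (b j : Vz g) :=
    fun ξ => _root_.funext fun i => by simp [mulVec, dotProduct, mul_comm]
  refine ⟨Matrix.of fun i j => (b j : Vz g) i, ?_, fun y => ⟨?_, fun hy => ?_⟩⟩
  · rw [AddSubgroup.index_eq_natAbs_det (Pi.basisFun ℤ _) L b, Pi.basisFun_det_apply,
      ← det_transpose]
    rfl
  · rintro ⟨ξ, rfl⟩
    rw [e]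
    exact L.sum_mem fun j _ => L.zsmul_mem (b j).2 _
  · refine ⟨fun j => b.repr ⟨y, hy⟩ j, (e _).trans ?_⟩
    have e2 := congrArg L.subtype (b.sum_repr ⟨y, hy⟩)
    rw [map_sum] at e2
    exact e2

end OvlA

open OvlA in
theorem ovl_n : OVLStmt := by
  intro g m A Λ hm hA hL
  have m0 : m ≠ 0 := hm.ne_zero
  let F : m.primeFactors → AddSubgroup (Vz g) := fun p => (Λ p).toAddSubgroup.comap (rh g p)
  have hp : ∀ p : m.primeFactors, p.1.Prime := fun p => Nat.prime_of_mem_primeFactors p.2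
  have hF : ∀ p, (F p).index = p.1 ^ (g + 1) := fun p =>
    idx (hp p) _ (hL p (hp p) (Nat.dvd_of_mem_primeFactors p.2)).card
  have h0 : (⨅ p, F p).index ≠ 0 := AddSubgroup.index_iInf_ne_zero fun p => by
    rw [hF]
    exact pow_ne_zero _ (hp p).ne_zero
  have h1 : (⨅ p, F p).index ≤ m ^ (g + 1) := by
    refine (AddSubgroup.index_iInf_le F).trans (le_of_eq ?_)
    rw [prod_congr rfl fun p _ => hF p, prod_pow, prod_coe_sort m.primeFactors fun p => p,
      Nat.prod_primeFactors_of_squarefree hm]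
  obtain ⟨R, hR, hI⟩ := mat _ h0
  have im : ∀ y : Vz g, (∃ ξ : Vz g, R *ᵥ ξ = y) ↔ ∀ p : ℕ, p.Prime → p ∣ m → rd p y ∈ Λ p := by
    intro y
    rw [hI, AddSubgroup.mem_iInf]
    exact ⟨fun h p a b => h ⟨p, Nat.mem_primeFactors.2 ⟨a, b, m0⟩⟩,
      fun h p => h p (hp p) (Nat.dvd_of_mem_primeFactors p.2)⟩
  have dv : ∀ i j, (m : ℤ) ^ 2 ∣ (Rᵀ * A * R) i j := fun i j => sq_dvd hm fun p a b => by
    have k := (hL p a b).iso _ _ ((im _).1 ⟨Pi.single i 1, rfl⟩ p a b)
      ((im _).1 ⟨Pi.single j 1, rfl⟩ p a b)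
    have e : (Rᵀ * A * R) i j = (R *ᵥ Pi.single i 1) ⬝ᵥ A *ᵥ R *ᵥ Pi.single j 1 := by
      rw [Matrix.mul_assoc, mulVec_mulVec, mulVec_single_one, mulVec_single_one]
      rfl
    rwa [e]
  choose B hB using dv
  have eq : Rᵀ * A * R = ((m : ℤ) ^ 2) • Matrix.of B := by
    ext i j
    rw [hB]
    rfl
  refine ⟨R, Matrix.of B, hL, eq, ?_, im⟩
  have d := congrArg (fun M => (det M).natAbs) eq
  simp only [det_mul, det_transpose, det_smul, Int.natAbs_mul, Int.natAbs_pow, Int.natAbs_natCast,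
    Fintype.card_fin, hA, hR] at d
  rw [Int.isUnit_iff_natAbs_eq]
  have p0 : 0 < (m ^ 2) ^ (2 * g + 1) := by positivity
  have l1 : (m ^ 2) ^ (2 * g + 1) * (Matrix.of B).det.natAbs ≤ (m ^ 2) ^ (2 * g + 1) * 1 := by
    rw [← d]
    refine (Nat.mul_le_mul (Nat.mul_le_mul_right _ h1) h1).trans (le_of_eq ?_)
    ring
  have l2 : (Matrix.of B).det.natAbs ≠ 0 := fun z => by
    rw [z, mul_zero] at d
    exact mul_ne_zero (mul_ne_zero h0 (pow_ne_zero _ m0)) h0 d
  have := Nat.le_of_mul_le_mul_left l1 p0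
  omega

end Pool.Agent.MP_a43263_nt.N2
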