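import Pool.Agent.MP_a43263_nt.K2.SpecC

/-! THEOREM N2, analytic part: definitions and statements.
Note: `/team-store/a43263_N_h11.md`. -/

set_option autoImplicit false

noncomputable section

namespace Pool.Agent.MP_a43263_nt.N2

open Finset Filter K2

/-- the fixed second coordinate -/
structure Pv (g v : ℕ) : Prop where
  dv : 24 ∣ v
  n5 : ¬5 ∣ v
  ge : 24 * (g + 1) ≤ v
  sm : ∀ p : ℕ, p.Prime → p ≤ 4 * g + 2 → p ≠ 5 → p ∣ v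

/-- the range of the first coordinate -/
structure Ur (g k U : ℕ) : Prop where
  lo : k ≤ U ^ 3
  hi : U ≤ k

/-- admissible classes -/
def Ad1 {g : ℕ} (v N d : ℕ) (w : Vec g) (u : ℕ) : Prop :=
  (d : ℤ) ∣ Gv w u v ∧ IsCoprime (Gv w u v / d) (N : ℤ)

/-- one class of coefficient vectors -/
def Cw {g : ℕ} (N : ℕ) (wb w : Vec g) : Prop := ∀ i, (N : ℤ) ^ 2 ∣ w i - wb i

/-- the base points -/
def Us (N a m U : ℕ) : Finset ℕ :=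
  (Ioc U (2 * U)).filter fun u => u ≡ a [MOD N ^ 2] ∧ u.Coprime m

/-- the points -/
def pu (N m u j : ℕ) : ℕ := u + m * (N ^ 2 * j)

/-- the excess of the singular series -/
def ex (N z x : ℕ) : ℝ := ∑ e ∈ x.divisors.filter (fun e => z < e ∧ e.Coprime N), 1 / √(e : ℝ)

/-- the modulus of the progression -/
def ql (g v N d m s s' u : ℕ) : ℕ :=
  N ^ 2 / d * v ^ (4 * g) * ((s : ℤ) - s').natAbs * ((u + m * s) ^ 2 * (2 * u + m * (s + s')))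

/-- the size of one class -/
def rf (g k N m U : ℕ) : ℝ := vol g k / (m * (N : ℝ) ^ (2 * (2 * g + 1))) * (U / (N : ℝ) ^ 2)

/-- the class and the divisibility -/
def Cm {g : ℕ} (v N m : ℕ) (wb : Vec g) (u : ℕ) (w : Vec g) : Prop :=
  Cw N wb w ∧ (m : ℤ) ∣ Gv w u v

/-- few prime values -/
def Few {g : ℕ} (v N d m k u : ℕ) (w : Vec g) : Prop :=
  (((range (nl k)).filter fun j => (co (m * d) w (pu N m u j) v).Prime).card : ℝ) <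
    nl k / ((8 * g + 6) * Real.log k)

/-- the smooth parts -/
def Mz (z : ℕ) (κ : ℝ) (m : ℕ) : Prop := Squarefree m ∧ (∀ p : ℕ, p.Prime → p ∣ m → z < p) ∧
  ∑ p ∈ m.primeFactors, 1 / (p : ℝ) ≤ κ

/-- a family of moduli -/
structure Fq (B X U h D s s' : ℕ) (q : ℕ → ℕ) (T : Finset ℕ) : Prop where
  U1 : 1 ≤ U
  D1 : 1 ≤ D
  Dl : (D : ℝ) ≤ Real.log X ^ B
  s1 : s ≤ U
  s2 : s' ≤ 2 * U
  sub : T ⊆ Ioc U (2 * U)
  eq : ∀ u ∈ T, q u = D * ((u + s) ^ 2 * (2 * u + s'))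
  lo : (X : ℝ) ^ (1 / 4 : ℝ) ≤ h
  hi : h ≤ X
  big : (54 * D * U ^ 3) ^ 4 ≤ h ^ 2 * U ^ 3

/-! ### statements -/

/-- the large sieve for primitive characters -/
def LSMStmt : Prop := ∀ (Q y h : ℕ) (c : ℕ → ℂ) (S : Finset (Σ f : ℕ, DirichletCharacter ℂ f)),
  1 ≤ Q → (∀ z ∈ S, 0 < z.1 ∧ z.1 ≤ Q ∧ z.2.IsPrimitive) →
  ∑ z ∈ S, ‖∑ n ∈ Ico y (y + h), c n * z.2 n‖ ^ 2 ≤
    (h + (Q : ℝ) ^ 2 * (1 + 2 * Real.log Q)) * ∑ n ∈ Ico y (y + h), ‖c n‖ ^ 2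

/-- how often a conductor occurs -/
def NCStmt : Prop := ∃ C : ℝ, 0 < C ∧ ∀ U D s s' c : ℕ, 1 ≤ U → 1 ≤ D → s ≤ U → s' ≤ 2 * U →
  1 ≤ c → (((Ioc U (2 * U)).filter fun u => c ∣ D * ((u + s) ^ 2 * (2 * u + s'))).card : ℝ) ≤
    C * U * D / (c : ℝ) ^ (1 / 4 : ℝ)

/-- the variance -/
def VARStmt : Prop := ∀ A B : ℕ, ∀ᶠ X : ℕ in atTop, ∀ (U h D s s' : ℕ) (q : ℕ → ℕ) (T : Finset ℕ),
  Fq B X U h D s s' q T →
  ∑ u ∈ T, ∑ y ∈ Ioc X (2 * X), ∑ χ : DirichletCharacter ℂ (q u), ‖∑ n ∈ Ico y (y + h),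
      ((ArithmeticFunction.vonMangoldt n : ℂ) * χ n - (ind (χ = 1) : ℝ))‖ ^ 2 ≤
    (U : ℝ) * (h : ℝ) ^ 2 * X / Real.log X ^ A

/-- primes in almost all short progressions of the family -/
def APLStmt : Prop := ∀ A B : ℕ, ∀ᶠ X : ℕ in atTop, ∀ (U h D s s' : ℕ) (q : ℕ → ℕ) (T : Finset ℕ),
  Fq B X U h D s s' q T →
  ∑ u ∈ T, (∑ y ∈ Ioc (X + X / 100) (2 * X), |∑ i ∈ range (h / q u), lam (y + i * q u) -
      (h / q u : ℕ) * (ph (q u) * ind (y.Coprime (q u)))|) / (h / q u : ℕ) ≤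
    (U : ℝ) * X / Real.log X ^ A

/-- boxes with congruence conditions -/
def CBXStmt : Prop := ∀ (g : ℕ) (lo r : Vec g) (L M : Fin (2 * g + 1) → ℕ) (m u v : ℕ), 1 ≤ g →
  (∀ i, 0 < M i) → 0 < m → m.Coprime (u * v) → (∀ i, i.1 + 1 = 2 * g → m.Coprime (M i)) →
  ∀ S : Finset (Vec g), (∀ w, w ∈ S ↔ (∀ i, lo i ≤ w i ∧ w i ≤ lo i + L i) ∧
    (∀ i, (M i : ℤ) ∣ w i - r i) ∧ (m : ℤ) ∣ Gv w u v) →
  (S.card : ℝ) ≤ ∏ i, ((L i : ℝ) / (M i * if i.1 + 1 = 2 * g then m else 1) + 1) ∧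
  ((∀ i, M i * (if i.1 + 1 = 2 * g then m else 1) ≤ L i) →
    ∏ i, ((L i : ℝ) / (M i * if i.1 + 1 = 2 * g then m else 1) - 1) ≤ S.card)

/-- the shift lemma -/
def SHStmt : Prop := ∀ g : ℕ, 1 ≤ g → ∃ c : ℝ, 0 < c ∧ ∀ (k K m u v : ℕ) (σ : Vec g)
  (F : Vec g → ℝ) (B δ : ℝ), 1 ≤ k → 0 < m → m.Coprime (u * v) → 0 ≤ B →
  (m : ℝ) ≤ δ * (k : ℝ) ^ 2 → δ ≤ 1 → (∀ i, (K : ℝ) * |(σ i : ℝ)| ≤ δ * (k : ℝ) ^ xp g i.1) →
  (∀ w ∈ bx g k, ∀ i : ℕ, i < K → |F (w + (i : ℤ) • σ)| ≤ B) →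
  (∀ w, F w ≠ 0 → (m : ℤ) ∣ Gv w u v) →
  |∑ w ∈ bx g k, ∑ i ∈ range K, F (w + (i : ℤ) • σ) - K * ∑ w ∈ bx g k, F w| ≤
    K * (B * (c * δ * vol g k / m))

/-- sizes of the values -/
def SIZStmt : Prop := ∀ g v : ℕ, 1 ≤ g → Pv g v → ∀ᶠ k : ℕ in atTop, ∀ w ∈ bx g k, ∀ u : ℕ,
  u ≤ 3 * k → 35 * ((k : ℤ) * v) ^ (4 * g + 2) ≤ Gv w u v ∧
    Gv w u v ≤ 65 * ((k : ℤ) * v) ^ (4 * g + 2) ∧ 0 < Gx w u v ∧ Gx w u v ≤ (k : ℤ) ^ (4 * g + 1)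

/-- how often a value is taken -/
def MULStmt : Prop := ∀ g : ℕ, 1 ≤ g → ∃ c : ℝ, 0 < c ∧ ∀ (k u v : ℕ) (y : ℤ), 1 ≤ k → 1 ≤ u →
  1 ≤ v → u.Coprime (2 * v) → IsCoprime y (u : ℤ) →
  cnt g k (fun w => Gv w u v = y) * (k : ℝ) ^ (4 * g + 2) ≤ c * u.divisors.card * vol g k

/-- singular series -/
def PHAStmt : Prop := (∀ q : ℕ, 0 < q → 1 ≤ ph q ∧ ph q ≤ 2 + 2 * Real.log q) ∧
  ∀ z D t x x' y : ℕ, 200 ≤ z → 0 < D → 0 < t → 0 < x → 0 < x' → 0 < y → primorial z ∣ D →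
    (∀ p : ℕ, p.Prime → p ∣ D → p ≤ z) →
    ph (primorial z) ≤ ph (D * t * (x ^ 2 * y)) ∧
    ph (D * t * (x ^ 2 * y)) * ph (D * t * (x' ^ 2 * y)) ≤ ph (primorial z) ^ 2 *
      (1 + ex (primorial z) z x + ex (primorial z) z x' + ex (primorial z) z y +
        ex (primorial z) z t) ∧
    (∀ x : ℕ, ∑ p ∈ x.primeFactors.filter (fun p => z < p), 1 / (p : ℝ) ≤ ex (primorial z) z x)

/-- the mean excess -/
def PHBStmt : Prop := ∀ N z : ℕ, 0 < N → 2 ∣ N → 1 ≤ z →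
  (∀ U a s b : ℕ, 1 ≤ U → s ≤ 2 * U → (b = 1 ∨ b = 2) →
    ∑ u ∈ (Ioc U (2 * U)).filter (fun u => u ≡ a [MOD N ^ 2]), ex N z (b * u + s) ≤
      2 / √(z : ℝ) * (U / (N : ℝ) ^ 2) + 5 * √(U : ℝ)) ∧
  ∀ L : ℕ, ∑ t ∈ Ioc 0 L, ex N z t ≤ 2 / √(z : ℝ) * L

/-- one moment -/
def MOMStmt : Prop := ∀ g v N d A : ℕ, 1 ≤ g → Pv g v → 0 < N → d ∣ N → ∀ᶠ k : ℕ in atTop,
  ∀ (U m s s' : ℕ) (ω : ℕ → Vec g → ℝ) (B : ℝ) (T : Finset ℕ), Ur g k U → 0 < m → m ^ 12 ≤ k →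
  s ≠ s' → (s : ℝ) ≤ Real.log k ^ 3 → (s' : ℝ) ≤ Real.log k ^ 3 → T ⊆ Ioc U (2 * U) →
  m.Coprime v → (∀ u ∈ T, u.Coprime m ∧ (u + m * s).Coprime (v * d)) →
  (∀ u w, 0 ≤ ω u w ∧ ω u w ≤ B) →
  (∀ u ∈ T, ∀ w, ω u (w + sh g ((N : ℤ) ^ 2 * Int.sign ((s : ℤ) - s')) (u + m * s' : ℕ) v) =
    ω u w) →
  (∀ u ∈ T, ∀ w, ω u w ≠ 0 → ((m * d : ℕ) : ℤ) ∣ Gv w (u + m * s : ℕ) v) →
  ∑ u ∈ T, |∑ w ∈ bx g k, ω u w * (lam (co (m * d) w (u + m * s) v) - ph (ql g v N d m s s' u) *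
      ind ((co (m * d) w (u + m * s) v).Coprime (ql g v N d m s s' u)))| ≤
    B * vol g k * U / (m * Real.log k ^ A)

/-- the first moment -/
def M1Stmt : Prop := ∀ g v : ℕ, 1 ≤ g → Pv g v → ∃ C : ℝ, 0 < C ∧ ∀ (z d a : ℕ) (wb : Vec g),
  v ≤ z → 200 ≤ z → d ∣ primorial z → d.Coprime v → (∀ q : ℕ, q.Prime → q ∣ d → ¬q ∣ a) →
  Ad1 v (primorial z) d wb a → ∀ η : ℝ, 0 < η → ∀ᶠ k : ℕ in atTop, ∀ U m : ℕ, Ur g k U → 0 < m →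
  m ^ 12 ≤ k → m.Coprime (primorial z) →
  ∑ u ∈ Us (primorial z) a m U, cnt g k (Cm v (primorial z) m wb u) ≤
    C * rf g k (primorial z) m U ∧
  ∀ j ∈ range (nl k),
    (∀ u ∈ Us (primorial z) a m U, ∀ w ∈ bx g k,
      lam (co (m * d) w (pu (primorial z) m u j) v) ≤ (4 * g + 3) * Real.log k) ∧
    ph (primorial z) * (∑ u ∈ Us (primorial z) a m U, cnt g k (Cm v (primorial z) m wb u) -
        (η + C / √(z : ℝ)) * rf g k (primorial z) m U) ≤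
      ∑ u ∈ Us (primorial z) a m U, ∑ w ∈ bx g k, ind (Cm v (primorial z) m wb u w) *
        lam (co (m * d) w (pu (primorial z) m u j) v) ∧
    ∑ u ∈ Us (primorial z) a m U, ∑ w ∈ bx g k, ind (Cm v (primorial z) m wb u w) *
        lam (co (m * d) w (pu (primorial z) m u j) v) ≤
      C * ph (primorial z) * rf g k (primorial z) m U

/-- the second moment -/
def M2Stmt : Prop := ∀ g v : ℕ, 1 ≤ g → Pv g v → ∃ C : ℝ, 0 < C ∧ ∀ (z d a : ℕ) (wb : Vec g),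
  v ≤ z → 200 ≤ z → d ∣ primorial z → d.Coprime v → (∀ q : ℕ, q.Prime → q ∣ d → ¬q ∣ a) →
  Ad1 v (primorial z) d wb a → ∀ η : ℝ, 0 < η → ∀ᶠ k : ℕ in atTop, ∀ U m : ℕ, Ur g k U → 0 < m →
  m ^ 12 ≤ k → m.Coprime (primorial z) → ∀ j ∈ range (nl k), ∀ j' ∈ range (nl k), j ≠ j' →
    ∑ u ∈ Us (primorial z) a m U, ∑ w ∈ bx g k, ind (Cm v (primorial z) m wb u w) *
        (lam (co (m * d) w (pu (primorial z) m u j) v) *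
          lam (co (m * d) w (pu (primorial z) m u j') v)) ≤
      ph (primorial z) ^ 2 *
        (∑ u ∈ Us (primorial z) a m U, cnt g k (Cm v (primorial z) m wb u) +
          (η + C / √(z : ℝ) + C * ex (primorial z) z ((j : ℤ) - j').natAbs) *
            rf g k (primorial z) m U)

/-- many prime values in every admissible class -/
def ALLStmt : Prop := ∀ g v : ℕ, 1 ≤ g → Pv g v → ∀ η : ℝ, 0 < η → ∀ᶠ z : ℕ in atTop,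
  ∀ (d a : ℕ) (wb : Vec g), d ∣ primorial z → d.Coprime v →
  (∀ q : ℕ, q.Prime → q ∣ d → ¬q ∣ a) → Ad1 v (primorial z) d wb a →
  ∀ᶠ k : ℕ in atTop, ∀ U m : ℕ, Ur g k U → 0 < m → m ^ 12 ≤ k → m.Coprime (primorial z) →
  ∑ u ∈ Us (primorial z) a m U, cnt g k (fun w => Cm v (primorial z) m wb u w ∧
    Few v (primorial z) d m k u w) ≤ η * rf g k (primorial z) m U

open Classical in
/-- the smooth parts have a large harmonic sum -/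
def MSETStmt : Prop := ∀ κ : ℝ, 0 < κ → ∀ᶠ z : ℕ in atTop, ∃ c : ℝ, 0 < c ∧ ∀ᶠ Y : ℕ in atTop,
  c * Real.log Y ≤ ∑ m ∈ (Icc 1 Y).filter (Mz z κ), 1 / (m : ℝ)

theorem all_of (siv : SIVStmt) (geo : GEOStmt) (lsm : LSMStmt) (nc : NCStmt)
    (var : SIVStmt → LSMStmt → NCStmt → VARStmt) (pha : PHAStmt)
    (apl : PHAStmt → VARStmt → APLStmt) (cbx : CBXStmt) (shf : CBXStmt → SHStmt) (siz : SIZStmt)
    (mul : MULStmt) (phb : PHBStmt)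
    (mom : GEOStmt → PHAStmt → APLStmt → CBXStmt → SHStmt → SIZStmt → MULStmt → MOMStmt)
    (m1 : GEOStmt → CBXStmt → SIZStmt → PHAStmt → PHBStmt → MOMStmt → M1Stmt)
    (m2 : GEOStmt → CBXStmt → SIZStmt → PHAStmt → PHBStmt → MOMStmt → M2Stmt)
    (all : PHAStmt → PHBStmt → M1Stmt → M2Stmt → ALLStmt) : ALLStmt :=
  have hM := mom geo pha (apl pha (var siv lsm nc)) cbx (shf cbx) siz mul
  all pha phb (m1 geo cbx siz pha phb hM) (m2 geo cbx siz pha phb hM)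

end Pool.Agent.MP_a43263_nt.N2
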