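import Pool.Agent.MP_a43263_nt.K2.Prs
import Pool.Agent.MP_a43263_nt.K2.Fin
import Pool.Agent.MP_a43263_nt.N2.SpecC

/-! THEOREM N2: from the count at scale `k` to the final statement. -/

set_option autoImplicit false

noncomputable section

namespace Pool.Agent.MP_a43263_nt.N2

open Polynomial Finset Filter JC Pool.Agent.MP_a43263_nt.UV K2

/-- the conclusion at one point -/
def Bst {g : ℕ} (w : Vec g) (u v : ℕ) : Prop := Irreducible (zK (pc (sv w)) ℚ) ∧ ∃ G : ℕ,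
  rs g (zK (pc (sv w)) ℚ) u v = G ∧ Squarefree G ∧ (od g (zK (pc (sv w)) ℚ) u v).Monic ∧
  (od g (zK (pc (sv w)) ℚ) u v).natDegree = 2 * g + 1 ∧
  Irreducible (od g (zK (pc (sv w)) ℚ) u v) ∧ K2.Good 2 (od g (zK (pc (sv w)) ℚ) u v)

def MainStmt : Prop := ∀ g : ℕ, 1 ≤ g → ∃ (v : ℕ) (ε : ℝ), 0 < v ∧ 0 < ε ∧ ∀ᶠ k : ℕ in atTop,
  ∀ U : ℕ, Ur g k U → ε * vol g k * U ≤ ∑ u ∈ Ioc U (3 * U), cnt g k fun w => Bst w u v

/-- the conclusion, with the odd model described by an identity -/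
def Out (g : ℕ) (f : ℚ[X]) (u : ℤ) : Prop := Irreducible f ∧ u ≠ 0 ∧ ∃ (G : ℕ) (F : ℚ[X]),
  (G : ℚ) = f.eval (-(u : ℚ) ^ 2) ∧ Squarefree G ∧ F.Monic ∧ F.natDegree = 2 * g + 1 ∧
  Irreducible F ∧ (∀ x l : ℚ, l = x + (u : ℚ) ^ 2 → l ≠ 0 →
    F.eval (G / l) * l ^ (2 * g + 2) = (G : ℚ) ^ (2 * g) * (l * f.eval x)) ∧ K2.Good 2 F

namespace PrsA

variable {g : ℕ}

/-- the scaling -/
def sc (v : ℕ) (w : Vec g) : Vec g := fun i => (v : ℤ) ^ xp g i.1 * w i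

/-- the pair of a vector -/
def pr (w : Vec g) : (Fin (2 * g) → ℤ) × ℤ := (fun i => w i.castSucc, w (Fin.last _))

theorem jn_un (w : Vec g) : jn (pr w) = w := funext fun i => by
  refine Fin.lastCases ?_ (fun j => ?_) i
  · exact jn_last _
  · exact jn_cast _ _

theorem sv_sc (v : ℕ) (w : Vec g) (i : Fin (2 * g + 1)) :
    sv (sc v w) i = ((v : ℤ) ^ 2) ^ (i.1 + 1) * sv w i := by
  unfold sv sc xp
  split_ifs with h
  · rw [h]; ring
  · rw [pow_mul]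

theorem sc_eval {v : ℕ} (hv : 0 < v) (w : Vec g) (x : ℚ) : (zK (pc (sv (sc v w))) ℚ).eval x =
    (v : ℚ) ^ (4 * g + 2) * (zK (pc (sv w)) ℚ).eval (x / (v : ℚ) ^ 2) := by
  have v0 : (v : ℚ) ≠ 0 := Nat.cast_ne_zero.2 hv.ne'
  simp only [pc, zK, Polynomial.map_add, Polynomial.map_pow, map_X, Polynomial.map_sum,
    Polynomial.map_mul, map_C, eval_add, eval_pow, eval_X, eval_finsetSum, eval_mul, eval_C,
    mul_add, mul_sum]
  simp only [sv_sc, eq_intCast]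
  rw [show 4 * g + 2 = 2 * (2 * g + 1) by ring, pow_mul (v : ℚ) 2]
  congr 1
  · rw [div_pow]; field_simp
  · refine sum_congr rfl fun i _ => ?_
    obtain ⟨j, hj⟩ := Nat.exists_eq_add_of_le (Nat.lt_succ_iff.1 i.2)
    rw [show 2 * g + 1 - 1 - i.1 = j by omega, show ((v : ℚ) ^ 2) ^ (2 * g + 1) =
      ((v : ℚ) ^ 2) ^ (i.1 + 1) * ((v : ℚ) ^ 2) ^ j by rw [← pow_add]; congr 1; omega, div_pow]
    push_cast
    field_simp

theorem out_of {v u : ℕ} (hv : 0 < v) (hu : 0 < u) {w : Vec g} (h : Bst w u v) :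
    Out g (zK (pc (sv (sc v w))) ℚ) u := by
  obtain ⟨hi, G, hG, hs, hm, hd, hF, hg⟩ := h
  have v0 : (v : ℚ) ≠ 0 := Nat.cast_ne_zero.2 hv.ne'
  refine ⟨?_, Int.natCast_ne_zero.2 hu.ne', G, _, ?_, hs, hm, hd, hF, fun x l hl hx => ?_, hg⟩
  · let _ := invertibleOfNonzero (inv_ne_zero (pow_ne_zero 2 v0))
    have e : zK (pc (sv (sc v w))) ℚ = C ((v : ℚ) ^ (4 * g + 2)) *
        algEquivCMulXAddC ((v : ℚ) ^ 2)⁻¹ 0 (zK (pc (sv w)) ℚ) := Polynomial.funext fun x => by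
      rw [sc_eval hv, eval_mul, eval_C, algEquivCMulXAddC_apply, ← comp_eq_aeval, eval_comp]
      simp [div_eq_inv_mul]
    rw [e, irreducible_isUnit_mul (isUnit_C.2 (pow_ne_zero _ v0).isUnit)]
    exact (MulEquiv.irreducible_iff _).2 hi
  · rw [sc_eval hv, ← hG, rs_eq (md_deg w) _ v0, Int.cast_natCast]
  · have e : (v : ℚ) ^ 2 * (x / (v : ℚ) ^ 2) + (u : ℚ) ^ 2 = l := by
      rw [hl, Int.cast_natCast]; field_simp
    have := od_eval (md_deg w) hG (Nat.cast_ne_zero.2 hs.ne_zero) (x / (v : ℚ) ^ 2) (e ▸ hx)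
    rw [e] at this
    rw [this, sc_eval hv]
    ring

theorem ur {v H U : ℕ} (hv : 0 < v) (h1 : H ≤ U ^ 2) (h2 : U ≤ H)
    (h4 : (144 * v ^ 2 * (6 * v)) ^ 2 ≤ H) (a3 : 1 ≤ H / (3 * v)) :
    Ur g (H / (3 * v)) (U / (6 * v)) ∧ U ≤ 12 * v * (U / (6 * v)) ∧ H ≤ 6 * v * (H / (3 * v)) := by
  have a1 : 144 * v ^ 2 ≤ U / (6 * v) := (Nat.le_div_iff_mul_le (by omega)).2
    ((Nat.pow_le_pow_iff_left two_ne_zero).1 (h4.trans h1))
  have a2 : 1 ≤ U / (6 * v) := le_trans (by have := pow_pos hv 2; omega) a1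
  have a4 : U ≤ 12 * v * (U / (6 * v)) := by
    have := Nat.lt_mul_div_succ U (show 0 < 6 * v by omega)
    nlinarith
  have a5 : H ≤ 6 * v * (H / (3 * v)) := by
    have := Nat.lt_mul_div_succ H (show 0 < 3 * v by omega)
    nlinarith
  refine ⟨⟨?_, Nat.div_le_div h2 (by omega) (by omega)⟩, a4, a5⟩
  calc _ ≤ (12 * v * (U / (6 * v))) ^ 2 :=
      (Nat.div_le_self _ _).trans (h1.trans (Nat.pow_le_pow_left a4 2))
    _ = 144 * v ^ 2 * (U / (6 * v)) ^ 2 := by ring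
    _ ≤ _ := by rw [pow_succ' _ 2]; exact Nat.mul_le_mul_right _ a1

end PrsA

open PrsA in
/-- the final form -/
theorem pres (h : MainStmt) (g : ℕ) (hg : 1 ≤ g) : ∃ ε : ℝ, 0 < ε ∧ ∀ᶠ H : ℕ in atTop, ∀ U : ℕ,
    H ≤ U ^ 2 → U ≤ H →
    ∀ B : Finset (ℤ × (Fin (2 * g) → ℤ) × ℤ), (∀ t, t ∈ B ↔ |t.1| ≤ U ∧
      (∀ i, |t.2.1 i| ≤ (H : ℤ) ^ (2 * i.1 + 2)) ∧ |t.2.2| ≤ (H : ℤ) ^ (2 * g + 1)) →
    ∃ T ⊆ B, ε * B.card ≤ T.card ∧ ∀ t ∈ T, Out g (X ^ (2 * g + 1) +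
      ∑ i, C (t.2.1 i : ℚ) * X ^ (2 * g - i.1) + C ((t.2.2 : ℚ) ^ 2)) t.1 := by
  classical
  obtain ⟨v, ε, hv, h0, h⟩ := h g hg
  refine ⟨ε / (36 * v * (3 ^ (2 * g + 1) * (6 * v) ^ ((2 * g + 1) ^ 2))), by positivity, ?_⟩
  have ht : Tendsto (fun H : ℕ => H / (3 * v)) atTop atTop :=
    Nat.tendsto_div_const_atTop (by omega)
  filter_upwards [ht.eventually h, eventually_ge_atTop ((144 * v ^ 2 * (6 * v)) ^ 2),
    ht.eventually_ge_atTop 1, eventually_ge_atTop 1]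
    with H k h4 h5 h6 U h1 h2 B hB
  obtain ⟨a1, a2, a3⟩ := ur (g := g) hv h1 h2 h4 h5
  have k := k _ a1
  have a4 : 3 * (U / (6 * v)) ≤ U :=
    (Nat.mul_le_mul_right _ (by omega)).trans (Nat.mul_div_le U (6 * v))
  have a5 := Nat.mul_div_le H (3 * v)
  have a6 : 1 ≤ U := Nat.pos_of_ne_zero fun e => by rw [e] at h1; omega
  generalize H / (3 * v) = k', U / (6 * v) = U' at *
  refine ⟨B.filter fun t => Out g (zK (pc (sv (jn t.2))) ℚ) t.1, filter_subset _ _, ?_,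
    fun t ht => md_eq t.2 ▸ (mem_filter.1 ht).2⟩
  have b1 : B.card ≤ 36 * v * (3 ^ (2 * g + 1) * (6 * v) ^ ((2 * g + 1) ^ 2)) *
      (k' ^ ((2 * g + 1) ^ 2) * U') := by
    have e := FinK.box_eq fun i : Fin (2 * g + 1) => H ^ xp g i.1
    have c := FinA.box_card g H h6
    simp only [Nat.cast_pow] at e
    rw [e, Set.ncard_coe_finset] at c
    refine (card_le_card_of_injOn (t := Icc (-(U : ℤ)) U ×ˢ Fintype.piFinset fun i =>
      Icc (-(H : ℤ) ^ xp g i.1) ((H : ℤ) ^ xp g i.1)) (fun t => (t.1, jn t.2)) (fun t ht => ?_)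
      fun t _ t' _ e => Prod.ext (Prod.ext_iff.1 e).1 ((jn_bij g).1 (Prod.ext_iff.1 e).2)).trans ?_
    · have := (hB t).1 ht
      simpa only [coe_product, Set.mem_prod, mem_coe, mem_Icc, Fintype.mem_piFinset, ← abs_le]
        using And.intro this.1 ((box_iff _ _).2 this.2)
    · rw [card_product, FinK.card_Icc']
      calc _ ≤ 36 * v * U' * (3 ^ (2 * g + 1) * (6 * v * k') ^ ((2 * g + 1) ^ 2)) :=
          Nat.mul_le_mul (by linarith) (c.trans (Nat.mul_le_mul_left _ (Nat.pow_le_pow_left a3 _)))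
        _ = _ := by rw [mul_pow (6 * v)]; ring
  have b2 : ((Ioc U' (3 * U') ×ˢ bx g k').filter fun x => Bst x.2 x.1 v).card ≤
      (B.filter fun t => Out g (zK (pc (sv (jn t.2))) ℚ) t.1).card := by
    refine card_le_card_of_injOn (fun x => ((x.1 : ℤ), pr (sc v x.2))) (fun x hx => ?_)
      fun x _ y _ e => Prod.ext (Int.natCast_inj.1 (congrArg Prod.fst e)) (funext fun i => ?_)
    · obtain ⟨c1, c2⟩ := mem_filter.1 (mem_coe.1 hx)
      obtain ⟨c3, c4⟩ := mem_product.1 c1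
      rw [mem_Ioc] at c3
      refine mem_coe.2 (mem_filter.2 ⟨(hB _).2 ⟨?_, (box_iff _ _).1 fun i => ?_⟩, ?_⟩)
      · rw [Nat.abs_cast]; exact_mod_cast c3.2.trans a4
      · rw [jn_un, sc, abs_mul, abs_of_nonneg (by positivity)]
        refine (mul_le_mul_of_nonneg_left (FinA.bx_sub hg le_rfl c4 i) (by positivity)).trans ?_
        rw [← mul_pow]
        exact pow_le_pow_left₀ (by positivity) (by exact_mod_cast (by linarith : v * (3 * k') ≤ H)) _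
      · rw [jn_un]; exact out_of hv (by omega) c2
    · have := congrFun (congrArg (fun t => jn t.2) e) i
      simp only [jn_un, sc] at this
      exact mul_left_cancel₀ (by positivity) this
  have b3 : ∑ u ∈ Ioc U' (3 * U'), cnt g k' (fun w => Bst w u v) =
      ((Ioc U' (3 * U') ×ˢ bx g k').filter fun x => Bst x.2 x.1 v).card := by
    simp only [cnt_eq_card, card_filter, sum_product, Nat.cast_sum]
  rw [div_mul_eq_mul_div, div_le_iff₀ (by positivity)]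
  have b4 : (B.card : ℝ) ≤ 36 * v * (3 ^ (2 * g + 1) * (6 * v) ^ ((2 * g + 1) ^ 2)) *
      (vol g k' * U') := by unfold vol; exact_mod_cast b1
  refine (mul_le_mul_of_nonneg_left b4 h0.le).trans ?_
  rw [mul_left_comm, mul_comm, ← mul_assoc ε]
  exact mul_le_mul_of_nonneg_right (k.trans (b3.trans_le (Nat.cast_le.2 b2))) (by positivity)

end Pool.Agent.MP_a43263_nt.N2
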