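import Pool.Agent.MP_a43263_nt.N2.SpecD
import Pool.Agent.MP_a43263_nt.K2.Sieve

/-! THEOREM N2: the sieve. -/

set_option autoImplicit false

noncomputable section

namespace Pool.Agent.MP_a43263_nt.N2

open Polynomial Finset Filter Matrix JC Pool.Agent.MP_a43263_nt.UV K2

namespace SieveA

theorem root {r : ℝ} {m k : ℕ} (m0 : 0 < m) (h : m ^ 12 ≤ k) (hr : r ^ 4 ≤ k) :
    r * m ≤ √(5 * (k : ℝ)) := by
  refine Real.le_sqrt_of_sq_le ?_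
  have h1 : (m : ℝ) ^ 4 ≤ k := by
    exact_mod_cast (Nat.pow_le_pow_right m0 (by norm_num)).trans h
  have h2 : (0 : ℝ) ≤ k := k.cast_nonneg
  nlinarith [sq_nonneg (r ^ 2 - (m : ℝ) ^ 2)]

end SieveA

theorem sieve_n : TRNStmt → INDStmt → GCDStmt → K2.BASEStmt → FMStmt → RTSStmt → LOWStmt →
    SIEVEStmt := by
  intro trn ind gcd base fm rts low g v hg
  classical
  obtain ⟨q₀, E, c, c0, hc⟩ := fm g hg
  obtain ⟨c', c0', hc'⟩ := gcd g hg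
  obtain ⟨t, ht⟩ : ∃ t : ℝ, t = 5 ^ (2 * g + 1) ^ 2 := ⟨_, rfl⟩
  obtain ⟨s, hs⟩ : ∃ s : ℝ, s = 30 ^ (2 * g + 1) := ⟨_, rfl⟩
  have t0 : 0 < t := by rw [ht]; positivity
  have s0 : 0 < s := by rw [hs]; positivity
  obtain ⟨N, hN⟩ := exists_pow_lt_of_lt_one (x := 1 / (8 * c * t * s)) (y := (9 / 10 : ℝ))
    (by positivity) (by norm_num)
  obtain ⟨Q, w₀, rfl, i2, t3, t5, hQ⟩ := base g (max q₀ (max 7 (v + 1))) N hg
  have hQ7 : ∀ q ∈ Q, q.Prime ∧ 7 ≤ q := fun q hq =>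
    ⟨(hQ q hq).1, (max_le_iff.1 (max_le_iff.1 (hQ q hq).2.2.1).2).1⟩
  obtain ⟨P, hP⟩ : ∃ P : ℝ, P = (∏ q ∈ Q, (q : ℝ)) ^ (2 * g + 1) := ⟨_, rfl⟩
  have P0 : 0 < P := hP ▸ pow_pos (prod_pos fun q hq => by exact_mod_cast (hQ q hq).1.pos) _
  obtain ⟨r, hr⟩ : ∃ r : ℝ, r = 8 * s * P * c' + 2 := ⟨_, rfl⟩
  have r2 : 0 < 8 * s * P * c' := by positivity
  have k1 := hc Q (f1 w₀) (w₀ (Fin.last _)) (1 / (8 * t * s * P))
    (fun q hq => ⟨(hQ q hq).1, (le_max_left _ _).trans (hQ q hq).2.2.1, (hQ q hq).2.2.2⟩)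
    (by positivity)
  have k2 := low g v Q w₀ hg hQ7
  rw [← hP] at k1
  rw [mul_pow, ← hP, ← hs] at k2
  refine ⟨Q, 1 / 8 / (s * P), E, by positivity, fun q hq =>
    ⟨(hQ q hq).1, (max_le_iff.1 (max_le_iff.1 (hQ q hq).2.2.1).2).2⟩, ?_⟩
  have e : (c * (9 / 10) ^ Q.card / P + 1 / (8 * t * s * P)) * t ≤ 1 / 4 / (s * P) := by
    have e2 : c * (9 / 10) ^ Q.card / P ≤ 1 / (8 * t * s * P) := by
      rw [lt_div_iff₀ (by positivity)] at hN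
      rw [div_le_div_iff₀ P0 (by positivity)]
      nlinarith
    refine (mul_le_mul_of_nonneg_right (add_le_add e2 le_rfl) t0.le).trans_eq ?_
    field_simp
    norm_num
  filter_upwards [(tendsto_natCast_atTop_atTop.const_mul_atTop
    (by norm_num : (0 : ℝ) < 5)).eventually k1, k2, eventually_ge_atTop 1,
    tendsto_natCast_atTop_atTop.eventually (eventually_ge_atTop (r ^ 4))]
    with k h1 h2 h3 hk m u a ms mE m12 ma
  have m0 : 0 < m := Nat.pos_of_ne_zero ms.sf.ne_zero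
  have m1 : (1 : ℝ) ≤ m := by exact_mod_cast m0
  have hM := SieveA.root m0 m12 hk
  replace h1 := h1 m a (rts.2.1 v Q m u a (fun q hq => (hQ q hq).1) ms ma)
    (by have : (m : ℝ) ^ E ≤ k := by exact_mod_cast mE
        linarith [(k.cast_nonneg : (0 : ℝ) ≤ k)]) (ms.sum.trans (by norm_num))
  replace h2 := h2 m u ms m12
  generalize √(5 * (k : ℝ)) = M at hM h1 h2
  have M1 : 2 * (m : ℝ) ≤ M := by nlinarith
  have e' : c' / M ≤ 1 / 8 / (s * P) / m := by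
    rw [div_div, div_div, div_le_div_iff₀ (by linarith) (by positivity)]
    nlinarith
  have v0 : 0 ≤ vol g k := by unfold vol; positivity
  obtain ⟨R, hR⟩ : ∃ R : Vec g → Prop, ∀ w, R w ↔ Fm g Q m a (f1 w) (w (Fin.last _)) ∧
    Rs Q (f1 w₀) (w₀ (Fin.last _)) (f1 w) (w (Fin.last _)) ∧ Rb (5 * k) (f1 w) ∧
    ¬Sqm (zK (f1 w) ℚ) (1 - X) ∧ (¬Str3 Q m a (f1 w) ∨
      ∃ p : ℕ, p.Prime ∧ p ≠ 2 ∧ p ∉ Q ∧ ¬p ∣ m ∧ M ≤ p ∧ Nx p (f1 w)) := ⟨_, fun _ => Iff.rfl⟩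
  have h4 := h1 (((bx g k).filter R).image fun w => (f1 w, w (Fin.last _))) fun x hx => by
    obtain ⟨w, hw, rfl⟩ := mem_image.1 hx
    exact (hR w).1 (mem_filter.1 hw).2
  rw [card_image_of_injective _ fun a b h => (trn g a hg).2.2.2.2.2.2.2.1 b
    (congrArg Prod.fst h) (congrArg Prod.snd h), ← cnt_eq_card, mul_pow, ← ht, ← mul_assoc] at h4
  have h5 : cnt g k R ≤ 1 / 4 / (s * P) * vol g k / m :=
    h4.trans (div_le_div_of_nonneg_right (mul_le_mul_of_nonneg_right e v0) m.cast_nonneg)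
  have h6 := (hc' k M h3 (by linarith)).trans ((mul_div_right_comm _ _ _).trans_le
    (mul_le_mul_of_nonneg_right e' v0))
  have h7 := h2.trans ((cnt_le_add (Q := Gd v Q m u a)
    (R := fun w => (∃ p : ℕ, p.Prime ∧ M ≤ p ∧ (p : ℤ) ∣ w (Fin.last _) ∧
      ∀ i : Fin (2 * g + 1), i.1 + 1 = 2 * g → (p : ℤ) ∣ w i) ∨ R w) ?_).trans
    (add_le_add le_rfl ((cnt_le_add fun _ _ h => h).trans (add_le_add h6 h5))))
  · have : 1 / 2 / (s * P) * vol g k / m = 4 * (1 / 8 / (s * P) * vol g k / m) := by ring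
    have : 1 / 4 / (s * P) * vol g k / m = 2 * (1 / 8 / (s * P) * vol g k / m) := by ring
    have : 1 / 8 / (s * P) / m * vol g k = 1 / 8 / (s * P) * vol g k / m := by ring
    linarith
  rintro w b1 ⟨b2, b0, b3, b4⟩
  obtain ⟨⟨a1, a2⟩, a3, a4, -, -, -, a5, -, -, a6⟩ := trn g w hg
  obtain ⟨-, a7⟩ := a6 k h3 b1
  have y : ∀ q : ℕ, (q ∣ 30 * ∏ q ∈ Q, q) → ∀ i, (w i : ZMod q) = w₀ i := fun q hq i =>
    (ZMod.intCast_eq_intCast_iff _ _ _).2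
      (((ZMod.intCast_eq_intCast_iff _ _ _).1 (b2 i)).of_dvd (Int.natCast_dvd_natCast.2 hq))
  have yq : ∀ q ∈ Q, ∀ i, (w i : ZMod q) = w₀ i := fun q hq =>
    y q ((dvd_prod_of_mem _ hq).mul_left 30)
  have j2 : Irreducible (zK (f1 w) (ZMod 2)) := by
    rw [a5 2 w₀ (y 2 (Dvd.dvd.mul_right (by norm_num) _))]; exact i2
  have hZ : Zq g (f1 w) := ⟨hg, a1, a2, (IsPrimitive.Int.irreducible_iff_irreducible_map_cast
    a1.isPrimitive).1 (a1.irreducible_of_irreducible_map _ _ j2)⟩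
  have j3 : Tz 3 1 (f1 w) := by
    rw [Tz, a5 3 w₀ (y 3 (Dvd.dvd.mul_right (by norm_num) _))]; exact t3
  have j5 : Tz 5 0 (f1 w) := by
    rw [Tz, a5 5 w₀ (y 5 (Dvd.dvd.mul_right (by norm_num) _))]; exact t5
  have ty : ∀ q ∈ Q, Ty q (f1 w) := fun q hq => by
    rw [Ty, a5 q w₀ (yq q hq)]; exact (hQ q hq).2.2.2.1
  have nx0 : ∀ p : ℕ, p.Prime → Nx p (f1 w) → p ≠ 2 ∧ p ∉ Q ∧ ¬p ∣ m ∧ M ≤ p := fun p hp nx => by
    have p2 : p ≠ 2 := fun e => Ev.not_nx j2.squarefree (e ▸ nx)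
    have p3 : p ≠ 3 := fun e => K2.SieveA.tz_nx hZ j3 (e ▸ nx)
    have p5 : p ≠ 5 := fun e => have := Fact.mk Nat.prime_five; K2.SieveA.tz_nx hZ j5 (e ▸ nx)
    have pQ : p ∉ Q := fun e => nxp.2.1 p g _ hp hZ (ty p e) nx
    have p7 : 7 ≤ p := by
      have := hp.two_le
      by_contra d
      obtain rfl | rfl : p = 4 ∨ p = 6 := by omega
      exacts [absurd hp (by norm_num), absurd hp (by norm_num)]
    have pM : M ≤ p := not_lt.1 fun d => b3 p hp p7 pQ d nx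
    refine ⟨p2, pQ, fun d => ?_, pM⟩
    have : (p : ℝ) ≤ m := by exact_mod_cast Nat.le_of_dvd m0 d
    linarith
  have rt : ∀ p : ℕ, p.Prime → p ∣ m → Rt p (f1 w) a := fun p hp d =>
    have d' := Int.natCast_dvd_natCast.2 d
    rts.1 g p w u v a hp (fun q => hp.one_lt.ne' (Nat.eq_one_of_dvd_coprimes ms.cu d
      ((Int.natCast_dvd_natCast.1 q).mul_left u))) (d'.trans ma) (d'.trans b0) (b4 p hp d).2
  have cm : IsCoprime (w (Fin.last _)) (m : ℤ) := by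
    by_contra co
    obtain ⟨p, hp, d⟩ := Nat.exists_prime_and_dvd (mt Int.isCoprime_iff_gcd_eq_one.2 co)
    exact (b4 p hp (Int.natCast_dvd_natCast.1
      ((Int.natCast_dvd_natCast.2 d).trans (Int.gcd_dvd_right ..)))).1
      ((Int.natCast_dvd_natCast.2 d).trans (Int.gcd_dvd_left ..))
  by_cases co : IsCoprime (w (Fin.last _)) ((derivative (f1 w)).eval 1)
  swap
  · obtain ⟨p, hp, d⟩ := Nat.exists_prime_and_dvd (mt Int.isCoprime_iff_gcd_eq_one.2 co)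
    have d1 := (Int.natCast_dvd_natCast.2 d).trans (Int.gcd_dvd_left ..)
    have d2 := (Int.natCast_dvd_natCast.2 d).trans (Int.gcd_dvd_right ..)
    exact .inr (.inl ⟨p, hp, (nx0 p hp (K2.SieveA.nx_one a3 d1 d2)).2.2.2, d1,
      fun i hi => a4 i hi ▸ d2⟩)
  by_cases b : ¬Str3 Q m a (f1 w) ∨
    ∃ p : ℕ, p.Prime ∧ p ≠ 2 ∧ p ∉ Q ∧ ¬p ∣ m ∧ M ≤ p ∧ Nx p (f1 w)
  · exact .inr (.inr ((hR w).2 ⟨⟨hZ, a3, co, cm, fun q hq => ⟨(hQ q hq).1, ty q hq⟩, rt⟩,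
      fun q hq => ⟨a5 q w₀ (yq q hq), yq q hq _⟩, a7, (ind g _ _ hZ a3 j3).1, b⟩))
  rw [not_or, not_not] at b
  exact .inl ⟨⟨hZ, fun q hq => ⟨(hQ q hq).1, (hQ q hq).2.1, ty q hq⟩, fun p hp nx =>
    let ⟨e1, e2, e3, e4⟩ := nx0 p hp nx; b.2 ⟨p, hp, e1, e2, e3, e4, nx⟩, j3, j5⟩, b0, rt, b.1⟩

end Pool.Agent.MP_a43263_nt.N2
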