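import Pool.Agent.MP_a43263_nt.K2.Spec
import Pool.Agent.MP_a43263_nt.N2.SpecC

/-! THEOREM N2, algebra, lattices and the first moment: definitions and statements.
Note: `/team-store/a43263_N_h11.md`. -/

set_option autoImplicit false

noncomputable section

namespace Pool.Agent.MP_a43263_nt.N2

open Polynomial Finset Filter Matrix JC Pool.Agent.MP_a43263_nt.UV K2

/-! ### definitions -/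

/-- a simple root modulo `p` -/
def Rt (p : ℕ) (f : ℤ[X]) (a : ℤ) : Prop :=
  (p : ℤ) ∣ f.eval a ∧ ¬(p : ℤ) ∣ (derivative f).eval a

/-- a unit at the simple root, `p` times a unit elsewhere -/
def pw (p : ℕ) (f : ℤ[X]) (a : ℤ) : ℤ[X] := (f /ₘ (X - C a)) ^ 3 + C (p : ℤ) * (X - C a)

section
variable (p : ℕ) [Fact p.Prime]

/-- the local invariants at a simple root -/
def NG (f : ℤ[X]) (a : ℤ) (δ : ℚ_[p][X]) (s y : ZMod 2) : Prop :=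
  ∃ (x : ℚ_[p][X]) (r : ℤ_[p][X]),
    zK f ℚ_[p] ∣ δ * x ^ 2 - iq p r * zK (pw p f a) ℚ_[p] ^ y.val ∧
    IsCoprime (rq p r) (zK f (ZMod p)) ∧ (IsSquare ((rq p r).eval (a : ZMod p)) ↔ s = 0)

/-- the factorisation at a simple root -/
structure Ha (f : ℤ[X]) (a : ℤ) (α : ℤ_[p]) (h t : ℤ_[p][X]) : Prop where
  eq : zK f ℤ_[p] = (X - C α) * h
  monic : h.Monic
  red : PadicInt.toZMod α = (a : ZMod p)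
  ne : (rq p h).eval (a : ZMod p) ≠ 0
  pi : h ∣ zK (pw p f a) ℤ_[p] - C (p : ℤ_[p]) * t
  un : rq p t = X - C (a : ZMod p)
  val : PadicInt.toZMod ((zK (pw p f a) ℤ_[p]).eval α) = (rq p h).eval (a : ZMod p) ^ 3

end

/-- the strict virtual Selmer group is generated by the marked class -/
def Str3 (Q : Finset ℕ) (m₀ : ℕ) (a : ℤ) (f : ℤ[X]) : Prop := ∀ δ : ℚ[X], IsCoprime δ (zK f ℚ) →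
  IsSquare (Nm (zK f ℚ) δ) → (∀ (p : ℕ) [Fact p.Prime], ¬p ∣ m₀ → Ev p f (fK δ ℚ_[p])) →
  (∀ (p : ℕ) [Fact p.Prime], p ∣ m₀ → ∃ y, NG p f a (fK δ ℚ_[p]) 0 y) →
  (∀ (q : ℕ) [Fact q.Prime], q ∈ Q → NF q f (fK δ ℚ_[q]) 0 0) →
  Sqm (zK f ℚ) δ ∨ Sqm (zK f ℚ) (δ * (1 - X))

/-- the smooth part and the root -/
structure Sm0 (Q : Finset ℕ) (m₀ : ℕ) (a : ℤ) : Prop where
  sf : Squarefree m₀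
  odd : ¬2 ∣ m₀
  cop : ∀ q ∈ Q, ¬q ∣ m₀
  sq : ∀ p : ℕ, p.Prime → p ∣ m₀ → IsSquare ((1 - a : ℤ) : ZMod p) ∧ ¬(p : ℤ) ∣ 1 - a

/-- the polynomials that are counted -/
structure Fm (g : ℕ) (Q : Finset ℕ) (m₀ : ℕ) (a : ℤ) (f : ℤ[X]) (m : ℤ) : Prop where
  zq : Zq g f
  ev : f.eval 1 = m ^ 2
  co : IsCoprime m ((derivative f).eval 1)
  cm : IsCoprime m (m₀ : ℤ)
  ty : ∀ q ∈ Q, q.Prime ∧ Ty q f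
  rt : ∀ p : ℕ, p.Prime → p ∣ m₀ → Rt p f a

/-- the companion matrix -/
def Cx (g : ℕ) (f : ℤ[X]) : Mat g ℤ := Matrix.of fun i j => (X ^ (j.1 + 1) %ₘ f).coeff i.1

/-- local generators -/
def Gen (f : ℤ[X]) (δ : ℚ[X]) (x : ℕ → ℚ[X]) (R : ℕ → ℤ[X]) (P : Finset ℕ) : Prop :=
  ∀ p : ℕ, p.Prime → zK f ℚ ∣ δ * x p ^ 2 - zK (R p) ℚ ∧ Nm f (R p) ≠ 0 ∧ (p ∉ P → x p = x 0)

/-- the lattice with the given local generators -/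
def Mem (f : ℤ[X]) (x : ℕ → ℚ[X]) (y : ℚ[X]) : Prop := ∀ p : ℕ, p.Prime →
  ∃ (t : ℤ) (s : ℤ[X]), ¬(p : ℤ) ∣ t ∧ zK f ℚ ∣ C (t : ℚ) * y - x p * zK s ℚ

/-- a local frame -/
def Frm (g p : ℕ) (f R : ℤ[X]) (A T : Mat g ℤ) : Prop := ∃ (Γ : Mat g ℤ) (t : ℤ),
  ¬(p : ℤ) ∣ Γ.det ∧ ¬(p : ℤ) ∣ t ∧ Γᵀ * A * Γ = Gm g f (C (t ^ 2) * R) ∧ T * Γ = Γ * Cx g f

/-- the local values -/
def Rp (m₁ : ℕ) (f : ℤ[X]) (a : ℤ) (r : ℕ → ℤ[X]) (p : ℕ) : ℤ[X] :=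
  r p * pw p f a ^ (if p ∣ m₁ then 1 else 0)

/-- a unit plus `p` times a hyperbolic form -/
def Hy (g p : ℕ) (A : Mat g ℤ) : Prop := ∃ (Γ : Mat g ℤ) (w : ℤ) (e : Fin (2 * g) → ℤ),
  ¬(p : ℤ) ∣ Γ.det ∧ ¬(p : ℤ) ∣ w ∧ (∀ i, ¬(p : ℤ) ∣ e i) ∧
  IsSquare ((((-1) ^ g * ∏ i, e i : ℤ)) : ZMod p) ∧ ∀ i j, (p : ℤ) ^ 2 ∣
    (Γᵀ * A * Γ - diagonal (Fin.cons w fun i => p * e i : Fin (2 * g + 1) → ℤ)) i j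

/-- zero plus a hyperbolic form -/
def Hz (g : ℕ) {F : Type} [CommRing F] (S : Mat g F) : Prop :=
  ∃ (Γ : Mat g F) (e : Fin (2 * g) → F), IsUnit Γ.det ∧ (∀ i, IsUnit (e i)) ∧
    IsSquare ((-1) ^ g * ∏ i, e i) ∧ Γᵀ * S * Γ = diagonal (Fin.cons 0 e : Fin (2 * g + 1) → F)

/-- no common isotropic frame -/
def Ni (g : ℕ) (B T : Mat g ℤ) : Prop := ∀ e : Fin g → Fin (2 * g + 1) → ℚ,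
  LinearIndependent ℚ e →
    ¬∀ i j, e i ⬝ᵥ mK B ℚ *ᵥ e j = 0 ∧ e i ⬝ᵥ mK (B * T) ℚ *ᵥ e j = 0

/-- the two lattices of a class ramified at `m₁` -/
structure Pre (g : ℕ) (Q : Finset ℕ) (f : ℤ[X]) (m₀ m₁ : ℕ) (a : ℤ) (A A' M T : Mat g ℤ) :
    Prop where
  sa : A.IsSymm
  sa' : A'.IsSymm
  st : (A * T).IsSymm
  ch : T.charpoly = f
  rel : Mᵀ * A' * M = A * (1 - T)
  dA : A.det.natAbs = m₁ ^ (2 * g)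
  dA' : A'.det.natAbs = m₁ ^ (2 * g)
  hy : ∀ p : ℕ, p.Prime → p ∣ m₁ → Hy g p A ∧ Hy g p A' ∧ ∀ i j, (p : ℤ) ∣ (A * T - a • A) i j
  hz : ∀ p : ℕ, p.Prime → p ∣ m₀ → ¬p ∣ m₁ → Hz g (mK (A * T - a • A) (ZMod p))
  sq : ∀ q ∈ Q, St (zK f (ZMod q)) (mK A (ZMod q)) (mK (A * T) (ZMod q))
  ni : Ni g A T
  ni' : Ni g (A * (1 - T)) T

abbrev Vz (g : ℕ) : Type := Fin (2 * g + 1) → ℤ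

abbrev Sub (g p : ℕ) : Type := Submodule (ZMod p) (Fin (2 * g + 1) → ZMod p)

abbrev Trp (g : ℕ) : Type := Mat g ℤ × Mat g ℤ × Mat g ℤ

section
variable {g : ℕ}

/-- reduction of vectors -/
def rd (p : ℕ) (x : Vz g) : Fin (2 * g + 1) → ZMod p := fun i => (x i : ZMod p)

/-- a Lagrangian of the kernel -/
structure Lg (p : ℕ) (A : Mat g ℤ) (Λ : Sub g p) : Prop where
  card : Nat.card Λ = p ^ g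
  ker : ∀ x : Vz g, rd p x ∈ Λ → ∀ i, (p : ℤ) ∣ (A *ᵥ x) i
  iso : ∀ x y : Vz g, rd p x ∈ Λ → rd p y ∈ Λ → (p : ℤ) ^ 2 ∣ x ⬝ᵥ A *ᵥ y

/-- two consequences of the shape -/
structure Lk (p : ℕ) (A : Mat g ℤ) : Prop where
  ker : ∀ y : Vz g, (∀ i, (p : ℤ) ^ 2 ∣ (A *ᵥ y) i) → ∀ i, (p : ℤ) ∣ y i
  rk : ∀ x y : Vz g, (p : ℤ) ∣ (x ⬝ᵥ A *ᵥ y) ^ 2 - (x ⬝ᵥ A *ᵥ x) * (y ⬝ᵥ A *ᵥ y)

/-- a unimodular overlattice -/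
structure Ov (m₁ : ℕ) (A : Mat g ℤ) (Λ : ∀ p : ℕ, Sub g p) (R B : Mat g ℤ) : Prop where
  lg : ∀ p : ℕ, p.Prime → p ∣ m₁ → Lg p A (Λ p)
  eq : Rᵀ * A * R = ((m₁ : ℤ) ^ 2) • B
  un : IsUnit B.det
  im : ∀ y : Vz g, (∃ ξ : Vz g, R *ᵥ ξ = y) ↔ ∀ p : ℕ, p.Prime → p ∣ m₁ → rd p y ∈ Λ p

/-- maximal isotropic subspaces -/
def Is1 (p : ℕ) (A : Mat g ℤ) (M : Sub g p) : Prop := Nat.card M = p ^ g ∧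
  ∀ x y : Vz g, rd p x ∈ M → rd p y ∈ M → (p : ℤ) ∣ x ⬝ᵥ A *ᵥ y

/-- the orthogonal complement -/
def Pp (p : ℕ) (A : Mat g ℤ) (M : Sub g p) (x : Vz g) : Prop :=
  ∀ y : Vz g, rd p y ∈ M → (p : ℤ) ∣ x ⬝ᵥ A *ᵥ y

/-- the condition at a ramified prime -/
def L1 (p : ℕ) (c : ℤ) (A A' N : Mat g ℤ) : Prop := ∃ M M' : Sub g p, Is1 p A M ∧ Is1 p A' M' ∧
  ∀ x x' : Vz g, (Pp p A M x → (p : ℤ) ∣ x' ⬝ᵥ N *ᵥ x) ∧ (Pp p A' M' x' → (p : ℤ) ∣ x' ⬝ᵥ N *ᵥ x) ∧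
    (rd p x ∈ M → Pp p A' M' x' → (p : ℤ) ^ 2 ∣ x' ⬝ᵥ N *ᵥ x) ∧
    (Pp p A M x → rd p x' ∈ M' → (p : ℤ) ^ 2 ∣ x' ⬝ᵥ N *ᵥ x) ∧
    (Pp p A M x → Pp p A' M' x' → (p : ℤ) ^ 3 ∣
      (x' ⬝ᵥ N *ᵥ x) ^ 2 - (p : ℤ) ^ 2 * c * ((x ⬝ᵥ A *ᵥ x) * (x' ⬝ᵥ A' *ᵥ x')))

/-- the condition at an unramified prime -/
def L2 (p : ℕ) (c : ℤ) (A A' N : Mat g ℤ) : Prop := Hz g (mK (c • A + A * Tt A A' N) (ZMod p))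

/-- the condition at a prime of `Q` -/
def LQ (q : ℕ) (f₀ : ℤ[X]) (mb : ℤ) (m₁ : ℕ) (A A' N : Mat g ℤ) : Prop := ∃ c : ZMod q,
  c * m₁ = 1 ∧ St (zK f₀ (ZMod q)) (mK A (ZMod q))
    (mK A (ZMod q) * Tt (mK A (ZMod q)) (mK A' (ZMod q)) (c • mK N (ZMod q))) ∧
  (c • mK N (ZMod q)).det = (mb : ZMod q)

/-- all local conditions -/
def Lall (Q : Finset ℕ) (f₀ : ℤ[X]) (mb : ℤ) (m₀ m₁ : ℕ) (a : ℤ) (A A' N : Mat g ℤ) : Prop :=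
  (∀ q ∈ Q, LQ q f₀ mb m₁ A A' N) ∧
  (∀ p : ℕ, p.Prime → p ∣ m₁ → L1 p ((1 - a) * ((m₁ / p : ℕ) : ℤ) ^ 2) A A' N) ∧
  ∀ p : ℕ, p.Prime → p ∣ m₀ → ¬p ∣ m₁ → L2 p ((m₁ : ℤ) ^ 2 * (1 - a) - 1) A A' N

/-- pairwise not isomorphic -/
def Nis (S : Finset (Trp g)) : Prop := ∀ x ∈ S, ∀ y ∈ S, ∀ γ β : Mat g ℤ, γ.det = 1 → β.det = 1 →
  y = (γᵀ * x.1 * γ, βᵀ * x.2.1 * β, βᵀ * x.2.2 * γ) → x = y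

/-- no deep cusp -/
def Nd (A A' N : Mat g ℤ) : Prop := (∀ (M ρ : ℝ) (H : Mat g ℝ), Dst M ρ A (Tt A A' N) H) ∧
  ∀ (M ρ : ℝ) (H : Mat g ℝ), Dst M ρ A' (Tt A' A Nᵀ) H

end

/-- the scaled polynomial -/
def fh (c : ℤ) (f : ℤ[X]) : ℤ[X] := (f.scaleRoots (c ^ 2)).comp (X - C (1 - c ^ 2))

/-- the roots are small -/
def Rb (ρ : ℝ) (f : ℤ[X]) : Prop :=
  ∀ θ : ℂ, (zK f ℂ).eval θ = 0 → ‖θ‖ ≤ ρ ^ 2 ∧ ‖1 - θ‖ ≤ ρ ^ 2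

/-- the triple of two overlattices -/
structure Tp (g : ℕ) (f : ℤ[X]) (m : ℤ) (m₁ : ℕ) (A' M T R R' B B' N : Mat g ℤ) : Prop where
  eq : ∃ ε : ℤ, ε * ε = 1 ∧ (m₁ : ℤ) • N = ε • (R'ᵀ * A' * M * R)
  tri : Tri (fh m₁ f) ((m₁ : ℤ) ^ (2 * g + 1) * m) B B' N
  cj : R * Tt B B' N = ((1 - (m₁ : ℤ) ^ 2) • (1 : Mat g ℤ) + ((m₁ : ℤ) ^ 2) • T) * R
  nd : Nd B B' N

/-- the number of pairs of Lagrangians -/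
def mu1 (g m₁ : ℕ) : ℕ := ∏ p ∈ m₁.primeFactors, (2 * p ^ g.choose 2) ^ 2

/-- the density of the local conditions -/
def den (g : ℕ) (C : ℝ) (Q : Finset ℕ) (m₀ m₁ : ℕ) : ℝ :=
  (9 / 10) ^ Q.card / (∏ q ∈ Q, (q : ℝ)) ^ (2 * g + 1) *
    (∏ p ∈ m₁.primeFactors, 2 * (p : ℝ) ^ (5 * g ^ 2 + 3 * g) * (1 + C / p) /
      (p : ℝ) ^ (2 * (2 * g + 1) ^ 2)) *
    ∏ p ∈ m₀.primeFactors \ m₁.primeFactors, (1 + C / p) / (2 * p)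

/-! ### A. local theory at a simple root -/

def HENStmt : Prop := ∀ (p : ℕ) [Fact p.Prime] (g : ℕ) (f : ℤ[X]) (a : ℤ), Zq g f → Rt p f a →
  ∃ α h t, Ha p f a α h t

/-- the invariants are additive -/
def NGMStmt : Prop := ∀ (p : ℕ) [Fact p.Prime] (g : ℕ) (f : ℤ[X]) (a : ℤ), p ≠ 2 → Zq g f →
  Rt p f a → IsCoprime (zK (pw p f a) ℚ_[p]) (zK f ℚ_[p]) ∧
  IsSquare (Nm (zK f ℚ_[p]) (zK (pw p f a) ℚ_[p])) ∧ NG p f a 1 0 0 ∧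
  (∀ δ δ' s y s' y', NG p f a δ s y → NG p f a δ' s' y' → NG p f a (δ * δ') (s + s') (y + y')) ∧
  (∀ δ, Ev p f δ ↔ ∃ s, NG p f a δ s 0) ∧
  ∀ δ z s y, NG p f a (δ * z ^ 2) s y → NG p f a δ s y

/-- the shape of the local forms -/
def SHZStmt : Prop := ∀ (p : ℕ) [Fact p.Prime] (g : ℕ) (f : ℤ[X]) (a : ℤ) (r : ℤ_[p][X]), p ≠ 2 →
  Zq g f → Rt p f a → IsCoprime (rq p r) (zK f (ZMod p)) →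
  ∃ (w : ℤ_[p]) (e : Fin (2 * g) → ℤ_[p]) (P : Mat g ℤ_[p]), IsUnit P.det ∧ IsUnit w ∧
    (∀ i, IsUnit (e i)) ∧
    (IsSquare (PadicInt.toZMod w) ↔ IsSquare ((rq p r).eval (a : ZMod p))) ∧
    IsSquare (PadicInt.toZMod ((-1) ^ g * w * (∏ i, e i) * Nm (zK f ℤ_[p]) r)) ∧
    Pᵀ * Gm g (zK f ℤ_[p]) (r * zK (pw p f a) ℤ_[p]) * P =
      diagonal (Fin.cons w fun i => p * e i : Fin (2 * g + 1) → ℤ_[p]) ∧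
    (P.map PadicInt.toZMod)ᵀ * Gm g (zK f (ZMod p)) (rq p r * (X - C (a : ZMod p))) *
        P.map PadicInt.toZMod =
      diagonal (Fin.cons 0 fun i => PadicInt.toZMod (e i) : Fin (2 * g + 1) → ZMod p)

/-- the Hasse symbol of a ramified class -/
def LOCGStmt : Prop := ∀ (p : ℕ) [Fact p.Prime] (g : ℕ) (f : ℤ[X]) (a : ℤ) (δ : ℚ_[p][X])
  (s : ℚ_[p] → ℚ_[p] → ℤ) (e : Fin (2 * g + 1) → ℚ_[p]) (u : ZMod 2), p ≠ 2 → Zq g f → Rt p f a →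
  Sp p s → Dg (Gm g (zK f ℚ_[p]) δ) e → IsSquare (Nm (zK f ℚ_[p]) δ) → NG p f a δ u 1 →
  (Hs s e = 1 ↔ u = 0)

/-- the invariants of the marked class -/
def BEGStmt : Prop := ∀ (p : ℕ) [Fact p.Prime] (g : ℕ) (f : ℤ[X]) (a u v G : ℤ), p ≠ 2 → Zq g f →
  Rt p f a → Nm f (-el u v) = G → IsCoprime u v → ¬(p : ℤ) ^ 2 ∣ G → (p : ℤ) ∣ (el u v).eval a →
  NG p f a (zK (be u v G) ℚ_[p]) 0 1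

/-- the local image at a prime of the smooth part -/
def RAMGStmt : Prop := ∀ (p : ℕ) [Fact p.Prime] (g : ℕ) (f F κ : ℤ[X]) (a u v G : ℤ)
  (δ : ℚ_[p][X]), p ≠ 2 → Zq g f → Rt p f a → Cp g f F κ u v G → IsCoprime u v → ¬Nx p f →
  (p : ℤ) ∣ G → ¬(p : ℤ) ^ 2 ∣ G → (p : ℤ) ∣ (el u v).eval a →
  Wt (zK f ℚ_[p]) (zK F ℚ_[p]) (zK κ ℚ_[p]) δ → ∃ y, NG p f a δ 0 y

/-- reciprocity -/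
def RECStmt : Prop := ∀ (g : ℕ) (f : ℤ[X]) (Q : Finset ℕ) (m₀ : ℕ) (a : ℤ) (δ : ℚ[X])
  (u y : ℕ → ZMod 2), Zq g f → (∀ q ∈ Q, q.Prime ∧ q % 4 = 1 ∧ Ty q f) → Sm0 Q m₀ a →
  (∀ p : ℕ, p.Prime → p ∣ m₀ → Rt p f a) → IsSquare (Nm (zK f ℚ) δ) →
  Wc 1 (zK f ℝ) (fK δ ℝ) → Wc 1 (zK f ℚ_[2]) (fK δ ℚ_[2]) →
  (∀ (p : ℕ) [Fact p.Prime], p ∉ Q → ¬p ∣ m₀ → Ev p f (fK δ ℚ_[p])) →
  (∀ (p : ℕ) [Fact p.Prime], p ∣ m₀ → ∃ t, NG p f a (fK δ ℚ_[p]) 0 t) →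
  (∀ (q : ℕ) [Fact q.Prime], q ∈ Q → NF q f (fK δ ℚ_[q]) (u q) (y q)) → ∑ q ∈ Q, u q * y q = 0

def KILLStmt : Prop := ∀ (g : ℕ) (f : ℤ[X]) (Q : Finset ℕ) (m₀ : ℕ) (a : ℤ), Zq g f →
  (∀ q ∈ Q, q.Prime ∧ q % 8 = 1 ∧ Ty q f) → (∀ p : ℕ, p.Prime → ¬Nx p f) → Inc f → Sm0 Q m₀ a →
  (∀ p : ℕ, p.Prime → p ∣ m₀ → Rt p f a) → Str3 Q m₀ a f →
  ∃ S ⊆ Q, ∀ (F κ : ℤ[X]) (u v G : ℤ) (r : ℕ), Cp g f F κ u v G →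
    IsCoprime u v → 8 ∣ v → r.Prime → r ≠ 2 → r ∉ Q → ¬r ∣ m₀ →
    G = ((m₀ * ∏ q ∈ S, q : ℕ) : ℤ) * (r : ℤ) → (m₀ : ℤ) ∣ (el u v).eval a →
    Sr r f u v → ∀ δ : ℚ[X], Els (zK F ℚ) δ → ∃ i j : ℕ, i ≤ 1 ∧ j ≤ 1 ∧
      Sqm (zK f ℚ) (δ.comp (zK κ ℚ) * zK (be u v G) ℚ ^ i * (1 - X) ^ j)

/-! ### B. lattices -/

/-- gluing -/
def GLUStmt : Prop := ∀ (g : ℕ) (f : ℤ[X]) (δ : ℚ[X]) (x : ℕ → ℚ[X]) (R : ℕ → ℤ[X]) (P : Finset ℕ),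
  Zq g f → Gen f δ x R P → ∃ (b : Fin (2 * g + 1) → ℚ[X]) (A T : Mat g ℤ),
    Bs g f {y | Mem f x y} b ∧ Mt g f δ b A T ∧ ∀ p : ℕ, p.Prime → Frm g p f (R p) A T

/-- rational local generators for one class -/
def LOCAStmt : Prop := ∀ (g : ℕ) (Q : Finset ℕ) (m₀ m₁ : ℕ) (a : ℤ) (f : ℤ[X]) (m : ℤ) (δ : ℚ[X]),
  Sm0 Q m₀ a → Fm g Q m₀ a f m → m₁ ∣ m₀ →
  (∀ (p : ℕ) [Fact p.Prime], ¬p ∣ m₀ → Ev p f (fK δ ℚ_[p])) →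
  (∀ (p : ℕ) [Fact p.Prime], p ∣ m₀ → NG p f a (fK δ ℚ_[p]) 0 (if p ∣ m₁ then 1 else 0)) →
  (∀ (q : ℕ) [Fact q.Prime], q ∈ Q → NF q f (fK δ ℚ_[q]) 0 0) →
  ∃ (x : ℕ → ℚ[X]) (r : ℕ → ℤ[X]) (P : Finset ℕ), Gen f δ x (Rp m₁ f a r) P ∧
    ∀ p : ℕ, p.Prime → IsCoprime (zK (r p) (ZMod p)) (zK f (ZMod p)) ∧
      (p ∣ m₀ → IsSquare ((((r p).eval a : ℤ)) : ZMod p)) ∧
      (p ∈ Q → IsSquare ((((r p).eval 0 : ℤ)) : ZMod p))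

/-- and for the second class -/
def LOCBStmt : Prop := ∀ (g : ℕ) (Q : Finset ℕ) (m₀ m₁ : ℕ) (a : ℤ) (f : ℤ[X]) (m : ℤ) (δ : ℚ[X])
  (x : ℕ → ℚ[X]) (r : ℕ → ℤ[X]) (P : Finset ℕ), Sm0 Q m₀ a → Fm g Q m₀ a f m → m₁ ∣ m₀ →
  Gen f δ x (Rp m₁ f a r) P →
  (∀ p : ℕ, p.Prime → IsCoprime (zK (r p) (ZMod p)) (zK f (ZMod p)) ∧
    (p ∣ m₀ → IsSquare ((((r p).eval a : ℤ)) : ZMod p))) →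
  ∃ (x' : ℕ → ℚ[X]) (r' : ℕ → ℤ[X]) (P' : Finset ℕ), Gen f (δ * (1 - X)) x' (Rp m₁ f a r') P' ∧
    (∀ y, Mem f x y → Mem f x' y) ∧
    ∀ p : ℕ, p.Prime → IsCoprime (zK (r' p) (ZMod p)) (zK f (ZMod p)) ∧
      (p ∣ m₀ → IsSquare ((((r' p).eval a : ℤ)) : ZMod p))

/-- the shape of a framed form -/
def SHPStmt : Prop := ∀ (p g : ℕ) (f r : ℤ[X]) (a : ℤ) (A T : Mat g ℤ), p.Prime → Zq g f →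
  IsCoprime (zK r (ZMod p)) (zK f (ZMod p)) →
  (Frm g p f r A T → ¬(p : ℤ) ∣ A.det) ∧
  (p ≠ 2 → Rt p f a → IsSquare (((r.eval a : ℤ)) : ZMod p) →
    IsSquare ((((-1) ^ g * A.det : ℤ)) : ℚ) →
    (Frm g p f (r * pw p f a) A T → Hy g p A ∧ (∀ i j, (p : ℤ) ∣ (A * T - a • A) i j) ∧
      (p : ℤ) ^ (2 * g) ∣ A.det ∧ ¬(p : ℤ) ^ (2 * g + 1) ∣ A.det) ∧
    (Frm g p f r A T → Hz g (mK (A * T - a • A) (ZMod p))))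

/-- the condition at a prime of `Q` -/
def STQStmt : Prop := ∀ (q g : ℕ) (f r : ℤ[X]) (A T : Mat g ℤ), q.Prime → Zq g f → Ty q f →
  IsCoprime (zK r (ZMod q)) (zK f (ZMod q)) → IsSquare (((r.eval 0 : ℤ)) : ZMod q) →
  Frm g q f r A T → T.charpoly = f → St (zK f (ZMod q)) (mK A (ZMod q)) (mK (A * T) (ZMod q))

/-- facts on the matrices of a basis -/
def MTXStmt : Prop := ∀ (g : ℕ) (f : ℤ[X]) (δ : ℚ[X]) (Λ : Set ℚ[X])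
  (b : Fin (2 * g + 1) → ℚ[X]) (A T : Mat g ℤ), Zq g f → IsCoprime δ (zK f ℚ) →
  IsSquare (Nm (zK f ℚ) δ) → Bs g f Λ b → Mt g f δ b A T →
  A.IsSymm ∧ (A * T).IsSymm ∧ T.charpoly = f ∧ A.det ≠ 0 ∧
  IsSquare ((((-1) ^ g * A.det : ℤ)) : ℚ) ∧ (¬Sqm (zK f ℚ) δ → Ni g A T) ∧
  Mt g f (δ * (1 - X)) b (A * (1 - T)) T

/-- a bad polynomial gives two lattices -/
def PREStmt : Prop := ∀ (g : ℕ) (Q : Finset ℕ) (m₀ : ℕ) (a : ℤ) (f : ℤ[X]) (m : ℤ), Sm0 Q m₀ a →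
  Fm g Q m₀ a f m → ¬Str3 Q m₀ a f →
  ∃ m₁, m₁ ∣ m₀ ∧ ∃ A A' M T : Mat g ℤ, Pre g Q f m₀ m₁ a A A' M T

/-- hyperbolic forms over finite fields -/
def HYPStmt : Prop := ∀ (F : Type) [Field F] [Fintype F], (2 : F) ≠ 0 → ∀ (g : ℕ)
  (e : Fin (2 * g) → F), (∀ i, e i ≠ 0) → IsSquare ((-1) ^ g * ∏ i, e i) →
  ∃ φ : ((Fin g → F) × (Fin g → F)) ≃ₗ[F] (Fin (2 * g) → F),
    ∀ x y, ∑ i, e i * φ x i * φ y i = x.1 ⬝ᵥ y.2 + x.2 ⬝ᵥ y.1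

/-- many Lagrangians -/
def LAGCStmt : Prop := ∀ (F : Type) [Field F] [Fintype F], (2 : F) ≠ 0 → ∀ (g : ℕ)
  (e : Fin (2 * g) → F), 1 ≤ g → (∀ i, e i ≠ 0) → IsSquare ((-1) ^ g * ∏ i, e i) →
  ∃ 𝓛 : Finset (Submodule F (Fin (2 * g) → F)), 2 * Fintype.card F ^ g.choose 2 ≤ 𝓛.card ∧
    ∀ Λ ∈ 𝓛, Nat.card Λ = Fintype.card F ^ g ∧ ∀ x ∈ Λ, ∀ y ∈ Λ, ∑ i, e i * x i * y i = 0

def LGOStmt : Prop := ∀ (g p : ℕ) (A : Mat g ℤ), 1 ≤ g → p.Prime → p ≠ 2 → A.IsSymm → Hy g p A →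
  Lk p A ∧ ∃ 𝓛 : Finset (Sub g p), 2 * p ^ g.choose 2 ≤ 𝓛.card ∧ ∀ Λ ∈ 𝓛, Lg p A Λ

/-- overlattices exist -/
def OVLStmt : Prop := ∀ (g m₁ : ℕ) (A : Mat g ℤ) (Λ : ∀ p : ℕ, Sub g p), Squarefree m₁ →
  A.det.natAbs = m₁ ^ (2 * g) → (∀ p : ℕ, p.Prime → p ∣ m₁ → Lg p A (Λ p)) → ∃ R B, Ov m₁ A Λ R B

/-- facts on overlattices -/
def OVFStmt : Prop := ∀ (g m₁ : ℕ) (A R B : Mat g ℤ) (Λ : ∀ p : ℕ, Sub g p), Squarefree m₁ →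
  A.IsSymm → Ov m₁ A Λ R B → B.IsSymm ∧ R.det ≠ 0 ∧ (∃ R₁ : Mat g ℤ, R * R₁ = (m₁ : ℤ) • 1) ∧
    (∀ i j, (m₁ : ℤ) ∣ (A * R) i j) ∧ ∀ p : ℕ, p.Prime → p ∣ m₁ →
      ∀ x, x ∈ Λ p ↔ ∃ ξ : Vz g, rd p (R *ᵥ ξ) = x

/-- the scaled polynomial -/
def FHStmt : Prop := ∀ (g : ℕ) (c : ℤ) (f : ℤ[X]), c ≠ 0 → Zq g f → Zq g (fh c f) ∧
  (∀ T : Mat g ℤ, T.charpoly = f →
    ((1 - c ^ 2) • (1 : Mat g ℤ) + (c ^ 2) • T).charpoly = fh c f) ∧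
  (∀ ρ : ℝ, 1 ≤ ρ → Rb ρ f → Rb (2 * |(c : ℝ)| * ρ) (fh c f)) ∧
  ∀ f' : ℤ[X], Zq g f' → fh c f = fh c f' → f = f'

/-- the triple -/
def TRPStmt : Prop := ∀ (g : ℕ) (Q : Finset ℕ) (m₀ m₁ : ℕ) (a : ℤ) (f : ℤ[X]) (m : ℤ)
  (A A' M T R R' B B' : Mat g ℤ) (Λ Λ' : ∀ p : ℕ, Sub g p), Zq g f → f.eval 1 = m ^ 2 →
  Squarefree m₁ → Pre g Q f m₀ m₁ a A A' M T → Ov m₁ A Λ R B → Ov m₁ A' Λ' R' B' →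
  ∃ N, Tp g f m m₁ A' M T R R' B B' N

/-- the condition at the ramified primes holds -/
def LOPStmt : Prop := ∀ (g : ℕ) (Q : Finset ℕ) (m₀ m₁ : ℕ) (a : ℤ) (f : ℤ[X]) (m : ℤ)
  (A A' M T R R' B B' N : Mat g ℤ) (Λ Λ' : ∀ p : ℕ, Sub g p) (p : ℕ), Sm0 Q m₀ a →
  Fm g Q m₀ a f m → m₁ ∣ m₀ → Pre g Q f m₀ m₁ a A A' M T → Ov m₁ A Λ R B → Ov m₁ A' Λ' R' B' →
  Tp g f m m₁ A' M T R R' B B' N → p.Prime → p ∣ m₁ → Lk p A → Lk p A' →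
  L1 p ((1 - a) * ((m₁ / p : ℕ) : ℤ) ^ 2) B B' N

/-- the other conditions hold -/
def LTPStmt : Prop := ∀ (g : ℕ) (Q : Finset ℕ) (m₀ m₁ : ℕ) (a : ℤ) (f : ℤ[X]) (m : ℤ)
  (A A' M T R R' B B' N : Mat g ℤ) (Λ Λ' : ∀ p : ℕ, Sub g p), Sm0 Q m₀ a →
  Fm g Q m₀ a f m → m₁ ∣ m₀ → Pre g Q f m₀ m₁ a A A' M T → Ov m₁ A Λ R B → Ov m₁ A' Λ' R' B' →
  Tp g f m m₁ A' M T R R' B B' N → (∀ q ∈ Q, LQ q f m m₁ B B' N) ∧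
    ∀ p : ℕ, p.Prime → p ∣ m₀ → ¬p ∣ m₁ → L2 p ((m₁ : ℤ) ^ 2 * (1 - a) - 1) B B' N

/-- isomorphic triples come from the same Lagrangians -/
def NISStmt : Prop := ∀ (g : ℕ) (Q : Finset ℕ) (m₀ m₁ : ℕ) (a : ℤ) (f : ℤ[X]) (m : ℤ)
  (A A' M T R R' B B' N R₂ R₂' B₂ B₂' N₂ γ β : Mat g ℤ) (Λ Λ' Λ₂ Λ₂' : ∀ p : ℕ, Sub g p),
  Zq g f → f.eval 1 = m ^ 2 → Squarefree m₁ → Pre g Q f m₀ m₁ a A A' M T →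
  Ov m₁ A Λ R B → Ov m₁ A' Λ' R' B' → Tp g f m m₁ A' M T R R' B B' N →
  Ov m₁ A Λ₂ R₂ B₂ → Ov m₁ A' Λ₂' R₂' B₂' → Tp g f m m₁ A' M T R₂ R₂' B₂ B₂' N₂ →
  γ.det = 1 → β.det = 1 → B₂ = γᵀ * B * γ → B₂' = βᵀ * B' * β → N₂ = βᵀ * N * γ →
  ∀ p : ℕ, p.Prime → p ∣ m₁ → Λ p = Λ₂ p ∧ Λ' p = Λ₂' p

/-- many triples -/
def FAMStmt : Prop := ∀ (g : ℕ) (Q : Finset ℕ) (m₀ m₁ : ℕ) (a : ℤ) (f : ℤ[X]) (m : ℤ)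
  (A A' M T : Mat g ℤ), Sm0 Q m₀ a → Fm g Q m₀ a f m → m₁ ∣ m₀ → Pre g Q f m₀ m₁ a A A' M T →
  ∃ I : Finset (Trp g), mu1 g m₁ ≤ I.card ∧ Nis I ∧ ∀ x ∈ I,
    Tri (fh m₁ f) ((m₁ : ℤ) ^ (2 * g + 1) * m) x.1 x.2.1 x.2.2 ∧
    Lall Q f m m₀ m₁ a x.1 x.2.1 x.2.2 ∧ Nd x.1 x.2.1 x.2.2

/-- the neighbours -/
def BADNStmt : Prop := ∀ (g : ℕ) (Q : Finset ℕ) (m₀ : ℕ) (a : ℤ) (f : ℤ[X]) (m : ℤ) (M ρ : ℝ)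
  (p : ℕ), Sm0 Q m₀ a → Fm g Q m₀ a f m → ¬Sqm (zK f ℚ) (1 - X) → 1 ≤ ρ → Rb ρ f → 0 ≤ M →
  p.Prime → p ≠ 2 → p ∉ Q → ¬p ∣ m₀ → M ≤ p → Nx p f →
  ∃ (A A' N : Mat g ℤ) (H H' : Mat g ℝ), Tri f m A A' N ∧ Lall Q f m m₀ 1 a A A' N ∧
    Maj2 ρ A A' N H H' ∧ Dst M (ρ ^ 2) A (Tt A A' N) H ∧
    ∀ M' : ℝ, 0 ≤ M' → Dst M' (ρ ^ 2) A' (Tt A' A Nᵀ) H'

/-! ### C. counting -/

def INVStmt : Prop := ∀ (g : ℕ) (Q : Finset ℕ) (f₀ : ℤ[X]) (mb : ℤ) (m₀ m₁ : ℕ) (a : ℤ),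
  Inv2 (Lall (g := g) Q f₀ mb m₀ m₁ a)

/-- division by the unitriangular matrices -/
def UNIStmt : Prop := ∀ g : ℕ, ∃ c : ℕ, ∀ (a b : ℤ) (e e' : Fin (2 * g + 1) → ℤ)
  (L : Mat g ℤ → Mat g ℤ → Mat g ℤ → Prop), Inv2 L → Monotone e → Monotone e' →
  ∀ S W : Finset (Trp g), Nis S →
  (∀ x ∈ S, (∃ f m, UC.Irr f ∧ m ≠ 0 ∧ Tri f m x.1 x.2.1 x.2.2) ∧ L x.1 x.2.1 x.2.2 ∧
    UC.Box a e x.1 ∧ UC.Box a e' x.2.1 ∧ Box2 b e e' x.2.2) →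
  (∀ (f : ℤ[X]) (m : ℤ) (A A' N : Mat g ℤ), Tri f m A A' N → L A A' N → UC.Box (a + c) e A →
    UC.Box (a + c) e' A' → Box2 (b + c) e e' N → (A, A', N) ∈ W) →
  (S.card : ℝ) * (2 : ℝ) ^ (∑ x ∈ UC.sup (2 * g + 1), (e x.2 - e x.1) +
    ∑ x ∈ UC.sup (2 * g + 1), (e' x.2 - e' x.1)) ≤ W.card

/-- triples in boxes -/
def BOXStmt : Prop := ∀ n : ℕ, ∃ c : ℝ, 0 < c ∧ ∀ (a : ℕ) (b : ℤ) (e e' : Fin n → ℤ)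
  (L : UC.Mz n → UC.Mz n → UC.Mz n → Prop) (μ : ℝ) (N₀ l : ℕ), 0 ≤ μ →
  (μ = 1 ∨ Dens2 L μ N₀ ∧ N₀ ≤ 2 ^ l ∧ ∀ p q, (l : ℤ) ≤ b + e' p + e q) →
  ∃ W : Finset (UC.Mz n × UC.Mz n × UC.Mz n),
    (∀ (f : ℤ[X]) (m : ℤ) (A A' N : UC.Mz n), Tri f m A A' N → L A A' N → UC.Box a e A →
      UC.Box a e' A' → Box2 b e e' N → (A, A', N) ∈ W) ∧
    (W.card : ℝ) ≤ μ * c ^ (a + 1) * (2 : ℝ) ^ (∑ p, ∑ q, max (b + e' p + e q) 0 +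
      ∑ x ∈ UC.up n, max (e x.1 + e x.2) 0 + ∑ x ∈ UC.up n, max (e' x.1 + e' x.2) 0)

/-- the count for reduced representatives -/
def COREStmt : Prop := ∀ g κ : ℕ, 1 ≤ g → ∃ c : ℝ, 0 < c ∧
  ∀ (L : Mat g ℤ → Mat g ℤ → Mat g ℤ → Prop) (μ : ℝ) (N₀ l : ℕ), Inv2 L → 0 ≤ μ → Dens2 L μ N₀ →
  N₀ ≤ 2 ^ l → ∀ s s₂ k : ℕ, 4 * s + l ≤ k → ∀ S : Finset (Trp g), Nis S →
  (∀ x ∈ S, (∃ f m, UC.Irr f ∧ m ≠ 0 ∧ Tri f m x.1 x.2.1 x.2.2) ∧ L x.1 x.2.1 x.2.2 ∧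
    ∃ e e' : Fin (2 * g + 1) → ℤ, UC.Ex e ∧ UC.Ex e' ∧ UC.Box κ e x.1 ∧ UC.Box κ e' x.2.1 ∧
    Box2 ((κ : ℤ) + k) e e' x.2.2 ∧ ¬Zb x.2.1 (Tt x.2.1 x.1 x.2.2ᵀ) ∧
    (Zb x.1 (Tt x.1 x.2.1 x.2.2) → s₂ ≠ 0 → (2 * s₂ : ℤ) ≤ dp k e)) →
  (S.card : ℝ) ≤ c * (2 ^ k) ^ ((2 * g + 1) ^ 2) * (μ + 1 / 2 ^ s + 1 / 2 ^ s₂)

def COUNTStmt : Prop := ∀ g : ℕ, 1 ≤ g → ∃ c : ℝ, 0 < c ∧
  ∀ (L : Mat g ℤ → Mat g ℤ → Mat g ℤ → Prop) (μ : ℝ) (N₀ : ℕ) (M ρ : ℝ), Inv2 L → 0 ≤ μ →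
  Dens2 L μ N₀ → 1 ≤ N₀ → 0 < M → (N₀ : ℝ) ≤ ρ → ∀ S : Finset (Trp g), Nis S →
  (∀ x ∈ S, L x.1 x.2.1 x.2.2 ∧ ∃ (f : ℤ[X]) (m : ℤ) (H H' : Mat g ℝ), Zq g f ∧ m ≠ 0 ∧
    Tri f m x.1 x.2.1 x.2.2 ∧ Maj2 ρ x.1 x.2.1 x.2.2 H H' ∧
    Dst M (ρ ^ 2) x.1 (Tt x.1 x.2.1 x.2.2) H ∧
    ∀ M' : ℝ, 0 ≤ M' → Dst M' (ρ ^ 2) x.2.1 (Tt x.2.1 x.1 x.2.2ᵀ) H') →
  (S.card : ℝ) ≤ c * (μ + (N₀ / ρ) ^ (1 / 4 : ℝ) + 1 / √M) * ρ ^ ((2 * g + 1) ^ 2)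

/-- zeros of a quadratic form of rank at least three -/
def QZStmt : Prop := ∀ (F : Type) [Field F] [Fintype F], (2 : F) ≠ 0 → ∀ (V : Type) [AddCommGroup V]
  [Module F V] [Module.Finite F V] (B : LinearMap.BilinForm F V), (∀ x y, B x y = B y x) →
  Module.finrank F (LinearMap.ker B) + 3 ≤ Module.finrank F V →
  (Nat.card {x : V // B x x = 0} : ℝ) * Fintype.card F ≤
    (Fintype.card F : ℝ) ^ Module.finrank F V * (1 + 5 / Fintype.card F)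

/-- isotropic tuples -/
def TUPStmt : Prop := ∀ k : ℕ, ∃ C : ℝ, 0 < C ∧ ∀ (F : Type) [Field F] [Fintype F], (2 : F) ≠ 0 →
  ∀ (ι : Type) [Fintype ι] [DecidableEq ι] (B : Matrix ι ι F), B.IsSymm → B.det ≠ 0 →
  2 * k + 1 ≤ Fintype.card ι →
  (Nat.card {x : Fin k → ι → F // LinearIndependent F x ∧ ∀ i j, x i ⬝ᵥ B *ᵥ x j = 0} : ℝ) *
      (Fintype.card F : ℝ) ^ (k + 1).choose 2 ≤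
    (Fintype.card F : ℝ) ^ (k * Fintype.card ι) * (1 + C / Fintype.card F)

/-- ordered bases -/
def BASStmt : Prop := ∀ (F : Type) [Field F] [Fintype F], 3 ≤ Fintype.card F → ∀ (k : ℕ) (V : Type)
  [AddCommGroup V] [Module F V] (W : Submodule F V), Nat.card W = Fintype.card F ^ k →
  (Fintype.card F : ℝ) ^ (k * k) ≤ (1 + 3 / Fintype.card F) *
    (Nat.card {x : Fin k → V // LinearIndependent F x ∧ Submodule.span F (Set.range x) = W} : ℝ)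

/-- maximal isotropic subspaces -/
def ISCStmt : Prop := ∀ g : ℕ, ∃ C : ℝ, 0 < C ∧ ∀ (p : ℕ) (A : Mat g ℤ), p.Prime → p ≠ 2 →
  A.IsSymm → IsUnit A.det →
  (Nat.card {M : Sub g p // Is1 p A M} : ℝ) ≤ (p : ℝ) ^ (g + 1).choose 2 * (1 + C / p)

/-- matrices adapted to a pair of flags -/
def FLGStmt : Prop := ∀ (g p : ℕ) (c : ℤ) (A A' : Mat g ℤ) (M M' : Sub g p), p.Prime → p ≠ 2 →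
  A.IsSymm → A'.IsSymm → IsUnit A.det → IsUnit A'.det → Is1 p A M → Is1 p A' M' →
  ∃ W : Finset (Mat g (ZMod (p ^ 2))), W.card ≤ 2 * p ^ (4 * g ^ 2 + 2 * g) ∧ ∀ N : Mat g ℤ,
    (∀ x x' : Vz g, (Pp p A M x → (p : ℤ) ∣ x' ⬝ᵥ N *ᵥ x) ∧
      (Pp p A' M' x' → (p : ℤ) ∣ x' ⬝ᵥ N *ᵥ x) ∧
      (rd p x ∈ M → Pp p A' M' x' → (p : ℤ) ^ 2 ∣ x' ⬝ᵥ N *ᵥ x) ∧
      (Pp p A M x → rd p x' ∈ M' → (p : ℤ) ^ 2 ∣ x' ⬝ᵥ N *ᵥ x) ∧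
      (Pp p A M x → Pp p A' M' x' → (p : ℤ) ^ 3 ∣
        (x' ⬝ᵥ N *ᵥ x) ^ 2 - (p : ℤ) ^ 2 * c * ((x ⬝ᵥ A *ᵥ x) * (x' ⬝ᵥ A' *ᵥ x')))) →
    mK N (ZMod (p ^ 2)) ∈ W

/-- the density at an unramified prime -/
def DTWStmt : Prop := ∀ g : ℕ, 1 ≤ g → ∃ C : ℝ, 0 < C ∧ ∀ (F : Type) [Field F] [Fintype F],
  (2 : F) ≠ 0 → ∀ (A A' : Mat g F) (c w : F), A.IsSymm → A'.IsSymm → A.det ≠ 0 → A'.det ≠ 0 →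
  w ≠ 0 → c + 1 = w ^ 2 →
  (Nat.card {N : Mat g F // Hz g (c • A + A * Tt A A' N)} : ℝ) * (2 * Fintype.card F) ≤
    (Fintype.card F : ℝ) ^ ((2 * g + 1) ^ 2) * (1 + C / Fintype.card F)

/-- the density of all conditions -/
def DENStmt : Prop := ∀ g : ℕ, 1 ≤ g → ∃ (q₀ : ℕ) (C : ℝ), 0 < C ∧ ∀ (Q : Finset ℕ) (f₀ : ℤ[X])
  (mb : ℤ) (m₀ m₁ : ℕ) (a : ℤ), (∀ q ∈ Q, q.Prime ∧ q₀ ≤ q ∧ Ty q f₀ ∧ ¬(q : ℤ) ∣ mb) →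
  Sm0 Q m₀ a → m₁ ∣ m₀ →
  Dens2 (Lall (g := g) Q f₀ mb m₀ m₁ a) (den g C Q m₀ m₁) ((∏ q ∈ Q, q) * m₀ ^ 2)

/-- the pairs with a given residue at `Q` -/
def Rs (Q : Finset ℕ) (f₀ : ℤ[X]) (mb : ℤ) (f : ℤ[X]) (m : ℤ) : Prop :=
  ∀ q ∈ Q, zK f (ZMod q) = zK f₀ (ZMod q) ∧ (m : ZMod q) = (mb : ZMod q)

/-- the first moment for one type -/
def FMAStmt : Prop := ∀ g : ℕ, 1 ≤ g → ∃ (q₀ : ℕ) (c C : ℝ), 0 < c ∧ 0 < C ∧ ∀ (Q : Finset ℕ)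
  (f₀ : ℤ[X]) (mb : ℤ) (m₀ : ℕ) (a : ℤ) (ρ : ℝ),
  (∀ q ∈ Q, q.Prime ∧ q₀ ≤ q ∧ Ty q f₀ ∧ ¬(q : ℤ) ∣ mb) → Sm0 Q m₀ a →
  (((∏ q ∈ Q, q) * m₀ ^ 2 : ℕ) : ℝ) ≤ ρ → ∀ S : Finset (ℤ[X] × ℤ),
  (∀ x ∈ S, Fm g Q m₀ a x.1 x.2 ∧ Rs Q f₀ mb x.1 x.2 ∧ Rb ρ x.1) →
  (∀ m₁ : ℕ, m₁ ∣ m₀ → (∀ x ∈ S, ∃ A A' M T : Mat g ℤ, Pre g Q x.1 m₀ m₁ a A A' M T) →
    (S.card : ℝ) * mu1 g m₁ ≤
      c * (den g C Q m₀ m₁ + 2 * ((((∏ q ∈ Q, q) * m₀ ^ 2 : ℕ) : ℝ) / ρ) ^ (1 / 4 : ℝ)) *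
        (2 * m₁ * ρ) ^ ((2 * g + 1) ^ 2)) ∧
  ((∀ x ∈ S, ¬Sqm (zK x.1 ℚ) (1 - X) ∧
      ∃ p : ℕ, p.Prime ∧ p ≠ 2 ∧ p ∉ Q ∧ ¬p ∣ m₀ ∧ √ρ ≤ p ∧ Nx p x.1) →
    (S.card : ℝ) ≤
      c * (den g C Q m₀ 1 + 2 * ((((∏ q ∈ Q, q) * m₀ ^ 2 : ℕ) : ℝ) / ρ) ^ (1 / 4 : ℝ)) *
        ρ ^ ((2 * g + 1) ^ 2))

/-- the first moment -/
def FMStmt : Prop := ∀ g : ℕ, 1 ≤ g → ∃ (q₀ E : ℕ) (c : ℝ), 0 < c ∧ ∀ (Q : Finset ℕ) (f₀ : ℤ[X])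
  (mb : ℤ) (ε : ℝ), (∀ q ∈ Q, q.Prime ∧ q₀ ≤ q ∧ Ty q f₀ ∧ ¬(q : ℤ) ∣ mb) → 0 < ε →
  ∀ᶠ ρ : ℝ in atTop, ∀ (m₀ : ℕ) (a : ℤ), Sm0 Q m₀ a → (m₀ : ℝ) ^ E ≤ ρ →
  ∑ p ∈ m₀.primeFactors, 1 / (p : ℝ) ≤ 1 → ∀ S : Finset (ℤ[X] × ℤ),
  (∀ x ∈ S, Fm g Q m₀ a x.1 x.2 ∧ Rs Q f₀ mb x.1 x.2 ∧ Rb ρ x.1 ∧ ¬Sqm (zK x.1 ℚ) (1 - X) ∧
    (¬Str3 Q m₀ a x.1 ∨ ∃ p : ℕ, p.Prime ∧ p ≠ 2 ∧ p ∉ Q ∧ ¬p ∣ m₀ ∧ √ρ ≤ p ∧ Nx p x.1)) →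
  (S.card : ℝ) ≤ (c * (9 / 10) ^ Q.card / (∏ q ∈ Q, (q : ℝ)) ^ (2 * g + 1) + ε) *
    ρ ^ ((2 * g + 1) ^ 2) / m₀

theorem kill_of (wt : WTStmt) (qst : QSTStmt) (ev1 : EV1Stmt) (ev2 : EV2Stmt) (ram2 : RAM2Stmt)
    (two : TWOStmt) (real : REALStmt) (hen : HENStmt) (ngm : HENStmt → NGMStmt)
    (shz : HENStmt → SHZStmt) (locg : NGMStmt → SHZStmt → LOCGStmt) (beg : HENStmt → BEGStmt)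
    (ramg : WTStmt → QSTStmt → EV2Stmt → NGMStmt → LOCGStmt → BEGStmt → RAMGStmt)
    (rec2 : NGMStmt → LOCGStmt → RECStmt)
    (kill : WTStmt → EV1Stmt → EV2Stmt → RAM2Stmt → TWOStmt → REALStmt → NGMStmt → RAMGStmt →
      RECStmt → KILLStmt) : KILLStmt :=
  have hL := locg (ngm hen) (shz hen)
  kill wt ev1 ev2 ram2 two real (ngm hen) (ramg wt qst ev2 (ngm hen) hL (beg hen))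
    (rec2 (ngm hen) hL)

theorem fm_of (chg : CHGStmt) (lat : K2.LATStmt) (tri : TRIStmt) (maj : K2.MAJStmt) (red : K2.REDStmt)
    (adm : ADMStmt) (expo : K2.EXPStmt) (sums : K2.SUMStmt) (fc : K2.FCStmt) (ngm : NGMStmt)
    (shz : SHZStmt) (glu : GLUStmt) (loca : NGMStmt → LOCAStmt) (locb : LOCBStmt)
    (shp : NGMStmt → SHZStmt → SHPStmt) (stq : STQStmt) (mtx : MTXStmt)
    (pre : GLUStmt → LOCAStmt → LOCBStmt → SHPStmt → STQStmt → MTXStmt → PREStmt) (hyp : HYPStmt)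
    (lagc : HYPStmt → LAGCStmt) (lgo : LAGCStmt → LGOStmt) (ovl : OVLStmt) (ovf : OVFStmt)
    (fhs : FHStmt) (trp : CHGStmt → OVFStmt → FHStmt → TRPStmt) (lop : OVFStmt → LOPStmt)
    (ltp : CHGStmt → OVFStmt → LTPStmt) (nis : CHGStmt → OVFStmt → NISStmt)
    (fam : LGOStmt → OVLStmt → TRPStmt → LOPStmt → LTPStmt → NISStmt → FAMStmt)
    (badn : K2.LATStmt → TRIStmt → K2.MAJStmt → SHPStmt → MTXStmt → BADNStmt)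
    (inv : CHGStmt → INVStmt) (uni : CHGStmt → UNIStmt) (box : BOXStmt)
    (core : ADMStmt → UNIStmt → BOXStmt → K2.EXPStmt → K2.SUMStmt → COREStmt)
    (count : CHGStmt → K2.REDStmt → COREStmt → COUNTStmt) (qz : QZStmt) (tup : QZStmt → TUPStmt)
    (bas : BASStmt) (isc : TUPStmt → BASStmt → ISCStmt) (flg : FLGStmt)
    (dtw : LAGCStmt → TUPStmt → BASStmt → DTWStmt)
    (dens : K2.FCStmt → ISCStmt → FLGStmt → DTWStmt → DENStmt)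
    (fma : K2.MAJStmt → FHStmt → FAMStmt → BADNStmt → INVStmt → COUNTStmt → DENStmt → FMAStmt)
    (fm : PREStmt → FMAStmt → FMStmt) : FMStmt :=
  have hS := shp ngm shz
  fm (pre glu (loca ngm) locb hS stq mtx)
    (fma maj fhs (fam (lgo (lagc hyp)) ovl (trp chg ovf fhs) (lop ovf) (ltp chg ovf) (nis chg ovf))
      (badn lat tri maj hS mtx) (inv chg) (count chg red (core adm (uni chg) box expo sums))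
      (dens fc (isc (tup qz) bas) flg (dtw (lagc hyp) (tup qz) bas)))

end Pool.Agent.MP_a43263_nt.N2
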