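import Pool.Agent.MP_a43263_nt.N2.SpecB
import Pool.Agent.MP_a43263_nt.N2.Prs

/-! THEOREM N2, sieve and final count: definitions and statements.
Note: `/team-store/a43263_N_h11.md`. -/

set_option autoImplicit false

noncomputable section

namespace Pool.Agent.MP_a43263_nt.N2

open Polynomial Finset Filter Matrix JC Pool.Agent.MP_a43263_nt.UV K2

/-- the number of points of a box in a class, with an error -/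
def pb (g k m m' : ℕ) (t : ℝ) : ℝ := ∏ i : Fin (2 * g + 1),
  (2 * (k : ℝ) ^ xp g i.1 / (m * if i.1 + 1 = 2 * g then (m' : ℝ) else 1) + t)

/-- the smooth parts, for the sieve -/
structure Ms (v : ℕ) (Q : Finset ℕ) (m u : ℕ) : Prop where
  sf : Squarefree m
  cu : m.Coprime (u * v)
  cq : m.Coprime (30 * ∏ q ∈ Q, q)
  sum : ∑ p ∈ m.primeFactors, 1 / (p : ℝ) ≤ 1 / 56

section
variable {g : ℕ}

/-- good coefficient vectors -/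
structure Gd (v : ℕ) (Q : Finset ℕ) (m u : ℕ) (a : ℤ) (w : Vec g) : Prop where
  fam : Fam g Q (f1 w)
  dv : (m : ℤ) ∣ Gv w u v
  rt : ∀ p : ℕ, p.Prime → p ∣ m → Rt p (f1 w) a
  str : Str3 Q m a (f1 w)

/-- admissible classes of points -/
structure Cl (v N : ℕ) (S : Finset ℕ) (w : Vec g) (a : ℕ) : Prop where
  five : (5 : ℤ) ∣ (a : ℤ) - v
  cop : a.Coprime v
  nd : ∀ q ∈ S, ¬q ∣ a
  ad : Ad1 v N (∏ q ∈ S, q) w a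

/-- the chosen class -/
def al (v N : ℕ) (S : Finset ℕ) (w : Vec g) : ℕ := sInf {a | Cl v N S w a}

/-- good base points -/
def Ok (v N k U : ℕ) (Q : Finset ℕ) (m u : ℕ) (w : Vec g) : Prop := ∃ S ⊆ Q,
  Cl v N S w (al v N S w) ∧ u ∈ Us N (al v N S w) m U ∧ (m : ℤ) ∣ Gv w u v ∧
  ∀ j r : ℕ, pu N m u j ≤ 3 * k → r.Prime →
    Gv w (pu N m u j) v = ((m * ∏ q ∈ S, q : ℕ) : ℤ) * r → Bst w (pu N m u j) v ∧ k < r

/-- good points -/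
def Hit (v N k m x : ℕ) (w : Vec g) : Prop := Bst w x v ∧
  ∃ d r : ℕ, d ∣ N ∧ r.Prime ∧ k < r ∧ Gv w x v = ((m * d : ℕ) : ℤ) * r

end

/-- the second coordinate exists -/
def PVXStmt : Prop := ∀ g : ℕ, ∃ v : ℕ, Pv g v

/-- the root at the smooth part -/
def RTSStmt : Prop := (∀ (g p : ℕ) (w : Vec g) (u v a : ℤ), p.Prime → ¬(p : ℤ) ∣ v →
    (p : ℤ) ∣ (el u v).eval a → (p : ℤ) ∣ Gv w u v → ¬(p : ℤ) ∣ Gx w u v → Rt p (f1 w) a) ∧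
  (∀ (v : ℕ) (Q : Finset ℕ) (m u : ℕ) (a : ℤ), (∀ q ∈ Q, q.Prime) → Ms v Q m u →
    (m : ℤ) ∣ (el u v).eval a → Sm0 Q m a) ∧
  ∀ m u v : ℕ, m.Coprime v → ∃ a : ℤ, (m : ℤ) ∣ (el u v).eval a

/-- polynomials that are not maximal at one prime -/
def LWNStmt : Prop := ∀ (g k m m' p u v : ℕ) (w₀ : Vec g), 1 ≤ g → p.Prime → p ≠ 2 → 0 < m →
  0 < m' → m.Coprime p → m'.Coprime (u * v) → m'.Coprime (m * p) →
  cnt g k (fun w => (∀ i, (w i : ZMod m) = w₀ i) ∧ (m' : ℤ) ∣ Gv w u v ∧ Nx p (f1 w)) ≤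
    4 / ((p : ℝ) ^ 2 - 1) * pb g k m m' ((p : ℝ) ^ 2)

/-- exclusions at a prime of the smooth part -/
def LWXStmt : Prop := ∀ (g k m m' p u v : ℕ) (w₀ : Vec g), 1 ≤ g → p.Prime → 0 < m → 0 < m' →
  p ∣ m' → m'.Coprime (u * v) → m'.Coprime m →
  cnt g k (fun w => (∀ i, (w i : ZMod m) = w₀ i) ∧ (m' : ℤ) ∣ Gv w u v ∧
    ((p : ℤ) ∣ w (Fin.last _) ∨ (p : ℤ) ∣ Gx w u v)) ≤ 2 / (p : ℝ) * pb g k m m' p

/-- the small primes -/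
def LOWStmt : Prop := ∀ (g v : ℕ) (Q : Finset ℕ) (w₀ : Vec g), 1 ≤ g →
  (∀ q ∈ Q, q.Prime ∧ 7 ≤ q) → ∀ᶠ k : ℕ in atTop, ∀ m u : ℕ, Ms v Q m u → m ^ 12 ≤ k →
  1 / 2 / (30 * ∏ q ∈ Q, (q : ℝ)) ^ (2 * g + 1) * vol g k / m ≤
    cnt g k fun w => (∀ i, (w i : ZMod (30 * ∏ q ∈ Q, q)) = w₀ i) ∧ (m : ℤ) ∣ Gv w u v ∧
      (∀ p : ℕ, p.Prime → 7 ≤ p → p ∉ Q → (p : ℝ) < √(5 * k) → ¬Nx p (f1 w)) ∧
      ∀ p : ℕ, p.Prime → p ∣ m → ¬(p : ℤ) ∣ w (Fin.last _) ∧ ¬(p : ℤ) ∣ Gx w u v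

def SIEVEStmt : Prop := ∀ g v : ℕ, 1 ≤ g → ∃ (Q : Finset ℕ) (ε : ℝ) (E : ℕ), 0 < ε ∧
  (∀ q ∈ Q, q.Prime ∧ v < q) ∧ ∀ᶠ k : ℕ in atTop, ∀ (m u : ℕ) (a : ℤ), Ms v Q m u →
    m ^ E ≤ k → m ^ 12 ≤ k → (m : ℤ) ∣ (el u v).eval a →
    ε * vol g k / m ≤ cnt g k (Gd v Q m u a)

/-- admissible classes exist -/
def CLSStmt : Prop := (∀ (g v z : ℕ) (Q S : Finset ℕ) (w : Vec g), Pv g v → v ≤ z →
    Fam g Q (f1 w) → S ⊆ Q → (∀ q ∈ Q, v < q ∧ q ≤ z) → ∃ a, Cl v (primorial z) S w a) ∧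
  ∀ (g v N : ℕ) (S : Finset ℕ) (w wb : Vec g), 0 < N → (∏ q ∈ S, q) ∣ N → Cw N wb w →
    (∀ a, Cl v N S w a ↔ Cl v N S wb a) ∧ al v N S w = al v N S wb

/-- from a good point to rank two -/
def ONEStmt : Prop := ∀ (g v : ℕ) (Q : Finset ℕ), 1 ≤ g → Pv g v → ∀ᶠ k : ℕ in atTop,
  ∀ w ∈ bx g k, ∀ (m u : ℕ) (a : ℤ), m ^ 12 ≤ k → Sm0 Q m a → Gd v Q m u a w →
  ∃ S ⊆ Q, ∀ x r : ℕ, 0 < x → x ≤ 3 * k → x.Coprime v → (5 : ℤ) ∣ (x : ℤ) - v →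
    (m : ℤ) ∣ (el x v).eval a → r.Prime → Gv w x v = ((m * ∏ q ∈ S, q : ℕ) : ℤ) * r →
    Bst w x v ∧ k < r

/-- many base points -/
def BSEStmt : Prop := ∀ g v : ℕ, 1 ≤ g → Pv g v → ∃ (Q : Finset ℕ) (ε : ℝ) (E : ℕ), 0 < ε ∧
  (∀ q ∈ Q, q.Prime ∧ v < q) ∧ ∀ᶠ z : ℕ in atTop, ∀ᶠ k : ℕ in atTop, ∀ U m : ℕ, Ur g k U →
    Mz z (1 / 56) m → m ^ E ≤ k → m ^ 12 ≤ k →
    ε * (vol g k * U / (m * (primorial z : ℝ) ^ 2)) ≤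
      ∑ u ∈ Ioc U (2 * U), cnt g k (Ok v (primorial z) k U Q m u)

/-- many good points -/
def MNYStmt : Prop := ∀ g v : ℕ, 1 ≤ g → Pv g v → ∃ E : ℕ, ∀ᶠ z : ℕ in atTop, ∃ ε : ℝ, 0 < ε ∧
  ∀ᶠ k : ℕ in atTop, ∀ U m : ℕ, Ur g k U → Mz z (1 / 56) m → m ^ E ≤ k → m ^ 12 ≤ k →
    ε * (vol g k * U / m) * (nl k / Real.log k) ≤ ∑ u ∈ Ioc U (2 * U), ∑ j ∈ range (nl k),
      cnt g k (Hit v (primorial z) k m (pu (primorial z) m u j))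

theorem main_of (trn : TRNStmt) (md : MODStmt) (pos : POSStmt) (iso : ISOStmt) (indp : INDStmt)
    (four : FOURStmt) (beta : K2.BETAStmt) (gcd : GCDStmt) (base : K2.BASEStmt) (cbx : CBXStmt)
    (siz : SIZStmt) (all : ALLStmt) (mset : MSETStmt) (kill : KILLStmt) (fm : FMStmt)
    (pvx : PVXStmt) (rts : RTSStmt) (lwn : K2.BETAStmt → CBXStmt → LWNStmt)
    (lwx : CBXStmt → LWXStmt) (low : CBXStmt → LWNStmt → LWXStmt → LOWStmt)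
    (sieve : TRNStmt → INDStmt → GCDStmt → K2.BASEStmt → FMStmt → RTSStmt → LOWStmt → SIEVEStmt)
    (cls : TRNStmt → CLSStmt)
    (one : SIZStmt → MODStmt → TRNStmt → POSStmt → ISOStmt → KILLStmt → INDStmt → FOURStmt →
      ONEStmt)
    (bse : RTSStmt → SIEVEStmt → CLSStmt → ONEStmt → BSEStmt)
    (mny : ALLStmt → CLSStmt → BSEStmt → MNYStmt)
    (fin : PVXStmt → MSETStmt → MNYStmt → MainStmt) : MainStmt :=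
  fin pvx mset (mny all (cls trn) (bse rts
    (sieve trn indp gcd base fm rts (low cbx (lwn beta cbx) (lwx cbx))) (cls trn)
    (one siz md trn pos iso kill indp four)))

end Pool.Agent.MP_a43263_nt.N2
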